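import Mathlib
import Pool.Agent.Lib.QU53.R7

/-!
# The triangular substitution, with its value at the first variable
-/

set_option autoImplicit false

namespace Pool.Agent.QU54

open IsLocalRing Pool.Agent.QU53

universe u

/-- The triangular substitution. -/
theorem exists_auto' {S : Type u} [CommRing S] [IsLocalRing S] (n : ℕ)
    (f : MvPowerSeries (Fin (n + 1)) S) (hf : MvPowerSeries.map (residue S) f ≠ 0) :
    ∃ τ : MvPowerSeries (Fin (n + 1)) S ≃+* MvPowerSeries (Fin (n + 1)) S,
      (∀ s : S, τ (MvPowerSeries.C s) = MvPowerSeries.C s) ∧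
      τ (MvPowerSeries.X 0) = MvPowerSeries.X 0 ∧
      PowerSeries.map (residue (MvPowerSeries (Fin n) S))
        (MvPowerSeries.finSuccEquiv S n (τ f)) ≠ 0 := by
  obtain ⟨e, he⟩ : ∃ e, residue S (MvPowerSeries.coeff e f) ≠ 0 := by
    by_contra hcon
    push Not at hcon
    exact hf (MvPowerSeries.ext fun e => by rw [MvPowerSeries.coeff_map, hcon e, map_zero])
  obtain ⟨N, hN, d₀, ⟨e₀, he₀, hed⟩, hmin⟩ := exists_wt7 n
    {d | ∃ e : Fin (n + 1) →₀ ℕ, residue S (MvPowerSeries.coeff e f) ≠ 0 ∧ d = e} ⟨_, e, he, rfl⟩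
  subst hed
  refine ⟨RingEquiv.ofRingHom
    (MvPowerSeries.substAlgHom (R := S) (tau7_hasSubst S (fun _ => 1) N hN)).toRingHom
    (MvPowerSeries.substAlgHom (R := S) (tau7_hasSubst S (fun _ => -1) N hN)).toRingHom
    ?_ ?_, ?_, ?_, ?_⟩
  · refine RingHom.ext fun f => ?_
    exact tau7_comp S (fun _ => -1) N hN (fun _ => 1) (fun j => (neg_neg _).symm) f
  · refine RingHom.ext fun f => ?_
    exact tau7_comp S (fun _ => 1) N hN (fun _ => -1) (fun j => rfl) f
  · intro a
    exact (MvPowerSeries.substAlgHom (R := S) (tau7_hasSubst S (fun _ => 1) N hN)).commutes a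
  · show MvPowerSeries.substAlgHom (R := S) (tau7_hasSubst S (fun _ => 1) N hN)
      (MvPowerSeries.X 0) = _
    rw [MvPowerSeries.substAlgHom_X]
    rfl
  · intro h0
    have h1 : residue (MvPowerSeries (Fin n) S) (PowerSeries.coeff (wt7 N e₀)
        (MvPowerSeries.finSuccEquiv S n (MvPowerSeries.substAlgHom (R := S)
          (tau7_hasSubst S (fun _ => 1) N hN) f))) = 0 := by
      have h2 := congrArg (PowerSeries.coeff (wt7 N e₀)) h0
      rw [PowerSeries.coeff_map, map_zero] at h2
      exact h2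
    rw [residue_eq_zero_iff, mem_maximalIdeal, mem_nonunits_iff,
      MvPowerSeries.isUnit_iff_constantCoeff, ← mem_nonunits_iff, ← mem_maximalIdeal,
      ← residue_eq_zero_iff, MvPowerSeries.substAlgHom_apply] at h1
    have h3 : PowerSeries.coeff (wt7 N e₀)
        (eps7 S (MvPowerSeries.subst (tau7 S (fun _ => 1) N) f)) =
        MvPowerSeries.constantCoeff (PowerSeries.coeff (wt7 N e₀)
          (MvPowerSeries.finSuccEquiv S n
            (MvPowerSeries.subst (tau7 S (fun _ => 1) N) f))) := by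
      rw [eps7_apply, PowerSeries.coeff_map]
    rw [← h3, coeff_tau7 S N hN] at h1
    have h4 := AddMonoidHom.map_finsum (residue S).toAddMonoidHom
      (finite_tau7 S N hN f (wt7 N e₀))
    have h5 : (residue S) (∑ᶠ d : Fin (n + 1) →₀ ℕ,
        MvPowerSeries.coeff d f * (if wt7 N e₀ = wt7 N d then (1 : S) else 0)) =
        ∑ᶠ d : Fin (n + 1) →₀ ℕ, residue S
          (MvPowerSeries.coeff d f * (if wt7 N e₀ = wt7 N d then (1 : S) else 0)) := h4
    rw [h5, finsum_eq_single _ e₀, if_pos rfl, mul_one] at h1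
    · exact he₀ h1
    · intro d hd
      by_cases h6 : wt7 N e₀ = wt7 N d
      · rw [if_pos h6, mul_one]
        by_contra h7
        have h8 := hmin d ⟨d, h7, rfl⟩ fun h => hd (DFunLike.coe_injective h)
        omega
      · rw [if_neg h6, mul_zero, map_zero]

end Pool.Agent.QU54
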