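import Mathlib
import Pool.Agent.Lib.QU53.Patch
import Pool.Agent.Lib.QU53.Step
import Pool.Agent.Lib.QU53.Main3

/-!
# Patching `T[1/y]` and `R[1/y]`, `R = T⟦x⟧/(g - x y ^ e)`
-/

set_option autoImplicit false

namespace Pool.Agent.QU54

open Polynomial IsLocalRing Pool.Agent.QU53

universe u

/-- The value of a polynomial. -/
theorem coe_eval₂ {T E : Type u} [CommRing T] [CommRing E] (π : PowerSeries T →+* E) (G : T[X]) :
    π (G : PowerSeries T) = G.eval₂ (π.comp PowerSeries.C) (π PowerSeries.X) := by
  induction G using Polynomial.induction_on' with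
  | add p q hp hq => rw [Polynomial.coe_add, map_add, hp, hq, eval₂_add]
  | monomial n c =>
    rw [← C_mul_X_pow_eq_monomial, Polynomial.coe_mul, Polynomial.coe_pow, Polynomial.coe_C,
      Polynomial.coe_X, eval₂_mul, eval₂_C, eval₂_X_pow, map_mul, map_pow]
    rfl

/-- The element `y ^ (e d) G (g / y ^ e)`. -/
noncomputable def hom1 {T : Type u} [CommRing T] (y g : T) (e : ℕ) (G : T[X]) : T :=
  ∑ i ∈ Finset.range (G.natDegree + 1), G.coeff i * g ^ i * y ^ (e * (G.natDegree - i))

theorem hom1_eval {T : Type u} [CommRing T] (y g : T) (e : ℕ) (G : T[X]) {E : Type u} [CommRing E]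
    (i : T →+* E) (x : E) (h : i g = x * i y ^ e) :
    i (hom1 y g e G) = i y ^ (e * G.natDegree) * eval₂ i x G := by
  rw [hom1, map_sum, eval₂_eq_sum_range, Finset.mul_sum]
  refine Finset.sum_congr rfl fun k hk => ?_
  have hk' : k ≤ G.natDegree := Nat.lt_succ_iff.1 (Finset.mem_range.1 hk)
  obtain ⟨d, hd⟩ := Nat.exists_eq_add_of_le hk'
  rw [map_mul, map_mul, map_pow, map_pow, h, mul_pow, hd, Nat.add_sub_cancel_left, ← pow_mul,
    Nat.mul_add, pow_add]
  ring

section step

variable {T : Type u} [CommRing T] [IsDomain T] [IsLocalRing T] [IsNoetherianRing T]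
  [IsAdicComplete (maximalIdeal T) T] {y g : T} {e : ℕ}

/-- The equation. -/
noncomputable def thD (y g : T) (e : ℕ) : PowerSeries T :=
  PowerSeries.C g - PowerSeries.X * PowerSeries.C y ^ e

omit [IsDomain T] [IsNoetherianRing T] [IsLocalRing T] [IsAdicComplete (maximalIdeal T) T] in
theorem coeff_thD_mul_zero (U : PowerSeries T) :
    PowerSeries.coeff 0 (thD y g e * U) = g * PowerSeries.coeff 0 U := by
  rw [thD, sub_mul, map_sub, mul_assoc, ← map_pow, PowerSeries.coeff_C_mul]
  simp

omit [IsDomain T] [IsNoetherianRing T] [IsLocalRing T] [IsAdicComplete (maximalIdeal T) T] in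
theorem coeff_thD_mul_succ (U : PowerSeries T) (i : ℕ) :
    PowerSeries.coeff (i + 1) (thD y g e * U) =
      g * PowerSeries.coeff (i + 1) U - y ^ e * PowerSeries.coeff i U := by
  rw [thD, sub_mul, map_sub, mul_assoc, ← map_pow, PowerSeries.coeff_C_mul,
    PowerSeries.coeff_succ_X_mul, PowerSeries.coeff_C_mul]

/-- No constant is a multiple of the equation. -/
theorem C_eq_thD_mul (hg : Prime g) (hgm : g ∈ maximalIdeal T) (hgy : ¬ g ∣ y) (a : T)
    (U : PowerSeries T) (h : PowerSeries.C a = thD y g e * U) : a = 0 := by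
  have hgy' : ¬ g ∣ y ^ e := fun h => hgy (hg.dvd_of_dvd_pow h)
  have h1 : ∀ i, y ^ e * PowerSeries.coeff i U = g * PowerSeries.coeff (i + 1) U := by
    intro i
    have h2 := congrArg (PowerSeries.coeff (i + 1)) h
    rw [coeff_thD_mul_succ, PowerSeries.coeff_C, if_neg (Nat.succ_ne_zero i)] at h2
    linear_combination h2
  have h2 : ∀ N i, g ^ N ∣ PowerSeries.coeff i U := by
    intro N
    induction N with
    | zero => intro i; simp
    | succ N ih =>
      intro i
      refine hg.pow_dvd_of_dvd_mul_left (N + 1) hgy' ?_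
      rw [h1, pow_succ']
      exact mul_dvd_mul_left g (ih (i + 1))
  have h3 : PowerSeries.coeff 0 U = 0 := by
    have h4 : PowerSeries.coeff 0 U ∈ (⨅ i : ℕ, maximalIdeal T ^ i : Ideal T) := by
      rw [Ideal.mem_iInf]
      intro N
      obtain ⟨c, hc⟩ := h2 N 0
      rw [hc]
      exact Ideal.mul_mem_right _ _ (Ideal.pow_mem_pow hgm N)
    rw [Ideal.iInf_pow_eq_bot_of_isLocalRing _ (IsLocalRing.maximalIdeal.isMaximal T).ne_top] at h4
    exact h4
  have h4 := congrArg (PowerSeries.coeff 0) h
  rw [coeff_thD_mul_zero, h3, mul_zero, PowerSeries.coeff_zero_C] at h4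
  exact h4

variable {R' : Type u} [CommRing R'] [IsDomain R'] (π : PowerSeries T →+* R')
  (hsurj : Function.Surjective π) (hker : ∀ f, π f = 0 → thD y g e ∣ f) (hth : π (thD y g e) = 0)

omit [IsDomain T] [IsLocalRing T] [IsNoetherianRing T] [IsAdicComplete (maximalIdeal T) T]
  [IsDomain R'] in
include hth in
theorem dil_rel : π (PowerSeries.C g) = π PowerSeries.X * π (PowerSeries.C y) ^ e := by
  rw [thD, map_sub, map_mul, map_pow] at hth
  exact sub_eq_zero.1 hth

/-- The map `T[1/y] → R[1/y]`. -/
noncomputable def dphi (y : T) : Localization.Away y →+* Localization.Away (π (PowerSeries.C y)) :=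
  Localization.awayMap (π.comp PowerSeries.C) y

omit [IsDomain T] [IsLocalRing T] [IsNoetherianRing T] [IsAdicComplete (maximalIdeal T) T]
  [IsDomain R'] in
theorem dphi_alg (y a : T) : dphi π y (algebraMap T _ a) =
    algebraMap R' _ (π (PowerSeries.C a)) := by
  simp only [dphi, Localization.awayMap, IsLocalization.Away.map, IsLocalization.map_eq,
    RingHom.comp_apply]

theorem dphi_inj (hg : Prime g) (hgm : g ∈ maximalIdeal T) (hgy : ¬ g ∣ y)
    (hy : π (PowerSeries.C y) ≠ 0) (hker : ∀ f, π f = 0 → thD y g e ∣ f) :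
    Function.Injective (dphi π y) := by
  rw [injective_iff_map_eq_zero]
  intro a ha
  obtain ⟨m, a₀, ha₀⟩ := IsLocalization.Away.surj y a
  have hinj : Function.Injective (algebraMap R' (Localization.Away (π (PowerSeries.C y)))) :=
    IsLocalization.injective _ (powers_le_nonZeroDivisors_of_noZeroDivisors hy)
  have h1 : π (PowerSeries.C a₀) = 0 := by
    apply hinj
    rw [← dphi_alg, ← ha₀, map_mul, ha, zero_mul, map_zero]
  obtain ⟨U, hU⟩ := hker _ h1
  have h2 := C_eq_thD_mul hg hgm hgy a₀ U hU
  rw [h2, map_zero] at ha₀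
  have h3 : IsUnit (algebraMap T (Localization.Away y) y ^ m) :=
    (IsLocalization.Away.algebraMap_isUnit y).pow m
  exact (h3.mul_left_eq_zero).1 ha₀

omit [IsNoetherianRing T] in
include hth hsurj in
theorem dphi_h1 {H u : PowerSeries T} {G : T[X]} (HW : H.IsWeierstrassFactorization G u)
    (hH : PowerSeries.map (residue T) H ≠ 0) (v : Localization.Away (π (PowerSeries.C y))) :
    ∃ (a : Localization.Away y) (c : Localization.Away (π (PowerSeries.C y))),
      v = dphi π y a + dphi π y (algebraMap T _ (hom1 y g e G)) * c := by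
  classical
  set Y : Localization.Away (π (PowerSeries.C y)) := algebraMap R' _ (π (PowerSeries.C y)) with hY
  set w : Localization.Away (π (PowerSeries.C y)) := IsLocalization.Away.invSelf (π (PowerSeries.C y)) with hw
  have hwY : Y * w = 1 := IsLocalization.Away.mul_invSelf _
  have hrel := dil_rel π hth
  let J : Ideal (Localization.Away (π (PowerSeries.C y))) := Ideal.span {dphi π y (algebraMap T _ (hom1 y g e G))}
  let Sg : Subring (Localization.Away (π (PowerSeries.C y)) ⧸ J) := ((Ideal.Quotient.mk J).comp (dphi π y)).range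
  have hC : ∀ c : T, Ideal.Quotient.mk J (algebraMap R' (Localization.Away (π (PowerSeries.C y))) (π (PowerSeries.C c))) ∈ Sg := by
    intro c
    refine ⟨algebraMap T _ c, ?_⟩
    rw [RingHom.comp_apply, dphi_alg]
  have hwS : Ideal.Quotient.mk J w ∈ Sg := by
    refine ⟨IsLocalization.Away.invSelf y, ?_⟩
    rw [RingHom.comp_apply]
    congr 1
    have h1 : Y * dphi π y (IsLocalization.Away.invSelf y) = 1 := by
      rw [hY, ← dphi_alg, ← map_mul, IsLocalization.Away.mul_invSelf, map_one]
    calc dphi π y (IsLocalization.Away.invSelf y) = (Y * w) * dphi π y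
          (IsLocalization.Away.invSelf y) := by rw [hwY, one_mul]
      _ = w * (Y * dphi π y (IsLocalization.Away.invSelf y)) := by ring
      _ = w := by rw [h1, mul_one]
  have hXS : Ideal.Quotient.mk J (algebraMap R' (Localization.Away (π (PowerSeries.C y))) (π PowerSeries.X)) ∈ Sg := by
    have h1 : algebraMap R' (Localization.Away (π (PowerSeries.C y))) (π PowerSeries.X) =
        algebraMap R' (Localization.Away (π (PowerSeries.C y))) (π (PowerSeries.C g)) * w ^ e := by
      rw [hrel, map_mul, map_pow, ← hY, mul_assoc, ← mul_pow, hwY, one_pow, mul_one]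
    rw [h1, map_mul, map_pow]
    exact Sg.mul_mem (hC g) (Sg.pow_mem hwS e)
  have hpol : ∀ r : T[X], Ideal.Quotient.mk J (algebraMap R' (Localization.Away (π (PowerSeries.C y))) (π (r : PowerSeries T))) ∈ Sg := by
    intro r
    induction r using Polynomial.induction_on' with
    | add p q hp hq =>
      rw [Polynomial.coe_add, map_add, map_add, map_add]
      exact Sg.add_mem hp hq
    | monomial n c =>
      rw [← C_mul_X_pow_eq_monomial, Polynomial.coe_mul, Polynomial.coe_pow, Polynomial.coe_C,
        Polynomial.coe_X, map_mul, map_mul, map_mul, map_pow, map_pow, map_pow]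
      exact Sg.mul_mem (hC c) (Sg.pow_mem hXS n)
  have hHJ : algebraMap R' (Localization.Away (π (PowerSeries.C y))) (π H) ∈ J := by
    refine Ideal.mem_span_singleton.2 ⟨w ^ (e * G.natDegree) * algebraMap R' (Localization.Away (π (PowerSeries.C y))) (π u), ?_⟩
    have h1 := hom1_eval y g e G (π.comp PowerSeries.C) (π PowerSeries.X) hrel
    rw [dphi_alg]
    rw [RingHom.comp_apply, RingHom.comp_apply, ← coe_eval₂] at h1
    rw [h1, HW.eq_mul, map_mul, map_mul, map_mul, map_pow, ← hY]
    have h3 : Y ^ (e * G.natDegree) * w ^ (e * G.natDegree) = 1 := by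
      rw [← mul_pow, hwY, one_pow]
    linear_combination (-algebraMap R' (Localization.Away (π (PowerSeries.C y))) (π (G : PowerSeries T)) * algebraMap R' (Localization.Away (π (PowerSeries.C y))) (π u)) * h3
  have hR : ∀ v : R', Ideal.Quotient.mk J (algebraMap R' (Localization.Away (π (PowerSeries.C y))) v) ∈ Sg := by
    intro v
    obtain ⟨f, rfl⟩ := hsurj v
    obtain ⟨q, r, hqr⟩ := PowerSeries.exists_isWeierstrassDivision (A := T) (g := H) f hH
    rw [hqr.eq_mul_add, map_add, map_mul, map_add, map_mul, map_add, map_mul,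
      Ideal.Quotient.eq_zero_iff_mem.2 hHJ, zero_mul, zero_add]
    exact hpol r
  obtain ⟨m, v₀, hv⟩ := IsLocalization.Away.surj (π (PowerSeries.C y)) v
  have hvv : v = w ^ m * algebraMap R' (Localization.Away (π (PowerSeries.C y))) v₀ := by
    rw [← hv, ← hY]
    have h3 : Y ^ m * w ^ m = 1 := by rw [← mul_pow, hwY, one_pow]
    linear_combination (-v) * h3
  have hvS : Ideal.Quotient.mk J v ∈ Sg := by
    rw [hvv, map_mul, map_pow]
    exact Sg.mul_mem (Sg.pow_mem hwS m) (hR v₀)
  obtain ⟨a, ha⟩ := hvS
  rw [RingHom.comp_apply] at ha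
  obtain ⟨c, hc⟩ := Ideal.mem_span_singleton.1 (Ideal.Quotient.eq.1 ha.symm)
  exact ⟨a, c, by rw [← hc]; ring⟩

include hth hsurj in
theorem dphi_h2 (hker : ∀ f, π f = 0 → thD y g e ∣ f) (hy : π (PowerSeries.C y) ≠ 0)
    {H u : PowerSeries T} {G : T[X]} (HW : H.IsWeierstrassFactorization G u)
    (hH : PowerSeries.map (residue T) H ≠ 0) (a : Localization.Away y)
    (c : Localization.Away (π (PowerSeries.C y)))
    (h : dphi π y a = dphi π y (algebraMap T _ (hom1 y g e G)) * c) :
    ∃ a' : Localization.Away y, a = algebraMap T _ (hom1 y g e G) * a' := by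
  have hG : G.Monic := HW.isDistinguishedAt.monic
  have hrel := dil_rel π hth
  have hinj : Function.Injective (algebraMap R' (Localization.Away (π (PowerSeries.C y)))) :=
    IsLocalization.injective _ (powers_le_nonZeroDivisors_of_noZeroDivisors hy)
  obtain ⟨m, a₀, ha₀⟩ := IsLocalization.Away.surj y a
  obtain ⟨m', v₀, hv₀⟩ := IsLocalization.Away.surj (π (PowerSeries.C y)) c
  obtain ⟨f, rfl⟩ := hsurj v₀
  have h1 := hom1_eval y g e G (π.comp PowerSeries.C) (π PowerSeries.X) hrel
  rw [RingHom.comp_apply, RingHom.comp_apply, ← coe_eval₂] at h1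
  have h2 : π (PowerSeries.C (a₀ * y ^ m')) =
      π ((G : PowerSeries T) * (f * PowerSeries.C y ^ (e * G.natDegree + m))) := by
    apply hinj
    have h3 := congrArg (dphi π y) ha₀
    rw [map_mul, map_pow, dphi_alg, dphi_alg, h, dphi_alg, h1] at h3
    simp only [map_mul, map_pow] at h3 hv₀ ⊢
    rw [← hv₀, ← h3]
    ring
  have h3 : π (PowerSeries.C (a₀ * y ^ m') -
      (G : PowerSeries T) * (f * PowerSeries.C y ^ (e * G.natDegree + m))) = 0 := by
    rw [map_sub, h2, sub_self]
  obtain ⟨U, hU⟩ := hker _ h3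
  obtain ⟨q, r, hqr⟩ := PowerSeries.exists_isWeierstrassDivision (A := T) (g := H) U hH
  have h4 : U = (G : PowerSeries T) * (u * q) + (r : PowerSeries T) := by
    rw [hqr.eq_mul_add, HW.eq_mul]
    ring
  have h5 : ((Polynomial.C (a₀ * y ^ m') - (Polynomial.C g - X * Polynomial.C y ^ e) * r : T[X]) :
      PowerSeries T) = (G : PowerSeries T) *
        (f * PowerSeries.C y ^ (e * G.natDegree + m) + thD y g e * (u * q)) := by
    have h6 : ((Polynomial.C g - X * Polynomial.C y ^ e : T[X]) : PowerSeries T) = thD y g e := by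
      rw [thD]
      push_cast
      rfl
    rw [Polynomial.coe_sub, Polynomial.coe_mul, h6, Polynomial.coe_C]
    have h7 : PowerSeries.C (a₀ * y ^ m') =
      (G : PowerSeries T) * (f * PowerSeries.C y ^ (e * G.natDegree + m)) + thD y g e * U := by
      rw [← hU]; ring
    rw [h7, h4]
    ring
  obtain ⟨b, hb⟩ := dvd_of_dvd_coe HW hH _ _ h5
  -- evaluate at `g / y ^ e`
  set Y : Localization.Away y := algebraMap T (Localization.Away y) y with hY
  set w : Localization.Away y := IsLocalization.Away.invSelf y with hw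
  have hYw : Y * w = 1 := IsLocalization.Away.mul_invSelf y
  have hYwe : Y ^ e * w ^ e = 1 := by rw [← mul_pow, hYw, one_pow]
  have hx : algebraMap T (Localization.Away y) g = (algebraMap T (Localization.Away y) g * w ^ e) * Y ^ e := by
    linear_combination (-algebraMap T (Localization.Away y) g) * hYwe
  have h6 := congrArg (eval₂ (algebraMap T (Localization.Away y)) (algebraMap T (Localization.Away y) g * w ^ e)) hb
  rw [eval₂_sub, eval₂_mul, eval₂_mul, eval₂_sub, eval₂_mul, eval₂_pow, eval₂_C, eval₂_C,
    eval₂_C, eval₂_X, ← hY, ← hx, sub_self, zero_mul, sub_zero] at h6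
  have h7 := hom1_eval y g e G (algebraMap T (Localization.Away y)) _ hx
  rw [← hY] at h7
  have h8 : a = w ^ m * w ^ m' * algebraMap T (Localization.Away y) (a₀ * y ^ m') := by
    have h9 : Y ^ m * w ^ m = 1 := by rw [← mul_pow, hYw, one_pow]
    have h10 : Y ^ m' * w ^ m' = 1 := by rw [← mul_pow, hYw, one_pow]
    rw [map_mul, ← ha₀, map_pow, ← hY]
    linear_combination (-a * Y ^ m' * w ^ m') * h9 + (-a) * h10
  have h11 : Y ^ (e * G.natDegree) * w ^ (e * G.natDegree) = 1 := by
    rw [← mul_pow, hYw, one_pow]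
  refine ⟨w ^ m * w ^ m' * w ^ (e * G.natDegree) *
    eval₂ (algebraMap T (Localization.Away y)) (algebraMap T (Localization.Away y) g * w ^ e) b, ?_⟩
  rw [h8, h6, h7]
  linear_combination (-(w ^ m * w ^ m' * eval₂ (algebraMap T (Localization.Away y)) (algebraMap T (Localization.Away y) g * w ^ e) G *
    eval₂ (algebraMap T (Localization.Away y)) (algebraMap T (Localization.Away y) g * w ^ e) b)) * h11

theorem dil_y_ne (hg : Prime g) (hgm : g ∈ maximalIdeal T) (hgy : ¬ g ∣ y)
    (hker : ∀ f, π f = 0 → thD y g e ∣ f) : π (PowerSeries.C y) ≠ 0 := by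
  intro h
  obtain ⟨U, hU⟩ := hker _ h
  have h1 := C_eq_thD_mul hg hgm hgy y U hU
  exact hgy (by rw [h1]; exact dvd_zero _)

include hth hsurj in
/-- The step: `P` is extended from `T[1/y]`. -/
theorem dil_step (hg : Prime g) (hgm : g ∈ maximalIdeal T) (hgy : ¬ g ∣ y)
    (hym : y ∈ maximalIdeal T) (he : 0 < e) (hker : ∀ f, π f = 0 → thD y g e ∣ f)
    (k : ℕ) (H : PowerSeries T) (hH : PowerSeries.map (residue T) H ≠ 0)
    (P : Type u) [AddCommGroup P] [Module (Localization.Away (π (PowerSeries.C y))) P]
    [Module.Finite (Localization.Away (π (PowerSeries.C y))) P]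
    [Module.Projective (Localization.Away (π (PowerSeries.C y))) P]
    (hb : HB (Localization.Away (π (PowerSeries.C y))) P k (algebraMap R' _ (π H))) :
    ∃ (P' : Type u) (_ : AddCommGroup P') (_ : Module (Localization.Away y) P'),
      Module.Finite (Localization.Away y) P' ∧ Module.Projective (Localization.Away y) P' ∧
      (∃ F : Localization.Away y, F ≠ 0 ∧ HB (Localization.Away y) P' k F) ∧
      (Module.Free (Localization.Away y) P' →
        Module.Free (Localization.Away (π (PowerSeries.C y))) P) := by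
  obtain ⟨G, u, HW⟩ := PowerSeries.exists_isWeierstrassFactorization (A := T) hH
  have hG : G.Monic := HW.isDistinguishedAt.monic
  have hrel := dil_rel π hth
  have hy := dil_y_ne π hg hgm hgy hker
  have hy0 : y ≠ 0 := fun h => hgy (by rw [h]; exact dvd_zero _)
  have hdom : IsDomain (Localization.Away (π (PowerSeries.C y))) :=
    IsLocalization.isDomain_localization (powers_le_nonZeroDivisors_of_noZeroDivisors hy)
  have hdom2 : IsDomain (Localization.Away y) :=
    IsLocalization.isDomain_localization (powers_le_nonZeroDivisors_of_noZeroDivisors hy0)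
  have hN : IsNoetherianRing (Localization.Away y) :=
    IsLocalization.isNoetherianRing (Submonoid.powers y) _ inferInstance
  let : Algebra (Localization.Away y) (Localization.Away (π (PowerSeries.C y))) :=
    (dphi π y).toAlgebra
  have hal : ∀ a : Localization.Away y, algebraMap (Localization.Away y)
      (Localization.Away (π (PowerSeries.C y))) a = dphi π y a := fun _ => rfl
  have h1 := hom1_eval y g e G (π.comp PowerSeries.C) (π PowerSeries.X) hrel
  rw [RingHom.comp_apply, RingHom.comp_apply, ← coe_eval₂] at h1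
  have hF0 : algebraMap T (Localization.Away y) (hom1 y g e G) ≠ 0 := by
    intro h0
    have h2 : hom1 y g e G = 0 := by
      apply IsLocalization.injective (Localization.Away y)
        (powers_le_nonZeroDivisors_of_noZeroDivisors hy0)
      rw [h0, map_zero]
    rw [h2, map_zero, map_zero] at h1
    have h3 : π (G : PowerSeries T) = 0 :=
      (mul_eq_zero.1 h1.symm).resolve_left (pow_ne_zero _ hy)
    obtain ⟨U, hU⟩ := hker _ h3
    have h4 := congrArg (PowerSeries.map (residue T)) hU
    have h5 : PowerSeries.map (residue T) (thD y g e) = 0 := by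
      rw [thD, map_sub, map_mul, map_pow, PowerSeries.map_C, PowerSeries.map_C,
        (residue_eq_zero_iff g).2 hgm, (residue_eq_zero_iff y).2 hym, map_zero,
        zero_pow he.ne', mul_zero, sub_zero]
    rw [map_mul, h5, zero_mul] at h4
    have h6 := congrArg (PowerSeries.coeff G.natDegree) h4
    rw [PowerSeries.coeff_map, Polynomial.coeff_coe, hG.coeff_natDegree, map_one, map_zero] at h6
    exact one_ne_zero h6
  have hb' : HB (Localization.Away (π (PowerSeries.C y))) P k
      (algebraMap (Localization.Away y) (Localization.Away (π (PowerSeries.C y)))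
        (algebraMap T (Localization.Away y) (hom1 y g e G))) := by
    obtain ⟨b₀, hb1, hb2⟩ := hb
    refine ⟨b₀, hb1, fun q => ?_⟩
    obtain ⟨v, hv⟩ := HW.isUnit.exists_right_inv
    have h2 : (G : PowerSeries T) = v * H := by
      rw [HW.eq_mul]
      linear_combination (-(G : PowerSeries T)) * hv
    rw [hal, dphi_alg, h1, h2, map_mul π v H, ← mul_assoc, map_mul, mul_smul]
    exact Submodule.smul_mem _ _ (hb2 q)
  obtain ⟨P', i1, i2, hf, hp, hbP, hfree⟩ := patch (A := Localization.Away y)
    (B := Localization.Away (π (PowerSeries.C y))) (algebraMap T _ (hom1 y g e G)) hF0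
    (dphi_inj π hg hgm hgy hy hker)
    (fun v => dphi_h1 π hsurj hth HW hH v)
    (fun a c h => dphi_h2 π hsurj hth hker hy HW hH a c h) k P hb'
  exact ⟨P', i1, i2, hf, hp, ⟨_, hF0, hbP⟩, hfree⟩

include hth hsurj in
/-- The step, for an element equal to the image of `y`. -/
theorem dil_step' (hg : Prime g) (hgm : g ∈ maximalIdeal T) (hgy : ¬ g ∣ y)
    (hym : y ∈ maximalIdeal T) (he : 0 < e) (hker : ∀ f, π f = 0 → thD y g e ∣ f)
    (k : ℕ) (H : PowerSeries T)
    (hH : PowerSeries.map (residue T) H ≠ 0) (r' : R') (hr' : π (PowerSeries.C y) = r')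
    (P : Type u) [AddCommGroup P] [Module (Localization.Away r') P]
    [Module.Finite (Localization.Away r') P]
    [Module.Projective (Localization.Away r') P]
    (hb : HB (Localization.Away r') P k (algebraMap R' _ (π H))) :
    ∃ (P' : Type u) (_ : AddCommGroup P') (_ : Module (Localization.Away y) P'),
      Module.Finite (Localization.Away y) P' ∧ Module.Projective (Localization.Away y) P' ∧
      (∃ F : Localization.Away y, F ≠ 0 ∧ HB (Localization.Away y) P' k F) ∧
      (Module.Free (Localization.Away y) P' → Module.Free (Localization.Away r') P) := by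
  subst hr'
  exact dil_step π hsurj hth hg hgm hgy hym he hker k H hH P hb

end step

end Pool.Agent.QU54
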