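import Mathlib
import Pool.Agent.Lib.QU54.DilStep
import Pool.Agent.Lib.QU54.Auto
import Pool.Agent.Lib.QU52.Fibre3
import Pool.Agent.Lib.QU62.G3

/-!
# Dilatations of a four-dimensional base
-/

set_option autoImplicit false

namespace Pool.Agent.QU54

open Polynomial IsLocalRing Pool.Agent.QU53 Pool.Agent.QU52

universe u

theorem C_mem_mapD {A : Type u} [CommRing A] [IsNoetherianRing A] (I : Ideal A) (a : A) {n : ℕ}
    (ha : MvPowerSeries.C (σ := Fin n) a ∈ I.map (MvPowerSeries.C (σ := Fin n) (R := A))) :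
    a ∈ I := by
  rw [mem_mapC, MvPowerSeries.map_C] at ha
  have h1 := congrArg (MvPowerSeries.constantCoeff) ha
  rw [MvPowerSeries.constantCoeff_C, map_zero] at h1
  exact Ideal.Quotient.eq_zero_iff_mem.1 h1

theorem C_mem_maxD {A : Type u} [CommRing A] [IsLocalRing A] (a : A) (ha : a ∈ maximalIdeal A)
    (n : ℕ) : MvPowerSeries.C (σ := Fin n) a ∈ maximalIdeal (MvPowerSeries (Fin n) A) := by
  rw [mem_maximalIdeal, mem_nonunits_iff, MvPowerSeries.isUnit_iff_constantCoeff,
    MvPowerSeries.constantCoeff_C]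
  exact ha

/-- Gabber's theorem at a prime ideal `(y, a, a')`. -/
theorem gab_gen {R : Type u} [CommRing R] [IsDomain R] [IsNoetherianRing R] (y a a' : R)
    (q : Ideal R) [hq : q.IsPrime] (k4 : q = Ideal.span {y, a, a'})
    (P1 : (Ideal.span {y}).IsPrime) (P2 : (Ideal.span {y, a}).IsPrime) (hy : y ≠ 0)
    (n1 : a ∉ Ideal.span {y}) (n2 : a' ∉ Ideal.span {y, a}) :
    PF (Localization.Away (algebraMap R (Localization.AtPrime q) y)) := by
  let K := Localization.AtPrime q
  have hM : q.primeCompl ≤ nonZeroDivisors R := Ideal.primeCompl_le_nonZeroDivisors _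
  have hKdom : IsDomain K := IsLocalization.isDomain_localization hM
  have hKn : IsNoetherianRing K := IsLocalization.isNoetherianRing q.primeCompl _ inferInstance
  have hinj : Function.Injective (algebraMap R K) := IsLocalization.injective K hM
  obtain ⟨l1, l1'⟩ := loc_prime q K _ P1 (by
    rw [Ideal.span_singleton_le_iff_mem, k4]
    exact Ideal.subset_span (by simp))
  obtain ⟨l2, l2'⟩ := loc_prime q K _ P2 (by
    rw [k4]
    exact Ideal.span_mono (by
      intro z hz
      rcases hz with rfl | rfl <;> simp))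
  rw [Ideal.map_span, Set.image_singleton] at l1 l1'
  rw [Ideal.map_span, Set.image_insert_eq, Set.image_singleton] at l2 l2'
  have hyne : algebraMap R K y ≠ 0 := by
    intro h
    rw [← map_zero (algebraMap R K)] at h
    exact hy (hinj h)
  refine QU62.gabber K (algebraMap R K y) (algebraMap R K a)
    (algebraMap R K a') ((Ideal.span_singleton_prime hyne).1 l1)
    (prime_mk l2 fun h => n1 (l1' _ h)) ?_ ?_
  · rw [mk_dvd_iff]
    exact fun h => n2 (l2' _ h)
  · have h1 : maximalIdeal K = q.map (algebraMap R K) :=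
      (IsLocalization.AtPrime.map_eq_maximalIdeal q K).symm
    rw [h1]
    refine (congrArg (Ideal.map (algebraMap R K)) k4).trans ?_
    rw [Ideal.map_span]
    simp only [Set.image_insert_eq, Set.image_singleton]

theorem comap_mk_span {D : Type u} [CommRing D] (y : D) (s : Set D) :
    (Ideal.span (Ideal.Quotient.mk (Ideal.span {y}) '' s)).comap
      (Ideal.Quotient.mk (Ideal.span {y})) = Ideal.span (insert y s) := by
  rw [← Ideal.map_span, Ideal.comap_map_of_surjective _ Ideal.Quotient.mk_surjective,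
    ← RingHom.ker_eq_comap_bot, Ideal.mk_ker, Ideal.span_insert, sup_comm]

/-- Regular parameters in dimension four, the first two of which are given. -/
theorem exists_params4 {D : Type u} [CommRing D] [IsRegularLocalRing D]
    (hd : ringKrullDim D = 4) (y g : D) (hy : y ∈ maximalIdeal D) (hy2 : y ∉ maximalIdeal D ^ 2)
    (hg : g ∈ maximalIdeal D) (hg2 : g ∉ maximalIdeal D ^ 2 ⊔ Ideal.span {y}) :
    ∃ a a' : D, maximalIdeal D = Ideal.span {y, g, a, a'} ∧ (Ideal.span {y, g}).IsPrime ∧
      (Ideal.span {y, g, a}).IsPrime ∧ a ∉ Ideal.span {y, g} ∧ a' ∉ Ideal.span {y, g, a} := by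
  obtain ⟨hreg, hdim⟩ := BEH5.Reg.quot_regular (n := 3) (by exact_mod_cast hd) hy hy2
  have hmax : (maximalIdeal (D ⧸ Ideal.span {y})).comap (Ideal.Quotient.mk (Ideal.span {y})) =
      maximalIdeal D :=
    IsLocalRing.eq_maximalIdeal
      (Ideal.comap_isMaximal_of_surjective _ Ideal.Quotient.mk_surjective)
  have hgA : Ideal.Quotient.mk (Ideal.span {y}) g ∈ maximalIdeal (D ⧸ Ideal.span {y}) := by
    rw [← hmax] at hg
    exact hg
  have hgA2 : Ideal.Quotient.mk (Ideal.span {y}) g ∉ maximalIdeal (D ⧸ Ideal.span {y}) ^ 2 := by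
    intro h
    apply hg2
    have h1 : maximalIdeal (D ⧸ Ideal.span {y}) =
        (maximalIdeal D).map (Ideal.Quotient.mk (Ideal.span {y})) := by
      rw [← hmax, Ideal.map_comap_of_surjective _ Ideal.Quotient.mk_surjective]
    rw [h1, ← Ideal.map_pow] at h
    have h2 : g ∈ ((maximalIdeal D ^ 2).map (Ideal.Quotient.mk (Ideal.span {y}))).comap
      (Ideal.Quotient.mk (Ideal.span {y})) := h
    rw [Ideal.comap_map_of_surjective _ Ideal.Quotient.mk_surjective,
      ← RingHom.ker_eq_comap_bot, Ideal.mk_ker] at h2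
    exact h2
  obtain ⟨a, a', hm, hgp, hI, ha, ha'⟩ := exists_rxy (S := D ⧸ Ideal.span {y})
    (by exact_mod_cast hdim) _ hgA hgA2
  obtain ⟨a, rfl⟩ := Ideal.Quotient.mk_surjective a
  obtain ⟨a', rfl⟩ := Ideal.Quotient.mk_surjective a'
  have c1 := comap_mk_span y {g}
  have c2 := comap_mk_span y {g, a}
  have c3 := comap_mk_span y {g, a, a'}
  rw [Set.image_singleton] at c1
  rw [Set.image_insert_eq, Set.image_singleton] at c2
  rw [Set.image_insert_eq, Set.image_insert_eq, Set.image_singleton] at c3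
  refine ⟨a, a', ?_, ?_, ?_, ?_, ?_⟩
  · rw [← c3, ← hm, hmax]
  · rw [← c1]
    have := (Ideal.span_singleton_prime hgp.ne_zero).2 hgp
    exact Ideal.comap_isPrime _ _
  · rw [← c2]
    exact Ideal.comap_isPrime _ _
  · rw [← c1]
    exact ha
  · rw [← c2]
    exact ha'

section main

variable {D : Type u} [CommRing D] {y g : D} {e n : ℕ}
  {R' : Type u} [CommRing R'] (Q : MvPowerSeries (Fin (n + 1)) D →+* R')
  (hsurj : Function.Surjective Q)
  (hker : RingHom.ker Q = Ideal.span {(MvPowerSeries.C g - MvPowerSeries.X 0 *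
    MvPowerSeries.C y ^ e : MvPowerSeries (Fin (n + 1)) D)})

include hker in
theorem Q_rel : Q (MvPowerSeries.C g) = Q (MvPowerSeries.X 0) * Q (MvPowerSeries.C y) ^ e := by
  have h : (MvPowerSeries.C g - MvPowerSeries.X 0 * MvPowerSeries.C y ^ e :
      MvPowerSeries (Fin (n + 1)) D) ∈ RingHom.ker Q := by
    rw [hker]
    exact Ideal.mem_span_singleton_self _
  rw [RingHom.mem_ker, map_sub, map_mul, map_pow] at h
  exact sub_eq_zero.1 h

include hker in
theorem ker_le (he : 0 < e) (I : Ideal D) (hy : y ∈ I) (hg : g ∈ I) :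
    RingHom.ker Q ≤ I.map (MvPowerSeries.C (σ := Fin (n + 1)) (R := D)) := by
  rw [hker, Ideal.span_singleton_le_iff_mem]
  refine sub_mem (Ideal.mem_map_of_mem _ hg) (Ideal.mul_mem_left _ _ ?_)
  exact Ideal.pow_mem_of_mem _ (Ideal.mem_map_of_mem _ hy) e he

include hker hsurj in
theorem mem_map_Q (he : 0 < e) (I : Ideal D) (hy : y ∈ I) (hg : g ∈ I)
    (f : MvPowerSeries (Fin (n + 1)) D) :
    Q f ∈ (I.map (MvPowerSeries.C (σ := Fin (n + 1)) (R := D))).map Q ↔
      f ∈ I.map (MvPowerSeries.C (σ := Fin (n + 1)) (R := D)) := by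
  rw [← Ideal.mem_comap, Ideal.comap_map_of_surjective _ hsurj, ← RingHom.ker_eq_comap_bot,
    sup_eq_left.2 (ker_le Q hker he I hy hg)]

include hker in
theorem map_Q_span (he : 0 < e) (s : Set D) :
    ((Ideal.span (insert y (insert g s))).map (MvPowerSeries.C (σ := Fin (n + 1)) (R := D))).map Q =
      Ideal.span (insert (Q (MvPowerSeries.C y)) ((fun d => Q (MvPowerSeries.C d)) '' s)) := by
  rw [Ideal.map_span, Ideal.map_span, Set.image_insert_eq, Set.image_insert_eq,
    Set.image_insert_eq, Set.image_insert_eq, Set.image_image]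
  apply le_antisymm
  · rw [Ideal.span_le]
    rintro z (rfl | rfl | hz)
    · exact Ideal.subset_span (Set.mem_insert _ _)
    · rw [Q_rel Q hker]
      exact Ideal.mul_mem_left _ _ (Ideal.pow_mem_of_mem _
        (Ideal.subset_span (Set.mem_insert _ _)) e he)
    · exact Ideal.subset_span (Set.mem_insert_of_mem _ hz)
  · refine Ideal.span_mono (Set.insert_subset_insert ?_)
    exact Set.subset_insert _ _

include hker in
theorem pi_zero (ψ : MvPowerSeries (Fin (n + 1)) D ≃+* PowerSeries (MvPowerSeries (Fin n) D))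
    (hC : ∀ d, ψ (MvPowerSeries.C d) = PowerSeries.C (MvPowerSeries.C d))
    (hX : ψ (MvPowerSeries.X 0) = PowerSeries.X) :
    (Q.comp ψ.symm.toRingHom) (thD (MvPowerSeries.C y) (MvPowerSeries.C g) e) = 0 ∧
      ∀ f, (Q.comp ψ.symm.toRingHom) f = 0 → thD (MvPowerSeries.C y) (MvPowerSeries.C g) e ∣ f := by
  have h1 : ψ (MvPowerSeries.C g - MvPowerSeries.X 0 * MvPowerSeries.C y ^ e) =
      thD (MvPowerSeries.C y) (MvPowerSeries.C g) e := by
    rw [map_sub, map_mul, map_pow, hC, hC, hX, thD]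
  refine ⟨?_, fun f hf => ?_⟩
  · rw [← h1]
    show Q (ψ.symm (ψ _)) = 0
    rw [RingEquiv.symm_apply_apply, ← RingHom.mem_ker, hker]
    exact Ideal.mem_span_singleton_self _
  · have h2 : ψ.symm f ∈ RingHom.ker Q := hf
    rw [hker, Ideal.mem_span_singleton] at h2
    obtain ⟨c, hc⟩ := h2
    refine ⟨ψ c, ?_⟩
    rw [← h1, ← map_mul, ← hc, RingEquiv.apply_symm_apply]

end main

/-- A regular parameter is prime and does not divide an independent one. -/
theorem g_prime {D : Type u} [CommRing D] [IsRegularLocalRing D] {d : ℕ}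
    (hd : ringKrullDim D = ((d + 1 : ℕ) : WithBot ℕ∞)) (y g : D) (hy2 : y ∉ maximalIdeal D ^ 2)
    (hg : g ∈ maximalIdeal D) (hg2 : g ∉ maximalIdeal D ^ 2 ⊔ Ideal.span {y}) :
    Prime g ∧ ¬ g ∣ y := by
  have hgm2 : g ∉ maximalIdeal D ^ 2 := fun h => hg2 (Ideal.mem_sup_left h)
  obtain ⟨hregg, hdimg⟩ := BEH5.Reg.quot_regular (n := d) hd hg hgm2
  have hdomg : IsDomain (D ⧸ Ideal.span {g}) := BEH5.Reg.isDomain_of_regular d _ hdimg
  have hg0 : g ≠ 0 := fun h => hgm2 (by rw [h]; exact zero_mem _)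
  have hgp : Prime g :=
    (Ideal.span_singleton_prime hg0).1 ((Ideal.Quotient.isDomain_iff_prime _).1 hdomg)
  refine ⟨hgp, ?_⟩
  rintro ⟨c, hc⟩
  by_cases hcu : IsUnit c
  · obtain ⟨c', hc'⟩ := hcu.exists_right_inv
    apply hg2
    apply Ideal.mem_sup_right
    rw [Ideal.mem_span_singleton]
    exact ⟨c', by rw [hc]; linear_combination (-g) * hc'⟩
  · apply hy2
    rw [hc, pow_two]
    exact Ideal.mul_mem_mul hg ((mem_maximalIdeal c).2 hcu)

section core

variable {D : Type u} [CommRing D] [IsDomain D] [IsNoetherianRing D] [IsLocalRing D]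
  [IsAdicComplete (maximalIdeal D) D] (y g : D)
  (hy : y ∈ maximalIdeal D) (hg : g ∈ maximalIdeal D) (hgp : Prime g) (hgy : ¬ g ∣ y)
  (e : ℕ) (he : 0 < e) (n : ℕ) {R' : Type u} [CommRing R'] [IsDomain R']
  (Q : MvPowerSeries (Fin (n + 1)) D →+* R') (hsurj : Function.Surjective Q)
  (hker : RingHom.ker Q = Ideal.span {(MvPowerSeries.C g - MvPowerSeries.X 0 *
    MvPowerSeries.C y ^ e : MvPowerSeries (Fin (n + 1)) D)})

include hgy in
omit [IsDomain D] [IsNoetherianRing D] [IsLocalRing D] [IsAdicComplete (maximalIdeal D) D] in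
theorem C_not_dvd : ¬ (MvPowerSeries.C g : MvPowerSeries (Fin n) D) ∣ MvPowerSeries.C y := by
  rintro ⟨c, hc⟩
  apply hgy
  refine ⟨MvPowerSeries.constantCoeff c, ?_⟩
  have h1 := congrArg (MvPowerSeries.constantCoeff) hc
  rw [map_mul, MvPowerSeries.constantCoeff_C, MvPowerSeries.constantCoeff_C] at h1
  exact h1

include hg hgp hgy hker in
theorem Q_y_ne : Q (MvPowerSeries.C y) ≠ 0 := by
  let T := MvPowerSeries (Fin n) D
  have hTdom : IsDomain T := isDomain_mv D n
  have hTc : IsAdicComplete (maximalIdeal T) T := adicComplete_mvPowerSeries n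
  obtain ⟨h1, h2⟩ := pi_zero Q hker (MvPowerSeries.finSuccEquiv D n).toRingEquiv
    (fun d => MvPowerSeries.finSuccEquiv_C d) MvPowerSeries.finSuccEquiv_X_zero
  have h3 := dil_y_ne (T := T) _ (prime_C hgp n) (C_mem_maxD g hg n) (C_not_dvd y g hgy n) h2
  intro h
  apply h3
  show Q ((MvPowerSeries.finSuccEquiv D n).toRingEquiv.symm
    (PowerSeries.C (MvPowerSeries.C y))) = 0
  have h4 : (MvPowerSeries.finSuccEquiv D n).toRingEquiv (MvPowerSeries.C y) =
    PowerSeries.C (MvPowerSeries.C y) := MvPowerSeries.finSuccEquiv_C y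
  rw [← h4, RingEquiv.symm_apply_apply]
  exact h

include hsurj hker hy hg hgp hgy he in
/-- Modules over the dilatation are extended from the base. -/
theorem dil_core (P : Type u) [AddCommGroup P]
    [Module (Localization.Away (Q (MvPowerSeries.C y))) P]
    [Module.Finite (Localization.Away (Q (MvPowerSeries.C y))) P]
    [Module.Projective (Localization.Away (Q (MvPowerSeries.C y))) P] (k : ℕ)
    (h : MvPowerSeries (Fin (n + 1)) D) (hh : MvPowerSeries.map (residue D) h ≠ 0)
    (H : HB (Localization.Away (Q (MvPowerSeries.C y))) P k (algebraMap R' _ (Q h))) :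
    ∃ (P' : Type u) (_ : AddCommGroup P')
      (_ : Module (Localization.Away (MvPowerSeries.C y : MvPowerSeries (Fin n) D)) P'),
      Module.Finite (Localization.Away (MvPowerSeries.C y : MvPowerSeries (Fin n) D)) P' ∧
      Module.Projective (Localization.Away (MvPowerSeries.C y : MvPowerSeries (Fin n) D)) P' ∧
      (∃ F : Localization.Away (MvPowerSeries.C y : MvPowerSeries (Fin n) D), F ≠ 0 ∧
        HB (Localization.Away (MvPowerSeries.C y : MvPowerSeries (Fin n) D)) P' k F) ∧
      (Module.Free (Localization.Away (MvPowerSeries.C y : MvPowerSeries (Fin n) D)) P' →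
        Module.Free (Localization.Away (Q (MvPowerSeries.C y))) P) := by
  let T := MvPowerSeries (Fin n) D
  have hTdom : IsDomain T := isDomain_mv D n
  have hTc : IsAdicComplete (maximalIdeal T) T := adicComplete_mvPowerSeries n
  have hTg : Prime (MvPowerSeries.C g : T) := prime_C hgp n
  obtain ⟨τ, hτC, hτX, hτ⟩ := exists_auto' n h hh
  let ψ : MvPowerSeries (Fin (n + 1)) D ≃+* PowerSeries T :=
    τ.trans (MvPowerSeries.finSuccEquiv D n).toRingEquiv
  have hψ : ∀ f, ψ f = MvPowerSeries.finSuccEquiv D n (τ f) := fun f => rfl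
  have hψC : ∀ d, ψ (MvPowerSeries.C d) = PowerSeries.C (MvPowerSeries.C d) := fun d => by
    rw [hψ, hτC, MvPowerSeries.finSuccEquiv_C]
  have hψX : ψ (MvPowerSeries.X 0) = PowerSeries.X := by
    rw [hψ, hτX, MvPowerSeries.finSuccEquiv_X_zero]
  obtain ⟨h1, h2⟩ := pi_zero Q hker ψ hψC hψX
  have hπ : ∀ f, (Q.comp ψ.symm.toRingHom) (ψ f) = Q f := fun f => by
    show Q (ψ.symm (ψ f)) = Q f
    rw [RingEquiv.symm_apply_apply]
  refine dil_step' (T := T) (Q.comp ψ.symm.toRingHom) (hsurj.comp ψ.symm.surjective) h1 hTg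
    (C_mem_maxD g hg n) (C_not_dvd y g hgy n) (C_mem_maxD y hy n) he h2 k (ψ h) hτ _ ?_ P ?_
  · rw [← hψC, hπ]
  · rw [hπ]
    exact H

end core

/-- The prime ideal generated by the maximal ideal of the base. -/
theorem q_prime {D : Type u} [CommRing D] [IsNoetherianRing D] [IsLocalRing D] (y g : D)
    (hy : y ∈ maximalIdeal D) (hg : g ∈ maximalIdeal D) (e : ℕ) (he : 0 < e) (n : ℕ)
    {R' : Type u} [CommRing R'] (Q : MvPowerSeries (Fin (n + 1)) D →+* R')
    (hsurj : Function.Surjective Q)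
    (hker : RingHom.ker Q = Ideal.span {(MvPowerSeries.C g - MvPowerSeries.X 0 *
      MvPowerSeries.C y ^ e : MvPowerSeries (Fin (n + 1)) D)}) :
    (((maximalIdeal D).map (MvPowerSeries.C (σ := Fin (n + 1)) (R := D))).map Q).IsPrime := by
  have hp : ((maximalIdeal D).map (MvPowerSeries.C (σ := Fin (n + 1)) (R := D))).IsPrime :=
    prime_mapC _ _
  exact Ideal.map_isPrime_of_surjective hsurj (ker_le Q hker he (maximalIdeal D) hy hg)

/-- Dilatations of a four-dimensional base. -/
theorem dil_main {D : Type u} [CommRing D] [IsRegularLocalRing D]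
    [IsAdicComplete (maximalIdeal D) D] (hd : ringKrullDim D = 4) (y g : D)
    (hy : y ∈ maximalIdeal D) (hy2 : y ∉ maximalIdeal D ^ 2)
    (hg : g ∈ maximalIdeal D) (hg2 : g ∉ maximalIdeal D ^ 2 ⊔ Ideal.span {y})
    (e : ℕ) (he : 0 < e) (n : ℕ)
    (hPF : PF (Localization.Away (MvPowerSeries.C y : MvPowerSeries (Fin n) D)))
    {R' : Type u} [CommRing R'] [IsDomain R'] (Q : MvPowerSeries (Fin (n + 1)) D →+* R')
    (hsurj : Function.Surjective Q)
    (hker : RingHom.ker Q = Ideal.span {(MvPowerSeries.C g - MvPowerSeries.X 0 *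
      MvPowerSeries.C y ^ e : MvPowerSeries (Fin (n + 1)) D)}) :
    PF (Localization.Away (Q (MvPowerSeries.C y))) := by
  classical
  have hdomD : IsDomain D := BEH5.Reg.isDomain_of_regular 4 D (by exact_mod_cast hd)
  obtain ⟨a, a', hm, hI1, hI2, ha, ha'⟩ := exists_params4 hd y g hy hy2 hg hg2
  obtain ⟨hgp, hgy⟩ := g_prime (d := 3) (by exact_mod_cast hd) y g hy2 hg hg2
  have hNR : IsNoetherianRing (MvPowerSeries (Fin (n + 1)) D) := inferInstance
  have hRN : IsNoetherianRing R' := isNoetherianRing_of_surjective _ _ Q hsurj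
  -- the three ideals
  have k1 := map_Q_span Q hker he ∅
  have k2 := map_Q_span Q hker he {a}
  have k3 := map_Q_span Q hker he {a, a'}
  have hp1 : ((Ideal.span {y, g}).map (MvPowerSeries.C (σ := Fin (n + 1)) (R := D))).IsPrime :=
    prime_mapC _ _
  have hp2 : ((Ideal.span {y, g, a}).map (MvPowerSeries.C (σ := Fin (n + 1)) (R := D))).IsPrime :=
    prime_mapC _ _
  have P1 := Ideal.map_isPrime_of_surjective hsurj (ker_le Q hker he (Ideal.span {y, g})
    (Ideal.subset_span (by simp)) (Ideal.subset_span (by simp)))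
  have P2 := Ideal.map_isPrime_of_surjective hsurj (ker_le Q hker he (Ideal.span {y, g, a})
    (Ideal.subset_span (by simp)) (Ideal.subset_span (by simp)))
  have P3 := q_prime y g hy hg e he n Q hsurj hker
  rw [insert_empty_eq, Set.image_empty, insert_empty_eq] at k1
  rw [Set.image_singleton] at k2
  rw [Set.image_insert_eq, Set.image_singleton, ← hm] at k3
  have n1 : Q (MvPowerSeries.C a) ∉ Ideal.span {Q (MvPowerSeries.C y)} := by
    rw [← k1, mem_map_Q Q hsurj hker he _ (Ideal.subset_span (by simp))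
      (Ideal.subset_span (by simp))]
    exact fun h => ha (C_mem_mapD _ _ h)
  have n2 : Q (MvPowerSeries.C a') ∉
      Ideal.span {Q (MvPowerSeries.C y), Q (MvPowerSeries.C a)} := by
    rw [← k2, mem_map_Q Q hsurj hker he _ (Ideal.subset_span (by simp))
      (Ideal.subset_span (by simp))]
    exact fun h => ha' (C_mem_mapD _ _ h)
  rw [k1] at P1
  rw [k2] at P2
  have hy0 : Q (MvPowerSeries.C y) ≠ 0 := Q_y_ne y g hg hgp hgy e n Q hker
  set q : Ideal R' := ((maximalIdeal D).map (MvPowerSeries.C (σ := Fin (n + 1)) (R := D))).map Q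
    with hqdef
  have hG : PF (Localization.Away (algebraMap R' (Localization.AtPrime q)
      (Q (MvPowerSeries.C y)))) := gab_gen _ _ _ q k3 P1 P2 hy0 n1 n2
  let E := Localization.Away (Q (MvPowerSeries.C y))
  have hinj : Function.Injective (algebraMap R' E) :=
    IsLocalization.injective _ (powers_le_nonZeroDivisors_of_noZeroDivisors hy0)
  have hEdom : IsDomain E :=
    IsLocalization.isDomain_localization (powers_le_nonZeroDivisors_of_noZeroDivisors hy0)
  intro P _ _ hfin hproj
  have hG' : PF (Localization (Algebra.algebraMapSubmonoid E q.primeCompl)) :=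
    PF_swap (Q (MvPowerSeries.C y)) q hG
  have h0 : (0 : E) ∉ Algebra.algebraMapSubmonoid E q.primeCompl := by
    rintro ⟨z, hz, hz0⟩
    apply hz
    have : z = 0 := hinj (by rw [hz0, map_zero])
    rw [this]
    exact q.zero_mem
  obtain ⟨k, _, ⟨h₁, hh₁, rfl⟩, H1⟩ := exists_HB _ h0 P hG'
  obtain ⟨h, rfl⟩ := hsurj h₁
  have hh : MvPowerSeries.map (residue D) h ≠ 0 := by
    intro h2
    apply hh₁
    exact Ideal.mem_map_of_mem Q ((mem_mapC _ h).2 h2)
  obtain ⟨P', _, _, hf, hp, -, hfree⟩ := dil_core y g hy hg hgp hgy e he n Q hsurj hker P k h hh H1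
  exact hfree (hPF P' hf hp)

end Pool.Agent.QU54
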