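import Mathlib
import Pool.Agent.Lib.QU54.DilMain
import Pool.Agent.Lib.QU52.Fib

/-!
# The localisation of a dilatation at the prime ideal of the base is regular
-/

set_option autoImplicit false

namespace Pool.Agent.QU54

open IsLocalRing Pool.Agent.QU53

universe u

/-- The equation is not in the square of the maximal ideal of the localisation. -/
theorem theta_notMem_sq {D : Type u} [CommRing D] [IsDomain D] [IsNoetherianRing D] [IsLocalRing D]
    (y g : D) (hg2 : g ∉ maximalIdeal D ^ 2 ⊔ Ideal.span {y}) (e : ℕ) (he : 0 < e) (n : ℕ)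
    [hq : ((maximalIdeal D).map (MvPowerSeries.C (σ := Fin (n + 1)) (R := D))).IsPrime] :
    algebraMap (MvPowerSeries (Fin (n + 1)) D) (Localization.AtPrime
      ((maximalIdeal D).map (MvPowerSeries.C (σ := Fin (n + 1)) (R := D))))
      (MvPowerSeries.C g - MvPowerSeries.X 0 * MvPowerSeries.C y ^ e) ∉
      maximalIdeal (Localization.AtPrime
        ((maximalIdeal D).map (MvPowerSeries.C (σ := Fin (n + 1)) (R := D)))) ^ 2 := by
  classical
  set 𝔮 := (maximalIdeal D).map (MvPowerSeries.C (σ := Fin (n + 1)) (R := D)) with h𝔮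
  have hdom : IsDomain (MvPowerSeries (Fin (n + 1)) D) := isDomain_mv D (n + 1)
  intro h
  rw [← IsLocalization.AtPrime.map_eq_maximalIdeal 𝔮 (Localization.AtPrime 𝔮), ← Ideal.map_pow,
    IsLocalization.mem_map_algebraMap_iff 𝔮.primeCompl] at h
  obtain ⟨⟨⟨v, hv⟩, ⟨s, hs⟩⟩, hvs⟩ := h
  have hinj : Function.Injective (algebraMap (MvPowerSeries (Fin (n + 1)) D)
      (Localization.AtPrime 𝔮)) :=
    IsLocalization.injective _ (Ideal.primeCompl_le_nonZeroDivisors 𝔮)
  simp only at hvs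
  rw [← map_mul] at hvs
  have h1 := hinj hvs
  rw [← h1, h𝔮, ← Ideal.map_pow, mem_mapC] at hv
  have hs' : MvPowerSeries.map (Ideal.Quotient.mk (maximalIdeal D)) s ≠ 0 := fun h =>
    hs ((mem_mapC _ s).2 h)
  obtain ⟨α, hα⟩ : ∃ α, MvPowerSeries.coeff α
      (MvPowerSeries.map (Ideal.Quotient.mk (maximalIdeal D)) s) ≠ 0 := by
    by_contra hcon
    push Not at hcon
    exact hs' (MvPowerSeries.ext fun α => by rw [hcon α, map_zero])
  rw [MvPowerSeries.coeff_map, Ne, Ideal.Quotient.eq_zero_iff_mem, mem_maximalIdeal,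
    mem_nonunits_iff, not_not] at hα
  obtain ⟨c', hc'⟩ := hα.exists_right_inv
  have h2 := congrArg (MvPowerSeries.coeff α) hv
  rw [MvPowerSeries.coeff_map, map_zero, Ideal.Quotient.eq_zero_iff_mem] at h2
  have h3 : (MvPowerSeries.C g - MvPowerSeries.X 0 * MvPowerSeries.C y ^ e) * s =
      MvPowerSeries.C g * s - MvPowerSeries.C (y ^ e) * (MvPowerSeries.X 0 * s) := by
    rw [map_pow]
    ring
  rw [h3, map_sub, MvPowerSeries.coeff_C_mul, MvPowerSeries.coeff_C_mul] at h2
  apply hg2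
  obtain ⟨e', rfl⟩ : ∃ e', e = e' + 1 := ⟨e - 1, by omega⟩
  have h4 : g = c' * (g * MvPowerSeries.coeff α s - y ^ (e' + 1) *
      MvPowerSeries.coeff α (MvPowerSeries.X 0 * s)) +
      y * (c' * y ^ e' * MvPowerSeries.coeff α (MvPowerSeries.X 0 * s)) := by
    linear_combination (-g) * hc'
  rw [h4]
  exact add_mem (Ideal.mem_sup_left (Ideal.mul_mem_left _ _ h2))
    (Ideal.mem_sup_right (Ideal.mul_mem_right _ _ (Ideal.mem_span_singleton_self y)))

/-- The localisation of the dilatation at the prime ideal generated by the maximal ideal of the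
base. -/
theorem loc_regular {D : Type u} [CommRing D] [IsRegularLocalRing D] {d : ℕ}
    (hd : ringKrullDim D = ((d + 1 : ℕ) : WithBot ℕ∞)) (y g : D)
    (hy : y ∈ maximalIdeal D) (hg : g ∈ maximalIdeal D)
    (hg2 : g ∉ maximalIdeal D ^ 2 ⊔ Ideal.span {y}) (e : ℕ) (he : 0 < e) (n : ℕ)
    {R' : Type u} [CommRing R'] (Q : MvPowerSeries (Fin (n + 1)) D →+* R')
    (hsurj : Function.Surjective Q)
    (hker : RingHom.ker Q = Ideal.span {(MvPowerSeries.C g - MvPowerSeries.X 0 *
      MvPowerSeries.C y ^ e : MvPowerSeries (Fin (n + 1)) D)})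
    [hq : (((maximalIdeal D).map (MvPowerSeries.C (σ := Fin (n + 1)) (R := D))).map Q).IsPrime] :
    IsRegularLocalRing (Localization.AtPrime
      (((maximalIdeal D).map (MvPowerSeries.C (σ := Fin (n + 1)) (R := D))).map Q)) ∧
    ringKrullDim (Localization.AtPrime
      (((maximalIdeal D).map (MvPowerSeries.C (σ := Fin (n + 1)) (R := D))).map Q)) = d := by
  classical
  have hdomD : IsDomain D := BEH5.Reg.isDomain_of_regular (d + 1) D hd
  have hp : ((maximalIdeal D).map (MvPowerSeries.C (σ := Fin (n + 1)) (R := D))).IsPrime :=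
    prime_mapC _ _
  obtain ⟨_, hKreg, hKdim⟩ := QU52.fibre_regular hd (n + 1)
  set 𝔮 := (maximalIdeal D).map (MvPowerSeries.C (σ := Fin (n + 1)) (R := D)) with h𝔮
  let K := Localization.AtPrime 𝔮
  set θ : MvPowerSeries (Fin (n + 1)) D := MvPowerSeries.C g - MvPowerSeries.X 0 *
    MvPowerSeries.C y ^ e with hθ
  have hθq : θ ∈ 𝔮 := by
    refine sub_mem (Ideal.mem_map_of_mem _ hg) (Ideal.mul_mem_left _ _ ?_)
    exact Ideal.pow_mem_of_mem _ (Ideal.mem_map_of_mem _ hy) e he
  have hθK : algebraMap _ K θ ∈ maximalIdeal K :=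
    (IsLocalization.AtPrime.to_map_mem_maximal_iff K 𝔮 θ).2 hθq
  have hθK2 : algebraMap _ K θ ∉ maximalIdeal K ^ 2 := theta_notMem_sq y g hg2 e he n
  obtain ⟨S', _, G, hGs, hGk, hreg, hdim⟩ : ∃ (S' : Type u) (_ : CommRing S') (G : K →+* S'),
      Function.Surjective G ∧
      RingHom.ker G = Ideal.span {algebraMap (MvPowerSeries (Fin (n + 1)) D) K θ} ∧
      IsRegularLocalRing S' ∧ ringKrullDim S' = d := by
    obtain ⟨hreg, hdim⟩ := BEH5.Reg.quot_regular (n := d) hKdim hθK hθK2
    exact ⟨K ⧸ Ideal.span {algebraMap (MvPowerSeries (Fin (n + 1)) D) K θ}, inferInstance,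
      Ideal.Quotient.mk _, Ideal.Quotient.mk_surjective, Ideal.mk_ker, hreg, hdim⟩
  have hle : RingHom.ker Q ≤ RingHom.ker (G.comp (algebraMap (MvPowerSeries (Fin (n + 1)) D) K)) := by
    rw [hker, Ideal.span_singleton_le_iff_mem, RingHom.mem_ker, RingHom.comp_apply]
    rw [← RingHom.mem_ker, hGk]
    exact Ideal.mem_span_singleton_self _
  let F : R' →+* S' := RingHom.liftOfSurjective Q hsurj
    ⟨G.comp (algebraMap (MvPowerSeries (Fin (n + 1)) D) K), hle⟩
  have hF : F.comp Q = G.comp (algebraMap (MvPowerSeries (Fin (n + 1)) D) K) :=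
    RingHom.liftOfRightInverse_comp _ _ _ _
  let : Algebra R' S' := F.toAlgebra
  have hloc : IsLocalization (𝔮.primeCompl.map Q) S' := by
    refine IsLocalization.of_surjective 𝔮.primeCompl K Q hsurj G hGs ?_ ?_
    · exact hF.symm
    · rw [hGk, hker, Ideal.map_span, Set.image_singleton]
  have hcompl : 𝔮.primeCompl.map Q = (𝔮.map Q).primeCompl := by
    ext z
    constructor
    · rintro ⟨m, hm, rfl⟩ h
      exact hm ((mem_map_Q Q hsurj hker he (maximalIdeal D) hy hg m).1 h)
    · intro hz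
      obtain ⟨m, rfl⟩ := hsurj z
      refine ⟨m, fun h => hz (Ideal.mem_map_of_mem Q h), rfl⟩
  have hloc' : IsLocalization.AtPrime S' (𝔮.map Q) := by
    show IsLocalization (𝔮.map Q).primeCompl S'
    rw [← hcompl]
    exact hloc
  let E : Localization.AtPrime (𝔮.map Q) ≃ₐ[R'] S' :=
    IsLocalization.algEquiv (𝔮.map Q).primeCompl _ _
  refine ⟨IsRegularLocalRing.of_ringEquiv E.symm.toRingEquiv, ?_⟩
  rw [ringKrullDim_eq_of_ringEquiv E.toRingEquiv]
  exact hdim

end Pool.Agent.QU54
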