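import Mathlib
import Pool.Agent.Lib.QU54.DilReg
import Pool.Agent.Lib.QU62.Rank

/-!
# Modules of large rank over dilatations
-/

set_option autoImplicit false

namespace Pool.Agent.QU54

open IsLocalRing Pool.Agent.QU53

universe u

/-- The rank and `h`-bases. -/
theorem finrank_of_HB {A : Type u} [CommRing A] [IsDomain A] {P : Type u} [AddCommGroup P]
    [Module A P] {k : ℕ} {h : A} (hh : h ≠ 0) (H : HB A P k h) : Module.finrank A P = k := by
  obtain ⟨b, hb, hs⟩ := H
  have h1 := rank_quotient_add_rank_of_isDomain (Submodule.span A (Set.range b))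
  have h2 : Module.rank A (P ⧸ Submodule.span A (Set.range b)) = 0 := by
    rw [rank_eq_zero_iff]
    intro x
    obtain ⟨x, rfl⟩ := Submodule.Quotient.mk_surjective _ x
    refine ⟨h, hh, ?_⟩
    rw [← Submodule.Quotient.mk_smul, Submodule.Quotient.mk_eq_zero]
    exact hs x
  rw [h2, zero_add] at h1
  have h3 := finrank_span_eq_card hb
  rw [Fintype.card_fin] at h3
  rw [← h3]
  unfold Module.finrank
  rw [h1]

/-- Dilatations: modules of rank at least `dim D - 1`. -/
theorem dil_main_rank {D : Type u} [CommRing D] [IsRegularLocalRing D]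
    [IsAdicComplete (maximalIdeal D) D] {d : ℕ}
    (hd : ringKrullDim D = ((d + 1 : ℕ) : WithBot ℕ∞)) (y g : D)
    (hy : y ∈ maximalIdeal D) (hy2 : y ∉ maximalIdeal D ^ 2)
    (hg : g ∈ maximalIdeal D) (hg2 : g ∉ maximalIdeal D ^ 2 ⊔ Ideal.span {y})
    (e : ℕ) (he : 0 < e) (n : ℕ)
    (hPF : PFr (Localization.Away (MvPowerSeries.C y : MvPowerSeries (Fin n) D)) d)
    {R' : Type u} [CommRing R'] [IsDomain R'] (Q : MvPowerSeries (Fin (n + 1)) D →+* R')
    (hsurj : Function.Surjective Q)
    (hker : RingHom.ker Q = Ideal.span {(MvPowerSeries.C g - MvPowerSeries.X 0 *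
      MvPowerSeries.C y ^ e : MvPowerSeries (Fin (n + 1)) D)}) :
    PFr (Localization.Away (Q (MvPowerSeries.C y))) d := by
  classical
  have hdomD : IsDomain D := BEH5.Reg.isDomain_of_regular (d + 1) D hd
  obtain ⟨hgp, hgy⟩ := g_prime hd y g hy2 hg hg2
  have hNR : IsNoetherianRing (MvPowerSeries (Fin (n + 1)) D) := inferInstance
  have hRN : IsNoetherianRing R' := isNoetherianRing_of_surjective _ _ Q hsurj
  have P3 := q_prime y g hy hg e he n Q hsurj hker
  have hy0 : Q (MvPowerSeries.C y) ≠ 0 := Q_y_ne y g hg hgp hgy e n Q hker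
  obtain ⟨hKreg, hKdim⟩ := loc_regular hd y g hy hg hg2 e he n Q hsurj hker
  set q : Ideal R' := ((maximalIdeal D).map (MvPowerSeries.C (σ := Fin (n + 1)) (R := D))).map Q
    with hqdef
  have hyK : algebraMap R' (Localization.AtPrime q) (Q (MvPowerSeries.C y)) ∈
      maximalIdeal (Localization.AtPrime q) :=
    (IsLocalization.AtPrime.to_map_mem_maximal_iff _ q _).2
      (Ideal.mem_map_of_mem _ (Ideal.mem_map_of_mem _ hy))
  have hyK0 : algebraMap R' (Localization.AtPrime q) (Q (MvPowerSeries.C y)) ≠ 0 := by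
    intro h0
    exact hy0 (IsLocalization.injective (Localization.AtPrime q)
      (Ideal.primeCompl_le_nonZeroDivisors q) (h0.trans (map_zero _).symm))
  have hG : PFr (Localization.Away (algebraMap R' (Localization.AtPrime q)
      (Q (MvPowerSeries.C y)))) d := fun P _ _ hf hp hr =>
    QU62.free_of_rank hKdim _ hyK hyK0 P hr
  let E := Localization.Away (Q (MvPowerSeries.C y))
  have hinj : Function.Injective (algebraMap R' E) :=
    IsLocalization.injective _ (powers_le_nonZeroDivisors_of_noZeroDivisors hy0)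
  have hEdom : IsDomain E :=
    IsLocalization.isDomain_localization (powers_le_nonZeroDivisors_of_noZeroDivisors hy0)
  intro P _ _ hfin hproj hr
  have hG' : PFr (Localization (Algebra.algebraMapSubmonoid E q.primeCompl)) d :=
    PFr_swap (Q (MvPowerSeries.C y)) q hG
  let M := Algebra.algebraMapSubmonoid E q.primeCompl
  have h0 : (0 : E) ∉ M := by
    rintro ⟨z, hz, hz0⟩
    apply hz
    have : z = 0 := hinj (by rw [hz0, map_zero])
    rw [this]
    exact q.zero_mem
  have hMle : M ≤ nonZeroDivisors E := fun x hx =>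
    mem_nonZeroDivisors_of_ne_zero fun h => h0 (h ▸ hx)
  have hfr : Module.finrank (Localization M) (LocalizedModule M P) = Module.finrank E P := by
    rw [IsLocalization.finrank_eq (R := E) (S := Localization M) M hMle,
      IsLocalizedModule.finrank_eq M (LocalizedModule.mkLinearMap M P) hMle]
  have hfreeM : Module.Free (Localization M) (LocalizedModule M P) := by
    refine hG' _ ?_ ?_ (hfr ▸ hr)
    · exact Module.Finite.of_isLocalizedModule M (Rₚ := Localization M)
        (LocalizedModule.mkLinearMap M P)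
    · exact Module.projective_of_isLocalizedModule (Rₛ := Localization M) M
        (LocalizedModule.mkLinearMap M P)
  obtain ⟨k, _, ⟨h₁, hh₁, rfl⟩, H1⟩ := exists_HB_of_free M h0 P hfreeM
  obtain ⟨h, rfl⟩ := hsurj h₁
  have hh : MvPowerSeries.map (residue D) h ≠ 0 := by
    intro h2
    apply hh₁
    exact Ideal.mem_map_of_mem Q ((mem_mapC _ h).2 h2)
  have hh0 : algebraMap R' E (Q h) ≠ 0 := by
    intro h2
    apply hh₁
    have h3 : Q h = 0 := hinj (by rw [h2, map_zero])
    show Q h ∈ q
    rw [h3]
    exact q.zero_mem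
  have hk := finrank_of_HB hh0 H1
  obtain ⟨P', _, _, hf, hp, ⟨F, hF0, hF⟩, hfree⟩ := dil_core y g hy hg hgp hgy e he n Q hsurj hker
    P k h hh H1
  have hdomT : IsDomain (MvPowerSeries (Fin n) D) := isDomain_mv D n
  have hyT : (MvPowerSeries.C y : MvPowerSeries (Fin n) D) ≠ 0 := fun h => hgy (by
    rw [MvPowerSeries.C_injective (h.trans (map_zero _).symm)]
    exact dvd_zero _)
  have hdomT2 : IsDomain (Localization.Away (MvPowerSeries.C y : MvPowerSeries (Fin n) D)) :=
    IsLocalization.isDomain_localization (powers_le_nonZeroDivisors_of_noZeroDivisors hyT)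
  have hk' := finrank_of_HB hF0 hF
  refine hfree (hPF P' hf hp ?_)
  rw [hk', ← hk]
  exact hr

end Pool.Agent.QU54
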