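import Mathlib
import Pool.Agent.Lib.QU53.Main3

/-!
# Power series over a regular local ring; exchange of variables

Copied from helper74's `Pool.Agent.Lib.MP_3e5078_h74.LaurentBase` (that file cannot be imported
together with `Pool.Agent.Lib.QU74.Stab`: clash of the name `exists_den`).
-/

set_option autoImplicit false

namespace Pool.Agent.QU54

open IsLocalRing Pool.Agent.QU53

universe u

section swap

variable {σ τ : Type} [DecidableEq σ] [DecidableEq τ] (R : Type u) [CommRing R]

/-- exchange of two blocks of variables -/
noncomputable def swapHom : MvPowerSeries σ (MvPowerSeries τ R) →+*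
    MvPowerSeries τ (MvPowerSeries σ R) where
  toFun f := fun b a => f a b
  map_one' := by
    funext b a
    change (MvPowerSeries.coeff b (MvPowerSeries.coeff a (1 : MvPowerSeries σ (MvPowerSeries τ R))))
      = (MvPowerSeries.coeff a (MvPowerSeries.coeff b (1 : MvPowerSeries τ (MvPowerSeries σ R))))
    rw [MvPowerSeries.coeff_one, MvPowerSeries.coeff_one]
    split_ifs with h1 h2 h2
    · rw [MvPowerSeries.coeff_one, MvPowerSeries.coeff_one, if_pos h1, if_pos h2]
    · rw [MvPowerSeries.coeff_one, if_neg h2, map_zero]
    · rw [MvPowerSeries.coeff_one, if_neg h1, map_zero]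
    · rw [map_zero, map_zero]
  map_zero' := rfl
  map_add' _ _ := rfl
  map_mul' f g := by
    funext b a
    change (MvPowerSeries.coeff b (MvPowerSeries.coeff a (f * g))) =
      MvPowerSeries.coeff a (MvPowerSeries.coeff b
        ((show MvPowerSeries τ (MvPowerSeries σ R) from fun b a => f a b) *
          (show MvPowerSeries τ (MvPowerSeries σ R) from fun b a => g a b)))
    rw [MvPowerSeries.coeff_mul, MvPowerSeries.coeff_mul, map_sum, map_sum]
    simp only [MvPowerSeries.coeff_mul]
    rw [Finset.sum_comm]
    rfl

/-- exchange of two blocks of variables -/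
noncomputable def swapEquiv : MvPowerSeries σ (MvPowerSeries τ R) ≃+*
    MvPowerSeries τ (MvPowerSeries σ R) :=
  RingEquiv.ofRingHom (swapHom R) (swapHom R) (by ext; rfl) (by ext; rfl)

lemma swapEquiv_X (s : σ) : swapEquiv (σ := σ) (τ := τ) R (MvPowerSeries.X s) =
    MvPowerSeries.C (MvPowerSeries.X s) := by
  ext b a
  change MvPowerSeries.coeff b (MvPowerSeries.coeff a
    (MvPowerSeries.X s : MvPowerSeries σ (MvPowerSeries τ R))) = _
  rw [MvPowerSeries.coeff_X, MvPowerSeries.coeff_C]
  split_ifs with h1 h2 h2
  · rw [MvPowerSeries.coeff_one, if_pos h2, MvPowerSeries.coeff_X, if_pos h1]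
  · rw [MvPowerSeries.coeff_one, if_neg h2, map_zero]
  · rw [map_zero, MvPowerSeries.coeff_X, if_neg h1]
  · rw [map_zero, map_zero]

end swap

section reg

variable (S : Type u) [CommRing S]

variable [IsRegularLocalRing S]

lemma spanFinrank_max_powerSeries : (maximalIdeal (PowerSeries S)).spanFinrank ≤
    (maximalIdeal S).spanFinrank + 1 := by
  classical
  have hfg : (maximalIdeal S).FG := IsNoetherian.noetherian _
  have h1 : ((maximalIdeal S).map (PowerSeries.C : S →+* PowerSeries S)).spanFinrank ≤
      (maximalIdeal S).spanFinrank := Ideal.spanFinrank_map_le_of_fg _ hfg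
  have hfg2 : ((maximalIdeal S).map (PowerSeries.C : S →+* PowerSeries S)).FG := hfg.map _
  set I := (maximalIdeal S).map (PowerSeries.C : S →+* PowerSeries S) with hI
  have h2 : (maximalIdeal (PowerSeries S)) =
      Submodule.span (PowerSeries S) (insert PowerSeries.X (Submodule.generators I)) := by
    rw [Submodule.span_insert, Submodule.span_generators, max8, J8, sup_comm]
  rw [h2]
  refine (Submodule.spanFinrank_span_le_ncard_of_finite
    ((Submodule.FG.finite_generators hfg2).insert _)).trans ?_
  refine (Set.ncard_insert_le _ _).trans ?_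
  rw [Submodule.FG.generators_ncard hfg2]
  omega

theorem regular_powerSeries : IsRegularLocalRing (PowerSeries S) ∧
    ringKrullDim (PowerSeries S) = ringKrullDim S + 1 := by
  have h1 := spanFinrank_max_powerSeries S
  have h2 : ringKrullDim S = ((maximalIdeal S).spanFinrank : WithBot ℕ∞) :=
    IsRegularLocalRing.spanFinrank_maximalIdeal.symm
  have h3 := ringKrullDim_succ_le_ringKrullDim_powerseries (R := S)
  have h4 : ((maximalIdeal (PowerSeries S)).spanFinrank : WithBot ℕ∞) ≤ ringKrullDim S + 1 := by
    rw [h2]
    exact_mod_cast h1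
  refine ⟨IsRegularLocalRing.of_spanFinrank_maximalIdeal_le _ (h4.trans h3), ?_⟩
  exact le_antisymm ((ringKrullDim_le_spanFinrank_maximalIdeal _).trans h4) h3


end reg

end Pool.Agent.QU54
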