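import Mathlib
import Pool.Agent.Lib.LCD.A2
import Pool.Agent.Lib.QU54.Ps

/-!
# The ring `D⟦x⟧/(g - x y ^ e)`
-/

set_option autoImplicit false

namespace Pool.Agent.QU54

open IsLocalRing Pool.Agent.QU53

universe u

theorem ps_coeff_zero_mem {D : Type u} [CommRing D] [IsLocalRing D] (f : PowerSeries D)
    (hf : f ∈ maximalIdeal (PowerSeries D)) :
    PowerSeries.constantCoeff f ∈ maximalIdeal D := by
  rw [mem_maximalIdeal, mem_nonunits_iff] at hf ⊢
  exact fun h => hf (PowerSeries.isUnit_iff_constantCoeff.2 h)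

theorem ps_coeff_zero_mem_sq {D : Type u} [CommRing D] [IsLocalRing D] (f : PowerSeries D)
    (hf : f ∈ maximalIdeal (PowerSeries D) ^ 2) :
    PowerSeries.constantCoeff f ∈ maximalIdeal D ^ 2 := by
  have h1 : (maximalIdeal (PowerSeries D) ^ 2).map (PowerSeries.constantCoeff (R := D)) ≤
      maximalIdeal D ^ 2 := by
    rw [Ideal.map_pow]
    apply Ideal.pow_right_mono
    rw [Ideal.map_le_iff_le_comap]
    exact fun f hf => ps_coeff_zero_mem f hf
  exact h1 (Ideal.mem_map_of_mem _ hf)

theorem ps_C_mem {D : Type u} [CommRing D] [IsLocalRing D] (a : D) (ha : a ∈ maximalIdeal D) :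
    PowerSeries.C a ∈ maximalIdeal (PowerSeries D) := by
  rw [mem_maximalIdeal, mem_nonunits_iff, PowerSeries.isUnit_iff_constantCoeff,
    PowerSeries.constantCoeff_C]
  exact ha

/-- The ideal of `D⟦x⟧` generated by `g - x y ^ e`. -/
noncomputable def dilatationIdeal {D : Type u} [CommRing D] (y g : D) (e : ℕ) : Ideal (PowerSeries D) :=
  Ideal.span {PowerSeries.C g - PowerSeries.X * PowerSeries.C y ^ e}

/-- The ring `D⟦x⟧/(g - x y ^ e)`. -/
abbrev Dilatation {D : Type u} [CommRing D] (y g : D) (e : ℕ) : Type u := PowerSeries D ⧸ dilatationIdeal y g e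

/-- The dilatation is a complete regular local ring of the same dimension, with regular parameter
`y`. -/
theorem dil_ring {D : Type u} [CommRing D] [IsRegularLocalRing D]
    [IsAdicComplete (maximalIdeal D) D] {d : ℕ} (hd : ringKrullDim D = d) (y g : D)
    (hy : y ∈ maximalIdeal D) (hy2 : y ∉ maximalIdeal D ^ 2)
    (hg : g ∈ maximalIdeal D) (hg2 : g ∉ maximalIdeal D ^ 2 ⊔ Ideal.span {y})
    (e : ℕ) (he : 0 < e) :
    ∃ _ : IsRegularLocalRing (Dilatation y g e),
      IsAdicComplete (maximalIdeal (Dilatation y g e)) (Dilatation y g e) ∧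
      ringKrullDim (Dilatation y g e) = d ∧
      Ideal.Quotient.mk (dilatationIdeal y g e) (PowerSeries.C y) ∈ maximalIdeal (Dilatation y g e) ∧
      Ideal.Quotient.mk (dilatationIdeal y g e) (PowerSeries.C y) ∉ maximalIdeal (Dilatation y g e) ^ 2 := by
  obtain ⟨hE, hEd⟩ := regular_powerSeries D
  have hEc : IsAdicComplete (maximalIdeal (PowerSeries D)) (PowerSeries D) := adicMax8
  set θ : PowerSeries D := PowerSeries.C g - PowerSeries.X * PowerSeries.C y ^ e with hθ
  have hθ0 : PowerSeries.constantCoeff θ = g := by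
    rw [hθ]
    simp
  have hθm : θ ∈ maximalIdeal (PowerSeries D) := by
    rw [hθ]
    refine sub_mem (ps_C_mem g hg) (Ideal.mul_mem_left _ _ ?_)
    exact Ideal.pow_mem_of_mem _ (ps_C_mem y hy) e he
  have hθm2 : θ ∉ maximalIdeal (PowerSeries D) ^ 2 := by
    intro h
    have h1 := ps_coeff_zero_mem_sq _ h
    rw [hθ0] at h1
    exact hg2 (Ideal.mem_sup_left h1)
  obtain ⟨hreg, hdim⟩ := BEH5.Reg.quot_regular (n := d) (by
    rw [hEd, hd]
    push_cast
    rfl) hθm hθm2
  have hreg' : IsRegularLocalRing (Dilatation y g e) := hreg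
  have hmax : (maximalIdeal (Dilatation y g e)).comap (Ideal.Quotient.mk (dilatationIdeal y g e)) =
      maximalIdeal (PowerSeries D) :=
    IsLocalRing.eq_maximalIdeal
      (Ideal.comap_isMaximal_of_surjective _ Ideal.Quotient.mk_surjective)
  refine ⟨hreg', LCD.isAdicComplete_quotient _ _, hdim, ?_, ?_⟩
  · have h1 := ps_C_mem y hy
    rw [← hmax] at h1
    exact h1
  · intro h
    have h1 : maximalIdeal (Dilatation y g e) =
        (maximalIdeal (PowerSeries D)).map (Ideal.Quotient.mk (dilatationIdeal y g e)) := by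
      rw [← hmax, Ideal.map_comap_of_surjective _ Ideal.Quotient.mk_surjective]
    rw [h1, ← Ideal.map_pow] at h
    have h2 : PowerSeries.C y ∈ ((maximalIdeal (PowerSeries D) ^ 2).map
      (Ideal.Quotient.mk (dilatationIdeal y g e))).comap (Ideal.Quotient.mk (dilatationIdeal y g e)) := h
    rw [Ideal.comap_map_of_surjective _ Ideal.Quotient.mk_surjective,
      ← RingHom.ker_eq_comap_bot, Ideal.mk_ker, dilatationIdeal, Submodule.mem_sup] at h2
    obtain ⟨s, hs, z, hz, hsz⟩ := h2
    obtain ⟨c, rfl⟩ := Ideal.mem_span_singleton.1 hz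
    have h3 := congrArg (PowerSeries.constantCoeff) hsz
    rw [map_add, map_mul, PowerSeries.constantCoeff_C] at h3
    rw [← hθ, hθ0] at h3
    have h4 := ps_coeff_zero_mem_sq _ hs
    by_cases hc : IsUnit (PowerSeries.constantCoeff c)
    · obtain ⟨c', hc'⟩ := hc.exists_right_inv
      apply hg2
      have h5 : g = -c' * PowerSeries.constantCoeff s + y * c' := by
        linear_combination c' * h3 - g * hc'
      rw [h5]
      exact add_mem (Ideal.mem_sup_left (Ideal.mul_mem_left _ _ h4))
        (Ideal.mem_sup_right (Ideal.mul_mem_right _ _ (Ideal.mem_span_singleton_self y)))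
    · apply hy2
      rw [← h3]
      refine add_mem h4 ?_
      rw [pow_two]
      exact Ideal.mul_mem_mul hg ((mem_maximalIdeal _).2 hc)

end Pool.Agent.QU54
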