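import Mathlib
import Pool.Agent.Lib.QU54.DilMain
import Pool.Agent.Lib.QU54.DilRing
import Pool.Agent.Lib.QU54.DilRank

/-!
# Power series over the ring `D⟦x⟧/(g - x y ^ e)`
-/

set_option autoImplicit false

namespace Pool.Agent.QU54

open IsLocalRing Pool.Agent.QU53

universe u

section swap

variable {D : Type u} [CommRing D]

theorem swapEquiv_CC {σ τ : Type} [DecidableEq σ] [DecidableEq τ] (d : D) :
    swapEquiv (σ := σ) (τ := τ) D (MvPowerSeries.C (MvPowerSeries.C d)) =
      MvPowerSeries.C (MvPowerSeries.C d) := by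
  ext b a
  change MvPowerSeries.coeff b (MvPowerSeries.coeff a
    (MvPowerSeries.C (MvPowerSeries.C d) : MvPowerSeries σ (MvPowerSeries τ D))) = _
  rw [MvPowerSeries.coeff_C, MvPowerSeries.coeff_C]
  split_ifs with h1 h2 h2
  · rw [MvPowerSeries.coeff_C, if_pos h2, MvPowerSeries.coeff_C, if_pos h1]
  · rw [MvPowerSeries.coeff_C, if_neg h2, map_zero]
  · rw [map_zero, MvPowerSeries.coeff_C, if_neg h1]
  · rw [map_zero, map_zero]

/-- `D⟦x, u⟧ = D⟦x⟧⟦u⟧`. -/
noncomputable def blockE (D : Type u) [CommRing D] (n : ℕ) : MvPowerSeries (Fin (n + 1)) D ≃+*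
    MvPowerSeries (Fin n) (PowerSeries D) :=
  (MvPowerSeries.finSuccEquiv D n).toRingEquiv.trans
    (swapEquiv (σ := Unit) (τ := Fin n) D)

theorem blockE_X (n : ℕ) : blockE D n (MvPowerSeries.X 0) = MvPowerSeries.C PowerSeries.X := by
  show swapEquiv (σ := Unit) (τ := Fin n) D
    (MvPowerSeries.finSuccEquiv D n (MvPowerSeries.X 0)) = _
  rw [MvPowerSeries.finSuccEquiv_X_zero]
  exact swapEquiv_X D ()

theorem blockE_C (n : ℕ) (d : D) : blockE D n (MvPowerSeries.C d) =
    MvPowerSeries.C (PowerSeries.C d) := by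
  show swapEquiv (σ := Unit) (τ := Fin n) D
    (MvPowerSeries.finSuccEquiv D n (MvPowerSeries.C d)) = _
  rw [MvPowerSeries.finSuccEquiv_C]
  exact swapEquiv_CC d

end swap

theorem mv_map_surj {A B : Type u} [CommRing A] [CommRing B] (f : A →+* B)
    (hf : Function.Surjective f) (n : ℕ) :
    Function.Surjective (MvPowerSeries.map (σ := Fin n) f) := by
  intro p
  refine ⟨fun d => Classical.choose (hf (MvPowerSeries.coeff d p)), ?_⟩
  ext d
  rw [MvPowerSeries.coeff_map]
  exact Classical.choose_spec (hf (MvPowerSeries.coeff d p))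

section step

variable {D : Type u} [CommRing D] [IsNoetherianRing D] (y g : D) (e n : ℕ)

/-- The projection. -/
noncomputable def dilQ : MvPowerSeries (Fin (n + 1)) D →+* MvPowerSeries (Fin n) (Dilatation y g e) :=
  (MvPowerSeries.map (σ := Fin n) (Ideal.Quotient.mk (dilatationIdeal y g e))).comp (blockE D n).toRingHom

omit [IsNoetherianRing D] in
theorem dilQ_surj : Function.Surjective (dilQ y g e n) :=
  (mv_map_surj _ Ideal.Quotient.mk_surjective n).comp (blockE D n).surjective

omit [IsNoetherianRing D] in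
theorem dilQ_C : dilQ y g e n (MvPowerSeries.C y) =
    MvPowerSeries.C (Ideal.Quotient.mk (dilatationIdeal y g e) (PowerSeries.C y)) := by
  show MvPowerSeries.map (σ := Fin n) (Ideal.Quotient.mk (dilatationIdeal y g e))
    (blockE D n (MvPowerSeries.C y)) = _
  rw [blockE_C, MvPowerSeries.map_C]

theorem dilQ_ker : RingHom.ker (dilQ y g e n) = Ideal.span {(MvPowerSeries.C g -
    MvPowerSeries.X 0 * MvPowerSeries.C y ^ e : MvPowerSeries (Fin (n + 1)) D)} := by
  have h1 : blockE D n (MvPowerSeries.C g - MvPowerSeries.X 0 * MvPowerSeries.C y ^ e) =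
      MvPowerSeries.C (PowerSeries.C g - PowerSeries.X * PowerSeries.C y ^ e) := by
    rw [map_sub, map_mul, map_pow, blockE_C, blockE_C, blockE_X, map_sub, map_mul, map_pow]
  ext f
  have h2 : f ∈ RingHom.ker (dilQ y g e n) ↔
      MvPowerSeries.map (Ideal.Quotient.mk (dilatationIdeal y g e)) (blockE D n f) = 0 := Iff.rfl
  rw [h2, ← mem_mapC, dilatationIdeal, Ideal.map_span, Set.image_singleton, ← h1, Ideal.mem_span_singleton,
    Ideal.mem_span_singleton]
  constructor
  · rintro ⟨c, hc⟩
    refine ⟨(blockE D n).symm c, (blockE D n).injective ?_⟩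
    rw [hc, map_mul, RingEquiv.apply_symm_apply]
  · rintro ⟨c, rfl⟩
    exact ⟨blockE D n c, map_mul _ _ _⟩

end step

/-- The pairs `(D, y)`, `D` complete regular local of dimension `d + 1` and `y` a regular parameter,
such that for every `n` every finite projective `D⟦u_1, …, u_n⟧[1/y]`-module of rank at least `d` is
free, and all of them if `d ≤ 3`. -/
def Good (d : ℕ) (D : Type u) [CommRing D] (y : D) : Prop :=
  ∃ _ : IsRegularLocalRing D, IsAdicComplete (maximalIdeal D) D ∧
    ringKrullDim D = ((d + 1 : ℕ) : WithBot ℕ∞) ∧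
    y ∈ maximalIdeal D ∧ y ∉ maximalIdeal D ^ 2 ∧
    ∀ n : ℕ, PFr (Localization.Away (MvPowerSeries.C y : MvPowerSeries (Fin n) D)) d ∧
      (d ≤ 3 → PF (Localization.Away (MvPowerSeries.C y : MvPowerSeries (Fin n) D)))

/-- Localisations at corresponding elements. -/
theorem away_equiv {R R' : Type u} [CommRing R] [CommRing R'] (e : R ≃+* R') (r : R) (r' : R')
    (h : e r = r') : Nonempty (Localization.Away r' ≃+* Localization.Away r) :=
  ⟨IsLocalization.ringEquivOfRingEquiv (M := Submonoid.powers r')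
    (T := Submonoid.powers r) (Localization.Away r') (Localization.Away r) e.symm
    (by
      have h1 : e.symm r' = r := by rw [← h, RingEquiv.symm_apply_apply]
      rw [← h1]
      exact Submonoid.map_powers _ _)⟩

theorem PF_away_congr' {R R' : Type u} [CommRing R] [CommRing R'] (e : R ≃+* R') (r : R) (r' : R')
    (h : e r = r') (H : PF (Localization.Away r)) : PF (Localization.Away r') :=
  let ⟨E⟩ := away_equiv e r r' h
  PF_congr E H

theorem PFr_away_congr {R R' : Type u} [CommRing R] [CommRing R'] (e : R ≃+* R') (r : R) (r' : R')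
    (h : e r = r') {d : ℕ} (H : PFr (Localization.Away r) d) : PFr (Localization.Away r') d :=
  let ⟨E⟩ := away_equiv e r r' h
  PFr_congr E H

/-- Power series over a base of dimension `d`. -/
theorem good_base (d : ℕ) (L : Type u) [CommRing L] [IsRegularLocalRing L]
    [IsAdicComplete (maximalIdeal L) L] (hd : ringKrullDim L = d) (y : L)
    (hy : y ∈ maximalIdeal L) (hy2 : y ∉ maximalIdeal L ^ 2) :
    Good d (PowerSeries L) (PowerSeries.C y) := by
  obtain ⟨h1, h2⟩ := regular_powerSeries L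
  have hy0 : y ≠ 0 := fun h => hy2 (by rw [h]; exact zero_mem _)
  refine ⟨h1, adicMax8, ?_, ps_C_mem y hy, ?_, fun n => ⟨?_, fun h3 => ?_⟩⟩
  · rw [h2, hd]
    push_cast
    rfl
  · intro h
    have h3 := ps_coeff_zero_mem_sq _ h
    rw [PowerSeries.constantCoeff_C] at h3
    exact hy2 h3
  · exact PFr_away_congr (blockE L n) _ _ (blockE_C n y) fun P _ _ hf hp hr =>
      QU62.rank_ge_dim hd (n + 1) y hy0 P hr
  · refine PF_away_congr' (blockE L n) _ _ (blockE_C n y) (three_dim_all ?_ (n + 1) y hy hy2)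
    rw [hd]
    exact_mod_cast h3

/-- The dilatations. -/
theorem good_step (d : ℕ) (D : Type u) [CommRing D] (y : D) (h : Good d D y) (g : D) (e : ℕ)
    (he : 0 < e)
    (hg : ∃ _ : IsLocalRing D, g ∈ maximalIdeal D ∧ g ∉ maximalIdeal D ^ 2 ⊔ Ideal.span {y}) :
    Good d (Dilatation y g e) (Ideal.Quotient.mk (dilatationIdeal y g e) (PowerSeries.C y)) := by
  obtain ⟨hreg, hc, hd, hy, hy2, hPF⟩ := h
  obtain ⟨_, hg1, hg2⟩ := hg
  obtain ⟨hreg', hc', hd', hy', hy2'⟩ := dil_ring (d := d + 1) hd y g hy hy2 hg1 hg2 e he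
  have hdom : IsDomain (Dilatation y g e) := BEH5.Reg.isDomain_of_regular (d + 1) _ hd'
  refine ⟨hreg', hc', hd', hy', hy2', fun n => ⟨?_, fun h3 => ?_⟩⟩
  · have hdom' : IsDomain (MvPowerSeries (Fin n) (Dilatation y g e)) := isDomain_mv _ n
    have h1 := dil_main_rank hd y g hy hy2 hg1 hg2 e he n (hPF n).1 (dilQ y g e n)
      (dilQ_surj y g e n) (dilQ_ker y g e n)
    rw [dilQ_C] at h1
    exact h1
  · rcases Nat.lt_or_ge d 3 with h4 | h4
    · refine three_dim_all ?_ n _ hy' hy2'
      rw [hd']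
      exact_mod_cast h4
    · have h5 : d = 3 := le_antisymm h3 h4
      subst h5
      have hdom' : IsDomain (MvPowerSeries (Fin n) (Dilatation y g e)) := isDomain_mv _ n
      have h1 := dil_main (by exact_mod_cast hd) y g hy hy2 hg1 hg2 e he n ((hPF n).2 le_rfl)
        (dilQ y g e n) (dilQ_surj y g e n) (dilQ_ker y g e n)
      rw [dilQ_C] at h1
      exact h1

end Pool.Agent.QU54
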