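import Mathlib
import Pool.Agent.Lib.QU53.RankRed
import Pool.Agent.Lib.QU54.DilRank
import Pool.Agent.Lib.QU54.DilSwap

/-!
# Descent of freeness over `R[1/y]` from a ring with the approximation property

`R → S` such that every finitely presented `R`-algebra with a point in `S` has a point in `R`.
If finitely generated projective modules over `S[1/y]` are free then the same holds over `R[1/y]`; and
the same for modules of rank at least `r`.
-/

set_option autoImplicit false

namespace Pool.Agent.QU54.Ap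

universe u

open Pool.Agent.QU53 IsLocalRing

/-- An idempotent matrix splits through a free module. -/
theorem bq_mat {A C : Type u} [CommRing A] [CommRing C] (ι : A →+* C) (hPF : PF C) (m : ℕ)
    (e : Matrix (Fin m) (Fin m) A) (he : e * e = e) :
    ∃ (k : ℕ) (B : Matrix (Fin m) (Fin k) C) (Y : Matrix (Fin k) (Fin m) C),
      Y * B = 1 ∧ B * Y = e.map ι := by
  classical
  obtain ⟨E, hE⟩ : ∃ E : Matrix (Fin m) (Fin m) C, E = e.map ι := ⟨_, rfl⟩
  have hEE : E * E = E := by
    rw [hE, ← Matrix.map_mul, he]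
  obtain ⟨L, hL⟩ : ∃ L : (Fin m → C) →ₗ[C] (Fin m → C), L = Matrix.toLin' E := ⟨_, rfl⟩
  have hLL : ∀ v, L (L v) = L v := by
    intro v
    rw [hL, ← LinearMap.comp_apply, ← Matrix.toLin'_mul, hEE]
  obtain ⟨s, hs⟩ : ∃ s : (Fin m → C) →ₗ[C] LinearMap.range L, s = L.rangeRestrict := ⟨_, rfl⟩
  have hsi : s.comp (LinearMap.range L).subtype = LinearMap.id := by
    ext ⟨_, v, rfl⟩
    rw [hs]
    simp [hLL]
  have his : (LinearMap.range L).subtype.comp s = L := by
    ext1 v
    rw [hs]
    rfl
  have hproj : Module.Projective C (LinearMap.range L) :=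
    Module.Projective.of_split (LinearMap.range L).subtype s hsi
  have hfin : Module.Finite C (LinearMap.range L) := inferInstance
  have hfree : Module.Free C (LinearMap.range L) := hPF _ hfin hproj
  let b := Module.Free.chooseBasis C (LinearMap.range L)
  let b' := b.reindex (Fintype.equivFin (Module.Free.ChooseBasisIndex C (LinearMap.range L)))
  refine ⟨_, LinearMap.toMatrix b' (Pi.basisFun C (Fin m)) (LinearMap.range L).subtype,
    LinearMap.toMatrix (Pi.basisFun C (Fin m)) b' s, ?_, ?_⟩
  · rw [← LinearMap.toMatrix_comp, hsi, LinearMap.toMatrix_id]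
  · rw [← LinearMap.toMatrix_comp, his, hL, ← hE, LinearMap.toMatrix_eq_toMatrix',
      LinearMap.toMatrix'_toLin']

/-- Splitting of all idempotent matrices gives freeness. -/
theorem free_of_mat {C : Type u} [CommRing C]
    (h : ∀ (m : ℕ) (e : Matrix (Fin m) (Fin m) C), e * e = e →
      ∃ (k : ℕ) (B : Matrix (Fin m) (Fin k) C) (Y : Matrix (Fin k) (Fin m) C),
        Y * B = 1 ∧ B * Y = e) : PF C := by
  intro P _ _ hf hp
  obtain ⟨m, π, hπ⟩ := Module.Finite.exists_fin' C P
  obtain ⟨s, hs⟩ := Module.projective_lifting_property π LinearMap.id hπ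
  obtain ⟨e, he⟩ : ∃ e : Matrix (Fin m) (Fin m) C, e = LinearMap.toMatrix' (s ∘ₗ π) := ⟨_, rfl⟩
  have hss : (s ∘ₗ π) ∘ₗ (s ∘ₗ π) = s ∘ₗ π := by
    rw [LinearMap.comp_assoc, ← LinearMap.comp_assoc π s π, hs, LinearMap.id_comp]
  have hee : e * e = e := by
    rw [he, ← LinearMap.toMatrix'_comp, hss]
  obtain ⟨k, B, Y, hYB, hBY⟩ := h m e hee
  have hB : Matrix.toLin' B ∘ₗ Matrix.toLin' Y = s ∘ₗ π := by
    rw [← Matrix.toLin'_mul, hBY, he, Matrix.toLin'_toMatrix']
  have hY : Matrix.toLin' Y ∘ₗ Matrix.toLin' B = LinearMap.id := by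
    rw [← Matrix.toLin'_mul, hYB, Matrix.toLin'_one]
  have h1 : (Matrix.toLin' Y ∘ₗ s) ∘ₗ (π ∘ₗ Matrix.toLin' B) = LinearMap.id := by
    rw [LinearMap.comp_assoc, ← LinearMap.comp_assoc (Matrix.toLin' B) π s, ← hB,
      ← LinearMap.comp_assoc, ← LinearMap.comp_assoc, hY, LinearMap.id_comp, hY]
  have h2 : (π ∘ₗ Matrix.toLin' B) ∘ₗ (Matrix.toLin' Y ∘ₗ s) = LinearMap.id := by
    rw [LinearMap.comp_assoc, ← LinearMap.comp_assoc s (Matrix.toLin' Y) (Matrix.toLin' B), hB,
      LinearMap.comp_assoc, hs, LinearMap.comp_id, hs]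
  let E : P ≃ₗ[C] (Fin k → C) :=
    LinearEquiv.ofLinear (Matrix.toLin' Y ∘ₗ s) (π ∘ₗ Matrix.toLin' B) h1 h2
  exact Module.Free.of_equiv E.symm

/-- The approximation property for systems of polynomial equations. -/
theorem sol {R S : Type u} [CommRing R] [CommRing S] [Algebra R S]
    (hAP : ∀ (A : Type u) [CommRing A] [Algebra R A] [Algebra.FinitePresentation R A],
      Nonempty (A →ₐ[R] S) → Nonempty (A →ₐ[R] R)) {σ : Type} [Finite σ]
    (F : Set (MvPolynomial σ R)) (hF : F.Finite) (s : σ → S)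
    (hs : ∀ f ∈ F, MvPolynomial.aeval s f = 0) :
    ∃ r : σ → R, ∀ f ∈ F, MvPolynomial.aeval r f = 0 := by
  have hfg : (Ideal.span F).FG := ⟨hF.toFinset, by rw [Set.Finite.coe_toFinset]⟩
  have : Algebra.FinitePresentation R (MvPolynomial σ R ⧸ Ideal.span F) :=
    Algebra.FinitePresentation.quotient hfg
  obtain ⟨ψ⟩ := hAP (MvPolynomial σ R ⧸ Ideal.span F) ⟨Ideal.Quotient.liftₐ (Ideal.span F)
    (MvPolynomial.aeval s) (fun a ha => by
      have h1 : Ideal.span F ≤ RingHom.ker (MvPolynomial.aeval s : MvPolynomial σ R →ₐ[R] S) :=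
        Ideal.span_le.2 fun f hf => hs f hf
      exact h1 ha)⟩
  refine ⟨fun i => ψ (Ideal.Quotient.mk _ (MvPolynomial.X i)), fun f hf => ?_⟩
  have h1 : (MvPolynomial.aeval fun i => ψ (Ideal.Quotient.mk (Ideal.span F) (MvPolynomial.X i)))
      = ψ.comp (Ideal.Quotient.mkₐ R (Ideal.span F)) := by
    refine MvPolynomial.algHom_ext fun i => ?_
    rw [MvPolynomial.aeval_X]
    rfl
  rw [h1]
  show ψ (Ideal.Quotient.mk (Ideal.span F) f) = 0
  rw [Ideal.Quotient.eq_zero_iff_mem.2 (Ideal.subset_span hf), map_zero]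

/-- a common denominator for a matrix over `A[1/y]` -/
theorem denom {A : Type u} [CommRing A] (y : A) {a b : ℕ}
    (M : Matrix (Fin a) (Fin b) (Localization.Away y)) :
    ∃ n : ℕ, ∀ N : ℕ, n ≤ N → ∃ M0 : Matrix (Fin a) (Fin b) A,
      M0.map (algebraMap A (Localization.Away y)) = (algebraMap A (Localization.Away y) y) ^ N • M := by
  classical
  have h1 : ∀ i j, ∃ (n : ℕ) (x : A), M i j * algebraMap A (Localization.Away y) y ^ n =
      algebraMap A (Localization.Away y) x := fun i j => IsLocalization.Away.surj y (M i j)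
  choose n x hx using h1
  refine ⟨∑ i, ∑ j, n i j, fun N hN => ?_⟩
  have h2 : ∀ i j, n i j ≤ N := by
    intro i j
    have h1 : n i j ≤ ∑ j, n i j :=
      Finset.single_le_sum (f := fun j => n i j) (fun _ _ => Nat.zero_le _) (Finset.mem_univ j)
    have h2 : ∑ j, n i j ≤ ∑ i, ∑ j, n i j :=
      Finset.single_le_sum (f := fun i => ∑ j, n i j) (fun _ _ => Nat.zero_le _)
        (Finset.mem_univ i)
    omega
  refine ⟨Matrix.of fun i j => y ^ (N - n i j) * x i j, ?_⟩
  ext1 i j
  rw [Matrix.map_apply, Matrix.of_apply, map_mul, ← hx, Matrix.smul_apply, smul_eq_mul, map_pow,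
    mul_comm (M i j), ← mul_assoc, ← pow_add, Nat.sub_add_cancel (h2 i j)]

/-- a matrix which vanishes over `A[1/y]` -/
theorem kill {A : Type u} [CommRing A] (y : A) {a b : ℕ} (M : Matrix (Fin a) (Fin b) A)
    (h : M.map (algebraMap A (Localization.Away y)) = 0) :
    ∃ c : ℕ, ∀ C : ℕ, c ≤ C → y ^ C • M = 0 := by
  classical
  have h1 : ∀ i j, ∃ c : ℕ, y ^ c * M i j = 0 := by
    intro i j
    have h2 : algebraMap A (Localization.Away y) (M i j) = algebraMap A _ 0 := by
      rw [map_zero]
      exact congrFun (congrFun h i) j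
    obtain ⟨⟨_, c, rfl⟩, hc⟩ := (IsLocalization.eq_iff_exists (Submonoid.powers y) _).1 h2
    refine ⟨c, ?_⟩
    simpa using hc
  choose c hc using h1
  refine ⟨∑ i, ∑ j, c i j, fun C hC => ?_⟩
  ext1 i j
  have h2 : c i j ≤ C := by
    have h1 : c i j ≤ ∑ j, c i j :=
      Finset.single_le_sum (f := fun j => c i j) (fun _ _ => Nat.zero_le _) (Finset.mem_univ j)
    have h2 : ∑ j, c i j ≤ ∑ i, ∑ j, c i j :=
      Finset.single_le_sum (f := fun i => ∑ j, c i j) (fun _ _ => Nat.zero_le _)
        (Finset.mem_univ i)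
    omega
  rw [Matrix.smul_apply, smul_eq_mul, ← Nat.sub_add_cancel h2, pow_add, mul_assoc, hc, mul_zero]
  rfl

/-- An idempotent matrix splits through a free module, if its range is free. -/
theorem bq_mat' {A C : Type u} [CommRing A] [CommRing C] (ι : A →+* C) (m : ℕ)
    (e : Matrix (Fin m) (Fin m) A) (he : e * e = e)
    (hPF : Module.Finite C (LinearMap.range (Matrix.toLin' (e.map ι))) →
      Module.Projective C (LinearMap.range (Matrix.toLin' (e.map ι))) →
      Module.Free C (LinearMap.range (Matrix.toLin' (e.map ι)))) :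
    ∃ (k : ℕ) (B : Matrix (Fin m) (Fin k) C) (Y : Matrix (Fin k) (Fin m) C),
      Y * B = 1 ∧ B * Y = e.map ι := by
  classical
  have hEE : e.map ι * e.map ι = e.map ι := by
    rw [← Matrix.map_mul, he]
  revert hPF hEE
  generalize e.map ι = E
  intro hPF hEE
  revert hPF
  obtain ⟨L, hL⟩ : ∃ L : (Fin m → C) →ₗ[C] (Fin m → C), L = Matrix.toLin' E := ⟨_, rfl⟩
  rw [← hL]
  intro hPF
  have hLL : ∀ v, L (L v) = L v := by
    intro v
    rw [hL, ← LinearMap.comp_apply, ← Matrix.toLin'_mul, hEE]
  obtain ⟨s, hs⟩ : ∃ s : (Fin m → C) →ₗ[C] LinearMap.range L, s = L.rangeRestrict := ⟨_, rfl⟩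
  have hsi : s.comp (LinearMap.range L).subtype = LinearMap.id := by
    ext ⟨_, v, rfl⟩
    rw [hs]
    simp [hLL]
  have his : (LinearMap.range L).subtype.comp s = L := by
    ext1 v
    rw [hs]
    rfl
  have hproj : Module.Projective C (LinearMap.range L) :=
    Module.Projective.of_split (LinearMap.range L).subtype s hsi
  have hfin : Module.Finite C (LinearMap.range L) := inferInstance
  have hfree : Module.Free C (LinearMap.range L) := hPF hfin hproj
  let b := Module.Free.chooseBasis C (LinearMap.range L)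
  let b' := b.reindex (Fintype.equivFin (Module.Free.ChooseBasisIndex C (LinearMap.range L)))
  refine ⟨_, LinearMap.toMatrix b' (Pi.basisFun C (Fin m)) (LinearMap.range L).subtype,
    LinearMap.toMatrix (Pi.basisFun C (Fin m)) b' s, ?_, ?_⟩
  · rw [← LinearMap.toMatrix_comp, hsi, LinearMap.toMatrix_id]
  · rw [← LinearMap.toMatrix_comp, his, hL, LinearMap.toMatrix_eq_toMatrix',
      LinearMap.toMatrix'_toLin']

/-- The rank of the extended module. -/
theorem range_finrank {A C : Type u} [CommRing A] [IsDomain A] [CommRing C] [IsDomain C]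
    (ι : A →+* C) (hι : Function.Injective ι) (N : ℕ) (e : Matrix (Fin N) (Fin N) A)
    (P : Type u) [AddCommGroup P] [Module A P] (f : (Fin N → A) →ₗ[A] P)
    (g : P →ₗ[A] (Fin N → A)) (hfg : ∀ p, f (g p) = p) (hev : ∀ v, e.mulVec v = g (f v))
    (k : ℕ) (s : A) (hs0 : s ≠ 0) (H : HB A P k s) :
    k ≤ Module.finrank C (LinearMap.range (Matrix.toLin' (e.map ι))) := by
  classical
  obtain ⟨p, hp, hsp⟩ := H
  choose Z hZ using fun l : Fin N =>
    (Submodule.mem_span_range_iff_exists_fun A).1 (hsp (f (Pi.single l 1)))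
  -- the coordinates of `s • f v`
  have h1 : ∀ v : Fin N → A, s • f v = ∑ i, (∑ l, v l * Z l i) • p i := by
    intro v
    have e1 : v = ∑ l, v l • (Pi.single l 1 : Fin N → A) := by
      funext j
      rw [Finset.sum_apply]
      simp [Pi.single_apply]
    conv_lhs => rw [e1]
    rw [map_sum, Finset.smul_sum]
    have e2 : ∀ l, s • f (v l • (Pi.single l 1 : Fin N → A)) = ∑ i, (v l * Z l i) • p i := by
      intro l
      rw [map_smul, smul_comm, ← hZ l, Finset.smul_sum]
      exact Finset.sum_congr rfl fun i _ => smul_smul _ _ _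
    rw [Finset.sum_congr rfl fun l _ => e2 l, Finset.sum_comm]
    exact Finset.sum_congr rfl fun i _ => (Finset.sum_smul).symm
  have h2 : ∀ i j, ∑ l, g (p j) l * Z l i = if i = j then s else 0 := by
    intro i j
    have e1 := h1 (g (p j))
    rw [hfg] at e1
    have e2 : ∑ i, ((∑ l, g (p j) l * Z l i) - if i = j then s else 0) • p i = 0 := by
      simp only [sub_smul, Finset.sum_sub_distrib]
      rw [← e1]
      simp [ite_smul]
    have e3 := Fintype.linearIndependent_iff.1 hp _ e2 i
    exact sub_eq_zero.1 e3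
  let w : Fin k → LinearMap.range (Matrix.toLin' (e.map ι)) := fun i =>
    ⟨fun l => ι (g (p i) l), fun l => ι (g (p i) l), by
      rw [Matrix.toLin'_apply]
      funext j
      have e1 := congrFun (hev (g (p i))) j
      rw [hfg] at e1
      rw [← e1]
      simp only [Matrix.mulVec, dotProduct, Matrix.map_apply, map_sum, map_mul]⟩
  have hw : LinearIndependent C w := by
    rw [Fintype.linearIndependent_iff]
    intro c hc i
    have e1 : ∀ l, ∑ j, c j * ι (g (p j) l) = 0 := by
      intro l
      have := congrFun (congrArg Subtype.val hc) l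
      rw [Submodule.coe_sum, Finset.sum_apply] at this
      exact this
    have e2 : ∑ l, ι (Z l i) * ∑ j, c j * ι (g (p j) l) = 0 :=
      Finset.sum_eq_zero fun l _ => by rw [e1, mul_zero]
    have e3 : ∑ l, ι (Z l i) * ∑ j, c j * ι (g (p j) l) = c i * ι s := by
      calc ∑ l, ι (Z l i) * ∑ j, c j * ι (g (p j) l)
          = ∑ l, ∑ j, c j * ι (g (p j) l * Z l i) := by
            refine Finset.sum_congr rfl fun l _ => ?_
            rw [Finset.mul_sum]
            exact Finset.sum_congr rfl fun j _ => by rw [map_mul]; ring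
        _ = ∑ j, ∑ l, c j * ι (g (p j) l * Z l i) := Finset.sum_comm
        _ = ∑ j, c j * ι (if i = j then s else 0) := by
            refine Finset.sum_congr rfl fun j _ => ?_
            rw [← h2 i j, map_sum, Finset.mul_sum]
        _ = c i * ι s := by simp [apply_ite ι]
    rw [e3] at e2
    refine (mul_eq_zero.1 e2).resolve_right fun h => hs0 (hι (by rw [h, map_zero]))
  have := hw.fintype_card_le_finrank
  rwa [Fintype.card_fin] at this

/-- A module which is the range of a split idempotent is free. -/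
theorem free_of_split {C P : Type u} [CommRing C] [AddCommGroup P] [Module C P] {m k : ℕ}
    (π : (Fin m → C) →ₗ[C] P) (s : P →ₗ[C] (Fin m → C)) (hs : π ∘ₗ s = LinearMap.id)
    (B : Matrix (Fin m) (Fin k) C) (Y : Matrix (Fin k) (Fin m) C) (hYB : Y * B = 1)
    (hBY : B * Y = LinearMap.toMatrix' (s ∘ₗ π)) : Module.Free C P := by
  have hB : Matrix.toLin' B ∘ₗ Matrix.toLin' Y = s ∘ₗ π := by
    rw [← Matrix.toLin'_mul, hBY, Matrix.toLin'_toMatrix']
  have hY : Matrix.toLin' Y ∘ₗ Matrix.toLin' B = LinearMap.id := by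
    rw [← Matrix.toLin'_mul, hYB, Matrix.toLin'_one]
  have h1 : (Matrix.toLin' Y ∘ₗ s) ∘ₗ (π ∘ₗ Matrix.toLin' B) = LinearMap.id := by
    rw [LinearMap.comp_assoc, ← LinearMap.comp_assoc (Matrix.toLin' B) π s, ← hB,
      ← LinearMap.comp_assoc, ← LinearMap.comp_assoc, hY, LinearMap.id_comp, hY]
  have h2 : (π ∘ₗ Matrix.toLin' B) ∘ₗ (Matrix.toLin' Y ∘ₗ s) = LinearMap.id := by
    rw [LinearMap.comp_assoc, ← LinearMap.comp_assoc s (Matrix.toLin' Y) (Matrix.toLin' B), hB,
      LinearMap.comp_assoc, hs, LinearMap.comp_id, hs]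
  let E : P ≃ₗ[C] (Fin k → C) :=
    LinearEquiv.ofLinear (Matrix.toLin' Y ∘ₗ s) (π ∘ₗ Matrix.toLin' B) h1 h2
  exact Module.Free.of_equiv E.symm

/-- The approximation property implies injectivity. -/
theorem ap_inj {R S : Type u} [CommRing R] [CommRing S] [Algebra R S]
    (hAP : ∀ (A : Type u) [CommRing A] [Algebra R A] [Algebra.FinitePresentation R A],
      Nonempty (A →ₐ[R] S) → Nonempty (A →ₐ[R] R)) : Function.Injective (algebraMap R S) := by
  rw [injective_iff_map_eq_zero]
  intro x hx
  have hfg : (Ideal.span {x} : Ideal R).FG := ⟨{x}, by simp⟩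
  have : Algebra.FinitePresentation R (R ⧸ Ideal.span {x}) :=
    Algebra.FinitePresentation.quotient hfg
  obtain ⟨ψ⟩ := hAP (R ⧸ Ideal.span {x}) ⟨Ideal.Quotient.liftₐ (Ideal.span {x})
    (Algebra.ofId R S) (fun a ha => by
      obtain ⟨b, rfl⟩ := Ideal.mem_span_singleton.1 ha
      rw [map_mul]
      have h1 : (Algebra.ofId R S) x = 0 := hx
      rw [h1, zero_mul])⟩
  have h1 : algebraMap R (R ⧸ Ideal.span {x}) x = 0 :=
    Ideal.Quotient.eq_zero_iff_mem.2 (Ideal.mem_span_singleton_self x)
  have h2 := ψ.commutes x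
  rw [h1, map_zero] at h2
  exact h2.symm

/-- One matrix over `R[1/y]`. -/
theorem ap_q1_mat {R S : Type u} [CommRing R] [CommRing S] [Algebra R S]
    (hAP : ∀ (A : Type u) [CommRing A] [Algebra R A] [Algebra.FinitePresentation R A],
      Nonempty (A →ₐ[R] S) → Nonempty (A →ₐ[R] R)) (y : R)
    (ι : Localization.Away y →+* Localization.Away (algebraMap R S y))
    (hι : ∀ x : R, ι (algebraMap R _ x) = algebraMap S _ (algebraMap R S x)) (m : ℕ)
    (e : Matrix (Fin m) (Fin m) (Localization.Away y))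
    (k : ℕ) (B : Matrix (Fin m) (Fin k) (Localization.Away (algebraMap R S y)))
    (Y : Matrix (Fin k) (Fin m) (Localization.Away (algebraMap R S y)))
    (hYB : Y * B = 1) (hBY : B * Y = e.map ι) :
    ∃ (B' : Matrix (Fin m) (Fin k) (Localization.Away y))
      (Y' : Matrix (Fin k) (Fin m) (Localization.Away y)), Y' * B' = 1 ∧ B' * Y' = e := by
  classical
  have hyR : IsUnit (algebraMap R (Localization.Away y) y) :=
    IsLocalization.Away.algebraMap_isUnit y
  obtain ⟨n1, h1⟩ := denom (algebraMap R S y) B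
  obtain ⟨n2, h2⟩ := denom (algebraMap R S y) Y
  obtain ⟨n3, h3⟩ := denom y e
  obtain ⟨N, hN⟩ : ∃ N : ℕ, N = n1 + n2 + n3 := ⟨_, rfl⟩
  obtain ⟨B0, hB0⟩ := h1 N (by omega)
  obtain ⟨Y0, hY0⟩ := h2 N (by omega)
  obtain ⟨e0, he0⟩ := h3 N (by omega)
  -- the identities over `S`
  have hK1 : (Y0 * B0 - (algebraMap R S y) ^ (2 * N) • (1 : Matrix (Fin k) (Fin k) S)).map
      (algebraMap S (Localization.Away (algebraMap R S y))) = 0 := by
    rw [Matrix.map_sub (hf := map_sub _), Matrix.map_mul, hB0, hY0, Matrix.smul_mul,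
      Matrix.mul_smul, hYB, smul_smul, ← pow_add, ← two_mul]
    ext1 i j
    by_cases hij : i = j <;> simp [Matrix.smul_apply, hij]
  have hK2 : (B0 * Y0 - (algebraMap R S y) ^ N • e0.map (algebraMap R S)).map
      (algebraMap S (Localization.Away (algebraMap R S y))) = 0 := by
    rw [Matrix.map_sub (hf := map_sub _), Matrix.map_mul, hB0, hY0, Matrix.smul_mul,
      Matrix.mul_smul, hBY, smul_smul, ← pow_add]
    ext1 i j
    have h4 := congrArg ι (congrFun (congrFun he0 i) j)
    simp only [Matrix.map_apply, Matrix.smul_apply, smul_eq_mul, map_mul, map_pow, hι] at h4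
    simp only [Matrix.sub_apply, Matrix.smul_apply, Matrix.map_apply, smul_eq_mul, map_mul,
      map_pow, Matrix.zero_apply]
    rw [h4, pow_add]
    ring
  obtain ⟨c1, hc1⟩ := kill (algebraMap R S y) _ hK1
  obtain ⟨c2, hc2⟩ := kill (algebraMap R S y) _ hK2
  obtain ⟨c, hc⟩ : ∃ c : ℕ, c = c1 + c2 := ⟨_, rfl⟩
  have hc1' := hc1 c (by omega)
  have hc2' := hc2 c (by omega)
  -- the system
  let σ : Type := (Fin m × Fin k) ⊕ (Fin k × Fin m)
  let gB : ∀ (T : Type u) [CommRing T], (σ → T) → Matrix (Fin m) (Fin k) T :=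
    fun T _ r => Matrix.of fun i j => r (Sum.inl (i, j))
  let gY : ∀ (T : Type u) [CommRing T], (σ → T) → Matrix (Fin k) (Fin m) T :=
    fun T _ r => Matrix.of fun j i => r (Sum.inr (j, i))
  have hgB : ∀ (T : Type u) [CommRing T] [Algebra R T] (r : σ → T),
      (gB (MvPolynomial σ R) MvPolynomial.X).map
        (MvPolynomial.aeval r : MvPolynomial σ R →ₐ[R] T).toRingHom = gB T r := by
    intro T _ _ r
    ext1 i j
    simp [gB]
  have hgY : ∀ (T : Type u) [CommRing T] [Algebra R T] (r : σ → T),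
      (gY (MvPolynomial σ R) MvPolynomial.X).map
        (MvPolynomial.aeval r : MvPolynomial σ R →ₐ[R] T).toRingHom = gY T r := by
    intro T _ _ r
    ext1 i j
    simp [gY]
  obtain ⟨E1, hE1⟩ : ∃ E1 : Matrix (Fin k) (Fin k) (MvPolynomial σ R),
      E1 = (algebraMap R (MvPolynomial σ R) y) ^ c •
        (gY (MvPolynomial σ R) MvPolynomial.X * gB (MvPolynomial σ R) MvPolynomial.X -
          (algebraMap R (MvPolynomial σ R) y) ^ (2 * N) • 1) := ⟨_, rfl⟩
  obtain ⟨E2, hE2⟩ : ∃ E2 : Matrix (Fin m) (Fin m) (MvPolynomial σ R),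
      E2 = (algebraMap R (MvPolynomial σ R) y) ^ c •
        (gB (MvPolynomial σ R) MvPolynomial.X * gY (MvPolynomial σ R) MvPolynomial.X -
          (algebraMap R (MvPolynomial σ R) y) ^ N • e0.map (algebraMap R (MvPolynomial σ R))) :=
    ⟨_, rfl⟩
  have hsm : ∀ (T : Type u) [CommRing T] [Algebra R T] (r : σ → T) (a b n : ℕ)
      (M : Matrix (Fin a) (Fin b) (MvPolynomial σ R)),
      ((algebraMap R (MvPolynomial σ R) y) ^ n • M).map
        (MvPolynomial.aeval r : MvPolynomial σ R →ₐ[R] T).toRingHom =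
      (algebraMap R T y) ^ n •
        M.map (MvPolynomial.aeval r : MvPolynomial σ R →ₐ[R] T).toRingHom := by
    intro T _ _ r a b n M
    ext1 i j
    simp [Matrix.smul_apply]
  have hE1' : ∀ (T : Type u) [CommRing T] [Algebra R T] (r : σ → T),
      E1.map (MvPolynomial.aeval r : MvPolynomial σ R →ₐ[R] T).toRingHom =
        (algebraMap R T y) ^ c • (gY T r * gB T r - (algebraMap R T y) ^ (2 * N) • 1) := by
    intro T _ _ r
    rw [hE1, hsm, Matrix.map_sub (hf := map_sub _), Matrix.map_mul, hgB, hgY, hsm,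
      Matrix.map_one _ (map_zero _) (map_one _)]
  have hE2' : ∀ (T : Type u) [CommRing T] [Algebra R T] (r : σ → T),
      E2.map (MvPolynomial.aeval r : MvPolynomial σ R →ₐ[R] T).toRingHom =
        (algebraMap R T y) ^ c •
          (gB T r * gY T r - (algebraMap R T y) ^ N • e0.map (algebraMap R T)) := by
    intro T _ _ r
    rw [hE2, hsm, Matrix.map_sub (hf := map_sub _), Matrix.map_mul, hgB, hgY, hsm, Matrix.map_map]
    congr 3
    ext1 i j
    simp
  obtain ⟨F, hF⟩ : ∃ F : Set (MvPolynomial σ R),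
      F = (Set.range fun p : Fin k × Fin k => E1 p.1 p.2) ∪
        Set.range fun p : Fin m × Fin m => E2 p.1 p.2 := ⟨_, rfl⟩
  have hFf : F.Finite := by
    rw [hF]
    exact (Set.finite_range _).union (Set.finite_range _)
  have hFT : ∀ (T : Type u) [CommRing T] [Algebra R T] (r : σ → T),
      (∀ f ∈ F, MvPolynomial.aeval r f = 0) ↔
      ((algebraMap R T y) ^ c • (gY T r * gB T r - (algebraMap R T y) ^ (2 * N) • 1) = 0 ∧
        (algebraMap R T y) ^ c •
          (gB T r * gY T r - (algebraMap R T y) ^ N • e0.map (algebraMap R T)) = 0) := by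
    intro T _ _ r
    rw [← hE1', ← hE2']
    constructor
    · intro h
      constructor
      · ext1 i j
        refine h _ ?_
        rw [hF]
        exact Or.inl ⟨(i, j), rfl⟩
      · ext1 i j
        refine h _ ?_
        rw [hF]
        exact Or.inr ⟨(i, j), rfl⟩
    · rintro ⟨h1, h2⟩ f hf
      rw [hF] at hf
      rcases hf with ⟨⟨i, j⟩, rfl⟩ | ⟨⟨i, j⟩, rfl⟩
      · exact congrFun (congrFun h1 i) j
      · exact congrFun (congrFun h2 i) j
  obtain ⟨r, hr⟩ := sol hAP F hFf (Sum.elim (fun p => B0 p.1 p.2) (fun p => Y0 p.1 p.2))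
    ((hFT S _).2 ⟨hc1', hc2'⟩)
  obtain ⟨g1, g2⟩ := (hFT R r).1 hr
  -- the matrices over `R[1/y]`
  obtain ⟨w, hw⟩ : ∃ w : Localization.Away y, w * algebraMap R _ y = 1 := by
    obtain ⟨u, hu⟩ := hyR
    exact ⟨((u⁻¹ : (Localization.Away y)ˣ) : Localization.Away y), by rw [← hu, Units.inv_mul]⟩
  have hmapsmul : ∀ (a b n : ℕ) (M : Matrix (Fin a) (Fin b) R),
      (y ^ n • M).map (algebraMap R (Localization.Away y)) =
        (algebraMap R (Localization.Away y) y) ^ n • M.map (algebraMap R (Localization.Away y)) := by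
    intro a b n M
    ext1 i j
    simp [Matrix.smul_apply]
  have hcan : ∀ (a b n : ℕ) (M M' : Matrix (Fin a) (Fin b) (Localization.Away y)),
      (algebraMap R (Localization.Away y) y) ^ n • M =
        (algebraMap R (Localization.Away y) y) ^ n • M' → M = M' := by
    intro a b n M M' h
    have h4 := congrArg (fun M => w ^ n • M) h
    simp only [smul_smul] at h4
    rwa [← mul_pow, hw, one_pow, one_smul, one_smul] at h4
  have q1 : (gY R r).map (algebraMap R (Localization.Away y)) *
      (gB R r).map (algebraMap R (Localization.Away y)) =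
        (algebraMap R (Localization.Away y) y) ^ (2 * N) • 1 := by
    apply hcan k k c
    have h4 := congrArg (fun M => M.map (algebraMap R (Localization.Away y))) g1
    simp only [Algebra.algebraMap_self, RingHom.id_apply] at h4
    rw [hmapsmul, Matrix.map_sub (hf := map_sub _), Matrix.map_mul, hmapsmul,
      Matrix.map_one _ (map_zero _) (map_one _), Matrix.map_zero _ (map_zero _), smul_sub,
      sub_eq_zero] at h4
    exact h4
  have q2 : (gB R r).map (algebraMap R (Localization.Away y)) *
      (gY R r).map (algebraMap R (Localization.Away y)) =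
        (algebraMap R (Localization.Away y) y) ^ (2 * N) • e := by
    apply hcan m m c
    have h4 := congrArg (fun M => M.map (algebraMap R (Localization.Away y))) g2
    simp only [Algebra.algebraMap_self, RingHom.id_apply] at h4
    rw [hmapsmul, Matrix.map_sub (hf := map_sub _), Matrix.map_mul, hmapsmul,
      Matrix.map_zero _ (map_zero _), smul_sub, sub_eq_zero] at h4
    rw [h4]
    have h5 : (e0.map (RingHom.id R)).map (algebraMap R (Localization.Away y)) =
        (algebraMap R (Localization.Away y) y) ^ N • e := by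
      rw [← he0]
      rfl
    rw [h5, smul_smul (a₁ := (algebraMap R (Localization.Away y) y) ^ N), ← pow_add, ← two_mul]
  refine ⟨w ^ N • (gB R r).map (algebraMap R (Localization.Away y)),
    w ^ N • (gY R r).map (algebraMap R (Localization.Away y)), ?_, ?_⟩
  · rw [Matrix.smul_mul, Matrix.mul_smul, q1, smul_smul, smul_smul, ← pow_add, ← two_mul,
      ← mul_pow, hw, one_pow, one_smul]
  · rw [Matrix.smul_mul, Matrix.mul_smul, q2, smul_smul, smul_smul, ← pow_add, ← two_mul,
      ← mul_pow, hw, one_pow, one_smul]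



/-- Descent of freeness for `R[1/y]`. -/
theorem ap_q1 {R S : Type u} [CommRing R] [CommRing S] [Algebra R S]
    (hAP : ∀ (A : Type u) [CommRing A] [Algebra R A] [Algebra.FinitePresentation R A],
      Nonempty (A →ₐ[R] S) → Nonempty (A →ₐ[R] R)) (y : R)
    (hPF : PF (Localization.Away (algebraMap R S y))) : PF (Localization.Away y) := by
  classical
  refine free_of_mat fun m e he => ?_
  have hyR : IsUnit (algebraMap R (Localization.Away y) y) :=
    IsLocalization.Away.algebraMap_isUnit y
  have hyS : IsUnit (algebraMap S (Localization.Away (algebraMap R S y)) (algebraMap R S y)) :=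
    IsLocalization.Away.algebraMap_isUnit (algebraMap R S y)
  obtain ⟨ι, hι⟩ : ∃ ι : Localization.Away y →+* Localization.Away (algebraMap R S y),
      ∀ x : R, ι (algebraMap R _ x) = algebraMap S _ (algebraMap R S x) :=
    ⟨IsLocalization.Away.lift (g := (algebraMap S (Localization.Away (algebraMap R S y))).comp
      (algebraMap R S)) y hyS, fun x => IsLocalization.Away.lift_eq y hyS x⟩
  obtain ⟨k, B, Y, hYB, hBY⟩ := bq_mat ι hPF m e he
  obtain ⟨n1, h1⟩ := denom (algebraMap R S y) B
  obtain ⟨n2, h2⟩ := denom (algebraMap R S y) Y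
  obtain ⟨n3, h3⟩ := denom y e
  obtain ⟨N, hN⟩ : ∃ N : ℕ, N = n1 + n2 + n3 := ⟨_, rfl⟩
  obtain ⟨B0, hB0⟩ := h1 N (by omega)
  obtain ⟨Y0, hY0⟩ := h2 N (by omega)
  obtain ⟨e0, he0⟩ := h3 N (by omega)
  -- the identities over `S`
  have hK1 : (Y0 * B0 - (algebraMap R S y) ^ (2 * N) • (1 : Matrix (Fin k) (Fin k) S)).map
      (algebraMap S (Localization.Away (algebraMap R S y))) = 0 := by
    rw [Matrix.map_sub (hf := map_sub _), Matrix.map_mul, hB0, hY0, Matrix.smul_mul,
      Matrix.mul_smul, hYB, smul_smul, ← pow_add, ← two_mul]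
    ext1 i j
    by_cases hij : i = j <;> simp [Matrix.smul_apply, hij]
  have hK2 : (B0 * Y0 - (algebraMap R S y) ^ N • e0.map (algebraMap R S)).map
      (algebraMap S (Localization.Away (algebraMap R S y))) = 0 := by
    rw [Matrix.map_sub (hf := map_sub _), Matrix.map_mul, hB0, hY0, Matrix.smul_mul,
      Matrix.mul_smul, hBY, smul_smul, ← pow_add]
    ext1 i j
    have h4 := congrArg ι (congrFun (congrFun he0 i) j)
    simp only [Matrix.map_apply, Matrix.smul_apply, smul_eq_mul, map_mul, map_pow, hι] at h4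
    simp only [Matrix.sub_apply, Matrix.smul_apply, Matrix.map_apply, smul_eq_mul, map_mul,
      map_pow, Matrix.zero_apply]
    rw [h4, pow_add]
    ring
  obtain ⟨c1, hc1⟩ := kill (algebraMap R S y) _ hK1
  obtain ⟨c2, hc2⟩ := kill (algebraMap R S y) _ hK2
  obtain ⟨c, hc⟩ : ∃ c : ℕ, c = c1 + c2 := ⟨_, rfl⟩
  have hc1' := hc1 c (by omega)
  have hc2' := hc2 c (by omega)
  -- the system
  let σ : Type := (Fin m × Fin k) ⊕ (Fin k × Fin m)
  let gB : ∀ (T : Type u) [CommRing T], (σ → T) → Matrix (Fin m) (Fin k) T :=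
    fun T _ r => Matrix.of fun i j => r (Sum.inl (i, j))
  let gY : ∀ (T : Type u) [CommRing T], (σ → T) → Matrix (Fin k) (Fin m) T :=
    fun T _ r => Matrix.of fun j i => r (Sum.inr (j, i))
  have hgB : ∀ (T : Type u) [CommRing T] [Algebra R T] (r : σ → T),
      (gB (MvPolynomial σ R) MvPolynomial.X).map
        (MvPolynomial.aeval r : MvPolynomial σ R →ₐ[R] T).toRingHom = gB T r := by
    intro T _ _ r
    ext1 i j
    simp [gB]
  have hgY : ∀ (T : Type u) [CommRing T] [Algebra R T] (r : σ → T),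
      (gY (MvPolynomial σ R) MvPolynomial.X).map
        (MvPolynomial.aeval r : MvPolynomial σ R →ₐ[R] T).toRingHom = gY T r := by
    intro T _ _ r
    ext1 i j
    simp [gY]
  obtain ⟨E1, hE1⟩ : ∃ E1 : Matrix (Fin k) (Fin k) (MvPolynomial σ R),
      E1 = (algebraMap R (MvPolynomial σ R) y) ^ c •
        (gY (MvPolynomial σ R) MvPolynomial.X * gB (MvPolynomial σ R) MvPolynomial.X -
          (algebraMap R (MvPolynomial σ R) y) ^ (2 * N) • 1) := ⟨_, rfl⟩
  obtain ⟨E2, hE2⟩ : ∃ E2 : Matrix (Fin m) (Fin m) (MvPolynomial σ R),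
      E2 = (algebraMap R (MvPolynomial σ R) y) ^ c •
        (gB (MvPolynomial σ R) MvPolynomial.X * gY (MvPolynomial σ R) MvPolynomial.X -
          (algebraMap R (MvPolynomial σ R) y) ^ N • e0.map (algebraMap R (MvPolynomial σ R))) :=
    ⟨_, rfl⟩
  have hsm : ∀ (T : Type u) [CommRing T] [Algebra R T] (r : σ → T) (a b n : ℕ)
      (M : Matrix (Fin a) (Fin b) (MvPolynomial σ R)),
      ((algebraMap R (MvPolynomial σ R) y) ^ n • M).map
        (MvPolynomial.aeval r : MvPolynomial σ R →ₐ[R] T).toRingHom =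
      (algebraMap R T y) ^ n •
        M.map (MvPolynomial.aeval r : MvPolynomial σ R →ₐ[R] T).toRingHom := by
    intro T _ _ r a b n M
    ext1 i j
    simp [Matrix.smul_apply]
  have hE1' : ∀ (T : Type u) [CommRing T] [Algebra R T] (r : σ → T),
      E1.map (MvPolynomial.aeval r : MvPolynomial σ R →ₐ[R] T).toRingHom =
        (algebraMap R T y) ^ c • (gY T r * gB T r - (algebraMap R T y) ^ (2 * N) • 1) := by
    intro T _ _ r
    rw [hE1, hsm, Matrix.map_sub (hf := map_sub _), Matrix.map_mul, hgB, hgY, hsm,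
      Matrix.map_one _ (map_zero _) (map_one _)]
  have hE2' : ∀ (T : Type u) [CommRing T] [Algebra R T] (r : σ → T),
      E2.map (MvPolynomial.aeval r : MvPolynomial σ R →ₐ[R] T).toRingHom =
        (algebraMap R T y) ^ c •
          (gB T r * gY T r - (algebraMap R T y) ^ N • e0.map (algebraMap R T)) := by
    intro T _ _ r
    rw [hE2, hsm, Matrix.map_sub (hf := map_sub _), Matrix.map_mul, hgB, hgY, hsm, Matrix.map_map]
    congr 3
    ext1 i j
    simp
  obtain ⟨F, hF⟩ : ∃ F : Set (MvPolynomial σ R),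
      F = (Set.range fun p : Fin k × Fin k => E1 p.1 p.2) ∪
        Set.range fun p : Fin m × Fin m => E2 p.1 p.2 := ⟨_, rfl⟩
  have hFf : F.Finite := by
    rw [hF]
    exact (Set.finite_range _).union (Set.finite_range _)
  have hFT : ∀ (T : Type u) [CommRing T] [Algebra R T] (r : σ → T),
      (∀ f ∈ F, MvPolynomial.aeval r f = 0) ↔
      ((algebraMap R T y) ^ c • (gY T r * gB T r - (algebraMap R T y) ^ (2 * N) • 1) = 0 ∧
        (algebraMap R T y) ^ c •
          (gB T r * gY T r - (algebraMap R T y) ^ N • e0.map (algebraMap R T)) = 0) := by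
    intro T _ _ r
    rw [← hE1', ← hE2']
    constructor
    · intro h
      constructor
      · ext1 i j
        refine h _ ?_
        rw [hF]
        exact Or.inl ⟨(i, j), rfl⟩
      · ext1 i j
        refine h _ ?_
        rw [hF]
        exact Or.inr ⟨(i, j), rfl⟩
    · rintro ⟨h1, h2⟩ f hf
      rw [hF] at hf
      rcases hf with ⟨⟨i, j⟩, rfl⟩ | ⟨⟨i, j⟩, rfl⟩
      · exact congrFun (congrFun h1 i) j
      · exact congrFun (congrFun h2 i) j
  obtain ⟨r, hr⟩ := sol hAP F hFf (Sum.elim (fun p => B0 p.1 p.2) (fun p => Y0 p.1 p.2))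
    ((hFT S _).2 ⟨hc1', hc2'⟩)
  obtain ⟨g1, g2⟩ := (hFT R r).1 hr
  -- the matrices over `R[1/y]`
  obtain ⟨w, hw⟩ : ∃ w : Localization.Away y, w * algebraMap R _ y = 1 := by
    obtain ⟨u, hu⟩ := hyR
    exact ⟨((u⁻¹ : (Localization.Away y)ˣ) : Localization.Away y), by rw [← hu, Units.inv_mul]⟩
  have hmapsmul : ∀ (a b n : ℕ) (M : Matrix (Fin a) (Fin b) R),
      (y ^ n • M).map (algebraMap R (Localization.Away y)) =
        (algebraMap R (Localization.Away y) y) ^ n • M.map (algebraMap R (Localization.Away y)) := by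
    intro a b n M
    ext1 i j
    simp [Matrix.smul_apply]
  have hcan : ∀ (a b n : ℕ) (M M' : Matrix (Fin a) (Fin b) (Localization.Away y)),
      (algebraMap R (Localization.Away y) y) ^ n • M =
        (algebraMap R (Localization.Away y) y) ^ n • M' → M = M' := by
    intro a b n M M' h
    have h4 := congrArg (fun M => w ^ n • M) h
    simp only [smul_smul] at h4
    rwa [← mul_pow, hw, one_pow, one_smul, one_smul] at h4
  have q1 : (gY R r).map (algebraMap R (Localization.Away y)) *
      (gB R r).map (algebraMap R (Localization.Away y)) =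
        (algebraMap R (Localization.Away y) y) ^ (2 * N) • 1 := by
    apply hcan k k c
    have h4 := congrArg (fun M => M.map (algebraMap R (Localization.Away y))) g1
    simp only [Algebra.algebraMap_self, RingHom.id_apply] at h4
    rw [hmapsmul, Matrix.map_sub (hf := map_sub _), Matrix.map_mul, hmapsmul,
      Matrix.map_one _ (map_zero _) (map_one _), Matrix.map_zero _ (map_zero _), smul_sub,
      sub_eq_zero] at h4
    exact h4
  have q2 : (gB R r).map (algebraMap R (Localization.Away y)) *
      (gY R r).map (algebraMap R (Localization.Away y)) =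
        (algebraMap R (Localization.Away y) y) ^ (2 * N) • e := by
    apply hcan m m c
    have h4 := congrArg (fun M => M.map (algebraMap R (Localization.Away y))) g2
    simp only [Algebra.algebraMap_self, RingHom.id_apply] at h4
    rw [hmapsmul, Matrix.map_sub (hf := map_sub _), Matrix.map_mul, hmapsmul,
      Matrix.map_zero _ (map_zero _), smul_sub, sub_eq_zero] at h4
    rw [h4]
    have h5 : (e0.map (RingHom.id R)).map (algebraMap R (Localization.Away y)) =
        (algebraMap R (Localization.Away y) y) ^ N • e := by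
      rw [← he0]
      rfl
    rw [h5, smul_smul (a₁ := (algebraMap R (Localization.Away y) y) ^ N), ← pow_add, ← two_mul]
  refine ⟨k, w ^ N • (gB R r).map (algebraMap R (Localization.Away y)),
    w ^ N • (gY R r).map (algebraMap R (Localization.Away y)), ?_, ?_⟩
  · rw [Matrix.smul_mul, Matrix.mul_smul, q1, smul_smul, smul_smul, ← pow_add, ← two_mul,
      ← mul_pow, hw, one_pow, one_smul]
  · rw [Matrix.smul_mul, Matrix.mul_smul, q2, smul_smul, smul_smul, ← pow_add, ← two_mul,
      ← mul_pow, hw, one_pow, one_smul]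

/-- Descent of freeness for `R[1/y]`, with the rank. -/
theorem ap_q1r {R S : Type u} [CommRing R] [CommRing S] [IsDomain S] [Algebra R S]
    (hAP : ∀ (A : Type u) [CommRing A] [Algebra R A] [Algebra.FinitePresentation R A],
      Nonempty (A →ₐ[R] S) → Nonempty (A →ₐ[R] R)) (y : R) (hy : algebraMap R S y ≠ 0) (r : ℕ)
    (hPF : PFr (Localization.Away (algebraMap R S y)) r) : PFr (Localization.Away y) r := by
  classical
  intro P _ _ hfin hproj hr
  have hinj : Function.Injective (algebraMap R S) := ap_inj hAP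
  have hRd : IsDomain R := hinj.isDomain (algebraMap R S)
  have hy0 : y ≠ 0 := fun h => hy (by rw [h, map_zero])
  have hd1 : IsDomain (Localization.Away y) :=
    IsLocalization.isDomain_localization (powers_le_nonZeroDivisors_of_noZeroDivisors hy0)
  have hd2 : IsDomain (Localization.Away (algebraMap R S y)) :=
    IsLocalization.isDomain_localization (powers_le_nonZeroDivisors_of_noZeroDivisors hy)
  have hyS : IsUnit (algebraMap S (Localization.Away (algebraMap R S y)) (algebraMap R S y)) :=
    IsLocalization.Away.algebraMap_isUnit (algebraMap R S y)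
  obtain ⟨ι, hι⟩ : ∃ ι : Localization.Away y →+* Localization.Away (algebraMap R S y),
      ∀ x : R, ι (algebraMap R _ x) = algebraMap S _ (algebraMap R S x) :=
    ⟨IsLocalization.Away.lift (g := (algebraMap S (Localization.Away (algebraMap R S y))).comp
      (algebraMap R S)) y hyS, fun x => IsLocalization.Away.lift_eq y hyS x⟩
  have hιinj : Function.Injective ι := by
    rw [injective_iff_map_eq_zero]
    intro x hx
    obtain ⟨n, a, ha⟩ := IsLocalization.Away.surj y x
    have h1 : ι (algebraMap R _ a) = 0 := by rw [← ha, map_mul, hx, zero_mul]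
    rw [hι] at h1
    have h2 : Function.Injective (algebraMap S (Localization.Away (algebraMap R S y))) :=
      IsLocalization.injective _ (powers_le_nonZeroDivisors_of_noZeroDivisors hy)
    have h3 : algebraMap R S a = 0 := h2 (by rw [h1, map_zero])
    have h4 : a = 0 := hinj (by rw [h3, map_zero])
    rw [h4, map_zero] at ha
    refine (mul_eq_zero.1 ha).resolve_right (pow_ne_zero _ ?_)
    exact (IsLocalization.Away.algebraMap_isUnit (S := Localization.Away y) y).ne_zero
  obtain ⟨N, f, hf⟩ := Module.Finite.exists_fin' (Localization.Away y) P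
  obtain ⟨g, hg⟩ := Module.projective_lifting_property f LinearMap.id hf
  have hfg : ∀ p, f (g p) = p := fun p => LinearMap.congr_fun hg p
  obtain ⟨e, hE⟩ : ∃ e : Matrix (Fin N) (Fin N) (Localization.Away y),
      e = LinearMap.toMatrix' (g ∘ₗ f) := ⟨_, rfl⟩
  have he : e * e = e := by
    rw [hE, ← LinearMap.toMatrix'_comp]
    congr 1
    refine LinearMap.ext fun v => ?_
    show g (f (g (f v))) = g (f v)
    rw [hfg]
  have hev : ∀ v, e.mulVec v = g (f v) := by
    intro v
    rw [hE, ← Matrix.toLin'_apply, Matrix.toLin'_toMatrix']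
    rfl
  have hfree : Module.Free (FractionRing (Localization.Away y))
      (LocalizedModule (nonZeroDivisors (Localization.Away y)) P) := inferInstance
  obtain ⟨k, s, hs, H⟩ := exists_HB_of_free (nonZeroDivisors (Localization.Away y))
    zero_notMem_nonZeroDivisors P hfree
  have hs0 : s ≠ 0 := nonZeroDivisors.ne_zero hs
  have hk := finrank_of_HB hs0 H
  obtain ⟨k', B, Y, hYB, hBY⟩ := bq_mat' ι N e he fun h1 h2 =>
    hPF _ h1 h2 (hr.trans (hk.le.trans (range_finrank ι hιinj N e P f g hfg hev k s hs0 H)))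
  obtain ⟨B', Y', h1, h2⟩ := ap_q1_mat hAP y ι hι N e k' B Y hYB hBY
  exact free_of_split f g hg B' Y' h1 (h2.trans hE)

end Pool.Agent.QU54.Ap
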