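import Mathlib
import Pool.Agent.Lib.QU54.ApA

/-!
# Quillen's question and analytic isomorphisms along the parameter (helper62)

`R → R'` with `R/r = R'/r`, `R` noetherian local, `r` in the maximal ideal of `R`: if finitely
generated projective modules over `R'[1/r]` are free then the same holds over `R[1/r]`; and the same
for modules of rank at least `d`.

Proof. Let `w` be a frame over `R'[1/r]` of the range of the idempotent matrix `e` over `R[1/r]`,
`w₀` an approximation of `w` over `R[1/r]` modulo a high power of `r`. Then `w₁ = e w₀ = w U`,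
`det U = 1 - r t` with `t` in `R'`; so `w₁` is injective, and approximation of a right inverse of
`w₁` up to `det U` gives `w₁ z₀ = e V`, `V` a matrix over `R` congruent modulo `r` to a scalar
matrix `δ₀`, `δ₀` a unit of `R`.
-/

set_option autoImplicit false
set_option linter.unusedSectionVars false

namespace Pool.Agent.QU54.Ap

universe u

open Pool.Agent.QU53 IsLocalRing

namespace RAdic

section

variable {R R' : Type u} [CommRing R] [IsDomain R] [IsNoetherianRing R] [IsLocalRing R]
  [CommRing R'] [IsDomain R'] [Algebra R R'] (r : R)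

theorem h1n (h1 : ∀ b : R', ∃ (a : R) (c : R'), b = algebraMap R R' a + algebraMap R R' r * c) :
    ∀ (n : ℕ) (b : R'), ∃ (a : R) (c : R'), b = algebraMap R R' a + algebraMap R R' r ^ n * c := by
  intro n
  induction n with
  | zero => exact fun b => ⟨0, b, by simp⟩
  | succ n ih =>
    intro b
    obtain ⟨a, c, rfl⟩ := ih b
    obtain ⟨a', c', rfl⟩ := h1 c
    exact ⟨a + r ^ n * a', c', by rw [map_add, map_mul, map_pow]; ring⟩

theorem h2n (hr0 : algebraMap R R' r ≠ 0)
    (h2 : ∀ (a : R) (c : R'), algebraMap R R' a = algebraMap R R' r * c → r ∣ a) :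
    ∀ (n : ℕ) (a : R) (c : R'), algebraMap R R' a = algebraMap R R' r ^ n * c →
      ∃ a', a = r ^ n * a' ∧ c = algebraMap R R' a' := by
  intro n
  induction n with
  | zero => exact fun a c h => ⟨a, by simp, by rw [h]; simp⟩
  | succ n ih =>
    intro a c h
    obtain ⟨a', rfl, h3⟩ := ih a (algebraMap R R' r * c) (by rw [h]; ring)
    obtain ⟨a'', rfl⟩ := h2 a' c h3.symm
    refine ⟨a'', by ring, ?_⟩
    rw [map_mul] at h3
    exact mul_left_cancel₀ hr0 h3

theorem inj (hr : r ∈ maximalIdeal R) (hr0 : algebraMap R R' r ≠ 0)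
    (h2 : ∀ (a : R) (c : R'), algebraMap R R' a = algebraMap R R' r * c → r ∣ a) :
    Function.Injective (algebraMap R R') := by
  rw [injective_iff_map_eq_zero]
  intro a ha
  have h3 : a ∈ ⨅ n : ℕ, (maximalIdeal R) ^ n := by
    rw [Ideal.mem_iInf]
    intro n
    obtain ⟨a', rfl, -⟩ := h2n r hr0 h2 n a 0 (by rw [ha, mul_zero])
    exact Ideal.mul_mem_right _ _ (Ideal.pow_mem_pow hr n)
  rwa [Ideal.iInf_pow_eq_bot_of_isLocalRing _ (maximalIdeal.isMaximal R).ne_top,
    Ideal.mem_bot] at h3

end

/-- Common denominators for matrices over `B = R'[1/s]`. -/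
theorem den {S : Type u} [CommRing S] (s : S) {m n : ℕ}
    (w : Matrix (Fin m) (Fin n) (Localization.Away s)) :
    ∃ (K : ℕ) (w₀ : Matrix (Fin m) (Fin n) S), ∀ i j,
      algebraMap S (Localization.Away s) s ^ K * w i j = algebraMap S _ (w₀ i j) := by
  classical
  have h : ∀ ij : Fin m × Fin n, ∃ (k : ℕ) (a : S),
      algebraMap S (Localization.Away s) s ^ k * w ij.1 ij.2 = algebraMap S _ a := by
    intro ij
    obtain ⟨k, a, ha⟩ := IsLocalization.Away.surj s (w ij.1 ij.2)
    exact ⟨k, a, by rw [← ha, mul_comm]⟩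
  choose k a hk using h
  refine ⟨∑ ij, k ij, fun i j => s ^ (∑ ij ∈ Finset.univ.erase (i, j), k ij) * a (i, j),
    fun i j => ?_⟩
  rw [← Finset.add_sum_erase Finset.univ k (Finset.mem_univ (i, j)), pow_add, map_mul, map_pow,
    ← hk (i, j)]
  ring

/-- Injectivity of the localised map. -/
theorem inj_away {R R' : Type u} [CommRing R] [IsDomain R] [CommRing R'] [IsDomain R']
    [Algebra R R'] (r : R) (hr0 : algebraMap R R' r ≠ 0)
    (hinj : Function.Injective (algebraMap R R'))
    (φ : Localization.Away r →+* Localization.Away (algebraMap R R' r))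
    (hφ : ∀ x : R, φ (algebraMap R _ x) = algebraMap R' _ (algebraMap R R' x)) :
    Function.Injective φ := by
  rw [injective_iff_map_eq_zero]
  intro x hx
  obtain ⟨n, a, ha⟩ := IsLocalization.Away.surj r x
  have h1 : φ (algebraMap R _ a) = 0 := by rw [← ha, map_mul, hx, zero_mul]
  rw [hφ] at h1
  have h2 : Function.Injective (algebraMap R' (Localization.Away (algebraMap R R' r))) :=
    IsLocalization.injective _ (powers_le_nonZeroDivisors_of_noZeroDivisors hr0)
  have h3 : algebraMap R R' a = 0 := h2 (by rw [h1, map_zero])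
  have h4 : a = 0 := hinj (by rw [h3, map_zero])
  rw [h4, map_zero] at ha
  have hr : r ≠ 0 := fun h => hr0 (by rw [h, map_zero])
  have hd : IsDomain (Localization.Away r) :=
    IsLocalization.isDomain_localization (powers_le_nonZeroDivisors_of_noZeroDivisors hr)
  refine (mul_eq_zero.1 ha).resolve_right (pow_ne_zero _ ?_)
  exact (IsLocalization.Away.algebraMap_isUnit (S := Localization.Away r) r).ne_zero

end RAdic

open RAdic in
/-- **Descent along an analytic isomorphism**, one matrix. -/
theorem radic_mat0 {R R' : Type u} [CommRing R] [IsDomain R] [IsNoetherianRing R] [IsLocalRing R]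
    [CommRing R'] [IsDomain R'] [Algebra R R'] (r : R) (hr : r ∈ maximalIdeal R)
    (s : R') (hs : s = algebraMap R R' r) (hr0 : s ≠ 0)
    (h1 : ∀ b : R', ∃ (a : R) (c : R'), b = algebraMap R R' a + s * c)
    (h2 : ∀ (a : R) (c : R'), algebraMap R R' a = s * c → r ∣ a)
    (φ : Localization.Away r →+* Localization.Away s)
    (hφ : ∀ x : R, φ (algebraMap R _ x) = algebraMap R' _ (algebraMap R R' x))
    (_hinjR : Function.Injective (algebraMap R R')) (hφinj : Function.Injective φ) (N : ℕ)
    (e : Matrix (Fin N) (Fin N) (Localization.Away r)) (he : e * e = e) (k : ℕ)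
    (w : Matrix (Fin N) (Fin k) (Localization.Away s))
    (w' : Matrix (Fin k) (Fin N) (Localization.Away s))
    (hw'w : w' * w = 1) (hww : w * w' = e.map φ) :
    ∃ (w₁ : Matrix (Fin N) (Fin k) (Localization.Away r))
      (z₁ : Matrix (Fin k) (Fin N) (Localization.Away r)), z₁ * w₁ = 1 ∧ w₁ * z₁ = e := by
  classical
  let A := Localization.Away r
  let B := Localization.Away s
  let jA : R →+* A := algebraMap R A
  let jB : R' →+* B := algebraMap R' B
  have hrR : r ≠ 0 := by
    intro h0
    exact hr0 (by rw [hs, h0, map_zero])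
  have h1n' : ∀ (n : ℕ) (b : R'), ∃ (a : R) (c : R'), b = algebraMap R R' a + s ^ n * c := by
    have h3 := h1n (R := R) (R' := R') r (by rw [← hs]; exact h1)
    rwa [← hs] at h3
  have h2n' : ∀ (n : ℕ) (a : R) (c : R'), algebraMap R R' a = s ^ n * c →
      ∃ a', a = r ^ n * a' ∧ c = algebraMap R R' a' := by
    have h3 := h2n (R := R) (R' := R') r (by rw [← hs]; exact hr0) (by rw [← hs]; exact h2)
    rwa [← hs] at h3
  have hinjA : Function.Injective jA :=
    IsLocalization.injective _ (powers_le_nonZeroDivisors_of_noZeroDivisors hrR)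
  have hinjB : Function.Injective jB :=
    IsLocalization.injective _ (powers_le_nonZeroDivisors_of_noZeroDivisors hr0)
  have hAd : IsDomain A :=
    IsLocalization.isDomain_localization (powers_le_nonZeroDivisors_of_noZeroDivisors hrR)
  have hBd : IsDomain B :=
    IsLocalization.isDomain_localization (powers_le_nonZeroDivisors_of_noZeroDivisors hr0)
  have huA : IsUnit (jA r) := IsLocalization.Away.algebraMap_isUnit r
  have huB : IsUnit (jB s) := IsLocalization.Away.algebraMap_isUnit s
  have hφr : φ (jA r) = jB s := (hφ r).trans (congrArg jB hs.symm)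
  -- approximation
  have happ : ∀ (n : ℕ) (b : B), ∃ (a : A) (c : R'), b = φ a + jB s ^ n * jB c := by
    intro n b
    obtain ⟨K, b', hb'⟩ := IsLocalization.Away.surj s b
    obtain ⟨a, c, rfl⟩ := h1n' (n + K) b'
    obtain ⟨v, hv⟩ := (huA.pow K).exists_right_inv
    have hv' : jB s ^ K * φ v = 1 := by
      have h3 := congrArg φ hv
      rwa [map_mul, map_pow, hφr, map_one] at h3
    refine ⟨jA a * v, c, ?_⟩
    have h3 : b * jB s ^ K = jB (algebraMap R R' a + s ^ (n + K) * c) := hb'
    have h4 : b = b * jB s ^ K * φ v := by rw [mul_assoc, hv', mul_one]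
    rw [h4, h3, map_add, map_mul, map_pow, map_mul, hφ, pow_add]
    linear_combination (jB s ^ n * jB c) * hv'
  have happm : ∀ (n : ℕ) {p q : ℕ} (b : Matrix (Fin p) (Fin q) B), ∃ (a : Matrix (Fin p) (Fin q) A)
      (c : Matrix (Fin p) (Fin q) R'), b = a.map φ + jB s ^ n • c.map jB := by
    intro n p q b
    choose a c h using fun i j => happ n (b i j)
    exact ⟨Matrix.of a, Matrix.of c, by
      ext1 i j
      rw [h i j, Matrix.add_apply, Matrix.smul_apply, Matrix.map_apply, Matrix.map_apply,
        Matrix.of_apply, Matrix.of_apply, smul_eq_mul]⟩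
  -- integrality
  have hint : ∀ (a : A) (c : R'), φ a = jB (s * c) → ∃ a' : R, a = jA (r * a') := by
    intro a c h
    obtain ⟨n, a₀, ha₀⟩ := IsLocalization.Away.surj r a
    have h3 : jB (algebraMap R R' a₀) = jB (s ^ (n + 1) * c) := by
      rw [← hφ]
      show φ (algebraMap R A a₀) = _
      rw [← ha₀, map_mul, h, map_pow, map_mul, map_mul, map_pow]
      show jB s * jB c * (φ (jA r)) ^ n = _
      rw [hφr]
      ring
    obtain ⟨a', h4, -⟩ := h2n' (n + 1) a₀ c (hinjB h3)
    refine ⟨a', ?_⟩
    have h5 : a * jA r ^ n = jA (r * a') * jA r ^ n := by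
      have h6 : a * jA r ^ n = jA a₀ := ha₀
      rw [h6, h4, map_mul, map_mul, map_pow]
      ring
    exact mul_right_cancel₀ (pow_ne_zero _ huA.ne_zero) h5
  obtain ⟨K, w₀', hK⟩ := den s w'
  obtain ⟨w₀, c, hw₀⟩ := happm (K + 1) w
  -- `w₁ = e w₀ = w U`
  let w₁ := e * w₀
  have hew₁ : e * w₁ = w₁ := by
    show e * (e * w₀) = e * w₀
    rw [← Matrix.mul_assoc, he]
  let M : Matrix (Fin k) (Fin k) R' := (Matrix.of w₀') * c
  let U : Matrix (Fin k) (Fin k) R' := 1 - s • M
  have hM : (jB s ^ K) • (w' * c.map jB) = M.map jB := by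
    have h3 : (jB s ^ K) • w' = (Matrix.of w₀').map jB := by
      ext1 i j
      exact hK i j
    rw [← Matrix.smul_mul, h3, ← Matrix.map_mul]
  have hUm : U.map jB = 1 - jB s • M.map jB := by
    ext1 i j
    show jB ((1 : Matrix (Fin k) (Fin k) R') i j - s * M i j) =
      (1 : Matrix (Fin k) (Fin k) B) i j - jB s * jB (M i j)
    rw [map_sub, map_mul]
    congr 1
    by_cases hij : i = j
    · subst hij
      rw [Matrix.one_apply_eq, Matrix.one_apply_eq, map_one]
    · rw [Matrix.one_apply_ne hij, Matrix.one_apply_ne hij, map_zero]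
  have hU : w₁.map φ = w * U.map jB := by
    have h3 : w₀.map φ = w - jB s ^ (K + 1) • c.map jB := eq_sub_of_add_eq hw₀.symm
    rw [hUm, Matrix.map_mul, ← hww, h3, Matrix.mul_sub, Matrix.mul_sub, Matrix.mul_one,
      Matrix.mul_assoc, hw'w, Matrix.mul_one, Matrix.mul_smul, Matrix.mul_assoc, ← hM,
      Matrix.mul_smul, Matrix.mul_smul, smul_smul, pow_succ, mul_comm (jB s)]
  -- the determinant of `U`
  obtain ⟨t, ht⟩ : ∃ t : R', U.det = 1 - s * t := by
    let q := Ideal.Quotient.mk (Ideal.span {s})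
    have h3 : q U.det = 1 := by
      rw [RingHom.map_det]
      have h4 : q.mapMatrix U = 1 := by
        ext1 i j
        rw [RingHom.mapMatrix_apply, Matrix.map_apply]
        show q ((1 : Matrix (Fin k) (Fin k) R') i j - s * M i j) = _
        rw [map_sub, map_mul]
        have h5 : q s = 0 := Ideal.Quotient.eq_zero_iff_mem.2 (Ideal.mem_span_singleton_self s)
        rw [h5, zero_mul, sub_zero]
        by_cases hij : i = j
        · subst hij
          rw [Matrix.one_apply_eq, Matrix.one_apply_eq, map_one]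
        · rw [Matrix.one_apply_ne hij, Matrix.one_apply_ne hij, map_zero]
      rw [h4, Matrix.det_one]
    have h4 : q (U.det - 1) = 0 := by rw [map_sub, h3, map_one, sub_self]
    obtain ⟨t, ht⟩ := Ideal.mem_span_singleton'.1 (Ideal.Quotient.eq_zero_iff_mem.1 h4)
    exact ⟨-t, by linear_combination -ht⟩
  have hdet0 : U.det ≠ 0 := by
    intro h0
    obtain ⟨x, hx⟩ := h2 1 t (by rw [map_one]; linear_combination h0 - ht)
    exact (mem_maximalIdeal r).1 hr (IsUnit.of_mul_eq_one x hx.symm)
  -- `w₁` is injective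
  have hw₁inj : ∀ {p : ℕ} (v : Matrix (Fin k) (Fin p) A), w₁ * v = 0 → v = 0 := by
    intro p v hv
    have h3 : U.map jB * v.map φ = 0 := by
      have h4 : w * (U.map jB * v.map φ) = 0 := by
        rw [← Matrix.mul_assoc, ← hU, ← Matrix.map_mul, hv]
        ext1 i j
        simp
      have h5 := congrArg (fun z => w' * z) h4
      simp only [Matrix.mul_zero] at h5
      rwa [← Matrix.mul_assoc, hw'w, Matrix.one_mul] at h5
    have h4 : jB U.det • v.map φ = 0 := by
      have h5 := congrArg (fun z => (U.map jB).adjugate * z) h3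
      simp only [Matrix.mul_zero] at h5
      rw [← Matrix.mul_assoc, Matrix.adjugate_mul, Matrix.smul_mul, Matrix.one_mul] at h5
      rwa [RingHom.map_det]
    ext1 i j
    have h5 := congrFun (congrFun h4 i) j
    rw [Matrix.smul_apply, Matrix.map_apply, smul_eq_mul, Matrix.zero_apply] at h5
    have h6 := (mul_eq_zero.1 h5).resolve_left
      (fun h7 => hdet0 (hinjB (by rw [h7, map_zero])))
    exact hφinj (by rw [h6, Matrix.zero_apply, map_zero])
  -- a right inverse of `w₁` up to `U.det`
  let z : Matrix (Fin k) (Fin N) B := (U.map jB).adjugate * w'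
  have hz : w₁.map φ * z = jB U.det • e.map φ := by
    show w₁.map φ * ((U.map jB).adjugate * w') = _
    rw [hU, Matrix.mul_assoc, ← Matrix.mul_assoc (U.map jB), Matrix.mul_adjugate, Matrix.smul_mul,
      Matrix.one_mul, Matrix.mul_smul, hww, RingHom.map_det]
    rfl
  obtain ⟨L, w₁', hL⟩ := den r w₁
  obtain ⟨L', e', hL'⟩ := den r e
  obtain ⟨z₀, c₁, hz₀⟩ := happm (L + 1) z
  obtain ⟨t₀, t', ht'⟩ := h1n' L' t
  -- `w₁ z₀ - δ₀ e` has entries in `r R`
  let δ₀ : R := 1 - r * t₀
  have hint2 : ∀ i j, ∃ a' : R, (w₁ * z₀) i j - jA δ₀ * e i j = jA (r * a') := by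
    intro i j
    refine hint _ (-(t' * algebraMap R R' (e' i j)) -
      ∑ q, algebraMap R R' (w₁' i q) * c₁ q j) ?_
    have e1 : z₀.map φ = z - jB s ^ (L + 1) • c₁.map jB := eq_sub_of_add_eq hz₀.symm
    have e2 : φ ((w₁ * z₀) i j) = jB U.det * φ (e i j) -
        jB s ^ (L + 1) * ∑ q, φ (w₁ i q) * jB (c₁ q j) := by
      have e3 : (w₁ * z₀).map φ = jB U.det • e.map φ - jB s ^ (L + 1) • (w₁.map φ * c₁.map jB) := by
        rw [Matrix.map_mul, e1, Matrix.mul_sub, hz, Matrix.mul_smul]
      have e4 := congrFun (congrFun e3 i) j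
      exact e4
    have e3 : ∀ q, jB s ^ L * φ (w₁ i q) = jB (algebraMap R R' (w₁' i q)) := by
      intro q
      have h : φ (jA r ^ L * w₁ i q) = φ (jA (w₁' i q)) := congrArg φ (hL i q)
      rw [map_mul, map_pow, hφr, hφ] at h
      exact h
    have e4 : jB s ^ L' * φ (e i j) = jB (algebraMap R R' (e' i j)) := by
      have h : φ (jA r ^ L' * e i j) = φ (jA (e' i j)) := congrArg φ (hL' i j)
      rw [map_mul, map_pow, hφr, hφ] at h
      exact h
    have e5 : jB s ^ (L + 1) * ∑ q, φ (w₁ i q) * jB (c₁ q j) =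
        jB s * ∑ q, jB (algebraMap R R' (w₁' i q)) * jB (c₁ q j) := by
      rw [pow_succ', mul_assoc, Finset.mul_sum]
      congr 1
      refine Finset.sum_congr rfl fun q _ => ?_
      rw [← e3]
      ring
    have e6 : jB U.det = jB (algebraMap R R' δ₀) - jB s * jB s ^ L' * jB t' := by
      have h : U.det = algebraMap R R' δ₀ - s * s ^ L' * t' := by
        have h' : algebraMap R R' δ₀ = 1 - s * algebraMap R R' t₀ := by
          show algebraMap R R' (1 - r * t₀) = _
          rw [map_sub, map_one, map_mul, hs]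
        rw [ht, ht', h']
        ring
      rw [h, map_sub, map_mul, map_mul, map_pow]
    rw [map_sub, e2, e5, map_mul φ, hφ, e6, map_mul jB s, map_sub jB, map_neg, map_mul jB t', map_sum]
    have e7 : ∑ q, jB (algebraMap R R' (w₁' i q) * c₁ q j) =
        ∑ q, jB (algebraMap R R' (w₁' i q)) * jB (c₁ q j) :=
      Finset.sum_congr rfl fun q _ => map_mul _ _ _
    rw [e7]
    linear_combination (-(jB s * jB t')) * e4
  choose M₀ hM₀ using hint2
  have hδu : IsUnit δ₀ := by
    have h3 : r * t₀ ∈ maximalIdeal R := Ideal.mul_mem_right _ _ hr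
    by_contra h4
    have h5 : δ₀ ∈ maximalIdeal R := (mem_maximalIdeal _).2 h4
    have h6 : (1 : R) ∈ maximalIdeal R := by
      have h7 := Ideal.add_mem _ h5 h3
      have h8 : δ₀ + r * t₀ = 1 := by
        show 1 - r * t₀ + r * t₀ = 1
        ring
      rwa [h8] at h7
    exact (maximalIdeal.isMaximal R).ne_top ((Ideal.eq_top_iff_one _).2 h6)
  let V : Matrix (Fin N) (Fin N) R := δ₀ • (1 : Matrix (Fin N) (Fin N) R) + r • Matrix.of M₀
  have hVu : IsUnit V.det := by
    let q := residue R
    have h3 : q V.det ≠ 0 := by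
      rw [RingHom.map_det]
      have h4 : q.mapMatrix V = q δ₀ • (1 : Matrix (Fin N) (Fin N) (ResidueField R)) := by
        ext1 i j
        rw [RingHom.mapMatrix_apply, Matrix.map_apply]
        show q (δ₀ * (1 : Matrix (Fin N) (Fin N) R) i j + r * M₀ i j) =
          q δ₀ * (1 : Matrix (Fin N) (Fin N) (ResidueField R)) i j
        have h5 : q r = 0 := (residue_eq_zero_iff r).2 hr
        rw [map_add, map_mul, map_mul, h5, zero_mul, add_zero]
        congr 1
        by_cases hij : i = j
        · subst hij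
          rw [Matrix.one_apply_eq, Matrix.one_apply_eq, map_one]
        · rw [Matrix.one_apply_ne hij, Matrix.one_apply_ne hij, map_zero]
      rw [h4, Matrix.det_smul, Matrix.det_one, mul_one]
      exact pow_ne_zero _ ((residue_ne_zero_iff_isUnit δ₀).2 hδu)
    exact (residue_ne_zero_iff_isUnit V.det).1 h3
  have hV : w₁ * z₀ = e * V.map jA := by
    have e1 : w₁ * z₀ = jA δ₀ • e + jA r • (Matrix.of M₀).map jA := by
      ext1 i j
      have h3 := hM₀ i j
      rw [map_mul] at h3
      show (w₁ * z₀) i j = jA δ₀ * e i j + jA r * jA (M₀ i j)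
      linear_combination h3
    have e2 : e * (w₁ * z₀) = w₁ * z₀ := by rw [← Matrix.mul_assoc, hew₁]
    have e3 : V.map jA = jA δ₀ • (1 : Matrix (Fin N) (Fin N) A) + jA r • (Matrix.of M₀).map jA := by
      ext1 i j
      show jA (δ₀ * (1 : Matrix (Fin N) (Fin N) R) i j + r * M₀ i j) =
        jA δ₀ * (1 : Matrix (Fin N) (Fin N) A) i j + jA r * jA (M₀ i j)
      rw [map_add, map_mul, map_mul]
      congr 2
      by_cases hij : i = j
      · subst hij
        rw [Matrix.one_apply_eq, Matrix.one_apply_eq, map_one]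
      · rw [Matrix.one_apply_ne hij, Matrix.one_apply_ne hij, map_zero]
    rw [← e2, e1, e3, Matrix.mul_add, Matrix.mul_add, Matrix.mul_smul, Matrix.mul_smul, he,
      Matrix.mul_smul, Matrix.mul_one]
  let z₁ : Matrix (Fin k) (Fin N) A := z₀ * (V⁻¹).map jA
  have hz₁ : w₁ * z₁ = e := by
    show w₁ * (z₀ * (V⁻¹).map jA) = e
    rw [← Matrix.mul_assoc, hV, Matrix.mul_assoc, ← Matrix.map_mul, Matrix.mul_nonsing_inv V hVu,
      Matrix.map_one _ (map_zero _) (map_one _), Matrix.mul_one]
  refine ⟨w₁, z₁, ?_, hz₁⟩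
  have h3 : w₁ * (z₁ * w₁ - 1) = 0 := by
    rw [Matrix.mul_sub, ← Matrix.mul_assoc, hz₁, hew₁, Matrix.mul_one, sub_self]
  exact sub_eq_zero.1 (hw₁inj _ h3)

open RAdic in
/-- **Descent along an analytic isomorphism**, one matrix. -/
theorem radic_mat {R R' : Type u} [CommRing R] [IsDomain R] [IsNoetherianRing R] [IsLocalRing R]
    [CommRing R'] [IsDomain R'] [Algebra R R'] (r : R) (hr : r ∈ maximalIdeal R)
    (hr0 : algebraMap R R' r ≠ 0)
    (h1 : ∀ b : R', ∃ (a : R) (c : R'), b = algebraMap R R' a + algebraMap R R' r * c)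
    (h2 : ∀ (a : R) (c : R'), algebraMap R R' a = algebraMap R R' r * c → r ∣ a)
    (φ : Localization.Away r →+* Localization.Away (algebraMap R R' r))
    (hφ : ∀ x : R, φ (algebraMap R _ x) = algebraMap R' _ (algebraMap R R' x)) (N : ℕ)
    (e : Matrix (Fin N) (Fin N) (Localization.Away r)) (he : e * e = e) (k : ℕ)
    (w : Matrix (Fin N) (Fin k) (Localization.Away (algebraMap R R' r)))
    (w' : Matrix (Fin k) (Fin N) (Localization.Away (algebraMap R R' r)))
    (hw'w : w' * w = 1) (hww : w * w' = e.map φ) :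
    ∃ (w₁ : Matrix (Fin N) (Fin k) (Localization.Away r))
      (z₁ : Matrix (Fin k) (Fin N) (Localization.Away r)), z₁ * w₁ = 1 ∧ w₁ * z₁ = e :=
  radic_mat0 r hr _ rfl hr0 h1 h2 φ hφ (inj r hr hr0 h2)
    (inj_away r hr0 (inj r hr hr0 h2) φ hφ) N e he k w w' hw'w hww

open RAdic in
/-- Descent along an analytic isomorphism, with the rank. -/
theorem radic_q1r' {R R' : Type u} [CommRing R] [IsDomain R] [IsNoetherianRing R] [IsLocalRing R]
    [CommRing R'] [IsDomain R'] [Algebra R R'] (r : R) (hr : r ∈ maximalIdeal R)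
    (hr0 : algebraMap R R' r ≠ 0)
    (h1 : ∀ x : R', ∃ (a : R) (b : R'), x = algebraMap R R' a + algebraMap R R' r * b)
    (h2 : ∀ (a : R) (b : R'), algebraMap R R' a = algebraMap R R' r * b → r ∣ a)
    (d : ℕ) (hPF : PFr (Localization.Away (algebraMap R R' r)) d) : PFr (Localization.Away r) d := by
  classical
  intro P _ _ hfin hproj hrk
  have hinj : Function.Injective (algebraMap R R') := inj r hr hr0 h2
  have hy0 : r ≠ 0 := fun h => hr0 (by rw [h, map_zero])
  have hd1 : IsDomain (Localization.Away r) :=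
    IsLocalization.isDomain_localization (powers_le_nonZeroDivisors_of_noZeroDivisors hy0)
  have hd2 : IsDomain (Localization.Away (algebraMap R R' r)) :=
    IsLocalization.isDomain_localization (powers_le_nonZeroDivisors_of_noZeroDivisors hr0)
  have hyS : IsUnit (algebraMap R' (Localization.Away (algebraMap R R' r)) (algebraMap R R' r)) :=
    IsLocalization.Away.algebraMap_isUnit (algebraMap R R' r)
  obtain ⟨ι, hι⟩ : ∃ ι : Localization.Away r →+* Localization.Away (algebraMap R R' r),
      ∀ x : R, ι (algebraMap R _ x) = algebraMap R' _ (algebraMap R R' x) :=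
    ⟨IsLocalization.Away.lift (g := (algebraMap R' (Localization.Away (algebraMap R R' r))).comp
      (algebraMap R R')) r hyS, fun x => IsLocalization.Away.lift_eq r hyS x⟩
  have hιinj : Function.Injective ι := inj_away r hr0 hinj ι hι
  obtain ⟨N, f, hf⟩ := Module.Finite.exists_fin' (Localization.Away r) P
  obtain ⟨g, hg⟩ := Module.projective_lifting_property f LinearMap.id hf
  have hfg : ∀ p, f (g p) = p := fun p => LinearMap.congr_fun hg p
  obtain ⟨e, hE⟩ : ∃ e : Matrix (Fin N) (Fin N) (Localization.Away r),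
      e = LinearMap.toMatrix' (g ∘ₗ f) := ⟨_, rfl⟩
  have he : e * e = e := by
    rw [hE, ← LinearMap.toMatrix'_comp]
    congr 1
    refine LinearMap.ext fun v => ?_
    show g (f (g (f v))) = g (f v)
    rw [hfg]
  have hev : ∀ v, e.mulVec v = g (f v) := by
    intro v
    rw [hE, ← Matrix.toLin'_apply, Matrix.toLin'_toMatrix']
    rfl
  have hfree : Module.Free (FractionRing (Localization.Away r))
      (LocalizedModule (nonZeroDivisors (Localization.Away r)) P) := inferInstance
  obtain ⟨k, s, hs, H⟩ := exists_HB_of_free (nonZeroDivisors (Localization.Away r))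
    zero_notMem_nonZeroDivisors P hfree
  have hs0 : s ≠ 0 := nonZeroDivisors.ne_zero hs
  have hk := finrank_of_HB hs0 H
  obtain ⟨k', B, Y, hYB, hBY⟩ := bq_mat' ι N e he fun h3 h4 =>
    hPF _ h3 h4 (hrk.trans (hk.le.trans (range_finrank ι hιinj N e P f g hfg hev k s hs0 H)))
  obtain ⟨B', Y', h3, h4⟩ := radic_mat r hr hr0 h1 h2 ι hι N e he k' B Y hYB hBY
  exact free_of_split f g hg B' Y' h3 (h4.trans hE)

/-- Descent along an analytic isomorphism, with the rank (the form of helper54). -/
theorem radic_q1r {R R' : Type u} [CommRing R] [IsDomain R] [IsNoetherianRing R] [IsLocalRing R]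
    [CommRing R'] [IsDomain R'] [Algebra R R'] (r : R) (hr : r ∈ maximalIdeal R)
    (hr0 : algebraMap R R' r ≠ 0) (_hJ : ∀ t : R', IsUnit (1 + algebraMap R R' r * t))
    (h1 : ∀ x : R', ∃ (a : R) (b : R'), x = algebraMap R R' a + algebraMap R R' r * b)
    (h2 : ∀ (a : R) (b : R'), algebraMap R R' a = algebraMap R R' r * b → ∃ a' : R, a = r * a')
    (d : ℕ) (hPF : PFr (Localization.Away (algebraMap R R' r)) d) : PFr (Localization.Away r) d :=
  radic_q1r' r hr hr0 h1 h2 d hPF

/-- Descent along an analytic isomorphism. -/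
theorem radic_q1 {R R' : Type u} [CommRing R] [IsDomain R] [IsNoetherianRing R] [IsLocalRing R]
    [CommRing R'] [IsDomain R'] [Algebra R R'] (r : R) (hr : r ∈ maximalIdeal R)
    (hr0 : algebraMap R R' r ≠ 0)
    (h1 : ∀ x : R', ∃ (a : R) (b : R'), x = algebraMap R R' a + algebraMap R R' r * b)
    (h2 : ∀ (a : R) (b : R'), algebraMap R R' a = algebraMap R R' r * b → r ∣ a)
    (hPF : PF (Localization.Away (algebraMap R R' r))) : PF (Localization.Away r) :=
  fun P _ _ h3 h4 => radic_q1r' r hr hr0 h1 h2 0 (fun Q _ _ h5 h6 _ => hPF Q h5 h6) P h3 h4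
    (Nat.zero_le _)

end Pool.Agent.QU54.Ap
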