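import Mathlib
import Pool.Agent.Lib.QU54.RAdic

/-!
# Descent over `R[1/r]`: completion along `r`, then approximation
-/

set_option autoImplicit false

namespace Pool.Agent.QU54.Ap

universe u

open Pool.Agent.QU53 IsLocalRing

/-- Associated elements have the same localisation. -/
theorem PFr_assoc {S : Type u} [CommRing S] {s s' : S} (h : Associated s s') {d : ℕ}
    (H : PFr (Localization.Away s') d) : PFr (Localization.Away s) d := by
  have h1 : IsLocalization.Away s (Localization.Away s') := IsLocalization.Away.of_associated h.symm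
  exact PFr_congr (IsLocalization.algEquiv (Submonoid.powers s) (Localization.Away s)
    (Localization.Away s')).toRingEquiv H

/-- The approximation property reflects units, if the target is local. -/
theorem ap_unit {R S : Type u} [CommRing R] [CommRing S] [Algebra R S]
    (hAP : ∀ (A : Type u) [CommRing A] [Algebra R A] [Algebra.FinitePresentation R A],
      Nonempty (A →ₐ[R] S) → Nonempty (A →ₐ[R] R)) (x : R) (hx : IsUnit (algebraMap R S x)) :
    IsUnit x := by
  have h1 : Algebra.FinitePresentation R (Localization.Away x) :=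
    IsLocalization.Away.finitePresentation x
  obtain ⟨ψ⟩ := hAP (Localization.Away x) ⟨⟨IsLocalization.Away.lift x hx,
    fun a => IsLocalization.Away.lift_eq x hx a⟩⟩
  have h2 := (IsLocalization.Away.algebraMap_isUnit (S := Localization.Away x) x).map ψ
  rwa [ψ.commutes] at h2

/-- `R → R₁` is an isomorphism modulo `r`, `R₁ → S` has the approximation property, and `r` becomes
a unit multiple of `s` in the local domain `S`. If projective `S[1/s]`-modules of rank at least `d`
are free, then so are projective `R[1/r]`-modules of rank at least `d`. -/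
theorem q1_descent {R R₁ S : Type u} [CommRing R] [IsNoetherianRing R] [IsLocalRing R]
    [CommRing R₁] [CommRing S] [IsDomain S] [IsLocalRing S] [Algebra R R₁] [Algebra R₁ S]
    (hAP : ∀ (A : Type u) [CommRing A] [Algebra R₁ A] [Algebra.FinitePresentation R₁ A],
      Nonempty (A →ₐ[R₁] S) → Nonempty (A →ₐ[R₁] R₁)) (r : R) (s : S) (hs0 : s ≠ 0)
    (hsm : s ∈ maximalIdeal S) (hs : Associated (algebraMap R₁ S (algebraMap R R₁ r)) s)
    (h1 : ∀ x : R₁, ∃ (a : R) (b : R₁), x = algebraMap R R₁ a + algebraMap R R₁ r * b)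
    (h2 : ∀ (a : R) (b : R₁), algebraMap R R₁ a = algebraMap R R₁ r * b → r ∣ a)
    {d : ℕ} (hPF : PFr (Localization.Away s) d) : PFr (Localization.Away r) d := by
  have hinj1 : Function.Injective (algebraMap R₁ S) := ap_inj hAP
  have hR₁ : IsDomain R₁ := hinj1.isDomain (algebraMap R₁ S)
  have hsm' : algebraMap R₁ S (algebraMap R R₁ r) ∈ maximalIdeal S := by
    obtain ⟨v, hv⟩ := hs.symm
    rw [← hv]
    exact Ideal.mul_mem_right _ _ hsm
  have hs0' : algebraMap R₁ S (algebraMap R R₁ r) ≠ 0 := fun h => by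
    rw [h] at hs
    exact hs0 ((associated_zero_iff_eq_zero _).1 hs.symm)
  have hr0 : algebraMap R R₁ r ≠ 0 := fun h => hs0' (by rw [h, map_zero])
  have hr : r ∈ maximalIdeal R := by
    rw [mem_maximalIdeal]
    intro hu
    exact (mem_maximalIdeal _).1 hsm' ((hu.map (algebraMap R R₁)).map (algebraMap R₁ S))
  have hJ : ∀ t : R₁, IsUnit (1 + algebraMap R R₁ r * t) := by
    intro t
    refine ap_unit hAP _ ?_
    rw [map_add, map_one, map_mul]
    have h3 : algebraMap R₁ S (algebraMap R R₁ r) * algebraMap R₁ S t ∈ maximalIdeal S :=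
      Ideal.mul_mem_right _ _ hsm'
    by_contra hu
    have h4 : (1 : S) ∈ maximalIdeal S := by
      have h5 := Ideal.sub_mem _ ((mem_maximalIdeal _).2 hu) h3
      rwa [add_sub_cancel_right] at h5
    exact (Ideal.ne_top_iff_one _).1 (maximalIdeal.isMaximal S).ne_top h4
  have hinj : Function.Injective (algebraMap R R₁) := by
    rw [injective_iff_map_eq_zero]
    intro x hx
    have hk : ∀ n : ℕ, ∃ a : R, x = r ^ n * a ∧ algebraMap R R₁ a = 0 := by
      intro n
      induction n with
      | zero => exact ⟨x, by rw [pow_zero, one_mul], hx⟩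
      | succ n ih =>
        obtain ⟨a, ha, ha0⟩ := ih
        obtain ⟨a', rfl⟩ := h2 a 0 (by rw [ha0, mul_zero])
        refine ⟨a', by rw [ha, pow_succ, mul_assoc], ?_⟩
        rw [map_mul] at ha0
        exact (mul_eq_zero.1 ha0).resolve_left hr0
    have h3 : x ∈ ⨅ i : ℕ, (Ideal.span {r} : Ideal R) ^ i := by
      rw [Ideal.mem_iInf]
      intro n
      obtain ⟨a, ha, -⟩ := hk n
      rw [Ideal.span_singleton_pow, Ideal.mem_span_singleton]
      exact ⟨a, ha⟩
    have h4 : (Ideal.span {r} : Ideal R) ≠ ⊤ := by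
      intro h
      have h5 : (Ideal.span {r} : Ideal R) ≤ maximalIdeal R := by
        rw [Ideal.span_le, Set.singleton_subset_iff]
        exact hr
      rw [h, top_le_iff] at h5
      exact (maximalIdeal.isMaximal R).ne_top h5
    rw [Ideal.iInf_pow_eq_bot_of_isLocalRing _ h4] at h3
    exact h3
  have hR : IsDomain R := hinj.isDomain (algebraMap R R₁)
  refine radic_q1r r hr hr0 hJ h1 (fun a b h => h2 a b h) d ?_
  exact ap_q1r hAP (algebraMap R R₁ r) hs0' d (PFr_assoc hs hPF)

/-- There are a ring `R₁` and homomorphisms `R → R₁ → S` with the following properties: `R → R₁` is an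
isomorphism modulo `r` (`R / r R = R₁ / r R₁`); every finitely presented `R₁`-algebra which has an
`R₁`-algebra homomorphism to `S` has one to `R₁` (the approximation property: a finite system of
polynomial equations over `R₁` with a solution in `S` has one in `R₁`); the image of `r` in `S` is a
unit multiple of `s`. Examples: `R = R₁ = S`, `r = s`; `R = R₁` excellent henselian, `S` the
completion of `R`; `R` excellent, `R / r R` henselian, `R₁` the `r`-adic completion of `R`, `S` the
completion of `R`. -/
def Close (R : Type u) [CommRing R] (r : R) (S : Type u) [CommRing S] (s : S) : Prop :=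
  ∃ (R₁ : Type u) (_ : CommRing R₁) (_ : Algebra R R₁) (_ : Algebra R₁ S),
    ((∀ x : R₁, ∃ (a : R) (b : R₁), x = algebraMap R R₁ a + algebraMap R R₁ r * b) ∧
      ∀ (a : R) (b : R₁), algebraMap R R₁ a = algebraMap R R₁ r * b → r ∣ a) ∧
    (∀ (A : Type u) [CommRing A] [Algebra R₁ A] [Algebra.FinitePresentation R₁ A],
      Nonempty (A →ₐ[R₁] S) → Nonempty (A →ₐ[R₁] R₁)) ∧
    Associated (algebraMap R₁ S (algebraMap R R₁ r)) s

theorem Close.refl {S : Type u} [CommRing S] (s : S) : Close S s S s :=
  ⟨S, inferInstance, Algebra.id S, Algebra.id S,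
    ⟨fun x => ⟨x, 0, by simp⟩, fun a b h => ⟨b, h⟩⟩, fun _ _ _ _ h => h, Associated.refl s⟩

/-- Projective `R[1/r]`-modules of rank at least `d` are free, if this holds for `S[1/s]`. -/
theorem Close.PFr {R S : Type u} [CommRing R] [IsNoetherianRing R] [IsLocalRing R] [CommRing S]
    [IsDomain S] [IsLocalRing S] {r : R} {s : S} (h : Close R r S s) (hs0 : s ≠ 0)
    (hsm : s ∈ maximalIdeal S) {d : ℕ} (hPF : PFr (Localization.Away s) d) :
    PFr (Localization.Away r) d := by
  obtain ⟨R₁, _, _, _, ⟨h1, h2⟩, hAP, hs⟩ := h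
  exact q1_descent hAP r s hs0 hsm hs h1 h2 hPF

theorem Close.PF {R S : Type u} [CommRing R] [IsNoetherianRing R] [IsLocalRing R] [CommRing S]
    [IsDomain S] [IsLocalRing S] {r : R} {s : S} (h : Close R r S s) (hs0 : s ≠ 0)
    (hsm : s ∈ maximalIdeal S) (hPF : QU53.PF (Localization.Away s)) :
    QU53.PF (Localization.Away r) := by
  have h1 : QU53.PFr (Localization.Away s) 0 := fun P _ _ hf hp _ => hPF P hf hp
  have h2 := h.PFr hs0 hsm h1
  exact fun P _ _ hf hp => h2 P hf hp (Nat.zero_le _)

/-- The case of power series. -/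
theorem Close.PFr_mv {D : Type u} [CommRing D] [IsDomain D] [IsLocalRing D] {n : ℕ} {y : D}
    (hy0 : y ≠ 0) (hy : y ∈ maximalIdeal D) {R : Type u} [CommRing R] [IsNoetherianRing R]
    [IsLocalRing R] {r : R} (h : Close R r (MvPowerSeries (Fin n) D) (MvPowerSeries.C y)) {d : ℕ}
    (hPF : QU53.PFr (Localization.Away (MvPowerSeries.C y : MvPowerSeries (Fin n) D)) d) :
    QU53.PFr (Localization.Away r) d := by
  have hD : IsDomain (MvPowerSeries (Fin n) D) := isDomain_mv D n
  refine h.PFr (fun h0 => hy0 (MvPowerSeries.C_injective (by rw [h0, map_zero]))) ?_ hPF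
  rw [mem_maximalIdeal, mem_nonunits_iff, MvPowerSeries.isUnit_iff_constantCoeff,
    MvPowerSeries.constantCoeff_C]
  exact (mem_maximalIdeal y).1 hy

theorem Close.PF_mv {D : Type u} [CommRing D] [IsDomain D] [IsLocalRing D] {n : ℕ} {y : D}
    (hy0 : y ≠ 0) (hy : y ∈ maximalIdeal D) {R : Type u} [CommRing R] [IsNoetherianRing R]
    [IsLocalRing R] {r : R} (h : Close R r (MvPowerSeries (Fin n) D) (MvPowerSeries.C y))
    (hPF : QU53.PF (Localization.Away (MvPowerSeries.C y : MvPowerSeries (Fin n) D))) :
    QU53.PF (Localization.Away r) := by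
  have h1 : QU53.PFr (Localization.Away (MvPowerSeries.C y : MvPowerSeries (Fin n) D)) 0 :=
    fun P _ _ hf hp _ => hPF P hf hp
  have h2 := h.PFr_mv hy0 hy h1
  exact fun P _ _ hf hp => h2 P hf hp (Nat.zero_le _)

/-- If `s` is a unit then so is `r`. -/
theorem Close.isUnit {R S : Type u} [CommRing R] [CommRing S] {r : R} {s : S}
    (h : Close R r S s) (hs : IsUnit s) : IsUnit r := by
  obtain ⟨R₁, _, _, _, ⟨h1, h2⟩, hAP, hs'⟩ := h
  have h3 : IsUnit (algebraMap R R₁ r) := ap_unit hAP _ (hs'.isUnit_iff.2 hs)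
  obtain ⟨b, hb⟩ := h3.exists_right_inv
  exact isUnit_of_dvd_one (h2 1 b (by rw [map_one, hb]))

end Pool.Agent.QU54.Ap
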