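import Mathlib
import Pool.Agent.Lib.QU53.Main3

/-!
# The nodal extension `B[y]`, `y ^ b * (s - y) = t`
-/

set_option autoImplicit false

namespace Pool.Agent.QU54

open Polynomial IsLocalRing Pool.Agent.QU53 Pool.Agent.QU52

universe u

/-- The polynomial `Y ^ (b + 1) - s Y ^ b + t`. -/
noncomputable def nodeP {B : Type u} [CommRing B] (s t : B) (b : ℕ) : B[X] :=
  X ^ (b + 1) + (C t - C s * X ^ b)

/-- `B[Y] / (Y ^ b * (s - Y) - t)`. -/
abbrev NodeR {B : Type u} [CommRing B] (s t : B) (b : ℕ) : Type u := AdjoinRoot (nodeP s t b)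

section node

variable {B : Type u} [CommRing B] (s t : B) (b : ℕ)

theorem node_degree_lt : (C t - C s * X ^ b : B[X]).degree < ((b + 1 : ℕ) : WithBot ℕ) := by
  refine lt_of_le_of_lt (degree_sub_le _ _) (max_lt ?_ ?_)
  · exact lt_of_le_of_lt degree_C_le (by exact_mod_cast Nat.succ_pos b)
  · exact lt_of_le_of_lt (degree_C_mul_X_pow_le _ _) (by exact_mod_cast Nat.lt_succ_self b)

theorem node_monic : (nodeP s t b).Monic := monic_X_pow_add (node_degree_lt s t b)

theorem node_natDegree [Nontrivial B] : (nodeP s t b).natDegree = b + 1 := by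
  rw [nodeP, natDegree_add_eq_left_of_degree_lt]
  · exact natDegree_X_pow _
  · rw [degree_X_pow]
    exact node_degree_lt s t b

/-- The element `y`. -/
noncomputable def yy : NodeR s t b := AdjoinRoot.root _

/-- The structure map. -/
noncomputable def oo : B →+* NodeR s t b := AdjoinRoot.of _

theorem eval_node {T : Type u} [CommRing T] (f : B →+* T) (v : T) :
    (nodeP s t b).eval₂ f v = f t - v ^ b * (f s - v) := by
  simp only [nodeP, eval₂_add, eval₂_sub, eval₂_mul, eval₂_C, eval₂_X_pow]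
  ring

theorem rel : yy s t b ^ b * (oo s t b s - yy s t b) = oo s t b t := by
  have h := AdjoinRoot.eval₂_root (nodeP s t b)
  rw [eval_node] at h
  exact (sub_eq_zero.1 h).symm

theorem mk_eq (p : B[X]) : AdjoinRoot.mk (nodeP s t b) p = p.eval₂ (oo s t b) (yy s t b) := by
  rw [← AdjoinRoot.aeval_eq, aeval_def]
  rfl

theorem repr_y (v : NodeR s t b) : ∃ v₀ v', v = oo s t b v₀ + yy s t b * v' := by
  obtain ⟨p, rfl⟩ := AdjoinRoot.mk_surjective v
  refine ⟨p.coeff 0, AdjoinRoot.mk _ p.divX, ?_⟩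
  rw [mk_eq, mk_eq]
  conv_lhs => rw [← divX_mul_X_add p]
  rw [eval₂_add, eval₂_mul, eval₂_X, eval₂_C]
  ring

theorem repr_x (v : NodeR s t b) : ∃ v₀ v', v = oo s t b v₀ + (oo s t b s - yy s t b) * v' := by
  obtain ⟨p, rfl⟩ := AdjoinRoot.mk_surjective v
  have h : oo s t b s - yy s t b ∣ (p.map (oo s t b)).eval (oo s t b s) -
      (p.map (oo s t b)).eval (yy s t b) := sub_dvd_eval_sub _ _ _
  obtain ⟨c, hc⟩ := h
  refine ⟨p.eval s, -c, ?_⟩
  rw [mk_eq]
  rw [eval_map, eval_map, eval₂_at_apply] at hc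
  linear_combination -hc

variable {s t b}

/-- The map `y ↦ 0` modulo an ideal which contains `t`. -/
noncomputable def rho (hb : 0 < b) (J : Ideal B) (ht : t ∈ J) : NodeR s t b →+* B ⧸ J :=
  AdjoinRoot.lift (Ideal.Quotient.mk J) 0 (by
    rw [eval_node, Ideal.Quotient.eq_zero_iff_mem.2 ht, zero_pow hb.ne', zero_mul, sub_zero])

/-- The map `y ↦ s` modulo an ideal which contains `t`. -/
noncomputable def sig (J : Ideal B) (ht : t ∈ J) : NodeR s t b →+* B ⧸ J :=
  AdjoinRoot.lift (Ideal.Quotient.mk J) (Ideal.Quotient.mk J s) (by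
    rw [eval_node, Ideal.Quotient.eq_zero_iff_mem.2 ht, sub_self, mul_zero, sub_zero])

theorem rho_y (hb : 0 < b) (J : Ideal B) (ht : t ∈ J) : rho (s := s) hb J ht (yy s t b) = 0 :=
  AdjoinRoot.lift_root _

theorem rho_o (hb : 0 < b) (J : Ideal B) (ht : t ∈ J) (c : B) :
    rho (s := s) hb J ht (oo s t b c) = Ideal.Quotient.mk J c := AdjoinRoot.lift_of _

theorem sig_y (J : Ideal B) (ht : t ∈ J) :
    sig (s := s) (b := b) J ht (yy s t b) = Ideal.Quotient.mk J s := AdjoinRoot.lift_root _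

theorem sig_o (J : Ideal B) (ht : t ∈ J) (c : B) :
    sig (s := s) (b := b) J ht (oo s t b c) = Ideal.Quotient.mk J c := AdjoinRoot.lift_of _

theorem mem_ker_rho (hb : 0 < b) (J : Ideal B) (ht : t ∈ J) (v : NodeR s t b) :
    v ∈ RingHom.ker (rho (s := s) hb J ht) ↔ ∃ v₀ ∈ J, ∃ v', v = oo s t b v₀ + yy s t b * v' := by
  constructor
  · intro hv
    obtain ⟨v₀, v', h⟩ := repr_y s t b v
    refine ⟨v₀, ?_, v', h⟩
    rw [RingHom.mem_ker, h, map_add, map_mul, rho_y, zero_mul, add_zero, rho_o,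
      Ideal.Quotient.eq_zero_iff_mem] at hv
    exact hv
  · rintro ⟨v₀, h0, v', rfl⟩
    rw [RingHom.mem_ker, map_add, map_mul, rho_y, zero_mul, add_zero, rho_o,
      Ideal.Quotient.eq_zero_iff_mem.2 h0]

theorem mem_ker_sig (J : Ideal B) (ht : t ∈ J) (v : NodeR s t b) :
    v ∈ RingHom.ker (sig (s := s) (b := b) J ht) ↔
      ∃ v₀ ∈ J, ∃ v', v = oo s t b v₀ + (oo s t b s - yy s t b) * v' := by
  have hx : sig (s := s) (b := b) J ht (oo s t b s - yy s t b) = 0 := by
    rw [map_sub, sig_o, sig_y, sub_self]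
  constructor
  · intro hv
    obtain ⟨v₀, v', h⟩ := repr_x s t b v
    refine ⟨v₀, ?_, v', h⟩
    rw [RingHom.mem_ker, h, map_add, map_mul, hx, zero_mul, add_zero, sig_o,
      Ideal.Quotient.eq_zero_iff_mem] at hv
    exact hv
  · rintro ⟨v₀, h0, v', rfl⟩
    rw [RingHom.mem_ker, map_add, map_mul, hx, zero_mul, add_zero, sig_o,
      Ideal.Quotient.eq_zero_iff_mem.2 h0]

/-- The kernel of `rho` for an ideal which is generated by `t` and a set. -/
theorem ker_rho_span (hb : 0 < b) (T : Set B) (ht : t ∈ Ideal.span (insert t T)) :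
    RingHom.ker (rho (s := s) hb (Ideal.span (insert t T)) ht) =
      Ideal.span (insert (yy s t b) (oo s t b '' T)) := by
  apply le_antisymm
  · intro v hv
    obtain ⟨v₀, h0, v', rfl⟩ := (mem_ker_rho hb _ ht v).1 hv
    refine add_mem ?_ (Ideal.mul_mem_right _ _ (Ideal.subset_span (Set.mem_insert _ _)))
    have h1 : Ideal.span (insert t T) ≤
        (Ideal.span (insert (yy s t b) (oo s t b '' T))).comap (oo s t b) := by
      rw [Ideal.span_le]
      intro c hc
      rcases hc with rfl | hc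
      · show oo s c b c ∈ Ideal.span _
        obtain ⟨e, rfl⟩ := Nat.exists_eq_succ_of_ne_zero hb.ne'
        rw [← rel, pow_succ, mul_assoc]
        exact Ideal.mul_mem_left _ _ (Ideal.mul_mem_right _ _
          (Ideal.subset_span (Set.mem_insert _ _)))
      · exact Ideal.subset_span (Set.mem_insert_of_mem _ ⟨c, hc, rfl⟩)
    exact h1 h0
  · rw [Ideal.span_le]
    intro v hv
    rcases hv with rfl | ⟨c, hc, rfl⟩
    · exact rho_y hb _ ht
    · show rho hb _ ht (oo s t b c) = 0
      rw [rho_o, Ideal.Quotient.eq_zero_iff_mem]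
      exact Ideal.subset_span (Set.mem_insert_of_mem _ hc)

theorem ker_rho_prime (hb : 0 < b) (J : Ideal B) (ht : t ∈ J) [J.IsPrime] :
    (RingHom.ker (rho (s := s) hb J ht)).IsPrime := RingHom.ker_isPrime _

theorem ker_sig_prime (J : Ideal B) (ht : t ∈ J) [J.IsPrime] :
    (RingHom.ker (sig (s := s) (b := b) J ht)).IsPrime := RingHom.ker_isPrime _

end node


section dom

variable {B : Type u} [CommRing B] [IsDomain B] [IsNoetherianRing B] [IsLocalRing B] {s t : B} {b : ℕ}

theorem node_free : Module.Free B (NodeR s t b) := (node_monic s t b).free_adjoinRoot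

theorem node_finite : Module.Finite B (NodeR s t b) := (node_monic s t b).finite_adjoinRoot

theorem oo_mul_eq_zero (ht : t ≠ 0) (v : NodeR s t b) (h : oo s t b t * v = 0) : v = 0 := by
  have : Module.Free B (NodeR s t b) := node_free
  have h1 : t • v = 0 := by
    rw [Algebra.smul_def]
    exact h
  exact (smul_eq_zero.1 h1).resolve_left ht

theorem oo_injective : Function.Injective (oo s t b) := by
  have : Module.Free B (NodeR s t b) := node_free
  have hne : (nodeP s t b).degree ≠ 0 := by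
    intro h
    have h1 : (nodeP s t b).natDegree = 0 := natDegree_eq_zero_iff_degree_le_zero.2 h.le
    rw [node_natDegree] at h1
    omega
  exact AdjoinRoot.of.injective_of_degree_ne_zero hne

theorem y_mul_eq_zero (hb : 0 < b) (ht : t ≠ 0) (v : NodeR s t b) (h : yy s t b * v = 0) :
    v = 0 := by
  apply oo_mul_eq_zero ht
  obtain ⟨c, rfl⟩ := Nat.exists_eq_succ_of_ne_zero hb.ne'
  rw [← rel, pow_succ]
  linear_combination (yy s t (c + 1) ^ c * (oo s t (c + 1) s - yy s t (c + 1))) * h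

theorem y_prime (hb : 0 < b) (ht : Prime t) : Prime (yy s t b) := by
  have h1 : (Ideal.span {t}).IsPrime := (Ideal.span_singleton_prime ht.ne_zero).2 ht
  have h2 : Ideal.span {t} = Ideal.span (insert t (∅ : Set B)) := by rw [insert_empty_eq]
  rw [h2] at h1
  have h3 := ker_rho_prime (s := s) hb _ (Ideal.subset_span (Set.mem_insert t (∅ : Set B)))
  rw [ker_rho_span, Set.image_empty, insert_empty_eq] at h3
  refine (Ideal.span_singleton_prime ?_).1 h3
  intro h0
  have h4 : (1 : NodeR s t b) = 0 := y_mul_eq_zero hb ht.ne_zero 1 (by rw [h0, zero_mul])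
  have h5 : oo s t b 1 = oo s t b 0 := by rw [map_one, map_zero, h4]
  exact one_ne_zero (oo_injective h5)

theorem y_pow_mem (hs : s ∈ maximalIdeal B) (ht : t ∈ maximalIdeal B) (n : ℕ) :
    yy s t b ^ ((b + 1) * n) ∈ ((maximalIdeal B) ^ n).map (algebraMap B (NodeR s t b)) := by
  have h1 : yy s t b ^ (b + 1) ∈ (maximalIdeal B).map (algebraMap B (NodeR s t b)) := by
    have h2 : yy s t b ^ (b + 1) = yy s t b ^ b * oo s t b s - oo s t b t := by
      rw [← rel]; ring
    rw [h2]
    exact sub_mem (Ideal.mul_mem_left _ _ (Ideal.mem_map_of_mem _ hs)) (Ideal.mem_map_of_mem _ ht)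
  rw [pow_mul, Ideal.map_pow]
  exact Ideal.pow_mem_pow h1 n

theorem exists_not_dvd (hs : s ∈ maximalIdeal B) (ht : t ∈ maximalIdeal B) (v : NodeR s t b)
    (hv : v ≠ 0) : ∃ n, ¬ yy s t b ^ n ∣ v := by
  by_contra hcon
  push Not at hcon
  apply hv
  have : Module.Finite B (NodeR s t b) := node_finite
  have h1 := Ideal.iInf_pow_smul_eq_bot_of_isLocalRing (M := NodeR s t b) (maximalIdeal B)
    (Ideal.IsPrime.ne_top inferInstance)
  have h2 : v ∈ (⨅ i : ℕ, (maximalIdeal B) ^ i • ⊤ : Submodule B (NodeR s t b)) := by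
    rw [Submodule.mem_iInf]
    intro n
    rw [Ideal.smul_top_eq_map, Submodule.restrictScalars_mem]
    obtain ⟨c, hc⟩ := hcon ((b + 1) * n)
    rw [hc]
    exact Ideal.mul_mem_right _ _ (y_pow_mem hs ht n)
  rw [h1] at h2
  exact (Submodule.mem_bot B).1 h2

theorem exists_factor (hs : s ∈ maximalIdeal B) (ht : t ∈ maximalIdeal B) (v : NodeR s t b)
    (hv : v ≠ 0) : ∃ n v', v = yy s t b ^ n * v' ∧ ¬ yy s t b ∣ v' := by
  classical
  have h := exists_not_dvd hs ht v hv
  have h0 : Nat.find h ≠ 0 := by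
    intro h1
    have h2 := Nat.find_spec h
    rw [h1, pow_zero] at h2
    exact h2 (one_dvd _)
  obtain ⟨n, hn⟩ := Nat.exists_eq_succ_of_ne_zero h0
  have h3 := Nat.find_min h (m := n) (by omega)
  push Not at h3
  obtain ⟨v', hv'⟩ := h3
  refine ⟨n, v', hv', ?_⟩
  rintro ⟨c, rfl⟩
  apply Nat.find_spec h
  rw [hn, hv']
  exact ⟨c, by rw [Nat.succ_eq_add_one, pow_succ]; ring⟩

theorem y_pow_mul_eq_zero (hb : 0 < b) (ht : t ≠ 0) (n : ℕ) (v : NodeR s t b)
    (h : yy s t b ^ n * v = 0) : v = 0 := by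
  induction n with
  | zero => rwa [pow_zero, one_mul] at h
  | succ n ih =>
    apply ih
    apply y_mul_eq_zero hb ht
    linear_combination h

theorem node_isDomain (hb : 0 < b) (hs : s ∈ maximalIdeal B) (htm : t ∈ maximalIdeal B)
    (ht : Prime t) : IsDomain (NodeR s t b) := by
  have hp := y_prime (s := s) hb ht
  have hnt : Nontrivial (NodeR s t b) := ⟨⟨_, _, hp.ne_zero⟩⟩
  have hnz : NoZeroDivisors (NodeR s t b) := by
    refine ⟨fun {a c} hac => ?_⟩
    by_contra hcon
    push Not at hcon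
    obtain ⟨n, a', ha, ha'⟩ := exists_factor hs htm a hcon.1
    obtain ⟨m, c', hc, hc'⟩ := exists_factor hs htm c hcon.2
    have h1 : a' * c' = 0 := by
      apply y_pow_mul_eq_zero hb ht.ne_zero (n + m)
      rw [← hac, ha, hc]
      ring
    rcases hp.dvd_or_dvd (show yy s t b ∣ a' * c' by rw [h1]; exact dvd_zero _) with h | h
    · exact ha' h
    · exact hc' h
  exact NoZeroDivisors.to_isDomain _

end dom

end Pool.Agent.QU54
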