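import Mathlib
import Pool.Agent.Lib.QU54.Node

/-!
# The nodal extension: elements of the base, and Gabber's theorem at the prime `(m_A, y)`
-/

set_option autoImplicit false

namespace Pool.Agent.QU54

open Polynomial IsLocalRing Pool.Agent.QU53 Pool.Agent.QU52

universe u

/-- An element outside the two primes above `n` divides an element of the base outside `n`. -/
theorem exists_over {B : Type u} [CommRing B] {s t : B} {b : ℕ} (hb : 0 < b) (n : Ideal B)
    [hn : n.IsPrime] (ht : t ∈ n) (h : NodeR s t b)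
    (hq : h ∉ RingHom.ker (rho (s := s) hb n ht)) (hp : h ∉ RingHom.ker (sig (s := s) (b := b) n ht)) :
    ∃ H : B, H ∉ n ∧ h ∣ oo s t b H := by
  by_contra hcon
  push Not at hcon
  have : Module.Finite B (NodeR s t b) := (node_monic s t b).finite_adjoinRoot
  have : Algebra.IsIntegral B (NodeR s t b) := Algebra.IsIntegral.of_finite B _
  have hle : (Ideal.span {h}).comap (algebraMap B (NodeR s t b)) ≤ n := by
    intro H hH
    by_contra hHn
    exact hcon H hHn (Ideal.mem_span_singleton.1 hH)
  obtain ⟨Q, hQ1, hQ2, hQ3⟩ := Ideal.exists_ideal_over_prime_of_isIntegral n (Ideal.span {h}) hle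
  have hhQ : h ∈ Q := hQ1 (Ideal.mem_span_singleton_self h)
  have htQ : oo s t b t ∈ Q := by
    have : t ∈ Q.comap (algebraMap B (NodeR s t b)) := by rw [hQ3]; exact ht
    exact this
  have hc : ∀ c, oo s t b c ∈ Q → c ∈ n := fun c hc => by
    rw [← hQ3]
    exact hc
  rw [← rel] at htQ
  rcases hQ2.mem_or_mem htQ with h1 | h1
  · have h2 := hQ2.mem_of_pow_mem _ h1
    obtain ⟨v₀, v', hv⟩ := repr_y s t b h
    apply hq
    rw [mem_ker_rho]
    refine ⟨v₀, hc _ ?_, v', hv⟩
    have h3 : oo s t b v₀ = h - yy s t b * v' := by rw [hv]; ring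
    rw [h3]
    exact sub_mem hhQ (Ideal.mul_mem_right _ _ h2)
  · obtain ⟨v₀, v', hv⟩ := repr_x s t b h
    apply hp
    rw [mem_ker_sig]
    refine ⟨v₀, hc _ ?_, v', hv⟩
    have h3 : oo s t b v₀ = h - (oo s t b s - yy s t b) * v' := by rw [hv]; ring
    rw [h3]
    exact sub_mem hhQ (Ideal.mul_mem_right _ _ h1)

section gab

variable {A : Type u} [CommRing A] [IsRegularLocalRing A]

theorem C_mem_mapC' (I : Ideal A) (a : A) {n : ℕ} (ha : MvPowerSeries.C (σ := Fin n) a ∈ I.map
    (MvPowerSeries.C (σ := Fin n) (R := A))) : a ∈ I := by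
  rw [mem_mapC, MvPowerSeries.map_C] at ha
  have h1 := congrArg (MvPowerSeries.constantCoeff) ha
  rw [MvPowerSeries.constantCoeff_C, map_zero] at h1
  exact Ideal.Quotient.eq_zero_iff_mem.1 h1

theorem C_mem_max (a : A) (ha : a ∈ maximalIdeal A) (n : ℕ) :
    MvPowerSeries.C (σ := Fin n) a ∈ maximalIdeal (MvPowerSeries (Fin n) A) := by
  rw [mem_maximalIdeal, mem_nonunits_iff, MvPowerSeries.isUnit_iff_constantCoeff,
    MvPowerSeries.constantCoeff_C]
  exact ha

theorem X_mem_max (n : ℕ) (i : Fin n) :
    (MvPowerSeries.X i : MvPowerSeries (Fin n) A) ∈ maximalIdeal (MvPowerSeries (Fin n) A) := by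
  rw [mem_maximalIdeal, mem_nonunits_iff, MvPowerSeries.isUnit_iff_constantCoeff,
    MvPowerSeries.constantCoeff_X]
  exact not_isUnit_zero

/-- Gabber's theorem at the prime `(m_A, y)`. -/
theorem gab (hd : ringKrullDim A = 3) (t : A) (ht : t ∈ maximalIdeal A)
    (ht2 : t ∉ maximalIdeal A ^ 2) (n b : ℕ) (hb : 0 < b)
    [((maximalIdeal A).map (MvPowerSeries.C (σ := Fin (n + 1)) (R := A))).IsPrime]
    [hq : (RingHom.ker (rho (s := (MvPowerSeries.X 0 : MvPowerSeries (Fin (n + 1)) A)) hb
      ((maximalIdeal A).map (MvPowerSeries.C (σ := Fin (n + 1)) (R := A)))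
      (Ideal.mem_map_of_mem MvPowerSeries.C ht))).IsPrime] :
    PF (Localization.Away (algebraMap (NodeR (MvPowerSeries.X 0 : MvPowerSeries (Fin (n + 1)) A)
      (MvPowerSeries.C t) b) (Localization.AtPrime
        (RingHom.ker (rho (s := (MvPowerSeries.X 0 : MvPowerSeries (Fin (n + 1)) A)) hb
      ((maximalIdeal A).map (MvPowerSeries.C (σ := Fin (n + 1)) (R := A)))
      (Ideal.mem_map_of_mem MvPowerSeries.C ht)))) (yy _ _ b))) := by
  classical
  obtain ⟨a, a', hm, htp, hI, ha, ha'⟩ := exists_rxy hd t ht ht2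
  have hdomA : IsDomain A := BEH5.Reg.isDomain_of_regular 3 A (by exact_mod_cast hd)
  let B := MvPowerSeries (Fin (n + 1)) A
  have hBdom : IsDomain B := isDomain_mv A (n + 1)
  let s : B := MvPowerSeries.X 0
  let T : B := MvPowerSeries.C t
  let R := NodeR s T b
  have hTp : Prime T := prime_C htp (n + 1)
  have hRdom : IsDomain R := node_isDomain hb (X_mem_max _ _) (C_mem_max _ ht _) hTp
  -- the three ideals of `B`
  have m1 : Ideal.span (insert T (∅ : Set B)) = (Ideal.span {t}).map (MvPowerSeries.C (R := A)) := by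
    rw [Ideal.map_span, Set.image_singleton, insert_empty_eq]
  have m2 : Ideal.span (insert T {(MvPowerSeries.C a : B)}) =
      (Ideal.span {t, a}).map (MvPowerSeries.C (R := A)) := by
    rw [Ideal.map_span, Set.image_insert_eq, Set.image_singleton]
  have m3 : Ideal.span (insert T {(MvPowerSeries.C a : B), (MvPowerSeries.C a' : B)}) =
      (maximalIdeal A).map (MvPowerSeries.C (R := A)) := by
    rw [hm, Ideal.map_span, Set.image_insert_eq, Set.image_insert_eq, Set.image_singleton]
  have p1 : (Ideal.span (insert T (∅ : Set B))).IsPrime := by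
    rw [insert_empty_eq]
    exact (Ideal.span_singleton_prime hTp.ne_zero).2 hTp
  have p2 : (Ideal.span (insert T {(MvPowerSeries.C a : B)})).IsPrime := by
    rw [m2]
    exact prime_mapC _ _
  -- the three ideals of `R`
  have k1 := ker_rho_span (s := s) (t := T) hb ∅ (Ideal.subset_span (Set.mem_insert T (∅ : Set B)))
  have k2 := ker_rho_span (s := s) (t := T) hb {(MvPowerSeries.C a : B)}
    (Ideal.subset_span (Set.mem_insert T _))
  have k3 := ker_rho_span (s := s) (t := T) hb {(MvPowerSeries.C a : B), (MvPowerSeries.C a' : B)}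
    (Ideal.subset_span (Set.mem_insert T _))
  have P1 := ker_rho_prime (s := s) (t := T) hb _
    (Ideal.subset_span (Set.mem_insert T (∅ : Set B)))
  have P2 := ker_rho_prime (s := s) (t := T) hb _
    (Ideal.subset_span (Set.mem_insert T {(MvPowerSeries.C a : B)}))
  have k1' := k1.trans (by rw [Set.image_empty, insert_empty_eq] :
    Ideal.span (insert (yy s T b) (oo s T b '' (∅ : Set B))) = Ideal.span {yy s T b})
  have k2' := k2.trans (by rw [Set.image_singleton] :
    Ideal.span (insert (yy s T b) (oo s T b '' {(MvPowerSeries.C a : B)})) =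
      Ideal.span {yy s T b, oo s T b (MvPowerSeries.C a)})
  have n1 : oo s T b (MvPowerSeries.C a) ∉ Ideal.span {yy s T b} := by
    intro h
    rw [← k1', RingHom.mem_ker, rho_o, Ideal.Quotient.eq_zero_iff_mem, m1] at h
    exact ha (C_mem_mapC' _ _ h)
  have n2 : oo s T b (MvPowerSeries.C a') ∉ Ideal.span {yy s T b, oo s T b (MvPowerSeries.C a)} := by
    intro h
    rw [← k2', RingHom.mem_ker, rho_o, Ideal.Quotient.eq_zero_iff_mem, m2] at h
    exact ha' (C_mem_mapC' _ _ h)
  rw [k1'] at P1
  rw [k2'] at P2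
  set q : Ideal R := RingHom.ker (rho (s := s) hb
      ((maximalIdeal A).map (MvPowerSeries.C (σ := Fin (n + 1)) (R := A)))
      (Ideal.mem_map_of_mem MvPowerSeries.C ht)) with hqdef
  have k4 : q = Ideal.span {yy s T b, oo s T b (MvPowerSeries.C a), oo s T b (MvPowerSeries.C a')} := by
    have h1 : q = RingHom.ker (rho (s := s) hb (Ideal.span (insert T
        {(MvPowerSeries.C a : B), (MvPowerSeries.C a' : B)}))
          (Ideal.subset_span (Set.mem_insert T _))) := by
      ext v
      rw [hqdef, mem_ker_rho, mem_ker_rho, m3]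
    rw [h1, k3, Set.image_insert_eq, Set.image_singleton]
  let K := Localization.AtPrime q
  have hM : q.primeCompl ≤ nonZeroDivisors R := Ideal.primeCompl_le_nonZeroDivisors _
  have hKdom : IsDomain K := IsLocalization.isDomain_localization hM
  have hKn : IsNoetherianRing K := IsLocalization.isNoetherianRing q.primeCompl _ inferInstance
  have hinj : Function.Injective (algebraMap R K) := IsLocalization.injective K hM
  obtain ⟨l1, l1'⟩ := loc_prime q K _ P1 (by
    rw [Ideal.span_singleton_le_iff_mem, k4]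
    exact Ideal.subset_span (by simp))
  obtain ⟨l2, l2'⟩ := loc_prime q K _ P2 (by
    rw [k4]
    exact Ideal.span_mono (by
      intro z hz
      rcases hz with rfl | rfl <;> simp))
  rw [Ideal.map_span, Set.image_singleton] at l1 l1'
  rw [Ideal.map_span, Set.image_insert_eq, Set.image_singleton] at l2 l2'
  have hyne : algebraMap R K (yy s T b) ≠ 0 := by
    intro h
    rw [← map_zero (algebraMap R K)] at h
    exact (y_prime (s := s) hb hTp).ne_zero (hinj h)
  refine QU62.gabber K (algebraMap R K (yy s T b)) (algebraMap R K (oo s T b (MvPowerSeries.C a)))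
    (algebraMap R K (oo s T b (MvPowerSeries.C a'))) ((Ideal.span_singleton_prime hyne).1 l1)
    (prime_mk l2 fun h => n1 (l1' _ h)) ?_ ?_
  · rw [mk_dvd_iff]
    exact fun h => n2 (l2' _ h)
  · have h1 : maximalIdeal K = q.map (algebraMap R K) :=
      (IsLocalization.AtPrime.map_eq_maximalIdeal q K).symm
    rw [h1]
    refine (congrArg (Ideal.map (algebraMap R K)) k4).trans ?_
    rw [Ideal.map_span]
    simp only [Set.image_insert_eq, Set.image_singleton]

end gab

end Pool.Agent.QU54
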