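import Mathlib
import Pool.Agent.Lib.QU53.Main3

/-!
# Gluing two bases: one at a prime which contains `y`, one at a prime which does not
-/

set_option autoImplicit false

namespace Pool.Agent.QU54

open IsLocalRing Pool.Agent.QU53

universe u

/-- If `h g = T b` then `det T b` lies in the span of `g`. -/
theorem det_mem_span {D : Type u} [CommRing D] {P : Type u} [AddCommGroup P] [Module D P] {k : ℕ}
    (T : Matrix (Fin k) (Fin k) D) (g b : Fin k → P) (h : D)
    (hT : ∀ i, h • g i = ∑ j, T i j • b j) (l : Fin k) :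
    T.det • b l ∈ Submodule.span D (Set.range g) := by
  classical
  have h1 : T.det • b l = ∑ i, (T.adjugate l i * h) • g i := by
    have h2 : ∀ j, (∑ i, T.adjugate l i * T i j) = if l = j then T.det else 0 := by
      intro j
      have h3 := congrFun (congrFun (Matrix.adjugate_mul T) l) j
      rw [Matrix.mul_apply, Matrix.smul_apply, Matrix.one_apply, smul_eq_mul, mul_ite, mul_one,
        mul_zero] at h3
      exact h3
    calc T.det • b l = ∑ j, (∑ i, T.adjugate l i * T i j) • b j := by
          simp_rw [h2, ite_smul, zero_smul]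
          rw [Finset.sum_ite_eq]
          simp
      _ = ∑ i, T.adjugate l i • ∑ j, T i j • b j := by
          simp_rw [Finset.sum_smul, Finset.smul_sum, mul_smul]
          rw [Finset.sum_comm]
      _ = _ := by
          refine Finset.sum_congr rfl fun i _ => ?_
          rw [← hT i, smul_smul]
  rw [h1]
  exact Submodule.sum_mem _ fun i _ => Submodule.smul_mem _ _ (Submodule.subset_span ⟨i, rfl⟩)

/-- A common denominator. -/
theorem common_den {R : Type u} [CommRing R] (D : Type u) [CommRing D] [Algebra R D] (y : R)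
    [IsLocalization.Away y D] {ι : Type*} [Finite ι] (f : ι → D) :
    ∃ (M : ℕ) (a : ι → R), ∀ i, algebraMap R D (a i) = algebraMap R D y ^ M * f i := by
  classical
  have : Fintype ι := Fintype.ofFinite ι
  have h : ∀ i, ∃ (n : ℕ) (a : R), f i * algebraMap R D y ^ n = algebraMap R D a := by
    intro i
    obtain ⟨n, a, h⟩ := IsLocalization.Away.surj y (f i)
    exact ⟨n, a, h⟩
  choose n a h using h
  refine ⟨∑ i, n i, fun i => y ^ (∑ j ∈ Finset.univ.erase i, n j) * a i, fun i => ?_⟩
  rw [map_mul, map_pow, ← h i, ← Finset.add_sum_erase _ _ (Finset.mem_univ i), pow_add]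
  ring

/-- `HB` for a multiple. -/
theorem HB.mul {A : Type u} [CommRing A] {P : Type u} [AddCommGroup P] [Module A P] {k : ℕ} {h : A}
    (H : HB A P k h) (c : A) : HB A P k (c * h) := by
  obtain ⟨b, hb, hs⟩ := H
  exact ⟨b, hb, fun q => by rw [mul_smul]; exact Submodule.smul_mem _ _ (hs q)⟩

theorem det_notMem {R : Type u} [CommRing R] (q : Ideal R) [hq : q.IsPrime] {k : ℕ} (c : R)
    (hc : c ∉ q) (N : Matrix (Fin k) (Fin k) R) (z : R) (hz : z ∈ q) :
    (c • (1 : Matrix (Fin k) (Fin k) R) + z • N).det ∉ q := by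
  classical
  intro h
  have h1 := Ideal.Quotient.eq_zero_iff_mem.2 h
  rw [RingHom.map_det] at h1
  have h2 : (Ideal.Quotient.mk q).mapMatrix (c • (1 : Matrix (Fin k) (Fin k) R) + z • N) =
      (Ideal.Quotient.mk q c) • (1 : Matrix (Fin k) (Fin k) (R ⧸ q)) := by
    ext i j
    simp only [RingHom.mapMatrix_apply, Matrix.map_apply, Matrix.add_apply, Matrix.smul_apply,
      smul_eq_mul, map_add, map_mul, Ideal.Quotient.eq_zero_iff_mem.2 hz, zero_mul, add_zero]
    by_cases hij : i = j
    · subst hij; simp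
    · simp [hij]
  rw [h2, Matrix.det_smul, Matrix.det_one, mul_one] at h1
  have h3 : Ideal.Quotient.mk q c = 0 := by
    by_contra hne
    have : IsDomain (R ⧸ q) := (Ideal.Quotient.isDomain_iff_prime q).2 hq
    exact pow_ne_zero _ hne h1
  exact hc (Ideal.Quotient.eq_zero_iff_mem.1 h3)

/-- Gluing bases at two primes. -/
theorem glue_HB {R : Type u} [CommRing R] [IsDomain R] (D : Type u) [CommRing D] [IsDomain D]
    [Algebra R D] (y x : R) [IsLocalization.Away y D] (hinj : Function.Injective (algebraMap R D))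
    (q p : Ideal R) [q.IsPrime] [p.IsPrime] (hyq : y ∈ q) (hyp : y ∉ p) (hxp : x ∈ p) (hxq : x ∉ q)
    (P : Type u) [AddCommGroup P] [Module D P] (k : ℕ) (h₁ h₂ : R) (hq : h₁ ∉ q) (hp : h₂ ∉ p)
    (H1 : HB D P k (algebraMap R D h₁)) (H2 : HB D P k (algebraMap R D h₂)) :
    ∃ h, h ∉ q ∧ h ∉ p ∧ HB D P k (algebraMap R D h) := by
  classical
  have H10 := H1
  obtain ⟨b, hb, hs⟩ := H1
  obtain ⟨b', hb', hs'⟩ := H2
  have e1 : ∀ i, ∃ d : Fin k → D, ∑ j, d j • b j = algebraMap R D h₁ • b' i := fun i =>
    (Submodule.mem_span_range_iff_exists_fun D).1 (hs (b' i))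
  have e2 : ∀ i, ∃ d : Fin k → D, ∑ j, d j • b' j = algebraMap R D h₂ • b i := fun i =>
    (Submodule.mem_span_range_iff_exists_fun D).1 (hs' (b i))
  choose d hd using e1
  choose c hc using e2
  obtain ⟨M, a, ha⟩ := common_den D y (fun ij : (Fin k × Fin k) ⊕ (Fin k × Fin k) =>
    Sum.elim (fun ij => d ij.1 ij.2) (fun ij => c ij.1 ij.2) ij)
  let d' : Matrix (Fin k) (Fin k) R := fun i j => a (Sum.inl (i, j))
  let c' : Matrix (Fin k) (Fin k) R := fun i j => a (Sum.inr (i, j))
  have hd' : ∀ i j, algebraMap R D (d' i j) = algebraMap R D y ^ M * d i j := fun i j =>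
    ha (Sum.inl (i, j))
  have hc' : ∀ i j, algebraMap R D (c' i j) = algebraMap R D y ^ M * c i j := fun i j =>
    ha (Sum.inr (i, j))
  let g : Fin k → P := fun i => algebraMap R D x • b i + algebraMap R D (y ^ (M + 1)) • b' i
  let U : Matrix (Fin k) (Fin k) R := (x * h₁) • 1 + y • d'
  let V : Matrix (Fin k) (Fin k) R := (y ^ M * y ^ (M + 1) * h₂) • 1 + x • c'
  have hU : ∀ i, algebraMap R D h₁ • g i = ∑ j, (U.map (algebraMap R D)) i j • b j := by
    intro i
    have h1 : ∀ j, (U.map (algebraMap R D)) i j =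
        (if i = j then algebraMap R D (x * h₁) else 0) + algebraMap R D (y ^ (M + 1)) * d i j := by
      intro j
      simp only [U, Matrix.map_apply, Matrix.add_apply, Matrix.smul_apply, Matrix.one_apply,
        smul_eq_mul, map_add, map_mul, hd', map_pow]
      split_ifs <;> simp <;> ring
    simp_rw [h1, add_smul, ite_smul, zero_smul, mul_smul]
    rw [Finset.sum_add_distrib, Finset.sum_ite_eq, if_pos (Finset.mem_univ i), ← Finset.smul_sum,
      hd i]
    simp only [g, smul_add, smul_smul, map_mul]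
    congr 2 <;> ring
  have hV : ∀ i, algebraMap R D (y ^ M * h₂) • g i =
      ∑ j, (V.map (algebraMap R D)) i j • b' j := by
    intro i
    have h1 : ∀ j, (V.map (algebraMap R D)) i j =
        (if i = j then algebraMap R D (y ^ M * y ^ (M + 1) * h₂) else 0) +
          (algebraMap R D x * algebraMap R D (y ^ M)) * c i j := by
      intro j
      simp only [V, Matrix.map_apply, Matrix.add_apply, Matrix.smul_apply, Matrix.one_apply,
        smul_eq_mul, map_add, map_mul, hc', map_pow]
      split_ifs <;> simp <;> ring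
    simp_rw [h1, add_smul, ite_smul, zero_smul, mul_smul]
    rw [Finset.sum_add_distrib, Finset.sum_ite_eq, if_pos (Finset.mem_univ i)]
    have h2 : ∑ j, algebraMap R D x • algebraMap R D (y ^ M) • c i j • b' j =
        algebraMap R D x • algebraMap R D (y ^ M) • algebraMap R D h₂ • b i := by
      rw [← hc i, Finset.smul_sum, Finset.smul_sum]
    rw [h2]
    simp only [g, smul_add, smul_smul, map_mul]
    rw [add_comm]
    congr 2 <;> ring
  have hUd : U.det ∉ q := det_notMem q _ (fun h => (Ideal.IsPrime.mem_or_mem ‹_› h).elim hxq hq)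
    d' y hyq
  have hVd : V.det ∉ p := by
    refine det_notMem p _ (fun h => ?_) c' x hxp
    rcases Ideal.IsPrime.mem_or_mem ‹_› h with h | h
    · rw [← pow_add] at h
      exact hyp (Ideal.IsPrime.mem_of_pow_mem ‹_› _ h)
    · exact hp h
  have k1 : ∀ r : P, algebraMap R D (h₁ * U.det) • r ∈ Submodule.span D (Set.range g) := by
    intro r
    obtain ⟨e, he⟩ := (Submodule.mem_span_range_iff_exists_fun D).1 (hs r)
    rw [mul_comm, map_mul, mul_smul, ← he, Finset.smul_sum]
    refine Submodule.sum_mem _ fun j _ => ?_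
    rw [smul_comm]
    refine Submodule.smul_mem _ _ ?_
    rw [RingHom.map_det]
    exact det_mem_span _ g b _ hU j
  have k2 : ∀ r : P, algebraMap R D (h₂ * V.det) • r ∈ Submodule.span D (Set.range g) := by
    intro r
    obtain ⟨e, he⟩ := (Submodule.mem_span_range_iff_exists_fun D).1 (hs' r)
    rw [mul_comm, map_mul, mul_smul, ← he, Finset.smul_sum]
    refine Submodule.sum_mem _ fun j _ => ?_
    rw [smul_comm]
    refine Submodule.smul_mem _ _ ?_
    rw [RingHom.map_det]
    exact det_mem_span _ g b' _ hV j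
  have m1 : h₁ * U.det ∉ q := fun h => (Ideal.IsPrime.mem_or_mem ‹_› h).elim hq hUd
  have m2 : h₂ * V.det ∉ p := fun h => (Ideal.IsPrime.mem_or_mem ‹_› h).elim hp hVd
  have hne : algebraMap R D (h₁ * U.det) ≠ 0 := by
    intro h
    rw [← map_zero (algebraMap R D)] at h
    exact m1 (hinj h ▸ q.zero_mem)
  have hli : LinearIndependent D g := li_of_HB H10 hne g k1
  by_cases c1 : h₁ * U.det ∈ p
  · by_cases c2 : h₂ * V.det ∈ q
    · refine ⟨h₁ * U.det + h₂ * V.det, fun h => m1 ?_, fun h => m2 ?_, g, hli, fun r => ?_⟩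
      · exact (Ideal.add_mem_iff_left _ c2).1 h
      · exact (Ideal.add_mem_iff_right _ c1).1 h
      · rw [map_add, add_smul]
        exact add_mem (k1 r) (k2 r)
    · exact ⟨_, c2, m2, g, hli, k2⟩
  · exact ⟨_, m1, c1, g, hli, k1⟩

end Pool.Agent.QU54
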