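import Mathlib
import Pool.Agent.Lib.QU54.Node
import Pool.Agent.Lib.QU54.Semi

/-!
# Patching `C[w]` and `R[1/y]`, `R` the nodal extension of `C⟦s⟧`
-/

set_option autoImplicit false

namespace Pool.Agent.QU54

open Polynomial IsLocalRing Pool.Agent.QU53

universe u

/-- The polynomial `w ^ e * G (1 / w + t w ^ b)`. -/
noncomputable def gpr {C : Type u} [CommRing C] (t : C) (b : ℕ) (G : C[X]) : C[X] :=
  ∑ i ∈ Finset.range (G.natDegree + 1),
    Polynomial.C (G.coeff i) * X ^ (G.natDegree - i) * (1 + Polynomial.C t * X ^ (b + 1)) ^ i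

theorem gpr_form {C : Type u} [CommRing C] (t : C) (b : ℕ) (G : C[X]) (hG : G.Monic) :
    ∃ F₁ : C[X], gpr t b G = 1 + X * F₁ := by
  have h1 : (gpr t b G - 1).coeff 0 = 0 := by
    have h2 : (gpr t b G).eval 0 = 1 := by
      rw [gpr, Polynomial.eval_finset_sum, Finset.sum_eq_single G.natDegree]
      · simp [hG.coeff_natDegree]
      · intro i hi hne
        have h3 : G.natDegree - i ≠ 0 := by
          have := Finset.mem_range.1 hi
          omega
        simp [h3]
      · intro h
        exact absurd (Finset.mem_range.2 (Nat.lt_succ_self _)) h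
    rw [coeff_zero_eq_eval_zero, Polynomial.eval_sub, h2, Polynomial.eval_one, sub_self]
  obtain ⟨F₁, hF⟩ := X_dvd_iff.2 h1
  exact ⟨F₁, by rw [← hF]; ring⟩

theorem gpr_eval {C : Type u} [CommRing C] (t : C) (b : ℕ) (G : C[X]) {E : Type u} [CommRing E]
    (i : C →+* E) (w s : E) (h : w * s = 1 + i t * w ^ (b + 1)) :
    eval₂ i w (gpr t b G) = w ^ G.natDegree * eval₂ i s G := by
  rw [gpr, eval₂_finset_sum, eval₂_eq_sum_range, Finset.mul_sum]
  refine Finset.sum_congr rfl fun k hk => ?_
  have hk' : k ≤ G.natDegree := Nat.lt_succ_iff.1 (Finset.mem_range.1 hk)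
  rw [eval₂_mul, eval₂_mul, eval₂_pow, eval₂_pow, eval₂_add, eval₂_mul, eval₂_pow, eval₂_X,
    eval₂_C, eval₂_C, eval₂_one, ← h, mul_pow]
  obtain ⟨d, hd⟩ := Nat.exists_eq_add_of_le hk'
  rw [hd, Nat.add_sub_cancel_left, pow_add]
  ring

theorem reflect_eval {C : Type u} [CommRing C] {E : Type u} [CommRing E]
    (i : C →+* E) (w y : E) (h : w * y = 1) (M : ℕ) (a : C[X]) (hM : a.natDegree ≤ M) :
    eval₂ i y (reflect M a) = y ^ M * eval₂ i w a := by
  let : Invertible w := ⟨y, by rw [mul_comm]; exact h, h⟩
  have h1 := eval₂_reflect_mul_pow i w M a hM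
  have h2 : (⅟w : E) = y := rfl
  rw [h2] at h1
  rw [← h1, mul_comm, mul_assoc, ← mul_pow, h, one_pow, mul_one]

theorem node_map {B B' : Type u} [CommRing B] [CommRing B'] (f : B →+* B') (s t : B) (b : ℕ) :
    (nodeP s t b).map f = nodeP (f s) (f t) b := by
  simp [nodeP]

theorem node_monic' {B : Type u} [CommRing B] (s t : B) (b : ℕ) : (nodeP s t b).Monic := by
  nontriviality B
  exact node_monic s t b

section lau

variable {C : Type u} [CommRing C] [IsDomain C] (t : C) (b : ℕ)

omit [IsDomain C] in
/-- Evaluation in the ring of Laurent polynomials. -/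
theorem exists_ev : ∃ (ev : C[X][X] →+* Localization.Away (X : C[X])) (w y s : Localization.Away (X : C[X])),
    w = algebraMap C[X] _ X ∧ w * y = 1 ∧
    w * s = 1 + ((algebraMap C[X] (Localization.Away (X : C[X]))).comp Polynomial.C) t * w ^ (b + 1) ∧
    ev (nodeP X (Polynomial.C t) b) = 0 ∧
    (∀ G : C[X], ev (Polynomial.C G) =
      eval₂ ((algebraMap C[X] (Localization.Away (X : C[X]))).comp Polynomial.C) s G) ∧
    (∀ G : C[X], ev (G.map Polynomial.C) =
      eval₂ ((algebraMap C[X] (Localization.Away (X : C[X]))).comp Polynomial.C) y G) := by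
  let L := Localization.Away (X : C[X])
  let i : C →+* L := (algebraMap C[X] L).comp Polynomial.C
  let w : L := algebraMap C[X] L X
  let y : L := IsLocalization.Away.invSelf (X : C[X])
  have hwy : w * y = 1 := IsLocalization.Away.mul_invSelf (X : C[X])
  let s : L := y + i t * w ^ b
  refine ⟨eval₂RingHom (eval₂RingHom i s) y, w, y, s, rfl, hwy, ?_, ?_, ?_, ?_⟩
  · show w * (y + i t * w ^ b) = 1 + i t * w ^ (b + 1)
    rw [mul_add, hwy]
    ring
  · simp only [nodeP, map_add, map_sub, map_mul, map_pow, coe_eval₂RingHom, eval₂_X, eval₂_C]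
    have h1 : i t * w ^ b * y ^ b = i t := by
      rw [mul_assoc, ← mul_pow, hwy, one_pow, mul_one]
    show y ^ (b + 1) + (i t - (y + i t * w ^ b) * y ^ b) = 0
    rw [add_mul, h1]
    ring
  · intro G
    simp only [coe_eval₂RingHom, eval₂_C]
    rfl
  · intro G
    simp only [coe_eval₂RingHom, eval₂_map]
    congr 1
    ext c
    simp only [RingHom.comp_apply, coe_eval₂RingHom, eval₂_C]
    rfl

end lau

/-- A polynomial in `y⁻¹`, reduced modulo the equation, which is divisible by `G`. -/
theorem dvd_of_reduced {C : Type u} [CommRing C] [IsDomain C] (t : C) (b : ℕ) (G : C[X])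
    (hG : G.Monic) (a : C[X]) (M : ℕ) (hM : a.natDegree ≤ M) (r₂ q₂ : C[X][X])
    (h : (reflect M a).map Polynomial.C =
      Polynomial.C G * r₂ + nodeP X (Polynomial.C t) b * q₂) :
    ∃ a' : C[X], a = gpr t b G * a' := by
  obtain ⟨ev, w, y, s, hw, hwy, hws, hN, hev1, hev2⟩ := exists_ev t b
  have h1 := congrArg ev h
  rw [map_add, map_mul, map_mul, hN, zero_mul, add_zero, hev1, hev2,
    reflect_eval _ w y hwy M a hM] at h1
  have h2 := gpr_eval t b G ((algebraMap C[X] (Localization.Away (X : C[X]))).comp Polynomial.C)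
    w s hws
  have h3 : ∀ f : C[X], eval₂ ((algebraMap C[X] (Localization.Away (X : C[X]))).comp Polynomial.C) w f
      = algebraMap C[X] _ f := by
    intro f
    rw [hw, ← hom_eval₂, eval₂_C_X]
  rw [h3] at h1 h2
  obtain ⟨K, z₀, hz⟩ := IsLocalization.Away.surj (X : C[X]) (ev r₂)
  have hinj : Function.Injective (algebraMap C[X] (Localization.Away (X : C[X]))) :=
    IsLocalization.injective _ (powers_le_nonZeroDivisors_of_noZeroDivisors X_ne_zero)
  have h4 : a * X ^ (K + G.natDegree) = gpr t b G * (X ^ M * z₀) := by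
    apply hinj
    rw [map_mul, map_mul, map_mul, h2, ← hz, map_pow, map_pow, ← hw]
    have h5 : algebraMap C[X] (Localization.Away (X : C[X])) a = w ^ M *
        (eval₂ ((algebraMap C[X] (Localization.Away (X : C[X]))).comp Polynomial.C) s G * ev r₂) := by
      rw [← h1, ← mul_assoc, ← mul_pow, hwy, one_pow, one_mul]
    rw [h5]
    ring
  obtain ⟨F₁, hF⟩ := gpr_form t b G hG
  have hcop : IsCoprime (gpr t b G) (X ^ (K + G.natDegree)) := by
    apply IsCoprime.pow_right
    refine ⟨1, -F₁, ?_⟩
    rw [hF]
    ring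
  exact hcop.dvd_of_dvd_mul_right ⟨_, h4⟩

section step

variable {C : Type u} [CommRing C] [IsDomain C] (t : C) (b : ℕ)
variable {R' : Type u} [CommRing R'] [IsDomain R'] (j : PowerSeries C →+* R') (y : R')

/-- The map `C[w] → R[1/y]`. -/
noncomputable def phi : C[X] →+* Localization.Away y :=
  eval₂RingHom (((algebraMap R' (Localization.Away y)).comp j).comp PowerSeries.C)
    (IsLocalization.Away.invSelf y)

theorem phi_apply (a : C[X]) : phi j y a =
    eval₂ (((algebraMap R' (Localization.Away y)).comp j).comp PowerSeries.C)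
      (IsLocalization.Away.invSelf y) a := rfl

theorem wy : IsLocalization.Away.invSelf y * algebraMap R' (Localization.Away y) y = 1 := by
  rw [mul_comm]
  exact IsLocalization.Away.mul_invSelf y

theorem ws (hrel : y ^ b * (j PowerSeries.X - y) = j (PowerSeries.C t)) :
    IsLocalization.Away.invSelf y * algebraMap R' (Localization.Away y) (j PowerSeries.X) =
      1 + (((algebraMap R' (Localization.Away y)).comp j).comp PowerSeries.C) t *
        IsLocalization.Away.invSelf y ^ (b + 1) := by
  have h1 := wy y
  set w : Localization.Away y := IsLocalization.Away.invSelf y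
  set Y := algebraMap R' (Localization.Away y) y
  have h2 := congrArg (algebraMap R' (Localization.Away y)) hrel
  rw [map_mul, map_pow, map_sub] at h2
  show _ = 1 + algebraMap R' (Localization.Away y) (j (PowerSeries.C t)) * w ^ (b + 1)
  rw [← h2]
  have h3 : w ^ b * Y ^ b = 1 := by rw [← mul_pow, h1, one_pow]
  have h4 : Y ^ b * (algebraMap R' (Localization.Away y) (j PowerSeries.X) - Y) * w ^ (b + 1) =
      (w ^ b * Y ^ b) * (w * algebraMap R' (Localization.Away y) (j PowerSeries.X) - w * Y) := by
    rw [pow_succ]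
    ring
  rw [h4, h3, h1]
  ring

theorem phi_reflect (a : C[X]) (M : ℕ) (hM : a.natDegree ≤ M) :
    algebraMap R' (Localization.Away y) (((reflect M a).map PowerSeries.C).eval₂ j y) =
      algebraMap R' (Localization.Away y) y ^ M * phi j y a := by
  rw [hom_eval₂, eval₂_map, phi_apply, ← reflect_eval _ _ _ (wy y) M a hM]

theorem phi_gpr (hrel : y ^ b * (j PowerSeries.X - y) = j (PowerSeries.C t)) (G : C[X]) :
    phi j y (gpr t b G) = IsLocalization.Away.invSelf y ^ G.natDegree *
      algebraMap R' (Localization.Away y) (j (G : PowerSeries C)) := by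
  rw [phi_apply, gpr_eval t b G _ _ _ (ws t b j y hrel)]
  have h1 : ∀ G : C[X], algebraMap R' (Localization.Away y) (j (G : PowerSeries C)) =
      eval₂ (((algebraMap R' (Localization.Away y)).comp j).comp PowerSeries.C)
        (algebraMap R' (Localization.Away y) (j PowerSeries.X)) G := by
    intro G
    induction G using Polynomial.induction_on' with
    | add p q hp hq => rw [Polynomial.coe_add, map_add, map_add, hp, hq, eval₂_add]
    | monomial n c =>
      rw [← C_mul_X_pow_eq_monomial, Polynomial.coe_mul, Polynomial.coe_pow, Polynomial.coe_C,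
        Polynomial.coe_X, eval₂_mul, eval₂_C, eval₂_X_pow, map_mul, map_mul, map_pow, map_pow]
      rfl
  rw [h1]

theorem away_inj (hy : y ≠ 0) : Function.Injective (algebraMap R' (Localization.Away y)) :=
  IsLocalization.injective _ (powers_le_nonZeroDivisors_of_noZeroDivisors hy)

theorem phi_inj (hy : y ≠ 0)
    (hker : ∀ p : Polynomial (PowerSeries C), p.eval₂ j y = 0 →
      nodeP PowerSeries.X (PowerSeries.C t) b ∣ p) :
    Function.Injective (phi j y) := by
  rw [injective_iff_map_eq_zero]
  intro a ha
  have h1 : ((reflect a.natDegree a).map PowerSeries.C).eval₂ j y = 0 := by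
    apply away_inj y hy
    rw [phi_reflect j y a _ le_rfl, ha, mul_zero, map_zero]
  have h2 := hker _ h1
  have h3 : nodeP (PowerSeries.X : PowerSeries C) (PowerSeries.C t) b =
      (nodeP (X : C[X]) (Polynomial.C t) b).map Polynomial.coeToPowerSeries.ringHom := by
    rw [node_map]
    simp
  have h4 : (reflect a.natDegree a).map PowerSeries.C =
      ((reflect a.natDegree a).map Polynomial.C).map Polynomial.coeToPowerSeries.ringHom := by
    rw [Polynomial.map_map]
    congr 1
    ext c
    simp
  rw [h3, h4, Polynomial.map_dvd_map _ (by exact Polynomial.coe_injective C) (node_monic' _ _ _)]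
    at h2
  obtain ⟨q₂, hq⟩ := h2
  obtain ⟨ev, w, y', s, hw, hwy, hws, hN, hev1, hev2⟩ := exists_ev t b
  have h5 := congrArg ev hq
  rw [map_mul, hN, zero_mul, hev2, reflect_eval _ w y' hwy _ a le_rfl] at h5
  have h6 : eval₂ ((algebraMap C[X] (Localization.Away (X : C[X]))).comp Polynomial.C) w a
      = algebraMap C[X] _ a := by
    rw [hw, ← hom_eval₂, eval₂_C_X]
  rw [h6] at h5
  have hinj : Function.Injective (algebraMap C[X] (Localization.Away (X : C[X]))) :=
    IsLocalization.injective _ (powers_le_nonZeroDivisors_of_noZeroDivisors X_ne_zero)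
  apply hinj
  rw [map_zero]
  calc algebraMap C[X] (Localization.Away (X : C[X])) a = (w * y') ^ a.natDegree *
      algebraMap C[X] (Localization.Away (X : C[X])) a := by rw [hwy, one_pow, one_mul]
    _ = w ^ a.natDegree * (y' ^ a.natDegree *
      algebraMap C[X] (Localization.Away (X : C[X])) a) := by rw [mul_pow, mul_assoc]
    _ = 0 := by rw [h5, mul_zero]

theorem phi_h2 [IsLocalRing C] [IsNoetherianRing C] (hy : y ≠ 0) (hrel : y ^ b * (j PowerSeries.X - y) = j (PowerSeries.C t))
    (hgen : ∀ v : R', ∃ p : Polynomial (PowerSeries C), v = p.eval₂ j y)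
    (hker : ∀ p : Polynomial (PowerSeries C), p.eval₂ j y = 0 →
      nodeP PowerSeries.X (PowerSeries.C t) b ∣ p)
    {H u : PowerSeries C} {G : C[X]} (HW : H.IsWeierstrassFactorization G u)
    (hH : PowerSeries.map (residue C) H ≠ 0) (a : C[X]) (c : Localization.Away y)
    (h : phi j y a = phi j y (gpr t b G) * c) : ∃ a' : C[X], a = gpr t b G * a' := by
  have hG : G.Monic := HW.isDistinguishedAt.monic
  obtain ⟨m, v, hv⟩ := IsLocalization.Away.surj y c
  set w : Localization.Away y := IsLocalization.Away.invSelf y with hw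
  set Y : Localization.Away y := algebraMap R' (Localization.Away y) y with hY
  have hwY : w * Y = 1 := wy y
  set e := G.natDegree with he
  set M := a.natDegree + e + m with hM
  have hMa : a.natDegree ≤ M := by omega
  have h1 : ((reflect M a).map PowerSeries.C).eval₂ j y =
      j (G : PowerSeries C) * (y ^ a.natDegree * v) := by
    apply away_inj y hy
    rw [phi_reflect j y a M hMa, h, phi_gpr t b j y hrel G, map_mul, map_mul, ← hv, map_pow,
      ← hw, ← hY, ← he]
    have h2 : Y ^ M = Y ^ a.natDegree * Y ^ e * Y ^ m := by rw [hM, pow_add, pow_add]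
    have h3 : Y ^ e * w ^ e = 1 := by rw [← mul_pow, mul_comm Y, hwY, one_pow]
    calc _ = Y ^ a.natDegree * (Y ^ e * w ^ e) * Y ^ m *
          algebraMap R' (Localization.Away y) (j (G : PowerSeries C)) * c := by rw [h2]; ring
      _ = _ := by rw [h3]; ring
  obtain ⟨p, hp⟩ := hgen (y ^ a.natDegree * v)
  have h2 := hker ((reflect M a).map PowerSeries.C - Polynomial.C (G : PowerSeries C) * p) (by
    rw [eval₂_sub, eval₂_mul, eval₂_C, h1, hp, sub_self])
  obtain ⟨q, hq⟩ := h2
  -- reduce modulo the equation
  set N : C[X][X] := nodeP (X : C[X]) (Polynomial.C t) b with hN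
  set N' : Polynomial (PowerSeries C) := nodeP (PowerSeries.X : PowerSeries C) (PowerSeries.C t) b
    with hN'
  have h3 : N' = N.map Polynomial.coeToPowerSeries.ringHom := by
    rw [hN, hN', node_map]
    simp
  have h4 : (reflect M a).map PowerSeries.C =
      ((reflect M a).map Polynomial.C).map Polynomial.coeToPowerSeries.ringHom := by
    rw [Polynomial.map_map]
    congr 1
    ext c
    simp
  have hNm : N.Monic := node_monic' _ _ _
  have hNm' : N'.Monic := node_monic' _ _ _
  have h5 : (((reflect M a).map Polynomial.C) %ₘ N).map Polynomial.coeToPowerSeries.ringHom =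
      Polynomial.C (G : PowerSeries C) * (p %ₘ N') := by
    rw [Polynomial.map_modByMonic _ hNm, ← h3, ← h4]
    have h6 : (reflect M a).map PowerSeries.C = Polynomial.C (G : PowerSeries C) * p + N' * q := by
      rw [← hq]; ring
    rw [h6, Polynomial.add_modByMonic, (Polynomial.modByMonic_eq_zero_iff_dvd hNm').2 (dvd_mul_right _ _),
      add_zero, ← Polynomial.smul_eq_C_mul, Polynomial.smul_modByMonic, Polynomial.smul_eq_C_mul]
  have h6 : Polynomial.C G ∣ ((reflect M a).map Polynomial.C) %ₘ N := by
    rw [Polynomial.C_dvd_iff_dvd_coeff]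
    intro i
    have h7 := congrArg (fun f => f.coeff i) h5
    simp only [Polynomial.coeff_map, Polynomial.coeff_C_mul] at h7
    obtain ⟨b', hb'⟩ := dvd_of_dvd_coe HW hH _ _ h7
    exact ⟨b', hb'⟩
  obtain ⟨r₂, hr₂⟩ := h6
  refine dvd_of_reduced t b G hG a M hMa r₂ (((reflect M a).map Polynomial.C) /ₘ N) ?_
  rw [← hr₂]
  exact (Polynomial.modByMonic_add_div _ _).symm

theorem phi_h1 [IsLocalRing C] [IsAdicComplete (maximalIdeal C) C] (hrel : y ^ b * (j PowerSeries.X - y) = j (PowerSeries.C t))
    (hgen : ∀ v : R', ∃ p : Polynomial (PowerSeries C), v = p.eval₂ j y)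
    {H u : PowerSeries C} {G : C[X]} (HW : H.IsWeierstrassFactorization G u)
    (hH : PowerSeries.map (residue C) H ≠ 0) (v : Localization.Away y) :
    ∃ (a : C[X]) (c : Localization.Away y), v = phi j y a + phi j y (gpr t b G) * c := by
  classical
  set w : Localization.Away y := IsLocalization.Away.invSelf y with hw
  set Y : Localization.Away y := algebraMap R' (Localization.Away y) y with hY
  have hwY : w * Y = 1 := wy y
  have hG : G.Monic := HW.isDistinguishedAt.monic
  let J : Ideal (Localization.Away y) := Ideal.span {phi j y (gpr t b G)}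
  let Sg : Subring (Localization.Away y ⧸ J) := ((Ideal.Quotient.mk J).comp (phi j y)).range
  have hC : ∀ c : C, Ideal.Quotient.mk J (algebraMap R' (Localization.Away y) (j (PowerSeries.C c))) ∈ Sg := by
    intro c
    refine ⟨Polynomial.C c, ?_⟩
    rw [RingHom.comp_apply, phi_apply, eval₂_C]
    rfl
  have hwS : Ideal.Quotient.mk J w ∈ Sg := by
    refine ⟨X, ?_⟩
    rw [RingHom.comp_apply, phi_apply, eval₂_X]
  have hYS : Ideal.Quotient.mk J Y ∈ Sg := by
    obtain ⟨F₁, hF⟩ := gpr_form t b G hG
    refine ⟨-F₁, ?_⟩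
    rw [RingHom.comp_apply]
    apply Ideal.Quotient.eq.2
    refine Ideal.mem_span_singleton.2 ⟨-Y, ?_⟩
    have h1 : phi j y X = w := by rw [phi_apply, eval₂_X]
    rw [hF, map_add, map_mul, map_one, map_neg, h1]
    linear_combination (phi j y F₁) * hwY
  have hsS : Ideal.Quotient.mk J (algebraMap R' (Localization.Away y) (j PowerSeries.X)) ∈ Sg := by
    have h1 := ws t b j y hrel
    have h2 : algebraMap R' (Localization.Away y) (j PowerSeries.X) =
        Y + (algebraMap R' (Localization.Away y) (j (PowerSeries.C t))) * w ^ b := by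
      have h3 : algebraMap R' (Localization.Away y) (j PowerSeries.X) = Y *
          (w * algebraMap R' (Localization.Away y) (j PowerSeries.X)) := by
        linear_combination (-algebraMap R' (Localization.Away y) (j PowerSeries.X)) * hwY
      rw [h3, h1]
      simp only [RingHom.comp_apply]
      linear_combination (w ^ b * algebraMap R' (Localization.Away y) (j (PowerSeries.C t))) * hwY
    rw [h2, map_add, map_mul, map_pow]
    exact Sg.add_mem hYS (Sg.mul_mem (hC t) (Sg.pow_mem hwS _))
  have hpol : ∀ r : C[X], Ideal.Quotient.mk J (algebraMap R' (Localization.Away y)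
      (j (r : PowerSeries C))) ∈ Sg := by
    intro r
    induction r using Polynomial.induction_on' with
    | add p q hp hq => 
      rw [Polynomial.coe_add, map_add, map_add, map_add]
      exact Sg.add_mem hp hq
    | monomial n c =>
      rw [← C_mul_X_pow_eq_monomial, Polynomial.coe_mul, Polynomial.coe_pow, Polynomial.coe_C,
        Polynomial.coe_X, map_mul, map_mul, map_mul, map_pow, map_pow, map_pow]
      exact Sg.mul_mem (hC c) (Sg.pow_mem hsS n)
  have hHJ : algebraMap R' (Localization.Away y) (j H) ∈ J := by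
    refine Ideal.mem_span_singleton.2 ⟨Y ^ G.natDegree *
      algebraMap R' (Localization.Away y) (j u), ?_⟩
    rw [phi_gpr t b j y hrel G, ← hw, HW.eq_mul, map_mul, map_mul]
    have h3 : w ^ G.natDegree * Y ^ G.natDegree = 1 := by rw [← mul_pow, hwY, one_pow]
    linear_combination (-algebraMap R' (Localization.Away y) (j (G : PowerSeries C)) *
      algebraMap R' (Localization.Away y) (j u)) * h3
  have hps : ∀ f : PowerSeries C, Ideal.Quotient.mk J (algebraMap R' (Localization.Away y)
      (j f)) ∈ Sg := by
    intro f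
    obtain ⟨q, r, hqr⟩ := PowerSeries.exists_isWeierstrassDivision (A := C) (g := H) f hH
    rw [hqr.eq_mul_add, map_add, map_mul, map_add, map_mul, map_add, map_mul,
      Ideal.Quotient.eq_zero_iff_mem.2 hHJ, zero_mul, zero_add]
    exact hpol r
  have hR : ∀ v : R', Ideal.Quotient.mk J (algebraMap R' (Localization.Away y) v) ∈ Sg := by
    intro v
    obtain ⟨p, rfl⟩ := hgen v
    induction p using Polynomial.induction_on' with
    | add p q hp hq =>
      rw [eval₂_add, map_add, map_add]
      exact Sg.add_mem hp hq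
    | monomial n c =>
      rw [eval₂_monomial, map_mul, map_mul, map_pow, map_pow]
      exact Sg.mul_mem (hps c) (Sg.pow_mem hYS n)
  obtain ⟨m, v₀, hv⟩ := IsLocalization.Away.surj y v
  have hvv : v = w ^ m * algebraMap R' (Localization.Away y) v₀ := by
    rw [← hv, ← hY]
    have h3 : w ^ m * Y ^ m = 1 := by rw [← mul_pow, hwY, one_pow]
    linear_combination (-v) * h3
  have hvS : Ideal.Quotient.mk J v ∈ Sg := by
    rw [hvv, map_mul, map_pow]
    exact Sg.mul_mem (Sg.pow_mem hwS m) (hR v₀)
  obtain ⟨a, ha⟩ := hvS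
  rw [RingHom.comp_apply] at ha
  obtain ⟨c, hc⟩ := Ideal.mem_span_singleton.1 (Ideal.Quotient.eq.1 ha.symm)
  exact ⟨a, c, by rw [← hc]; ring⟩

/-- The step: patching `C[w]` and `R[1/y]`. -/
theorem stepN [IsLocalRing C] [IsNoetherianRing C] [IsAdicComplete (maximalIdeal C) C]
    (hy : y ≠ 0)
    (hrel : y ^ b * (j PowerSeries.X - y) = j (PowerSeries.C t))
    (hgen : ∀ v : R', ∃ p : Polynomial (PowerSeries C), v = p.eval₂ j y)
    (hker : ∀ p : Polynomial (PowerSeries C), p.eval₂ j y = 0 →
      nodeP PowerSeries.X (PowerSeries.C t) b ∣ p)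
    (hBQ : PF C[X]) (k : ℕ) (H : PowerSeries C)
    (hH : PowerSeries.map (residue C) H ≠ 0)
    (P : Type u) [AddCommGroup P] [Module (Localization.Away y) P]
    [Module.Finite (Localization.Away y) P] [Module.Projective (Localization.Away y) P]
    (hb : HB (Localization.Away y) P k (algebraMap R' (Localization.Away y) (j H))) :
    Module.Free (Localization.Away y) P := by
  obtain ⟨G, u, HW⟩ := PowerSeries.exists_isWeierstrassFactorization (A := C) hH
  have hG : G.Monic := HW.isDistinguishedAt.monic
  have hdom : IsDomain (Localization.Away y) :=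
    IsLocalization.isDomain_localization (powers_le_nonZeroDivisors_of_noZeroDivisors hy)
  let : Algebra C[X] (Localization.Away y) := (phi j y).toAlgebra
  have hal : ∀ a : C[X], algebraMap C[X] (Localization.Away y) a = phi j y a := fun _ => rfl
  have hF0 : gpr t b G ≠ 0 := by
    obtain ⟨F₁, hF⟩ := gpr_form t b G hG
    intro h0
    rw [h0] at hF
    have h1 := congrArg (fun f => f.eval 0) hF
    simp at h1
  have hb' : HB (Localization.Away y) P k (algebraMap C[X] (Localization.Away y) (gpr t b G)) := by
    obtain ⟨b₀, hb1, hb2⟩ := hb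
    refine ⟨b₀, hb1, fun q => ?_⟩
    obtain ⟨v, hv⟩ := HW.isUnit.exists_right_inv
    have h1 : algebraMap C[X] (Localization.Away y) (gpr t b G) =
        (IsLocalization.Away.invSelf y ^ G.natDegree * algebraMap R' (Localization.Away y) (j v)) *
          algebraMap R' (Localization.Away y) (j H) := by
      rw [hal, phi_gpr t b j y hrel G]
      have h2 : (G : PowerSeries C) = v * H := by
        rw [HW.eq_mul]
        linear_combination (-(G : PowerSeries C)) * hv
      rw [h2, map_mul, map_mul]
      ring
    rw [h1, mul_smul]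
    exact Submodule.smul_mem _ _ (hb2 q)
  obtain ⟨P', _, _, hf, hp, -, hfree⟩ := patch (A := C[X]) (B := Localization.Away y) (gpr t b G) hF0
    (phi_inj t b j y hy hker)
    (fun v => phi_h1 t b j y hrel hgen HW hH v)
    (fun a c h => phi_h2 t b j y hy hrel hgen hker HW hH a c h) k P hb'
  exact hfree (hBQ P' hf hp)

end step

end Pool.Agent.QU54
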