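import Mathlib
import Pool.Agent.Lib.QU53.Main3
import Pool.Agent.Lib.QU54.Over
import Pool.Agent.Lib.QU54.Auto
import Pool.Agent.Lib.QU54.StepN

/-!
# Assembly, for the nodal extension
-/

set_option autoImplicit false

namespace Pool.Agent.QU54

open Polynomial IsLocalRing Pool.Agent.QU53 Pool.Agent.QU52

universe u

variable {A : Type u} [CommRing A] [IsRegularLocalRing A] [IsAdicComplete (maximalIdeal A) A]

/-- Freeness over `R[1/y]`. -/
theorem node_PF (hd : ringKrullDim A = 3) (t : A) (ht : t ∈ maximalIdeal A)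
    (ht2 : t ∉ maximalIdeal A ^ 2) (n b : ℕ) (hb : 0 < b)
    (hBQ : PF (Polynomial (MvPowerSeries (Fin n) A))) :
    PF (Localization.Away (yy (MvPowerSeries.X 0 : MvPowerSeries (Fin (n + 1)) A)
      (MvPowerSeries.C t) b)) := by
  classical
  obtain ⟨a, a', hm, htp, hI, ha, ha'⟩ := exists_rxy hd t ht ht2
  have hdomA : IsDomain A := BEH5.Reg.isDomain_of_regular 3 A (by exact_mod_cast hd)
  let B := MvPowerSeries (Fin (n + 1)) A
  have hBdom : IsDomain B := isDomain_mv A (n + 1)
  let s : B := MvPowerSeries.X 0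
  let T : B := MvPowerSeries.C t
  let R := NodeR s T b
  have hTp : Prime T := prime_C htp (n + 1)
  have hRdom : IsDomain R := node_isDomain hb (X_mem_max _ _) (C_mem_max _ ht _) hTp
  let y : R := yy s T b
  let x : R := oo s T b s - y
  have hy : Prime y := y_prime hb hTp
  let N : Ideal B := (maximalIdeal A).map (MvPowerSeries.C (σ := Fin (n + 1)) (R := A))
  have hNp : N.IsPrime := prime_mapC _ _
  have hTN : T ∈ N := Ideal.mem_map_of_mem MvPowerSeries.C ht
  have hsN : s ∉ N := by
    intro h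
    rw [mem_mapC, MvPowerSeries.map_X] at h
    have h1 := congrArg (MvPowerSeries.coeff (Finsupp.single (0 : Fin (n + 1)) 1)) h
    rw [MvPowerSeries.coeff_index_single_self_X, map_zero] at h1
    have : Nontrivial (A ⧸ maximalIdeal A) := Ideal.Quotient.nontrivial_iff.2
      (Ideal.IsPrime.ne_top inferInstance)
    exact one_ne_zero h1
  let q : Ideal R := RingHom.ker (rho (s := s) hb N hTN)
  let p : Ideal R := RingHom.ker (sig (s := s) (b := b) N hTN)
  have hq : q.IsPrime := ker_rho_prime hb N hTN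
  have hp : p.IsPrime := ker_sig_prime N hTN
  have hmk : Ideal.Quotient.mk N s ≠ 0 := fun h => hsN (Ideal.Quotient.eq_zero_iff_mem.1 h)
  have hyq : y ∈ q := rho_y hb N hTN
  have hyp : y ∉ p := by
    intro h
    apply hmk
    rw [← sig_y (s := s) (b := b) N hTN]
    exact h
  have hxp : x ∈ p := by
    show sig (s := s) (b := b) N hTN (oo s T b s - yy s T b) = 0
    rw [map_sub, sig_o, sig_y, sub_self]
  have hxq : x ∉ q := by
    intro h
    apply hmk
    have h1 : rho (s := s) hb N hTN (oo s T b s - yy s T b) = 0 := h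
    rw [map_sub, rho_o, rho_y, sub_zero] at h1
    exact h1
  let D := Localization.Away y
  have hinj : Function.Injective (algebraMap R D) := away_inj y hy.ne_zero
  have hDdom : IsDomain D :=
    IsLocalization.isDomain_localization (powers_le_nonZeroDivisors_of_noZeroDivisors hy.ne_zero)
  intro P _ _ hfin hproj
  -- at `q`
  have hG : PF (Localization (Algebra.algebraMapSubmonoid D q.primeCompl)) :=
    PF_swap y q (gab hd t ht ht2 n b hb)
  have h0 : (0 : D) ∉ Algebra.algebraMapSubmonoid D q.primeCompl := by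
    rintro ⟨z, hz, hz0⟩
    apply hz
    have : z = 0 := hinj (by rw [hz0, map_zero])
    rw [this]
    exact q.zero_mem
  obtain ⟨k, _, ⟨h₁, hh₁, rfl⟩, H1⟩ := exists_HB _ h0 P hG
  have hh₁q : h₁ ∉ q := hh₁
  have hh₁0 : h₁ ≠ 0 := fun h => hh₁q (by rw [h]; exact q.zero_mem)
  -- at `p`
  have hdisj : Disjoint (Submonoid.powers y : Set R) p := by
    rw [Set.disjoint_left]
    rintro _ ⟨m, rfl⟩ hm
    exact hyp (hp.mem_of_pow_mem m hm)
  have hp' : (p.map (algebraMap R D)).IsPrime :=
    IsLocalization.isPrime_of_isPrime_disjoint (Submonoid.powers y) D p hp hdisj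
  have hcm : (p.map (algebraMap R D)).comap (algebraMap R D) = p :=
    IsLocalization.comap_map_of_isPrime_disjoint (Submonoid.powers y) D hp hdisj
  obtain ⟨d, hdp, H2⟩ := exists_HB_prime
    (fun h => hh₁0 (hinj (by rw [h, map_zero]))) H1 (p.map (algebraMap R D))
  obtain ⟨m, h₂, hh₂⟩ := IsLocalization.Away.surj y d
  have hyD : algebraMap R D y ∉ p.map (algebraMap R D) := fun h => hyp (by
    rw [← hcm]
    exact h)
  have hh₂p : h₂ ∉ p := by
    intro h
    have h3 : d * algebraMap R D y ^ m ∈ p.map (algebraMap R D) := by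
      rw [hh₂]
      exact Ideal.mem_map_of_mem _ h
    rcases hp'.mem_or_mem h3 with h4 | h4
    · exact hdp h4
    · exact hyD (hp'.mem_of_pow_mem m h4)
  have H2' : HB D P k (algebraMap R D h₂) := by
    rw [← hh₂, mul_comm]
    exact HB.mul H2 _
  obtain ⟨h, hhq, hhp, H3⟩ := glue_HB D y x hinj q p hyq hyp hxp hxq P k h₁ h₂ hh₁q hh₂p H1 H2'
  obtain ⟨H, hHN, ⟨c, hc⟩⟩ := exists_over hb N hTN h hhq hhp
  have H4 : HB D P k (algebraMap R D (oo s T b H)) := by
    rw [hc, map_mul, mul_comm]
    exact HB.mul H3 _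
  have hH : MvPowerSeries.map (residue A) H ≠ 0 := fun h => hHN ((mem_mapC _ H).2 h)
  obtain ⟨τ, hτC, hτX, hτ⟩ := exists_auto' n H hH
  -- the change of variables
  let C' := MvPowerSeries (Fin n) A
  have hCdom : IsDomain C' := isDomain_mv A n
  have hCc : IsAdicComplete (maximalIdeal C') C' := adicComplete_mvPowerSeries n
  let ψ : B ≃+* PowerSeries C' := τ.trans (MvPowerSeries.finSuccEquiv A n).toRingEquiv
  have hψ : ∀ f, ψ f = MvPowerSeries.finSuccEquiv A n (τ f) := fun f => rfl
  have hψs : ψ s = PowerSeries.X := by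
    rw [hψ, hτX, MvPowerSeries.finSuccEquiv_X_zero]
  have hψT : ψ T = PowerSeries.C (MvPowerSeries.C t) := by
    rw [hψ, hτC, MvPowerSeries.finSuccEquiv_C]
  let j : PowerSeries C' →+* R := (oo s T b).comp ψ.symm.toRingHom
  have hj : ∀ f, j (ψ f) = oo s T b f := fun f => by
    show oo s T b (ψ.symm (ψ f)) = _
    rw [RingEquiv.symm_apply_apply]
  have hjc : j.comp ψ.toRingHom = oo s T b := RingHom.ext hj
  refine stepN (MvPowerSeries.C t) b j y hy.ne_zero ?_ ?_ ?_ hBQ k (ψ H) hτ P ?_
  · rw [← hψs, ← hψT, hj, hj]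
    exact rel s T b
  · intro v
    obtain ⟨p₀, rfl⟩ := AdjoinRoot.mk_surjective v
    refine ⟨p₀.map ψ.toRingHom, ?_⟩
    rw [eval₂_map, hjc, mk_eq]
  · intro f hf
    have h5 : (f.map ψ.symm.toRingHom).eval₂ (oo s T b) (yy s T b) = 0 := by
      rw [eval₂_map]
      exact hf
    rw [← mk_eq, AdjoinRoot.mk_eq_zero] at h5
    have h6 := Polynomial.map_dvd ψ.toRingHom h5
    rw [node_map, Polynomial.map_map] at h6
    have h7 : ψ.toRingHom.comp ψ.symm.toRingHom = RingHom.id _ := RingHom.ext fun f =>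
      RingEquiv.apply_symm_apply ψ f
    rw [h7, Polynomial.map_id] at h6
    have h8 : ψ.toRingHom s = PowerSeries.X := hψs
    have h9 : ψ.toRingHom T = PowerSeries.C (MvPowerSeries.C t) := hψT
    rw [h8, h9] at h6
    exact h6
  · rw [hj]
    exact H4

end Pool.Agent.QU54
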