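import Mathlib

/-!
# Theorem B, row B: `Λ[1/y]` is Euclidean, and its units lift
-/

set_option autoImplicit false

namespace Pool.Agent.QU54.BH

universe u

open Polynomial IsLocalRing

namespace RowB

/-- Krull intersection: divide by the largest power of `y` modulo `I`. -/
theorem krull_aux {Λ : Type u} [CommRing Λ] [IsLocalRing Λ] [IsNoetherianRing Λ] (I : Ideal Λ)
    (y : Λ) (hy : y ∈ maximalIdeal Λ) (x : Λ) (hx : x ∉ I) :
    ∃ (l : ℕ) (x1 : Λ), x - y ^ l * x1 ∈ I ∧ x1 ∉ I ⊔ Ideal.span {y} := by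
  classical
  have hex : ∃ i : ℕ, x ∉ I ⊔ Ideal.span {y ^ i} := by
    by_contra hcon
    push Not at hcon
    have hJ : Ideal.span {y} ≠ (⊤ : Ideal Λ) := by
      intro h
      have h1 : Ideal.span {y} ≤ maximalIdeal Λ :=
        (Ideal.span_singleton_le_iff_mem _).2 hy
      rw [h] at h1
      exact (IsLocalRing.maximalIdeal.isMaximal Λ).ne_top (top_le_iff.1 h1)
    have h2 := Ideal.iInf_pow_smul_eq_bot_of_isLocalRing (M := Λ ⧸ I) (Ideal.span {y}) hJ
    have h3 : (Ideal.Quotient.mk I x) ∈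
        (⨅ i : ℕ, Ideal.span {y} ^ i • (⊤ : Submodule Λ (Λ ⧸ I))) := by
      rw [Submodule.mem_iInf]
      intro i
      obtain ⟨p, hp, q, hq, hpq⟩ := Submodule.mem_sup.1 (hcon i)
      obtain ⟨w, rfl⟩ := Ideal.mem_span_singleton.1 hq
      have h4 : Ideal.Quotient.mk I x = (y ^ i) • (Ideal.Quotient.mk I w) := by
        rw [← hpq, map_add, Ideal.Quotient.eq_zero_iff_mem.2 hp, zero_add]
        rfl
      rw [h4, Ideal.span_singleton_pow]
      exact Submodule.smul_mem_smul (Ideal.mem_span_singleton_self _) trivial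
    rw [h2] at h3
    exact hx (Ideal.Quotient.eq_zero_iff_mem.1 h3)
  have h1 := Nat.find_spec hex
  have h2 : Nat.find hex ≠ 0 := by
    intro h0
    rw [h0] at h1
    apply h1
    rw [pow_zero, Ideal.span_singleton_one, sup_top_eq]
    trivial
  obtain ⟨l, hl⟩ := Nat.exists_eq_succ_of_ne_zero h2
  have h3 : x ∈ I ⊔ Ideal.span {y ^ l} := by
    have h4 := Nat.find_min hex (m := l) (by omega)
    exact not_not.1 h4
  rw [hl] at h1
  obtain ⟨p, hp, q, hq, hpq⟩ := Submodule.mem_sup.1 h3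
  obtain ⟨w, rfl⟩ := Ideal.mem_span_singleton.1 hq
  refine ⟨l, w, ?_, ?_⟩
  · rw [← hpq, add_sub_cancel_right]
    exact hp
  · intro hw
    obtain ⟨p', hp', q', hq', hpq'⟩ := Submodule.mem_sup.1 hw
    obtain ⟨w', rfl⟩ := Ideal.mem_span_singleton.1 hq'
    apply h1
    rw [← hpq, ← hpq']
    have h5 : p + y ^ l * (p' + y * w') = (p + y ^ l * p') + y ^ (l + 1) * w' := by ring
    rw [h5]
    exact Submodule.add_mem_sup (I.add_mem hp (I.mul_mem_left _ hp'))
      (Ideal.mul_mem_right _ _ (Ideal.mem_span_singleton_self _))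

/-- The elements outside `(y)`. -/
theorem ord_aux {Λ : Type u} [CommRing Λ] [IsLocalRing Λ] [IsNoetherianRing Λ]
    (y b : Λ) (hm : maximalIdeal Λ = Ideal.span {y, b}) (x : Λ) (hx : x ∉ Ideal.span {y}) :
    ∃ (n : ℕ) (v w : Λ), b ^ n = v * x + y * w ∧ x ∈ Ideal.span {b ^ n} ⊔ Ideal.span {y} := by
  have hb : b ∈ maximalIdeal Λ := by
    rw [hm]
    exact Ideal.subset_span (by simp)
  obtain ⟨l, x1, h1, h2⟩ := krull_aux (Ideal.span {y}) b hb x hx
  have h3 : IsUnit x1 := by
    by_contra h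
    apply h2
    have h4 : x1 ∈ maximalIdeal Λ := (mem_maximalIdeal x1).2 h
    rw [hm, Ideal.span_insert] at h4
    exact h4
  obtain ⟨v, hv⟩ := h3.exists_left_inv
  obtain ⟨w, hw⟩ := Ideal.mem_span_singleton.1 h1
  refine ⟨l, v, - (v * w), ?_, ?_⟩
  · have h5 : x = b ^ l * x1 + y * w := by rw [← hw]; ring
    rw [h5]
    calc b ^ l = b ^ l * 1 := by rw [mul_one]
      _ = b ^ l * (v * x1) := by rw [hv]
      _ = v * (b ^ l * x1 + y * w) + y * -(v * w) := by ring
  · have h5 : x = b ^ l * x1 + y * w := by rw [← hw]; ring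
    rw [h5]
    exact Submodule.add_mem_sup (Ideal.mul_mem_right _ _ (Ideal.mem_span_singleton_self _))
      (Ideal.mul_mem_right _ _ (Ideal.mem_span_singleton_self _))

/-- The Euclidean division, for any localization. -/
theorem euclid {Λ L : Type u} [CommRing Λ] [IsLocalRing Λ] [IsNoetherianRing Λ]
    (y b : Λ) (hm : maximalIdeal Λ = Ideal.span {y, b}) [CommRing L] [Algebra Λ L]
    [IsLocalization.Away y L] :
    ∃ N : L → ℕ, ∀ x a : L, a ≠ 0 → ∃ q, x - a * q = 0 ∨ N (x - a * q) < N a := by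
  classical
  have hy : y ∈ maximalIdeal Λ := by
    rw [hm]
    exact Ideal.subset_span (by simp)
  have hyu : IsUnit (algebraMap Λ L y) := IsLocalization.Away.algebraMap_isUnit y
  refine ⟨fun z => sInf {n | b ^ n ∈ (Ideal.span {z}).comap (algebraMap Λ L) ⊔ Ideal.span {y}},
    fun x a ha => ?_⟩
  set I : Ideal Λ := (Ideal.span {a}).comap (algebraMap Λ L) with hI
  -- the minimum is attained
  have hne : {n | b ^ n ∈ I ⊔ Ideal.span {y}}.Nonempty := by
    obtain ⟨n, a0, ha0⟩ := IsLocalization.Away.surj y a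
    have ha00 : a0 ≠ 0 := by
      rintro rfl
      rw [map_zero] at ha0
      exact ha ((hyu.pow n).mul_left_eq_zero.1 ha0)
    obtain ⟨l, a1, h1, h2⟩ := krull_aux ⊥ y hy a0 (by simpa using ha00)
    rw [Ideal.mem_bot, sub_eq_zero] at h1
    rw [bot_sup_eq] at h2
    obtain ⟨m, v, w, h3, -⟩ := ord_aux y b hm a1 h2
    refine ⟨m, ?_⟩
    change b ^ m ∈ I ⊔ Ideal.span {y}
    rw [h3]
    refine Submodule.add_mem_sup (I.mul_mem_left _ ?_)
      (Ideal.mul_mem_right _ _ (Ideal.mem_span_singleton_self _))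
    rw [hI, Ideal.mem_comap, Ideal.mem_span_singleton]
    obtain ⟨c, hc⟩ := (hyu.pow l).exists_left_inv
    refine ⟨c * algebraMap Λ L y ^ n, ?_⟩
    have h4 : algebraMap Λ L a0 = algebraMap Λ L y ^ l * algebraMap Λ L a1 := by
      rw [h1, map_mul, map_pow]
    calc algebraMap Λ L a1 = (c * algebraMap Λ L y ^ l) * algebraMap Λ L a1 := by
          rw [hc, one_mul]
      _ = c * (algebraMap Λ L y ^ l * algebraMap Λ L a1) := by ring
      _ = c * (a * algebraMap Λ L y ^ n) := by rw [← h4, ha0]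
      _ = a * (c * algebraMap Λ L y ^ n) := by ring
  have hmin : b ^ sInf {n | b ^ n ∈ I ⊔ Ideal.span {y}} ∈ I ⊔ Ideal.span {y} := Nat.sInf_mem hne
  obtain ⟨n, x0, hx0⟩ := IsLocalization.Away.surj y x
  obtain ⟨c, hc⟩ := (hyu.pow n).exists_left_inv
  by_cases hxI : x0 ∈ I
  · rw [hI, Ideal.mem_comap, Ideal.mem_span_singleton] at hxI
    obtain ⟨s, hs⟩ := hxI
    refine ⟨s * c, Or.inl ?_⟩
    have h1 : x = a * (s * c) := by
      calc x = x * (c * algebraMap Λ L y ^ n) := by rw [hc, mul_one]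
        _ = c * (x * algebraMap Λ L y ^ n) := by ring
        _ = a * (s * c) := by rw [hx0, hs]; ring
    rw [sub_eq_zero]
    exact h1
  · obtain ⟨l, x1, h1, h2⟩ := krull_aux I y hy x0 hxI
    rw [hI, Ideal.mem_comap, Ideal.mem_span_singleton] at h1
    obtain ⟨s, hs⟩ := h1
    obtain ⟨n', v, w, h3, h4⟩ := ord_aux y b hm x1
      (fun h => h2 ((le_sup_right : Ideal.span {y} ≤ I ⊔ Ideal.span {y}) h))
    refine ⟨s * c, Or.inr ?_⟩
    have hlt : n' < sInf {n | b ^ n ∈ I ⊔ Ideal.span {y}} := by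
      by_contra hcon
      push Not at hcon
      apply h2
      refine (sup_le ?_ le_sup_right : Ideal.span {b ^ n'} ⊔ Ideal.span {y} ≤
        I ⊔ Ideal.span {y}) h4
      rw [Ideal.span_singleton_le_iff_mem]
      obtain ⟨d, hd⟩ := Nat.exists_eq_add_of_le hcon
      rw [hd, pow_add]
      exact Ideal.mul_mem_right _ _ hmin
    refine lt_of_le_of_lt (Nat.sInf_le ?_) hlt
    change b ^ n' ∈ (Ideal.span {x - a * (s * c)}).comap (algebraMap Λ L) ⊔ Ideal.span {y}
    rw [h3]
    refine Submodule.add_mem_sup (Ideal.mul_mem_left _ _ ?_)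
      (Ideal.mul_mem_right _ _ (Ideal.mem_span_singleton_self _))
    rw [Ideal.mem_comap, Ideal.mem_span_singleton]
    obtain ⟨c', hc'⟩ := (hyu.pow l).exists_left_inv
    have h5 : x - a * (s * c) = c * (algebraMap Λ L y ^ l * algebraMap Λ L x1) := by
      have h6 : algebraMap Λ L x0 - algebraMap Λ L y ^ l * algebraMap Λ L x1 = a * s := by
        rw [← hs, map_sub, map_mul, map_pow]
      calc x - a * (s * c) = x * (c * algebraMap Λ L y ^ n) - (a * s) * c := by
            rw [hc]; ring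
        _ = c * (x * algebraMap Λ L y ^ n) - (a * s) * c := by ring
        _ = c * algebraMap Λ L x0 -
            (algebraMap Λ L x0 - algebraMap Λ L y ^ l * algebraMap Λ L x1) * c := by
            rw [hx0, h6]
        _ = c * (algebraMap Λ L y ^ l * algebraMap Λ L x1) := by ring
    refine ⟨c' * algebraMap Λ L y ^ n, ?_⟩
    rw [h5]
    calc algebraMap Λ L x1 = (c' * algebraMap Λ L y ^ l) * (c * algebraMap Λ L y ^ n) *
          algebraMap Λ L x1 := by rw [hc, hc']; ring
      _ = _ := by ring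

end RowB

/-- ROW B. `Λ` is a two-dimensional regular local ring with parameters `y, b`. -/
theorem euclid_away {Λ : Type u} [CommRing Λ] [IsDomain Λ] [IsLocalRing Λ] [IsNoetherianRing Λ]
    (y b : Λ) (hm : maximalIdeal Λ = Ideal.span {y, b}) (_hy : Prime y)
    (_hb : b ∉ Ideal.span {y}) :
    ∃ N : Localization.Away y → ℕ, ∀ x a : Localization.Away y, a ≠ 0 →
      ∃ q, x - a * q = 0 ∨ N (x - a * q) < N a :=
  RowB.euclid y b hm

/-- ROW B. Units of `Λ[1/y]` lift to units of `D[1/y]`. -/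
theorem units_lift {D Λ : Type u} [CommRing D] [IsDomain D] [IsLocalRing D] [CommRing Λ]
    [IsDomain Λ] [IsLocalRing Λ] [IsNoetherianRing Λ] (f : D →+* Λ) (hf : Function.Surjective f)
    (y : D) (hy : Prime (f y)) (π : Localization.Away y →+* Localization.Away (f y))
    (hπ : ∀ d : D, π (algebraMap D _ d) = algebraMap Λ _ (f d))
    (b : Localization.Away (f y)) (hb : IsUnit b) :
    ∃ t : Localization.Away y, IsUnit t ∧ π t = b := by
  have hyu : IsUnit (algebraMap D (Localization.Away y) y) :=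
    IsLocalization.Away.algebraMap_isUnit y
  have hfu : IsUnit (algebraMap Λ (Localization.Away (f y)) (f y)) :=
    IsLocalization.Away.algebraMap_isUnit (f y)
  have hinj : Function.Injective (algebraMap Λ (Localization.Away (f y))) :=
    IsLocalization.injective (Localization.Away (f y)) (M := Submonoid.powers (f y))
      (powers_le_nonZeroDivisors_of_noZeroDivisors hy.ne_zero)
  obtain ⟨n, b0, hb0⟩ := IsLocalization.Away.surj (f y) b
  obtain ⟨b', hb'⟩ := hb.exists_left_inv
  obtain ⟨m, c0, hc0⟩ := IsLocalization.Away.surj (f y) b'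
  have h1 : b0 * c0 = f y ^ (n + m) := by
    apply hinj
    rw [map_mul, ← hb0, ← hc0, map_pow]
    calc b * algebraMap Λ (Localization.Away (f y)) (f y) ^ n *
          (b' * algebraMap Λ (Localization.Away (f y)) (f y) ^ m)
        = (b' * b) * algebraMap Λ (Localization.Away (f y)) (f y) ^ (n + m) := by ring
      _ = _ := by rw [hb', one_mul]
  obtain ⟨i, -, ⟨u, hu⟩⟩ := (dvd_prime_pow hy (n + m)).1 ⟨c0, h1.symm⟩
  obtain ⟨d, hd⟩ := hf ((u⁻¹ : Λˣ) : Λ)
  have hdu : IsUnit d := by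
    by_contra hcon
    obtain ⟨d', hd'⟩ := hf (u : Λ)
    have h2 : f (1 - d * d') = 0 := by
      rw [map_sub, map_one, map_mul, hd, hd', Units.inv_mul, sub_self]
    have h3 : IsUnit (1 - d * d') := by
      rcases IsLocalRing.isUnit_or_isUnit_one_sub_self (d * d') with h4 | h4
      · exact absurd (isUnit_of_mul_isUnit_left h4) hcon
      · exact h4
    have h5 := h3.map f
    rw [h2] at h5
    exact not_isUnit_zero h5
  obtain ⟨c, hc⟩ := (hyu.pow n).exists_left_inv
  have hcu : IsUnit c := IsUnit.of_mul_eq_one _ hc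
  refine ⟨algebraMap D _ y ^ i * algebraMap D _ d * c,
    ((hyu.pow i).mul (hdu.map _)).mul hcu, ?_⟩
  apply (hfu.pow n).mul_left_injective
  change π _ * _ = b * _
  rw [hb0]
  have h6 : π c * algebraMap Λ (Localization.Away (f y)) (f y) ^ n = 1 := by
    rw [← hπ, ← map_pow, ← map_mul, hc, map_one]
  rw [map_mul, map_mul, map_pow, hπ, hπ, mul_assoc, h6, mul_one, hd, ← map_pow, ← map_mul, ← hu]
  congr 1
  rw [mul_assoc, Units.mul_inv, mul_one]

end Pool.Agent.QU54.BH
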