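import Mathlib
import Pool.Agent.Lib.QU54.DilRing

/-!
# The ring `D⟦c⟧/(γ - α c)`
-/

set_option autoImplicit false

namespace Pool.Agent.QU54.BH

open IsLocalRing Pool.Agent.QU53

universe u

/-- The ideal defining the blow-up `D⟦c⟧/(γ - α c)`. -/
noncomputable def blowIdeal {D : Type u} [CommRing D] (α γ : D) : Ideal (PowerSeries D) :=
  Ideal.span {PowerSeries.C γ - PowerSeries.X * PowerSeries.C α}

/-- `D⟦c⟧/(γ - α c)`. -/
abbrev Blow {D : Type u} [CommRing D] (α γ : D) : Type u := PowerSeries D ⧸ blowIdeal α γ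

/-- ROW D. -/
theorem blow_ring {D : Type u} [CommRing D] [IsRegularLocalRing D]
    [IsAdicComplete (maximalIdeal D) D] {d : ℕ} (hd : ringKrullDim D = ((d + 1 : ℕ) : WithBot ℕ∞))
    (y α γ : D) (hy : y ∈ maximalIdeal D) (hy2 : y ∉ maximalIdeal D ^ 2)
    (hα : α ∈ maximalIdeal D) (hγ : γ ∈ maximalIdeal D)
    (hγ2 : γ ∉ maximalIdeal D ^ 2 ⊔ Ideal.span {y, α}) :
    ∃ _ : IsRegularLocalRing (Blow α γ),
      IsAdicComplete (maximalIdeal (Blow α γ)) (Blow α γ) ∧
      ringKrullDim (Blow α γ) = ((d + 1 : ℕ) : WithBot ℕ∞) ∧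
      Ideal.Quotient.mk (blowIdeal α γ) (PowerSeries.C y) ∈ maximalIdeal (Blow α γ) ∧
      Ideal.Quotient.mk (blowIdeal α γ) (PowerSeries.C y) ∉ maximalIdeal (Blow α γ) ^ 2 := by
  obtain ⟨hE, hEd⟩ := regular_powerSeries D
  have hEc : IsAdicComplete (maximalIdeal (PowerSeries D)) (PowerSeries D) := adicMax8
  set θ : PowerSeries D := PowerSeries.C γ - PowerSeries.X * PowerSeries.C α with hθ
  have hθ0 : PowerSeries.constantCoeff θ = γ := by
    rw [hθ]
    simp
  have hle : maximalIdeal D ^ 2 ⊔ Ideal.span {y} ≤ maximalIdeal D ^ 2 ⊔ Ideal.span {y, α} :=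
    sup_le_sup_left (Ideal.span_mono
      (Set.singleton_subset_iff.2 (Set.mem_insert y {α}))) (maximalIdeal D ^ 2)
  have hγ3 : γ ∉ maximalIdeal D ^ 2 ⊔ Ideal.span {y} := fun h => hγ2 (hle h)
  have hθm : θ ∈ maximalIdeal (PowerSeries D) := by
    rw [hθ]
    exact sub_mem (ps_C_mem γ hγ) (Ideal.mul_mem_left _ _ (ps_C_mem α hα))
  have hθm2 : θ ∉ maximalIdeal (PowerSeries D) ^ 2 := by
    intro h
    have h1 := ps_coeff_zero_mem_sq _ h
    rw [hθ0] at h1
    exact hγ2 (Ideal.mem_sup_left h1)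
  obtain ⟨hreg, hdim⟩ := BEH5.Reg.quot_regular (n := d + 1) (by
    rw [hEd, hd]
    push_cast
    rfl) hθm hθm2
  have hreg' : IsRegularLocalRing (Blow α γ) := hreg
  have hmax : (maximalIdeal (Blow α γ)).comap (Ideal.Quotient.mk (blowIdeal α γ)) =
      maximalIdeal (PowerSeries D) :=
    IsLocalRing.eq_maximalIdeal
      (Ideal.comap_isMaximal_of_surjective _ Ideal.Quotient.mk_surjective)
  refine ⟨hreg', LCD.isAdicComplete_quotient _ _, hdim, ?_, ?_⟩
  · have h1 := ps_C_mem y hy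
    rw [← hmax] at h1
    exact h1
  · intro h
    have h1 : maximalIdeal (Blow α γ) =
        (maximalIdeal (PowerSeries D)).map (Ideal.Quotient.mk (blowIdeal α γ)) := by
      rw [← hmax, Ideal.map_comap_of_surjective _ Ideal.Quotient.mk_surjective]
    rw [h1, ← Ideal.map_pow] at h
    have h2 : PowerSeries.C y ∈ ((maximalIdeal (PowerSeries D) ^ 2).map
      (Ideal.Quotient.mk (blowIdeal α γ))).comap (Ideal.Quotient.mk (blowIdeal α γ)) := h
    rw [Ideal.comap_map_of_surjective _ Ideal.Quotient.mk_surjective,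
      ← RingHom.ker_eq_comap_bot, Ideal.mk_ker, blowIdeal, Submodule.mem_sup] at h2
    obtain ⟨s, hs, z, hz, hsz⟩ := h2
    obtain ⟨c, rfl⟩ := Ideal.mem_span_singleton.1 hz
    have h3 := congrArg (PowerSeries.constantCoeff) hsz
    rw [map_add, map_mul, PowerSeries.constantCoeff_C] at h3
    rw [← hθ, hθ0] at h3
    have h4 := ps_coeff_zero_mem_sq _ hs
    by_cases hc : IsUnit (PowerSeries.constantCoeff c)
    · obtain ⟨c', hc'⟩ := hc.exists_right_inv
      apply hγ3
      have h5 : γ = -c' * PowerSeries.constantCoeff s + y * c' := by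
        linear_combination c' * h3 - γ * hc'
      rw [h5]
      exact add_mem (Ideal.mem_sup_left (Ideal.mul_mem_left _ _ h4))
        (Ideal.mem_sup_right (Ideal.mul_mem_right _ _ (Ideal.mem_span_singleton_self y)))
    · apply hy2
      rw [← h3]
      refine add_mem h4 ?_
      rw [pow_two]
      exact Ideal.mul_mem_mul hγ ((mem_maximalIdeal _).2 hc)

end Pool.Agent.QU54.BH
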