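import Mathlib

/-!
Row E of the blow-up theorem: matrices over `B[X]` with a monic inverse up to a monic factor are
reduced, by row operations that lift to `T[X]`, to a monic multiple of the identity.
-/

set_option autoImplicit false

namespace Pool.Agent.QU54.BH

universe u

open Polynomial

namespace RowE

/-! ### the key lemma -/

section Key

variable {B : Type u} [CommRing B] [IsDomain B] {ι : Type*}

omit [IsDomain B] in
/-- one step of division -/
lemma step_div (N : B → ℕ)
    (hN : ∀ x a : B, a ≠ 0 → ∃ q : B, x - a * q = 0 ∨ N (x - a * q) < N a)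
    {g r : B[X]} (hg : g ≠ 0) (hr : g.natDegree < r.natDegree) :
    ∃ q : B[X], (r - q * g).natDegree < r.natDegree ∨
      (r - q * g ≠ 0 ∧ N (r - q * g).leadingCoeff < N g.leadingCoeff) := by
  have ha : g.leadingCoeff ≠ 0 := leadingCoeff_ne_zero.mpr hg
  obtain ⟨q0, hq0⟩ := hN r.leadingCoeff g.leadingCoeff ha
  obtain ⟨e, he⟩ : ∃ e : ℕ, r.natDegree = g.natDegree + e := ⟨r.natDegree - g.natDegree, by omega⟩
  refine ⟨C q0 * X ^ e, ?_⟩
  have hle : (C q0 * X ^ e * g).natDegree ≤ r.natDegree := by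
    refine natDegree_mul_le.trans ?_
    have := natDegree_C_mul_X_pow_le q0 e
    omega
  have hle' : (r - C q0 * X ^ e * g).natDegree ≤ r.natDegree :=
    (natDegree_sub_le _ _).trans (by omega)
  have hc : (r - C q0 * X ^ e * g).coeff r.natDegree = r.leadingCoeff - g.leadingCoeff * q0 := by
    rw [coeff_sub, mul_assoc, coeff_C_mul, he, coeff_X_pow_mul, ← he]
    show r.leadingCoeff - q0 * g.leadingCoeff = _
    ring
  by_cases h0 : r.leadingCoeff - g.leadingCoeff * q0 = 0
  · left
    rw [h0] at hc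
    rcases hle'.lt_or_eq with h | h
    · exact h
    · exfalso
      rw [← h] at hc
      have h1 : r - C q0 * X ^ e * g = 0 := leadingCoeff_eq_zero.mp hc
      rw [h1, natDegree_zero] at h
      omega
  · right
    have h1 : r - C q0 * X ^ e * g ≠ 0 := by
      intro h
      rw [h, coeff_zero] at hc
      exact h0 hc.symm
    have h2 : (r - C q0 * X ^ e * g).natDegree = r.natDegree :=
      natDegree_eq_of_le_of_coeff_ne_zero hle' (by rw [hc]; exact h0)
    refine ⟨h1, ?_⟩
    have h3 : (r - C q0 * X ^ e * g).leadingCoeff = r.leadingCoeff - g.leadingCoeff * q0 := by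
      rw [← hc, ← h2]
      rfl
    rw [h3]
    exact hq0.resolve_left h0

/-- remainders of small degree -/
lemma small_rem (N : B → ℕ)
    (hN : ∀ x a : B, a ≠ 0 → ∃ q : B, x - a * q = 0 ∨ N (x - a * q) < N a)
    {g : B[X]} (hg : g ≠ 0) (p : B[X])
    (hno : ∀ q : B[X], p - q * g = 0 ∨ ¬ N (p - q * g).leadingCoeff < N g.leadingCoeff) :
    ∀ n : ℕ, ∀ q : B[X], (p - q * g).natDegree ≤ n →
      ∃ q' : B[X], (p - q' * g).natDegree ≤ g.natDegree := by
  intro n
  induction n using Nat.strong_induction_on with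
  | _ n ih =>
    intro q hq
    by_cases h : (p - q * g).natDegree ≤ g.natDegree
    · exact ⟨q, h⟩
    · push Not at h
      obtain ⟨q1, hq1⟩ := step_div N hN hg h
      have e : p - q * g - q1 * g = p - (q + q1) * g := by ring
      rw [e] at hq1
      rcases hq1 with h1 | ⟨h1, h2⟩
      · exact ih (p - (q + q1) * g).natDegree (by omega) (q + q1) le_rfl
      · exact absurd h2 ((hno (q + q1)).resolve_left h1)

/-- **Key lemma.** -/
lemma key (N : B → ℕ)
    (hN : ∀ x a : B, a ≠ 0 → ∃ q : B, x - a * q = 0 ∨ N (x - a * q) < N a)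
    (f : ι → B[X]) (s : Set ι) (i0 : ι) (hg : f i0 ≠ 0)
    (hu : ¬ IsUnit (f i0).leadingCoeff) (h : B[X]) (hh : h.Monic)
    (hmem : h ∈ Ideal.span (f '' s)) :
    ∃ i ∈ s, i ≠ i0 ∧ ∃ (j : ℕ) (q : B[X]), X ^ j * f i - q * f i0 ≠ 0 ∧
      N (X ^ j * f i - q * f i0).leadingCoeff < N (f i0).leadingCoeff := by
  by_contra hcon
  push Not at hcon
  apply hu
  have h1 : ∀ i ∈ s, ∀ j : ℕ, ∃ q : B[X],
      (X ^ j * f i - q * f i0).natDegree ≤ (f i0).natDegree := by
    intro i hi j
    by_cases hii : i = i0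
    · refine ⟨X ^ j, ?_⟩
      rw [hii, sub_self, natDegree_zero]
      exact Nat.zero_le _
    · refine small_rem N hN hg (X ^ j * f i) ?_ _ 0 le_rfl
      intro q
      by_cases h2 : X ^ j * f i - q * f i0 = 0
      · exact Or.inl h2
      · exact Or.inr (not_lt.mpr (hcon i hi hii j q h2))
  have h2 : ∀ p ∈ Ideal.span (f '' s), ∃ M : ℕ, ∀ J : ℕ, ∃ q : B[X],
      (X ^ J * p - q * f i0).natDegree ≤ M := by
    intro p hp
    refine Submodule.span_induction (p := fun p _ => ∃ M : ℕ, ∀ J : ℕ, ∃ q : B[X],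
      (X ^ J * p - q * f i0).natDegree ≤ M) ?_ ?_ ?_ ?_ hp
    · rintro _ ⟨i, hi, rfl⟩
      exact ⟨_, h1 i hi⟩
    · exact ⟨0, fun J => ⟨0, by simp⟩⟩
    · rintro p1 p2 _ _ ⟨M1, hM1⟩ ⟨M2, hM2⟩
      refine ⟨max M1 M2, fun J => ?_⟩
      obtain ⟨q1, hq1⟩ := hM1 J
      obtain ⟨q2, hq2⟩ := hM2 J
      refine ⟨q1 + q2, ?_⟩
      have e : X ^ J * (p1 + p2) - (q1 + q2) * f i0
          = (X ^ J * p1 - q1 * f i0) + (X ^ J * p2 - q2 * f i0) := by ring
      rw [e]
      exact (natDegree_add_le _ _).trans (max_le_max hq1 hq2)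
    · rintro a p1 _ ⟨M1, hM1⟩
      refine ⟨a.natDegree + M1, fun J => ?_⟩
      obtain ⟨q1, hq1⟩ := hM1 J
      refine ⟨a * q1, ?_⟩
      have e : X ^ J * (a • p1) - a * q1 * f i0 = a * (X ^ J * p1 - q1 * f i0) := by
        rw [smul_eq_mul]
        ring
      rw [e]
      exact natDegree_mul_le.trans (by omega)
  obtain ⟨M, hM⟩ := h2 h hmem
  obtain ⟨q, hq⟩ := hM (M + 1)
  have hmon : (X ^ (M + 1) * h).Monic := (monic_X_pow _).mul hh
  have hdeg : M < (X ^ (M + 1) * h).natDegree := by
    rw [(monic_X_pow (M + 1)).natDegree_mul hh, natDegree_X_pow]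
    omega
  have h3 : (q * f i0).leadingCoeff = 1 := by
    have e : q * f i0 = X ^ (M + 1) * h - (X ^ (M + 1) * h - q * f i0) := by ring
    rw [e]
    rw [leadingCoeff_sub_of_degree_lt]
    · exact hmon
    · exact degree_lt_degree (by omega)
  rw [leadingCoeff_mul] at h3
  exact IsUnit.of_mul_eq_one _ (by rw [mul_comm]; exact h3)

end Key

/-! ### liftable row operations -/

section Ops

variable {T B : Type u} [CommRing T] [CommRing B] (π : T →+* B) {k : ℕ}

/-- matrices over `B[X]` with a lift to `T[X]` that is invertible up to a monic factor -/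
def Ok (G : Matrix (Fin k) (Fin k) B[X]) : Prop :=
  ∃ (G1 G1' : Matrix (Fin k) (Fin k) T[X]) (ν : T[X]), ν.Monic ∧
    G1' * G1 = ν • (1 : Matrix (Fin k) (Fin k) T[X]) ∧ G1.map (mapRingHom π) = G

/-- `E` is obtained from `D` by liftable row operations -/
def Red (D E : Matrix (Fin k) (Fin k) B[X]) : Prop :=
  ∃ G : Matrix (Fin k) (Fin k) B[X], Ok π G ∧ E = G * D

variable {π}

lemma Ok.mul {G F : Matrix (Fin k) (Fin k) B[X]} (hG : Ok π G) (hF : Ok π F) :
    Ok π (G * F) := by
  obtain ⟨G1, G1', ν, hν, h1, h2⟩ := hG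
  obtain ⟨F1, F1', μ, hμ, h3, h4⟩ := hF
  refine ⟨G1 * F1, F1' * G1', ν * μ, hν.mul hμ, ?_, ?_⟩
  · calc F1' * G1' * (G1 * F1) = F1' * (G1' * G1) * F1 := by simp only [Matrix.mul_assoc]
      _ = (ν * μ) • (1 : Matrix (Fin k) (Fin k) T[X]) := by
          rw [h1, Matrix.mul_smul, Matrix.mul_one, Matrix.smul_mul, h3, smul_smul]
  · rw [Matrix.map_mul, h2, h4]

lemma Ok.one : Ok π (1 : Matrix (Fin k) (Fin k) B[X]) :=
  ⟨1, 1, 1, monic_one, by rw [one_smul, Matrix.mul_one],
    Matrix.map_one _ (map_zero _) (map_one _)⟩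

lemma Red.refl (D : Matrix (Fin k) (Fin k) B[X]) : Red π D D :=
  ⟨1, Ok.one, (Matrix.one_mul D).symm⟩

lemma Red.trans {D E F : Matrix (Fin k) (Fin k) B[X]} (h1 : Red π D E) (h2 : Red π E F) :
    Red π D F := by
  obtain ⟨G, hG, rfl⟩ := h1
  obtain ⟨G', hG', rfl⟩ := h2
  exact ⟨G' * G, hG'.mul hG, (Matrix.mul_assoc _ _ _).symm⟩

lemma Red.congr {D E E' : Matrix (Fin k) (Fin k) B[X]} (h : Red π D E) (e : E = E') :
    Red π D E' := e ▸ h

/-- the matrix has a left inverse up to a monic factor -/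
def HasInv (D : Matrix (Fin k) (Fin k) B[X]) : Prop :=
  ∃ (D' : Matrix (Fin k) (Fin k) B[X]) (H : B[X]), H.Monic ∧
    D' * D = H • (1 : Matrix (Fin k) (Fin k) B[X])

lemma Red.hasInv {D E : Matrix (Fin k) (Fin k) B[X]} (h : Red π D E) (hD : HasInv D) :
    HasInv E := by
  obtain ⟨G, ⟨G1, G1', ν, hν, h1, rfl⟩, rfl⟩ := h
  obtain ⟨D', H, hH, h2⟩ := hD
  have h3 : G1'.map (mapRingHom π) * G1.map (mapRingHom π)
      = (ν.map π) • (1 : Matrix (Fin k) (Fin k) B[X]) := by
    rw [← Matrix.map_mul, h1]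
    ext1 i j
    rw [Matrix.map_apply, Matrix.smul_apply, Matrix.smul_apply, smul_eq_mul, smul_eq_mul, map_mul,
      coe_mapRingHom, Matrix.one_apply, Matrix.one_apply]
    split_ifs <;> simp
  refine ⟨D' * G1'.map (mapRingHom π), ν.map π * H, (hν.map π).mul hH, ?_⟩
  calc D' * G1'.map (mapRingHom π) * (G1.map (mapRingHom π) * D)
      = D' * (G1'.map (mapRingHom π) * G1.map (mapRingHom π)) * D := by
        simp only [Matrix.mul_assoc]
    _ = (ν.map π * H) • (1 : Matrix (Fin k) (Fin k) B[X]) := by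
        rw [h3, Matrix.mul_smul, Matrix.mul_one, Matrix.smul_mul, h2, smul_smul]

/-- adding a multiple of a row to another row -/
lemma Red.add (hπ : Function.Surjective π) (D : Matrix (Fin k) (Fin k) B[X]) {a b : Fin k}
    (hab : a ≠ b) (q : B[X]) :
    Red π D (fun i => if i = a then D a + q • D b else D i) := by
  obtain ⟨q1, hq1⟩ := Polynomial.map_surjective π hπ q
  refine ⟨Matrix.transvection a b q, ⟨Matrix.transvection a b q1, Matrix.transvection a b (-q1), 1,
    monic_one, ?_, ?_⟩, ?_⟩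
  · rw [Matrix.transvection_mul_transvection_same (h := hab), neg_add_cancel,
      Matrix.transvection_zero, one_smul]
  · ext1 i j
    simp only [Matrix.transvection, Matrix.map_apply, Matrix.add_apply, coe_mapRingHom,
      Polynomial.map_add, Matrix.one_apply, Matrix.single_apply]
    congr 1
    · split_ifs <;> simp
    · split_ifs <;> simp [hq1]
  · ext1 i j
    by_cases hi : i = a
    · subst hi
      rw [Matrix.transvection_mul_apply_same, if_pos rfl]
      rfl
    · rw [Matrix.transvection_mul_apply_of_ne _ _ _ _ hi, if_neg hi]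

/-- scaling rows, diagonal matrices -/
lemma Red.diag (D : Matrix (Fin k) (Fin k) B[X]) (v : Fin k → B[X]) (v1 w1 : Fin k → T[X])
    (ν : T[X]) (hν : ν.Monic) (h : ∀ i, w1 i * v1 i = ν) (hv : ∀ i, (v1 i).map π = v i) :
    Red π D (fun i => v i • D i) := by
  refine ⟨Matrix.diagonal v, ⟨Matrix.diagonal v1, Matrix.diagonal w1, ν, hν, ?_, ?_⟩, ?_⟩
  · rw [Matrix.diagonal_mul_diagonal]
    simp only [h]
    exact (Matrix.smul_one_eq_diagonal ν).symm
  · rw [Matrix.diagonal_map (map_zero _)]
    congr 1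
    funext i
    exact hv i
  · ext1 i j
    rw [Matrix.diagonal_mul]
    rfl

/-- scaling a row by a monic polynomial -/
lemma Red.scale [Nontrivial B] (hπ : Function.Surjective π) (D : Matrix (Fin k) (Fin k) B[X]) (a : Fin k)
    {μ : B[X]} (hμ : μ.Monic) :
    Red π D (fun i => if i = a then μ • D i else D i) := by
  obtain ⟨μ1, h1, -, h3⟩ := Polynomial.lifts_and_degree_eq_and_monic (f := π) (p := μ)
    ((Polynomial.mem_lifts _).mpr (Polynomial.map_surjective π hπ μ)) hμ
  have h := Red.diag (π := π) D (fun i => if i = a then μ else 1)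
    (fun i => if i = a then μ1 else 1) (fun i => if i = a then 1 else μ1) μ1 h3
    (fun i => by split_ifs <;> simp) (fun i => by
      by_cases hi : i = a
      · rw [if_pos hi, if_pos hi, h1]
      · rw [if_neg hi, if_neg hi, Polynomial.map_one])
  have e : (fun i => (if i = a then μ else 1) • D i) = fun i => if i = a then μ • D i else D i := by
    funext i
    by_cases hi : i = a
    · rw [if_pos hi, if_pos hi]
    · rw [if_neg hi, if_neg hi, one_smul]
  rw [e] at h
  exact h

/-- scaling a row by a unit constant -/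
lemma Red.unit (hu : ∀ b : B, IsUnit b → ∃ t : T, IsUnit t ∧ π t = b)
    (D : Matrix (Fin k) (Fin k) B[X]) (a : Fin k) {u : B} (h : IsUnit u) :
    Red π D (fun i => if i = a then C u • D i else D i) := by
  obtain ⟨t, ⟨t, rfl⟩, ht⟩ := hu u h
  have h := Red.diag (π := π) D (fun i => if i = a then C u else 1)
    (fun i => if i = a then C (t : T) else 1) (fun i => if i = a then C ((t⁻¹ : Tˣ) : T) else 1) 1
    monic_one
    (fun i => by
      split_ifs
      · rw [← C_mul, Units.inv_mul, C_1]
      · rw [one_mul]) (fun i => by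
      by_cases hi : i = a
      · rw [if_pos hi, if_pos hi, map_C, ht]
      · rw [if_neg hi, if_neg hi, Polynomial.map_one])
  have e : (fun i => (if i = a then C u else 1) • D i) = fun i => if i = a then C u • D i else D i := by
    funext i
    by_cases hi : i = a
    · rw [if_pos hi, if_pos hi]
    · rw [if_neg hi, if_neg hi, one_smul]
  rw [e] at h
  exact h

/-- sweeping a column with the row `b` -/
lemma Red.sweep [Nontrivial B] (hπ : Function.Surjective π) (D : Matrix (Fin k) (Fin k) B[X])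
    (b : Fin k) {μ : B[X]} (hμ : μ.Monic) (z : Fin k → B[X]) (t : Finset (Fin k)) (hb : b ∉ t) :
    Red π D (fun i => if i ∈ t then μ • D i - z i • D b else D i) := by
  induction t using Finset.induction_on with
  | empty =>
    have e : (fun i => if i ∈ (∅ : Finset (Fin k)) then μ • D i - z i • D b else D i) = D := by
      funext i
      simp
    rw [e]
    exact Red.refl D
  | insert a t ha ih =>
    rw [Finset.mem_insert, not_or] at hb
    obtain ⟨E, hE⟩ : ∃ E : Matrix (Fin k) (Fin k) B[X],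
        E = fun i => if i ∈ t then μ • D i - z i • D b else D i := ⟨_, rfl⟩
    have h1 := ih hb.2
    rw [← hE] at h1
    have h2 := Red.scale hπ E a hμ
    obtain ⟨F, hF⟩ : ∃ F : Matrix (Fin k) (Fin k) B[X],
        F = fun i => if i = a then μ • E i else E i := ⟨_, rfl⟩
    rw [← hF] at h2
    have h3 := Red.add hπ F (a := a) (b := b) (Ne.symm hb.1) (-(z a))
    refine (h1.trans (h2.trans h3)).congr ?_
    funext i
    have hFb : F b = D b := by
      rw [hF]
      simp only
      rw [if_neg hb.1, hE]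
      simp only
      rw [if_neg hb.2]
    by_cases hi : i = a
    · subst hi
      have hEi : E i = D i := by
        rw [hE]
        exact if_neg ha
      have hFi : F i = μ • D i := by
        rw [← hEi, hF]
        exact if_pos rfl
      rw [if_pos rfl, if_pos (Finset.mem_insert_self _ _), hFb, hFi, neg_smul, sub_eq_add_neg]
    · rw [if_neg hi, hF]
      simp only
      rw [if_neg hi, hE]
      simp only
      by_cases hit : i ∈ t
      · rw [if_pos hit, if_pos (Finset.mem_insert_of_mem hit)]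
      · rw [if_neg hit, if_neg]
        rw [Finset.mem_insert, not_or]
        exact ⟨hi, hit⟩

end Ops

/-! ### the reduction -/

section Main

variable {T B : Type u} [CommRing T] [CommRing B] [IsDomain B] {π : T →+* B} {k : ℕ}

/-- reduction inside a set of rows -/
def RedS (π : T →+* B) (s : Finset (Fin k)) (D E : Matrix (Fin k) (Fin k) B[X]) : Prop :=
  Red π D E ∧ (∀ j, j ∉ s → E j = D j) ∧
    ∀ a : Fin k, (∀ l ∈ s, D l a = 0) → ∀ j ∈ s, E j a = 0

omit [IsDomain B] in
lemma RedS.trans {s : Finset (Fin k)} {D E F : Matrix (Fin k) (Fin k) B[X]}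
    (h1 : RedS π s D E) (h2 : RedS π s E F) : RedS π s D F :=
  ⟨h1.1.trans h2.1, fun j hj => (h2.2.1 j hj).trans (h1.2.1 j hj),
    fun a ha => h2.2.2 a (h1.2.2 a ha)⟩

/-- **Euclid.** -/
lemma euclid (hπ : Function.Surjective π) (hu : ∀ b : B, IsUnit b → ∃ t : T, IsUnit t ∧ π t = b)
    (N : B → ℕ) (hN : ∀ x a : B, a ≠ 0 → ∃ q : B, x - a * q = 0 ∨ N (x - a * q) < N a)
    (s : Finset (Fin k)) (c : Fin k) :
    ∀ n : ℕ, ∀ D : Matrix (Fin k) (Fin k) B[X], ∀ i0 ∈ s, D i0 c ≠ 0 →
      N (D i0 c).leadingCoeff = n →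
      (∃ h ∈ Ideal.span ((fun j => D j c) '' (s : Set (Fin k))), h.Monic) →
      ∃ E, RedS π s D E ∧ ∃ i1 ∈ s, (E i1 c).Monic ∧ ∀ j ∈ s, j ≠ i1 → E j c = 0 := by
  intro n
  induction n using Nat.strong_induction_on with
  | _ n ih =>
    intro D i0 hi0 hne hn hex
    by_cases hunit : IsUnit (D i0 c).leadingCoeff
    · -- scale to a monic entry and sweep
      obtain ⟨u, hu1⟩ := hunit
      have h1 := Red.unit (π := π) hu D i0 (u := ((u⁻¹ : Bˣ) : B)) (Units.isUnit _)
      obtain ⟨E, hE⟩ : ∃ E : Matrix (Fin k) (Fin k) B[X],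
        E = fun i => if i = i0 then C ((u⁻¹ : Bˣ) : B) • D i else D i := ⟨_, rfl⟩
      rw [← hE] at h1
      have hEi0 : E i0 = C ((u⁻¹ : Bˣ) : B) • D i0 := by
        rw [hE]
        exact if_pos rfl
      have hEi : ∀ i, i ≠ i0 → E i = D i := by
        intro i hi
        rw [hE]
        exact if_neg hi
      have hmon : (E i0 c).Monic := by
        rw [hEi0, Pi.smul_apply, smul_eq_mul]
        show (C ((u⁻¹ : Bˣ) : B) * D i0 c).leadingCoeff = 1
        rw [leadingCoeff_mul, leadingCoeff_C, ← hu1, Units.inv_mul]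
      have h2 := Red.sweep hπ E i0 hmon (fun i => E i c) (s.erase i0) (Finset.notMem_erase _ _)
      refine ⟨_, ⟨h1.trans h2, ?_, ?_⟩, i0, hi0, ?_, ?_⟩
      · intro j hj
        have h3 : j ∉ s.erase i0 := fun h => hj (Finset.mem_of_mem_erase h)
        have h4 : j ≠ i0 := fun h => hj (h ▸ hi0)
        show (if j ∈ s.erase i0 then _ else E j) = D j
        rw [if_neg h3, hEi j h4]
      · intro a ha j hj
        have hz : ∀ l ∈ s, E l a = 0 := by
          intro l hl
          by_cases hli : l = i0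
          · rw [hli, hEi0, Pi.smul_apply, ha i0 hi0, smul_zero]
          · rw [hEi l hli, ha l hl]
        show (if j ∈ s.erase i0 then E i0 c • E j - E j c • E i0 else E j) a = 0
        split_ifs
        · rw [Pi.sub_apply, Pi.smul_apply, Pi.smul_apply, hz j hj, hz i0 hi0, smul_zero,
            smul_zero, sub_zero]
        · exact hz j hj
      · show ((if i0 ∈ s.erase i0 then _ else E i0) c).Monic
        rw [if_neg (Finset.notMem_erase _ _)]
        exact hmon
      · intro j hj hji
        show (if j ∈ s.erase i0 then E i0 c • E j - E j c • E i0 else E j) c = 0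
        rw [if_pos (Finset.mem_erase.mpr ⟨hji, hj⟩), Pi.sub_apply, Pi.smul_apply, Pi.smul_apply,
          smul_eq_mul, smul_eq_mul]
        ring
    · -- decrease the leading coefficient
      obtain ⟨h, hmem, hh⟩ := hex
      obtain ⟨i, hi, hii, j, q, hr, hlt⟩ := key N hN (fun j => D j c) (s : Set (Fin k)) i0 hne
        hunit h hh hmem
      have hi' : i ∈ s := hi
      have h1 := Red.scale hπ D i (monic_X_pow j)
      obtain ⟨E, hE⟩ : ∃ E : Matrix (Fin k) (Fin k) B[X],
        E = fun l => if l = i then (X ^ j : B[X]) • D l else D l := ⟨_, rfl⟩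
      rw [← hE] at h1
      have hEi : E i = (X ^ j : B[X]) • D i := by
        rw [hE]
        exact if_pos rfl
      have hEl : ∀ l, l ≠ i → E l = D l := by
        intro l hl
        rw [hE]
        exact if_neg hl
      have h2 := Red.add hπ E hii (-q)
      obtain ⟨F, hF⟩ : ∃ F : Matrix (Fin k) (Fin k) B[X],
        F = fun l => if l = i then E i + (-q) • E i0 else E l := ⟨_, rfl⟩
      rw [← hF] at h2
      have hFi : F i = (X ^ j : B[X]) • D i - q • D i0 := by
        rw [hF]
        show (if i = i then E i + (-q) • E i0 else E i) = _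
        rw [if_pos rfl, hEi, hEl i0 (Ne.symm hii), neg_smul, sub_eq_add_neg]
      have hFl : ∀ l, l ≠ i → F l = D l := by
        intro l hl
        rw [hF]
        show (if l = i then E i + (-q) • E i0 else E l) = _
        rw [if_neg hl, hEl l hl]
      have hFic : F i c = X ^ j * D i c - q * D i0 c := by
        rw [hFi, Pi.sub_apply, Pi.smul_apply, Pi.smul_apply, smul_eq_mul, smul_eq_mul]
      have hS : RedS π s D F := by
        refine ⟨h1.trans h2, ?_, ?_⟩
        · intro l hl
          exact hFl l fun h => hl (h ▸ hi')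
        · intro a ha l hl
          by_cases hli : l = i
          · rw [hli, hFi, Pi.sub_apply, Pi.smul_apply, Pi.smul_apply, ha i hi', ha i0 hi0,
              smul_zero, smul_zero, sub_zero]
          · rw [hFl l hli, ha l hl]
      have hex' : ∃ h ∈ Ideal.span ((fun l => F l c) '' (s : Set (Fin k))), h.Monic := by
        refine ⟨X ^ j * h, ?_, (monic_X_pow j).mul hh⟩
        have hF0 : D i0 c ∈ Ideal.span ((fun l => F l c) '' (s : Set (Fin k))) := by
          rw [← hFl i0 (Ne.symm hii)]
          exact Ideal.subset_span ⟨i0, hi0, rfl⟩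
        refine Submodule.span_induction (p := fun p _ => X ^ j * p ∈
          Ideal.span ((fun l => F l c) '' (s : Set (Fin k)))) ?_ ?_ ?_ ?_ hmem
        · rintro _ ⟨l, hl, rfl⟩
          simp only
          by_cases hli : l = i
          · have e : X ^ j * D l c = F i c + q * D i0 c := by
              rw [hFic, hli]
              ring
            rw [e]
            exact Ideal.add_mem _ (Ideal.subset_span ⟨i, hi, rfl⟩) (Ideal.mul_mem_left _ _ hF0)
          · refine Ideal.mul_mem_left _ _ (Ideal.subset_span ⟨l, hl, ?_⟩)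
            simp only
            rw [hFl l hli]
        · rw [mul_zero]
          exact Ideal.zero_mem _
        · intro x y _ _ hx hy
          rw [mul_add]
          exact Ideal.add_mem _ hx hy
        · intro a x _ hx
          rw [smul_eq_mul, mul_left_comm]
          exact Ideal.mul_mem_left _ _ hx
      obtain ⟨G, hG, hG2⟩ := ih (N (F i c).leadingCoeff) (by
        rw [hFic, ← hn]
        exact hlt) F i hi' (by
        rw [hFic]
        exact hr) rfl hex'
      exact ⟨G, hS.trans hG, hG2⟩

/-- Euclid, with the pivot in a given row -/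
lemma euclid' (hπ : Function.Surjective π) (hu : ∀ b : B, IsUnit b → ∃ t : T, IsUnit t ∧ π t = b)
    (N : B → ℕ) (hN : ∀ x a : B, a ≠ 0 → ∃ q : B, x - a * q = 0 ∨ N (x - a * q) < N a)
    (s : Finset (Fin k)) (c i : Fin k) (hi : i ∈ s) (D : Matrix (Fin k) (Fin k) B[X])
    (hex : ∃ h ∈ Ideal.span ((fun j => D j c) '' (s : Set (Fin k))), h.Monic) :
    ∃ E, RedS π s D E ∧ (E i c).Monic ∧ ∀ j ∈ s, j ≠ i → E j c = 0 := by
  obtain ⟨i0, hi0, hne⟩ : ∃ i0 ∈ s, D i0 c ≠ 0 := by
    by_contra hcon
    push Not at hcon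
    obtain ⟨h, hmem, hh⟩ := hex
    have h1 : Ideal.span ((fun j => D j c) '' (s : Set (Fin k))) ≤ ⊥ := by
      rw [Ideal.span_le]
      rintro _ ⟨j, hj, rfl⟩
      exact hcon j hj
    exact hh.ne_zero (h1 hmem)
  obtain ⟨E, hE, i1, hi1, hm, hz⟩ := euclid hπ hu N hN s c _ D i0 hi0 hne rfl hex
  by_cases h : i1 = i
  · subst h
    exact ⟨E, hE, hm, hz⟩
  · -- move the pivot
    have h1 := Red.add hπ E (a := i) (b := i1) (Ne.symm h) 1
    obtain ⟨F, hF⟩ : ∃ F : Matrix (Fin k) (Fin k) B[X],
        F = fun l => if l = i then E i + (1 : B[X]) • E i1 else E l := ⟨_, rfl⟩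
    rw [← hF] at h1
    have hFi : F i = E i + E i1 := by
      rw [hF]
      show (if i = i then E i + (1 : B[X]) • E i1 else E i) = _
      rw [if_pos rfl, one_smul]
    have hFl : ∀ l, l ≠ i → F l = E l := by
      intro l hl
      rw [hF]
      exact if_neg hl
    have h2 := Red.add hπ F (a := i1) (b := i) h (-1)
    obtain ⟨G, hG⟩ : ∃ G : Matrix (Fin k) (Fin k) B[X],
        G = fun l => if l = i1 then F i1 + (-1 : B[X]) • F i else F l := ⟨_, rfl⟩
    rw [← hG] at h2
    have hGi1 : G i1 = -E i := by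
      rw [hG]
      show (if i1 = i1 then F i1 + (-1 : B[X]) • F i else F i1) = _
      rw [if_pos rfl, hFl i1 h, hFi, neg_smul, one_smul]
      abel
    have hGl : ∀ l, l ≠ i1 → G l = F l := by
      intro l hl
      rw [hG]
      exact if_neg hl
    refine ⟨G, hE.trans ⟨h1.trans h2, ?_, ?_⟩, ?_, ?_⟩
    · intro j hj
      rw [hGl j (fun e => hj (e ▸ hi1)), hFl j (fun e => hj (e ▸ hi))]
    · intro a ha j hj
      by_cases hj1 : j = i1
      · rw [hj1, hGi1, Pi.neg_apply, ha i hi, neg_zero]
      · rw [hGl j hj1]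
        by_cases hj2 : j = i
        · rw [hj2, hFi, Pi.add_apply, ha i hi, ha i1 hi1, add_zero]
        · rw [hFl j hj2, ha j hj]
    · rw [hGl i (Ne.symm h), hFi, Pi.add_apply, hz i hi (Ne.symm h), zero_add]
      exact hm
    · intro j hj hji
      by_cases hj1 : j = i1
      · rw [hj1, hGi1, Pi.neg_apply, hz i hi (Ne.symm h), neg_zero]
      · rw [hGl j hj1, hFl j hji, hz j hj hj1]

/-- the columns `< i` are reduced -/
lemma loop (hπ : Function.Surjective π) (hu : ∀ b : B, IsUnit b → ∃ t : T, IsUnit t ∧ π t = b)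
    (N : B → ℕ) (hN : ∀ x a : B, a ≠ 0 → ∃ q : B, x - a * q = 0 ∨ N (x - a * q) < N a)
    (D : Matrix (Fin k) (Fin k) B[X]) (hD : HasInv D) (n : ℕ) (hn : n ≤ k) :
    ∃ (E : Matrix (Fin k) (Fin k) B[X]) (m : B[X]), Red π D E ∧ m.Monic ∧
      ∀ a : Fin k, (a : ℕ) < n → ∀ j, E j a = if j = a then m else 0 := by
  induction n with
  | zero => exact ⟨D, 1, Red.refl D, monic_one, fun a ha => absurd ha (Nat.not_lt_zero _)⟩
  | succ n ih =>
    obtain ⟨E, m, hE, hm, hcol⟩ := ih (by omega)
    obtain ⟨i, hi⟩ : ∃ i : Fin k, (i : ℕ) = n := ⟨⟨n, by omega⟩, rfl⟩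
    obtain ⟨E', H, hH, hinv⟩ := hE.hasInv hD
    obtain ⟨s, hs⟩ : ∃ s : Finset (Fin k), s = Finset.univ.filter fun j : Fin k => n ≤ (j : ℕ) :=
      ⟨_, rfl⟩
    have hms : ∀ j : Fin k, j ∈ s ↔ n ≤ (j : ℕ) := by
      intro j
      rw [hs, Finset.mem_filter]
      simp
    have hzero : ∀ a : Fin k, (a : ℕ) < n → E' i a = 0 := by
      intro a ha
      have h1 : (E' * E) i a = 0 := by
        rw [hinv, Matrix.smul_apply, Matrix.one_apply_ne, smul_zero]
        intro h
        rw [← h] at ha
        omega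
      rw [Matrix.mul_apply, Finset.sum_eq_single a] at h1
      · rw [hcol a ha a, if_pos rfl] at h1
        exact (mul_eq_zero.mp h1).resolve_right hm.ne_zero
      · intro j _ hj
        rw [hcol a ha j, if_neg hj, mul_zero]
      · intro h
        exact absurd (Finset.mem_univ a) h
    have hmem : H ∈ Ideal.span ((fun j => E j i) '' (s : Set (Fin k))) := by
      have h1 : (E' * E) i i = H := by
        rw [hinv, Matrix.smul_apply, Matrix.one_apply_eq, smul_eq_mul, mul_one]
      rw [← h1, Matrix.mul_apply]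
      refine Ideal.sum_mem _ fun j _ => ?_
      by_cases hj : j ∈ s
      · exact Ideal.mul_mem_left _ _ (Ideal.subset_span ⟨j, hj, rfl⟩)
      · rw [hms] at hj
        rw [hzero j (by omega), zero_mul]
        exact Ideal.zero_mem _
    obtain ⟨F, ⟨hF1, hF2, hF3⟩, hFm, hFz⟩ := euclid' hπ hu N hN s i i ((hms i).mpr hi.ge) E
      ⟨H, hmem, hH⟩
    have hFcol : ∀ a : Fin k, (a : ℕ) < n → ∀ j, F j a = if j = a then m else 0 := by
      intro a ha j
      by_cases hj : j ∈ s
      · have h1 : F j a = 0 := by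
          refine hF3 a (fun l hl => ?_) j hj
          rw [hcol a ha l, if_neg]
          rintro rfl
          rw [hms] at hl
          omega
        rw [h1, if_neg]
        rintro rfl
        rw [hms] at hj
        omega
      · rw [hF2 j hj, hcol a ha j]
    -- clear the column above the pivot
    obtain ⟨t, ht⟩ : ∃ t : Finset (Fin k), t = Finset.univ.filter fun j : Fin k => (j : ℕ) < n :=
      ⟨_, rfl⟩
    have hmt : ∀ j : Fin k, j ∈ t ↔ (j : ℕ) < n := by
      intro j
      rw [ht, Finset.mem_filter]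
      simp
    have hit : i ∉ t := by rw [hmt]; omega
    have h2 := Red.sweep hπ F i hFm (fun j => F j i) t hit
    obtain ⟨G, hG⟩ : ∃ G : Matrix (Fin k) (Fin k) B[X],
        G = fun l => if l ∈ t then F i i • F l - F l i • F i else F l := ⟨_, rfl⟩
    rw [← hG] at h2
    have hGt : ∀ l, l ∈ t → G l = F i i • F l - F l i • F i := by
      intro l hl
      rw [hG]
      exact if_pos hl
    have hGn : ∀ l, l ∉ t → G l = F l := by
      intro l hl
      rw [hG]
      exact if_neg hl
    have h3 := Red.scale hπ G i hm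
    obtain ⟨K, hK⟩ : ∃ K : Matrix (Fin k) (Fin k) B[X],
        K = fun l => if l = i then m • G l else G l := ⟨_, rfl⟩
    rw [← hK] at h3
    have hKi : K i = m • F i := by
      rw [hK]
      show (if i = i then m • G i else G i) = _
      rw [if_pos rfl, hGn i hit]
    have hKl : ∀ l, l ≠ i → K l = G l := by
      intro l hl
      rw [hK]
      exact if_neg hl
    refine ⟨K, F i i * m, hE.trans (hF1.trans (h2.trans h3)), hFm.mul hm, ?_⟩
    intro a ha j
    rcases Nat.lt_succ_iff_lt_or_eq.mp ha with ha | ha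
    · -- an old column
      by_cases hji : j = i
      · have hai : i ≠ a := by
          rintro rfl
          omega
        rw [hji, hKi, Pi.smul_apply, hFcol a ha i, if_neg hai, if_neg hai, smul_zero]
      · rw [hKl j hji]
        by_cases hjt : j ∈ t
        · have hai : i ≠ a := by
            rintro rfl
            omega
          rw [hGt j hjt, Pi.sub_apply, Pi.smul_apply, Pi.smul_apply, hFcol a ha j, hFcol a ha i,
            if_neg hai, smul_zero, sub_zero, smul_eq_mul]
          split_ifs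
          · rfl
          · rw [mul_zero]
        · have hja : j ≠ a := by
            rintro rfl
            exact hjt ((hmt j).mpr ha)
          rw [hGn j hjt, hFcol a ha j, if_neg hja, if_neg hja]
    · -- the new column
      have hai : a = i := by
        apply Fin.ext
        omega
      subst hai
      by_cases hji : j = a
      · subst hji
        rw [if_pos rfl, hKi, Pi.smul_apply, smul_eq_mul, mul_comm]
      · rw [if_neg hji, hKl j hji]
        by_cases hjt : j ∈ t
        · rw [hGt j hjt, Pi.sub_apply, Pi.smul_apply, Pi.smul_apply, smul_eq_mul, smul_eq_mul]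
          ring
        · rw [hGn j hjt]
          refine hFz j ((hms j).mpr ?_) hji
          rw [hmt] at hjt
          omega

end Main

end RowE

/-- ROW E. -/
theorem gl_lift {T B : Type u} [CommRing T] [CommRing B] [IsDomain B] (π : T →+* B)
    (hπ : Function.Surjective π) (hu : ∀ b : B, IsUnit b → ∃ t : T, IsUnit t ∧ π t = b)
    (N : B → ℕ)
    (hN : ∀ x a : B, a ≠ 0 → ∃ q : B, x - a * q = 0 ∨ N (x - a * q) < N a)
    {k : ℕ} (D D' : Matrix (Fin k) (Fin k) B[X]) (H : B[X]) (hH : H.Monic)
    (hD : D' * D = H • (1 : Matrix (Fin k) (Fin k) B[X])) :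
    ∃ (G G' : Matrix (Fin k) (Fin k) T[X]) (ν : T[X]) (m : B[X]), ν.Monic ∧ m.Monic ∧
      G' * G = ν • (1 : Matrix (Fin k) (Fin k) T[X]) ∧
      G.map (Polynomial.mapRingHom π) * D = m • (1 : Matrix (Fin k) (Fin k) B[X]) := by
  obtain ⟨E, m, ⟨F, ⟨G, G', ν, hν, h1, rfl⟩, rfl⟩, hm, hcol⟩ :=
    RowE.loop hπ hu N hN D ⟨D', H, hH, hD⟩ k le_rfl
  refine ⟨G, G', ν, m, hν, hm, h1, ?_⟩
  ext1 i j
  rw [hcol j j.2 i, Matrix.smul_apply, Matrix.one_apply, smul_eq_mul]
  split_ifs
  · rw [mul_one]
  · rw [mul_zero]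

end Pool.Agent.QU54.BH
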