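import Mathlib
import Pool.Agent.Lib.QU54.DilMain
import Pool.Agent.Lib.QU54.DilRing

/-!
# Blow-ups: parameters
-/

set_option autoImplicit false

namespace Pool.Agent.QU54.BH

universe u

open IsLocalRing Pool.Agent.QU53

/-- `D/I` is a regular local ring of dimension `n`. -/
def Qr {D : Type u} [CommRing D] (I : Ideal D) (n : ℕ) : Prop :=
  ∃ (A : Type u) (_ : CommRing A) (_ : IsRegularLocalRing A) (φ : D →+* A),
    Function.Surjective φ ∧ RingHom.ker φ = I ∧ ringKrullDim A = (n : WithBot ℕ∞)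

theorem Qr.prime {D : Type u} [CommRing D] {I : Ideal D} {n : ℕ} (h : Qr I n) : I.IsPrime := by
  obtain ⟨A, _, _, φ, hs, rfl, hd⟩ := h
  have := BEH5.Reg.isDomain_of_regular n A hd
  exact RingHom.ker_isPrime φ

theorem comap_max {D A : Type u} [CommRing D] [IsLocalRing D] [CommRing A] [IsLocalRing A]
    (φ : D →+* A) (hs : Function.Surjective φ) : (maximalIdeal A).comap φ = maximalIdeal D :=
  IsLocalRing.eq_maximalIdeal (Ideal.comap_isMaximal_of_surjective _ hs)

theorem map_max {D A : Type u} [CommRing D] [IsLocalRing D] [CommRing A] [IsLocalRing A]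
    (φ : D →+* A) (hs : Function.Surjective φ) : maximalIdeal A = (maximalIdeal D).map φ := by
  rw [← comap_max φ hs, Ideal.map_comap_of_surjective _ hs]

theorem mem_sq {D A : Type u} [CommRing D] [IsLocalRing D] [CommRing A] [IsLocalRing A]
    (φ : D →+* A) (hs : Function.Surjective φ) (x : D) :
    φ x ∈ maximalIdeal A ^ 2 ↔ x ∈ maximalIdeal D ^ 2 ⊔ RingHom.ker φ := by
  rw [map_max φ hs, ← Ideal.map_pow, ← Ideal.mem_comap, Ideal.comap_map_of_surjective _ hs,
    ← RingHom.ker_eq_comap_bot]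

theorem Qr.step {D : Type u} [CommRing D] [IsLocalRing D] {I : Ideal D} {n : ℕ}
    (h : Qr I (n + 1)) {x : D} (hx : x ∈ maximalIdeal D) (hx2 : x ∉ maximalIdeal D ^ 2 ⊔ I) :
    Qr (I ⊔ Ideal.span {x}) n := by
  obtain ⟨A, _, _, φ, hs, rfl, hd⟩ := h
  have h1 : φ x ∈ maximalIdeal A := by
    rw [← comap_max φ hs] at hx
    exact hx
  have h2 : φ x ∉ maximalIdeal A ^ 2 := by rwa [mem_sq φ hs]
  obtain ⟨hreg, hdim⟩ := BEH5.Reg.quot_regular (n := n) hd h1 h2
  refine ⟨A ⧸ Ideal.span {φ x}, inferInstance, hreg, (Ideal.Quotient.mk _).comp φ,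
    Ideal.Quotient.mk_surjective.comp hs, ?_, hdim⟩
  rw [RingHom.ker_eq_comap_bot, ← Ideal.comap_comap, ← RingHom.ker_eq_comap_bot, Ideal.mk_ker,
    ← Set.image_singleton, ← Ideal.map_span, Ideal.comap_map_of_surjective _ hs,
    ← RingHom.ker_eq_comap_bot, sup_comm]

theorem Qr.last {D : Type u} [CommRing D] [IsLocalRing D] {I : Ideal D}
    (h : Qr I 1) : ∃ x ∈ maximalIdeal D, maximalIdeal D = I ⊔ Ideal.span {x} ∧ x ∉ I := by
  have h0 := h
  obtain ⟨A, _, _, φ, hs, rfl, hd⟩ := h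
  have hfg : (maximalIdeal A).FG := (isNoetherianRing_iff_ideal_fg A).1 inferInstance _
  have h1 : (maximalIdeal A) ≠ ⊥ := by
    intro h
    have h2 := IsRegularLocalRing.spanFinrank_maximalIdeal (R := A)
    rw [hd, h, Submodule.spanFinrank_bot] at h2
    exact absurd h2 (by norm_num)
  obtain ⟨z, hz, hz2⟩ : ∃ z ∈ maximalIdeal A, z ∉ maximalIdeal A ^ 2 := by
    by_contra hcon
    push Not at hcon
    apply h1
    refine Submodule.eq_bot_of_le_smul_of_le_jacobson_bot (maximalIdeal A) _ hfg ?_ ?_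
    · intro z hz
      rw [smul_eq_mul, ← pow_two]
      exact hcon z hz
    · rw [IsLocalRing.jacobson_eq_maximalIdeal _ bot_ne_top]
  obtain ⟨x, rfl⟩ := hs z
  have hx : x ∈ maximalIdeal D := by rw [← comap_max φ hs]; exact hz
  have hx2 : x ∉ maximalIdeal D ^ 2 ⊔ RingHom.ker φ := by rwa [mem_sq φ hs] at hz2
  refine ⟨x, hx, ?_, fun h => hx2 (Ideal.mem_sup_right h)⟩
  obtain ⟨A', _, _, φ', hs', hk, hd'⟩ := h0.step hx hx2
  have h3 : maximalIdeal A' = ⊥ := by
    have h2 := IsRegularLocalRing.spanFinrank_maximalIdeal (R := A')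
    rw [hd'] at h2
    have h4 : (maximalIdeal A').spanFinrank = 0 := by exact_mod_cast h2
    rwa [Submodule.spanFinrank_eq_zero_iff_eq_bot
      ((isNoetherianRing_iff_ideal_fg A').1 inferInstance _)] at h4
  rw [← hk, ← comap_max φ' hs', h3, RingHom.ker_eq_comap_bot]

/-- Parameters for the blow-up. -/
theorem params {D : Type u} [CommRing D] [IsRegularLocalRing D]
    (hd : ringKrullDim D = 4) (y α γ : D)
    (hy : y ∈ maximalIdeal D) (hy2 : y ∉ maximalIdeal D ^ 2)
    (hα : α ∈ maximalIdeal D) (hα2 : α ∉ maximalIdeal D ^ 2 ⊔ Ideal.span {y})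
    (hγ : γ ∈ maximalIdeal D) (hγ2 : γ ∉ maximalIdeal D ^ 2 ⊔ Ideal.span {y, α}) :
    (Ideal.span {α, γ}).IsPrime ∧ (Ideal.span {α, γ, y}).IsPrime ∧ y ∉ Ideal.span {α, γ} ∧
      α ∉ Ideal.span {y, γ} ∧ Prime γ ∧ ¬ γ ∣ α ∧ ¬ γ ∣ y ∧
      ∃ β ∈ maximalIdeal D, maximalIdeal D = Ideal.span {α, γ, y, β} ∧
        β ∉ Ideal.span {α, γ, y} := by
  have hγα : γ ∉ maximalIdeal D ^ 2 ⊔ Ideal.span {α} := by
    have h1 : Ideal.span {α} ≤ Ideal.span {y, α} := Ideal.span_mono (by simp)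
    exact fun h => hγ2 (sup_le_sup_left h1 _ h)
  have hγy : γ ∉ maximalIdeal D ^ 2 ⊔ Ideal.span {y} := by
    have h1 : Ideal.span {y} ≤ Ideal.span {y, α} := Ideal.span_mono (by simp)
    exact fun h => hγ2 (sup_le_sup_left h1 _ h)
  have hα3 : α ∉ maximalIdeal D ^ 2 := fun h => hα2 (Ideal.mem_sup_left h)
  -- exchange
  have ex : ∀ u v w : D, v ∈ maximalIdeal D → w ∈ maximalIdeal D →
      u ∉ maximalIdeal D ^ 2 ⊔ Ideal.span {v} →
      w ∉ maximalIdeal D ^ 2 ⊔ Ideal.span {u, v} →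
      u ∉ maximalIdeal D ^ 2 ⊔ Ideal.span {v, w} := by
    intro u v w hv hw hu hw2 h
    obtain ⟨s, hs, t, ht, hst⟩ := Submodule.mem_sup.1 h
    obtain ⟨a, b, rfl⟩ := Ideal.mem_span_pair.1 ht
    by_cases hb : IsUnit b
    · obtain ⟨b', hb'⟩ := hb.exists_right_inv
      apply hw2
      have e : w = -b' * s + (b' * u + (-(b' * a)) * v) := by
        linear_combination b' * hst - w * hb'
      rw [e]
      exact add_mem (Ideal.mem_sup_left (Ideal.mul_mem_left _ _ hs))
        (Ideal.mem_sup_right (Ideal.mem_span_pair.2 ⟨_, _, rfl⟩))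
    · apply hu
      have hbm : b ∈ maximalIdeal D := (mem_maximalIdeal b).2 hb
      have e : u = (s + b * w) + a * v := by rw [← hst]; ring
      rw [e]
      refine add_mem (Ideal.mem_sup_left (add_mem hs ?_))
        (Ideal.mem_sup_right (Ideal.mul_mem_left _ _ (Ideal.mem_span_singleton_self v)))
      rw [pow_two]
      exact Ideal.mul_mem_mul hbm hw
  have hyα : y ∉ maximalIdeal D ^ 2 ⊔ Ideal.span {α} := by
    intro h
    obtain ⟨s, hs, t, ht, hst⟩ := Submodule.mem_sup.1 h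
    obtain ⟨a, rfl⟩ := Ideal.mem_span_singleton'.1 ht
    by_cases hb : IsUnit a
    · obtain ⟨b', hb'⟩ := hb.exists_right_inv
      apply hα2
      have e : α = -b' * s + b' * y := by linear_combination b' * hst - α * hb'
      rw [e]
      exact add_mem (Ideal.mem_sup_left (Ideal.mul_mem_left _ _ hs))
        (Ideal.mem_sup_right (Ideal.mul_mem_left _ _ (Ideal.mem_span_singleton_self y)))
    · apply hy2
      rw [← hst]
      refine add_mem hs ?_
      rw [pow_two]
      exact Ideal.mul_mem_mul ((mem_maximalIdeal a).2 hb) hα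
  have hy3 : y ∉ maximalIdeal D ^ 2 ⊔ Ideal.span {α, γ} := ex y α γ hα hγ hyα hγ2
  have hα4 : α ∉ maximalIdeal D ^ 2 ⊔ Ideal.span {y, γ} :=
    ex α y γ hy hγ hα2 (by rwa [Set.pair_comm])
  have q0 : Qr (⊥ : Ideal D) 4 := ⟨D, inferInstance, inferInstance, RingHom.id D,
    Function.surjective_id, by
      rw [RingHom.ker_eq_comap_bot, Ideal.comap_id], by exact_mod_cast hd⟩
  have q1 : Qr (Ideal.span {α}) 3 := by
    have := q0.step (n := 3) hα (by rwa [sup_bot_eq])
    rwa [bot_sup_eq] at this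
  have q2 : Qr (Ideal.span {α, γ}) 2 := by
    have := q1.step (n := 2) hγ hγα
    rwa [← Ideal.span_insert] at this
  have q3 : Qr (Ideal.span {α, γ, y}) 1 := by
    have := q2.step (n := 1) hy hy3
    rwa [Ideal.span_insert, sup_assoc, ← Ideal.span_insert, ← Ideal.span_insert] at this
  obtain ⟨hγp, hγny⟩ := g_prime (d := 3) (by exact_mod_cast hd) y γ hy2 hγ hγy
  obtain ⟨-, hγnα⟩ := g_prime (d := 3) (by exact_mod_cast hd) α γ hα3 hγ hγα
  obtain ⟨β, hβ, hm, hβ2⟩ := q3.last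
  refine ⟨q2.prime, q3.prime, fun h => hy3 (Ideal.mem_sup_right h),
    fun h => hα4 (Ideal.mem_sup_right h), hγp, hγnα, hγny, β, hβ, ?_, hβ2⟩
  rw [hm, Ideal.span_insert, sup_assoc, Ideal.span_insert, sup_assoc, ← Ideal.span_insert,
    ← Ideal.span_insert, ← Ideal.span_insert]

end Pool.Agent.QU54.BH
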