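import Mathlib
import Pool.Agent.Lib.QU53.Patch

/-!
# Blow-up Horrocks, descent to the base
-/

set_option autoImplicit false

namespace Pool.Agent.QU54.BH

universe u

open Polynomial Submodule Pool.Agent.QU53

/-- ROW P. -/
theorem descend {T E : Type u} [CommRing T] [IsDomain T] [IsNoetherianRing T] [CommRing E]
    [IsDomain E] [Algebra T E] (hinj : Function.Injective (algebraMap T E))
    (c : E) (hc : Function.Surjective (aeval c : T[X] →ₐ[T] E)) (α γ : T)
    (hαc : algebraMap T E α * c = algebraMap T E γ)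
    (hker : ∀ f : T[X], aeval c f = 0 → (C α * X - C γ) ∣ f)
    (hPF : PF T) (P : Type u) [AddCommGroup P] [Module E P] [Module.Finite E P]
    [Module.Projective E P] (k : ℕ) (t : T) (ht : 1 + α * t ≠ 0)
    (h : HB E P k (algebraMap T E (1 + α * t))) : Module.Free E P := by
  have h1 : ∀ b : E, ∃ (a : T) (d : E),
      b = algebraMap T E a + algebraMap T E (1 + α * t) * d := by
    intro b
    obtain ⟨f, rfl⟩ := hc b
    have e1 := sub_dvd_eval_sub c (algebraMap T E (-(t * γ))) (f.map (algebraMap T E))
    obtain ⟨g, hg⟩ := e1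
    refine ⟨f.eval (-(t * γ)), c * g, ?_⟩
    rw [eval_map_algebraMap, eval_map_algebraMap, aeval_algebraMap_apply] at hg
    rw [coe_aeval_eq_eval] at hg
    have e2 : (aeval c f : E) = algebraMap T E (f.eval (-(t * γ))) +
        (c - algebraMap T E (-(t * γ))) * g := by
      rw [← hg]; abel
    rw [e2, map_neg, map_mul, map_add, map_one, map_mul, ← hαc]
    ring
  have h2 : ∀ (a : T) (d : E), algebraMap T E a = algebraMap T E (1 + α * t) * d →
      ∃ a' : T, a = (1 + α * t) * a' := by
    intro a d had
    obtain ⟨g, rfl⟩ := hc d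
    obtain ⟨q, hq⟩ := hker (C a - C (1 + α * t) * g) (by
      rw [map_sub, map_mul, aeval_C, aeval_C, had, sub_self])
    have e3 := congrArg (eval (-(t * γ))) hq
    simp only [eval_sub, eval_mul, eval_C, eval_X] at e3
    refine ⟨g.eval (-(t * γ)) - γ * q.eval (-(t * γ)), ?_⟩
    linear_combination e3
  obtain ⟨P', _, _, hf, hp, -, hfree⟩ := patch (1 + α * t) ht hinj h1 h2 k P h
  exact hfree (hPF P' hf hp)

end Pool.Agent.QU54.BH
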