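import Mathlib
import Pool.Agent.Lib.QU53.Split

/-!
# Blow-up Horrocks, the Nakayama part
-/

set_option autoImplicit false

namespace Pool.Agent.QU54.BH

universe u

open Polynomial Submodule Pool.Agent.QU53

theorem nak {T M : Type u} [CommRing T] [AddCommGroup M] [Module T M] (α : T)
    (hα : α ∈ Ideal.jacobson (⊥ : Ideal T)) (M₁ N : Submodule T M) (hN : N.FG)
    (htop : M₁ ⊔ N = ⊤) (h : N ≤ M₁ ⊔ LinearMap.range (LinearMap.lsmul T M α)) : M₁ = ⊤ := by
  have h1 : N ≤ M₁ ⊔ Ideal.span {α} • N := by
    intro x hx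
    obtain ⟨y, hy, _, ⟨z, rfl⟩, rfl⟩ := Submodule.mem_sup.1 (h hx)
    have hz : z ∈ M₁ ⊔ N := htop ▸ Submodule.mem_top
    obtain ⟨z1, hz1, z2, hz2, rfl⟩ := Submodule.mem_sup.1 hz
    refine Submodule.mem_sup.2 ⟨y + α • z1, M₁.add_mem hy (M₁.smul_mem _ hz1), α • z2,
      Submodule.smul_mem_smul (Ideal.mem_span_singleton_self α) hz2, ?_⟩
    rw [LinearMap.lsmul_apply, smul_add]
    abel
  have h2 : N ≤ M₁ := Submodule.le_of_le_smul_of_le_jacobson_bot hN
    ((Ideal.span_singleton_le_iff_mem _).2 hα) h1
  rw [← htop, sup_eq_left.2 h2]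

theorem det_monic {T : Type u} [CommRing T] {k N : ℕ} (A : Matrix (Fin k) (Fin k) T[X])
    (hA : ∀ i j, (A i j).natDegree ≤ N)
    (h1 : ∀ i j, (A i j).coeff N = (1 : Matrix (Fin k) (Fin k) T) i j) : A.det.Monic := by
  refine monic_of_natDegree_le_of_coeff_eq_one (k * N) ?_ ?_
  · rw [Matrix.det_apply]
    refine natDegree_sum_le_of_forall_le _ _ fun σ _ => ?_
    refine (natDegree_smul_le _ _).trans ?_
    refine (natDegree_prod_le _ _).trans ?_
    refine (Finset.sum_le_card_nsmul _ _ N fun i _ => hA _ _).trans ?_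
    simp
  · rw [Matrix.det_apply, finsetSum_coeff]
    have h2 : ∀ σ : Equiv.Perm (Fin k), (Equiv.Perm.sign σ • ∏ i, A (σ i) i).coeff (k * N) =
        Equiv.Perm.sign σ • ∏ i, (1 : Matrix (Fin k) (Fin k) T) (σ i) i := by
      intro σ
      rw [coeff_smul]
      congr 1
      have h3 := coeff_prod_of_natDegree_le (s := (Finset.univ : Finset (Fin k)))
        (f := fun i => A (σ i) i) N (fun i _ => hA _ _)
      rw [Finset.card_univ, Fintype.card_fin] at h3
      rw [h3]
      exact Finset.prod_congr rfl fun i _ => h1 _ _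
    rw [Finset.sum_congr rfl fun σ _ => h2 σ, ← Matrix.det_apply, Matrix.det_one]

section

variable {T E : Type u} [CommRing T] [CommRing E] [Algebra T E] (c : E)
  (P : Type u) [AddCommGroup P] [Module E P] [Module T P] [IsScalarTower T E P] {k : ℕ}
  (δ : Fin k → P)

/-- The `T`-module of fractions `∑ (l_i / n) δ_i`, `deg l_i ≤ deg n`, lying in `P`. -/
def L0 : Submodule T P where
  carrier := {x | ∃ n : T[X], n.Monic ∧ ∃ l : Fin k → T[X],
    (∀ i, (l i).natDegree ≤ n.natDegree) ∧ aeval c n • x = ∑ i, aeval c (l i) • δ i}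
  zero_mem' := ⟨1, monic_one, 0, fun i => by simp, by simp⟩
  add_mem' := by
    rintro x y ⟨n, hn, l, hl, hx⟩ ⟨n', hn', l', hl', hy⟩
    refine ⟨n * n', hn.mul hn', fun i => n' * l i + n * l' i, fun i => ?_, ?_⟩
    · rw [hn.natDegree_mul hn']
      refine natDegree_add_le_of_degree_le ?_ ?_
      · refine natDegree_mul_le.trans ?_
        have := hl i
        omega
      · refine natDegree_mul_le.trans ?_
        have := hl' i
        omega
    · rw [map_mul, smul_add, mul_comm, mul_smul, hx, mul_comm, mul_smul, hy, Finset.smul_sum,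
        Finset.smul_sum, ← Finset.sum_add_distrib]
      refine Finset.sum_congr rfl fun i _ => ?_
      rw [map_add, map_mul, map_mul, add_smul, mul_smul, mul_smul]
  smul_mem' := by
    rintro t x ⟨n, hn, l, hl, hx⟩
    refine ⟨n, hn, fun i => C t * l i, fun i => ?_, ?_⟩
    · exact (natDegree_C_mul_le _ _).trans (hl i)
    · rw [← algebraMap_smul E t x, smul_smul, mul_comm, mul_smul, hx, Finset.smul_sum]
      refine Finset.sum_congr rfl fun i _ => ?_
      rw [map_mul, aeval_C, mul_smul]

/-- `P` is spanned, modulo multiples of a monic polynomial, by few monomials. -/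
theorem aeval_mem (N : ℕ) (g : T[X]) (hg : g.natDegree ≤ N) (p : P) (S : Submodule T P)
    (hS : ∀ i ≤ N, c ^ i • p ∈ S) : aeval c g • p ∈ S := by
  rw [aeval_eq_sum_range, Finset.sum_smul]
  refine S.sum_mem fun i hi => ?_
  rw [smul_assoc]
  refine S.smul_mem _ (hS i ?_)
  rw [Finset.mem_range] at hi
  omega

end

theorem nak_free {T E : Type u} [CommRing T] [CommRing E] [IsDomain E] [Algebra T E]
    (c : E) (hc : Function.Surjective (aeval c : T[X] →ₐ[T] E)) (α γ : T)
    (hα : α ∈ Ideal.jacobson (⊥ : Ideal T))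
    (hαc : algebraMap T E α * c = algebraMap T E γ)
    (hmon : ∀ f : T[X], f.Monic → aeval c f ≠ 0)
    (P : Type u) [AddCommGroup P] [Module E P] [Module.Finite E P] [Module.IsTorsionFree E P]
    {k : ℕ} (δ : Fin k → P) (hδ : LinearIndependent E δ) (H : T[X]) (hH : H.Monic)
    (hHδ : ∀ p : P, aeval c H • p ∈ Submodule.span E (Set.range δ))
    (m : T[X]) (hm : m.Monic) (ε : Fin k → P)
    (hgen : ∀ p : P, ∃ (a : Fin k → E) (q : P),
      p = ∑ i, a i • ε i + algebraMap T E α • q)
    (hme : ∀ i, ∃ q : P, δ i = aeval c m • ε i + algebraMap T E α • q) :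
    Module.Free E P := by
  classical
  have : Nontrivial T := (algebraMap T E).domain_nontrivial
  let : Module T P := Module.compHom P (algebraMap T E)
  have : IsScalarTower T E P := IsScalarTower.of_algebraMap_smul fun a p => rfl
  -- the key decomposition
  have star : ∀ w : P, ∃ v : P, w - aeval c m • v ∈ L0 (T := T) c P δ := by
    let N : Submodule T P := span T (Set.range fun x : Fin (m.natDegree + 1) × Fin k =>
      c ^ (x.1 : ℕ) • δ x.2)
    let M₁ : Submodule T P :=
      LinearMap.range ((LinearMap.lsmul E P (aeval c m)).restrictScalars T) ⊔ L0 (T := T) c P δ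
    have hNm : ∀ i ≤ m.natDegree, ∀ j, c ^ i • δ j ∈ N := fun i hi j =>
      subset_span ⟨(⟨i, by omega⟩, j), rfl⟩
    have hN : N.FG := fg_span (Set.finite_range _)
    have htop : M₁ ⊔ N = ⊤ := by
      rw [eq_top_iff]
      intro w _
      obtain ⟨a, ha⟩ := (Submodule.mem_span_range_iff_exists_fun E).1 (hHδ w)
      choose l hl using fun j => hc (a j)
      have e1 : w = ∑ j, aeval c (l j /ₘ H) • δ j + (w - ∑ j, aeval c (l j /ₘ H) • δ j) := by abel
      rw [e1]
      refine Submodule.add_mem _ (Submodule.sum_mem _ fun j _ => ?_) ?_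
      · have e2 : aeval c (l j /ₘ H) = aeval c (l j /ₘ H %ₘ m) +
            aeval c m * aeval c (l j /ₘ H /ₘ m) := by
          rw [← map_mul, ← map_add, modByMonic_add_div]
        rw [e2, add_smul, mul_smul]
        refine Submodule.add_mem _ ?_ ?_
        · refine Submodule.mem_sup_right ?_
          exact aeval_mem c P m.natDegree _ (natDegree_modByMonic_le _ hm) _ _
            fun i hi => hNm i hi j
        · exact Submodule.mem_sup_left (Submodule.mem_sup_left ⟨_, rfl⟩)
      · refine Submodule.mem_sup_left (Submodule.mem_sup_right ?_)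
        refine ⟨H, hH, fun j => l j %ₘ H, fun j => natDegree_modByMonic_le _ hH, ?_⟩
        rw [smul_sub, ← ha, Finset.smul_sum, ← Finset.sum_sub_distrib]
        refine Finset.sum_congr rfl fun j _ => ?_
        rw [smul_smul, ← sub_smul, ← hl j, ← map_mul, ← map_sub]
        congr 2
        exact (modByMonic_eq_sub_mul_div _ _).symm
    have h : N ≤ M₁ ⊔ LinearMap.range (LinearMap.lsmul T P α) := by
      refine span_le.2 ?_
      rintro _ ⟨⟨i, j⟩, rfl⟩
      obtain ⟨q, hq⟩ := hme j
      have e3 : c ^ (i : ℕ) • δ j = aeval c m • (c ^ (i : ℕ) • ε j) + α • (c ^ (i : ℕ) • q) := by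
        rw [hq, smul_add, smul_comm, smul_comm (c ^ (i : ℕ)), algebraMap_smul]
      show c ^ (i : ℕ) • δ j ∈ _
      rw [e3]
      exact Submodule.add_mem _ (Submodule.mem_sup_left (Submodule.mem_sup_left ⟨_, rfl⟩))
        (Submodule.mem_sup_right ⟨_, rfl⟩)
    have hM := nak α hα M₁ N hN htop h
    intro w
    have hw : w ∈ M₁ := hM ▸ Submodule.mem_top
    obtain ⟨_, ⟨v, rfl⟩, x, hx, rfl⟩ := Submodule.mem_sup.1 hw
    refine ⟨v, ?_⟩
    convert hx using 1
    show aeval c m • v + x - aeval c m • v = x
    abel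
  choose w hw using hme
  choose v hv using fun j => star (w j)
  choose n hn l hl hnl using hv
  -- common denominator
  let n₀ : T[X] := X * ∏ j, n j
  have hn₀ : n₀.Monic := monic_X.mul (monic_prod_of_monic _ _ fun j _ => hn j)
  let r : Fin k → T[X] := fun j => X * ∏ i ∈ Finset.univ.erase j, n i
  have hr : ∀ j, (r j).Monic := fun j => monic_X.mul (monic_prod_of_monic _ _ fun j _ => hn j)
  have hrn : ∀ j, n₀ = r j * n j := by
    intro j
    show X * ∏ j, n j = X * (∏ i ∈ Finset.univ.erase j, n i) * n j
    rw [mul_assoc, Finset.prod_erase_mul _ _ (Finset.mem_univ j)]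
  have hN1 : 1 ≤ n₀.natDegree := by
    show 1 ≤ (X * ∏ j, n j).natDegree
    rw [monic_X.natDegree_mul (monic_prod_of_monic _ _ fun j _ => hn j), natDegree_X]
    omega
  set N := n₀.natDegree with hNdef
  let l' : Fin k → Fin k → T[X] := fun j i => r j * l j i
  have hl' : ∀ j i, (l' j i).natDegree ≤ N := by
    intro j i
    refine natDegree_mul_le.trans ?_
    rw [hNdef, hrn j, (hr j).natDegree_mul (hn j)]
    have := hl j i
    omega
  have hnl' : ∀ j, aeval c n₀ • (w j - aeval c m • v j) = ∑ i, aeval c (l' j i) • δ i := by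
    intro j
    rw [hrn j, map_mul, mul_smul, hnl j, Finset.smul_sum]
    refine Finset.sum_congr rfl fun i _ => ?_
    rw [smul_smul, ← map_mul]
  let L : Fin k → Fin k → T[X] := fun j i =>
    C α * (l' j i - C ((l' j i).coeff N) * X ^ N) + C (γ * (l' j i).coeff N) * X ^ (N - 1)
  have hLc : ∀ j i, aeval c (L j i) = algebraMap T E α * aeval c (l' j i) := by
    intro j i
    have e4 : c ^ N = c * c ^ (N - 1) := by
      rw [← pow_succ']
      congr 1
      omega
    simp only [L, map_add, map_mul, map_sub, aeval_C, map_pow, aeval_X]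
    rw [e4, ← hαc]
    ring
  have hLd : ∀ j i, (L j i).degree < N := by
    intro j i
    refine (degree_add_le _ _).trans_lt (max_lt ?_ ?_)
    · rw [degree_lt_iff_coeff_zero]
      intro d hd
      rw [coeff_C_mul, coeff_sub, coeff_C_mul, coeff_X_pow]
      rcases eq_or_lt_of_le hd with rfl | hd
      · simp
      · rw [if_neg (by omega), mul_zero, sub_zero,
          coeff_eq_zero_of_natDegree_lt ((hl' j i).trans_lt hd), mul_zero]
    · refine (degree_C_mul_X_pow_le _ _).trans_lt ?_
      exact_mod_cast (by omega : N - 1 < N)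
  let A : Matrix (Fin k) (Fin k) T[X] := Matrix.of fun j i => (if j = i then n₀ else 0) - L j i
  have hAm : A.det.Monic := by
    refine det_monic (N := N) A (fun j i => ?_) fun j i => ?_
    · refine (natDegree_sub_le _ _).trans (max_le ?_ ?_)
      · split_ifs
        · exact le_rfl
        · simp
      · exact natDegree_le_of_degree_le (hLd j i).le
    · show ((if j = i then n₀ else 0) - L j i).coeff N = _
      rw [coeff_sub, coeff_eq_zero_of_degree_lt (hLd j i), sub_zero, Matrix.one_apply]
      split_ifs
      · exact hn₀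
      · simp
  let η : Fin k → P := fun j => ε j + algebraMap T E α • v j
  have hη : ∀ j, (aeval c m * aeval c n₀) • η j = ∑ i, aeval c (A j i) • δ i := by
    intro j
    have e5 : ∑ i, aeval c (A j i) • δ i = aeval c n₀ • δ j -
        algebraMap T E α • ∑ i, aeval c (l' j i) • δ i := by
      have e6 : ∀ i, aeval c (A j i) • δ i = (if j = i then aeval c n₀ • δ i else 0) -
          algebraMap T E α • aeval c (l' j i) • δ i := by
        intro i
        show aeval c ((if j = i then n₀ else 0) - L j i) • δ i = _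
        rw [map_sub, sub_smul, hLc, mul_smul]
        congr 1
        split_ifs <;> simp
      rw [Finset.sum_congr rfl fun i _ => e6 i, Finset.sum_sub_distrib, Finset.smul_sum]
      simp
    rw [e5, ← hnl' j]
    conv_rhs => rw [hw j]
    simp only [η, smul_add, smul_sub, smul_smul]
    module
  have hdet : ∀ i, aeval c A.det • δ i ∈ span E (Set.range η) := by
    intro i
    let A' : Matrix (Fin k) (Fin k) E := A.map (aeval c)
    have e7 : aeval c A.det • δ i = ∑ j, A'.adjugate i j • ((aeval c m * aeval c n₀) • η j) := by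
      have e8 : aeval c A.det = A'.det := by
        rw [AlgHom.map_det]; rfl
      have e9 : ∀ i', ∑ j, A'.adjugate i j * A' j i' = if i = i' then A'.det else 0 := by
        intro i'
        have := congrFun (congrFun (Matrix.adjugate_mul A') i) i'
        rw [Matrix.mul_apply] at this
        rw [this, Matrix.smul_apply, Matrix.one_apply]
        simp
      calc aeval c A.det • δ i = ∑ i', (if i = i' then A'.det else 0) • δ i' := by
            rw [e8]; simp [ite_smul]
        _ = ∑ i', (∑ j, A'.adjugate i j * A' j i') • δ i' :=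
            Finset.sum_congr rfl fun i' _ => by rw [e9 i']
        _ = ∑ i', ∑ j, (A'.adjugate i j * A' j i') • δ i' :=
            Finset.sum_congr rfl fun i' _ => Finset.sum_smul
        _ = ∑ j, ∑ i', (A'.adjugate i j * A' j i') • δ i' := Finset.sum_comm
        _ = ∑ j, A'.adjugate i j • ∑ i', aeval c (A j i') • δ i' :=
            Finset.sum_congr rfl fun j _ => by
              rw [Finset.smul_sum]
              exact Finset.sum_congr rfl fun i' _ => by rw [smul_smul]; rfl
        _ = _ := Finset.sum_congr rfl fun j _ => by rw [hη j]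
    rw [e7]
    exact Submodule.sum_mem _ fun j _ => Submodule.smul_mem _ _ (Submodule.smul_mem _ _
      (subset_span ⟨j, rfl⟩))
  have hli : LinearIndependent E η :=
    li_of_span η (fun i => aeval c A.det • δ i) (li_smul hδ (hmon _ hAm)) hdet
  let Dm : T[X] := A.det * H
  have hDm : Dm.Monic := hAm.mul hH
  have hDp : ∀ p : P, aeval c Dm • p ∈ span E (Set.range η) := by
    intro p
    rw [map_mul, mul_smul]
    obtain ⟨a, ha⟩ := (Submodule.mem_span_range_iff_exists_fun E).1 (hHδ p)
    rw [← ha, Finset.smul_sum]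
    refine Submodule.sum_mem _ fun i _ => ?_
    rw [smul_comm]
    exact Submodule.smul_mem _ _ (hdet i)
  have hspan : (span E (Set.range η)).restrictScalars T = ⊤ := by
    obtain ⟨r', s, hs⟩ := Module.Finite.exists_fin (R := E) (M := P)
    let N' : Submodule T P := span T (Set.range fun x : Fin (Dm.natDegree + 1) × Fin r' =>
      c ^ (x.1 : ℕ) • s x.2)
    have hNm : ∀ i ≤ Dm.natDegree, ∀ j, c ^ i • s j ∈ N' := fun i hi j =>
      subset_span ⟨(⟨i, by omega⟩, j), rfl⟩
    refine nak α hα _ N' (fg_span (Set.finite_range _)) ?_ ?_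
    · rw [eq_top_iff]
      intro p _
      have hp : p ∈ span E (Set.range s) := hs ▸ Submodule.mem_top
      obtain ⟨a, rfl⟩ := (Submodule.mem_span_range_iff_exists_fun E).1 hp
      choose f hf using fun j => hc (a j)
      refine Submodule.sum_mem _ fun j _ => ?_
      have e2 : a j = aeval c (f j %ₘ Dm) + aeval c Dm * aeval c (f j /ₘ Dm) := by
        rw [← map_mul, ← map_add, modByMonic_add_div, hf]
      rw [e2, add_smul, mul_smul]
      refine Submodule.add_mem _ ?_ ?_
      · refine Submodule.mem_sup_right ?_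
        exact aeval_mem c P Dm.natDegree _ (natDegree_modByMonic_le _ hDm) _ _
          fun i hi => hNm i hi j
      · exact Submodule.mem_sup_left (hDp _)
    · intro p _
      obtain ⟨a, q, hq⟩ := hgen p
      have e3 : p = ∑ i, a i • η i + α • (q - ∑ i, a i • v i) := by
        rw [hq, ← algebraMap_smul E α, smul_sub, Finset.smul_sum]
        simp only [η, smul_add]
        rw [Finset.sum_add_distrib]
        have e4 : ∀ i, a i • algebraMap T E α • v i = algebraMap T E α • a i • v i :=
          fun i => smul_comm _ _ _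
        rw [Finset.sum_congr rfl fun i _ => e4 i]
        abel
      rw [e3]
      refine Submodule.add_mem _ (Submodule.mem_sup_left ?_) (Submodule.mem_sup_right ⟨_, rfl⟩)
      exact Submodule.sum_mem (span E (Set.range η)) fun i _ =>
        Submodule.smul_mem (span E (Set.range η)) _ (subset_span ⟨i, rfl⟩)
  refine Module.Free.of_basis (Module.Basis.mk hli ?_)
  intro p _
  have : p ∈ (span E (Set.range η)).restrictScalars T := hspan ▸ Submodule.mem_top
  exact this

end Pool.Agent.QU54.BH
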