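import Mathlib
import Pool.Agent.Lib.QU53.HBase
import Pool.Agent.Lib.QU53.R3
import Pool.Agent.Lib.QU54.BlowE
import Pool.Agent.Lib.QU54.BlowN

/-!
# Blow-up Horrocks, the local theorem
-/

set_option autoImplicit false

namespace Pool.Agent.QU54.BH

universe u

open Polynomial Submodule Pool.Agent.QU53
open scoped TensorProduct

theorem lift_monic {T B : Type u} [CommRing T] [CommRing B] (π : T →+* B)
    (hπ : Function.Surjective π) (m : B[X]) (hm : m.Monic) : ∃ m' : T[X], m'.Monic ∧
      m'.map π = m := by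
  obtain ⟨q, h1, -, h2⟩ := lifts_and_natDegree_eq_and_monic
    ((mem_lifts m).2 (Polynomial.map_surjective π hπ m)) hm
  exact ⟨q, h2, h1⟩

/-- ROW R. -/
theorem bh_local {T E B : Type u} [CommRing T] [CommRing E] [IsDomain E] [Algebra T E]
    [CommRing B] [IsDomain B]
    (c : E) (hc : Function.Surjective (aeval c : T[X] →ₐ[T] E)) (α γ : T)
    (hα : α ∈ Ideal.jacobson (⊥ : Ideal T)) (_hα0 : algebraMap T E α ≠ 0)
    (hαc : algebraMap T E α * c = algebraMap T E γ)
    (π : T →+* B) (hπ : Function.Surjective π) (hπα : π α = 0)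
    (hu : ∀ b : B, IsUnit b → ∃ t : T, IsUnit t ∧ π t = b)
    (N : B → ℕ)
    (hN : ∀ x a : B, a ≠ 0 → ∃ q : B, x - a * q = 0 ∨ N (x - a * q) < N a)
    (ρ : E →+* B[X]) (hρ : ∀ f : T[X], ρ (aeval c f) = f.map π)
    (hker : ∀ x : E, ρ x = 0 → algebraMap T E α ∣ x)
    (P : Type u) [AddCommGroup P] [Module E P] [Module.Finite E P] [Module.Projective E P]
    (k : ℕ) (H : T[X]) (hH : H.Monic) (b : B) (hb : IsUnit ((H.map π).eval b))
    (hHB : HB E P k (aeval c H)) : Module.Free E P := by
  classical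
  have hmon : ∀ f : T[X], f.Monic → aeval c f ≠ 0 := by
    intro f hf h
    have h1 := hρ f
    rw [h, map_zero] at h1
    exact (hf.map π).ne_zero h1.symm
  have hρα : ρ (algebraMap T E α) = 0 := by
    rw [← aeval_C c α, hρ, map_C, hπα, C_0]
  have hρs : Function.Surjective ρ := by
    intro f
    obtain ⟨g, rfl⟩ := Polynomial.map_surjective π hπ f
    exact ⟨aeval c g, hρ g⟩
  obtain ⟨δ, hδ, hHδ⟩ := hHB
  let : Algebra E B[X] := ρ.toAlgebra
  have hsm : ∀ (x : E) (p : P), (1 : B[X]) ⊗ₜ[E] (x • p) = ρ x • ((1 : B[X]) ⊗ₜ[E] p) := by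
    intro x p
    rw [TensorProduct.smul_tmul', ← TensorProduct.smul_tmul, Algebra.smul_def, smul_eq_mul]
    rfl
  have ha : ∀ z : B[X] ⊗[E] P, ∃ p : P, (1 : B[X]) ⊗ₜ[E] p = z := by
    intro z
    induction z using TensorProduct.induction_on with
    | zero => exact ⟨0, TensorProduct.tmul_zero _ _⟩
    | tmul f p =>
      obtain ⟨x, rfl⟩ := hρs f
      refine ⟨x • p, ?_⟩
      rw [hsm, TensorProduct.smul_tmul', smul_eq_mul, mul_one]
    | add z w hz hw =>
      obtain ⟨p, rfl⟩ := hz
      obtain ⟨q, rfl⟩ := hw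
      exact ⟨p + q, TensorProduct.tmul_add _ _ _⟩
  have hb' : ∀ p : P, (1 : B[X]) ⊗ₜ[E] p = 0 → ∃ q, p = algebraMap T E α • q := by
    intro p hp
    obtain ⟨n, f, g, -, -, hfg⟩ := Module.Finite.exists_comp_eq_id_of_projective E P
    have h1 : ∀ i, ∃ x, g p i = algebraMap T E α * x := by
      intro i
      have h2 : ρ (g p i) = 0 := by
        have h3 := congrArg (LinearMap.baseChange B[X] ((LinearMap.proj i).comp g)) hp
        rw [LinearMap.baseChange_tmul, map_zero] at h3
        have h4 := congrArg (TensorProduct.AlgebraTensorModule.rid E B[X] B[X]) h3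
        rw [TensorProduct.AlgebraTensorModule.rid_tmul, map_zero] at h4
        rw [Algebra.smul_def, mul_one] at h4
        exact h4
      exact hker _ h2
    choose x hx using h1
    refine ⟨f x, ?_⟩
    rw [← map_smul]
    have h5 : g p = algebraMap T E α • x := funext fun i => hx i
    rw [← h5]
    exact (LinearMap.congr_fun hfg p).symm
  have hmodα : ∀ p q : P, (1 : B[X]) ⊗ₜ[E] p = (1 : B[X]) ⊗ₜ[E] q →
      ∃ r, p = q + algebraMap T E α • r := by
    intro p q h
    obtain ⟨r, hr⟩ := hb' (p - q) (by rw [TensorProduct.tmul_sub, h, sub_self])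
    exact ⟨r, by rw [← hr]; abel⟩
  have hspan : ∀ z : B[X] ⊗[E] P, H.map π • z ∈
      span B[X] (Set.range fun i => (1 : B[X]) ⊗ₜ[E] δ i) := by
    intro z
    obtain ⟨p, rfl⟩ := ha z
    rw [← hρ, ← hsm]
    obtain ⟨a, ha⟩ := (Submodule.mem_span_range_iff_exists_fun E).1 (hHδ p)
    rw [← ha, TensorProduct.tmul_sum]
    refine Submodule.sum_mem _ fun i _ => ?_
    rw [hsm]
    exact Submodule.smul_mem _ _ (subset_span ⟨i, rfl⟩)
  have hHB' : HB B[X] (B[X] ⊗[E] P) k (H.map π) := by
    refine ⟨fun i => 1 ⊗ₜ δ i, ?_, hspan⟩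
    rw [Fintype.linearIndependent_iff] at hδ ⊢
    intro g hg i
    choose x hx using fun i => hρs (g i)
    have h1 : (1 : B[X]) ⊗ₜ[E] (∑ i, x i • δ i) = 0 := by
      rw [TensorProduct.tmul_sum, ← hg]
      exact Finset.sum_congr rfl fun i _ => by rw [hsm, hx]
    obtain ⟨q, hq⟩ := hb' _ h1
    obtain ⟨a, ha⟩ := (Submodule.mem_span_range_iff_exists_fun E).1 (hHδ q)
    have h2 : ∑ i, (aeval c H * x i - algebraMap T E α * a i) • δ i = 0 := by
      simp only [sub_smul, mul_smul, Finset.sum_sub_distrib]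
      rw [← Finset.smul_sum, ← Finset.smul_sum, hq, ha, smul_comm, sub_self]
    have h3 := congrArg ρ (hδ _ h2 i)
    rw [map_sub, map_mul, map_mul, hρα, zero_mul, sub_zero, map_zero, hρ, hx] at h3
    exact (mul_eq_zero.1 h3).resolve_left (hH.map π).ne_zero
  have hfree : Module.Free B[X] (B[X] ⊗[E] P) :=
    monic_inversion k _ (H.map π) (hH.map π) hHB' b hb
  -- a basis
  obtain ⟨bas⟩ : Nonempty (Module.Basis (Fin k) B[X] (B[X] ⊗[E] P)) := by
    let b0 := Module.finBasis B[X] (B[X] ⊗[E] P)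
    have h1 : HB B[X] (B[X] ⊗[E] P) (Module.finrank B[X] (B[X] ⊗[E] P)) 1 :=
      ⟨b0, b0.linearIndependent, fun q => b0.mem_span _⟩
    have h2 := HB_unique one_ne_zero (hH.map π).ne_zero h1 hHB'
    exact ⟨b0.reindex (finCongr h2)⟩
  choose ε hε using fun i => ha (bas i)
  choose a haε using fun r => (Submodule.mem_span_range_iff_exists_fun E).1 (hHδ (ε r))
  let D : Matrix (Fin k) (Fin k) B[X] := Matrix.of fun j r => bas.repr (1 ⊗ₜ δ j) r
  let D' : Matrix (Fin k) (Fin k) B[X] := Matrix.of fun r j => ρ (a r j)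
  have hDs : ∀ j, (1 : B[X]) ⊗ₜ[E] δ j = ∑ r, D j r • bas r := fun j => (bas.sum_repr _).symm
  have hDD : D' * D = H.map π • (1 : Matrix (Fin k) (Fin k) B[X]) := by
    ext1 r s
    rw [Matrix.mul_apply, Matrix.smul_apply, Matrix.one_apply]
    have h1 : ∑ j, ρ (a r j) • ((1 : B[X]) ⊗ₜ[E] δ j) = H.map π • bas r := by
      rw [← hε r, ← hρ, ← hsm, ← haε r, TensorProduct.tmul_sum]
      exact Finset.sum_congr rfl fun j _ => by rw [hsm]
    have h2 := congrArg (fun z => bas.repr z s) h1
    simp only [map_sum, map_smul, Finsupp.coe_finsetSum, Finset.sum_apply, Finsupp.smul_apply,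
      Module.Basis.repr_self] at h2
    rw [Finsupp.single_apply] at h2
    exact h2
  obtain ⟨G, G', ν, m, hν, hm, hG, hGD⟩ := gl_lift π hπ hu N hN D D' _ (hH.map π) hDD
  obtain ⟨m', hm', rfl⟩ := lift_monic π hπ m hm
  let δ' : Fin k → P := fun i => ∑ j, aeval c (G i j) • δ j
  have hνδ : ∀ j, aeval c ν • δ j ∈ span E (Set.range δ') := by
    intro j
    have h1 : aeval c ν • δ j = ∑ i, aeval c (G' j i) • δ' i := by
      have h2 : ∀ j', ∑ i, G' j i * G i j' = if j = j' then ν else 0 := by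
        intro j'
        have := congrFun (congrFun hG j) j'
        rw [Matrix.mul_apply, Matrix.smul_apply, Matrix.one_apply] at this
        rw [this]
        simp
      calc aeval c ν • δ j = ∑ j', aeval c (if j = j' then ν else 0) • δ j' := by
            simp [apply_ite (aeval c), ite_smul]
        _ = ∑ j', aeval c (∑ i, G' j i * G i j') • δ j' :=
            Finset.sum_congr rfl fun j' _ => by rw [h2 j']
        _ = ∑ j', ∑ i, (aeval c (G' j i) * aeval c (G i j')) • δ j' :=
            Finset.sum_congr rfl fun j' _ => by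
              rw [map_sum, Finset.sum_smul]
              exact Finset.sum_congr rfl fun i _ => by rw [map_mul]
        _ = ∑ i, ∑ j', (aeval c (G' j i) * aeval c (G i j')) • δ j' := Finset.sum_comm
        _ = _ := Finset.sum_congr rfl fun i _ => by
              rw [Finset.smul_sum]
              exact Finset.sum_congr rfl fun j' _ => by rw [smul_smul]
    rw [h1]
    exact Submodule.sum_mem _ fun i _ => Submodule.smul_mem _ _ (subset_span ⟨i, rfl⟩)
  have hli : LinearIndependent E δ' :=
    li_of_span δ' (fun j => aeval c ν • δ j) (li_smul hδ (hmon _ hν)) hνδ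
  refine nak_free c hc α γ hα hαc hmon P δ' hli (ν * H) (hν.mul hH) ?_ m' hm' ε ?_ ?_
  · intro p
    rw [map_mul, mul_smul]
    obtain ⟨a, ha⟩ := (Submodule.mem_span_range_iff_exists_fun E).1 (hHδ p)
    rw [← ha, Finset.smul_sum]
    refine Submodule.sum_mem _ fun i _ => ?_
    rw [smul_comm]
    exact Submodule.smul_mem _ _ (hνδ i)
  · intro p
    choose x hx using fun r => hρs (bas.repr (1 ⊗ₜ p) r)
    refine ⟨x, ?_⟩
    refine hmodα _ _ ?_
    rw [TensorProduct.tmul_sum]
    rw [← bas.sum_repr ((1 : B[X]) ⊗ₜ[E] p)]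
    exact Finset.sum_congr rfl fun r _ => by rw [hsm, hx, hε]
  · intro i
    refine hmodα _ _ ?_
    rw [hsm, hρ, hε]
    have h1 : ∀ r, ∑ j, (G i j).map π * D j r = if i = r then m'.map π else 0 := by
      intro r
      have := congrFun (congrFun hGD i) r
      rw [Matrix.mul_apply, Matrix.smul_apply, Matrix.one_apply] at this
      refine Eq.trans ?_ (this.trans ?_)
      · rfl
      · simp
    calc (1 : B[X]) ⊗ₜ[E] δ' i = ∑ j, (G i j).map π • ∑ r, D j r • bas r := by
          show (1 : B[X]) ⊗ₜ[E] (∑ j, aeval c (G i j) • δ j) = _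
          rw [TensorProduct.tmul_sum]
          exact Finset.sum_congr rfl fun j _ => by rw [hsm, hρ, hDs]
      _ = ∑ j, ∑ r, ((G i j).map π * D j r) • bas r := Finset.sum_congr rfl fun j _ => by
          rw [Finset.smul_sum]
          exact Finset.sum_congr rfl fun r _ => by rw [smul_smul]
      _ = ∑ r, ∑ j, ((G i j).map π * D j r) • bas r := Finset.sum_comm
      _ = ∑ r, (if i = r then m'.map π else 0) • bas r :=
          Finset.sum_congr rfl fun r _ => by rw [← Finset.sum_smul, h1]
      _ = m'.map π • bas i := by simp [ite_smul]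

end Pool.Agent.QU54.BH
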