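import Mathlib
import Pool.Agent.Lib.QU53.HBase
import Pool.Agent.Lib.QU54.BlowR

/-!
# Blow-up Horrocks, the semilocal theorem
-/

set_option autoImplicit false

namespace Pool.Agent.QU54.BH

universe u

open Polynomial Pool.Agent.QU53

namespace RowS

/-- the elements `1 + α t` -/
def S {T : Type u} [CommRing T] (α : T) : Submonoid T where
  carrier := {s | ∃ t : T, s = 1 + α * t}
  one_mem' := ⟨0, by ring⟩
  mul_mem' := by
    rintro _ _ ⟨t, rfl⟩ ⟨t', rfl⟩
    exact ⟨t + t' + α * t * t', by ring⟩

lemma mem_S {T : Type u} [CommRing T] {α s : T} : s ∈ S α ↔ ∃ t : T, s = 1 + α * t := Iff.rfl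

lemma jac {T : Type u} [CommRing T] (α : T) :
    algebraMap T (Localization (S α)) α ∈ Ideal.jacobson (⊥ : Ideal (Localization (S α))) := by
  rw [Ideal.mem_jacobson_bot]
  intro y
  obtain ⟨t, s, rfl⟩ := IsLocalization.exists_mk'_eq (S α) y
  obtain ⟨u, hu⟩ := mem_S.mp s.2
  have h1 : algebraMap T (Localization (S α)) α * IsLocalization.mk' _ t s + 1
      = IsLocalization.mk' (Localization (S α)) (1 + α * (t + u)) s := by
    rw [IsLocalization.eq_mk'_iff_mul_eq, add_mul, mul_assoc, IsLocalization.mk'_spec, one_mul,
      ← map_mul, ← map_add, hu]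
    congr 1
    ring
  rw [h1]
  exact IsUnit.of_mul_eq_one _
    (IsLocalization.mk'_mul_mk'_eq_one (M := S α) ⟨1 + α * (t + u), t + u, rfl⟩ s)

end RowS

open RowS in
/-- ROW S. -/
theorem bh_semi {T E B : Type u} [CommRing T] [IsDomain T] [CommRing E] [IsDomain E] [Algebra T E]
    [CommRing B] [IsDomain B] (hinj : Function.Injective (algebraMap T E))
    (c : E) (hc : Function.Surjective (aeval c : T[X] →ₐ[T] E)) (α γ : T)
    (hα0 : α ≠ 0) (hαu : ∀ t : T, 1 + α * t ≠ 0)
    (hαc : algebraMap T E α * c = algebraMap T E γ)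
    (π : T →+* B) (hπ : Function.Surjective π) (hπα : π α = 0)
    (hu : ∀ b : B, IsUnit b → ∃ t : T, IsUnit t ∧ π t = b)
    (N : B → ℕ)
    (hN : ∀ x a : B, a ≠ 0 → ∃ q : B, x - a * q = 0 ∨ N (x - a * q) < N a)
    (ρ : E →+* B[X]) (hρ : ∀ f : T[X], ρ (aeval c f) = f.map π)
    (hker : ∀ x : E, ρ x = 0 → algebraMap T E α ∣ x)
    (P : Type u) [AddCommGroup P] [Module E P] [Module.Finite E P] [Module.Projective E P]
    (k : ℕ) (H : T[X]) (hH : H.Monic) (b : B) (hb : IsUnit ((H.map π).eval b))
    (hHB : HB E P k (aeval c H)) :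
    ∃ t : T, HB E P k (algebraMap T E (1 + α * t)) := by
  classical
  have hρT : ∀ t : T, ρ (algebraMap T E t) = C (π t) := by
    intro t
    rw [← aeval_C c t, hρ, map_C]
  have hπS : ∀ s : S α, π s = 1 := by
    intro s
    obtain ⟨t, ht⟩ := mem_S.mp s.2
    rw [ht, map_add, map_mul, hπα, zero_mul, add_zero, map_one]
  have hM0 : (0 : E) ∉ Algebra.algebraMapSubmonoid E (S α) := by
    rintro ⟨s, ⟨t, ht⟩, hs⟩
    have h1 : s = 0 := hinj (by rw [map_zero]; exact hs)
    rw [ht] at h1
    exact hαu t h1
  have hMn : Algebra.algebraMapSubmonoid E (S α) ≤ nonZeroDivisors E :=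
    le_nonZeroDivisors_of_noZeroDivisors hM0
  have : IsDomain (Localization (Algebra.algebraMapSubmonoid E (S α))) :=
    IsLocalization.isDomain_localization hMn
  have hEinj : Function.Injective
      (algebraMap E (Localization (Algebra.algebraMapSubmonoid E (S α)))) :=
    IsLocalization.injective _ hMn
  have hρS : ∀ s : Algebra.algebraMapSubmonoid E (S α), ρ s = 1 := by
    rintro ⟨_, s, hs, rfl⟩
    have h1 := hπS ⟨s, hs⟩
    show ρ (algebraMap T E s) = 1
    rw [hρT, h1, C_1]
  -- the localised maps
  obtain ⟨π', hπ'⟩ : ∃ π' : Localization (S α) →+* B,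
      ∀ t : T, π' (algebraMap T (Localization (S α)) t) = π t :=
    ⟨IsLocalization.lift (M := S α) (g := π) fun s => by rw [hπS s]; exact isUnit_one,
      fun t => IsLocalization.lift_eq _ t⟩
  obtain ⟨ρ', hρ'⟩ : ∃ ρ' : Localization (Algebra.algebraMapSubmonoid E (S α)) →+* B[X],
      ∀ x : E, ρ' (algebraMap E _ x) = ρ x :=
    ⟨IsLocalization.lift (M := Algebra.algebraMapSubmonoid E (S α)) (g := ρ) fun s => by
      rw [hρS s]; exact isUnit_one, fun x => IsLocalization.lift_eq _ x⟩
  have hTE : ∀ t : T, algebraMap (Localization (S α))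
      (Localization (Algebra.algebraMapSubmonoid E (S α))) (algebraMap T _ t)
      = algebraMap E _ (algebraMap T E t) := by
    intro t
    rw [← IsScalarTower.algebraMap_apply, ← IsScalarTower.algebraMap_apply]
  have hev : ∀ f : T[X], aeval (algebraMap E (Localization (Algebra.algebraMapSubmonoid E (S α))) c)
      (f.map (algebraMap T (Localization (S α)))) = algebraMap E _ (aeval c f) := by
    intro f
    rw [aeval_map_algebraMap, aeval_algebraMap_apply]
  have hc' : Function.Surjective
      (aeval (algebraMap E (Localization (Algebra.algebraMapSubmonoid E (S α))) c) :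
        (Localization (S α))[X] →ₐ[Localization (S α)] _) := by
    intro x
    obtain ⟨e, ⟨_, s, hs, rfl⟩, rfl⟩ :=
      IsLocalization.exists_mk'_eq (Algebra.algebraMapSubmonoid E (S α)) x
    obtain ⟨f, rfl⟩ := hc e
    refine ⟨C (IsLocalization.mk' (Localization (S α)) 1 (⟨s, hs⟩ : S α))
      * f.map (algebraMap T (Localization (S α))), ?_⟩
    rw [map_mul, hev, aeval_C, eq_comm, IsLocalization.mk'_eq_iff_eq_mul]
    show _ = _ * algebraMap E _ (algebraMap T E s)
    rw [← hTE, mul_right_comm, ← map_mul, IsLocalization.mk'_spec_mk, map_one, map_one, one_mul]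
  have hρ'' : ∀ f : (Localization (S α))[X],
      ρ' (aeval (algebraMap E (Localization (Algebra.algebraMapSubmonoid E (S α))) c) f)
        = f.map π' := by
    have h1 : (ρ'.comp (aeval (algebraMap E
        (Localization (Algebra.algebraMapSubmonoid E (S α))) c) :
        (Localization (S α))[X] →ₐ[Localization (S α)] _).toRingHom) = mapRingHom π' := by
      refine Polynomial.ringHom_ext' ?_ ?_
      · refine IsLocalization.ringHom_ext (S α) ?_
        ext1 t
        simp only [RingHom.comp_apply, AlgHom.toRingHom_eq_coe, RingHom.coe_coe, coe_mapRingHom,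
          map_C, aeval_C]
        rw [hTE, hρ', hρT, hπ']
      · simp only [RingHom.comp_apply, AlgHom.toRingHom_eq_coe, RingHom.coe_coe, coe_mapRingHom,
          map_X, aeval_X]
        rw [hρ']
        have h2 := hρ X
        rwa [aeval_X, map_X] at h2
    intro f
    have h2 := congrArg (fun g : (Localization (S α))[X] →+* B[X] => g f) h1
    exact h2
  have hker' : ∀ x : Localization (Algebra.algebraMapSubmonoid E (S α)), ρ' x = 0 →
      algebraMap (Localization (S α)) _ (algebraMap T _ α) ∣ x := by
    intro x hx
    obtain ⟨e, s, rfl⟩ :=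
      IsLocalization.exists_mk'_eq (Algebra.algebraMapSubmonoid E (S α)) x
    have h1 : ρ e = 0 := by
      have h2 : IsLocalization.mk' (Localization (Algebra.algebraMapSubmonoid E (S α))) e s
          * algebraMap E _ s = algebraMap E _ e := IsLocalization.mk'_spec _ e s
      have h3 := congrArg ρ' h2
      rw [map_mul, hx, zero_mul, hρ'] at h3
      exact h3.symm
    obtain ⟨d, rfl⟩ := hker e h1
    refine ⟨IsLocalization.mk' _ d s, ?_⟩
    rw [hTE, IsLocalization.mul_mk'_eq_mk'_of_mul]
  -- the localised module
  have hfin : Module.Finite (Localization (Algebra.algebraMapSubmonoid E (S α)))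
      (LocalizedModule (Algebra.algebraMapSubmonoid E (S α)) P) :=
    Module.Finite.of_isLocalizedModule (Algebra.algebraMapSubmonoid E (S α))
      (Rₚ := Localization (Algebra.algebraMapSubmonoid E (S α)))
      (LocalizedModule.mkLinearMap (Algebra.algebraMapSubmonoid E (S α)) P)
  have hproj : Module.Projective (Localization (Algebra.algebraMapSubmonoid E (S α)))
      (LocalizedModule (Algebra.algebraMapSubmonoid E (S α)) P) :=
    Module.projective_of_isLocalizedModule
      (Rₛ := Localization (Algebra.algebraMapSubmonoid E (S α)))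
      (Algebra.algebraMapSubmonoid E (S α))
      (LocalizedModule.mkLinearMap (Algebra.algebraMapSubmonoid E (S α)) P)
  have hHB' : HB (Localization (Algebra.algebraMapSubmonoid E (S α)))
      (LocalizedModule (Algebra.algebraMapSubmonoid E (S α)) P) k
      (aeval (algebraMap E (Localization (Algebra.algebraMapSubmonoid E (S α))) c)
        (H.map (algebraMap T (Localization (S α))))) := by
    obtain ⟨δ, hδ, hs⟩ := hHB
    refine ⟨LocalizedModule.mkLinearMap (Algebra.algebraMapSubmonoid E (S α)) P ∘ δ,
      LinearIndependent.of_isLocalizedModule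
        (Localization (Algebra.algebraMapSubmonoid E (S α)))
        (Algebra.algebraMapSubmonoid E (S α)) _ hδ, ?_⟩
    intro q
    induction q using LocalizedModule.induction_on with
    | h p s =>
      rw [hev]
      have h1 : ∀ y ∈ Submodule.span E (Set.range δ),
          LocalizedModule.mkLinearMap (Algebra.algebraMapSubmonoid E (S α)) P y ∈
          Submodule.span (Localization (Algebra.algebraMapSubmonoid E (S α)))
            (Set.range (LocalizedModule.mkLinearMap (Algebra.algebraMapSubmonoid E (S α)) P ∘ δ))
          := by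
        intro y hy
        refine Submodule.span_induction (p := fun y _ =>
          LocalizedModule.mkLinearMap (Algebra.algebraMapSubmonoid E (S α)) P y ∈
          Submodule.span (Localization (Algebra.algebraMapSubmonoid E (S α)))
            (Set.range (LocalizedModule.mkLinearMap (Algebra.algebraMapSubmonoid E (S α)) P ∘ δ)))
          ?_ ?_ ?_ ?_ hy
        · rintro _ ⟨i, rfl⟩
          exact Submodule.subset_span ⟨i, rfl⟩
        · rw [map_zero]
          exact Submodule.zero_mem _
        · intro x y _ _ hx hy
          rw [map_add]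
          exact Submodule.add_mem _ hx hy
        · intro a x _ hx
          rw [map_smul, ← algebraMap_smul
            (Localization (Algebra.algebraMapSubmonoid E (S α))) a]
          exact Submodule.smul_mem _ _ hx
      have h2 := h1 _ (hs p)
      have h3 : algebraMap E (Localization (Algebra.algebraMapSubmonoid E (S α))) (aeval c H)
          • LocalizedModule.mk p s
          = (IsLocalization.mk' (Localization (Algebra.algebraMapSubmonoid E (S α))) 1 s)
            • LocalizedModule.mkLinearMap (Algebra.algebraMapSubmonoid E (S α)) P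
              (aeval c H • p) := by
        rw [LocalizedModule.mkLinearMap_apply, algebraMap_smul, LocalizedModule.smul'_mk,
          ← Localization.mk_eq_mk', LocalizedModule.mk_smul_mk, one_smul, mul_one]
      rw [h3]
      exact Submodule.smul_mem _ _ h2
  have hfree : Module.Free (Localization (Algebra.algebraMapSubmonoid E (S α)))
      (LocalizedModule (Algebra.algebraMapSubmonoid E (S α)) P) := by
    refine bh_local (T := Localization (S α)) (B := B)
      (algebraMap E (Localization (Algebra.algebraMapSubmonoid E (S α))) c) hc'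
      (algebraMap T _ α) (algebraMap T _ γ) (jac α) ?_ ?_ π' ?_ ?_ ?_ N hN ρ' hρ'' hker' _ k
      (H.map (algebraMap T (Localization (S α)))) (hH.map _) b ?_ hHB'
    · rw [hTE]
      intro h
      exact hα0 (hinj (by rw [map_zero]; exact hEinj (by rw [map_zero]; exact h)))
    · rw [hTE, hTE, ← map_mul, hαc]
    · intro b
      obtain ⟨t, rfl⟩ := hπ b
      exact ⟨_, hπ' t⟩
    · rw [hπ', hπα]
    · intro b hb
      obtain ⟨t, ht, rfl⟩ := hu b hb
      exact ⟨_, ht.map (algebraMap T (Localization (S α))), hπ' t⟩
    · rw [Polynomial.map_map]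
      have h1 : π'.comp (algebraMap T (Localization (S α))) = π := RingHom.ext hπ'
      rw [h1]
      exact hb
  obtain ⟨k', _, ⟨s, ⟨t, rfl⟩, rfl⟩, hk'⟩ :=
    exists_HB_of_free (Algebra.algebraMapSubmonoid E (S α)) hM0 P hfree
  refine ⟨t, ?_⟩
  have hH0 : aeval c H ≠ 0 := by
    intro h
    have h1 := hρ H
    rw [h, map_zero] at h1
    exact (hH.map π).ne_zero h1.symm
  have ht0 : algebraMap T E (1 + α * t) ≠ 0 := by
    intro h
    exact hαu t (hinj (by rw [map_zero]; exact h))
  have hkk := HB_unique hH0 ht0 hHB hk'
  rw [hkk]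
  exact hk'

end Pool.Agent.QU54.BH
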