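import Mathlib
import Pool.Agent.Lib.QU53.Step
import Pool.Agent.Lib.QU54.BlowS
import Pool.Agent.Lib.QU54.BlowP
import Pool.Agent.Lib.QU54.BlowD

/-!
# Blow-up Horrocks, the core step
-/

set_option autoImplicit false

namespace Pool.Agent.QU54.BH

universe u

open Polynomial Submodule Pool.Agent.QU53 IsLocalRing

/-- A multiple of `γ - α X` in the power series ring which is a polynomial. -/
theorem poly_dvd {D : Type u} [CommRing D] [IsDomain D] [IsNoetherianRing D] [IsLocalRing D]
    (α γ : D) (hγ : γ ∈ maximalIdeal D) (hγp : Prime γ) (hγα : ¬ γ ∣ α) (f : D[X])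
    (g : PowerSeries D)
    (h : (f : PowerSeries D) = (PowerSeries.C γ - PowerSeries.X * PowerSeries.C α) * g) :
    ∃ q : D[X], (q : PowerSeries D) = g ∧ f = (C γ - X * C α) * q := by
  have h0 : ∀ n, f.coeff (n + 1) = γ * PowerSeries.coeff (n + 1) g -
      α * PowerSeries.coeff n g := by
    intro n
    rw [← Polynomial.coeff_coe, h, sub_mul, map_sub, PowerSeries.coeff_C_mul, mul_assoc,
      PowerSeries.coeff_succ_X_mul, PowerSeries.coeff_C_mul]
  set N := f.natDegree with hN
  have h1 : ∀ n, N ≤ n → γ * PowerSeries.coeff (n + 1) g = α * PowerSeries.coeff n g := by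
    intro n hn
    have := h0 n
    rw [coeff_eq_zero_of_natDegree_lt (by omega)] at this
    exact (sub_eq_zero.1 this.symm)
  have h2 : ∀ j, γ ^ j * PowerSeries.coeff (N + j) g = α ^ j * PowerSeries.coeff N g := by
    intro j
    induction j with
    | zero => simp
    | succ j ih =>
      have h3 := h1 (N + j) (by omega)
      calc γ ^ (j + 1) * PowerSeries.coeff (N + (j + 1)) g =
          γ ^ j * (γ * PowerSeries.coeff (N + j + 1) g) := by
            rw [← add_assoc]; ring
        _ = α * (γ ^ j * PowerSeries.coeff (N + j) g) := by rw [h3]; ring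
        _ = _ := by rw [ih]; ring
  have h4 : PowerSeries.coeff N g = 0 := by
    have h5 : ∀ j, PowerSeries.coeff N g ∈ (maximalIdeal D) ^ j := by
      intro j
      have h6 : γ ^ j ∣ PowerSeries.coeff N g := by
        have h8 : ¬ γ ∣ α ^ j := fun h => hγα (hγp.dvd_of_dvd_pow h)
        exact hγp.pow_dvd_of_dvd_mul_left j h8 ⟨_, (h2 j).symm⟩
      obtain ⟨w, hw⟩ := h6
      rw [hw]
      exact Ideal.mul_mem_right _ _ (Ideal.pow_mem_pow hγ j)
    have h7 : PowerSeries.coeff N g ∈ ⨅ j, (maximalIdeal D) ^ j := (Ideal.mem_iInf).2 h5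
    rw [Ideal.iInf_pow_eq_bot_of_isLocalRing _ (Ideal.IsPrime.ne_top inferInstance)] at h7
    exact h7
  have h5 : ∀ j, PowerSeries.coeff (N + j) g = 0 := by
    intro j
    have h6 := h2 j
    rw [h4, mul_zero] at h6
    exact (mul_eq_zero.1 h6).resolve_left (pow_ne_zero _ hγp.ne_zero)
  have h6 : ((PowerSeries.trunc N g : D[X]) : PowerSeries D) = g := by
    ext n
    rw [Polynomial.coeff_coe, PowerSeries.coeff_trunc]
    split_ifs with hn
    · rfl
    · obtain ⟨j, rfl⟩ := Nat.exists_eq_add_of_le (not_lt.1 hn)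
      exact (h5 j).symm
  refine ⟨PowerSeries.trunc N g, h6, ?_⟩
  apply Polynomial.coe_injective
  rw [h, Polynomial.coe_mul, Polynomial.coe_sub, Polynomial.coe_mul, Polynomial.coe_C,
    Polynomial.coe_C, Polynomial.coe_X, h6]

theorem blow_core {D : Type u} [CommRing D] [IsDomain D] [IsNoetherianRing D] [IsLocalRing D]
    [IsAdicComplete (maximalIdeal D) D] (y α γ : D) (hγ : γ ∈ maximalIdeal D)
    (hα : α ∈ maximalIdeal D) (hy0 : y ≠ 0)
    (hγp : Prime γ) (hγα : ¬ γ ∣ α) (hγy : ¬ γ ∣ y)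
    [IsDomain (Blow α γ)] [IsDomain (D ⧸ Ideal.span {α, γ})]
    (hyΛ : Ideal.Quotient.mk (Ideal.span {α, γ}) y ≠ 0)
    (N : Localization.Away (Ideal.Quotient.mk (Ideal.span {α, γ}) y) → ℕ)
    (hN : ∀ x a : Localization.Away (Ideal.Quotient.mk (Ideal.span {α, γ}) y), a ≠ 0 →
      ∃ q, x - a * q = 0 ∨ N (x - a * q) < N a)
    (hu : ∀ b : Localization.Away (Ideal.Quotient.mk (Ideal.span {α, γ}) y), IsUnit b →
      ∃ t : Localization.Away y, IsUnit t ∧
        Localization.awayMap (Ideal.Quotient.mk (Ideal.span {α, γ})) y t = b)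
    (hPF : PF (Localization.Away y))
    (k : ℕ) (P : Type u) [AddCommGroup P]
    [Module (Localization.Away (Ideal.Quotient.mk (blowIdeal α γ) (PowerSeries.C y))) P]
    [Module.Finite (Localization.Away (Ideal.Quotient.mk (blowIdeal α γ) (PowerSeries.C y))) P]
    [Module.Projective (Localization.Away (Ideal.Quotient.mk (blowIdeal α γ)
      (PowerSeries.C y))) P]
    (f : PowerSeries D) (hf : PowerSeries.map (residue D) f ≠ 0)
    (hb : HB (Localization.Away (Ideal.Quotient.mk (blowIdeal α γ) (PowerSeries.C y))) P k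
      (algebraMap _ _ (Ideal.Quotient.mk (blowIdeal α γ) f))) :
    Module.Free (Localization.Away (Ideal.Quotient.mk (blowIdeal α γ) (PowerSeries.C y))) P := by
  classical
  obtain ⟨F₀, u, HF⟩ := PowerSeries.exists_isWeierstrassFactorization hf
  have hF₀ : F₀.Monic := HF.isDistinguishedAt.monic
  let Q : PowerSeries D →+* Blow α γ := Ideal.Quotient.mk (blowIdeal α γ)
  have hQs : Function.Surjective Q := Ideal.Quotient.mk_surjective
  have hQ0 : ∀ g, Q g = 0 ↔ (PowerSeries.C γ - PowerSeries.X * PowerSeries.C α) ∣ g := by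
    intro g
    rw [← Ideal.mem_span_singleton]
    exact Ideal.Quotient.eq_zero_iff_mem
  have hrel : Q (PowerSeries.C α) * Q PowerSeries.X = Q (PowerSeries.C γ) := by
    have h := (hQ0 (PowerSeries.C γ - PowerSeries.X * PowerSeries.C α)).2 dvd_rfl
    rw [map_sub, map_mul, sub_eq_zero] at h
    rw [h, mul_comm]
  have hyQ : Q (PowerSeries.C y) ≠ 0 := by
    intro h
    obtain ⟨g, hg⟩ := (hQ0 _).1 h
    apply hγy
    have h1 := congrArg (PowerSeries.constantCoeff) hg
    refine ⟨PowerSeries.constantCoeff g, ?_⟩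
    simpa using h1
  set B := Localization.Away (Ideal.Quotient.mk (blowIdeal α γ) (PowerSeries.C y)) with hBdef
  let Cr := Localization.Away y
  have hCr : IsDomain Cr := IsLocalization.isDomain_localization
    (powers_le_nonZeroDivisors_of_noZeroDivisors hy0)
  have hBd : IsDomain B := IsLocalization.isDomain_localization
    (powers_le_nonZeroDivisors_of_noZeroDivisors hyQ)
  have hinjR : Function.Injective (algebraMap (Blow α γ) B) := IsLocalization.injective _
    (powers_le_nonZeroDivisors_of_noZeroDivisors hyQ)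
  have hinjC : Function.Injective (algebraMap D Cr) := IsLocalization.injective _
    (powers_le_nonZeroDivisors_of_noZeroDivisors hy0)
  have hunit : IsUnit (algebraMap (Blow α γ) B (Q (PowerSeries.C y))) :=
    IsLocalization.Away.algebraMap_isUnit (Q (PowerSeries.C y))
  let φ₀ : Cr →+* B := IsLocalization.Away.lift (S := Cr) y
    (g := (algebraMap (Blow α γ) B).comp (Q.comp (PowerSeries.C (R := D)))) (by exact hunit)
  have hφ₀ : ∀ d : D, φ₀ (algebraMap D Cr d) = algebraMap (Blow α γ) B (Q (PowerSeries.C d)) :=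
    fun d => IsLocalization.Away.lift_eq (S := Cr) y
      (g := (algebraMap (Blow α γ) B).comp (Q.comp (PowerSeries.C (R := D)))) (by exact hunit) d
  let : Algebra Cr B := φ₀.toAlgebra
  have hal : ∀ a, algebraMap Cr B a = φ₀ a := fun _ => rfl
  let cB : B := algebraMap (Blow α γ) B (Q PowerSeries.X)
  have hφ : ∀ p : D[X], aeval cB (p.map (algebraMap D Cr)) =
      algebraMap (Blow α γ) B (Q (p : PowerSeries D)) := by
    intro p
    have h1 : (aeval cB : Cr[X] →ₐ[Cr] B).toRingHom.comp (Polynomial.mapRingHom (algebraMap D Cr)) =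
        ((algebraMap (Blow α γ) B).comp Q).comp Polynomial.coeToPowerSeries.ringHom := by
      refine Polynomial.ringHom_ext (fun d => ?_) ?_
      · show aeval cB ((Polynomial.C d).map _) = algebraMap (Blow α γ) B
          (Q ((Polynomial.C d : D[X]) : PowerSeries D))
        rw [Polynomial.map_C, aeval_C, hal, hφ₀, Polynomial.coe_C]
      · show aeval cB ((Polynomial.X : D[X]).map _) = algebraMap (Blow α γ) B
          (Q ((Polynomial.X : D[X]) : PowerSeries D))
        rw [Polynomial.map_X, aeval_X, Polynomial.coe_X]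
    exact congrArg (fun ψ : D[X] →+* B => ψ p) h1
  -- denominators
  have hdenA : ∀ a : Cr[X], ∃ (n : ℕ) (p : D[X]),
      Polynomial.C (algebraMap D Cr (y ^ n)) * a = p.map (algebraMap D Cr) := by
    intro a
    obtain ⟨_, ⟨n, rfl⟩, hb⟩ := IsLocalization.integerNormalization_spec
      (Submonoid.powers y) a
    refine ⟨n, IsLocalization.integerNormalization (Submonoid.powers y) a, ?_⟩
    rw [hb]
    show _ = (y ^ n) • a
    rw [Algebra.smul_def]
    rfl
  have hdenB : ∀ β : B, ∃ (n : ℕ) (g : PowerSeries D),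
      algebraMap (Blow α γ) B (Q (PowerSeries.C (y ^ n))) * β =
        algebraMap (Blow α γ) B (Q g) := by
    intro β
    obtain ⟨n, g, hg⟩ := IsLocalization.Away.surj (Q (PowerSeries.C y)) β
    obtain ⟨g, rfl⟩ := hQs g
    refine ⟨n, g, ?_⟩
    rw [← hg, map_pow, map_pow, map_pow, mul_comm]
  have hCunit : ∀ n : ℕ, IsUnit (Polynomial.C (algebraMap D Cr (y ^ n)) : Cr[X]) := by
    intro n
    rw [map_pow, map_pow]
    exact ((IsLocalization.Away.algebraMap_isUnit y).map Polynomial.C).pow n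
  have hφC : ∀ n : ℕ, aeval cB (Polynomial.C (algebraMap D Cr (y ^ n))) =
      algebraMap (Blow α γ) B (Q (PowerSeries.C (y ^ n))) := by
    intro n
    rw [aeval_C, hal, hφ₀]
  -- the kernel
  have hKer : ∀ g : Cr[X], aeval cB g = 0 →
      (Polynomial.C (algebraMap D Cr α) * X - Polynomial.C (algebraMap D Cr γ)) ∣ g := by
    intro g hg
    obtain ⟨n, p, hp⟩ := hdenA g
    have h1 : aeval cB (p.map (algebraMap D Cr)) = 0 := by
      rw [← hp, map_mul, hg, mul_zero]
    rw [hφ] at h1
    have h2 : Q (p : PowerSeries D) = 0 := hinjR (by rw [h1, map_zero])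
    obtain ⟨w, hw⟩ := (hQ0 _).1 h2
    obtain ⟨q, -, hq⟩ := poly_dvd α γ hγ hγp hγα p w hw
    obtain ⟨v, hv⟩ := hCunit n
    refine ⟨-((↑v⁻¹ : Cr[X]) * q.map (algebraMap D Cr)), ?_⟩
    have h3 := congrArg (Polynomial.map (algebraMap D Cr)) hq
    rw [← hp, Polynomial.map_mul, Polynomial.map_sub, Polynomial.map_mul, Polynomial.map_C,
      Polynomial.map_C, Polynomial.map_X, ← hv] at h3
    calc g = (↑v⁻¹ : Cr[X]) * (v * g) := by rw [Units.inv_mul_cancel_left]
      _ = _ := by rw [h3]; ring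
  -- the ring `E`
  let E : Subalgebra Cr B := (aeval cB : Cr[X] →ₐ[Cr] B).range
  let cE : E := ⟨cB, ⟨X, by simp⟩⟩
  have hcE : ∀ g : Cr[X], ((aeval cE g : E) : B) = aeval cB g := fun g => by
    rw [aeval_subalgebra_coe]
  have hcs : Function.Surjective (aeval cE : Cr[X] →ₐ[Cr] E) := by
    rintro ⟨_, ⟨g, rfl⟩⟩
    exact ⟨g, Subtype.ext (hcE g)⟩
  have hinjE : Function.Injective (algebraMap E B) := Subtype.val_injective
  have hKerE : ∀ g : Cr[X], aeval cE g = 0 →
      (Polynomial.C (algebraMap D Cr α) * X - Polynomial.C (algebraMap D Cr γ)) ∣ g := by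
    intro g hg
    apply hKer
    rw [← hcE, hg]
    rfl
  have hrelE : aeval cE ((C γ - X * C α : D[X]).map (algebraMap D Cr)) = 0 := by
    have h3 : Q ((C γ - X * C α : D[X]) : PowerSeries D) = 0 := by
      rw [hQ0, Polynomial.coe_sub, Polynomial.coe_mul, Polynomial.coe_C, Polynomial.coe_C,
        Polynomial.coe_X]
    apply Subtype.ext
    rw [hcE, hφ, h3]
    exact map_zero _
  let F : E := aeval cE (F₀.map (algebraMap D Cr))
  have hFB : algebraMap E B F = algebraMap (Blow α γ) B (Q (F₀ : PowerSeries D)) := by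
    show ((aeval cE (F₀.map (algebraMap D Cr)) : E) : B) = _
    rw [hcE, hφ]
  have hF0 : F ≠ 0 := by
    intro h
    have h1 : algebraMap (Blow α γ) B (Q (F₀ : PowerSeries D)) = 0 := by
      rw [← hFB, h, map_zero]
    have h2 : Q (F₀ : PowerSeries D) = 0 := hinjR (by rw [h1, map_zero])
    obtain ⟨w, hw⟩ := (hQ0 _).1 h2
    apply hf
    rw [HF.eq_mul, hw, map_mul, map_mul, map_sub, map_mul, PowerSeries.map_C, PowerSeries.map_C,
      (residue_eq_zero_iff γ).2 hγ, (residue_eq_zero_iff α).2 hα, map_zero, mul_zero, sub_zero,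
      zero_mul, zero_mul]
  have h1 : ∀ β : B, ∃ (a : E) (d : B), β = algebraMap E B a + algebraMap E B F * d := by
    intro β
    obtain ⟨n, g, hg⟩ := hdenB β
    obtain ⟨q, t, hqt⟩ := PowerSeries.exists_isWeierstrassDivision (f := g) hf
    obtain ⟨v, hv⟩ := hCunit n
    obtain ⟨v', hv'⟩ : ∃ v' : Cr[X], v' * Polynomial.C (algebraMap D Cr (y ^ n)) = 1 :=
      ⟨(↑v⁻¹ : Cr[X]), by rw [← hv, Units.inv_mul]⟩
    refine ⟨aeval cE (v' * t.map (algebraMap D Cr)),
      aeval cB v' * algebraMap (Blow α γ) B (Q (u * q)), ?_⟩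
    have h2 : β = aeval cB v' * (algebraMap (Blow α γ) B (Q (PowerSeries.C (y ^ n))) * β) := by
      rw [← hφC n, ← mul_assoc, ← map_mul, hv', map_one, one_mul]
    have h3 : algebraMap E B (aeval cE (v' * t.map (algebraMap D Cr))) =
        aeval cB (v' * t.map (algebraMap D Cr)) := hcE _
    rw [h3, h2, hg, hqt.eq_mul_add, HF.eq_mul, map_mul (aeval cB), hφ, hFB, map_add, map_mul,
      map_mul, map_mul, map_add, map_mul, map_mul, map_mul]
    ring
  have h2 : ∀ (a : E) (d : B), algebraMap E B a = algebraMap E B F * d →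
      ∃ a', a = F * a' := by
    intro a d hac
    obtain ⟨g₀, rfl⟩ := hcs a
    obtain ⟨n, p, hp⟩ := hdenA g₀
    obtain ⟨m, g, hg⟩ := hdenB d
    have h3 : algebraMap (Blow α γ) B (Q ((Polynomial.C (y ^ m) * p : D[X]) : PowerSeries D)) =
        algebraMap (Blow α γ) B (Q ((F₀ : PowerSeries D) * (PowerSeries.C (y ^ n) * g))) := by
      have h4 : algebraMap E B (aeval cE g₀) = aeval cB g₀ := hcE _
      rw [h4] at hac
      rw [Polynomial.coe_mul, Polynomial.coe_C, map_mul, map_mul, ← hφ p, ← hp, map_mul (aeval cB),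
        hφC, hac, map_mul, map_mul, map_mul, map_mul, ← hg, hFB]
      ring
    have h4 := hinjR h3
    rw [← sub_eq_zero, ← map_sub, hQ0] at h4
    obtain ⟨s, hs⟩ := h4
    obtain ⟨q, t, hqt⟩ := PowerSeries.exists_isWeierstrassDivision (f := s) hf
    have h5 : ((C (y ^ m) * p - (C γ - X * C α) * t : D[X]) : PowerSeries D) =
        (F₀ : PowerSeries D) * (PowerSeries.C (y ^ n) * g +
          (PowerSeries.C γ - PowerSeries.X * PowerSeries.C α) * (u * q)) := by
      rw [hqt.eq_mul_add, HF.eq_mul] at hs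
      rw [Polynomial.coe_sub, Polynomial.coe_mul (C γ - X * C α) t, Polynomial.coe_sub,
        Polynomial.coe_mul X, Polynomial.coe_C, Polynomial.coe_C, Polynomial.coe_X]
      linear_combination hs
    obtain ⟨b', hb'⟩ := dvd_of_dvd_coe HF hf _ _ h5
    have h6 := congrArg (fun z => aeval cE (Polynomial.map (algebraMap D Cr) z)) hb'
    beta_reduce at h6
    rw [Polynomial.map_sub, Polynomial.map_mul, Polynomial.map_mul, Polynomial.map_mul,
      Polynomial.map_C, ← hp, map_sub, map_mul (aeval cE), map_mul (aeval cE), map_mul (aeval cE),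
      map_mul (aeval cE), hrelE, zero_mul, sub_zero] at h6
    obtain ⟨v, hv⟩ := ((hCunit m).mul (hCunit n)).map (aeval cE : Cr[X] →ₐ[Cr] E)
    refine ⟨(↑v⁻¹ : E) * aeval cE (b'.map (algebraMap D Cr)), ?_⟩
    have h7 : (v : E) * aeval cE g₀ = F * aeval cE (b'.map (algebraMap D Cr)) := by
      rw [hv, map_mul, mul_assoc]; exact h6
    calc aeval cE g₀ = (↑v⁻¹ : E) * (v * aeval cE g₀) := by rw [Units.inv_mul_cancel_left]
      _ = _ := by rw [h7]; ring
  -- `HB` with respect to `F`
  have hbF : HB B P k (algebraMap E B F) := by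
    obtain ⟨b, hli, hs⟩ := hb
    refine ⟨b, hli, fun q => ?_⟩
    obtain ⟨w, hw⟩ := HF.isUnit.exists_right_inv
    have h3 : algebraMap E B F = algebraMap (Blow α γ) B (Q w) *
        algebraMap (Blow α γ) B (Q f) := by
      rw [hFB, ← map_mul, ← map_mul]
      congr 2
      rw [HF.eq_mul]
      linear_combination (-(F₀ : PowerSeries D)) * hw
    rw [h3, mul_smul]
    exact Submodule.smul_mem _ _ (hs q)
  have hNoeth : IsNoetherianRing Cr := IsLocalization.isNoetherianRing (Submonoid.powers y) Cr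
    inferInstance
  have hNE : IsNoetherianRing E :=
    isNoetherianRing_of_surjective Cr[X] E (aeval cE : Cr[X] →ₐ[Cr] E).toRingHom hcs
  obtain ⟨P', i1, i2, hfin, hproj, hHB, hfree⟩ := patch F hF0 hinjE h1 h2 k P hbF
  apply hfree
  -- the reduction modulo `α, γ`
  let fΛ : D →+* D ⧸ Ideal.span {α, γ} := Ideal.Quotient.mk (Ideal.span {α, γ})
  let BΛ := Localization.Away (fΛ y)
  have hBΛ : IsDomain BΛ := IsLocalization.isDomain_localization
    (powers_le_nonZeroDivisors_of_noZeroDivisors hyΛ)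
  have hinjΛ : Function.Injective (algebraMap (D ⧸ Ideal.span {α, γ}) BΛ) :=
    IsLocalization.injective _ (powers_le_nonZeroDivisors_of_noZeroDivisors hyΛ)
  let π : Cr →+* BΛ := Localization.awayMap fΛ y
  have hπd : ∀ d : D, π (algebraMap D Cr d) = algebraMap _ BΛ (fΛ d) := fun d =>
    IsLocalization.map_eq _ d
  have hden : ∀ t : Cr, ∃ (n : ℕ) (d : D), algebraMap D Cr (y ^ n) * t = algebraMap D Cr d := by
    intro t
    obtain ⟨n, d, hd⟩ := IsLocalization.Away.surj y t
    exact ⟨n, d, by rw [← hd, map_pow, mul_comm]⟩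
  have hyu : ∀ n : ℕ, IsUnit (algebraMap D Cr (y ^ n)) := fun n => by
    rw [map_pow]; exact (IsLocalization.Away.algebraMap_isUnit y).pow n
  have hπs : Function.Surjective π := by
    intro b
    obtain ⟨n, d, hd⟩ := IsLocalization.Away.surj (fΛ y) b
    obtain ⟨d, rfl⟩ := Ideal.Quotient.mk_surjective d
    obtain ⟨v, hv⟩ := hyu n
    refine ⟨(↑v⁻¹ : Cr) * algebraMap D Cr d, ?_⟩
    have h3 : IsUnit (algebraMap _ BΛ (fΛ y) ^ n) :=
      (IsLocalization.Away.algebraMap_isUnit (fΛ y)).pow n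
    have h4 : algebraMap _ BΛ (fΛ y) ^ n = π v := by
      rw [hv, hπd, map_pow, map_pow]
    apply h3.mul_left_injective
    show π _ * _ = b * _
    rw [hd, h4, ← map_mul]
    have h5 : (↑v⁻¹ : Cr) * algebraMap D Cr d * v = algebraMap D Cr d := by
      rw [mul_comm, Units.mul_inv_cancel_left]
    rw [h5, hπd]
  have hπα : π (algebraMap D Cr α) = 0 := by
    rw [hπd]
    have : fΛ α = 0 := Ideal.Quotient.eq_zero_iff_mem.2 (Ideal.subset_span (by simp))
    rw [this, map_zero]
  have hπγ : π (algebraMap D Cr γ) = 0 := by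
    rw [hπd]
    have : fΛ γ = 0 := Ideal.Quotient.eq_zero_iff_mem.2 (Ideal.subset_span (by simp))
    rw [this, map_zero]
  have hkπ : ∀ t : Cr, π t = 0 → t ∈ Ideal.span {algebraMap D Cr α, algebraMap D Cr γ} := by
    intro t ht
    obtain ⟨n, d, hd⟩ := hden t
    have h3 : algebraMap _ BΛ (fΛ d) = 0 := by
      rw [← hπd, ← hd, map_mul, ht, mul_zero]
    have h4 : fΛ d = 0 := hinjΛ (by rw [h3, map_zero])
    obtain ⟨a, b, hab⟩ := Ideal.mem_span_pair.1 (Ideal.Quotient.eq_zero_iff_mem.1 h4)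
    obtain ⟨v, hv⟩ := hyu n
    refine Ideal.mem_span_pair.2 ⟨(↑v⁻¹ : Cr) * algebraMap D Cr a,
      (↑v⁻¹ : Cr) * algebraMap D Cr b, ?_⟩
    have h5 : t = (↑v⁻¹ : Cr) * (v * t) := by rw [Units.inv_mul_cancel_left]
    rw [h5, hv, hd, ← hab, map_add, map_mul, map_mul]
    ring
  let ρ : E →+* BΛ[X] := RingHom.liftOfSurjective (aeval cE : Cr[X] →ₐ[Cr] E).toRingHom hcs
    ⟨Polynomial.mapRingHom π, by
      intro g hg
      obtain ⟨w, rfl⟩ := hKerE g hg
      rw [RingHom.mem_ker, map_mul, map_sub, map_mul, coe_mapRingHom, Polynomial.map_C,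
        Polynomial.map_C, hπα, hπγ, C_0, zero_mul, sub_zero, zero_mul]⟩
  have hρ : ∀ g : Cr[X], ρ (aeval cE g) = g.map π := fun g =>
    RingHom.liftOfSurjective_comp_apply (aeval cE : Cr[X] →ₐ[Cr] E).toRingHom hcs _ g
  have hαc : algebraMap Cr E (algebraMap D Cr α) * cE = algebraMap Cr E (algebraMap D Cr γ) := by
    apply Subtype.ext
    show φ₀ (algebraMap D Cr α) * cB = φ₀ (algebraMap D Cr γ)
    rw [hφ₀, hφ₀, ← hrel, map_mul]
  have hkρ : ∀ x : E, ρ x = 0 → algebraMap Cr E (algebraMap D Cr α) ∣ x := by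
    intro x hx
    obtain ⟨g, rfl⟩ := hcs x
    rw [hρ] at hx
    have h3 : g ∈ (Ideal.span {algebraMap D Cr α, algebraMap D Cr γ}).map (C : Cr →+* Cr[X]) := by
      rw [Ideal.mem_map_C_iff]
      intro i
      apply hkπ
      rw [← coeff_map, hx, coeff_zero]
    rw [Ideal.map_span, Set.image_insert_eq, Set.image_singleton] at h3
    obtain ⟨a, b, rfl⟩ := Ideal.mem_span_pair.1 h3
    refine ⟨aeval cE a + aeval cE b * cE, ?_⟩
    rw [map_add, map_mul, map_mul, aeval_C, aeval_C, ← hαc]
    ring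
  have hα0 : algebraMap D Cr α ≠ 0 := by
    intro h
    have : α = 0 := hinjC (by rw [h, map_zero])
    exact hγα (this ▸ dvd_zero _)
  have hinjCE : Function.Injective (algebraMap Cr E) := by
    rw [injective_iff_map_eq_zero]
    intro t ht
    by_contra ht0
    obtain ⟨w, hw⟩ := hKerE (C t) (by rw [aeval_C, ht])
    have hw0 : w ≠ 0 := by
      rintro rfl
      rw [mul_zero] at hw
      exact ht0 (C_eq_zero.1 hw)
    have h3 : (C (algebraMap D Cr α) * X - C (algebraMap D Cr γ) : Cr[X]).natDegree = 1 := by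
      rw [sub_eq_add_neg, ← C_neg]
      exact natDegree_linear hα0
    have h4 : (C (algebraMap D Cr α) * X - C (algebraMap D Cr γ) : Cr[X]) ≠ 0 := by
      intro h
      rw [h, natDegree_zero] at h3
      exact absurd h3 (by norm_num)
    have h5 := congrArg natDegree hw
    rw [natDegree_C, natDegree_mul h4 hw0, h3] at h5
    omega
  have hαu : ∀ t : Cr, 1 + algebraMap D Cr α * t ≠ 0 := by
    intro t ht
    have h3 := congrArg π ht
    rw [map_add, map_one, map_mul, hπα, zero_mul, add_zero, map_zero] at h3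
    exact one_ne_zero h3
  have hev : IsUnit (((F₀.map (algebraMap D Cr)).map π).eval 1) := by
    have h3 : IsUnit (F₀.eval 1) := by
      by_contra hne
      have h4 : residue D (F₀.eval 1) = 0 := by
        rw [residue_eq_zero_iff]; exact hne
      have h5 : (F₀.map (residue D)).eval 1 = 0 := by
        rw [← map_one (residue D), Polynomial.eval_map_apply]
        exact h4
      have h6 : F₀.map (residue D) = Polynomial.X ^ F₀.natDegree :=
        HF.isDistinguishedAt.map_eq_X_pow
      rw [h6, Polynomial.eval_pow, Polynomial.eval_X, one_pow] at h5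
      exact one_ne_zero h5
    have h4 : ((F₀.map (algebraMap D Cr)).map π).eval 1 = π (algebraMap D Cr (F₀.eval 1)) := by
      rw [← map_one π, ← map_one (algebraMap D Cr), Polynomial.eval_map_apply,
        Polynomial.eval_map_apply]
    rw [h4]
    exact (h3.map _).map _
  obtain ⟨t, ht⟩ := bh_semi hinjCE cE hcs (algebraMap D Cr α) (algebraMap D Cr γ) hα0 hαu hαc π hπs
    hπα hu N hN ρ hρ hkρ P' k (F₀.map (algebraMap D Cr)) (hF₀.map _) 1 hev hHB
  exact descend hinjCE cE hcs (algebraMap D Cr α) (algebraMap D Cr γ) hαc hKerE hPF P' k t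
    (hαu t) ht

end Pool.Agent.QU54.BH
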