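import Mathlib
import Pool.Agent.Lib.QU54.BlowM
import Pool.Agent.Lib.QU54.BlowG
import Pool.Agent.Lib.QU54.BlowB
import Pool.Agent.Lib.QU54.BlowD

/-!
# Blow-ups: the main step
-/

set_option autoImplicit false

namespace Pool.Agent.QU54.BH

universe u

open IsLocalRing Pool.Agent.QU53

theorem ps_mem_mapC {D : Type u} [CommRing D] (I : Ideal D) (hI : I.FG) (f : PowerSeries D) :
    f ∈ I.map (PowerSeries.C (R := D)) ↔ PowerSeries.map (Ideal.Quotient.mk I) f = 0 := by
  constructor
  · intro h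
    have h1 : I.map (PowerSeries.C (R := D)) ≤
        RingHom.ker (PowerSeries.map (Ideal.Quotient.mk I)) := by
      rw [Ideal.map_le_iff_le_comap]
      intro a ha
      rw [Ideal.mem_comap, RingHom.mem_ker, PowerSeries.map_C, Ideal.Quotient.eq_zero_iff_mem.2 ha,
        map_zero]
    exact h1 h
  · intro h
    have h1 : ∀ n, PowerSeries.coeff n f ∈ I := by
      intro n
      rw [← Ideal.Quotient.eq_zero_iff_mem, ← PowerSeries.coeff_map, h, map_zero]
    obtain ⟨r, s, rfl⟩ := Submodule.fg_iff_exists_fin_generating_family.1 hI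
    have h2 : ∀ n, ∃ c : Fin r → D, ∑ i, c i • s i = PowerSeries.coeff n f := fun n =>
      (Submodule.mem_span_range_iff_exists_fun D).1 (h1 n)
    choose c hc using h2
    have h3 : f = ∑ i, PowerSeries.mk (fun n => c n i) * PowerSeries.C (s i) := by
      ext n
      rw [map_sum, ← hc n]
      refine Finset.sum_congr rfl fun i _ => ?_
      rw [PowerSeries.coeff_mul_C, PowerSeries.coeff_mk, smul_eq_mul]
    rw [h3]
    refine Ideal.sum_mem _ fun i _ => Ideal.mul_mem_left _ _ (Ideal.mem_map_of_mem _ ?_)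
    exact Submodule.subset_span ⟨i, rfl⟩

theorem ps_prime_mapC {D : Type u} [CommRing D] (I : Ideal D) (hI : I.FG) [hp : I.IsPrime] :
    (I.map (PowerSeries.C (R := D))).IsPrime := by
  have h1 : I.map (PowerSeries.C (R := D)) =
      RingHom.ker (PowerSeries.map (Ideal.Quotient.mk I)) := by
    ext f
    rw [ps_mem_mapC I hI, RingHom.mem_ker]
  rw [h1]
  exact RingHom.ker_isPrime _

theorem ps_C_mem_mapC {D : Type u} [CommRing D] (I : Ideal D) (hI : I.FG) (a : D)
    (h : PowerSeries.C a ∈ I.map (PowerSeries.C (R := D))) : a ∈ I := by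
  rw [ps_mem_mapC I hI, PowerSeries.map_C] at h
  rw [← Ideal.Quotient.eq_zero_iff_mem]
  exact PowerSeries.C_injective (by rw [h, map_zero])

/-- Gabber's theorem: a projective module is free outside `q`. -/
theorem gab_free {R : Type u} [CommRing R] [IsDomain R] [IsNoetherianRing R] (y a a' : R)
    (q : Ideal R) [hq : q.IsPrime] (k4 : q = Ideal.span {y, a, a'})
    (P1 : (Ideal.span {y}).IsPrime) (P2 : (Ideal.span {y, a}).IsPrime) (hy : y ≠ 0)
    (n1 : a ∉ Ideal.span {y}) (n2 : a' ∉ Ideal.span {y, a})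
    (P : Type u) [AddCommGroup P] [Module (Localization.Away y) P]
    [Module.Finite (Localization.Away y) P] [Module.Projective (Localization.Away y) P] :
    ∃ k, ∃ h ∉ q, HB (Localization.Away y) P k (algebraMap R _ h) := by
  have hG : PF (Localization.Away (algebraMap R (Localization.AtPrime q) y)) :=
    gab_gen _ _ _ q k4 P1 P2 hy n1 n2
  let E := Localization.Away y
  have hinj : Function.Injective (algebraMap R E) :=
    IsLocalization.injective _ (powers_le_nonZeroDivisors_of_noZeroDivisors hy)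
  have hEdom : IsDomain E :=
    IsLocalization.isDomain_localization (powers_le_nonZeroDivisors_of_noZeroDivisors hy)
  have hG' : PF (Localization (Algebra.algebraMapSubmonoid E q.primeCompl)) := PF_swap y q hG
  have h0 : (0 : E) ∉ Algebra.algebraMapSubmonoid E q.primeCompl := by
    rintro ⟨z, hz, hz0⟩
    apply hz
    have : z = 0 := hinj (by rw [hz0, map_zero])
    rw [this]
    exact q.zero_mem
  obtain ⟨k, _, ⟨h₁, hh₁, rfl⟩, H1⟩ := exists_HB _ h0 P hG'
  exact ⟨k, h₁, hh₁, H1⟩

/-- ROW M. -/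
theorem blow_main {D : Type u} [CommRing D] [IsRegularLocalRing D]
    [IsAdicComplete (maximalIdeal D) D] (hd : ringKrullDim D = 4) (y α γ : D)
    (hy : y ∈ maximalIdeal D) (hy2 : y ∉ maximalIdeal D ^ 2)
    (hα : α ∈ maximalIdeal D) (hα2 : α ∉ maximalIdeal D ^ 2 ⊔ Ideal.span {y})
    (hγ : γ ∈ maximalIdeal D) (hγ2 : γ ∉ maximalIdeal D ^ 2 ⊔ Ideal.span {y, α})
    (hPF : PF (Localization.Away y)) :
    PF (Localization.Away (Ideal.Quotient.mk (blowIdeal α γ) (PowerSeries.C y))) := by
  classical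
  have hdomD : IsDomain D := BEH5.Reg.isDomain_of_regular 4 D (by exact_mod_cast hd)
  obtain ⟨pr2, pr3, hy3, hα3, hγp, hγα, hγy, β, hβ, hm, hβ3⟩ :=
    params hd y α γ hy hy2 hα hα2 hγ hγ2
  obtain ⟨hreg, hcomp, hdim, hyM, hyM2⟩ := blow_ring (d := 3) (by exact_mod_cast hd) y α γ hy hy2
    hα hγ hγ2
  have hRd : IsDomain (Blow α γ) := BEH5.Reg.isDomain_of_regular 4 _ (by exact_mod_cast hdim)
  have hRN : IsNoetherianRing (Blow α γ) := inferInstance
  have hfg : ∀ I : Ideal D, I.FG := fun I => (isNoetherianRing_iff_ideal_fg D).1 inferInstance I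
  let Q : PowerSeries D →+* Blow α γ := Ideal.Quotient.mk (blowIdeal α γ)
  have hQs : Function.Surjective Q := Ideal.Quotient.mk_surjective
  have hkQ : ∀ I : Ideal D, α ∈ I → γ ∈ I → RingHom.ker Q ≤ I.map (PowerSeries.C (R := D)) := by
    intro I h1 h2
    rw [Ideal.mk_ker, blowIdeal, Ideal.span_singleton_le_iff_mem]
    exact sub_mem (Ideal.mem_map_of_mem _ h2) (Ideal.mul_mem_left _ _ (Ideal.mem_map_of_mem _ h1))
  have hrel : Q (PowerSeries.C γ) = Q PowerSeries.X * Q (PowerSeries.C α) := by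
    rw [← map_mul, ← sub_eq_zero, ← map_sub]
    exact Ideal.Quotient.eq_zero_iff_mem.2 (Ideal.mem_span_singleton_self _)
  -- `y` is prime in the blow-up
  have hy0 : Q (PowerSeries.C y) ≠ 0 := by
    intro h
    apply hyM2
    show Q (PowerSeries.C y) ∈ _
    rw [h]
    exact zero_mem _
  have P1 : (Ideal.span {Q (PowerSeries.C y)}).IsPrime := by
    obtain ⟨hr, hd3⟩ := BEH5.Reg.quot_regular (n := 3) hdim hyM hyM2
    have := BEH5.Reg.isDomain_of_regular 3 _ hd3
    exact (Ideal.Quotient.isDomain_iff_prime _).1 this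
  -- `(y, α)` is prime
  have k2 : ((Ideal.span {α, γ, y}).map (PowerSeries.C (R := D))).map Q =
      Ideal.span {Q (PowerSeries.C y), Q (PowerSeries.C α)} := by
    rw [Ideal.map_span, Ideal.map_span]
    apply le_antisymm
    · rw [Ideal.span_le]
      rintro _ ⟨_, ⟨z, hz, rfl⟩, rfl⟩
      rcases hz with rfl | rfl | rfl
      · exact Ideal.subset_span (by simp)
      · rw [hrel]
        exact Ideal.mul_mem_left _ _ (Ideal.subset_span (by simp))
      · exact Ideal.subset_span (by simp)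
    · rw [Ideal.span_le]
      rintro z hz
      rcases hz with rfl | rfl
      · exact Ideal.subset_span ⟨_, ⟨y, by simp, rfl⟩, rfl⟩
      · exact Ideal.subset_span ⟨_, ⟨α, by simp, rfl⟩, rfl⟩
  have k3 : ((maximalIdeal D).map (PowerSeries.C (R := D))).map Q =
      Ideal.span {Q (PowerSeries.C y), Q (PowerSeries.C α), Q (PowerSeries.C β)} := by
    rw [hm, Ideal.map_span, Ideal.map_span]
    apply le_antisymm
    · rw [Ideal.span_le]
      rintro _ ⟨_, ⟨z, hz, rfl⟩, rfl⟩
      rcases hz with rfl | rfl | rfl | rfl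
      · exact Ideal.subset_span (by simp)
      · rw [hrel]
        exact Ideal.mul_mem_left _ _ (Ideal.subset_span (by simp))
      · exact Ideal.subset_span (by simp)
      · exact Ideal.subset_span (by simp)
    · rw [Ideal.span_le]
      rintro z hz
      rcases hz with rfl | rfl | rfl
      · exact Ideal.subset_span ⟨_, ⟨y, by simp, rfl⟩, rfl⟩
      · exact Ideal.subset_span ⟨_, ⟨α, by simp, rfl⟩, rfl⟩
      · exact Ideal.subset_span ⟨_, ⟨β, by simp, rfl⟩, rfl⟩
  have hp3 : ((Ideal.span {α, γ, y}).map (PowerSeries.C (R := D))).IsPrime :=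
    ps_prime_mapC _ (hfg _)
  have hpm : ((maximalIdeal D).map (PowerSeries.C (R := D))).IsPrime :=
    ps_prime_mapC _ (hfg _)
  have kα : ∀ I : Ideal D, α ∈ I → γ ∈ I → ∀ f : PowerSeries D,
      Q f ∈ (I.map (PowerSeries.C (R := D))).map Q → f ∈ I.map (PowerSeries.C (R := D)) := by
    intro I h1 h2 f hf
    rw [← Ideal.mem_comap, Ideal.comap_map_of_surjective _ hQs, ← RingHom.ker_eq_comap_bot,
      sup_eq_left.2 (hkQ I h1 h2)] at hf
    exact hf
  have hαm : α ∈ Ideal.span {α, γ, y} := Ideal.subset_span (by simp)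
  have hγm : γ ∈ Ideal.span {α, γ, y} := Ideal.subset_span (by simp)
  have P2 : (Ideal.span {Q (PowerSeries.C y), Q (PowerSeries.C α)}).IsPrime := by
    rw [← k2]
    exact Ideal.map_isPrime_of_surjective hQs (hkQ _ hαm hγm)
  have P3 : (((maximalIdeal D).map (PowerSeries.C (R := D))).map Q).IsPrime :=
    Ideal.map_isPrime_of_surjective hQs (hkQ _ hα hγ)
  have n1 : Q (PowerSeries.C α) ∉ Ideal.span {Q (PowerSeries.C y)} := by
    intro h
    obtain ⟨w, hw⟩ := Ideal.mem_span_singleton.1 h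
    obtain ⟨w, rfl⟩ := hQs w
    rw [← map_mul, Ideal.Quotient.eq, blowIdeal, Ideal.mem_span_singleton] at hw
    obtain ⟨z, hz⟩ := hw
    have h1 := congrArg PowerSeries.constantCoeff hz
    apply hα3
    refine Ideal.mem_span_pair.2 ⟨PowerSeries.constantCoeff w, PowerSeries.constantCoeff z, ?_⟩
    simp only [map_sub, map_mul, PowerSeries.constantCoeff_C, PowerSeries.constantCoeff_X,
      zero_mul, sub_zero] at h1
    linear_combination -h1
  have n2 : Q (PowerSeries.C β) ∉ Ideal.span {Q (PowerSeries.C y), Q (PowerSeries.C α)} := by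
    rw [← k2]
    exact fun h => hβ3 (ps_C_mem_mapC _ (hfg _) _ (kα _ hαm hγm _ h))
  set q : Ideal (Blow α γ) := ((maximalIdeal D).map (PowerSeries.C (R := D))).map Q
    with hqdef
  -- the ring `Λ`
  have hΛd : IsDomain (D ⧸ Ideal.span {α, γ}) := (Ideal.Quotient.isDomain_iff_prime _).2 pr2
  have hΛn : Nontrivial (D ⧸ Ideal.span {α, γ}) := inferInstance
  have hΛl : IsLocalRing (D ⧸ Ideal.span {α, γ}) :=
    IsLocalRing.of_surjective' (Ideal.Quotient.mk _) Ideal.Quotient.mk_surjective
  let fΛ : D →+* D ⧸ Ideal.span {α, γ} := Ideal.Quotient.mk _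
  have hfs : Function.Surjective fΛ := Ideal.Quotient.mk_surjective
  have hαΛ : fΛ α = 0 := Ideal.Quotient.eq_zero_iff_mem.2 (Ideal.subset_span (by simp))
  have hγΛ : fΛ γ = 0 := Ideal.Quotient.eq_zero_iff_mem.2 (Ideal.subset_span (by simp))
  have hyΛ : fΛ y ≠ 0 := fun h => hy3 (Ideal.Quotient.eq_zero_iff_mem.1 h)
  have hc3 : (Ideal.span {fΛ y}).comap fΛ = Ideal.span {α, γ, y} := by
    rw [← Set.image_singleton, ← Ideal.map_span, Ideal.comap_map_of_surjective _ hfs,
      ← RingHom.ker_eq_comap_bot, Ideal.mk_ker, sup_comm, Ideal.span_insert, Ideal.span_insert,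
      Ideal.span_insert, sup_assoc]
  have hyp : Prime (fΛ y) := by
    rw [← Ideal.span_singleton_prime hyΛ]
    have h1 : (Ideal.span {fΛ y}) = (Ideal.span {α, γ, y}).map fΛ := by
      rw [← hc3, Ideal.map_comap_of_surjective _ hfs]
    rw [h1]
    refine Ideal.map_isPrime_of_surjective hfs ?_
    rw [Ideal.mk_ker]
    exact Ideal.span_mono (by
      intro z hz
      rcases hz with rfl | rfl <;> simp)
  have hβΛ : fΛ β ∉ Ideal.span {fΛ y} := by
    intro h
    apply hβ3
    rw [← hc3]
    exact h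
  have hmΛ : maximalIdeal (D ⧸ Ideal.span {α, γ}) = Ideal.span {fΛ y, fΛ β} := by
    rw [map_max fΛ hfs, hm, Ideal.map_span]
    apply le_antisymm
    · rw [Ideal.span_le]
      rintro _ ⟨z, hz, rfl⟩
      rcases hz with rfl | rfl | rfl | rfl
      · show fΛ z ∈ _
        rw [hαΛ]; exact zero_mem _
      · show fΛ z ∈ _
        rw [hγΛ]; exact zero_mem _
      · exact Ideal.subset_span (by simp)
      · exact Ideal.subset_span (by simp)
    · rw [Ideal.span_le]
      rintro z hz
      rcases hz with rfl | rfl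
      · exact Ideal.subset_span ⟨y, by simp, rfl⟩
      · exact Ideal.subset_span ⟨β, by simp, rfl⟩
  obtain ⟨N, hN⟩ := euclid_away (fΛ y) (fΛ β) hmΛ hyp hβΛ
  have hu : ∀ b : Localization.Away (fΛ y), IsUnit b →
      ∃ t : Localization.Away y, IsUnit t ∧ Localization.awayMap fΛ y t = b := fun b hb =>
    units_lift fΛ hfs y hyp (Localization.awayMap fΛ y) (fun d => IsLocalization.map_eq _ d) b hb
  intro P _ _ hfin hproj
  obtain ⟨k, h₁, hh₁, H1⟩ := gab_free _ _ _ q k3 P1 P2 hy0 n1 n2 P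
  obtain ⟨h, rfl⟩ := hQs h₁
  have hh : PowerSeries.map (residue D) h ≠ 0 := by
    intro h2
    apply hh₁
    exact Ideal.mem_map_of_mem Q ((ps_mem_mapC _ (hfg _) h).2 h2)
  have hyn0 : y ≠ 0 := by
    rintro rfl
    exact hy2 (zero_mem _)
  exact blow_core y α γ hγ hα hyn0 hγp hγα hγy hyΛ N hN hu hPF k P h hh H1

end Pool.Agent.QU54.BH
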