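import Mathlib
import Pool.Agent.Lib.QU54.DilSwap

/-!
# The class of pairs obtained by dilatations
-/

set_option autoImplicit false

namespace Pool.Agent.QU54

open IsLocalRing Pool.Agent.QU53

universe u

/-- For `d` given, the smallest class of pairs `(D, y)`, closed under isomorphisms, which contains
`(L⟦v⟧, y)` for every complete regular local ring `L` of dimension `d` and every regular parameter
`y` of `L`, and with `(D, y)` also its dilatations `(D⟦x⟧/(g - x y ^ e), y)`, `e ≥ 1`, `g` an element
of the maximal ideal `m` of `D` outside `m ^ 2 + (y)`. -/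
inductive DilatationTower (d : ℕ) : (D : Type u) → [CommRing D] → D → Prop
  | base (L : Type u) [CommRing L] [IsRegularLocalRing L] [IsAdicComplete (maximalIdeal L) L]
      (hd : ringKrullDim L = d) (y : L) (hy : y ∈ maximalIdeal L)
      (hy2 : y ∉ maximalIdeal L ^ 2) : DilatationTower d (PowerSeries L) (PowerSeries.C y)
  | step (D : Type u) [CommRing D] [IsLocalRing D] (y g : D) (e : ℕ)
      (h : DilatationTower d D y) (he : 0 < e) (hg : g ∈ maximalIdeal D)
      (hg2 : g ∉ maximalIdeal D ^ 2 ⊔ Ideal.span {y}) :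
      DilatationTower d (Dilatation y g e)
        (Ideal.Quotient.mk (dilatationIdeal y g e) (PowerSeries.C y))
  | iso (D D' : Type u) [CommRing D] [CommRing D'] (φ : D ≃+* D') (y : D)
      (h : DilatationTower d D y) : DilatationTower d D' (φ y)

/-- Power series and isomorphisms. -/
noncomputable def mvMapE {A B : Type u} [CommRing A] [CommRing B] (e : A ≃+* B) (n : ℕ) :
    MvPowerSeries (Fin n) A ≃+* MvPowerSeries (Fin n) B :=
  RingEquiv.ofRingHom (MvPowerSeries.map (e : A →+* B)) (MvPowerSeries.map (e.symm : B →+* A))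
    (by ext; simp) (by ext; simp)

theorem mvMapE_C {A B : Type u} [CommRing A] [CommRing B] (e : A ≃+* B) (n : ℕ) (a : A) :
    mvMapE e n (MvPowerSeries.C a) = MvPowerSeries.C (e a) :=
  MvPowerSeries.map_C (e : A →+* B) a

theorem good_iso (d : ℕ) (D D' : Type u) [CommRing D] [CommRing D'] (φ : D ≃+* D') (y : D)
    (h : Good d D y) : Good d D' (φ y) := by
  obtain ⟨hreg, hc, hd, hy, hy2, hPF⟩ := h
  have hreg' : IsRegularLocalRing D' := IsRegularLocalRing.of_ringEquiv φ
  obtain ⟨f, hf⟩ : ∃ f : D →+* D', ∀ a, f a = φ a := ⟨φ.toRingHom, fun _ => rfl⟩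
  have hfs : Function.Surjective f := fun b => ⟨φ.symm b, by rw [hf, RingEquiv.apply_symm_apply]⟩
  have hfi : Function.Injective f := fun a b hab => φ.injective (by rw [← hf, ← hf, hab])
  have hmax : maximalIdeal D = (maximalIdeal D').comap f :=
    (IsLocalRing.eq_maximalIdeal (Ideal.comap_isMaximal_of_surjective f hfs)).symm
  have hmax2 : (maximalIdeal D).map f = maximalIdeal D' := by
    rw [hmax, Ideal.map_comap_of_surjective _ hfs]
  refine ⟨hreg', transport8 φ hc, ?_, ?_, ?_, fun n => ⟨?_, fun h3 => ?_⟩⟩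
  · rw [← ringKrullDim_eq_of_ringEquiv φ, hd]
  · rw [hmax, Ideal.mem_comap, hf] at hy
    exact hy
  · intro h
    apply hy2
    rw [← hmax2, ← Ideal.map_pow, ← hf, ← Ideal.mem_comap, Ideal.comap_map_of_surjective _ hfs,
      ← RingHom.ker_eq_comap_bot, (RingHom.injective_iff_ker_eq_bot _).1 hfi, sup_bot_eq] at h
    exact h
  · exact PFr_away_congr (mvMapE φ n) _ _ (mvMapE_C φ n y) (hPF n).1
  · exact PF_away_congr' (mvMapE φ n) _ _ (mvMapE_C φ n y) ((hPF n).2 h3)

/-- The theorem for the class. -/
theorem good_of_tower (d : ℕ) (D : Type u) [CommRing D] (y : D) (h : DilatationTower d D y) : Good d D y := by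
  induction h with
  | base L hd y hy hy2 => exact good_base d L hd y hy hy2
  | step D y g e _ he hg hg2 ih => exact good_step d D y ih g e he ⟨inferInstance, hg, hg2⟩
  | iso D D' φ y _ ih => exact good_iso d D D' φ y ih

end Pool.Agent.QU54
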