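import Mathlib
import Pool.Agent.Lib.QU54.Dil
import Pool.Agent.Lib.QU54.BlowF

/-!
# The class of pairs obtained by dilatations and blow-ups in dimension four
-/

set_option autoImplicit false

namespace Pool.Agent.QU54.BH

open IsLocalRing Pool.Agent.QU53

universe u

/-- The smallest class of pairs `(D, y)`, closed under isomorphisms, which contains `(L⟦v⟧, y)` for
every complete regular local ring `L` of dimension three and every regular parameter `y` of `L`,
and with `(D, y)`, `m` the maximal ideal of `D`, also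
* `(D⟦c⟧/(γ - c y ^ e), y)`, `e ≥ 1`, `γ` an element of `m` outside `m ^ 2 + (y)`;
* `(D⟦c⟧/(γ - c α), y)`, `α` an element of `m` outside `m ^ 2 + (y)` and `γ` an element of `m`
  outside `m ^ 2 + (y, α)`. -/
inductive BlowTower : (D : Type u) → [CommRing D] → D → Prop
  | base (L : Type u) [CommRing L] [IsRegularLocalRing L] [IsAdicComplete (maximalIdeal L) L]
      (hd : ringKrullDim L = 3) (y : L) (hy : y ∈ maximalIdeal L)
      (hy2 : y ∉ maximalIdeal L ^ 2) : BlowTower (PowerSeries L) (PowerSeries.C y)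
  | dilate (D : Type u) [CommRing D] [IsLocalRing D] (y γ : D) (e : ℕ)
      (h : BlowTower D y) (he : 0 < e) (hγ : γ ∈ maximalIdeal D)
      (hγ2 : γ ∉ maximalIdeal D ^ 2 ⊔ Ideal.span {y}) :
      BlowTower (Dilatation y γ e)
        (Ideal.Quotient.mk (dilatationIdeal y γ e) (PowerSeries.C y))
  | blow (D : Type u) [CommRing D] [IsLocalRing D] (y α γ : D)
      (h : BlowTower D y) (hα : α ∈ maximalIdeal D)
      (hα2 : α ∉ maximalIdeal D ^ 2 ⊔ Ideal.span {y}) (hγ : γ ∈ maximalIdeal D)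
      (hγ2 : γ ∉ maximalIdeal D ^ 2 ⊔ Ideal.span {y, α}) :
      BlowTower (Blow α γ) (Ideal.Quotient.mk (blowIdeal α γ) (PowerSeries.C y))
  | iso (D D' : Type u) [CommRing D] [CommRing D'] (φ : D ≃+* D') (y : D)
      (h : BlowTower D y) : BlowTower D' (φ y)

/-- The property proved for the class. -/
def Good4 (D : Type u) [CommRing D] (y : D) : Prop :=
  ∃ _ : IsRegularLocalRing D, IsAdicComplete (maximalIdeal D) D ∧
    ringKrullDim D = ((4 : ℕ) : WithBot ℕ∞) ∧
    y ∈ maximalIdeal D ∧ y ∉ maximalIdeal D ^ 2 ∧ PF (Localization.Away y)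

/-- Power series in no variables. -/
noncomputable def mvZero (D : Type u) [CommRing D] : D ≃+* MvPowerSeries (Fin 0) D :=
  RingEquiv.ofBijective (MvPowerSeries.C (σ := Fin 0) (R := D)) (by
    refine ⟨MvPowerSeries.C_injective, fun f => ⟨MvPowerSeries.constantCoeff f, ?_⟩⟩
    ext d
    have hd : d = 0 := Subsingleton.elim _ _
    rw [hd, MvPowerSeries.coeff_zero_C]
    rfl)

theorem good4_base (L : Type u) [CommRing L] [IsRegularLocalRing L]
    [IsAdicComplete (maximalIdeal L) L] (hd : ringKrullDim L = 3) (y : L)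
    (hy : y ∈ maximalIdeal L) (hy2 : y ∉ maximalIdeal L ^ 2) :
    Good4 (PowerSeries L) (PowerSeries.C y) := by
  obtain ⟨h1, h2, h3, h4, h5, h6⟩ := good_base 3 L (by exact_mod_cast hd) y hy hy2
  refine ⟨h1, h2, h3, h4, h5, ?_⟩
  refine PF_away_congr' (mvZero (PowerSeries L)).symm _ _ ?_ ((h6 0).2 le_rfl)
  rw [RingEquiv.symm_apply_eq]
  rfl

theorem good4_dilate (D : Type u) [CommRing D] (y : D) (h : Good4 D y) (γ : D) (e : ℕ)
    (he : 0 < e)
    (hγ : ∃ _ : IsLocalRing D, γ ∈ maximalIdeal D ∧ γ ∉ maximalIdeal D ^ 2 ⊔ Ideal.span {y}) :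
    Good4 (Dilatation y γ e) (Ideal.Quotient.mk (dilatationIdeal y γ e) (PowerSeries.C y)) := by
  obtain ⟨hreg, hc, hd, hy, hy2, hPF⟩ := h
  obtain ⟨_, hg1, hg2⟩ := hγ
  obtain ⟨hreg', hc', hd', hy', hy2'⟩ := dil_ring (d := 4) hd y γ hy hy2 hg1 hg2 e he
  have hdom : IsDomain (Dilatation y γ e) := BEH5.Reg.isDomain_of_regular 4 _ hd'
  refine ⟨hreg', hc', hd', hy', hy2', ?_⟩
  have hdom' : IsDomain (MvPowerSeries (Fin 0) (Dilatation y γ e)) := isDomain_mv _ 0
  have h0 : PF (Localization.Away (MvPowerSeries.C y : MvPowerSeries (Fin 0) D)) :=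
    PF_away_congr' (mvZero D) _ _ rfl hPF
  have h1 := dil_main (by exact_mod_cast hd) y γ hy hy2 hg1 hg2 e he 0 h0 (dilQ y γ e 0)
    (dilQ_surj y γ e 0) (dilQ_ker y γ e 0)
  rw [dilQ_C] at h1
  refine PF_away_congr' (mvZero (Dilatation y γ e)).symm _ _ ?_ h1
  rw [RingEquiv.symm_apply_eq]
  rfl

theorem good4_blow (D : Type u) [CommRing D] (y : D) (h : Good4 D y) (α γ : D)
    (hγ : ∃ _ : IsLocalRing D, α ∈ maximalIdeal D ∧ α ∉ maximalIdeal D ^ 2 ⊔ Ideal.span {y} ∧
      γ ∈ maximalIdeal D ∧ γ ∉ maximalIdeal D ^ 2 ⊔ Ideal.span {y, α}) :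
    Good4 (Blow α γ) (Ideal.Quotient.mk (blowIdeal α γ) (PowerSeries.C y)) := by
  obtain ⟨hreg, hc, hd, hy, hy2, hPF⟩ := h
  obtain ⟨_, hα, hα2, hγ1, hγ2⟩ := hγ
  obtain ⟨hreg', hc', hd', hy', hy2'⟩ := blow_ring (d := 3) hd y α γ hy hy2 hα hγ1 hγ2
  exact ⟨hreg', hc', hd', hy', hy2', blow_main (by exact_mod_cast hd) y α γ hy hy2 hα hα2 hγ1 hγ2
    hPF⟩

theorem good4_iso (D D' : Type u) [CommRing D] [CommRing D'] (φ : D ≃+* D') (y : D)
    (h : Good4 D y) : Good4 D' (φ y) := by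
  obtain ⟨hreg, hc, hd, hy, hy2, hPF⟩ := h
  have hreg' : IsRegularLocalRing D' := IsRegularLocalRing.of_ringEquiv φ
  obtain ⟨f, hf⟩ : ∃ f : D →+* D', ∀ a, f a = φ a := ⟨φ.toRingHom, fun _ => rfl⟩
  have hfs : Function.Surjective f := fun b => ⟨φ.symm b, by rw [hf, RingEquiv.apply_symm_apply]⟩
  have hfi : Function.Injective f := fun a b hab => φ.injective (by rw [← hf, ← hf, hab])
  have hmax : maximalIdeal D = (maximalIdeal D').comap f :=
    (IsLocalRing.eq_maximalIdeal (Ideal.comap_isMaximal_of_surjective f hfs)).symm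
  have hmax2 : (maximalIdeal D).map f = maximalIdeal D' := by
    rw [hmax, Ideal.map_comap_of_surjective _ hfs]
  refine ⟨hreg', transport8 φ hc, ?_, ?_, ?_, PF_away_congr' φ _ _ rfl hPF⟩
  · rw [← ringKrullDim_eq_of_ringEquiv φ, hd]
  · rw [hmax, Ideal.mem_comap, hf] at hy
    exact hy
  · intro h
    apply hy2
    rw [← hmax2, ← Ideal.map_pow, ← hf, ← Ideal.mem_comap, Ideal.comap_map_of_surjective _ hfs,
      ← RingHom.ker_eq_comap_bot, (RingHom.injective_iff_ker_eq_bot _).1 hfi, sup_bot_eq] at h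
    exact h

/-- The theorem for the class. -/
theorem good4_of_tower (D : Type u) [CommRing D] (y : D) (h : BlowTower D y) : Good4 D y := by
  induction h with
  | base L hd y hy hy2 => exact good4_base L hd y hy hy2
  | dilate D y γ e _ he hγ hγ2 ih => exact good4_dilate D y ih γ e he ⟨inferInstance, hγ, hγ2⟩
  | blow D y α γ _ hα hα2 hγ hγ2 ih =>
    exact good4_blow D y ih α γ ⟨inferInstance, hα, hα2, hγ, hγ2⟩
  | iso D D' φ y _ ih => exact good4_iso D D' φ y ih

end Pool.Agent.QU54.BH
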