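import Mathlib

/-!
# Definitions for the chain
-/

set_option autoImplicit false

namespace Pool.Agent.QU54.BH

universe u

open Polynomial

/-- The homogenised value `α ^ d H(γ / α)`. -/
noncomputable def homog {T1 T : Type u} [CommRing T1] [CommRing T] [Algebra T1 T] (H : T1[X])
    (α γ : T) : T :=
  ∑ i ∈ Finset.range (H.natDegree + 1),
    algebraMap T1 T (H.coeff i) * α ^ (H.natDegree - i) * γ ^ i

/-- The data at a centre `(α, γ)`. -/
def Ctr {T : Type u} [CommRing T] (α γ : T) : Prop :=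
  ∃ (B : Type u) (_ : CommRing B) (_ : IsDomain B) (π : T →+* B) (N : B → ℕ),
    Function.Surjective π ∧ π α = 0 ∧ π γ = 0 ∧
    (∀ t : T, π t = 0 → t ∈ Ideal.span {α, γ}) ∧
    (∀ β : B, IsUnit β → ∃ t : T, IsUnit t ∧ π t = β) ∧
    (∀ x a : B, a ≠ 0 → ∃ q : B, x - a * q = 0 ∨ N (x - a * q) < N a) ∧
    ∀ H : B[X], H.Monic → ∃ b : B, IsUnit (H.eval b)

end Pool.Agent.QU54.BH
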