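import Mathlib
import Pool.Agent.Lib.QU54.BlowB

/-!
# The ring `(A_𝔭/(γ))[1/y]` as a quotient of a localisation of `A⟦X⟧`
-/

set_option autoImplicit false

namespace Pool.Agent.QU54.BH

universe u

open Polynomial IsLocalRing

/-- The elements `s y ^ i`, `s` outside `𝔭`. -/
def mon {A : Type u} [CommRing A] (𝔭 : Ideal A) [𝔭.IsPrime] (y : A) : Submonoid A :=
  𝔭.primeCompl ⊔ Submonoid.powers y

/-- `A⟦X⟧` localised at the elements `s y ^ i`. -/
abbrev NT {A : Type u} [CommRing A] (𝔭 : Ideal A) [𝔭.IsPrime] (y : A) : Type u :=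
  Localization ((mon 𝔭 y).map (PowerSeries.C (R := A)))

/-- ROW C5. The data of `B = (A_𝔭/(γ))[1/y]`. -/
theorem node_B {A : Type u} [CommRing A] [IsDomain A] [IsNoetherianRing A] (𝔭 : Ideal A)
    [𝔭.IsPrime] (y γ b : A) (hm : 𝔭 = Ideal.span {y, γ, b})
    (p1 : (Ideal.span {γ}).IsPrime) (p2 : (Ideal.span {γ, y}).IsPrime)
    (hγ0 : γ ≠ 0) (hy : y ∉ Ideal.span {γ}) (hb : b ∉ Ideal.span {γ, y}) :
    ∃ (B : Type u) (_ : CommRing B) (_ : IsDomain B)
      (π : NT 𝔭 y →+* B) (N : B → ℕ),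
      Function.Surjective π ∧
      π (algebraMap (PowerSeries A) (NT 𝔭 y) PowerSeries.X) = 0 ∧
      π (algebraMap (PowerSeries A) (NT 𝔭 y) (PowerSeries.C γ)) = 0 ∧
      (∀ t : NT 𝔭 y, π t = 0 → t ∈ Ideal.span {algebraMap (PowerSeries A) (NT 𝔭 y) PowerSeries.X,
        algebraMap (PowerSeries A) (NT 𝔭 y) (PowerSeries.C γ)}) ∧
      (∀ β : B, IsUnit β → ∃ t : NT 𝔭 y, IsUnit t ∧ π t = β) ∧
      (∀ x a : B, a ≠ 0 → ∃ q : B, x - a * q = 0 ∨ N (x - a * q) < N a) := by
  classical
  have hγm : γ ∈ 𝔭 := by rw [hm]; exact Ideal.subset_span (by simp)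
  have hym : y ∈ 𝔭 := by rw [hm]; exact Ideal.subset_span (by simp)
  have hle1 : Ideal.span {γ} ≤ 𝔭 := (Ideal.span_singleton_le_iff_mem _).2 hγm
  have hle2 : Ideal.span {γ, y} ≤ 𝔭 := by
    rw [Ideal.span_le]
    rintro z (rfl | rfl)
    · exact hγm
    · exact hym
  have hdisj : ∀ I : Ideal A, I ≤ 𝔭 → Disjoint (𝔭.primeCompl : Set A) (I : Set A) := by
    intro I hI
    rw [Set.disjoint_left]
    exact fun x hx hx' => hx (hI hx')
  let K := Localization.AtPrime 𝔭
  let j : A →+* K := algebraMap A K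
  have P1 : (Ideal.span {j γ}).IsPrime := by
    have h1 := IsLocalization.isPrime_of_isPrime_disjoint 𝔭.primeCompl K _ p1 (hdisj _ hle1)
    rwa [Ideal.map_span, Set.image_singleton] at h1
  have C1 : (Ideal.span {j γ}).comap j = Ideal.span {γ} := by
    have h1 := IsLocalization.under_map_of_isPrime_disjoint 𝔭.primeCompl K p1 (hdisj _ hle1)
    rwa [Ideal.map_span, Set.image_singleton] at h1
  have P2 : (Ideal.span {j γ, j y}).IsPrime := by
    have h1 := IsLocalization.isPrime_of_isPrime_disjoint 𝔭.primeCompl K _ p2 (hdisj _ hle2)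
    rwa [Ideal.map_span, Set.image_pair] at h1
  have C2 : (Ideal.span {j γ, j y}).comap j = Ideal.span {γ, y} := by
    have h1 := IsLocalization.under_map_of_isPrime_disjoint 𝔭.primeCompl K p2 (hdisj _ hle2)
    rwa [Ideal.map_span, Set.image_pair] at h1
  have hmK : maximalIdeal K = Ideal.span {j y, j γ, j b} := by
    rw [← Localization.AtPrime.map_eq_maximalIdeal]
    have h1 := congrArg (Ideal.map j) hm
    rw [Ideal.map_span, Set.image_insert_eq, Set.image_insert_eq, Set.image_singleton] at h1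
    exact h1
  have hKN : IsNoetherianRing K := IsLocalization.isNoetherianRing 𝔭.primeCompl K inferInstance
  -- the ring `Λ`
  let Λ := K ⧸ Ideal.span {j γ}
  let f : K →+* Λ := Ideal.Quotient.mk _
  have hfs : Function.Surjective f := Ideal.Quotient.mk_surjective
  have hΛd : IsDomain Λ := Ideal.Quotient.isDomain _
  have hΛl : IsLocalRing Λ := IsLocalRing.of_surjective' f hfs
  have hfγ : f (j γ) = 0 := Ideal.Quotient.eq_zero_iff_mem.2 (Ideal.mem_span_singleton_self _)
  have hfy0 : f (j y) ≠ 0 := by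
    intro h
    have h1 : j y ∈ Ideal.span {j γ} := Ideal.Quotient.eq_zero_iff_mem.1 h
    have h2 : y ∈ (Ideal.span {j γ}).comap j := h1
    rw [C1] at h2
    exact hy h2
  have hfc : (Ideal.span {f (j y)}).comap f = Ideal.span {j γ, j y} := by
    have h1 : Ideal.span {f (j y)} = (Ideal.span {j y}).map f := by
      rw [Ideal.map_span, Set.image_singleton]
    rw [h1, Ideal.comap_map_of_surjective _ hfs, ← RingHom.ker_eq_comap_bot, Ideal.mk_ker,
      sup_comm, ← Ideal.span_insert]
  have hfp : Prime (f (j y)) := by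
    rw [← Ideal.span_singleton_prime hfy0]
    have h1 : (Ideal.span {f (j y)}) = (Ideal.span {j γ, j y}).map f := by
      rw [← hfc, Ideal.map_comap_of_surjective _ hfs]
    rw [h1]
    refine Ideal.map_isPrime_of_surjective hfs ?_
    rw [Ideal.mk_ker]
    exact Ideal.span_mono (by simp)
  have hfb : f (j b) ∉ Ideal.span {f (j y)} := by
    intro h
    apply hb
    rw [← C2, ← hfc]
    exact h
  have hmΛ : maximalIdeal Λ = Ideal.span {f (j y), f (j b)} := by
    have h9 : (maximalIdeal K).map f = maximalIdeal Λ :=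
      map_maximalIdeal_of_surjective _ hfs
    rw [← h9, hmK, Ideal.map_span, Set.image_insert_eq, Set.image_insert_eq, Set.image_singleton,
      hfγ]
    apply le_antisymm
    · rw [Ideal.span_le]
      rintro z (rfl | rfl | rfl)
      · exact Ideal.subset_span (by simp)
      · exact zero_mem _
      · exact Ideal.subset_span (by simp)
    · rw [Ideal.span_le]
      rintro z (rfl | rfl)
      · exact Ideal.subset_span (by simp)
      · exact Ideal.subset_span (by simp)
  obtain ⟨N, hN⟩ := euclid_away (f (j y)) (f (j b)) hmΛ hfp hfb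
  let B := Localization.Away (f (j y))
  have hBd : IsDomain B :=
    IsLocalization.isDomain_localization (powers_le_nonZeroDivisors_of_noZeroDivisors hfy0)
  have hBinj : Function.Injective (algebraMap Λ B) :=
    IsLocalization.injective _ (powers_le_nonZeroDivisors_of_noZeroDivisors hfy0)
  let h : A →+* B := (algebraMap Λ B).comp (f.comp j)
  have hhu : ∀ m ∈ mon 𝔭 y, IsUnit (h m) := by
    have h1 : mon 𝔭 y ≤ (IsUnit.submonoid B).comap h := by
      refine sup_le ?_ ?_
      · intro s hs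
        have h2 : IsUnit (j s) := IsLocalization.map_units (M := 𝔭.primeCompl) K ⟨s, hs⟩
        exact (h2.map f).map (algebraMap Λ B)
      · rw [Submonoid.powers_le]
        exact IsLocalization.Away.algebraMap_isUnit (f (j y))
    exact h1
  obtain ⟨π, hπ⟩ : ∃ π : NT 𝔭 y →+* B, ∀ g : PowerSeries A,
      π (algebraMap _ _ g) = h (PowerSeries.constantCoeff g) :=
    ⟨IsLocalization.lift (M := (mon 𝔭 y).map (PowerSeries.C (R := A)))
      (g := h.comp (PowerSeries.constantCoeff (R := A))) (by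
        rintro ⟨_, m, hm, rfl⟩
        show IsUnit (h (PowerSeries.constantCoeff (PowerSeries.C m)))
        rw [PowerSeries.constantCoeff_C]
        exact hhu m hm), fun g => IsLocalization.lift_eq _ g⟩
  -- the map from the localisation of `K`
  let jC : A →+* NT 𝔭 y := (algebraMap (PowerSeries A) (NT 𝔭 y)).comp (PowerSeries.C (R := A))
  have hjC : ∀ m ∈ mon 𝔭 y, IsUnit (jC m) := fun m hm =>
    IsLocalization.map_units (M := (mon 𝔭 y).map (PowerSeries.C (R := A))) (NT 𝔭 y)
      ⟨PowerSeries.C m, m, hm, rfl⟩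
  obtain ⟨ψ₁, hψ₁⟩ : ∃ ψ₁ : K →+* NT 𝔭 y, ∀ a : A, ψ₁ (j a) = jC a :=
    ⟨IsLocalization.lift (M := 𝔭.primeCompl) (g := jC) (fun s =>
      hjC s ((le_sup_left : 𝔭.primeCompl ≤ mon 𝔭 y) s.2)), fun a => IsLocalization.lift_eq _ a⟩
  have hyu : IsUnit (ψ₁ (j y)) := by
    rw [hψ₁]
    exact hjC y ((le_sup_right : Submonoid.powers y ≤ mon 𝔭 y) (Submonoid.mem_powers y))
  obtain ⟨ψ, hψ⟩ : ∃ ψ : Localization.Away (j y) →+* NT 𝔭 y, ∀ k : K,
      ψ (algebraMap K _ k) = ψ₁ k :=
    ⟨IsLocalization.Away.lift (j y) (g := ψ₁) hyu, fun k => IsLocalization.Away.lift_eq _ _ k⟩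
  have haw : ∀ k : K, Localization.awayMap f (j y) (algebraMap K (Localization.Away (j y)) k) =
      algebraMap Λ B (f k) := fun k => IsLocalization.map_eq _ k
  have hπψ : π.comp ψ = Localization.awayMap f (j y) := by
    refine IsLocalization.ringHom_ext (Submonoid.powers (j y)) ?_
    refine IsLocalization.ringHom_ext 𝔭.primeCompl ?_
    ext1 a
    simp only [RingHom.comp_apply]
    rw [hψ]
    change π (ψ₁ (j a)) = _
    rw [hψ₁]
    change π (algebraMap _ _ (PowerSeries.C a)) = _
    rw [hπ, PowerSeries.constantCoeff_C]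
    exact (haw _).symm
  have hπψ' : ∀ z, π (ψ z) = Localization.awayMap f (j y) z := fun z =>
    congrArg (fun g : Localization.Away (j y) →+* B => g z) hπψ
  refine ⟨B, inferInstance, hBd, π, N, ?_, ?_, ?_, ?_, ?_, hN⟩
  · intro x
    obtain ⟨n, l, hl⟩ := IsLocalization.Away.surj (f (j y)) x
    obtain ⟨k, rfl⟩ := hfs l
    obtain ⟨v, hv⟩ := (hyu.pow n).exists_left_inv
    refine ⟨v * ψ₁ k, ?_⟩
    have h1 : ∀ k : K, π (ψ₁ k) = algebraMap Λ B (f k) := by
      intro k
      rw [← hψ, hπψ', haw]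
    have h2 : π v * algebraMap Λ B (f (j y)) ^ n = 1 := by
      rw [← h1, ← map_pow, ← map_mul, hv, map_one]
    rw [map_mul, h1, ← hl, mul_left_comm, h2, mul_one]
  · rw [hπ, PowerSeries.constantCoeff_X, map_zero]
  · rw [hπ, PowerSeries.constantCoeff_C]
    show algebraMap Λ B (f (j γ)) = 0
    rw [hfγ, map_zero]
  · intro t ht
    obtain ⟨g, m, rfl⟩ := IsLocalization.exists_mk'_eq ((mon 𝔭 y).map (PowerSeries.C (R := A))) t
    have h1 : h (PowerSeries.constantCoeff g) = 0 := by
      rw [← hπ, ← IsLocalization.mk'_spec (NT 𝔭 y) g m, map_mul, ht, zero_mul]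
    have h2 : PowerSeries.constantCoeff g ∈ Ideal.span {γ} := by
      have h3 : f (j (PowerSeries.constantCoeff g)) = 0 := hBinj (by rw [map_zero]; exact h1)
      have h4 : j (PowerSeries.constantCoeff g) ∈ Ideal.span {j γ} :=
        Ideal.Quotient.eq_zero_iff_mem.1 h3
      have h5 : PowerSeries.constantCoeff g ∈ (Ideal.span {j γ}).comap j := h4
      rw [C1] at h5
      exact h5
    obtain ⟨w, hw⟩ := Ideal.mem_span_singleton.1 h2
    have h3 : g ∈ Ideal.span {PowerSeries.X, PowerSeries.C γ} := by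
      rw [PowerSeries.eq_X_mul_shift_add_const g, hw, map_mul]
      exact Ideal.add_mem _ (Ideal.mul_mem_right _ _ (Ideal.subset_span (by simp)))
        (Ideal.mul_mem_right _ _ (Ideal.subset_span (by simp)))
    obtain ⟨c, d, hcd⟩ := Ideal.mem_span_pair.1 h3
    have h4 : IsLocalization.mk' (NT 𝔭 y) g m = algebraMap _ _ g *
        IsLocalization.mk' (NT 𝔭 y) 1 m := by
      rw [IsLocalization.mul_mk'_eq_mk'_of_mul, mul_one]
    rw [h4, ← hcd, map_add, map_mul, map_mul]
    refine Ideal.mul_mem_right _ _ (Ideal.add_mem _ (Ideal.mul_mem_left _ _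
      (Ideal.subset_span (by simp))) (Ideal.mul_mem_left _ _ (Ideal.subset_span (by simp))))
  · intro β hβ
    obtain ⟨t, ht, rfl⟩ := units_lift f hfs (j y) hfp (Localization.awayMap f (j y))
      haw β hβ
    exact ⟨ψ t, ht.map ψ, hπψ' t⟩

end Pool.Agent.QU54.BH
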