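import Mathlib
import Pool.Agent.Lib.QU54.BlowB
import Pool.Agent.Lib.QU54.NodeE
import Pool.Agent.Lib.QU54.ChainD

/-!
# The centres of `NT 𝔭 y`
-/

set_option autoImplicit false

namespace Pool.Agent.QU54.BH

universe u

open Polynomial IsLocalRing

/-- A monic polynomial over `Λ[1/y]` has a unit value, if `Λ` is local and `y` is not a unit. -/
theorem ChainC.eval_unit {Λ B : Type u} [CommRing Λ] [IsLocalRing Λ] [CommRing B] [Algebra Λ B]
    (y : Λ) [IsLocalization.Away y B] (hy : y ∈ maximalIdeal Λ) (H : B[X]) (hH : H.Monic) :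
    ∃ b : B, IsUnit (H.eval b) := by
  classical
  obtain ⟨v, hv⟩ := (IsLocalization.Away.algebraMap_isUnit (S := B) y).exists_right_inv
  have hc : ∀ i : ℕ, ∃ (n : ℕ) (l : Λ), H.coeff i * algebraMap Λ B y ^ n = algebraMap Λ B l :=
    fun i => by
      obtain ⟨n, l, hl⟩ := IsLocalization.Away.surj y (H.coeff i)
      exact ⟨n, l, hl⟩
  choose n l hl using hc
  set d := H.natDegree with hd
  let N := ∑ i ∈ Finset.range d, n i
  refine ⟨v ^ (N + 1), ?_⟩
  have h1 : algebraMap Λ B y ^ ((N + 1) * d) * H.eval (v ^ (N + 1)) =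
      algebraMap Λ B (1 + y * ∑ i ∈ Finset.range d, l i * y ^ ((N + 1) * (d - i) - n i - 1)) := by
    conv_lhs => rw [hH.as_sum]
    rw [eval_add, eval_pow, eval_X, eval_finsetSum, mul_add, map_add, map_one, map_mul, map_sum]
    congr 1
    · rw [← pow_mul, ← mul_pow, hv, one_pow]
    · rw [Finset.mul_sum, Finset.mul_sum]
      refine Finset.sum_congr rfl fun i hi => ?_
      rw [eval_mul, eval_C, eval_pow, eval_X]
      have hi' : i < d := Finset.mem_range.1 hi
      have h2 : n i ≤ N := Finset.single_le_sum (fun _ _ => Nat.zero_le _) hi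
      have h3 : N + 1 ≤ (N + 1) * (d - i) := Nat.le_mul_of_pos_right _ (by omega)
      obtain ⟨e, he⟩ : ∃ e, (N + 1) * (d - i) = n i + (e + 1) :=
        ⟨(N + 1) * (d - i) - n i - 1, by omega⟩
      have h4 : (N + 1) * (d - i) - n i - 1 = e := by omega
      have h5 : (N + 1) * d = n i + (e + 1) + (N + 1) * i := by
        rw [← he, ← mul_add, Nat.sub_add_cancel hi'.le]
      rw [h4, h5, map_mul, map_pow, ← hl, pow_add _ _ ((N + 1) * i), ← pow_mul, pow_add, pow_succ]
      have h6 : algebraMap Λ B y ^ ((N + 1) * i) * v ^ ((N + 1) * i) = 1 := by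
        rw [← mul_pow, hv, one_pow]
      linear_combination (algebraMap Λ B y ^ n i * (algebraMap Λ B y ^ e * algebraMap Λ B y) *
        H.coeff i) * h6
  have h2 : IsUnit (1 + y * ∑ i ∈ Finset.range d, l i * y ^ ((N + 1) * (d - i) - n i - 1)) := by
    by_contra h
    have h3 := (mem_maximalIdeal _).2 h
    have h4 : (1 : Λ) ∈ maximalIdeal Λ := by
      have h5 := Ideal.sub_mem _ h3 (Ideal.mul_mem_right
        (∑ i ∈ Finset.range d, l i * y ^ ((N + 1) * (d - i) - n i - 1)) _ hy)
      rwa [add_sub_cancel_right] at h5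
    exact (mem_maximalIdeal _).1 h4 isUnit_one
  have h3 := h2.map (algebraMap Λ B)
  rw [← h1] at h3
  exact isUnit_of_mul_isUnit_right h3

/-- ROW K6. The centres of `NT 𝔭 y`. -/
theorem node_ctr {A : Type u} [CommRing A] [IsDomain A] [IsNoetherianRing A] (𝔭 : Ideal A)
    [𝔭.IsPrime] (y b : A) (α γ : PowerSeries A) (ev : PowerSeries A →+* A)
    (hev : ∀ a : A, ev (PowerSeries.C a) = a) (hevα : ev α = 0)
    (hevk : ∀ f : PowerSeries A, ev f = 0 → α ∣ f)
    (hm : 𝔭 = Ideal.span {y, ev γ, b})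
    (p1 : (Ideal.span {ev γ}).IsPrime) (p2 : (Ideal.span {ev γ, y}).IsPrime)
    (hγ0 : ev γ ≠ 0) (hy : y ∉ Ideal.span {ev γ}) (hb : b ∉ Ideal.span {ev γ, y}) :
    Ctr (algebraMap (PowerSeries A) (NT 𝔭 y) α) (algebraMap (PowerSeries A) (NT 𝔭 y) γ) := by
  classical
  set ζ : A := ev γ with hζdef
  have hζm : ζ ∈ 𝔭 := by rw [hm]; exact Ideal.subset_span (by simp)
  have hym : y ∈ 𝔭 := by rw [hm]; exact Ideal.subset_span (by simp)
  have hle1 : Ideal.span {ζ} ≤ 𝔭 := (Ideal.span_singleton_le_iff_mem _).2 hζm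
  have hle2 : Ideal.span {ζ, y} ≤ 𝔭 := by
    rw [Ideal.span_le]
    rintro z (rfl | rfl)
    · exact hζm
    · exact hym
  have hdisj : ∀ I : Ideal A, I ≤ 𝔭 → Disjoint (𝔭.primeCompl : Set A) (I : Set A) := by
    intro I hI
    rw [Set.disjoint_left]
    exact fun x hx hx' => hx (hI hx')
  let K := Localization.AtPrime 𝔭
  let j : A →+* K := algebraMap A K
  have P1 : (Ideal.span {j ζ}).IsPrime := by
    have h1 := IsLocalization.isPrime_of_isPrime_disjoint 𝔭.primeCompl K _ p1 (hdisj _ hle1)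
    rwa [Ideal.map_span, Set.image_singleton] at h1
  have C1 : (Ideal.span {j ζ}).comap j = Ideal.span {ζ} := by
    have h1 := IsLocalization.under_map_of_isPrime_disjoint 𝔭.primeCompl K p1 (hdisj _ hle1)
    rwa [Ideal.map_span, Set.image_singleton] at h1
  have P2 : (Ideal.span {j ζ, j y}).IsPrime := by
    have h1 := IsLocalization.isPrime_of_isPrime_disjoint 𝔭.primeCompl K _ p2 (hdisj _ hle2)
    rwa [Ideal.map_span, Set.image_pair] at h1
  have C2 : (Ideal.span {j ζ, j y}).comap j = Ideal.span {ζ, y} := by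
    have h1 := IsLocalization.under_map_of_isPrime_disjoint 𝔭.primeCompl K p2 (hdisj _ hle2)
    rwa [Ideal.map_span, Set.image_pair] at h1
  have hmK : maximalIdeal K = Ideal.span {j y, j ζ, j b} := by
    rw [← Localization.AtPrime.map_eq_maximalIdeal]
    have h1 := congrArg (Ideal.map j) hm
    rw [Ideal.map_span, Set.image_insert_eq, Set.image_insert_eq, Set.image_singleton] at h1
    exact h1
  have hKN : IsNoetherianRing K := IsLocalization.isNoetherianRing 𝔭.primeCompl K inferInstance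
  -- the ring `Λ`
  let Λ := K ⧸ Ideal.span {j ζ}
  let f : K →+* Λ := Ideal.Quotient.mk _
  have hfs : Function.Surjective f := Ideal.Quotient.mk_surjective
  have hΛd : IsDomain Λ := Ideal.Quotient.isDomain _
  have hΛl : IsLocalRing Λ := IsLocalRing.of_surjective' f hfs
  have hfζ : f (j ζ) = 0 := Ideal.Quotient.eq_zero_iff_mem.2 (Ideal.mem_span_singleton_self _)
  have hfy0 : f (j y) ≠ 0 := by
    intro h
    have h1 : j y ∈ Ideal.span {j ζ} := Ideal.Quotient.eq_zero_iff_mem.1 h
    have h2 : y ∈ (Ideal.span {j ζ}).comap j := h1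
    rw [C1] at h2
    exact hy h2
  have hfc : (Ideal.span {f (j y)}).comap f = Ideal.span {j ζ, j y} := by
    have h1 : Ideal.span {f (j y)} = (Ideal.span {j y}).map f := by
      rw [Ideal.map_span, Set.image_singleton]
    rw [h1, Ideal.comap_map_of_surjective _ hfs, ← RingHom.ker_eq_comap_bot, Ideal.mk_ker,
      sup_comm, ← Ideal.span_insert]
  have hfp : Prime (f (j y)) := by
    rw [← Ideal.span_singleton_prime hfy0]
    have h1 : (Ideal.span {f (j y)}) = (Ideal.span {j ζ, j y}).map f := by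
      rw [← hfc, Ideal.map_comap_of_surjective _ hfs]
    rw [h1]
    refine Ideal.map_isPrime_of_surjective hfs ?_
    rw [Ideal.mk_ker]
    exact Ideal.span_mono (by simp)
  have hfb : f (j b) ∉ Ideal.span {f (j y)} := by
    intro h
    apply hb
    rw [← C2, ← hfc]
    exact h
  have hmΛ : maximalIdeal Λ = Ideal.span {f (j y), f (j b)} := by
    have h9 : (maximalIdeal K).map f = maximalIdeal Λ :=
      map_maximalIdeal_of_surjective _ hfs
    rw [← h9, hmK, Ideal.map_span, Set.image_insert_eq, Set.image_insert_eq, Set.image_singleton,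
      hfζ]
    apply le_antisymm
    · rw [Ideal.span_le]
      rintro z (rfl | rfl | rfl)
      · exact Ideal.subset_span (by simp)
      · exact zero_mem _
      · exact Ideal.subset_span (by simp)
    · rw [Ideal.span_le]
      rintro z (rfl | rfl)
      · exact Ideal.subset_span (by simp)
      · exact Ideal.subset_span (by simp)
  obtain ⟨N, hN⟩ := euclid_away (f (j y)) (f (j b)) hmΛ hfp hfb
  let B := Localization.Away (f (j y))
  have hBd : IsDomain B :=
    IsLocalization.isDomain_localization (powers_le_nonZeroDivisors_of_noZeroDivisors hfy0)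
  have hBinj : Function.Injective (algebraMap Λ B) :=
    IsLocalization.injective _ (powers_le_nonZeroDivisors_of_noZeroDivisors hfy0)
  let h : A →+* B := (algebraMap Λ B).comp (f.comp j)
  have hhu : ∀ m ∈ mon 𝔭 y, IsUnit (h m) := by
    have h1 : mon 𝔭 y ≤ (IsUnit.submonoid B).comap h := by
      refine sup_le ?_ ?_
      · intro s hs
        have h2 : IsUnit (j s) := IsLocalization.map_units (M := 𝔭.primeCompl) K ⟨s, hs⟩
        exact (h2.map f).map (algebraMap Λ B)
      · rw [Submonoid.powers_le]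
        exact IsLocalization.Away.algebraMap_isUnit (f (j y))
    exact h1
  obtain ⟨π, hπ⟩ : ∃ π : NT 𝔭 y →+* B, ∀ g : PowerSeries A,
      π (algebraMap _ _ g) = h (ev g) :=
    ⟨IsLocalization.lift (M := (mon 𝔭 y).map (PowerSeries.C (R := A)))
      (g := h.comp ev) (by
        rintro ⟨_, m, hm, rfl⟩
        show IsUnit (h (ev (PowerSeries.C m)))
        rw [hev]
        exact hhu m hm), fun g => IsLocalization.lift_eq _ g⟩
  -- the map from the localisation of `K`
  let jC : A →+* NT 𝔭 y := (algebraMap (PowerSeries A) (NT 𝔭 y)).comp (PowerSeries.C (R := A))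
  have hjC : ∀ m ∈ mon 𝔭 y, IsUnit (jC m) := fun m hm =>
    IsLocalization.map_units (M := (mon 𝔭 y).map (PowerSeries.C (R := A))) (NT 𝔭 y)
      ⟨PowerSeries.C m, m, hm, rfl⟩
  obtain ⟨ψ₁, hψ₁⟩ : ∃ ψ₁ : K →+* NT 𝔭 y, ∀ a : A, ψ₁ (j a) = jC a :=
    ⟨IsLocalization.lift (M := 𝔭.primeCompl) (g := jC) (fun s =>
      hjC s ((le_sup_left : 𝔭.primeCompl ≤ mon 𝔭 y) s.2)), fun a => IsLocalization.lift_eq _ a⟩
  have hyu : IsUnit (ψ₁ (j y)) := by
    rw [hψ₁]
    exact hjC y ((le_sup_right : Submonoid.powers y ≤ mon 𝔭 y) (Submonoid.mem_powers y))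
  obtain ⟨ψ, hψ⟩ : ∃ ψ : Localization.Away (j y) →+* NT 𝔭 y, ∀ k : K,
      ψ (algebraMap K _ k) = ψ₁ k :=
    ⟨IsLocalization.Away.lift (j y) (g := ψ₁) hyu, fun k => IsLocalization.Away.lift_eq _ _ k⟩
  have haw : ∀ k : K, Localization.awayMap f (j y) (algebraMap K (Localization.Away (j y)) k) =
      algebraMap Λ B (f k) := fun k => IsLocalization.map_eq _ k
  have hπψ : π.comp ψ = Localization.awayMap f (j y) := by
    refine IsLocalization.ringHom_ext (Submonoid.powers (j y)) ?_
    refine IsLocalization.ringHom_ext 𝔭.primeCompl ?_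
    ext1 a
    simp only [RingHom.comp_apply]
    rw [hψ]
    change π (ψ₁ (j a)) = _
    rw [hψ₁]
    change π (algebraMap _ _ (PowerSeries.C a)) = _
    rw [hπ, hev]
    exact (haw _).symm
  have hπψ' : ∀ z, π (ψ z) = Localization.awayMap f (j y) z := fun z =>
    congrArg (fun g : Localization.Away (j y) →+* B => g z) hπψ
  refine ⟨B, inferInstance, hBd, π, N, ?_, ?_, ?_, ?_, ?_, hN, ?_⟩
  · intro x
    obtain ⟨n, l, hl⟩ := IsLocalization.Away.surj (f (j y)) x
    obtain ⟨k, rfl⟩ := hfs l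
    obtain ⟨v, hv⟩ := (hyu.pow n).exists_left_inv
    refine ⟨v * ψ₁ k, ?_⟩
    have h1 : ∀ k : K, π (ψ₁ k) = algebraMap Λ B (f k) := by
      intro k
      rw [← hψ, hπψ', haw]
    have h2 : π v * algebraMap Λ B (f (j y)) ^ n = 1 := by
      rw [← h1, ← map_pow, ← map_mul, hv, map_one]
    rw [map_mul, h1, ← hl, mul_left_comm, h2, mul_one]
  · rw [hπ, hevα, map_zero]
  · rw [hπ]
    show algebraMap Λ B (f (j ζ)) = 0
    rw [hfζ, map_zero]
  · intro t ht
    obtain ⟨g, m, rfl⟩ := IsLocalization.exists_mk'_eq ((mon 𝔭 y).map (PowerSeries.C (R := A))) t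
    have h1 : h (ev g) = 0 := by
      rw [← hπ, ← IsLocalization.mk'_spec (NT 𝔭 y) g m, map_mul, ht, zero_mul]
    have h2 : ev g ∈ Ideal.span {ζ} := by
      have h3 : f (j (ev g)) = 0 := hBinj (by rw [map_zero]; exact h1)
      have h4 : j (ev g) ∈ Ideal.span {j ζ} :=
        Ideal.Quotient.eq_zero_iff_mem.1 h3
      have h5 : ev g ∈ (Ideal.span {j ζ}).comap j := h4
      rw [C1] at h5
      exact h5
    obtain ⟨w, hw⟩ := Ideal.mem_span_singleton.1 h2
    have h3 : g ∈ Ideal.span {α, γ} := by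
      have h6 : ev (g - γ * PowerSeries.C w) = 0 := by
        rw [map_sub, map_mul, hev, hw, hζdef, sub_self]
      obtain ⟨r, hr⟩ := hevk _ h6
      have h7 : g = α * r + γ * PowerSeries.C w := by rw [← hr]; ring
      rw [h7]
      exact Ideal.add_mem _ (Ideal.mul_mem_right _ _ (Ideal.subset_span (by simp)))
        (Ideal.mul_mem_right _ _ (Ideal.subset_span (by simp)))
    obtain ⟨c, d, hcd⟩ := Ideal.mem_span_pair.1 h3
    have h4 : IsLocalization.mk' (NT 𝔭 y) g m = algebraMap _ _ g *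
        IsLocalization.mk' (NT 𝔭 y) 1 m := by
      rw [IsLocalization.mul_mk'_eq_mk'_of_mul, mul_one]
    rw [h4, ← hcd, map_add, map_mul, map_mul]
    refine Ideal.mul_mem_right _ _ (Ideal.add_mem _ (Ideal.mul_mem_left _ _
      (Ideal.subset_span (by simp))) (Ideal.mul_mem_left _ _ (Ideal.subset_span (by simp))))
  · intro β hβ
    obtain ⟨t, ht, rfl⟩ := units_lift f hfs (j y) hfp (Localization.awayMap f (j y))
      haw β hβ
    exact ⟨ψ t, ht.map ψ, hπψ' t⟩
  · intro H hH
    exact ChainC.eval_unit (f (j y)) (by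
      rw [hmΛ]
      exact Ideal.subset_span (by simp)) H hH

end Pool.Agent.QU54.BH
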