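import Mathlib

/-!
# The algebras `T[c]/(α c - γ)`
-/

set_option autoImplicit false

namespace Pool.Agent.QU54.BH

universe u

open Polynomial

/-- `E = T[c]/(α c - γ)`. -/
structure Pres (T E : Type u) [CommRing T] [CommRing E] [Algebra T E] (α γ : T) (c : E) :
    Prop where
  surj : Function.Surjective (aeval c : T[X] →ₐ[T] E)
  rel : algebraMap T E α * c = algebraMap T E γ
  ker : ∀ f : T[X], aeval c f = 0 → (C α * X - C γ) ∣ f

theorem Pres.inj {T E : Type u} [CommRing T] [IsDomain T] [CommRing E] [Algebra T E] {α γ : T}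
    {c : E} (h : Pres T E α γ c) (hα0 : α ≠ 0) : Function.Injective (algebraMap T E) := by
  rw [injective_iff_map_eq_zero]
  intro t ht
  by_contra ht0
  obtain ⟨w, hw⟩ := h.ker (C t) (by rw [aeval_C, ht])
  have hw0 : w ≠ 0 := by
    rintro rfl
    rw [mul_zero] at hw
    exact ht0 (C_eq_zero.1 hw)
  have h3 : (C α * X - C γ : T[X]).natDegree = 1 := by
    rw [sub_eq_add_neg, ← C_neg]
    exact natDegree_linear hα0
  have h4 : (C α * X - C γ : T[X]) ≠ 0 := by
    intro h
    rw [h, natDegree_zero] at h3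
    exact absurd h3 (by norm_num)
  have h5 := congrArg natDegree hw
  rw [natDegree_C, natDegree_mul h4 hw0, h3] at h5
  omega

/-- The reduction modulo `α`. -/
theorem Pres.rho {T E B : Type u} [CommRing T] [CommRing E] [Algebra T E] [CommRing B] {α γ : T}
    {c : E} (h : Pres T E α γ c) (π : T →+* B) (hπα : π α = 0) (hπγ : π γ = 0)
    (hk : ∀ t : T, π t = 0 → t ∈ Ideal.span {α, γ}) :
    ∃ ρ : E →+* B[X], (∀ f : T[X], ρ (aeval c f) = f.map π) ∧
      ∀ x : E, ρ x = 0 → algebraMap T E α ∣ x := by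
  let ρ : E →+* B[X] := RingHom.liftOfSurjective (aeval c : T[X] →ₐ[T] E).toRingHom h.surj
    ⟨Polynomial.mapRingHom π, by
      intro g hg
      obtain ⟨w, rfl⟩ := h.ker g hg
      rw [RingHom.mem_ker, map_mul, map_sub, map_mul, coe_mapRingHom, Polynomial.map_C,
        Polynomial.map_C, hπα, hπγ, C_0, zero_mul, sub_zero, zero_mul]⟩
  have hρ : ∀ g : T[X], ρ (aeval c g) = g.map π := fun g =>
    RingHom.liftOfSurjective_comp_apply (aeval c : T[X] →ₐ[T] E).toRingHom h.surj _ g
  refine ⟨ρ, hρ, fun x hx => ?_⟩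
  obtain ⟨g, rfl⟩ := h.surj x
  rw [hρ] at hx
  have h3 : g ∈ (Ideal.span {α, γ}).map (C : T →+* T[X]) := by
    rw [Ideal.mem_map_C_iff]
    intro i
    apply hk
    rw [← coeff_map, hx, coeff_zero]
  rw [Ideal.map_span, Set.image_insert_eq, Set.image_singleton] at h3
  obtain ⟨a, b, rfl⟩ := Ideal.mem_span_pair.1 h3
  refine ⟨aeval c a + aeval c b * c, ?_⟩
  rw [map_add, map_mul, map_mul, aeval_C, aeval_C, ← h.rel]
  ring

end Pool.Agent.QU54.BH
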