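import Mathlib
import Pool.Agent.Lib.QU54.Pres

/-!
# The chain, row K4: the intermediate ring (helper32)

`E = T[c]/(h α c - γ)`; the subring `E' = T[α c]` is `T[c']/(h c' - γ)`, and `E = E'[c]/(α c - c')`.
-/

set_option autoImplicit false

namespace Pool.Agent.QU54.BH

universe u

open Polynomial

namespace ChainM

theorem root_dvd {T K : Type u} [CommRing T] [IsDomain T] [Field K] [Algebra T K]
    (hinj : Function.Injective (algebraMap T K)) {h γ : T} (hh0 : h ≠ 0) (hγ : Prime γ)
    (hγh : ¬ γ ∣ h) :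
    ∀ (n : ℕ) (f : T[X]), f.natDegree ≤ n →
      aeval (algebraMap T K γ / algebraMap T K h) f = 0 → (C h * X - C γ) ∣ f := by
  intro n
  obtain ⟨z, hz⟩ : ∃ z : K, z = algebraMap T K γ / algebraMap T K h := ⟨_, rfl⟩
  rw [← hz]
  have hhK : algebraMap T K h ≠ 0 := by rwa [Ne, map_eq_zero_iff _ hinj]
  have hγK : algebraMap T K γ ≠ 0 := by rw [Ne, map_eq_zero_iff _ hinj]; exact hγ.ne_zero
  have hz0 : z ≠ 0 := by rw [hz]; exact div_ne_zero hγK hhK
  have hzh : algebraMap T K h * z = algebraMap T K γ := by rw [hz]; field_simp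
  induction n with
  | zero =>
    intro f hf hfz
    rw [Nat.le_zero, natDegree_eq_zero] at hf
    obtain ⟨a, rfl⟩ := hf
    rw [aeval_C, map_eq_zero_iff _ hinj] at hfz
    rw [hfz, C_0]
    exact dvd_zero _
  | succ n ih =>
    intro f hf hfz
    have h1 : γ ∣ f.coeff 0 := by
      have h2 : (scaleRoots f h).eval γ = 0 := by
        have h3 := scaleRoots_eval₂_mul (algebraMap T K) (p := f) z h
        rw [hzh, ← aeval_def z f, hfz, mul_zero, eval₂_at_apply] at h3
        exact (map_eq_zero_iff _ hinj).1 h3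
      have h3 := sub_dvd_eval_sub γ 0 (scaleRoots f h)
      rw [h2, sub_zero, zero_sub, dvd_neg, ← coeff_zero_eq_eval_zero, coeff_scaleRoots,
        Nat.sub_zero] at h3
      rcases hγ.dvd_or_dvd h3 with h4 | h4
      · exact h4
      · exact absurd (hγ.dvd_of_dvd_pow h4) hγh
    obtain ⟨r, hr⟩ := h1
    have h2 : f = X * (divX f + C (r * h)) - C r * (C h * X - C γ) := by
      conv_lhs => rw [← divX_mul_X_add f, hr]
      simp only [C_mul]
      ring
    have h3 : (divX f + C (r * h)).natDegree ≤ n := by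
      refine (natDegree_add_C).trans_le ?_
      rw [natDegree_divX_eq_natDegree_tsub_one]
      omega
    have h4 : aeval z (divX f + C (r * h)) = 0 := by
      have h5 : aeval z (C r * (C h * X - C γ)) = 0 := by
        rw [map_mul, map_sub, map_mul, aeval_X, aeval_C, aeval_C, aeval_C, hzh, sub_self, mul_zero]
      rw [h2, map_sub, h5, sub_zero, _root_.map_mul, aeval_X] at hfz
      exact (mul_eq_zero.1 hfz).resolve_left hz0
    rw [h2]
    exact dvd_sub (dvd_mul_of_dvd_right (ih _ h3 h4) _) (dvd_mul_left _ _)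

theorem lift_mod {T E' : Type u} [CommRing T] [CommRing E'] [Algebra T E'] (α : T) (c' : E')
    (hs : Function.Surjective (aeval c' : T[X] →ₐ[T] E')) (F : E'[X]) :
    ∃ g : T[X], (C (algebraMap T E' α) * X - C c') ∣ F - g.map (algebraMap T E') := by
  induction F using Polynomial.induction_on with
  | C e =>
    obtain ⟨f, rfl⟩ := hs e
    refine ⟨f.comp (C α * X), ?_⟩
    have h1 := sub_dvd_eval_sub (C (algebraMap T E' α) * X) (C c')
      (f.map ((C : E' →+* E'[X]).comp (algebraMap T E')))
    have h2 : (f.map ((C : E' →+* E'[X]).comp (algebraMap T E'))).eval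
        (C (algebraMap T E' α) * X) = (f.comp (C α * X)).map (algebraMap T E') := by
      rw [Polynomial.map_comp, Polynomial.map_mul, Polynomial.map_C, Polynomial.map_X,
        ← Polynomial.map_map, comp, eval₂_eq_eval_map]
    have h3 : (f.map ((C : E' →+* E'[X]).comp (algebraMap T E'))).eval (C c') =
        C (aeval c' f) := by
      rw [eval_map, ← hom_eval₂]
      rfl
    rw [h2, h3] at h1
    rw [← neg_sub (map (algebraMap T E') (f.comp (C α * X))) (C (aeval c' f)), dvd_neg]
    exact h1
  | add p q hp hq =>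
    obtain ⟨g1, h1⟩ := hp
    obtain ⟨g2, h2⟩ := hq
    refine ⟨g1 + g2, ?_⟩
    rw [Polynomial.map_add, add_sub_add_comm]
    exact dvd_add h1 h2
  | monomial n e h =>
    obtain ⟨g, h1⟩ := h
    refine ⟨g * X, ?_⟩
    rw [Polynomial.map_mul, Polynomial.map_X, pow_succ, ← mul_assoc, ← sub_mul]
    exact dvd_mul_of_dvd_left h1 _

end ChainM

open ChainM in
/-- ROW K4. The intermediate ring. -/
theorem pres_mid {T1 E : Type u} [CommRing T1] [IsDomain T1] [IsNoetherianRing T1] [CommRing E]
    [IsDomain E] [Algebra T1 E] {h' α γ : T1} {c : E} (h : Pres T1 E (h' * α) γ c)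
    (hh0 : h' ≠ 0) (hα0 : α ≠ 0) (hγ : Prime γ) (hγh : ¬ γ ∣ h') :
    ∃ (E' : Type u) (_ : CommRing E') (_ : IsDomain E') (_ : IsNoetherianRing E')
      (_ : Algebra T1 E') (_ : Algebra E' E) (_ : IsScalarTower T1 E' E) (c' : E'),
      Pres T1 E' h' γ c' ∧ Pres E' E (algebraMap T1 E' α) c' c := by
  obtain ⟨S, hS⟩ : ∃ S : Subalgebra T1 E,
    S = (aeval (algebraMap T1 E α * c) : T1[X] →ₐ[T1] E).range := ⟨_, rfl⟩
  have hmem : algebraMap T1 E α * c ∈ S := by
    rw [hS]
    exact ⟨X, aeval_X _⟩
  obtain ⟨c', hc'⟩ : ∃ c' : S, c' = ⟨algebraMap T1 E α * c, hmem⟩ := ⟨_, rfl⟩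
  have hcv : algebraMap S E c' = algebraMap T1 E α * c := by rw [hc']; rfl
  have hev : ∀ f : T1[X], algebraMap S E (aeval c' f) = aeval (algebraMap T1 E α * c) f := by
    intro f
    rw [← hcv, aeval_algebraMap_apply]
  have hinjS : Function.Injective (algebraMap S E) := Subtype.val_injective
  have hsurj : Function.Surjective (aeval c' : T1[X] →ₐ[T1] S) := by
    intro x
    have hx : (x : E) ∈ (aeval (algebraMap T1 E α * c) : T1[X] →ₐ[T1] E).range := hS ▸ x.2
    obtain ⟨f, hf⟩ := hx
    refine ⟨f, hinjS ?_⟩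
    rw [hev]
    exact hf
  have hnoeth : IsNoetherianRing S :=
    isNoetherianRing_of_surjective T1[X] S (aeval c' : T1[X] →ₐ[T1] S).toRingHom hsurj
  have hrel : algebraMap T1 S h' * c' = algebraMap T1 S γ := by
    apply hinjS
    rw [map_mul, hcv, ← IsScalarTower.algebraMap_apply, ← IsScalarTower.algebraMap_apply, ← h.rel,
      map_mul, mul_assoc]
  refine ⟨S, inferInstance, inferInstance, hnoeth, inferInstance, inferInstance, inferInstance,
    c', ⟨hsurj, hrel, ?_⟩, ⟨?_, ?_, ?_⟩⟩
  · intro f hf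
    have h1 : aeval c (f.comp (C α * X)) = 0 := by
      rw [aeval_comp, map_mul, aeval_C, aeval_X, ← hev, hf, map_zero]
    obtain ⟨w, hw⟩ := h.ker _ h1
    refine root_dvd (K := FractionRing T1) (IsFractionRing.injective T1 (FractionRing T1)) hh0 hγ
      hγh f.natDegree f le_rfl ?_
    have hα : algebraMap T1 (FractionRing T1) α ≠ 0 := by
      rwa [Ne, map_eq_zero_iff _ (IsFractionRing.injective T1 (FractionRing T1))]
    have hh : algebraMap T1 (FractionRing T1) h' ≠ 0 := by
      rwa [Ne, map_eq_zero_iff _ (IsFractionRing.injective T1 (FractionRing T1))]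
    have h2 := congrArg (aeval (algebraMap T1 (FractionRing T1) γ /
      algebraMap T1 (FractionRing T1) h' / algebraMap T1 (FractionRing T1) α)) hw
    rw [aeval_comp, map_mul, map_mul, map_sub, map_mul, aeval_C, aeval_C, aeval_C, aeval_X,
      mul_div_cancel₀ _ hα, map_mul] at h2
    rw [h2]
    have h3 : algebraMap T1 (FractionRing T1) h' * algebraMap T1 (FractionRing T1) α *
        (algebraMap T1 (FractionRing T1) γ / algebraMap T1 (FractionRing T1) h' /
          algebraMap T1 (FractionRing T1) α) - algebraMap T1 (FractionRing T1) γ = 0 := by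
      field_simp
      ring
    rw [h3, zero_mul]
  · intro x
    obtain ⟨f, rfl⟩ := h.surj x
    exact ⟨f.map (algebraMap T1 S), aeval_map_algebraMap _ _ _⟩
  · rw [hcv, ← IsScalarTower.algebraMap_apply]
  · intro F hF
    obtain ⟨g, hg⟩ := lift_mod α c' hsurj F
    have h1 : aeval c (C (algebraMap T1 S α) * X - C c') = 0 := by
      rw [map_sub, map_mul, aeval_C, aeval_C, aeval_X, hcv, ← IsScalarTower.algebraMap_apply,
        sub_self]
    have h2 : aeval c g = 0 := by
      obtain ⟨w, hw⟩ := hg
      have h3 := congrArg (aeval c) hw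
      rw [map_sub, map_mul, h1, zero_mul, hF, zero_sub, neg_eq_zero, aeval_map_algebraMap] at h3
      exact h3
    obtain ⟨w, hw⟩ := h.ker g h2
    have h3 : g.map (algebraMap T1 S) = (C (algebraMap T1 S α) * X - C c') *
        (C (algebraMap T1 S h') * w.map (algebraMap T1 S)) := by
      rw [hw, Polynomial.map_mul, Polynomial.map_sub, Polynomial.map_mul, Polynomial.map_C,
        Polynomial.map_C, Polynomial.map_X, ← hrel, map_mul, C_mul, C_mul]
      ring
    have h4 : F = (F - g.map (algebraMap T1 S)) + g.map (algebraMap T1 S) := by ring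
    rw [h4]
    refine dvd_add hg ?_
    rw [h3]
    exact dvd_mul_right _ _

end Pool.Agent.QU54.BH
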