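import Mathlib
import Pool.Agent.Lib.QU53.HBase
import Pool.Agent.Lib.QU53.R3
import Pool.Agent.Lib.QU54.BlowE
import Pool.Agent.Lib.QU54.BlowR

/-!
# The change of the frame, over `T1` (row K2a)
-/

set_option autoImplicit false

namespace Pool.Agent.QU54.BH

universe u

open Polynomial Submodule Pool.Agent.QU53
open scoped TensorProduct

namespace ChainF

theorem frame {T1 E B : Type u} [CommRing T1] [CommRing E] [IsDomain E] [CommRing B] [IsDomain B]
    (v : T1[X] →+* E) (α : E) (π : T1 →+* B) (hπ : Function.Surjective π)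
    (hu : ∀ b : B, IsUnit b → ∃ t : T1, IsUnit t ∧ π t = b)
    (N : B → ℕ)
    (hN : ∀ x a : B, a ≠ 0 → ∃ q : B, x - a * q = 0 ∨ N (x - a * q) < N a)
    (ρ : E →+* B[X]) (hρ : ∀ f : T1[X], ρ (v f) = f.map π) (hρα : ρ α = 0)
    (hker : ∀ x : E, ρ x = 0 → α ∣ x)
    (P : Type u) [AddCommGroup P] [Module E P] [Module.Finite E P] [Module.Projective E P]
    (k : ℕ) (H : T1[X]) (hH : H.Monic) (b : B) (hb : IsUnit ((H.map π).eval b))
    (hHB : HB E P k (v H)) :
    ∃ (H' m : T1[X]) (δ ε : Fin k → P), H'.Monic ∧ m.Monic ∧ LinearIndependent E δ ∧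
      (∀ p : P, v H' • p ∈ Submodule.span E (Set.range δ)) ∧
      (∀ p : P, ∃ (a : Fin k → E) (q : P), p = ∑ i, a i • ε i + α • q) ∧
      ∀ i, ∃ q : P, δ i = v m • ε i + α • q := by
  classical
  have hmon : ∀ f : T1[X], f.Monic → v f ≠ 0 := by
    intro f hf h
    have h1 := hρ f
    rw [h, map_zero] at h1
    exact (hf.map π).ne_zero h1.symm
  have hρs : Function.Surjective ρ := by
    intro f
    obtain ⟨g, rfl⟩ := Polynomial.map_surjective π hπ f
    exact ⟨v g, hρ g⟩
  obtain ⟨δ, hδ, hHδ⟩ := hHB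
  let : Algebra E B[X] := ρ.toAlgebra
  have hsm : ∀ (x : E) (p : P), (1 : B[X]) ⊗ₜ[E] (x • p) = ρ x • ((1 : B[X]) ⊗ₜ[E] p) := by
    intro x p
    rw [TensorProduct.smul_tmul', ← TensorProduct.smul_tmul, Algebra.smul_def, smul_eq_mul]
    rfl
  have ha : ∀ z : B[X] ⊗[E] P, ∃ p : P, (1 : B[X]) ⊗ₜ[E] p = z := by
    intro z
    induction z using TensorProduct.induction_on with
    | zero => exact ⟨0, TensorProduct.tmul_zero _ _⟩
    | tmul f p =>
      obtain ⟨x, rfl⟩ := hρs f
      refine ⟨x • p, ?_⟩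
      rw [hsm, TensorProduct.smul_tmul', smul_eq_mul, mul_one]
    | add z w hz hw =>
      obtain ⟨p, rfl⟩ := hz
      obtain ⟨q, rfl⟩ := hw
      exact ⟨p + q, TensorProduct.tmul_add _ _ _⟩
  have hb' : ∀ p : P, (1 : B[X]) ⊗ₜ[E] p = 0 → ∃ q, p = α • q := by
    intro p hp
    obtain ⟨n, f, g, -, -, hfg⟩ := Module.Finite.exists_comp_eq_id_of_projective E P
    have h1 : ∀ i, ∃ x, g p i = α * x := by
      intro i
      have h2 : ρ (g p i) = 0 := by
        have h3 := congrArg (LinearMap.baseChange B[X] ((LinearMap.proj i).comp g)) hp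
        rw [LinearMap.baseChange_tmul, map_zero] at h3
        have h4 := congrArg (TensorProduct.AlgebraTensorModule.rid E B[X] B[X]) h3
        rw [TensorProduct.AlgebraTensorModule.rid_tmul, map_zero] at h4
        rw [Algebra.smul_def, mul_one] at h4
        exact h4
      exact hker _ h2
    choose x hx using h1
    refine ⟨f x, ?_⟩
    rw [← map_smul]
    have h5 : g p = α • x := funext fun i => hx i
    rw [← h5]
    exact (LinearMap.congr_fun hfg p).symm
  have hmodα : ∀ p q : P, (1 : B[X]) ⊗ₜ[E] p = (1 : B[X]) ⊗ₜ[E] q →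
      ∃ r, p = q + α • r := by
    intro p q h
    obtain ⟨r, hr⟩ := hb' (p - q) (by rw [TensorProduct.tmul_sub, h, sub_self])
    exact ⟨r, by rw [← hr]; abel⟩
  have hspan : ∀ z : B[X] ⊗[E] P, H.map π • z ∈
      span B[X] (Set.range fun i => (1 : B[X]) ⊗ₜ[E] δ i) := by
    intro z
    obtain ⟨p, rfl⟩ := ha z
    rw [← hρ, ← hsm]
    obtain ⟨a, ha⟩ := (Submodule.mem_span_range_iff_exists_fun E).1 (hHδ p)
    rw [← ha, TensorProduct.tmul_sum]
    refine Submodule.sum_mem _ fun i _ => ?_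
    rw [hsm]
    exact Submodule.smul_mem _ _ (subset_span ⟨i, rfl⟩)
  have hHB' : HB B[X] (B[X] ⊗[E] P) k (H.map π) := by
    refine ⟨fun i => 1 ⊗ₜ δ i, ?_, hspan⟩
    rw [Fintype.linearIndependent_iff] at hδ ⊢
    intro g hg i
    choose x hx using fun i => hρs (g i)
    have h1 : (1 : B[X]) ⊗ₜ[E] (∑ i, x i • δ i) = 0 := by
      rw [TensorProduct.tmul_sum, ← hg]
      exact Finset.sum_congr rfl fun i _ => by rw [hsm, hx]
    obtain ⟨q, hq⟩ := hb' _ h1
    obtain ⟨a, ha⟩ := (Submodule.mem_span_range_iff_exists_fun E).1 (hHδ q)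
    have h2 : ∑ i, (v H * x i - α * a i) • δ i = 0 := by
      simp only [sub_smul, mul_smul, Finset.sum_sub_distrib]
      rw [← Finset.smul_sum, ← Finset.smul_sum, hq, ha, smul_comm, sub_self]
    have h3 := congrArg ρ (hδ _ h2 i)
    rw [map_sub, map_mul, map_mul, hρα, zero_mul, sub_zero, map_zero, hρ, hx] at h3
    exact (mul_eq_zero.1 h3).resolve_left (hH.map π).ne_zero
  have hfree : Module.Free B[X] (B[X] ⊗[E] P) :=
    monic_inversion k _ (H.map π) (hH.map π) hHB' b hb
  -- a basis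
  obtain ⟨bas⟩ : Nonempty (Module.Basis (Fin k) B[X] (B[X] ⊗[E] P)) := by
    let b0 := Module.finBasis B[X] (B[X] ⊗[E] P)
    have h1 : HB B[X] (B[X] ⊗[E] P) (Module.finrank B[X] (B[X] ⊗[E] P)) 1 :=
      ⟨b0, b0.linearIndependent, fun q => b0.mem_span _⟩
    have h2 := HB_unique one_ne_zero (hH.map π).ne_zero h1 hHB'
    exact ⟨b0.reindex (finCongr h2)⟩
  choose ε hε using fun i => ha (bas i)
  choose a haε using fun r => (Submodule.mem_span_range_iff_exists_fun E).1 (hHδ (ε r))
  let D : Matrix (Fin k) (Fin k) B[X] := Matrix.of fun j r => bas.repr (1 ⊗ₜ δ j) r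
  let D' : Matrix (Fin k) (Fin k) B[X] := Matrix.of fun r j => ρ (a r j)
  have hDs : ∀ j, (1 : B[X]) ⊗ₜ[E] δ j = ∑ r, D j r • bas r := fun j => (bas.sum_repr _).symm
  have hDD : D' * D = H.map π • (1 : Matrix (Fin k) (Fin k) B[X]) := by
    ext1 r s
    rw [Matrix.mul_apply, Matrix.smul_apply, Matrix.one_apply]
    have h1 : ∑ j, ρ (a r j) • ((1 : B[X]) ⊗ₜ[E] δ j) = H.map π • bas r := by
      rw [← hε r, ← hρ, ← hsm, ← haε r, TensorProduct.tmul_sum]
      exact Finset.sum_congr rfl fun j _ => by rw [hsm]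
    have h2 := congrArg (fun z => bas.repr z s) h1
    simp only [map_sum, map_smul, Finsupp.coe_finsetSum, Finset.sum_apply, Finsupp.smul_apply,
      Module.Basis.repr_self] at h2
    rw [Finsupp.single_apply] at h2
    exact h2
  obtain ⟨G, G', ν, m, hν, hm, hG, hGD⟩ := gl_lift π hπ hu N hN D D' _ (hH.map π) hDD
  obtain ⟨m', hm', rfl⟩ := lift_monic π hπ m hm
  let δ' : Fin k → P := fun i => ∑ j, v (G i j) • δ j
  have hνδ : ∀ j, v ν • δ j ∈ span E (Set.range δ') := by
    intro j
    have h1 : v ν • δ j = ∑ i, v (G' j i) • δ' i := by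
      have h2 : ∀ j', ∑ i, G' j i * G i j' = if j = j' then ν else 0 := by
        intro j'
        have := congrFun (congrFun hG j) j'
        rw [Matrix.mul_apply, Matrix.smul_apply, Matrix.one_apply] at this
        rw [this]
        simp
      calc v ν • δ j = ∑ j', v (if j = j' then ν else 0) • δ j' := by
            simp [apply_ite v, ite_smul]
        _ = ∑ j', v (∑ i, G' j i * G i j') • δ j' :=
            Finset.sum_congr rfl fun j' _ => by rw [h2 j']
        _ = ∑ j', ∑ i, (v (G' j i) * v (G i j')) • δ j' :=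
            Finset.sum_congr rfl fun j' _ => by
              rw [map_sum, Finset.sum_smul]
              exact Finset.sum_congr rfl fun i _ => by rw [map_mul]
        _ = ∑ i, ∑ j', (v (G' j i) * v (G i j')) • δ j' := Finset.sum_comm
        _ = _ := Finset.sum_congr rfl fun i _ => by
              rw [Finset.smul_sum]
              exact Finset.sum_congr rfl fun j' _ => by rw [smul_smul]
    rw [h1]
    exact Submodule.sum_mem _ fun i _ => Submodule.smul_mem _ _ (subset_span ⟨i, rfl⟩)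
  have hli : LinearIndependent E δ' :=
    li_of_span δ' (fun j => v ν • δ j) (li_smul hδ (hmon _ hν)) hνδ
  refine ⟨ν * H, m', δ', ε, hν.mul hH, hm', hli, ?_, ?_, ?_⟩
  · intro p
    rw [map_mul, mul_smul]
    obtain ⟨a, ha⟩ := (Submodule.mem_span_range_iff_exists_fun E).1 (hHδ p)
    rw [← ha, Finset.smul_sum]
    refine Submodule.sum_mem _ fun i _ => ?_
    rw [smul_comm]
    exact Submodule.smul_mem _ _ (hνδ i)
  · intro p
    choose x hx using fun r => hρs (bas.repr (1 ⊗ₜ p) r)
    refine ⟨x, ?_⟩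
    refine hmodα _ _ ?_
    rw [TensorProduct.tmul_sum]
    rw [← bas.sum_repr ((1 : B[X]) ⊗ₜ[E] p)]
    exact Finset.sum_congr rfl fun r _ => by rw [hsm, hx, hε]
  · intro i
    refine hmodα _ _ ?_
    rw [hsm, hρ, hε]
    have h1 : ∀ r, ∑ j, (G i j).map π * D j r = if i = r then m'.map π else 0 := by
      intro r
      have := congrFun (congrFun hGD i) r
      rw [Matrix.mul_apply, Matrix.smul_apply, Matrix.one_apply] at this
      refine Eq.trans ?_ (this.trans ?_)
      · rfl
      · simp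
    calc (1 : B[X]) ⊗ₜ[E] δ' i = ∑ j, (G i j).map π • ∑ r, D j r • bas r := by
          show (1 : B[X]) ⊗ₜ[E] (∑ j, v (G i j) • δ j) = _
          rw [TensorProduct.tmul_sum]
          exact Finset.sum_congr rfl fun j _ => by rw [hsm, hρ, hDs]
      _ = ∑ j, ∑ r, ((G i j).map π * D j r) • bas r := Finset.sum_congr rfl fun j _ => by
          rw [Finset.smul_sum]
          exact Finset.sum_congr rfl fun r _ => by rw [smul_smul]
      _ = ∑ r, ∑ j, ((G i j).map π * D j r) • bas r := Finset.sum_comm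
      _ = ∑ r, (if i = r then m'.map π else 0) • bas r :=
          Finset.sum_congr rfl fun r _ => by rw [← Finset.sum_smul, h1]
      _ = m'.map π • bas i := by simp [ite_smul]

end ChainF

/-- ROW K2a. The change of the frame, over `T1`. -/
theorem bh_frame1 {T1 T E B : Type u} [CommRing T1] [CommRing T] [CommRing E] [IsDomain E]
    [Algebra T1 T] [Algebra T E] [CommRing B] [IsDomain B]
    (c : E) (hc : Function.Surjective (aeval c : T[X] →ₐ[T] E)) (α : T)
    (π : T →+* B) (hπ : Function.Surjective (π.comp (algebraMap T1 T))) (hπα : π α = 0)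
    (hu : ∀ b : B, IsUnit b → ∃ t : T1, IsUnit t ∧ π (algebraMap T1 T t) = b)
    (N : B → ℕ)
    (hN : ∀ x a : B, a ≠ 0 → ∃ q : B, x - a * q = 0 ∨ N (x - a * q) < N a)
    (ρ : E →+* B[X]) (hρ : ∀ f : T[X], ρ (aeval c f) = f.map π)
    (hker : ∀ x : E, ρ x = 0 → algebraMap T E α ∣ x)
    (P : Type u) [AddCommGroup P] [Module E P] [Module.Finite E P] [Module.Projective E P]
    (k : ℕ) (H : T1[X]) (hH : H.Monic) (b : B)
    (hb : IsUnit ((H.map (π.comp (algebraMap T1 T))).eval b))
    (hHB : HB E P k (aeval c (H.map (algebraMap T1 T)))) :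
    ∃ (H' m : T1[X]) (δ ε : Fin k → P), H'.Monic ∧ m.Monic ∧ LinearIndependent E δ ∧
      (∀ p : P, aeval c (H'.map (algebraMap T1 T)) • p ∈ Submodule.span E (Set.range δ)) ∧
      (∀ p : P, ∃ (a : Fin k → E) (q : P), p = ∑ i, a i • ε i + algebraMap T E α • q) ∧
      ∀ i, ∃ q : P, δ i = aeval c (m.map (algebraMap T1 T)) • ε i + algebraMap T E α • q :=
  ChainF.frame ((aeval c : T[X] →ₐ[T] E).toRingHom.comp (mapRingHom (algebraMap T1 T)))
    (algebraMap T E α) (π.comp (algebraMap T1 T)) hπ hu N hN ρ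
    (fun f => (hρ (f.map (algebraMap T1 T))).trans (Polynomial.map_map _ _ _))
    (by rw [← aeval_C c α, hρ, map_C, hπα, C_0]) hker P k H hH b hb hHB

end Pool.Agent.QU54.BH
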