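import Mathlib
import Pool.Agent.Lib.QU54.ChainN
import Pool.Agent.Lib.QU54.BlowS

/-!
# A basis near the zeros of an element, compared with the frame at infinity
-/

set_option autoImplicit false

namespace Pool.Agent.QU54.BH

universe u

open Polynomial Pool.Agent.QU53

namespace ChainG

open Submodule

/-- A basis of the localised module, descended. -/
theorem descend {B : Type u} [CommRing B] [IsDomain B] (M : Submonoid B)
    (hM : (0 : B) ∉ M) (P : Type u) [AddCommGroup P] [Module B P] [Module.Finite B P]
    {k : ℕ} (η : Fin k → LocalizedModule M P) (hη : LinearIndependent (Localization M) η)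
    (hs : span (Localization M) (Set.range η) = ⊤) :
    ∃ (p : Fin k → P) (s t : M),
      (∀ i, LocalizedModule.mkLinearMap M P (p i) = algebraMap B (Localization M) s • η i) ∧
      LinearIndependent B p ∧ ∀ q : P, (t : B) • q ∈ span B (Set.range p) := by
  classical
  have hinj : Function.Injective (algebraMap B (Localization M)) :=
    IsLocalization.injective _ (le_nonZeroDivisors_of_noZeroDivisors hM)
  have h1 : ∀ i, ∃ (p : P) (m : M), η i = LocalizedModule.mk p m := by
    intro i
    induction hi : η i using LocalizedModule.induction_on with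
    | h p m => exact ⟨p, m, rfl⟩
  choose p m hpm using h1
  have h2 : ∀ i, LocalizedModule.mkLinearMap M P (p i) =
      algebraMap B (Localization M) (m i) • η i := by
    intro i
    rw [hpm, LocalizedModule.mkLinearMap_apply, algebraMap_smul, LocalizedModule.smul'_mk]
    exact (LocalizedModule.mk_cancel (m i) (p i)).symm
  let s : M := ∏ j, m j
  obtain ⟨p', h2'⟩ : ∃ p' : Fin k → P, ∀ i, LocalizedModule.mkLinearMap M P (p' i) =
      algebraMap B (Localization M) s • η i := by
    refine ⟨fun i => ((∏ j ∈ Finset.univ.erase i, m j : M) : B) • p i, fun i => ?_⟩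
    rw [map_smul, h2, ← algebraMap_smul (Localization M) ((∏ j ∈ Finset.univ.erase i, m j : M) : B),
      smul_smul, ← map_mul, ← Submonoid.coe_mul, Finset.prod_erase_mul _ _ (Finset.mem_univ i)]
  have hu : IsUnit (algebraMap B (Localization M) s) := IsLocalization.map_units _ s
  have h3 : ∀ x : LocalizedModule M P, ∃ t : M, ∃ y : Fin k → B,
      (t : B) • x = LocalizedModule.mkLinearMap M P (∑ i, y i • p' i) := by
    intro x
    have hx : x ∈ span (Localization M) (Set.range η) := by rw [hs]; trivial
    obtain ⟨a, ha⟩ := (Submodule.mem_span_range_iff_exists_fun _).1 hx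
    have e1 : x = ∑ i, (a i * (↑(hu.unit⁻¹) : Localization M)) •
        LocalizedModule.mkLinearMap M P (p' i) := by
      conv_lhs => rw [← ha]
      refine Finset.sum_congr rfl fun i _ => ?_
      rw [h2', smul_smul, mul_assoc, IsUnit.val_inv_mul, mul_one]
    obtain ⟨t, ht⟩ := IsLocalization.exist_integer_multiples_of_finset M
      (Finset.univ.image fun i => a i * (↑(hu.unit⁻¹) : Localization M))
    have h4 : ∀ i, ∃ y : B, algebraMap B (Localization M) y =
        (t : B) • (a i * (↑(hu.unit⁻¹) : Localization M)) := by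
      intro i
      exact ht _ (Finset.mem_image_of_mem _ (Finset.mem_univ i))
    choose y hy using h4
    refine ⟨t, y, ?_⟩
    conv_lhs => rw [e1]
    rw [Finset.smul_sum, map_sum]
    refine Finset.sum_congr rfl fun i _ => ?_
    rw [← smul_assoc, ← hy, map_smul, algebraMap_smul]
  have h4 : ∀ q : P, ∃ t : M, (t : B) • q ∈ span B (Set.range p') := by
    intro q
    obtain ⟨t, y, hy⟩ := h3 (LocalizedModule.mkLinearMap M P q)
    rw [← map_smul] at hy
    obtain ⟨c, hc⟩ := (IsLocalizedModule.eq_iff_exists M (LocalizedModule.mkLinearMap M P)).1 hy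
    refine ⟨c * t, ?_⟩
    have h5 : ((c * t : M) : B) • q = (c : B) • ∑ i, y i • p' i := by
      rw [Submonoid.coe_mul, mul_smul]; exact hc
    rw [h5]
    refine Submodule.smul_mem _ _ (Submodule.sum_mem _ fun i _ => Submodule.smul_mem _ _ ?_)
    exact subset_span ⟨i, rfl⟩
  obtain ⟨G, hG⟩ := Module.Finite.fg_top (R := B) (M := P)
  choose t ht using h4
  refine ⟨p', s, ∏ g ∈ G, t g, h2', ?_, ?_⟩
  · rw [Fintype.linearIndependent_iff]
    intro g hg i
    have h5 := congrArg (LocalizedModule.mkLinearMap M P) hg
    rw [map_sum, map_zero] at h5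
    have h6 : ∑ i, algebraMap B (Localization M) (g i * s) • η i = 0 := by
      rw [← h5]
      refine Finset.sum_congr rfl fun i _ => ?_
      rw [map_smul, h2', ← algebraMap_smul (Localization M) (g i), smul_smul, map_mul]
    have h7 := (Fintype.linearIndependent_iff.1 hη) _ h6 i
    have h8 : g i * (s : B) = 0 := hinj (by rw [h7, map_zero])
    refine (mul_eq_zero.1 h8).resolve_right fun h9 => hM ?_
    rw [← h9]; exact s.2
  · intro q
    have hq : q ∈ span B (G : Set P) := by rw [hG]; trivial
    induction hq using Submodule.span_induction with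
    | mem x hx =>
      obtain ⟨c, hc⟩ := Finset.dvd_prod_of_mem t (Finset.mem_coe.1 hx)
      rw [hc, mul_comm, Submonoid.coe_mul, mul_smul]
      exact Submodule.smul_mem _ _ (ht x)
    | zero => rw [smul_zero]; exact Submodule.zero_mem _
    | add x y _ _ hx hy => rw [smul_add]; exact Submodule.add_mem _ hx hy
    | smul a x _ hx => rw [smul_comm]; exact Submodule.smul_mem _ _ hx

/-- The homogenised value. -/
theorem hom_eval {T E : Type u} [CommRing T] [CommRing E] [Algebra T E] (c : E) (α γ : T)
    (hαc : algebraMap T E α * c = algebraMap T E γ) (f : T[X]) (d : ℕ) (hd : f.natDegree ≤ d) :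
    ∃ x : T, algebraMap T E x = algebraMap T E α ^ d * aeval c f ∧
      ∃ r, x = γ ^ d * f.coeff d + α * r := by
  refine ⟨∑ i ∈ Finset.range (d + 1), f.coeff i * α ^ (d - i) * γ ^ i, ?_, ?_⟩
  · rw [aeval_eq_sum_range' (Nat.lt_succ_of_le hd), map_sum, Finset.mul_sum]
    refine Finset.sum_congr rfl fun i hi => ?_
    have hi' : i ≤ d := by
      rw [Finset.mem_range] at hi
      omega
    rw [map_mul, map_mul, map_pow, map_pow, ← hαc, Algebra.smul_def, mul_pow]
    conv_rhs => rw [← Nat.sub_add_cancel hi', pow_add]
    ring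
  · refine ⟨∑ i ∈ Finset.range d, f.coeff i * α ^ (d - 1 - i) * γ ^ i, ?_⟩
    rw [Finset.sum_range_succ, Nat.sub_self, pow_zero, mul_one, mul_comm (f.coeff d), add_comm,
      Finset.mul_sum]
    congr 1
    refine Finset.sum_congr rfl fun i hi => ?_
    have hi' : d - i = (d - 1 - i) + 1 := by
      rw [Finset.mem_range] at hi
      omega
    rw [hi', pow_succ]
    ring

/-- Congruences modulo `α` descend from the localisation at the elements `1 + α t`. -/
theorem cong {T : Type u} [CommRing T] [IsDomain T] (α : T) (hαu : ∀ t : T, 1 + α * t ≠ 0)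
    (x : T) (y : Localization (RowS.S α))
    (h : algebraMap T (Localization (RowS.S α)) x = algebraMap T _ α * y) : ∃ r, x = α * r := by
  have h0 : (0 : T) ∉ RowS.S α := by
    rintro ⟨t, ht⟩
    exact hαu t ht.symm
  have hinj : Function.Injective (algebraMap T (Localization (RowS.S α))) :=
    IsLocalization.injective _ (le_nonZeroDivisors_of_noZeroDivisors h0)
  obtain ⟨t, s, rfl⟩ := IsLocalization.exists_mk'_eq (RowS.S α) y
  obtain ⟨u, hu⟩ := RowS.mem_S.mp s.2
  have h1 : x * s = α * t := by
    apply hinj
    rw [map_mul, map_mul, h, mul_assoc, IsLocalization.mk'_spec]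
  refine ⟨t - u * x, ?_⟩
  rw [hu] at h1
  linear_combination h1

/-- The determinant of a matrix which is a scalar modulo `α`. -/
theorem det_cong {T : Type u} [CommRing T] (α g : T) {k : ℕ} (θ : Matrix (Fin k) (Fin k) T)
    (h : ∀ j i, ∃ r, θ j i = g * (if j = i then 1 else 0) + α * r) :
    ∃ r, θ.det = g ^ k + α * r := by
  classical
  have h1 : (Ideal.Quotient.mk (Ideal.span {α})).mapMatrix θ
      = (Ideal.Quotient.mk (Ideal.span {α}) g) • (1 : Matrix (Fin k) (Fin k) _) := by
    ext j i
    obtain ⟨r, hr⟩ := h j i
    have h2 : (Ideal.Quotient.mk (Ideal.span {α})) (α * r) = 0 :=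
      Ideal.Quotient.eq_zero_iff_mem.2 (Ideal.mul_mem_right _ _ (Ideal.mem_span_singleton_self α))
    rw [RingHom.mapMatrix_apply, Matrix.map_apply, hr, map_add, h2, add_zero, map_mul,
      Matrix.smul_apply, Matrix.one_apply, smul_eq_mul]
    congr 1
    split_ifs <;> simp
  have h3 : (Ideal.Quotient.mk (Ideal.span {α})) (θ.det - g ^ k) = 0 := by
    rw [map_sub, RingHom.map_det, h1, Matrix.det_smul, Matrix.det_one, mul_one, Fintype.card_fin,
      map_pow, sub_self]
  obtain ⟨r, hr⟩ := Ideal.mem_span_singleton'.1 (Ideal.Quotient.eq_zero_iff_mem.1 h3)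
  exact ⟨r, by linear_combination -hr⟩

end ChainG

open RowS in
/-- ROW K2b. A basis near `α = 0`, compared with the frame at infinity. -/
theorem bh_frame2 {T E : Type u} [CommRing T] [IsDomain T] [CommRing E] [IsDomain E]
    [Algebra T E] (hinj : Function.Injective (algebraMap T E))
    (c : E) (hc : Function.Surjective (aeval c : T[X] →ₐ[T] E)) (α γ : T)
    (hα0 : α ≠ 0) (hαu : ∀ t : T, 1 + α * t ≠ 0)
    (hαc : algebraMap T E α * c = algebraMap T E γ)
    (hmon : ∀ (f : T[X]) (t : T), f.leadingCoeff = 1 + α * t → aeval c f ≠ 0)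
    (P : Type u) [AddCommGroup P] [Module E P] [Module.Finite E P] [Module.Projective E P]
    {k : ℕ} (δ : Fin k → P) (hδ : LinearIndependent E δ) (H : T[X]) (hH : H.Monic)
    (hHδ : ∀ p : P, aeval c H • p ∈ Submodule.span E (Set.range δ))
    (m : T[X]) (hm : m.Monic) (ε : Fin k → P)
    (hgen : ∀ p : P, ∃ (a : Fin k → E) (q : P),
      p = ∑ i, a i • ε i + algebraMap T E α • q)
    (hme : ∀ i, ∃ q : P, δ i = aeval c m • ε i + algebraMap T E α • q) :
    ∃ (η : Fin k → P) (t μ : T) (θ : Matrix (Fin k) (Fin k) T) (e N1 N2 : ℕ),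
      LinearIndependent E η ∧
      (∀ p : P, algebraMap T E (1 + α * t) • p ∈ Submodule.span E (Set.range η)) ∧
      (∃ r, μ = γ ^ N1 + α * r) ∧ (∃ r, θ.det = γ ^ N2 + α * r) ∧
      ∀ j, algebraMap T E μ • η j =
        algebraMap T E (α ^ e) • ∑ i, algebraMap T E (θ j i) • δ i := by
  classical
  have h0S : (0 : T) ∉ S α := by
    rintro ⟨t, ht⟩
    exact hαu t ht.symm
  have hTinj : Function.Injective (algebraMap T (Localization (S α))) :=
    IsLocalization.injective _ (le_nonZeroDivisors_of_noZeroDivisors h0S)
  have hM0 : (0 : E) ∉ Algebra.algebraMapSubmonoid E (S α) := by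
    rintro ⟨s, ⟨t, ht⟩, hs⟩
    have h1 : s = 0 := hinj (by rw [map_zero]; exact hs)
    rw [ht] at h1
    exact hαu t h1
  have hMn : Algebra.algebraMapSubmonoid E (S α) ≤ nonZeroDivisors E :=
    le_nonZeroDivisors_of_noZeroDivisors hM0
  have : IsDomain (Localization (Algebra.algebraMapSubmonoid E (S α))) :=
    IsLocalization.isDomain_localization hMn
  have hEinj : Function.Injective
      (algebraMap E (Localization (Algebra.algebraMapSubmonoid E (S α)))) :=
    IsLocalization.injective _ hMn
  have hTE : ∀ t : T, algebraMap (Localization (S α))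
      (Localization (Algebra.algebraMapSubmonoid E (S α))) (algebraMap T _ t)
      = algebraMap E _ (algebraMap T E t) := by
    intro t
    rw [← IsScalarTower.algebraMap_apply, ← IsScalarTower.algebraMap_apply]
  have hev : ∀ f : T[X], aeval (algebraMap E (Localization (Algebra.algebraMapSubmonoid E (S α))) c)
      (f.map (algebraMap T (Localization (S α)))) = algebraMap E _ (aeval c f) := by
    intro f
    rw [aeval_map_algebraMap, aeval_algebraMap_apply]
  have hc' : Function.Surjective
      (aeval (algebraMap E (Localization (Algebra.algebraMapSubmonoid E (S α))) c) :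
        (Localization (S α))[X] →ₐ[Localization (S α)] _) := by
    intro x
    obtain ⟨e, ⟨_, s, hs, rfl⟩, rfl⟩ :=
      IsLocalization.exists_mk'_eq (Algebra.algebraMapSubmonoid E (S α)) x
    obtain ⟨f, rfl⟩ := hc e
    refine ⟨C (IsLocalization.mk' (Localization (S α)) 1 (⟨s, hs⟩ : S α))
      * f.map (algebraMap T (Localization (S α))), ?_⟩
    rw [map_mul, hev, aeval_C, eq_comm, IsLocalization.mk'_eq_iff_eq_mul]
    show _ = _ * algebraMap E _ (algebraMap T E s)
    rw [← hTE, mul_right_comm, ← map_mul, IsLocalization.mk'_spec_mk, map_one, map_one, one_mul]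
  have hmon' : ∀ f : (Localization (S α))[X], f.Monic →
      aeval (algebraMap E (Localization (Algebra.algebraMapSubmonoid E (S α))) c) f ≠ 0 := by
    intro f hf h
    obtain ⟨s, hsS, hs⟩ := IsLocalization.integerNormalization_spec (S α) f
    obtain ⟨t, ht⟩ := mem_S.mp hsS
    set g := IsLocalization.integerNormalization (S α) f with hg
    have h1 : g.map (algebraMap T (Localization (S α))) =
        C (algebraMap T (Localization (S α)) s) * f := by
      rw [hs]
      ext i
      rw [coeff_smul, coeff_C_mul]
      exact Algebra.smul_def s _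
    have h2 : g.leadingCoeff = 1 + α * t := by
      apply hTinj
      rw [← leadingCoeff_map_of_injective hTinj, h1, leadingCoeff_mul_monic hf, leadingCoeff_C, ht]
    refine hmon g t h2 ?_
    apply hEinj
    rw [map_zero, ← hev, h1, map_mul, h, mul_zero]
  have hαc' : algebraMap (Localization (S α))
      (Localization (Algebra.algebraMapSubmonoid E (S α))) (algebraMap T _ α) *
      algebraMap E _ c = algebraMap (Localization (S α)) _ (algebraMap T _ γ) := by
    rw [hTE, hTE, ← map_mul, hαc]
  -- the localised module
  have hfin : Module.Finite (Localization (Algebra.algebraMapSubmonoid E (S α)))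
      (LocalizedModule (Algebra.algebraMapSubmonoid E (S α)) P) :=
    Module.Finite.of_isLocalizedModule (Algebra.algebraMapSubmonoid E (S α))
      (Rₚ := Localization (Algebra.algebraMapSubmonoid E (S α)))
      (LocalizedModule.mkLinearMap (Algebra.algebraMapSubmonoid E (S α)) P)
  have hproj : Module.Projective (Localization (Algebra.algebraMapSubmonoid E (S α)))
      (LocalizedModule (Algebra.algebraMapSubmonoid E (S α)) P) :=
    Module.projective_of_isLocalizedModule
      (Rₛ := Localization (Algebra.algebraMapSubmonoid E (S α)))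
      (Algebra.algebraMapSubmonoid E (S α))
      (LocalizedModule.mkLinearMap (Algebra.algebraMapSubmonoid E (S α)) P)
  set f : P →ₗ[E] LocalizedModule (Algebra.algebraMapSubmonoid E (S α)) P :=
    LocalizedModule.mkLinearMap (Algebra.algebraMapSubmonoid E (S α)) P with hf
  have hmk : ∀ (p : P) (s : Algebra.algebraMapSubmonoid E (S α)),
      LocalizedModule.mk p s =
        (IsLocalization.mk' (Localization (Algebra.algebraMapSubmonoid E (S α))) 1 s) • f p := by
    intro p s
    rw [hf, LocalizedModule.mkLinearMap_apply, ← Localization.mk_eq_mk',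
      LocalizedModule.mk_smul_mk, one_smul, mul_one]
  have hsm : ∀ (a : E) (x : LocalizedModule (Algebra.algebraMapSubmonoid E (S α)) P),
      algebraMap E (Localization (Algebra.algebraMapSubmonoid E (S α))) a • x = a • x :=
    fun a x => algebraMap_smul _ a x
  obtain ⟨η', e, N, M, A, hη', hsp, hMm, hMd, hA, hMA⟩ := nak_data
    (algebraMap E (Localization (Algebra.algebraMapSubmonoid E (S α))) c) hc'
    (algebraMap T (Localization (S α)) α) (algebraMap T (Localization (S α)) γ) (jac α) hαc' hmon'
    (LocalizedModule (Algebra.algebraMapSubmonoid E (S α)) P) (f ∘ δ)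
    (LinearIndependent.of_isLocalizedModule
        (Localization (Algebra.algebraMapSubmonoid E (S α)))
        (Algebra.algebraMapSubmonoid E (S α)) _ hδ)
    (H.map (algebraMap T (Localization (S α)))) (hH.map _)
    (by
      intro q
      induction q using LocalizedModule.induction_on with
      | h p s =>
        rw [hev, hmk, smul_comm, hsm, ← map_smul]
        refine Submodule.smul_mem _ _ ?_
        obtain ⟨a, ha⟩ := (Submodule.mem_span_range_iff_exists_fun E).1 (hHδ p)
        rw [← ha, map_sum]
        refine Submodule.sum_mem _ fun i _ => ?_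
        rw [map_smul, ← hsm]
        exact Submodule.smul_mem _ _ (Submodule.subset_span ⟨i, rfl⟩))
    (m.map (algebraMap T (Localization (S α)))) (hm.map _) (f ∘ ε)
    (by
      intro q
      induction q using LocalizedModule.induction_on with
      | h p s =>
        obtain ⟨a, q, hq⟩ := hgen p
        refine ⟨fun i => IsLocalization.mk' _ 1 s * algebraMap E _ (a i),
          IsLocalization.mk' (Localization (Algebra.algebraMapSubmonoid E (S α))) 1 s • f q, ?_⟩
        rw [hmk, hTE, smul_comm (algebraMap E _ _), ← smul_comm (algebraMap E _ _)]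
        conv_lhs => rw [hq]
        rw [map_add, map_sum, smul_add, Finset.smul_sum, map_smul, hsm, smul_comm]
        congr 1
        refine Finset.sum_congr rfl fun i _ => ?_
        rw [map_smul, mul_smul, hsm]
        rfl)
    (by
      intro i
      obtain ⟨q, hq⟩ := hme i
      refine ⟨f q, ?_⟩
      rw [hev, hTE, hsm, hsm, Function.comp_apply, Function.comp_apply, hq, map_add, map_smul,
        map_smul])
  obtain ⟨η, s3, t3, hs3, hηli, hηsp⟩ := ChainG.descend (Algebra.algebraMapSubmonoid E (S α)) hM0 P
    η' hη' hsp
  obtain ⟨_, s3, hs3S, rfl⟩ := s3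
  obtain ⟨_, t3, ht3S, rfl⟩ := t3
  obtain ⟨xM, hxM, rM, hrM⟩ := ChainG.hom_eval
    (algebraMap E (Localization (Algebra.algebraMapSubmonoid E (S α))) c)
    (algebraMap T (Localization (S α)) α) (algebraMap T (Localization (S α)) γ) hαc' M (N + e)
    hMd.le
  have hxA := fun j i => ChainG.hom_eval
    (algebraMap E (Localization (Algebra.algebraMapSubmonoid E (S α))) c)
    (algebraMap T (Localization (S α)) α) (algebraMap T (Localization (S α)) γ) hαc' (A j i) N
    (hA j i).1
  choose xA hxA rA hrA using hxA
  obtain ⟨s1, hs1⟩ := IsLocalization.exist_integer_multiples_of_finset (S α) {xM}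
  obtain ⟨y1, hy1⟩ := hs1 xM (Finset.mem_singleton_self _)
  obtain ⟨s2, hs2⟩ := IsLocalization.exist_integer_multiples_of_finset (S α)
    (Finset.univ.image fun x : Fin k × Fin k => xA x.1 x.2)
  have hs2' : ∀ j i, ∃ y : T, algebraMap T (Localization (S α)) y = (s2 : T) • xA j i :=
    fun j i => hs2 _ (Finset.mem_image_of_mem _ (Finset.mem_univ (j, i)))
  choose y2 hy2 using hs2'
  obtain ⟨u1, hu1⟩ := mem_S.mp s1.2
  obtain ⟨u2, hu2⟩ := mem_S.mp s2.2
  obtain ⟨u3, hu3⟩ := mem_S.mp hs3S
  obtain ⟨t, ht⟩ := mem_S.mp ht3S
  refine ⟨η, t, y1 * s2, Matrix.of fun j i => (s1 : T) * s3 * y2 j i, e, N + e, N * k, hηli, ?_,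
    ?_, ?_, ?_⟩
  · intro p
    rw [← ht]
    exact hηsp p
  · -- the scalar
    obtain ⟨r, hr⟩ := ChainG.cong α hαu (y1 * s2 - γ ^ (N + e))
      (algebraMap T _ s1 * algebraMap T _ s2 * rM +
        algebraMap T _ (u1 + u2 + α * u1 * u2) * algebraMap T _ γ ^ (N + e)) (by
        rw [map_sub, map_mul, hy1, Algebra.smul_def, hrM, ← hMd, hMm.coeff_natDegree, hu1, hu2]
        simp only [map_add, map_mul, map_one, map_pow]
        ring)
    exact ⟨r, by linear_combination hr⟩
  · -- the determinant
    have h1 : ∀ j i, ∃ r, (Matrix.of fun j i => (s1 : T) * s3 * y2 j i) j i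
        = γ ^ N * (if j = i then 1 else 0) + α * r := by
      intro j i
      obtain ⟨r, hr⟩ := ChainG.cong α hαu
        ((s1 : T) * s3 * y2 j i - γ ^ N * (if j = i then 1 else 0))
        (algebraMap T _ s1 * algebraMap T _ s3 * algebraMap T _ s2 * rA j i +
          algebraMap T _ (u1 + u3 + u2 + α * u1 * u2 + α * u1 * u3 + α * u2 * u3
            + α * α * u1 * u2 * u3) *
          algebraMap T _ γ ^ N * (if j = i then 1 else 0)) (by
          rw [map_sub, map_mul, map_mul, hy2, Algebra.smul_def, hrA, (hA j i).2, hu1, hu2, hu3]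
          simp only [map_add, map_mul, map_one, map_pow]
          split_ifs
          · rw [map_one]
            ring
          · rw [map_zero]
            ring)
      refine ⟨r, ?_⟩
      show (s1 : T) * s3 * y2 j i = _
      linear_combination hr
    obtain ⟨r, hr⟩ := ChainG.det_cong α (γ ^ N) _ h1
    exact ⟨r, by rw [hr, ← pow_mul]⟩
  · -- the comparison
    intro j
    have : Module.IsTorsionFree E P := inferInstance
    have hfinj : Function.Injective f := by
      intro a b hab
      obtain ⟨⟨s, hs⟩, h⟩ := (IsLocalizedModule.eq_iff_exists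
        (Algebra.algebraMapSubmonoid E (S α)) f).1 hab
      have hs0 : s ≠ 0 := fun h0 => hM0 (h0 ▸ hs)
      exact smul_right_injective P hs0 h
    apply hfinj
    have key : algebraMap (Localization (S α))
        (Localization (Algebra.algebraMapSubmonoid E (S α))) xM • η' j =
        algebraMap (Localization (S α))
          (Localization (Algebra.algebraMapSubmonoid E (S α))) (algebraMap T _ α) ^ e •
          ∑ i, algebraMap (Localization (S α))
            (Localization (Algebra.algebraMapSubmonoid E (S α))) (xA j i) • f (δ i) := by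
      rw [hxM, mul_smul, hMA j, pow_add, mul_comm, mul_smul, Finset.smul_sum, Finset.smul_sum,
        Finset.smul_sum]
      refine Finset.sum_congr rfl fun i _ => ?_
      rw [hxA, mul_smul]
      rfl
    have hy1' : algebraMap E (Localization (Algebra.algebraMapSubmonoid E (S α)))
        (algebraMap T E y1) = algebraMap E _ (algebraMap T E s1) *
          algebraMap (Localization (S α)) _ xM := by
      rw [← hTE, ← hTE, ← map_mul, hy1, Algebra.smul_def]
    have hy2' : ∀ i, algebraMap E (Localization (Algebra.algebraMapSubmonoid E (S α)))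
        (algebraMap T E (y2 j i)) = algebraMap E _ (algebraMap T E s2) *
          algebraMap (Localization (S α)) _ (xA j i) := by
      intro i
      rw [← hTE, ← hTE, ← map_mul, hy2, Algebra.smul_def]
    rw [map_smul, map_smul, map_sum, ← hsm, ← hsm (algebraMap T E (α ^ e))]
    have h5 : f (η j) = algebraMap E _ (algebraMap T E s3) • η' j := hs3 j
    rw [h5, map_mul, map_mul, hy1', smul_smul]
    have h6 : algebraMap E (Localization (Algebra.algebraMapSubmonoid E (S α)))
          (algebraMap T E s1) * algebraMap (Localization (S α)) _ xM *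
          algebraMap E _ (algebraMap T E (s2 : T)) * algebraMap E _ (algebraMap T E s3) =
        (algebraMap E _ (algebraMap T E s1) * algebraMap E _ (algebraMap T E s2) *
          algebraMap E _ (algebraMap T E s3)) * algebraMap (Localization (S α)) _ xM := by ring
    rw [h6, mul_smul, key, Finset.smul_sum, Finset.smul_sum, Finset.smul_sum]
    refine Finset.sum_congr rfl fun i _ => ?_
    rw [map_smul, ← hsm, smul_smul, smul_smul, smul_smul]
    congr 1
    rw [Matrix.of_apply, map_mul, map_mul, map_mul, map_mul, hy2', hTE, map_pow, map_pow]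
    ring

end Pool.Agent.QU54.BH
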