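import Mathlib
import Pool.Agent.Lib.QU53.Patch

/-!
# The patching theorem, with the lattice inside the module
-/

set_option autoImplicit false

namespace Pool.Agent.QU54.BH

universe u

open Submodule Pool.Agent.QU53

/-- ROW C1. The lattice inside the module. -/
theorem patch' {A B : Type u} [CommRing A] [CommRing B] [IsDomain A] [IsDomain B]
    [IsNoetherianRing A] [Algebra A B] (F : A) (hF0 : F ≠ 0)
    (hinj : Function.Injective (algebraMap A B))
    (h1 : ∀ b : B, ∃ (a : A) (c : B), b = algebraMap A B a + algebraMap A B F * c)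
    (h2 : ∀ (a : A) (c : B), algebraMap A B a = algebraMap A B F * c → ∃ a' : A, a = F * a')
    (k : ℕ) (P : Type u) [AddCommGroup P] [Module B P] [Module.Finite B P]
    [Module.Projective B P] (hb : HB B P k (algebraMap A B F)) :
    ∃ (P' : Type u) (_ : AddCommGroup P') (_ : Module A P'), Module.Finite A P' ∧
      Module.Projective A P' ∧ HB A P' k F ∧ (Module.Free A P' → Module.Free B P) ∧
      ∃ ι : P' →+ P, Function.Injective ι ∧ (∀ (a : A) (x : P'), ι (a • x) = algebraMap A B a • ι x) ∧
        Submodule.span B (Set.range ι) = ⊤ := by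
  classical
  have hb0 := hb
  obtain ⟨b, hb, hs⟩ := hb
  let : Module A P := Module.compHom P (algebraMap A B)
  have : IsScalarTower A B P := IsScalarTower.of_algebraMap_smul fun a p => rfl
  have hFB : algebraMap A B F ≠ 0 := fun h => hF0 (hinj (by rw [h, map_zero]))
  have htf : ∀ p : P, F • p = 0 → p = 0 := by
    intro p hp
    have h3 : algebraMap A B F • p = 0 := by rw [algebraMap_smul]; exact hp
    have : Module.IsTorsionFree B P := inferInstance
    exact (smul_eq_zero.1 h3).resolve_left hFB
  let L : Submodule A P := lat F P b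
  have hliA : LinearIndependent A b := li_A P b hinj hb
  -- `F • p ∈ span`
  have hHB : HB A L k F := by
    refine ⟨fun i => ⟨b i, b_mem F P b i⟩, ?_, ?_⟩
    · exact LinearIndependent.of_comp L.subtype (by exact hliA)
    · rintro ⟨q, hq⟩
      obtain ⟨a, ha⟩ := (mem_lat_iff F P b).1 hq
      rw [Submodule.mem_span_range_iff_exists_fun]
      refine ⟨a, ?_⟩
      apply Subtype.ext
      rw [Submodule.coe_sum]
      exact ha
  have hfin : Module.Finite A L := by
    have hN : IsNoetherian A (span A (Set.range b)) :=
      isNoetherian_span_of_finite A (Set.finite_range b)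
    let f : L →ₗ[A] span A (Set.range b) :=
      LinearMap.codRestrict _ ((LinearMap.lsmul A P F).comp L.subtype) fun x => x.2
    refine Module.Finite.of_injective f ?_
    rw [← LinearMap.ker_eq_bot, LinearMap.ker_eq_bot']
    intro x hx
    apply Subtype.ext
    exact htf _ (congrArg Subtype.val hx)
  have hproj : Module.Projective A L := by
    refine projective_of_HB fun q hq => ?_
    by_cases hFq : F ∉ q
    · exact ⟨F, hFq, k, hHB⟩
    · rw [not_not] at hFq
      -- the ideal generated by `q`
      let n : Ideal B := q.map (algebraMap A B)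
      have hn : ∀ x ∈ n, ∃ m ∈ q, ∃ c : B, x = algebraMap A B m + algebraMap A B F * c := by
        intro x hx
        refine Submodule.span_induction (p := fun x _ => ∃ m ∈ q, ∃ c : B,
          x = algebraMap A B m + algebraMap A B F * c) ?_ ?_ ?_ ?_ hx
        · rintro _ ⟨m, hm, rfl⟩
          exact ⟨m, hm, 0, by rw [mul_zero, add_zero]⟩
        · exact ⟨0, q.zero_mem, 0, by rw [mul_zero, add_zero, map_zero]⟩
        · rintro x y _ _ ⟨m, hm, c, rfl⟩ ⟨m', hm', c', rfl⟩
          exact ⟨m + m', q.add_mem hm hm', c + c', by rw [map_add]; ring⟩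
        · rintro β x _ ⟨m, hm, c, rfl⟩
          obtain ⟨a, d, rfl⟩ := h1 β
          refine ⟨a * m, q.mul_mem_left _ hm, algebraMap A B a * c + d * algebraMap A B m +
            algebraMap A B F * d * c, ?_⟩
          rw [map_mul, smul_eq_mul]; ring
      have hcomap : ∀ a : A, algebraMap A B a ∈ n → a ∈ q := by
        intro a ha
        obtain ⟨m, hm, c, hc⟩ := hn _ ha
        have h3 : algebraMap A B (a - m) = algebraMap A B F * c := by
          rw [map_sub, hc, add_sub_cancel_left]
        obtain ⟨a', ha'⟩ := h2 _ _ h3
        have h4 : a = m + F * a' := by rw [← ha']; ring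
        rw [h4]
        exact q.add_mem hm (q.mul_mem_right _ hFq)
      have hFn : ∀ c : B, algebraMap A B F * c ∈ n := fun c =>
        n.mul_mem_right _ (Ideal.mem_map_of_mem _ hFq)
      have hprime : n.IsPrime := by
        refine ⟨fun h => hq.ne_top ?_, ?_⟩
        · rw [Ideal.eq_top_iff_one] at h ⊢
          exact hcomap 1 (by rw [map_one]; exact h)
        · intro x y hxy
          obtain ⟨a, c, rfl⟩ := h1 x
          obtain ⟨a', c', rfl⟩ := h1 y
          have h3 : a * a' ∈ q := by
            apply hcomap
            have h4 : algebraMap A B (a * a') = (algebraMap A B a + algebraMap A B F * c) *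
                (algebraMap A B a' + algebraMap A B F * c') - algebraMap A B F *
                (c * algebraMap A B a' + algebraMap A B a * c' + c * algebraMap A B F * c') := by
              rw [map_mul]; ring
            rw [h4]
            exact n.sub_mem hxy (hFn _)
          rcases hq.isPrime.mem_or_mem h3 with h5 | h5
          · exact Or.inl (n.add_mem (Ideal.mem_map_of_mem _ h5) (hFn _))
          · exact Or.inr (n.add_mem (Ideal.mem_map_of_mem _ h5) (hFn _))
      obtain ⟨s, hsn, p, hp, hps⟩ := exists_HB_prime hFB hb0 n
      obtain ⟨t, c, rfl⟩ := h1 s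
      have ht : t ∉ q := fun h => hsn (n.add_mem (Ideal.mem_map_of_mem _ h) (hFn _))
      choose p' hp' p'' hpp using fun i => dec2 F P b h1 hs (p i)
      let v : Fin k → L := fun i => ⟨p' i, hp' i⟩
      -- multiples by `t`
      have key : ∀ x : L, ∃ a : Fin k → A, ∃ y : L, t • x = ∑ i, a i • v i + F • y := by
        rintro ⟨x, hx⟩
        obtain ⟨β, hβ⟩ := (Submodule.mem_span_range_iff_exists_fun B).1 (hps x)
        choose a d had using fun i => h1 (β i)
        let z : P := ∑ i, (d i • p i + a i • p'' i) - c • x
        have hz : t • x = ∑ i, a i • p' i + F • z := by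
          have h3 : t • x = (algebraMap A B t + algebraMap A B F * c) • x - F • c • x := by
            rw [add_smul, mul_smul, algebraMap_smul, algebraMap_smul, add_sub_cancel_right]
          rw [h3, ← hβ]
          have h4 : ∑ i, β i • p i = ∑ i, a i • p' i + F • ∑ i, (d i • p i + a i • p'' i) := by
            rw [Finset.smul_sum, ← Finset.sum_add_distrib]
            refine Finset.sum_congr rfl fun i _ => ?_
            conv_lhs => rw [had i]
            rw [add_smul, mul_smul, algebraMap_smul, algebraMap_smul, smul_add]
            conv_lhs => rw [hpp i]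
            rw [smul_add, smul_comm (a i) F (p'' i)]
            rw [← hpp i]
            abel
          rw [h4]
          show _ = _ + F • (∑ i, (d i • p i + a i • p'' i) - c • x)
          rw [smul_sub]
          abel
        have hzL : F • z ∈ L := by
          have h3 : F • z = t • x - ∑ i, a i • p' i := by rw [hz]; abel
          rw [h3]
          exact L.sub_mem (L.smul_mem _ hx) (L.sum_mem fun i _ => L.smul_mem _ (hp' i))
        refine ⟨a, ⟨z, int2 F P b hinj h2 hb hs hzL hF0⟩, ?_⟩
        apply Subtype.ext
        rw [Submodule.coe_add, Submodule.coe_sum]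
        exact hz
      have hNak : (⊤ : Submodule A L) ≤ span A (Set.range v) ⊔ q • (⊤ : Submodule A L) := by
        intro x _
        obtain ⟨u, m, hm, hum⟩ := hq.exists_inv ht
        obtain ⟨a, y, hay⟩ := key x
        have h3 : x = u • (∑ i, a i • v i) + ((u * F) • y + m • x) := by
          calc x = (u * t + m) • x := by rw [hum, one_smul]
            _ = u • (t • x) + m • x := by rw [add_smul, mul_smul]
            _ = _ := by rw [hay, smul_add, smul_smul u F y]; abel
        rw [h3]
        refine Submodule.add_mem_sup ?_ ?_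
        · refine Submodule.smul_mem _ _ (Submodule.sum_mem _ fun i _ => Submodule.smul_mem _ _ ?_)
          exact subset_span ⟨i, rfl⟩
        · refine Submodule.add_mem _ ?_ ?_
          · exact Submodule.smul_mem_smul (q.mul_mem_left _ hFq) trivial
          · exact Submodule.smul_mem_smul hm trivial
      obtain ⟨w, hw, hle⟩ := Submodule.exists_sub_one_mem_and_smul_le_of_fg_of_le_sup
        hfin.fg_top le_rfl hNak
      have hwq : w ∉ q := by
        intro hwq
        apply hq.ne_top
        rw [Ideal.eq_top_iff_one]
        have : (1 : A) = w - (w - 1) := by ring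
        rw [this]
        exact q.sub_mem hwq hw
      have hspan : ∀ x : L, w • x ∈ span A (Set.range v) := fun x =>
        hle (Submodule.smul_mem_pointwise_smul x w ⊤ trivial)
      have hw0 : w ≠ 0 := fun h => hwq (h ▸ q.zero_mem)
      exact ⟨w, hwq, k, v, li_of_HB hHB hw0 v hspan, hspan⟩
  refine ⟨L, inferInstance, inferInstance, hfin, hproj, hHB, fun hfree => ?_,
    L.subtype.toAddMonoidHom, Subtype.val_injective, fun a x => ?_, ?_⟩
  · let bs := Module.finBasis A L
    have hk : k = Module.finrank A L := by
      refine HB_unique hF0 (one_ne_zero : (1 : A) ≠ 0) hHB ⟨bs, bs.linearIndependent, fun q => ?_⟩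
      rw [bs.span_eq]; trivial
    let v : Fin k → P := fun i => (bs (Fin.cast hk i) : L)
    have hL : ∀ x ∈ L, x ∈ span B (Set.range v) := by
      intro x hx
      have h3 := bs.sum_repr ⟨x, hx⟩
      have h4 : x = ∑ i, bs.repr ⟨x, hx⟩ i • ((bs i : L) : P) := by
        have h5 : ((∑ i, bs.repr ⟨x, hx⟩ i • bs i : L) : P) = x :=
          congrArg (fun y : L => (y : P)) h3
        rw [Submodule.coe_sum] at h5
        exact h5.symm
      rw [h4]
      refine Submodule.sum_mem _ fun i _ => ?_
      rw [← algebraMap_smul B (bs.repr ⟨x, hx⟩ i)]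
      refine Submodule.smul_mem _ _ (subset_span ⟨Fin.cast hk.symm i, ?_⟩)
      show ((bs (Fin.cast hk (Fin.cast hk.symm i)) : L) : P) = _
      rw [Fin.cast_cast, Fin.cast_eq_self]
    have hspan : ∀ x : P, x ∈ span B (Set.range v) := by
      intro x
      obtain ⟨p', hp', d, rfl⟩ := dec1 F P b h1 hs x
      refine Submodule.add_mem _ (hL _ hp') (Submodule.sum_mem _ fun i _ =>
        Submodule.smul_mem _ _ (hL _ (b_mem F P b i)))
    have hli : LinearIndependent B v := li_of_span v b hb fun i => hspan _
    exact Module.Free.of_basis (Module.Basis.mk hli fun x _ => hspan x)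
  · show ((a • x : L) : P) = algebraMap A B a • (x : P)
    rw [Submodule.coe_smul, algebraMap_smul]
  · rw [eq_top_iff]
    rintro x -
    obtain ⟨p', hp', d, rfl⟩ := dec1 F P b h1 hs x
    refine Submodule.add_mem _ (subset_span ⟨⟨p', hp'⟩, rfl⟩) (Submodule.sum_mem _ fun i _ =>
      Submodule.smul_mem _ _ (subset_span ⟨⟨b i, b_mem F P b i⟩, rfl⟩))

/-- ROW C1b. -/
theorem HB_up {A B : Type u} [CommRing A] [CommRing B] [IsDomain A] [IsDomain B] [Algebra A B]
    (hinj : Function.Injective (algebraMap A B)) {P P' : Type u} [AddCommGroup P] [Module B P]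
    [AddCommGroup P'] [Module A P'] [Module.Finite B P] [Module.Projective B P] {k : ℕ} {h₀ : B}
    (hh₀ : h₀ ≠ 0) (hP : HB B P k h₀) (ι : P' →+ P)
    (hι : ∀ (a : A) (x : P'), ι (a • x) = algebraMap A B a • ι x)
    (hs : Submodule.span B (Set.range ι) = ⊤) {h : A} (hh : h ≠ 0) (H : HB A P' k h) :
    HB B P k (algebraMap A B h) := by
  obtain ⟨b, -, hbs⟩ := H
  let v : Fin k → P := fun i => ι (b i)
  have hv : ∀ x : P, algebraMap A B h • x ∈ span B (Set.range v) := by
    intro x
    have hx : x ∈ span B (Set.range ι) := hs ▸ Submodule.mem_top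
    induction hx using Submodule.span_induction with
    | mem x hx =>
      obtain ⟨q, rfl⟩ := hx
      obtain ⟨a, ha⟩ := (Submodule.mem_span_range_iff_exists_fun A).1 (hbs q)
      rw [← hι, ← ha, map_sum]
      refine Submodule.sum_mem _ fun i _ => ?_
      rw [hι]
      exact Submodule.smul_mem _ _ (subset_span ⟨i, rfl⟩)
    | zero => rw [smul_zero]; exact Submodule.zero_mem _
    | add x y _ _ hx hy => rw [smul_add]; exact Submodule.add_mem _ hx hy
    | smul c x _ hx => rw [smul_comm]; exact Submodule.smul_mem _ _ hx
  have hh' : algebraMap A B h ≠ 0 := fun h0 => hh (hinj (by rw [h0, map_zero]))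
  exact ⟨v, li_of_HB hP hh' v hv, hv⟩

end Pool.Agent.QU54.BH
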