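import Mathlib
import Pool.Agent.Lib.QU54.Pres
import Pool.Agent.Lib.QU54.BlowS
import Pool.Agent.Lib.QU53.R3
import Pool.Agent.Lib.QU53.Patch
import Pool.Agent.Lib.QU54.NodeA

/-!
# The abstract core for the node rings
-/

set_option autoImplicit false

namespace Pool.Agent.QU54.BH

universe u

open Polynomial Pool.Agent.QU53

namespace NodeB

/-- Powers of `α` bring the elements of `E` into `T`. -/
lemma pow_mul_mem {T E : Type u} [CommRing T] [CommRing E] [Algebra T E] {α γ : T} {c : E}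
    (h : Pres T E α γ c) (e : E) :
    ∃ (M : ℕ) (t : T), algebraMap T E (α ^ M) * e = algebraMap T E t := by
  obtain ⟨f, rfl⟩ := h.surj e
  induction f using Polynomial.induction_on' with
  | add p q hp hq =>
    obtain ⟨M1, t1, h1⟩ := hp
    obtain ⟨M2, t2, h2⟩ := hq
    refine ⟨M1 + M2, α ^ M2 * t1 + α ^ M1 * t2, ?_⟩
    rw [pow_add, map_mul, map_add, map_add, map_mul, map_mul, ← h1, ← h2]
    ring
  | monomial n a =>
    refine ⟨n, a * γ ^ n, ?_⟩
    rw [aeval_monomial, map_mul, map_pow, map_pow, ← h.rel]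
    ring

/-- The same for the elements of a module spanned by the image of `ι`. -/
lemma pow_smul_mem {T E : Type u} [CommRing T] [CommRing E] [Algebra T E] {α γ : T} {c : E}
    (h : Pres T E α γ c) {P Q : Type u} [AddCommGroup P] [Module E P] [AddCommGroup Q]
    [Module T Q] (ι : Q →+ P) (hι : ∀ (a : T) (x : Q), ι (a • x) = algebraMap T E a • ι x)
    (hs : Submodule.span E (Set.range ι) = ⊤) (x : P) :
    ∃ (M : ℕ) (q : Q), algebraMap T E (α ^ M) • x = ι q := by
  have hx : x ∈ Submodule.span E (Set.range ι) := by rw [hs]; trivial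
  induction hx using Submodule.span_induction with
  | mem x hx =>
    obtain ⟨q, rfl⟩ := hx
    exact ⟨0, q, by rw [pow_zero, map_one, one_smul]⟩
  | zero => exact ⟨0, 0, by rw [smul_zero, map_zero]⟩
  | add x y _ _ hx hy =>
    obtain ⟨M1, q1, h1⟩ := hx
    obtain ⟨M2, q2, h2⟩ := hy
    refine ⟨M1 + M2, α ^ M2 • q1 + α ^ M1 • q2, ?_⟩
    rw [map_add, hι, hι, ← h1, ← h2, smul_smul, smul_smul, ← map_mul, ← map_mul, smul_add,
      pow_add, mul_comm (α ^ M2)]
  | smul e x _ hx =>
    obtain ⟨M1, q1, h1⟩ := hx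
    obtain ⟨M2, t2, h2⟩ := pow_mul_mem h e
    refine ⟨M1 + M2, t2 • q1, ?_⟩
    rw [hι, ← h1, ← h2, smul_smul, smul_smul, pow_add, map_mul]
    congr 1
    ring

/-- A basis of `P` up to `g` gives a basis of the lattice up to `α ^ M * g`. -/
lemma HB_down {T E : Type u} [CommRing T] [IsDomain T] [CommRing E] [IsDomain E] [Algebra T E]
    {α γ : T} {c : E} (h : Pres T E α γ c) (hα0 : α ≠ 0)
    {P Q : Type u} [AddCommGroup P] [Module E P] [AddCommGroup Q]
    [Module T Q] [Module.Finite T Q] (ι : Q →+ P) (hinj : Function.Injective ι)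
    (hι : ∀ (a : T) (x : Q), ι (a • x) = algebraMap T E a • ι x)
    (hs : Submodule.span E (Set.range ι) = ⊤) {k : ℕ} {g : T}
    (H : HB E P k (algebraMap T E g)) : ∃ M : ℕ, HB T Q k (α ^ M * g) := by
  classical
  have hTE : Function.Injective (algebraMap T E) := h.inj hα0
  obtain ⟨b, hli, hsp⟩ := H
  choose M q hq using fun i => pow_smul_mem h ι hι hs (b i)
  -- common exponent
  let M1 := ∑ i, M i
  have hM1 : ∀ i, ∃ j, M1 = j + M i := fun i =>
    ⟨M1 - M i, (Nat.sub_add_cancel (Finset.single_le_sum (f := M) (fun _ _ => Nat.zero_le _)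
      (Finset.mem_univ i))).symm⟩
  choose j hj using hM1
  let b2 : Fin k → Q := fun i => α ^ j i • q i
  have hb2 : ∀ i, ι (b2 i) = algebraMap T E (α ^ M1) • b i := by
    intro i
    change ι (α ^ j i • q i) = _
    rw [hι, ← hq, smul_smul, ← map_mul, ← pow_add, ← hj]
  have hli2 : LinearIndependent T b2 := by
    rw [Fintype.linearIndependent_iff]
    intro g' hg' i
    have h1 : ∑ i, (algebraMap T E (g' i * α ^ M1)) • b i = 0 := by
      have h2 := congrArg ι hg'
      rw [map_sum, map_zero] at h2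
      rw [← h2]
      refine Finset.sum_congr rfl fun i _ => ?_
      rw [hι, hb2, smul_smul, map_mul]
    have h3 := Fintype.linearIndependent_iff.1 hli _ h1 i
    have h4 : g' i * α ^ M1 = 0 := hTE (by rw [h3, map_zero])
    exact (mul_eq_zero.1 h4).resolve_right (pow_ne_zero _ hα0)
  have key : ∀ x : Q, ∃ N : ℕ, (α ^ N * g) • x ∈ Submodule.span T (Set.range b2) := by
    intro x
    obtain ⟨e, he⟩ := (Submodule.mem_span_range_iff_exists_fun E).1 (hsp (ι x))
    choose N t ht using fun i => pow_mul_mem h (e i)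
    let N1 := ∑ i, N i
    have hN1 : ∀ i, ∃ j, N1 = j + N i := fun i =>
      ⟨N1 - N i, (Nat.sub_add_cancel (Finset.single_le_sum (f := N) (fun _ _ => Nat.zero_le _)
        (Finset.mem_univ i))).symm⟩
    choose l hl using hN1
    refine ⟨N1 + M1, ?_⟩
    have h5 : (α ^ (N1 + M1) * g) • x = ∑ i, (α ^ l i * t i) • b2 i := by
      apply hinj
      rw [hι, map_sum, map_mul, mul_smul, ← he, Finset.smul_sum]
      refine Finset.sum_congr rfl fun i _ => ?_
      rw [hι, hb2, smul_smul, smul_smul, map_mul, ← ht i, pow_add, map_mul, hl i, pow_add,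
        map_mul]
      congr 1
      ring
    rw [h5]
    exact Submodule.sum_mem _ fun i _ => Submodule.smul_mem _ _ (Submodule.subset_span ⟨i, rfl⟩)
  obtain ⟨S, hS⟩ := (Module.finite_def.1 (inferInstance : Module.Finite T Q))
  choose N hN using key
  refine ⟨∑ s ∈ S, N s, b2, hli2, fun x => ?_⟩
  have hx : x ∈ Submodule.span T (S : Set Q) := by rw [hS]; trivial
  induction hx using Submodule.span_induction with
  | mem x hx =>
    have h6 : ∑ s ∈ S, N s = (∑ s ∈ S, N s - N x) + N x :=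
      (Nat.sub_add_cancel (Finset.single_le_sum (f := N) (fun _ _ => Nat.zero_le _) hx)).symm
    rw [h6, pow_add, mul_assoc, mul_smul]
    exact Submodule.smul_mem _ _ (hN x)
  | zero => rw [smul_zero]; exact Submodule.zero_mem _
  | add x y _ _ hx hy => rw [smul_add]; exact Submodule.add_mem _ hx hy
  | smul a x _ hx => rw [smul_comm]; exact Submodule.smul_mem _ _ hx

end NodeB

/-- ROW C2. The abstract core. -/
theorem node_core {T0 T1 E B : Type u} [CommRing T0] [IsDomain T0] [IsNoetherianRing T0]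
    [CommRing T1] [IsDomain T1] [IsNoetherianRing T1] [Algebra T0[X] T1]
    (hinj0 : Function.Injective (algebraMap T0[X] T1)) (γ : T1)
    [CommRing E] [IsDomain E] [Algebra T1 E] (c : E)
    (hE : Pres T1 E (algebraMap T0[X] T1 X) γ c)
    [CommRing B] [IsDomain B] (π : T1 →+* B) (hπ : Function.Surjective π)
    (hπa : π (algebraMap T0[X] T1 X) = 0) (hπγ : π γ = 0)
    (hk : ∀ t : T1, π t = 0 → t ∈ Ideal.span {algebraMap T0[X] T1 X, γ})
    (hu : ∀ b : B, IsUnit b → ∃ t : T1, IsUnit t ∧ π t = b)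
    (N : B → ℕ)
    (hN : ∀ x a : B, a ≠ 0 → ∃ q : B, x - a * q = 0 ∨ N (x - a * q) < N a)
    (P : Type u) [AddCommGroup P] [Module E P] [Module.Finite E P] [Module.Projective E P]
    (k : ℕ) (H : T1[X]) (hH : H.Monic) (b : B) (hb : IsUnit ((H.map π).eval b))
    (hHB : HB E P k (aeval c H))
    (G : T0[X]) (hG : G.Monic) (hG1 : IsUnit (G.eval 1))
    (hHB2 : HB E P k (algebraMap T1 E (algebraMap T0[X] T1 G)))
    (w1 : ∀ (M : ℕ) (t : T1), ∃ (f : T0[X]) (t' : T1),
      t = algebraMap T0[X] T1 f + algebraMap T0[X] T1 (X ^ M * G) * t')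
    (w2 : ∀ (M : ℕ) (f : T0[X]) (t' : T1), algebraMap T0[X] T1 f =
      algebraMap T0[X] T1 (X ^ M * G) * t' → ∃ f' : T0[X], f = X ^ M * G * f') :
    Module.Free E P := by
  have hα0 : algebraMap T0[X] T1 X ≠ 0 := by
    intro h0
    exact X_ne_zero (hinj0 (by rw [h0, map_zero]))
  set α : T1 := algebraMap T0[X] T1 X with hαdef
  have hTE : Function.Injective (algebraMap T1 E) := hE.inj hα0
  have hαu : ∀ t : T1, 1 + α * t ≠ 0 := by
    intro t h0
    have h1 := congrArg π h0
    rw [map_add, map_one, map_mul, hπa, zero_mul, add_zero, map_zero] at h1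
    exact one_ne_zero h1
  obtain ⟨ρ, hρ, hker⟩ := hE.rho π hπa hπγ hk
  obtain ⟨t, ht⟩ := bh_semi hTE c hE.surj α γ hα0 hαu hE.rel π hπ hπa hu N hN ρ hρ hker P k H hH
    b hb hHB
  have h1 : ∀ x : E, ∃ (a : T1) (d : E),
      x = algebraMap T1 E a + algebraMap T1 E (1 + α * t) * d := by
    intro x
    obtain ⟨f, rfl⟩ := hE.surj x
    have e1 := sub_dvd_eval_sub c (algebraMap T1 E (-(t * γ))) (f.map (algebraMap T1 E))
    obtain ⟨g, hg⟩ := e1
    refine ⟨f.eval (-(t * γ)), c * g, ?_⟩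
    rw [eval_map_algebraMap, eval_map_algebraMap, aeval_algebraMap_apply] at hg
    rw [coe_aeval_eq_eval] at hg
    have e2 : (aeval c f : E) = algebraMap T1 E (f.eval (-(t * γ))) +
        (c - algebraMap T1 E (-(t * γ))) * g := by
      rw [← hg]; abel
    have e3 := hE.rel
    rw [e2, map_neg, map_mul, map_add, map_one, map_mul, ← e3]
    ring
  have h2 : ∀ (a : T1) (d : E), algebraMap T1 E a = algebraMap T1 E (1 + α * t) * d →
      ∃ a' : T1, a = (1 + α * t) * a' := by
    intro a d had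
    obtain ⟨g, rfl⟩ := hE.surj d
    obtain ⟨q, hq⟩ := hE.ker (C a - C (1 + α * t) * g) (by
      rw [map_sub, map_mul, aeval_C, aeval_C, had, sub_self])
    have e3 := congrArg (eval (-(t * γ))) hq
    simp only [eval_sub, eval_mul, eval_C, eval_X] at e3
    refine ⟨g.eval (-(t * γ)) - γ * q.eval (-(t * γ)), ?_⟩
    linear_combination e3
  obtain ⟨Q1, _, _, hf1, hp1, -, hfree1, ι, hι1, hι2, hι3⟩ :=
    patch' (1 + α * t) (hαu t) hTE h1 h2 k P ht
  obtain ⟨M, hM⟩ := NodeB.HB_down hE hα0 ι hι1 hι2 hι3 hHB2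
  have hmon : (X ^ M * G).Monic := (monic_X_pow M).mul hG
  have hM' : HB T1 Q1 k (algebraMap T0[X] T1 (X ^ M * G)) := by
    rw [map_mul, map_pow]
    exact hM
  obtain ⟨Q2, _, _, hf2, hp2, hHB3, hfree2, -⟩ :=
    patch' (X ^ M * G) hmon.ne_zero hinj0 (w1 M) (w2 M) k Q1 hM'
  apply hfree1
  apply hfree2
  refine monic_inversion k Q2 (X ^ M * G) hmon hHB3 1 ?_
  rw [eval_mul, eval_pow, eval_X, one_pow, one_mul]
  exact hG1

end Pool.Agent.QU54.BH
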