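import Mathlib
import Pool.Agent.Lib.QU54.NodeB

/-!
# The ideals in the step of the chain (part of row K3)
-/

set_option autoImplicit false

namespace Pool.Agent.QU54.BH

universe u

open Polynomial Pool.Agent.QU53

namespace ChainS

lemma pow_mem {T : Type u} [CommRing T] (I : Ideal T) (α γ f g s : T) (A B N d : ℕ)
    (hd : 0 < d) (hf : f = γ ^ d + α * g) (h1 : α ^ A * f ^ B ∈ I) (h2 : γ ^ N + α * s ∈ I) :
    ∃ K, f ^ K ∈ I := by
  obtain ⟨w1, hw1⟩ := sub_dvd_pow_sub_pow f (γ ^ d) N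
  obtain ⟨w2, hw2⟩ := sub_dvd_pow_sub_pow (γ ^ N + α * s) (γ ^ N) d
  have e1 : f - γ ^ d = α * g := by rw [hf]; ring
  have e2 : γ ^ N + α * s - γ ^ N = α * s := by ring
  rw [e1] at hw1
  rw [e2] at hw2
  have e0 : (γ ^ d) ^ N = (γ ^ N) ^ d := by rw [← pow_mul, ← pow_mul, mul_comm]
  have e3 : f ^ N - α * (g * w1 - s * w2) = (γ ^ N + α * s) ^ d := by
    linear_combination hw1 - hw2 + e0
  have e4 : (γ ^ N + α * s) ^ d ∈ I := I.pow_mem_of_mem h2 d hd
  obtain ⟨w3, hw3⟩ := sub_dvd_pow_sub_pow (f ^ N) (α * (g * w1 - s * w2)) A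
  rw [e3] at hw3
  refine ⟨N * A + B, ?_⟩
  have e5 : f ^ (N * A + B) = (γ ^ N + α * s) ^ d * (w3 * f ^ B) +
      (α ^ A * f ^ B) * (g * w1 - s * w2) ^ A := by
    rw [pow_add, pow_mul]
    rw [mul_pow] at hw3
    linear_combination f ^ B * hw3
  rw [e5]
  exact I.add_mem (I.mul_mem_right _ e4) (I.mul_mem_right _ h1)

theorem core {T E : Type u} [CommRing T] [IsDomain T] [CommRing E] [IsDomain E] [Algebra T E]
    {α γ : T} {c : E} (h : Pres T E α γ c) (hα0 : α ≠ 0)
    {P Q : Type u} [AddCommGroup P] [Module E P] [AddCommGroup Q]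
    [Module T Q] [Module.Finite T Q] (ι : Q →+ P) (hinj : Function.Injective ι)
    (hι : ∀ (a : T) (x : Q), ι (a • x) = algebraMap T E a • ι x)
    (hs : Submodule.span E (Set.range ι) = ⊤) {k : ℕ} (δ η : Fin k → P)
    (hδ : LinearIndependent E δ) (hη : ∀ i, ∃ x, ι x = η i) (t μ : T)
    (θ : Matrix (Fin k) (Fin k) T) (e N1 N2 : ℕ)
    (hx : ∀ x : Q, ∃ a : Fin k → T,
      algebraMap T E (1 + α * t) • ι x = ∑ i, algebraMap T E (a i) • η i)
    (hμ : ∃ r, μ = γ ^ N1 + α * r) (hθ : ∃ r, θ.det = γ ^ N2 + α * r)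
    (hrel : ∀ j, algebraMap T E μ • η j =
        algebraMap T E (α ^ e) • ∑ i, algebraMap T E (θ j i) • δ i)
    (f g : T) (d : ℕ) (hd : 0 < d) (hf : f = γ ^ d + α * g) (y : E)
    (hfy : algebraMap T E f = algebraMap T E (α ^ d) * y) (hy : y ≠ 0)
    (hyδ : ∀ p : P, y • p ∈ Submodule.span E (Set.range δ)) : ∃ K, HB T Q k (f ^ K) := by
  classical
  have hTE : Function.Injective (algebraMap T E) := h.inj hα0
  have hf0 : f ≠ 0 := by
    intro h0
    rw [h0, map_zero] at hfy
    rcases mul_eq_zero.1 hfy.symm with h1 | h1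
    · exact pow_ne_zero d hα0 (hTE (by rw [h1, map_zero]))
    · exact hy h1
  let D : Fin k → P := fun i => algebraMap T E (α ^ e) • δ i
  let I2 : Ideal T :=
    { carrier := {x | ∀ i, ∃ q : Q, algebraMap T E x • D i = ι q}
      add_mem' := by
        intro x y hx hy i
        obtain ⟨q1, h1⟩ := hx i
        obtain ⟨q2, h2⟩ := hy i
        exact ⟨q1 + q2, by rw [map_add, add_smul, h1, h2, map_add]⟩
      zero_mem' := fun i => ⟨0, by rw [map_zero, zero_smul, map_zero]⟩
      smul_mem' := by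
        intro a x hx i
        obtain ⟨q, h1⟩ := hx i
        exact ⟨a • q, by rw [smul_eq_mul, map_mul, mul_smul, h1, hι]⟩ }
  let I1 : Ideal T :=
    { carrier := {x | ∀ q : Q, ∃ a : Fin k → T,
        algebraMap T E x • ι q = ∑ i, algebraMap T E (a i) • D i}
      add_mem' := by
        intro x y hx hy q
        obtain ⟨a1, h1⟩ := hx q
        obtain ⟨a2, h2⟩ := hy q
        refine ⟨fun i => a1 i + a2 i, ?_⟩
        rw [map_add, add_smul, h1, h2, ← Finset.sum_add_distrib]
        exact Finset.sum_congr rfl fun i _ => by rw [map_add, add_smul]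
      zero_mem' := fun q => ⟨fun _ => 0, by simp⟩
      smul_mem' := by
        intro a x hx q
        obtain ⟨b, h1⟩ := hx q
        refine ⟨fun i => a * b i, ?_⟩
        rw [smul_eq_mul, map_mul, mul_smul, h1, Finset.smul_sum]
        exact Finset.sum_congr rfl fun i _ => by rw [map_mul, mul_smul] }
  have m2 : ∀ x, x ∈ I2 ↔ ∀ i, ∃ q : Q, algebraMap T E x • D i = ι q := fun _ => Iff.rfl
  have m1 : ∀ x, x ∈ I1 ↔ ∀ q : Q, ∃ a : Fin k → T,
    algebraMap T E x • ι q = ∑ i, algebraMap T E (a i) • D i := fun _ => Iff.rfl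
  -- the ideal `I2`
  have a2 : ∃ A, α ^ A * f ^ 0 ∈ I2 := by
    choose M q hq using fun i => NodeB.pow_smul_mem h ι hι hs (D i)
    refine ⟨∑ i, M i, (m2 _).2 fun i => ⟨α ^ (∑ j, M j - M i) • q i, ?_⟩⟩
    have e1 : ∑ j, M j = (∑ j, M j - M i) + M i :=
      (Nat.sub_add_cancel (Finset.single_le_sum (f := M) (fun _ _ => Nat.zero_le _)
        (Finset.mem_univ i))).symm
    have e2 : α ^ (∑ j, M j) * f ^ 0 = α ^ (∑ j, M j - M i) * α ^ M i := by
      rw [← pow_add, ← e1, pow_zero, mul_one]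
    rw [e2, map_mul, mul_smul, hq, hι]
  have b2 : ∃ s, γ ^ N2 + α * s ∈ I2 := by
    obtain ⟨r, hr⟩ := hθ
    refine ⟨r, ?_⟩
    rw [← hr]
    refine (m2 _).2 fun l => ?_
    choose x hx' using hη
    refine ⟨∑ j, (θ.adjugate l j * μ) • x j, ?_⟩
    have e1 : ∀ i, ∑ j, θ.adjugate l j * θ j i = if l = i then θ.det else 0 := by
      intro i
      have := congrFun (congrFun (Matrix.adjugate_mul θ) l) i
      rw [Matrix.mul_apply, Matrix.smul_apply, Matrix.one_apply] at this
      rw [this]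
      simp
    symm
    calc ι (∑ j, (θ.adjugate l j * μ) • x j)
        = ∑ j, algebraMap T E (θ.adjugate l j) •
            (algebraMap T E (α ^ e) • ∑ i, algebraMap T E (θ j i) • δ i) := by
          rw [map_sum]
          exact Finset.sum_congr rfl fun j _ => by rw [hι, hx', map_mul, mul_smul, hrel]
      _ = ∑ j, ∑ i, algebraMap T E (θ.adjugate l j * θ j i) • D i := by
          refine Finset.sum_congr rfl fun j _ => ?_
          rw [Finset.smul_sum, Finset.smul_sum]
          refine Finset.sum_congr rfl fun i _ => ?_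
          show _ = _ • (algebraMap T E (α ^ e) • δ i)
          rw [smul_smul, smul_smul, smul_smul, map_mul]
          congr 1
          ring
      _ = ∑ i, ∑ j, algebraMap T E (θ.adjugate l j * θ j i) • D i := Finset.sum_comm
      _ = ∑ i, algebraMap T E (if l = i then θ.det else 0) • D i := by
          refine Finset.sum_congr rfl fun i _ => ?_
          rw [← Finset.sum_smul, ← map_sum, e1]
      _ = algebraMap T E θ.det • D l := by
          simp [apply_ite (algebraMap T E), ite_smul]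
  -- the ideal `I1`
  have a1 : ∃ A, α ^ A * f ^ 1 ∈ I1 := by
    have key : ∀ q : Q, ∃ N : ℕ, ∃ a : Fin k → T,
        algebraMap T E (α ^ N * f) • ι q = ∑ i, algebraMap T E (a i) • D i := by
      intro q
      obtain ⟨x, hx⟩ := (Submodule.mem_span_range_iff_exists_fun E).1 (hyδ (ι q))
      choose N t ht using fun i => NodeB.pow_mul_mem h (x i)
      refine ⟨e + ∑ j, N j, fun i => α ^ d * (α ^ (∑ j, N j - N i) * t i), ?_⟩
      rw [map_mul, hfy, mul_smul, mul_smul, ← hx, Finset.smul_sum, Finset.smul_sum]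
      refine Finset.sum_congr rfl fun i _ => ?_
      have e1 : ∑ j, N j = (∑ j, N j - N i) + N i :=
        (Nat.sub_add_cancel (Finset.single_le_sum (f := N) (fun _ _ => Nat.zero_le _)
          (Finset.mem_univ i))).symm
      have e2 : algebraMap T E (α ^ (e + ∑ j, N j)) =
          algebraMap T E (α ^ e) * (algebraMap T E (α ^ (∑ j, N j - N i)) *
            algebraMap T E (α ^ N i)) := by
        rw [← map_mul, ← map_mul, ← pow_add, ← e1, ← pow_add]
      rw [e2, map_mul, map_mul, ← ht i]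
      show _ = _ • (algebraMap T E (α ^ e) • δ i)
      rw [smul_smul, smul_smul, smul_smul]
      congr 1
      ring
    obtain ⟨S, hS⟩ := (Module.finite_def.1 (inferInstance : Module.Finite T Q))
    choose N a hN using key
    refine ⟨∑ s ∈ S, N s, (m1 _).2 fun q => ?_⟩
    rw [pow_one]
    have hq : q ∈ Submodule.span T (S : Set Q) := by rw [hS]; trivial
    induction hq using Submodule.span_induction with
    | mem q hq =>
      have h6 : ∑ s ∈ S, N s = (∑ s ∈ S, N s - N q) + N q :=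
        (Nat.sub_add_cancel (Finset.single_le_sum (f := N) (fun _ _ => Nat.zero_le _) hq)).symm
      refine ⟨fun i => α ^ (∑ s ∈ S, N s - N q) * a q i, ?_⟩
      have e2 : α ^ (∑ s ∈ S, N s) * f = α ^ (∑ s ∈ S, N s - N q) * (α ^ N q * f) := by
        rw [← mul_assoc, ← pow_add, ← h6]
      rw [e2, map_mul, mul_smul, hN, Finset.smul_sum]
      exact Finset.sum_congr rfl fun i _ => by rw [map_mul, mul_smul]
    | zero => exact ⟨fun _ => 0, by simp⟩
    | add x y _ _ hx hy =>
      obtain ⟨b1, h1⟩ := hx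
      obtain ⟨b2, h2⟩ := hy
      refine ⟨fun i => b1 i + b2 i, ?_⟩
      rw [map_add, smul_add, h1, h2, ← Finset.sum_add_distrib]
      exact Finset.sum_congr rfl fun i _ => by rw [map_add, add_smul]
    | smul r x _ hx =>
      obtain ⟨b, h1⟩ := hx
      refine ⟨fun i => r * b i, ?_⟩
      rw [hι, smul_comm, h1, Finset.smul_sum]
      exact Finset.sum_congr rfl fun i _ => by rw [map_mul, mul_smul]
  have b1 : ∃ s, γ ^ N1 + α * s ∈ I1 := by
    obtain ⟨r, hr⟩ := hμ
    refine ⟨r + γ ^ N1 * t + α * r * t, ?_⟩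
    have e1 : γ ^ N1 + α * (r + γ ^ N1 * t + α * r * t) = μ * (1 + α * t) := by
      rw [hr]; ring
    rw [e1]
    refine (m1 _).2 fun q => ?_
    obtain ⟨a, ha⟩ := hx q
    refine ⟨fun i => ∑ j, a j * θ j i, ?_⟩
    calc algebraMap T E (μ * (1 + α * t)) • ι q
        = ∑ j, algebraMap T E (a j) •
            (algebraMap T E (α ^ e) • ∑ i, algebraMap T E (θ j i) • δ i) := by
          rw [map_mul, mul_smul, ha, Finset.smul_sum]
          exact Finset.sum_congr rfl fun j _ => by rw [smul_comm, hrel]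
      _ = ∑ j, ∑ i, algebraMap T E (a j * θ j i) • D i := by
          refine Finset.sum_congr rfl fun j _ => ?_
          rw [Finset.smul_sum, Finset.smul_sum]
          refine Finset.sum_congr rfl fun i _ => ?_
          show _ = _ • (algebraMap T E (α ^ e) • δ i)
          rw [smul_smul, smul_smul, smul_smul, map_mul]
          congr 1
          ring
      _ = ∑ i, ∑ j, algebraMap T E (a j * θ j i) • D i := Finset.sum_comm
      _ = ∑ i, algebraMap T E (∑ j, a j * θ j i) • D i := by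
          refine Finset.sum_congr rfl fun i _ => ?_
          rw [← Finset.sum_smul, ← map_sum]
  obtain ⟨A2, ha2⟩ := a2
  obtain ⟨s2, hs2⟩ := b2
  obtain ⟨A1, ha1⟩ := a1
  obtain ⟨s1, hs1⟩ := b1
  obtain ⟨K1, hK1⟩ := pow_mem I1 α γ f g s1 A1 1 N1 d hd hf ha1 hs1
  obtain ⟨K2, hK2⟩ := pow_mem I2 α γ f g s2 A2 0 N2 d hd hf ha2 hs2
  have c1 : f ^ (K1 + K2) ∈ I1 := by rw [pow_add]; exact I1.mul_mem_right _ hK1
  have c2 : f ^ (K1 + K2) ∈ I2 := by rw [pow_add]; exact I2.mul_mem_left _ hK2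
  choose x hx2 using (m2 _).1 c2
  refine ⟨(K1 + K2) + (K1 + K2), x, ?_, fun q => ?_⟩
  · rw [Fintype.linearIndependent_iff]
    intro g' hg' i
    have h1 : ∑ i, (algebraMap T E (g' i * f ^ (K1 + K2) * α ^ e)) • δ i = 0 := by
      have h2 := congrArg ι hg'
      rw [map_sum, map_zero] at h2
      rw [← h2]
      refine Finset.sum_congr rfl fun i _ => ?_
      rw [hι, ← hx2]
      show _ = _ • (_ • (algebraMap T E (α ^ e) • δ i))
      rw [smul_smul, smul_smul, map_mul, map_mul, mul_assoc]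
    have h3 := Fintype.linearIndependent_iff.1 hδ _ h1 i
    have h4 : g' i * f ^ (K1 + K2) * α ^ e = 0 := hTE (by rw [h3, map_zero])
    have h5 := (mul_eq_zero.1 h4).resolve_right (pow_ne_zero _ hα0)
    exact (mul_eq_zero.1 h5).resolve_right (pow_ne_zero _ hf0)
  · obtain ⟨a, ha⟩ := (m1 _).1 c1 q
    have h5 : f ^ ((K1 + K2) + (K1 + K2)) • q = ∑ i, a i • x i := by
      apply hinj
      rw [hι, map_sum, pow_add, map_mul, mul_smul, ha, Finset.smul_sum]
      refine Finset.sum_congr rfl fun i _ => ?_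
      rw [hι, ← hx2, smul_comm]
    rw [h5]
    exact Submodule.sum_mem _ fun i _ => Submodule.smul_mem _ _ (Submodule.subset_span ⟨i, rfl⟩)

end ChainS

end Pool.Agent.QU54.BH
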