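import Mathlib
import Pool.Agent.Lib.QU54.NodeB
import Pool.Agent.Lib.QU54.ChainD
import Pool.Agent.Lib.QU54.ChainI
import Pool.Agent.Lib.QU54.ChainP
import Pool.Agent.Lib.QU54.ChainF
import Pool.Agent.Lib.QU54.ChainG

/-!
# One step of the chain (row K3)
-/

set_option autoImplicit false

namespace Pool.Agent.QU54.BH

universe u

open Polynomial Pool.Agent.QU53

namespace ChainS

/-- The homogenised value is `γ ^ d` modulo `α`. -/
lemma homog_mod {T1 T : Type u} [CommRing T1] [CommRing T] [Algebra T1 T] (H : T1[X])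
    (hH : H.Monic) (α γ : T) : ∃ g : T, homog H α γ = γ ^ H.natDegree + α * g := by
  refine ⟨∑ i ∈ Finset.range H.natDegree,
    algebraMap T1 T (H.coeff i) * α ^ (H.natDegree - i - 1) * γ ^ i, ?_⟩
  unfold homog
  rw [Finset.sum_range_succ, Nat.sub_self, pow_zero, mul_one, hH.coeff_natDegree, map_one,
    one_mul, add_comm, Finset.mul_sum]
  congr 1
  refine Finset.sum_congr rfl fun i hi => ?_
  have h1 : H.natDegree - i = (H.natDegree - i - 1) + 1 := by
    have := Finset.mem_range.1 hi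
    omega
  have h2 : α ^ (H.natDegree - i) = α * α ^ (H.natDegree - i - 1) := by
    conv_lhs => rw [h1]
    rw [pow_succ, mul_comm]
  rw [h2]
  ring

/-- The homogenised value in `E`. -/
lemma homog_val {T1 T E : Type u} [CommRing T1] [CommRing T] [CommRing E] [Algebra T1 T]
    [Algebra T E] (H : T1[X]) (α γ : T) (c : E)
    (hαc : algebraMap T E α * c = algebraMap T E γ) :
    algebraMap T E (homog H α γ) =
      algebraMap T E (α ^ H.natDegree) * aeval c (H.map (algebraMap T1 T)) := by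
  have e1 : H.map (algebraMap T1 T) = ∑ i ∈ Finset.range (H.natDegree + 1),
      C (algebraMap T1 T (H.coeff i)) * X ^ i := by
    conv_lhs => rw [H.as_sum_range_C_mul_X_pow, Polynomial.map_sum]
    exact Finset.sum_congr rfl fun i _ => by
      rw [Polynomial.map_mul, Polynomial.map_pow, map_X, map_C]
  rw [e1, map_sum, Finset.mul_sum]
  unfold homog
  rw [map_sum]
  refine Finset.sum_congr rfl fun i hi => ?_
  have h1 : H.natDegree = (H.natDegree - i) + i := by
    have := Finset.mem_range.1 hi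
    omega
  have e2 : aeval c (C (algebraMap T1 T (H.coeff i)) * X ^ i) =
      algebraMap T E (algebraMap T1 T (H.coeff i)) * c ^ i := by
    rw [map_mul, aeval_C, map_pow, aeval_X]
  have e3 : α ^ H.natDegree = α ^ (H.natDegree - i) * α ^ i := by
    rw [← pow_add, ← h1]
  rw [e2, e3, map_mul, map_mul, map_mul, map_pow _ γ, ← hαc, mul_pow, map_pow _ α i]
  ring

end ChainS

/-- ROW K3. One step of the chain. -/
theorem bh_step {T1 T E B : Type u} [CommRing T1] [CommRing T] [IsDomain T] [IsNoetherianRing T]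
    [CommRing E] [IsDomain E] [Algebra T1 T] [Algebra T E] [CommRing B] [IsDomain B]
    (α γ : T) (hα0 : α ≠ 0) (c : E) (hE : Pres T E α γ c)
    (π : T →+* B) (hπ : Function.Surjective (π.comp (algebraMap T1 T))) (hπα : π α = 0)
    (hπγ : π γ = 0) (hk : ∀ t : T, π t = 0 → t ∈ Ideal.span {α, γ})
    (hu : ∀ b : B, IsUnit b → ∃ t : T1, IsUnit t ∧ π (algebraMap T1 T t) = b)
    (N : B → ℕ)
    (hN : ∀ x a : B, a ≠ 0 → ∃ q : B, x - a * q = 0 ∨ N (x - a * q) < N a)
    (P : Type u) [AddCommGroup P] [Module E P] [Module.Finite E P] [Module.Projective E P]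
    (k : ℕ) (H : T1[X]) (hH : H.Monic) (b : B)
    (hb : IsUnit ((H.map (π.comp (algebraMap T1 T))).eval b))
    (hHB : HB E P k (aeval c (H.map (algebraMap T1 T)))) :
    ∃ (Q : Type u) (_ : AddCommGroup Q) (_ : Module T Q), Module.Finite T Q ∧
      Module.Projective T Q ∧ (Module.Free T Q → Module.Free E P) ∧
      (∃ (H' : T1[X]) (M : ℕ), H'.Monic ∧ HB T Q k (homog H' α γ ^ M)) ∧
      ∀ g : T, HB E P k (algebraMap T E g) → ∃ M : ℕ, HB T Q k (α ^ M * g) := by
  have hTE : Function.Injective (algebraMap T E) := hE.inj hα0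
  have hαu : ∀ t : T, 1 + α * t ≠ 0 := by
    intro t h0
    have h1 := congrArg π h0
    rw [map_add, map_one, map_mul, hπα, zero_mul, add_zero, map_zero] at h1
    exact one_ne_zero h1
  obtain ⟨ρ, hρ, hker⟩ := hE.rho π hπα hπγ hk
  have hmon : ∀ (f : T[X]) (t : T), f.leadingCoeff = 1 + α * t → aeval c f ≠ 0 := by
    intro f t hf h0
    have h1 := hρ f
    rw [h0, map_zero] at h1
    have h2 := congrArg (fun g : B[X] => g.coeff f.natDegree) h1
    simp only [coeff_zero, coeff_map] at h2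
    rw [coeff_natDegree, hf, map_add, map_one, map_mul, hπα, zero_mul, add_zero] at h2
    exact one_ne_zero h2.symm
  have hmon' : ∀ f : T[X], f.Monic → aeval c f ≠ 0 := fun f hf =>
    hmon f 0 (by rw [mul_zero, add_zero]; exact hf)
  have : Nontrivial T1 := (π.comp (algebraMap T1 T)).domain_nontrivial
  obtain ⟨H', m, δ, ε, hH', hm, hδ, hHδ, hgen, hme⟩ := bh_frame1 c hE.surj α π hπ hπα hu N hN ρ
    hρ hker P k H hH b hb hHB
  obtain ⟨η, t, μ, θ, e, N1, N2, hη, hηs, hμ, hθ, hrel⟩ := bh_frame2 hTE c hE.surj α γ hα0 hαu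
    hE.rel hmon P δ hδ (H'.map (algebraMap T1 T)) (hH'.map _) hHδ (m.map (algebraMap T1 T))
    (hm.map _) ε hgen hme
  have h1 : ∀ x : E, ∃ (a : T) (d : E),
      x = algebraMap T E a + algebraMap T E (1 + α * t) * d := by
    intro x
    obtain ⟨f, rfl⟩ := hE.surj x
    have e1 := sub_dvd_eval_sub c (algebraMap T E (-(t * γ))) (f.map (algebraMap T E))
    obtain ⟨g, hg⟩ := e1
    refine ⟨f.eval (-(t * γ)), c * g, ?_⟩
    rw [eval_map_algebraMap, eval_map_algebraMap, aeval_algebraMap_apply] at hg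
    rw [coe_aeval_eq_eval] at hg
    have e2 : (aeval c f : E) = algebraMap T E (f.eval (-(t * γ))) +
        (c - algebraMap T E (-(t * γ))) * g := by
      rw [← hg]; abel
    have e3 := hE.rel
    rw [e2, map_neg, map_mul, map_add, map_one, map_mul, ← e3]
    ring
  have h2 : ∀ (a : T) (d : E), algebraMap T E a = algebraMap T E (1 + α * t) * d →
      ∃ a' : T, a = (1 + α * t) * a' := by
    intro a d had
    obtain ⟨g, rfl⟩ := hE.surj d
    obtain ⟨q, hq⟩ := hE.ker (C a - C (1 + α * t) * g) (by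
      rw [map_sub, map_mul, aeval_C, aeval_C, had, sub_self])
    have e3 := congrArg (eval (-(t * γ))) hq
    simp only [eval_sub, eval_mul, eval_C, eval_X] at e3
    refine ⟨g.eval (-(t * γ)) - γ * q.eval (-(t * γ)), ?_⟩
    linear_combination e3
  obtain ⟨Q, _, _, hf1, hp1, -, hfree, ι, hι1, hι2, hι3, hι4, hι5⟩ :=
    patch2 (1 + α * t) (hαu t) hTE h1 h2 P η hη hηs
  refine ⟨Q, _, _, hf1, hp1, hfree, ?_, fun g hg => NodeB.HB_down hE hα0 ι hι1 hι2 hι3 hg⟩
  have hX : (X * H').Monic := monic_X.mul hH'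
  obtain ⟨g, hg⟩ := ChainS.homog_mod (T := T) (X * H') hX α γ
  have hd : 0 < (X * H').natDegree := by
    rw [monic_X.natDegree_mul hH', natDegree_X]
    omega
  obtain ⟨K, hK⟩ := ChainS.core hE hα0 ι hι1 hι2 hι3 δ η hδ hι4 t μ θ e N1 N2 hι5 hμ hθ hrel
    (homog (X * H') α γ) g (X * H').natDegree hd hg
    (aeval c ((X * H').map (algebraMap T1 T))) (ChainS.homog_val (X * H') α γ c hE.rel)
    (hmon' _ (hX.map _)) (by
      intro p
      rw [Polynomial.map_mul, map_mul, mul_smul]
      exact Submodule.smul_mem _ _ (hHδ p))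
  exact ⟨X * H', K, hX, hK⟩

end Pool.Agent.QU54.BH
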