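import Mathlib
import Pool.Agent.Lib.QU53.HBase
import Pool.Agent.Lib.QU54.Pres

/-!
# Localisation of the algebras `T[c]/(α c - γ)` and of the condition `HB`
-/

set_option autoImplicit false

namespace Pool.Agent.QU54.BH

universe u

open Polynomial Pool.Agent.QU53

/-- ROW C4. -/
theorem pres_loc {T E : Type u} [CommRing T] [IsDomain T] [CommRing E] [IsDomain E] [Algebra T E]
    {α γ : T} {c : E} (h : Pres T E α γ c) (hα0 : α ≠ 0) (S : Submonoid T) (hS : (0 : T) ∉ S) :
    Pres (Localization S) (Localization (Algebra.algebraMapSubmonoid E S))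
      (algebraMap T _ α) (algebraMap T _ γ) (algebraMap E _ c) := by
  classical
  have hinj : Function.Injective (algebraMap T E) := h.inj hα0
  have hM0 : (0 : E) ∉ Algebra.algebraMapSubmonoid E S := by
    rintro ⟨s, hs, hs0⟩
    have h1 : s = 0 := hinj (by rw [map_zero]; exact hs0)
    exact hS (h1 ▸ hs)
  have hMn : Algebra.algebraMapSubmonoid E S ≤ nonZeroDivisors E :=
    le_nonZeroDivisors_of_noZeroDivisors hM0
  have hEinj : Function.Injective
      (algebraMap E (Localization (Algebra.algebraMapSubmonoid E S))) :=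
    IsLocalization.injective _ hMn
  have hTE : ∀ t : T, algebraMap (Localization S)
      (Localization (Algebra.algebraMapSubmonoid E S)) (algebraMap T _ t)
      = algebraMap E _ (algebraMap T E t) := by
    intro t
    rw [← IsScalarTower.algebraMap_apply, ← IsScalarTower.algebraMap_apply]
  have hev : ∀ f : T[X], aeval (algebraMap E (Localization (Algebra.algebraMapSubmonoid E S)) c)
      (f.map (algebraMap T (Localization S))) = algebraMap E _ (aeval c f) := by
    intro f
    rw [aeval_map_algebraMap, aeval_algebraMap_apply]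
  refine ⟨?_, ?_, ?_⟩
  · intro x
    obtain ⟨e, ⟨_, s, hs, rfl⟩, rfl⟩ :=
      IsLocalization.exists_mk'_eq (Algebra.algebraMapSubmonoid E S) x
    obtain ⟨f, rfl⟩ := h.surj e
    refine ⟨C (IsLocalization.mk' (Localization S) 1 (⟨s, hs⟩ : S))
      * f.map (algebraMap T (Localization S)), ?_⟩
    rw [map_mul, hev, aeval_C, eq_comm, IsLocalization.mk'_eq_iff_eq_mul]
    show _ = _ * algebraMap E _ (algebraMap T E s)
    rw [← hTE, mul_right_comm, ← map_mul, IsLocalization.mk'_spec_mk, map_one, map_one, one_mul]
  · rw [hTE, hTE, ← map_mul, h.rel]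
  · intro f hf
    obtain ⟨b₀, hb₀, hb⟩ := IsLocalization.integerNormalization_spec S f
    obtain ⟨b, rfl⟩ : ∃ b : S, (b : T) = b₀ := ⟨⟨b₀, hb₀⟩, rfl⟩
    have h1 : aeval c (IsLocalization.integerNormalization S f) = 0 := by
      apply hEinj
      rw [← hev, hb, map_zero, ← algebraMap_smul (Localization S) (b : T) f, map_smul, hf,
        smul_zero]
    obtain ⟨w, hw⟩ := h.ker _ h1
    refine ⟨IsLocalization.mk' (Localization S) 1 b • w.map (algebraMap T (Localization S)), ?_⟩
    have h2 : f = IsLocalization.mk' (Localization S) 1 b • ((b : T) • f) := by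
      rw [← algebraMap_smul (Localization S) (b : T) f, smul_smul, IsLocalization.mk'_spec,
        map_one, one_smul]
    rw [h2, ← hb, hw, Polynomial.map_mul, Polynomial.map_sub, Polynomial.map_mul, Polynomial.map_C,
      Polynomial.map_C, Polynomial.map_X, mul_smul_comm]

/-- ROW C4b. -/
theorem HB_loc {E : Type u} [CommRing E] [IsDomain E] (M : Submonoid E) (hM : (0 : E) ∉ M)
    (P : Type u) [AddCommGroup P] [Module E P] (k : ℕ) (h : E) (H : HB E P k h) :
    HB (Localization M) (LocalizedModule M P) k (algebraMap E (Localization M) h) := by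
  obtain ⟨δ, hδ, hs⟩ := H
  refine ⟨LocalizedModule.mkLinearMap M P ∘ δ,
    LinearIndependent.of_isLocalizedModule (Localization M) M _ hδ, ?_⟩
  intro q
  induction q using LocalizedModule.induction_on with
  | h p s =>
    have h1 : ∀ y ∈ Submodule.span E (Set.range δ),
        LocalizedModule.mkLinearMap M P y ∈
        Submodule.span (Localization M) (Set.range (LocalizedModule.mkLinearMap M P ∘ δ)) := by
      intro y hy
      refine Submodule.span_induction (p := fun y _ => LocalizedModule.mkLinearMap M P y ∈
        Submodule.span (Localization M) (Set.range (LocalizedModule.mkLinearMap M P ∘ δ)))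
        ?_ ?_ ?_ ?_ hy
      · rintro _ ⟨i, rfl⟩
        exact Submodule.subset_span ⟨i, rfl⟩
      · rw [map_zero]
        exact Submodule.zero_mem _
      · intro x y _ _ hx hy
        rw [map_add]
        exact Submodule.add_mem _ hx hy
      · intro a x _ hx
        rw [map_smul, ← algebraMap_smul (Localization M) a]
        exact Submodule.smul_mem _ _ hx
    have h2 := h1 _ (hs p)
    have h3 : algebraMap E (Localization M) h • LocalizedModule.mk p s
        = (IsLocalization.mk' (Localization M) 1 s)
          • LocalizedModule.mkLinearMap M P (h • p) := by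
      rw [LocalizedModule.mkLinearMap_apply, algebraMap_smul, LocalizedModule.smul'_mk,
        ← Localization.mk_eq_mk', LocalizedModule.mk_smul_mk, one_smul, mul_one]
    rw [h3]
    exact Submodule.smul_mem _ _ h2

/-- ROW C4c. -/
theorem HB_of_loc_free {T E : Type u} [CommRing T] [IsDomain T] [CommRing E] [IsDomain E]
    [Algebra T E] (hinj : Function.Injective (algebraMap T E)) (S : Submonoid T) (hS : (0 : T) ∉ S)
    (P : Type u) [AddCommGroup P] [Module E P] [Module.Finite E P] (k : ℕ) (h : E) (hh : h ≠ 0)
    (H : HB E P k h)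
    (hfree : Module.Free (Localization (Algebra.algebraMapSubmonoid E S))
      (LocalizedModule (Algebra.algebraMapSubmonoid E S) P)) :
    ∃ s ∈ S, HB E P k (algebraMap T E s) := by
  have hM0 : (0 : E) ∉ Algebra.algebraMapSubmonoid E S := by
    rintro ⟨s, hs, hs0⟩
    have h1 : s = 0 := hinj (by rw [map_zero]; exact hs0)
    exact hS (h1 ▸ hs)
  obtain ⟨k', m, ⟨s, hs, rfl⟩, H'⟩ := exists_HB_of_free _ hM0 P hfree
  have hs0 : algebraMap T E s ≠ 0 := fun h1 => hM0 ⟨s, hs, h1⟩
  have hk : k = k' := HB_unique hh hs0 H H'
  subst hk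
  exact ⟨s, hs, H'⟩

end Pool.Agent.QU54.BH
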