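import Mathlib
import Pool.Agent.Lib.QU53.Red
import Pool.Agent.Lib.QU54.NodeD

/-!
# Gabber's theorem for the algebras `T[c]/(α c - γ)` at a prime of the base not containing `α`
-/

set_option autoImplicit false

namespace Pool.Agent.QU54.BH

universe u

open Polynomial Pool.Agent.QU53

/-- If `α` is a unit, the algebra is the base. -/
theorem Pres.surj_of_isUnit {T E : Type u} [CommRing T] [CommRing E] [Algebra T E] {α γ : T}
    {c : E} (h : Pres T E α γ c) (hα : IsUnit α) : Function.Surjective (algebraMap T E) := by
  obtain ⟨v, hv⟩ := hα.exists_left_inv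
  have hc : c = algebraMap T E (v * γ) := by
    rw [map_mul, ← h.rel, ← mul_assoc, ← map_mul, hv, map_one, one_mul]
  intro x
  obtain ⟨f, rfl⟩ := h.surj x
  refine ⟨f.eval (v * γ), ?_⟩
  rw [hc, aeval_algebraMap_apply, coe_aeval_eq_eval]

/-- ROW C6. Gabber's theorem for a prime of the base not containing `α`. -/
theorem pres_gab {D : Type u} [CommRing D] [IsDomain D] [IsNoetherianRing D] (y α γ : D)
    (q : Ideal D) [q.IsPrime]
    (hPF : PF (Localization.Away (algebraMap D (Localization.AtPrime q) y)))
    (hα : α ∉ q) (hy0 : y ≠ 0) {E : Type u} [CommRing E] [IsDomain E]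
    [Algebra (Localization.Away y) E] (c : E)
    (h : Pres (Localization.Away y) E (algebraMap D _ α) (algebraMap D _ γ) c)
    (P : Type u) [AddCommGroup P] [Module E P] [Module.Finite E P] [Module.Projective E P] :
    ∃ k, ∃ h' ∉ q, HB E P k (algebraMap (Localization.Away y) E (algebraMap D _ h')) := by
  classical
  have hinj : Function.Injective (algebraMap D (Localization.Away y)) :=
    IsLocalization.injective _ (powers_le_nonZeroDivisors_of_noZeroDivisors hy0)
  have hTdom : IsDomain (Localization.Away y) :=
    IsLocalization.isDomain_localization (powers_le_nonZeroDivisors_of_noZeroDivisors hy0)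
  have h0 : (0 : Localization.Away y) ∉
      Algebra.algebraMapSubmonoid (Localization.Away y) q.primeCompl := by
    rintro ⟨z, hz, hz0⟩
    apply hz
    have : z = 0 := hinj (by rw [hz0, map_zero])
    rw [this]
    exact q.zero_mem
  have hα0 : α ≠ 0 := fun h1 => hα (by rw [h1]; exact q.zero_mem)
  have hα0' : algebraMap D (Localization.Away y) α ≠ 0 := fun h1 =>
    hα0 (hinj (by rw [h1, map_zero]))
  have hPF' : PF (Localization
      (Algebra.algebraMapSubmonoid (Localization.Away y) q.primeCompl)) := PF_swap y q hPF
  have h1 := pres_loc h hα0' (Algebra.algebraMapSubmonoid (Localization.Away y) q.primeCompl) h0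
  have hu : IsUnit (algebraMap (Localization.Away y) (Localization
      (Algebra.algebraMapSubmonoid (Localization.Away y) q.primeCompl))
      (algebraMap D (Localization.Away y) α)) :=
    IsLocalization.map_units (M := Algebra.algebraMapSubmonoid (Localization.Away y) q.primeCompl)
      _ ⟨_, α, hα, rfl⟩
  have hLdom : IsDomain (Localization
      (Algebra.algebraMapSubmonoid (Localization.Away y) q.primeCompl)) :=
    IsLocalization.isDomain_localization (le_nonZeroDivisors_of_noZeroDivisors h0)
  have h2 := h1.inj hu.ne_zero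
  have h3 := h1.surj_of_isUnit hu
  have hPF'' := PF_congr (RingEquiv.ofBijective _ ⟨h2, h3⟩).symm hPF'
  have hE0 : (0 : E) ∉ Algebra.algebraMapSubmonoid E
      (Algebra.algebraMapSubmonoid (Localization.Away y) q.primeCompl) := by
    rintro ⟨s, hs, hs0⟩
    have h4 : s = 0 := h.inj hα0' (by rw [map_zero]; exact hs0)
    exact h0 (h4 ▸ hs)
  obtain ⟨k, _, ⟨_, ⟨h', hh', rfl⟩, rfl⟩, H1⟩ := exists_HB _ hE0 P hPF''
  exact ⟨k, h', hh', H1⟩

end Pool.Agent.QU54.BH
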