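import Mathlib
import Pool.Agent.Lib.QU53.Red
import Pool.Agent.Lib.QU53.R3
import Pool.Agent.Lib.QU54.NodeA
import Pool.Agent.Lib.QU54.NodeF
import Pool.Agent.Lib.QU54.ChainD
import Pool.Agent.Lib.QU54.ChainS
import Pool.Agent.Lib.QU54.ChainM

/-!
# The chain (row K5)
-/

set_option autoImplicit false

namespace Pool.Agent.QU54.BH

universe u

open Polynomial Pool.Agent.QU53

namespace ChainL

/-- The evaluation at `c = 0`, followed by a reduction killing `γ`. -/
theorem ev0 {T E B : Type u} [CommRing T] [CommRing E] [Algebra T E] [CommRing B] {α γ : T}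
    {c : E} (h : Pres T E α γ c) (π : T →+* B) (hπγ : π γ = 0) :
    ∃ π' : E →+* B, ∀ f : T[X], π' (aeval c f) = π (f.eval 0) := by
  let ρ : E →+* B := RingHom.liftOfSurjective (aeval c : T[X] →ₐ[T] E).toRingHom h.surj
    ⟨π.comp (evalRingHom 0), by
      intro g hg
      obtain ⟨w, rfl⟩ := h.ker g hg
      rw [RingHom.mem_ker, RingHom.comp_apply, coe_evalRingHom, eval_mul, eval_sub, eval_mul,
        eval_X, mul_zero, zero_sub, eval_C, map_mul, map_neg, hπγ, neg_zero, zero_mul]⟩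
  exact ⟨ρ, fun g =>
    RingHom.liftOfSurjective_comp_apply (aeval c : T[X] →ₐ[T] E).toRingHom h.surj _ g⟩

/-- A homogenised monic polynomial is a monic polynomial in `c`. -/
theorem homog_eq {T1 E : Type u} [CommRing T1] [CommRing E] [Algebra T1 E] (H : T1[X])
    (hH : H.Monic) (α : T1) (c : E) (M : ℕ) :
    ∃ H' : T1[X], H'.Monic ∧ homog H (algebraMap T1 E α) c ^ M = aeval c H' := by
  classical
  let H0 : T1[X] := ∑ i ∈ Finset.range (H.natDegree + 1),
    C (H.coeff i * α ^ (H.natDegree - i)) * X ^ i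
  have hmon : H0.Monic := by
    refine monic_of_natDegree_le_of_coeff_eq_one H.natDegree ?_ ?_
    · refine natDegree_sum_le_of_forall_le _ _ fun i hi => ?_
      exact (natDegree_C_mul_X_pow_le _ _).trans (Nat.lt_succ_iff.1 (Finset.mem_range.1 hi))
    · rw [finsetSum_coeff]
      simp only [coeff_C_mul_X_pow]
      rw [Finset.sum_ite_eq, if_pos (Finset.mem_range.2 (Nat.lt_succ_self _)), Nat.sub_self,
        pow_zero, mul_one]
      exact hH
  refine ⟨H0 ^ M, hmon.pow M, ?_⟩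
  rw [map_pow]
  congr 1
  unfold homog
  rw [map_sum]
  refine Finset.sum_congr rfl fun i _ => ?_
  rw [map_mul, map_pow, aeval_X, aeval_C, map_mul, map_pow]

theorem aux {T0 T1 : Type u} [CommRing T0] [IsDomain T0] [IsNoetherianRing T0]
    [CommRing T1] [IsDomain T1] [IsNoetherianRing T1] [Algebra T0[X] T1]
    (hinj0 : Function.Injective (algebraMap T0[X] T1)) (γ : T1) (hγ : Prime γ)
    (W : Submonoid T0[X])
    (hW : ∀ G ∈ W, G.Monic ∧ IsUnit (G.eval 1) ∧
      (∀ t : T1, ∃ (f : T0[X]) (t' : T1),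
        t = algebraMap T0[X] T1 f + algebraMap T0[X] T1 G * t') ∧
      (∀ (f : T0[X]) (t' : T1), algebraMap T0[X] T1 f = algebraMap T0[X] T1 G * t' →
        ∃ f' : T0[X], f = G * f'))
    (l : List T0[X]) :
    (∀ a ∈ l, a ∈ W ∧ ¬ γ ∣ algebraMap T0[X] T1 a ∧ Ctr (algebraMap T0[X] T1 a) γ) →
    ∀ (E : Type u) [CommRing E] [IsDomain E] [Algebra T1 E] (c : E),
      Pres T1 E ((l.map (algebraMap T0[X] T1)).prod) γ c →
    ∀ (P : Type u) [AddCommGroup P] [Module E P] [Module.Finite E P] [Module.Projective E P]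
      (k : ℕ) (H : T1[X]), H.Monic → HB E P k (aeval c H) →
    ∀ G ∈ W, HB E P k (algebraMap T1 E (algebraMap T0[X] T1 G)) → Module.Free E P := by
  classical
  have hWne : ∀ a ∈ W, algebraMap T0[X] T1 a ≠ 0 := fun a ha h0 =>
    (hW a ha).1.ne_zero (hinj0 (by rw [h0, map_zero]))
  induction l with
  | nil =>
    intro _ E _ _ _ c hE P _ _ _ _ k H _ _ G hG hHB2
    rw [List.map_nil, List.prod_nil] at hE
    obtain ⟨hGm, hG1, w1, w2⟩ := hW G hG
    let e : T1 ≃+* E := RingEquiv.ofBijective (algebraMap T1 E)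
      ⟨hE.inj one_ne_zero, hE.surj_of_isUnit isUnit_one⟩
    refine transfer e.symm _ k ?_ P hHB2
    intro P' _ _ _ _ hb
    have he : e.symm (algebraMap T1 E (algebraMap T0[X] T1 G)) = algebraMap T0[X] T1 G :=
      e.symm_apply_apply _
    rw [he] at hb
    obtain ⟨Q2, _, _, hf2, hp2, hHB3, hfree2, -⟩ :=
      patch' G hGm.ne_zero hinj0 w1 w2 k P' hb
    exact hfree2 (monic_inversion k Q2 G hGm hHB3 1 hG1)
  | cons a l' ih =>
    intro hl E _ _ _ c hE P _ _ _ _ k H hH hHB G hG hHB2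
    obtain ⟨haW, haγ, B, _, _, π, N, hπ, hπα, hπγ, hk, hu, hN, hev⟩ := hl a List.mem_cons_self
    have hl' : ∀ b ∈ l', b ∈ W ∧ ¬ γ ∣ algebraMap T0[X] T1 b ∧
        Ctr (algebraMap T0[X] T1 b) γ := fun b hb => hl b (List.mem_cons_of_mem _ hb)
    have hE' : Pres T1 E ((l'.map (algebraMap T0[X] T1)).prod * algebraMap T0[X] T1 a) γ c := by
      rw [List.map_cons, List.prod_cons, mul_comm] at hE
      exact hE
    have hh0 : (l'.map (algebraMap T0[X] T1)).prod ≠ 0 := by
      refine List.prod_ne_zero ?_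
      intro h0
      obtain ⟨b, hb, hb0⟩ := List.mem_map.1 h0
      exact hWne b (hl' b hb).1 hb0
    have hγh : ¬ γ ∣ (l'.map (algebraMap T0[X] T1)).prod := by
      intro h0
      obtain ⟨x, hx, hγx⟩ := (Prime.dvd_prod_iff hγ).1 h0
      obtain ⟨b, hb, rfl⟩ := List.mem_map.1 hx
      exact (hl' b hb).2.1 hγx
    obtain ⟨E', _, _, _, _, _, _, c', h1, h2⟩ :=
      pres_mid hE' hh0 (hWne a haW) hγ hγh
    obtain ⟨π', hπ'⟩ := ev0 h1 π hπγ
    have hπ'a : ∀ t, π' (algebraMap T1 E' t) = π t := by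
      intro t
      have := hπ' (C t)
      rwa [aeval_C, eval_C] at this
    have hα0' : algebraMap T1 E' (algebraMap T0[X] T1 a) ≠ 0 := fun h0 =>
      hWne a haW (h1.inj hh0 (by rw [h0, map_zero]))
    have hcomp : π'.comp (algebraMap T1 E') = π := RingHom.ext hπ'a
    have hsurj : Function.Surjective (π'.comp (algebraMap T1 E')) := by
      rw [hcomp]
      exact hπ
    have hπα' : π' (algebraMap T1 E' (algebraMap T0[X] T1 a)) = 0 := by rw [hπ'a, hπα]
    have hπγ' : π' c' = 0 := by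
      have := hπ' X
      rwa [aeval_X, eval_X, map_zero] at this
    have hk' : ∀ t : E', π' t = 0 →
        t ∈ Ideal.span {algebraMap T1 E' (algebraMap T0[X] T1 a), c'} := by
      intro t ht
      obtain ⟨f, rfl⟩ := h1.surj t
      rw [hπ'] at ht
      have h3 := hk _ ht
      obtain ⟨r, s, hrs⟩ := Ideal.mem_span_pair.1 h3
      have h4 : f = C (f.eval 0) + X * f.divX := by
        rw [← coeff_zero_eq_eval_zero, add_comm, mul_comm]
        exact (divX_mul_X_add f).symm
      rw [h4, ← hrs, map_add, map_mul, aeval_X, aeval_C, map_add, map_mul, map_mul, ← h1.rel]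
      refine Ideal.mem_span_pair.2 ⟨algebraMap T1 E' r,
        algebraMap T1 E' s * algebraMap T1 E' (l'.map (algebraMap T0[X] T1)).prod +
          aeval c' f.divX, ?_⟩
      ring
    have hu' : ∀ b : B, IsUnit b → ∃ t : T1, IsUnit t ∧ π' (algebraMap T1 E' t) = b := by
      intro b hb
      obtain ⟨t, ht, hb⟩ := hu b hb
      exact ⟨t, ht, by rw [hπ'a, hb]⟩
    obtain ⟨b, hb⟩ := hev (H.map (π'.comp (algebraMap T1 E'))) (hH.map _)
    have hHB' : HB E P k (aeval c (H.map (algebraMap T1 E'))) := by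
      rw [aeval_map_algebraMap]
      exact hHB
    obtain ⟨Q, _, _, hQ1, hQ2, hQ3, ⟨H', M, hH', hM⟩, hQ4⟩ :=
      bh_step (algebraMap T1 E' (algebraMap T0[X] T1 a)) c' hα0' c h2 π' hsurj hπα' hπγ' hk' hu'
        N hN P k H hH b hb hHB'
    obtain ⟨M', hM'⟩ := hQ4 (algebraMap T1 E' (algebraMap T0[X] T1 G)) (by
      rw [← IsScalarTower.algebraMap_apply T1 E' E]
      exact hHB2)
    obtain ⟨H'', hH'', e⟩ := homog_eq H' hH' (algebraMap T0[X] T1 a) c' M
    rw [e] at hM
    refine hQ3 (ih hl' E' c' h1 Q k H'' hH'' hM (a ^ M' * G)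
      (W.mul_mem (W.pow_mem haW _) hG) ?_)
    rw [map_mul, map_pow, map_mul, map_pow]
    exact hM'

end ChainL

/-- ROW K5. The chain. -/
theorem chain {T0 T1 : Type u} [CommRing T0] [IsDomain T0] [IsNoetherianRing T0]
    [CommRing T1] [IsDomain T1] [IsNoetherianRing T1] [Algebra T0[X] T1]
    (hinj0 : Function.Injective (algebraMap T0[X] T1)) (γ : T1) (hγ : Prime γ)
    (W : Submonoid T0[X])
    (hW : ∀ G ∈ W, G.Monic ∧ IsUnit (G.eval 1) ∧
      (∀ t : T1, ∃ (f : T0[X]) (t' : T1),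
        t = algebraMap T0[X] T1 f + algebraMap T0[X] T1 G * t') ∧
      (∀ (f : T0[X]) (t' : T1), algebraMap T0[X] T1 f = algebraMap T0[X] T1 G * t' →
        ∃ f' : T0[X], f = G * f'))
    (l : List T0[X])
    (hl : ∀ a ∈ l, a ∈ W ∧ ¬ γ ∣ algebraMap T0[X] T1 a ∧ Ctr (algebraMap T0[X] T1 a) γ)
    {E : Type u} [CommRing E] [IsDomain E] [Algebra T1 E] (c : E)
    (hE : Pres T1 E ((l.map (algebraMap T0[X] T1)).prod) γ c)
    (P : Type u) [AddCommGroup P] [Module E P] [Module.Finite E P] [Module.Projective E P]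
    (k : ℕ) (H : T1[X]) (hH : H.Monic) (hHB : HB E P k (aeval c H))
    (G : T0[X]) (hG : G ∈ W) (hHB2 : HB E P k (algebraMap T1 E (algebraMap T0[X] T1 G))) :
    Module.Free E P :=
  ChainL.aux hinj0 γ hγ W hW l hl E c hE P k H hH hHB G hG hHB2

end Pool.Agent.QU54.BH
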