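import Mathlib
import Pool.Agent.Lib.QU53.Step

/-!
# Weierstrass division, localised at a submonoid of the coefficient ring
-/

set_option autoImplicit false

namespace Pool.Agent.QU54.BH

universe u

open Polynomial Pool.Agent.QU53 IsLocalRing

/-- ROW C3. Weierstrass division, localised. -/
theorem w_div {A : Type u} [CommRing A] [IsDomain A] [IsLocalRing A] [IsNoetherianRing A]
    [IsAdicComplete (maximalIdeal A) A] (M : Submonoid A) (hM : (0 : A) ∉ M) :
    ∃ φ : (Localization M)[X] →+* Localization (M.map (PowerSeries.C (R := A))),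
      Function.Injective φ ∧
      (∀ a : A, φ (C (algebraMap A (Localization M) a)) =
        algebraMap (PowerSeries A) _ (PowerSeries.C a)) ∧
      φ X = algebraMap (PowerSeries A) _ PowerSeries.X ∧
      ∀ G : A[X], G.Monic → G.map (residue A) = X ^ G.natDegree →
        (∀ t, ∃ (f : (Localization M)[X]) (t' : Localization (M.map (PowerSeries.C (R := A)))),
          t = φ f + φ (G.map (algebraMap A (Localization M))) * t') ∧
        (∀ (f : (Localization M)[X]) (t' : Localization (M.map (PowerSeries.C (R := A)))),
          φ f = φ (G.map (algebraMap A (Localization M))) * t' →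
          ∃ f', f = G.map (algebraMap A (Localization M)) * f') := by
  classical
  have hMn : M ≤ nonZeroDivisors A := le_nonZeroDivisors_of_noZeroDivisors hM
  have hM0 : (0 : PowerSeries A) ∉ M.map (PowerSeries.C (R := A)) := by
    rintro ⟨m, hm, h0⟩
    have h1 : m = 0 := PowerSeries.C_injective (by rw [map_zero]; exact h0)
    exact hM (h1 ▸ hm)
  have hBn : M.map (PowerSeries.C (R := A)) ≤ nonZeroDivisors (PowerSeries A) :=
    le_nonZeroDivisors_of_noZeroDivisors hM0
  have hCr : IsDomain (Localization M) := IsLocalization.isDomain_localization hMn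
  have hB : IsDomain (Localization (M.map (PowerSeries.C (R := A)))) :=
    IsLocalization.isDomain_localization hBn
  have hinjR : Function.Injective
      (algebraMap (PowerSeries A) (Localization (M.map (PowerSeries.C (R := A))))) :=
    IsLocalization.injective _ hBn
  have hunit : ∀ m : M, IsUnit (((algebraMap (PowerSeries A)
      (Localization (M.map (PowerSeries.C (R := A))))).comp (PowerSeries.C (R := A))) m) := fun m =>
    IsLocalization.map_units (Localization (M.map (PowerSeries.C (R := A))))
      (⟨PowerSeries.C (m : A), ⟨m, m.2, rfl⟩⟩ : M.map (PowerSeries.C (R := A)))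
  obtain ⟨φ₀, hφ₀⟩ : ∃ φ₀ : Localization M →+* Localization (M.map (PowerSeries.C (R := A))),
      ∀ a : A, φ₀ (algebraMap A (Localization M) a) =
        algebraMap (PowerSeries A) _ (PowerSeries.C a) :=
    ⟨IsLocalization.lift hunit, fun a => IsLocalization.lift_eq hunit a⟩
  obtain ⟨φ, hφC, hφX⟩ : ∃ φ : (Localization M)[X] →+*
      Localization (M.map (PowerSeries.C (R := A))),
      (∀ a : Localization M, φ (C a) = φ₀ a) ∧
      φ X = algebraMap (PowerSeries A) _ PowerSeries.X :=
    ⟨Polynomial.eval₂RingHom φ₀ (algebraMap (PowerSeries A) _ PowerSeries.X),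
      fun a => by rw [coe_eval₂RingHom, eval₂_C], by rw [coe_eval₂RingHom, eval₂_X]⟩
  have hφ : ∀ p : A[X], φ (p.map (algebraMap A (Localization M))) =
      algebraMap (PowerSeries A) _ (p : PowerSeries A) := by
    have h1 : φ.comp (Polynomial.mapRingHom (algebraMap A (Localization M))) =
        (algebraMap (PowerSeries A) (Localization (M.map (PowerSeries.C (R := A))))).comp
          Polynomial.coeToPowerSeries.ringHom := by
      refine Polynomial.ringHom_ext (fun c => ?_) ?_
      · show φ ((C c : A[X]).map _) = algebraMap (PowerSeries A) _ ((C c : A[X]) : PowerSeries A)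
        rw [Polynomial.map_C, hφC, hφ₀, Polynomial.coe_C]
      · show φ ((X : A[X]).map _) = algebraMap (PowerSeries A) _ ((X : A[X]) : PowerSeries A)
        rw [Polynomial.map_X, hφX, Polynomial.coe_X]
    intro p
    exact congrArg (fun ψ : A[X] →+* _ => ψ p) h1
  -- denominators
  have hdenA : ∀ a : (Localization M)[X], ∃ (m : A) (_ : m ∈ M) (p : A[X]),
      C (algebraMap A (Localization M) m) * a = p.map (algebraMap A (Localization M)) := by
    intro a
    obtain ⟨m, hm, hb⟩ := IsLocalization.integerNormalization_spec M a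
    refine ⟨m, hm, IsLocalization.integerNormalization M a, ?_⟩
    rw [hb]
    show _ = (m : A) • a
    rw [Algebra.smul_def]
    rfl
  have hdenB : ∀ β : Localization (M.map (PowerSeries.C (R := A))),
      ∃ (m : A) (_ : m ∈ M) (g : PowerSeries A),
      algebraMap (PowerSeries A) _ (PowerSeries.C m) * β = algebraMap (PowerSeries A) _ g := by
    intro β
    obtain ⟨⟨g, ⟨_, m, hm, rfl⟩⟩, hg⟩ :=
      IsLocalization.surj (M.map (PowerSeries.C (R := A))) β
    refine ⟨m, hm, g, ?_⟩
    rw [mul_comm]
    exact hg
  have hCunit : ∀ m ∈ M, IsUnit (C (algebraMap A (Localization M) m) : (Localization M)[X]) :=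
    fun m hm => (IsLocalization.map_units (Localization M) (⟨m, hm⟩ : M)).map C
  refine ⟨φ, ?_, fun a => by rw [hφC, hφ₀], hφX, fun G hG hG2 => ?_⟩
  · rw [injective_iff_map_eq_zero]
    intro a ha
    obtain ⟨m, hm, p, hp⟩ := hdenA a
    have h1 : φ (p.map (algebraMap A (Localization M))) = 0 := by
      rw [← hp, map_mul, ha, mul_zero]
    rw [hφ] at h1
    have h2 : (p : PowerSeries A) = 0 := hinjR (by rw [h1, map_zero])
    have h3 : p = 0 := Polynomial.coe_injective A (by rw [h2, Polynomial.coe_zero])
    rw [h3, Polynomial.map_zero] at hp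
    exact ((hCunit m hm).mul_right_eq_zero).1 hp
  · have hmap : PowerSeries.map (residue A) (G : PowerSeries A) ≠ 0 := by
      rw [← Polynomial.polynomial_map_coe, hG2]
      intro h
      rw [Polynomial.coe_pow, Polynomial.coe_X] at h
      exact pow_ne_zero _ PowerSeries.X_ne_zero h
    have HF : (G : PowerSeries A).IsWeierstrassFactorization G 1 := by
      refine ⟨⟨⟨fun {i} hi => ?_⟩, hG⟩, isUnit_one, by rw [mul_one]⟩
      have h1 : (G.map (residue A)).coeff i = 0 := by
        rw [hG2, coeff_X_pow, if_neg hi.ne]
      rw [coeff_map] at h1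
      exact (residue_eq_zero_iff _).1 h1
    constructor
    · intro β
      obtain ⟨m, hm, g, hg⟩ := hdenB β
      obtain ⟨q, t, hqt⟩ := PowerSeries.exists_isWeierstrassDivision (f := g) hmap
      obtain ⟨v, hv⟩ := hCunit m hm
      obtain ⟨v', hv'⟩ : ∃ v' : (Localization M)[X],
          v' * C (algebraMap A (Localization M) m) = 1 :=
        ⟨(↑v⁻¹ : (Localization M)[X]), by rw [← hv, Units.inv_mul]⟩
      refine ⟨v' * t.map (algebraMap A (Localization M)),
        φ v' * algebraMap (PowerSeries A) _ q, ?_⟩
      have h2 : β = φ v' * (algebraMap (PowerSeries A) _ (PowerSeries.C m) * β) := by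
        rw [← hφ₀ m, ← hφC, ← mul_assoc, ← map_mul, hv', map_one, one_mul]
      have h3 := hqt.eq_mul_add
      rw [h2, hg, h3, map_mul φ, hφ, hφ, map_add, map_mul]
      ring
    · intro a c hac
      obtain ⟨n, hn, p, hp⟩ := hdenA a
      obtain ⟨m, hm, g, hg⟩ := hdenB c
      have h3 : algebraMap (PowerSeries A) (Localization (M.map (PowerSeries.C (R := A))))
          ((C m * p : A[X]) : PowerSeries A) =
          algebraMap (PowerSeries A) _ ((G : PowerSeries A) * (PowerSeries.C n * g)) := by
        rw [Polynomial.coe_mul, Polynomial.coe_C, map_mul, ← hφ p, ← hp, map_mul φ, hφC, hφ₀,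
          hac, map_mul, map_mul, ← hg, hφ]
        ring
      obtain ⟨b', hb'⟩ := dvd_of_dvd_coe HF hmap _ _ (hinjR h3)
      have h4 := congrArg (Polynomial.map (algebraMap A (Localization M))) hb'
      rw [Polynomial.map_mul, Polynomial.map_mul, Polynomial.map_C, ← hp] at h4
      obtain ⟨v, hv⟩ := (hCunit m hm).mul (hCunit n hn)
      refine ⟨(↑v⁻¹ : (Localization M)[X]) * b'.map (algebraMap A (Localization M)), ?_⟩
      have h5 : (v : (Localization M)[X]) * a = G.map (algebraMap A (Localization M)) *
          b'.map (algebraMap A (Localization M)) := by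
        rw [hv, mul_assoc]; exact h4
      calc a = (↑v⁻¹ : (Localization M)[X]) * (v * a) := by rw [Units.inv_mul_cancel_left]
        _ = _ := by rw [h5]; ring

end Pool.Agent.QU54.BH
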