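import Mathlib
import Pool.Agent.Lib.QU54.NodeB
import Pool.Agent.Lib.QU54.NodeC
import Pool.Agent.Lib.QU54.NodeD
import Pool.Agent.Lib.QU54.NodeE

/-!
# The node over the generic point of the special fibre
-/

set_option autoImplicit false

namespace Pool.Agent.QU54.BH

universe u

open Polynomial Pool.Agent.QU53 IsLocalRing

theorem HB_unit_mul {E : Type u} [CommRing E] {P : Type u} [AddCommGroup P] [Module E P] {k : ℕ}
    {u h : E} (hu : IsUnit u) (H : HB E P k (u * h)) : HB E P k h := by
  obtain ⟨b, hb, hs⟩ := H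
  obtain ⟨v, hv⟩ := hu.exists_left_inv
  refine ⟨b, hb, fun q => ?_⟩
  have h1 : h • q = v • ((u * h) • q) := by
    rw [smul_smul, ← mul_assoc, hv, one_mul]
  rw [h1]
  exact Submodule.smul_mem _ _ (hs q)

theorem eval_one_unit {A : Type u} [CommRing A] [IsLocalRing A] (F : A[X])
    (hF : F.map (residue A) = X ^ F.natDegree) : IsUnit (F.eval 1) := by
  by_contra hne
  have h4 : residue A (F.eval 1) = 0 := by
    rw [residue_eq_zero_iff]; exact hne
  have h5 : (F.map (residue A)).eval 1 = 0 := by
    rw [← map_one (residue A), Polynomial.eval_map_apply]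
    exact h4
  rw [hF, Polynomial.eval_pow, Polynomial.eval_X, one_pow] at h5
  exact one_ne_zero h5

/-- ROW C8. -/
theorem node_local {A : Type u} [CommRing A] [IsDomain A] [IsNoetherianRing A] [IsLocalRing A]
    [IsAdicComplete (maximalIdeal A) A] (𝔭 : Ideal A)
    [𝔭.IsPrime] (y γ b : A) (hm : 𝔭 = Ideal.span {y, γ, b})
    (p1 : (Ideal.span {γ}).IsPrime) (p2 : (Ideal.span {γ, y}).IsPrime)
    (hγ0 : γ ≠ 0) (hy0 : y ≠ 0) (hy : y ∉ Ideal.span {γ}) (hb : b ∉ Ideal.span {γ, y})
    {E : Type u} [CommRing E] [IsDomain E]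
    [Algebra (Localization.Away (PowerSeries.C y : PowerSeries A)) E] (c : E)
    (hE : Pres (Localization.Away (PowerSeries.C y : PowerSeries A)) E
      (algebraMap (PowerSeries A) _ PowerSeries.X) (algebraMap (PowerSeries A) _ (PowerSeries.C γ)) c)
    (P : Type u) [AddCommGroup P] [Module E P] [Module.Finite E P] [Module.Projective E P]
    (k : ℕ) (F₀ : (PowerSeries A)[X]) (hF₀ : F₀.Monic)
    (hF₁ : F₀.map (residue (PowerSeries A)) = X ^ F₀.natDegree)
    (hHB : HB E P k (aeval c (F₀.map (algebraMap (PowerSeries A)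
      (Localization.Away (PowerSeries.C y : PowerSeries A))))))
    (g : PowerSeries A) (hg : PowerSeries.map (residue A) g ≠ 0)
    (hHB2 : HB E P k (algebraMap (Localization.Away (PowerSeries.C y : PowerSeries A)) E
      (algebraMap (PowerSeries A) _ g))) :
    ∃ h ∉ 𝔭, HB E P k (algebraMap (Localization.Away (PowerSeries.C y : PowerSeries A)) E
      (algebraMap (PowerSeries A) _ (PowerSeries.C h))) := by
  classical
  let D := PowerSeries A
  let T := Localization.Away (PowerSeries.C y : D)
  let M := mon 𝔭 y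
  have hM0 : (0 : A) ∉ M := by
    intro h
    obtain ⟨s, hs, z, ⟨i, hi⟩, hsz⟩ := Submonoid.mem_sup.1 h
    have hi' : y ^ i = z := hi
    rcases mul_eq_zero.1 hsz with h1 | h1
    · exact hs (h1 ▸ 𝔭.zero_mem)
    · rw [← hi'] at h1
      exact pow_ne_zero i hy0 h1
  have hyD : (PowerSeries.C y : D) ≠ 0 := fun h =>
    hy0 (PowerSeries.C_injective (by rw [h, map_zero]))
  have hTd : IsDomain T := IsLocalization.isDomain_localization
    (powers_le_nonZeroDivisors_of_noZeroDivisors hyD)
  have hinjT : Function.Injective (algebraMap D T) := IsLocalization.injective _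
    (powers_le_nonZeroDivisors_of_noZeroDivisors hyD)
  -- the image of `M`
  let MD : Submonoid D := M.map (PowerSeries.C (R := A))
  have hMD0 : (0 : D) ∉ MD := by
    rintro ⟨m, hm, hm0⟩
    have : m = 0 := PowerSeries.C_injective (by rw [map_zero]; exact hm0)
    exact hM0 (this ▸ hm)
  let S : Submonoid T := MD.map (algebraMap D T)
  have hS0 : (0 : T) ∉ S := by
    rintro ⟨m, hm, hm0⟩
    have : m = 0 := hinjT (by rw [map_zero]; exact hm0)
    exact hMD0 (this ▸ hm)
  have hle : Submonoid.powers (PowerSeries.C y : D) ≤ MD := by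
    rw [Submonoid.powers_le]
    exact ⟨y, Submonoid.mem_sup_right (Submonoid.mem_powers y), rfl⟩
  -- `NT` as a localisation of `T`
  let : Algebra T (NT 𝔭 y) := IsLocalization.localizationAlgebraOfSubmonoidLe T (NT 𝔭 y) _ MD hle
  have hst : IsScalarTower D T (NT 𝔭 y) :=
    IsLocalization.localization_isScalarTower_of_submonoid_le T (NT 𝔭 y) _ MD hle
  have hloc : IsLocalization S (NT 𝔭 y) :=
    IsLocalization.isLocalization_of_submonoid_le T (NT 𝔭 y) _ MD hle
  let T1 := Localization S
  let e : T1 ≃ₐ[T] NT 𝔭 y := IsLocalization.algEquiv S T1 (NT 𝔭 y)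
  have hT1d : IsDomain T1 := IsLocalization.isDomain_localization
    (le_nonZeroDivisors_of_noZeroDivisors hS0)
  have hTn : IsNoetherianRing T := IsLocalization.isNoetherianRing
    (Submonoid.powers (PowerSeries.C y : D)) T inferInstance
  have hT1n : IsNoetherianRing T1 := IsLocalization.isNoetherianRing S T1 hTn
  let T0 := Localization M
  have hT0d : IsDomain T0 := IsLocalization.isDomain_localization
    (le_nonZeroDivisors_of_noZeroDivisors hM0)
  have hT0n : IsNoetherianRing T0 := IsLocalization.isNoetherianRing M T0 inferInstance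
  obtain ⟨φ, hφi, hφC, hφX, hφ⟩ := w_div M hM0
  obtain ⟨B, _, _, π, N, hπs, hπX, hπγ, hπk, hπu, hN⟩ := node_B 𝔭 y γ b hm p1 p2 hγ0 hy hb
  let φ' : T0[X] →+* T1 := (e.symm : NT 𝔭 y ≃ₐ[T] T1).toRingEquiv.toRingHom.comp φ
  have hφ' : ∀ f, φ' f = e.symm (φ f) := fun f => rfl
  let π' : T1 →+* B := π.comp (e : T1 ≃ₐ[T] NT 𝔭 y).toRingEquiv.toRingHom
  have hπ' : ∀ t, π' t = π (e t) := fun t => rfl
  let : Algebra T0[X] T1 := φ'.toAlgebra
  have hal : ∀ f : T0[X], algebraMap T0[X] T1 f = φ' f := fun f => rfl
  have heD : ∀ d : D, e.symm (algebraMap D (NT 𝔭 y) d) = algebraMap T T1 (algebraMap D T d) := by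
    intro d
    rw [IsScalarTower.algebraMap_apply D T (NT 𝔭 y), AlgEquiv.commutes]
  have heD' : ∀ d : D, e (algebraMap T T1 (algebraMap D T d)) = algebraMap D (NT 𝔭 y) d := by
    intro d
    rw [AlgEquiv.commutes, ← IsScalarTower.algebraMap_apply D T (NT 𝔭 y)]
  have haX : algebraMap T0[X] T1 X = algebraMap T T1 (algebraMap D T PowerSeries.X) := by
    rw [hal, hφ', hφX, heD]
  -- polynomials over `A`
  have hpoly : ∀ G : A[X], algebraMap T0[X] T1 (G.map (algebraMap A T0)) =
      algebraMap T T1 (algebraMap D T (G : D)) := by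
    intro G
    have h1 : (φ'.comp (Polynomial.mapRingHom (algebraMap A T0))) =
        ((algebraMap T T1).comp (algebraMap D T)).comp Polynomial.coeToPowerSeries.ringHom := by
      refine Polynomial.ringHom_ext (fun a => ?_) ?_
      · show φ' ((C a).map (algebraMap A T0)) = algebraMap T T1 (algebraMap D T ((C a : A[X]) : D))
        rw [Polynomial.map_C, hφ', hφC, heD, Polynomial.coe_C]
      · show φ' ((X : A[X]).map (algebraMap A T0)) =
          algebraMap T T1 (algebraMap D T ((X : A[X]) : D))
        rw [Polynomial.map_X, hφ', hφX, heD, Polynomial.coe_X]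
    exact congrArg (fun ψ : A[X] →+* T1 => ψ G) h1
  -- Weierstrass
  obtain ⟨G, u, HG⟩ := PowerSeries.exists_isWeierstrassFactorization hg
  have hGm : G.Monic := HG.isDistinguishedAt.monic
  have hGr : G.map (residue A) = X ^ G.natDegree := HG.isDistinguishedAt.map_eq_X_pow
  have hX0 : algebraMap D T PowerSeries.X ≠ 0 := by
    intro h
    exact PowerSeries.X_ne_zero (hinjT (by rw [h, map_zero]))
  have hinjE : Function.Injective (algebraMap T E) := hE.inj hX0
  -- the localised algebra and module
  have hE1 := pres_loc hE hX0 S hS0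
  let ME := Algebra.algebraMapSubmonoid E S
  let E1 := Localization ME
  have hME0 : (0 : E) ∉ ME := by
    rintro ⟨s, hs, hs0⟩
    have h1 : s = 0 := hinjE (by rw [map_zero]; exact hs0)
    exact hS0 (h1 ▸ hs)
  have hE1d : IsDomain E1 := IsLocalization.isDomain_localization
    (le_nonZeroDivisors_of_noZeroDivisors hME0)
  have hfin : Module.Finite E1 (LocalizedModule ME P) :=
    Module.Finite.of_isLocalizedModule ME (Rₚ := E1) (LocalizedModule.mkLinearMap ME P)
  have hproj : Module.Projective E1 (LocalizedModule ME P) :=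
    Module.projective_of_isLocalizedModule (Rₛ := E1) ME (LocalizedModule.mkLinearMap ME P)
  have hTE : ∀ t : T, algebraMap T1 E1 (algebraMap T T1 t) = algebraMap E E1 (algebraMap T E t) := by
    intro t
    rw [← IsScalarTower.algebraMap_apply, ← IsScalarTower.algebraMap_apply]
  have hev : ∀ f : T[X], aeval (algebraMap E E1 c) (f.map (algebraMap T T1)) =
      algebraMap E E1 (aeval c f) := by
    intro f
    rw [aeval_map_algebraMap, aeval_algebraMap_apply]
  have hHB1 : HB E1 (LocalizedModule ME P) k (aeval (algebraMap E E1 c)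
      ((F₀.map (algebraMap D T)).map (algebraMap T T1))) := by
    rw [hev]
    exact HB_loc ME hME0 P k _ hHB
  have hGP : HB E P k (algebraMap T E (algebraMap D T (G : D))) := by
    have h1 : algebraMap T E (algebraMap D T g) = algebraMap T E (algebraMap D T u) *
        algebraMap T E (algebraMap D T (G : D)) := by
      rw [← map_mul, ← map_mul, HG.eq_mul, mul_comm]
    rw [h1] at hHB2
    exact HB_unit_mul ((HG.isUnit.map _).map _) hHB2
  have hHB3 : HB E1 (LocalizedModule ME P) k (algebraMap T1 E1
      (algebraMap T0[X] T1 (G.map (algebraMap A T0)))) := by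
    rw [hpoly, hTE]
    exact HB_loc ME hME0 P k _ hGP
  have hXM : ∀ m : ℕ, (X ^ m * G).map (residue A) = X ^ (X ^ m * G : A[X]).natDegree := by
    intro m
    rw [Polynomial.map_mul, Polynomial.map_pow, Polynomial.map_X, hGr,
      (monic_X_pow m).natDegree_mul hGm, natDegree_X_pow, pow_add]
  have hXMm : ∀ m : ℕ, (X ^ m * G : A[X]).map (algebraMap A T0) =
      X ^ m * G.map (algebraMap A T0) := by
    intro m
    rw [Polynomial.map_mul, Polynomial.map_pow, Polynomial.map_X]
  have hfree : Module.Free E1 (LocalizedModule ME P) := by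
    refine node_core (T0 := T0) (T1 := T1) (E := E1) (B := B) ?_
      (algebraMap T T1 (algebraMap D T (PowerSeries.C γ))) (algebraMap E E1 c) ?_ π' ?_ ?_ ?_ ?_ ?_
      N hN (LocalizedModule ME P) k ((F₀.map (algebraMap D T)).map (algebraMap T T1))
      ((hF₀.map _).map _) 1 ?_ hHB1 (G.map (algebraMap A T0)) (hGm.map _) ?_ hHB3 ?_ ?_
    · exact e.symm.injective.comp hφi
    · rw [haX]
      exact hE1
    · exact hπs.comp e.surjective
    · rw [haX, hπ', heD', hπX]
    · rw [hπ', heD', hπγ]
    · intro t ht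
      have h1 := hπk (e t) ht
      rw [haX]
      obtain ⟨p, q, hpq⟩ := Ideal.mem_span_pair.1 h1
      refine Ideal.mem_span_pair.2 ⟨e.symm p, e.symm q, ?_⟩
      rw [← heD, ← heD, ← map_mul, ← map_mul, ← map_add, hpq, e.symm_apply_apply]
    · intro β hβ
      obtain ⟨t, ht, rfl⟩ := hπu β hβ
      exact ⟨e.symm t, ht.map e.symm, by rw [hπ', e.apply_symm_apply]⟩
    · have h1 : IsUnit (F₀.eval 1) := eval_one_unit F₀ hF₁
      have h2 : (((F₀.map (algebraMap D T)).map (algebraMap T T1)).map π').eval 1 =
          π' (algebraMap T T1 (algebraMap D T (F₀.eval 1))) := by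
        rw [← map_one π', ← map_one (algebraMap T T1), ← map_one (algebraMap D T),
          Polynomial.eval_map_apply, Polynomial.eval_map_apply, Polynomial.eval_map_apply]
      rw [h2]
      exact ((h1.map _).map _).map _
    · have h1 : IsUnit (G.eval 1) := eval_one_unit G hGr
      have h2 : (G.map (algebraMap A T0)).eval 1 = algebraMap A T0 (G.eval 1) := by
        rw [← map_one (algebraMap A T0), Polynomial.eval_map_apply]
      rw [h2]
      exact h1.map _
    · intro m t
      obtain ⟨f, t', ht⟩ := (hφ (X ^ m * G) ((monic_X_pow m).mul hGm) (hXM m)).1 (e t)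
      refine ⟨f, e.symm t', ?_⟩
      rw [hXMm] at ht
      rw [hal, hal, hφ', hφ', ← map_mul, ← map_add, ← ht, e.symm_apply_apply]
    · intro m f t' ht
      rw [← hXMm]
      refine (hφ (X ^ m * G) ((monic_X_pow m).mul hGm) (hXM m)).2 f (e t') ?_
      rw [hXMm]
      rw [hal, hal, hφ', hφ'] at ht
      have h1 := congrArg e ht
      rw [e.apply_symm_apply, map_mul, e.apply_symm_apply] at h1
      exact h1
  have hF0E : aeval c (F₀.map (algebraMap D T)) ≠ 0 := by
    intro h
    obtain ⟨w, hw⟩ := hE.ker _ h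
    -- reduce modulo `X` and `γ`
    have h1 := congrArg (eval 1) (congrArg (Polynomial.map (algebraMap T T1)) hw)
    have h2 := congrArg π' h1
    have h3 : (((F₀.map (algebraMap D T)).map (algebraMap T T1)).eval 1) =
        (algebraMap T T1 (algebraMap D T (F₀.eval 1))) := by
      rw [← map_one (algebraMap T T1), ← map_one (algebraMap D T),
        Polynomial.eval_map_apply, Polynomial.eval_map_apply]
    rw [h3, Polynomial.map_mul, Polynomial.map_sub, Polynomial.map_mul, Polynomial.map_C,
      Polynomial.map_C, Polynomial.map_X, eval_mul, eval_sub, eval_mul, eval_C, eval_C, eval_X,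
      mul_one, map_mul, map_sub, hπ' (algebraMap T T1 (algebraMap D T PowerSeries.X)),
      hπ' (algebraMap T T1 (algebraMap D T (PowerSeries.C γ))), heD', heD', hπX, hπγ, sub_zero,
      zero_mul] at h2
    have h4 : IsUnit (π' (algebraMap T T1 (algebraMap D T (F₀.eval 1)))) :=
      (((eval_one_unit F₀ hF₁).map _).map _).map _
    rw [h2] at h4
    exact not_isUnit_zero h4
  obtain ⟨_, ⟨_, ⟨m, hm', rfl⟩, rfl⟩, hHBs⟩ :=
    HB_of_loc_free hinjE S hS0 P k _ hF0E hHB hfree
  obtain ⟨s, hs, z, ⟨i, hi⟩, hsz⟩ := Submonoid.mem_sup.1 hm'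
  refine ⟨s, hs, ?_⟩
  have hi' : y ^ i = z := hi
  have h5 : algebraMap T E (algebraMap D T (PowerSeries.C m)) =
      algebraMap T E (algebraMap D T (PowerSeries.C y)) ^ i *
        algebraMap T E (algebraMap D T (PowerSeries.C s)) := by
    rw [← hsz, ← hi', map_mul, map_mul, map_mul, map_pow, map_pow, map_pow, mul_comm]
  have hHBs' : HB E P k (algebraMap T E (algebraMap D T (PowerSeries.C m))) := hHBs
  rw [h5] at hHBs'
  exact HB_unit_mul (((IsLocalization.Away.algebraMap_isUnit (PowerSeries.C y : D)).map _).pow i)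
    hHBs'

end Pool.Agent.QU54.BH
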