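import Mathlib
import Pool.Agent.Lib.QU54.NodeH
import Pool.Agent.Lib.QU54.ChainL

/-!
# The chain over the generic point of the special fibre
-/

set_option autoImplicit false

namespace Pool.Agent.QU54.BH

universe u

open Polynomial Pool.Agent.QU53 IsLocalRing

theorem Ctr.equiv {R R' : Type u} [CommRing R] [CommRing R'] (e : R ≃+* R') {α γ : R}
    (h : Ctr α γ) : Ctr (e α) (e γ) := by
  obtain ⟨B, _, _, π, N, h1, h2, h3, h4, h5, h6, h7⟩ := h
  refine ⟨B, inferInstance, inferInstance, π.comp (e.symm : R' →+* R), N,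
    h1.comp e.symm.surjective, ?_, ?_, ?_, ?_, h6, h7⟩
  · show π (e.symm (e α)) = 0
    rw [e.symm_apply_apply, h2]
  · show π (e.symm (e γ)) = 0
    rw [e.symm_apply_apply, h3]
  · intro t ht
    obtain ⟨p, q, hpq⟩ := Ideal.mem_span_pair.1 (h4 (e.symm t) ht)
    refine Ideal.mem_span_pair.2 ⟨e p, e q, ?_⟩
    rw [← map_mul, ← map_mul, ← map_add, hpq, e.apply_symm_apply]
  · intro β hβ
    obtain ⟨t, ht, rfl⟩ := h5 β hβ
    refine ⟨e t, ht.map e, ?_⟩
    show π (e.symm (e t)) = π t
    rw [e.symm_apply_apply]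

/-- The images of the distinguished polynomials. -/
def distW {A : Type u} [CommRing A] [IsLocalRing A] (M : Submonoid A) :
    Submonoid (Localization M)[X] where
  carrier := {F | ∃ G : A[X], G.Monic ∧ G.map (residue A) = X ^ G.natDegree ∧
    F = G.map (algebraMap A (Localization M))}
  one_mem' := ⟨1, monic_one, by simp, by simp⟩
  mul_mem' := by
    rintro _ _ ⟨G, hG, hG', rfl⟩ ⟨H, hH, hH', rfl⟩
    refine ⟨G * H, hG.mul hH, ?_, by rw [Polynomial.map_mul]⟩
    rw [Polynomial.map_mul, hG', hH', ← pow_add, hG.natDegree_mul hH]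

/-- K7. -/
theorem chain_local {A : Type u} [CommRing A] [IsDomain A] [IsNoetherianRing A] [IsLocalRing A]
    [IsAdicComplete (maximalIdeal A) A] (𝔭 : Ideal A)
    [𝔭.IsPrime] (y : A) (hy0 : y ≠ 0) (γ : PowerSeries A)
    (hγ : Prime (algebraMap (PowerSeries A) (NT 𝔭 y) γ))
    (l : List A[X]) (hl : ∀ a ∈ l, a.Monic ∧ a.map (residue A) = X ^ a.natDegree ∧
      ¬ algebraMap (PowerSeries A) (NT 𝔭 y) γ ∣
        algebraMap (PowerSeries A) (NT 𝔭 y) (a : PowerSeries A) ∧
      Ctr (algebraMap (PowerSeries A) (NT 𝔭 y) (a : PowerSeries A))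
        (algebraMap (PowerSeries A) (NT 𝔭 y) γ))
    (hprod : Polynomial.coeToPowerSeries.ringHom (l.prod) ≠ 0)
    {E : Type u} [CommRing E] [IsDomain E]
    [Algebra (Localization.Away (PowerSeries.C y : PowerSeries A)) E] (c : E)
    (hE : Pres (Localization.Away (PowerSeries.C y : PowerSeries A)) E
      (algebraMap (PowerSeries A) _ (l.prod : A[X])) (algebraMap (PowerSeries A) _ γ) c)
    (P : Type u) [AddCommGroup P] [Module E P] [Module.Finite E P] [Module.Projective E P]
    (k : ℕ) (F₀ : (PowerSeries A)[X]) (hF₀ : F₀.Monic)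
    (hF0E : aeval c (F₀.map (algebraMap (PowerSeries A)
      (Localization.Away (PowerSeries.C y : PowerSeries A)))) ≠ 0)
    (hHB : HB E P k (aeval c (F₀.map (algebraMap (PowerSeries A)
      (Localization.Away (PowerSeries.C y : PowerSeries A))))))
    (g : PowerSeries A) (hg : PowerSeries.map (residue A) g ≠ 0)
    (hHB2 : HB E P k (algebraMap (Localization.Away (PowerSeries.C y : PowerSeries A)) E
      (algebraMap (PowerSeries A) _ g))) :
    ∃ h ∉ 𝔭, HB E P k (algebraMap (Localization.Away (PowerSeries.C y : PowerSeries A)) E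
      (algebraMap (PowerSeries A) _ (PowerSeries.C h))) := by
  classical
  let D := PowerSeries A
  let T := Localization.Away (PowerSeries.C y : D)
  let M := mon 𝔭 y
  have hM0 : (0 : A) ∉ M := by
    intro h
    obtain ⟨s, hs, z, ⟨i, hi⟩, hsz⟩ := Submonoid.mem_sup.1 h
    have hi' : y ^ i = z := hi
    rcases mul_eq_zero.1 hsz with h1 | h1
    · exact hs (h1 ▸ 𝔭.zero_mem)
    · rw [← hi'] at h1
      exact pow_ne_zero i hy0 h1
  have hyD : (PowerSeries.C y : D) ≠ 0 := fun h =>
    hy0 (PowerSeries.C_injective (by rw [h, map_zero]))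
  have hTd : IsDomain T := IsLocalization.isDomain_localization
    (powers_le_nonZeroDivisors_of_noZeroDivisors hyD)
  have hinjT : Function.Injective (algebraMap D T) := IsLocalization.injective _
    (powers_le_nonZeroDivisors_of_noZeroDivisors hyD)
  -- the image of `M`
  let MD : Submonoid D := M.map (PowerSeries.C (R := A))
  have hMD0 : (0 : D) ∉ MD := by
    rintro ⟨m, hm, hm0⟩
    have : m = 0 := PowerSeries.C_injective (by rw [map_zero]; exact hm0)
    exact hM0 (this ▸ hm)
  let S : Submonoid T := MD.map (algebraMap D T)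
  have hS0 : (0 : T) ∉ S := by
    rintro ⟨m, hm, hm0⟩
    have : m = 0 := hinjT (by rw [map_zero]; exact hm0)
    exact hMD0 (this ▸ hm)
  have hle : Submonoid.powers (PowerSeries.C y : D) ≤ MD := by
    rw [Submonoid.powers_le]
    exact ⟨y, Submonoid.mem_sup_right (Submonoid.mem_powers y), rfl⟩
  -- `NT` as a localisation of `T`
  let : Algebra T (NT 𝔭 y) := IsLocalization.localizationAlgebraOfSubmonoidLe T (NT 𝔭 y) _ MD hle
  have hst : IsScalarTower D T (NT 𝔭 y) :=
    IsLocalization.localization_isScalarTower_of_submonoid_le T (NT 𝔭 y) _ MD hle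
  have hloc : IsLocalization S (NT 𝔭 y) :=
    IsLocalization.isLocalization_of_submonoid_le T (NT 𝔭 y) _ MD hle
  let T1 := Localization S
  let e : T1 ≃ₐ[T] NT 𝔭 y := IsLocalization.algEquiv S T1 (NT 𝔭 y)
  have hT1d : IsDomain T1 := IsLocalization.isDomain_localization
    (le_nonZeroDivisors_of_noZeroDivisors hS0)
  have hTn : IsNoetherianRing T := IsLocalization.isNoetherianRing
    (Submonoid.powers (PowerSeries.C y : D)) T inferInstance
  have hT1n : IsNoetherianRing T1 := IsLocalization.isNoetherianRing S T1 hTn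
  let T0 := Localization M
  have hT0d : IsDomain T0 := IsLocalization.isDomain_localization
    (le_nonZeroDivisors_of_noZeroDivisors hM0)
  have hT0n : IsNoetherianRing T0 := IsLocalization.isNoetherianRing M T0 inferInstance
  obtain ⟨φ, hφi, hφC, hφX, hφ⟩ := w_div M hM0
  let φ' : T0[X] →+* T1 := (e.symm : NT 𝔭 y ≃ₐ[T] T1).toRingEquiv.toRingHom.comp φ
  have hφ' : ∀ f, φ' f = e.symm (φ f) := fun f => rfl
  let : Algebra T0[X] T1 := φ'.toAlgebra
  have hal : ∀ f : T0[X], algebraMap T0[X] T1 f = φ' f := fun f => rfl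
  have heD : ∀ d : D, e.symm (algebraMap D (NT 𝔭 y) d) = algebraMap T T1 (algebraMap D T d) := by
    intro d
    rw [IsScalarTower.algebraMap_apply D T (NT 𝔭 y), AlgEquiv.commutes]
  have heD' : ∀ d : D, e (algebraMap T T1 (algebraMap D T d)) = algebraMap D (NT 𝔭 y) d := by
    intro d
    rw [AlgEquiv.commutes, ← IsScalarTower.algebraMap_apply D T (NT 𝔭 y)]
  have haX : algebraMap T0[X] T1 X = algebraMap T T1 (algebraMap D T PowerSeries.X) := by
    rw [hal, hφ', hφX, heD]
  -- polynomials over `A`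
  have hpoly : ∀ G : A[X], algebraMap T0[X] T1 (G.map (algebraMap A T0)) =
      algebraMap T T1 (algebraMap D T (G : D)) := by
    intro G
    have h1 : (φ'.comp (Polynomial.mapRingHom (algebraMap A T0))) =
        ((algebraMap T T1).comp (algebraMap D T)).comp Polynomial.coeToPowerSeries.ringHom := by
      refine Polynomial.ringHom_ext (fun a => ?_) ?_
      · show φ' ((C a).map (algebraMap A T0)) = algebraMap T T1 (algebraMap D T ((C a : A[X]) : D))
        rw [Polynomial.map_C, hφ', hφC, heD, Polynomial.coe_C]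
      · show φ' ((X : A[X]).map (algebraMap A T0)) =
          algebraMap T T1 (algebraMap D T ((X : A[X]) : D))
        rw [Polynomial.map_X, hφ', hφX, heD, Polynomial.coe_X]
    exact congrArg (fun ψ : A[X] →+* T1 => ψ G) h1
  -- Weierstrass
  obtain ⟨G, u, HG⟩ := PowerSeries.exists_isWeierstrassFactorization hg
  have hGm : G.Monic := HG.isDistinguishedAt.monic
  have hGr : G.map (residue A) = X ^ G.natDegree := HG.isDistinguishedAt.map_eq_X_pow
  have hX0 : algebraMap D T (l.prod : A[X]) ≠ 0 := by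
    intro h
    exact hprod (hinjT (by rw [map_zero]; exact h))
  have hinjE : Function.Injective (algebraMap T E) := hE.inj hX0
  -- the localised algebra and module
  have hE1 := pres_loc hE hX0 S hS0
  let ME := Algebra.algebraMapSubmonoid E S
  let E1 := Localization ME
  have hME0 : (0 : E) ∉ ME := by
    rintro ⟨s, hs, hs0⟩
    have h1 : s = 0 := hinjE (by rw [map_zero]; exact hs0)
    exact hS0 (h1 ▸ hs)
  have hE1d : IsDomain E1 := IsLocalization.isDomain_localization
    (le_nonZeroDivisors_of_noZeroDivisors hME0)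
  have hfin : Module.Finite E1 (LocalizedModule ME P) :=
    Module.Finite.of_isLocalizedModule ME (Rₚ := E1) (LocalizedModule.mkLinearMap ME P)
  have hproj : Module.Projective E1 (LocalizedModule ME P) :=
    Module.projective_of_isLocalizedModule (Rₛ := E1) ME (LocalizedModule.mkLinearMap ME P)
  have hTE : ∀ t : T, algebraMap T1 E1 (algebraMap T T1 t) = algebraMap E E1 (algebraMap T E t) := by
    intro t
    rw [← IsScalarTower.algebraMap_apply, ← IsScalarTower.algebraMap_apply]
  have hev : ∀ f : T[X], aeval (algebraMap E E1 c) (f.map (algebraMap T T1)) =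
      algebraMap E E1 (aeval c f) := by
    intro f
    rw [aeval_map_algebraMap, aeval_algebraMap_apply]
  have hHB1 : HB E1 (LocalizedModule ME P) k (aeval (algebraMap E E1 c)
      ((F₀.map (algebraMap D T)).map (algebraMap T T1))) := by
    rw [hev]
    exact HB_loc ME hME0 P k _ hHB
  have hGP : HB E P k (algebraMap T E (algebraMap D T (G : D))) := by
    have h1 : algebraMap T E (algebraMap D T g) = algebraMap T E (algebraMap D T u) *
        algebraMap T E (algebraMap D T (G : D)) := by
      rw [← map_mul, ← map_mul, HG.eq_mul, mul_comm]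
    rw [h1] at hHB2
    exact HB_unit_mul ((HG.isUnit.map _).map _) hHB2
  have hHB3 : HB E1 (LocalizedModule ME P) k (algebraMap T1 E1
      (algebraMap T0[X] T1 (G.map (algebraMap A T0)))) := by
    rw [hpoly, hTE]
    exact HB_loc ME hME0 P k _ hGP
  have hγe : algebraMap T T1 (algebraMap D T γ) = e.symm (algebraMap D (NT 𝔭 y) γ) := (heD γ).symm
  have hae : ∀ a : A[X], algebraMap T0[X] T1 (a.map (algebraMap A T0)) =
      e.symm (algebraMap D (NT 𝔭 y) (a : D)) := fun a => by rw [hpoly, heD]
  have hlp : ((l.map (fun a : A[X] => a.map (algebraMap A T0))).map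
      (algebraMap T0[X] T1)).prod = algebraMap T T1 (algebraMap D T (l.prod : A[X])) := by
    rw [← hpoly, List.prod_hom, ← Polynomial.coe_mapRingHom, List.prod_hom]
  have hfree : Module.Free E1 (LocalizedModule ME P) := by
    refine chain (T0 := T0) (T1 := T1) ?_ (algebraMap T T1 (algebraMap D T γ)) ?_ (distW M) ?_
      (l.map (fun a : A[X] => a.map (algebraMap A T0))) ?_ (algebraMap E E1 c) ?_
      (LocalizedModule ME P) k ((F₀.map (algebraMap D T)).map (algebraMap T T1))
      ((hF₀.map _).map _) hHB1 (G.map (algebraMap A T0)) ⟨G, hGm, hGr, rfl⟩ hHB3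
    · exact e.symm.injective.comp hφi
    · rw [hγe]
      exact (MulEquiv.prime_iff (e.symm : NT 𝔭 y ≃ₐ[T] T1).toMulEquiv).2 hγ
    · rintro _ ⟨F, hF, hF', rfl⟩
      refine ⟨hF.map _, ?_, ?_, ?_⟩
      · have h1 : IsUnit (F.eval 1) := eval_one_unit F hF'
        have h2 : (F.map (algebraMap A T0)).eval 1 = algebraMap A T0 (F.eval 1) := by
          rw [← map_one (algebraMap A T0), Polynomial.eval_map_apply]
        rw [h2]
        exact h1.map _
      · intro t
        obtain ⟨f, t', ht⟩ := (hφ F hF hF').1 (e t)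
        refine ⟨f, e.symm t', ?_⟩
        rw [hal, hal, hφ', hφ', ← map_mul, ← map_add, ← ht, e.symm_apply_apply]
      · intro f t' ht
        refine (hφ F hF hF').2 f (e t') ?_
        rw [hal, hal, hφ', hφ'] at ht
        have h1 := congrArg e ht
        rw [e.apply_symm_apply, map_mul, e.apply_symm_apply] at h1
        exact h1
    · intro a ha
      obtain ⟨a, ha', rfl⟩ := List.mem_map.1 ha
      obtain ⟨h1, h2, h3, h4⟩ := hl a ha'
      refine ⟨⟨a, h1, h2, rfl⟩, ?_, ?_⟩
      · rw [hγe, hae]
        exact fun h => h3 ((map_dvd_iff (e.symm : NT 𝔭 y ≃ₐ[T] T1)).1 h)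
      · rw [hγe, hae]
        exact h4.equiv (e.symm : NT 𝔭 y ≃ₐ[T] T1).toRingEquiv
    · rw [hlp]
      exact hE1
  obtain ⟨_, ⟨_, ⟨m, hm', rfl⟩, rfl⟩, hHBs⟩ :=
    HB_of_loc_free hinjE S hS0 P k _ hF0E hHB hfree
  obtain ⟨s, hs, z, ⟨i, hi⟩, hsz⟩ := Submonoid.mem_sup.1 hm'
  refine ⟨s, hs, ?_⟩
  have hi' : y ^ i = z := hi
  have h5 : algebraMap T E (algebraMap D T (PowerSeries.C m)) =
      algebraMap T E (algebraMap D T (PowerSeries.C y)) ^ i *
        algebraMap T E (algebraMap D T (PowerSeries.C s)) := by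
    rw [← hsz, ← hi', map_mul, map_mul, map_mul, map_pow, map_pow, map_pow, mul_comm]
  have hHBs' : HB E P k (algebraMap T E (algebraMap D T (PowerSeries.C m))) := hHBs
  rw [h5] at hHBs'
  exact HB_unit_mul (((IsLocalization.Away.algebraMap_isUnit (PowerSeries.C y : D)).map _).pow i)
    hHBs'

end Pool.Agent.QU54.BH
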