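import Mathlib
import Pool.Agent.Lib.QU54.NodeH

/-!
# The local step, up to a change of coordinates
-/

set_option autoImplicit false

namespace Pool.Agent.QU54.BH

universe u

open Polynomial Pool.Agent.QU53 IsLocalRing

/-- A distinguished polynomial stays so under an isomorphism. -/
theorem dist_map {R R' : Type u} [CommRing R] [CommRing R'] [IsLocalRing R] [IsLocalRing R']
    (ψ : R ≃+* R') (F : R[X]) (hF : F.Monic) (hF1 : F.map (residue R) = X ^ F.natDegree) :
    (F.map (ψ : R →+* R')).map (residue R') = X ^ (F.map (ψ : R →+* R')).natDegree := by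
  rw [hF.natDegree_map]
  ext i
  have h1 := congrArg (fun p => p.coeff i) hF1
  simp only [coeff_map, coeff_X_pow] at h1 ⊢
  by_cases hi : i = F.natDegree
  · subst hi
    rw [if_pos rfl, hF.coeff_natDegree, map_one, map_one]
  · rw [if_neg hi] at h1 ⊢
    rw [residue_eq_zero_iff, mem_maximalIdeal, mem_nonunits_iff] at h1 ⊢
    intro h
    apply h1
    have h2 := h.map (ψ.symm : R' →+* R)
    have h3 : (ψ.symm : R' →+* R) ((ψ : R →+* R') (F.coeff i)) = F.coeff i :=
      ψ.symm_apply_apply _
    rwa [h3] at h2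

theorem node_local' {A D : Type u} [CommRing A] [IsDomain A] [IsNoetherianRing A] [IsLocalRing A]
    [IsAdicComplete (maximalIdeal A) A] [CommRing D] [IsDomain D] [IsLocalRing D] (𝔭 : Ideal A)
    [𝔭.IsPrime] (y γ b : A) (hm : 𝔭 = Ideal.span {y, γ, b})
    (p1 : (Ideal.span {γ}).IsPrime) (p2 : (Ideal.span {γ, y}).IsPrime)
    (hγ0 : γ ≠ 0) (hy0 : y ≠ 0) (hy : y ∉ Ideal.span {γ}) (hb : b ∉ Ideal.span {γ, y})
    (ψ : D ≃+* PowerSeries A) (yD αD γD : D) (hψy : ψ yD = PowerSeries.C y)
    (hψα : ψ αD = PowerSeries.X) (hψγ : ψ γD = PowerSeries.C γ)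
    {E : Type u} [CommRing E] [IsDomain E]
    [Algebra (Localization.Away yD) E] (c : E)
    (hE : Pres (Localization.Away yD) E (algebraMap D _ αD) (algebraMap D _ γD) c)
    (P : Type u) [AddCommGroup P] [Module E P] [Module.Finite E P] [Module.Projective E P]
    (k : ℕ) (F₀ : D[X]) (hF₀ : F₀.Monic)
    (hF₁ : F₀.map (residue D) = X ^ F₀.natDegree)
    (hHB : HB E P k (aeval c (F₀.map (algebraMap D (Localization.Away yD)))))
    (g : D) (hg : PowerSeries.map (residue A) (ψ g) ≠ 0)
    (hHB2 : HB E P k (algebraMap (Localization.Away yD) E (algebraMap D _ g))) :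
    ∃ h ∉ 𝔭, HB E P k (algebraMap (Localization.Away yD) E
      (algebraMap D _ (ψ.symm (PowerSeries.C h)))) := by
  classical
  let T := Localization.Away yD
  let T' := Localization.Away (PowerSeries.C y : PowerSeries A)
  have hmap : Submonoid.map (ψ : D ≃+* PowerSeries A) (Submonoid.powers yD) =
      Submonoid.powers (PowerSeries.C y : PowerSeries A) := by
    rw [← hψy]
    exact Submonoid.map_powers _ _
  let e : T ≃+* T' := IsLocalization.ringEquivOfRingEquiv (M := Submonoid.powers yD)
    (T := Submonoid.powers (PowerSeries.C y : PowerSeries A)) T T' ψ hmap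
  have he : ∀ d : D, e (algebraMap D T d) = algebraMap (PowerSeries A) T' (ψ d) := fun d =>
    IsLocalization.ringEquivOfRingEquiv_eq hmap d
  let alg : Algebra T' E := ((algebraMap T E).comp (e.symm : T' →+* T)).toAlgebra
  have hal : ∀ t : T', algebraMap T' E t = algebraMap T E (e.symm t) := fun t => rfl
  have hal' : ∀ d : D, algebraMap T' E (algebraMap (PowerSeries A) T' (ψ d)) =
      algebraMap T E (algebraMap D T d) := by
    intro d
    rw [hal, ← he, RingEquiv.symm_apply_apply]
  -- polynomials
  have hae : ∀ f : T'[X], aeval c f = aeval c (f.map (e.symm : T' →+* T)) := by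
    intro f
    rw [aeval_def, aeval_def, eval₂_map]
    rfl
  have hE' : Pres T' E (algebraMap (PowerSeries A) T' PowerSeries.X)
      (algebraMap (PowerSeries A) T' (PowerSeries.C γ)) c := by
    refine ⟨?_, ?_, ?_⟩
    · intro x
      obtain ⟨f, rfl⟩ := hE.surj x
      refine ⟨f.map (e : T →+* T'), ?_⟩
      rw [hae, Polynomial.map_map]
      congr 1
      have : (e.symm : T' →+* T).comp (e : T →+* T') = RingHom.id T := by
        ext t
        exact e.symm_apply_apply t
      rw [this, Polynomial.map_id]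
    · rw [← hψα, ← hψγ, hal', hal']
      exact hE.rel
    · intro f hf
      rw [hae] at hf
      obtain ⟨w, hw⟩ := hE.ker _ hf
      refine ⟨w.map (e : T →+* T'), ?_⟩
      have h1 := congrArg (Polynomial.map (e : T →+* T')) hw
      have h2 : (e : T →+* T').comp (e.symm : T' →+* T) = RingHom.id T' := by
        ext t
        exact e.apply_symm_apply t
      rw [Polynomial.map_map, h2, Polynomial.map_id, Polynomial.map_mul, Polynomial.map_sub,
        Polynomial.map_mul, Polynomial.map_C, Polynomial.map_C, Polynomial.map_X] at h1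
      rw [h1, ← hψα, ← hψγ, ← he, ← he]
      rfl
  let F₁ : (PowerSeries A)[X] := F₀.map (ψ : D →+* PowerSeries A)
  have h3 : aeval c (F₁.map (algebraMap (PowerSeries A) T')) =
      aeval c (F₀.map (algebraMap D T)) := by
    rw [aeval_def, aeval_def, eval₂_map, eval₂_map, eval₂_map]
    congr 1
    ext d
    exact hal' d
  obtain ⟨h, hh, H⟩ := node_local 𝔭 y γ b hm p1 p2 hγ0 hy0 hy hb c hE' P k F₁
    (hF₀.map _) (dist_map ψ F₀ hF₀ hF₁) (by rw [h3]; exact hHB) (ψ g) hg
    (by
      have h4 := hal' g
      exact h4 ▸ hHB2)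
  refine ⟨h, hh, ?_⟩
  have h5 := hal' (ψ.symm (PowerSeries.C h))
  rw [RingEquiv.apply_symm_apply] at h5
  exact h5 ▸ H

end Pool.Agent.QU54.BH
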