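import Mathlib
import Pool.Agent.Lib.QU54.ChainH
import Pool.Agent.Lib.QU54.NodeJ

/-!
# The local step for the chain, up to a change of coordinates
-/

set_option autoImplicit false

namespace Pool.Agent.QU54.BH

universe u

open Polynomial Pool.Agent.QU53 IsLocalRing

theorem chain_local' {A D : Type u} [CommRing A] [IsDomain A] [IsNoetherianRing A] [IsLocalRing A]
    [IsAdicComplete (maximalIdeal A) A] [CommRing D] [IsDomain D] [IsLocalRing D] (𝔭 : Ideal A)
    [𝔭.IsPrime] (y : A) (hy0 : y ≠ 0) (γ : PowerSeries A)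
    (hγ : Prime (algebraMap (PowerSeries A) (NT 𝔭 y) γ))
    (l : List A[X]) (hl : ∀ a ∈ l, a.Monic ∧ a.map (residue A) = X ^ a.natDegree ∧
      ¬ algebraMap (PowerSeries A) (NT 𝔭 y) γ ∣
        algebraMap (PowerSeries A) (NT 𝔭 y) (a : PowerSeries A) ∧
      Ctr (algebraMap (PowerSeries A) (NT 𝔭 y) (a : PowerSeries A))
        (algebraMap (PowerSeries A) (NT 𝔭 y) γ))
    (hprod : Polynomial.coeToPowerSeries.ringHom (l.prod) ≠ 0)
    (ψ : D ≃+* PowerSeries A) (yD αD γD : D) (hψy : ψ yD = PowerSeries.C y)
    (hψα : ψ αD = (l.prod : A[X])) (hψγ : ψ γD = γ)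
    {E : Type u} [CommRing E] [IsDomain E]
    [Algebra (Localization.Away yD) E] (c : E)
    (hE : Pres (Localization.Away yD) E (algebraMap D _ αD) (algebraMap D _ γD) c)
    (P : Type u) [AddCommGroup P] [Module E P] [Module.Finite E P] [Module.Projective E P]
    (k : ℕ) (F₀ : D[X]) (hF₀ : F₀.Monic)
    (hF0E : aeval c (F₀.map (algebraMap D (Localization.Away yD))) ≠ 0)
    (hHB : HB E P k (aeval c (F₀.map (algebraMap D (Localization.Away yD)))))
    (g : D) (hg : PowerSeries.map (residue A) (ψ g) ≠ 0)
    (hHB2 : HB E P k (algebraMap (Localization.Away yD) E (algebraMap D _ g))) :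
    ∃ h ∉ 𝔭, HB E P k (algebraMap (Localization.Away yD) E
      (algebraMap D _ (ψ.symm (PowerSeries.C h)))) := by
  classical
  let T := Localization.Away yD
  let T' := Localization.Away (PowerSeries.C y : PowerSeries A)
  have hmap : Submonoid.map (ψ : D ≃+* PowerSeries A) (Submonoid.powers yD) =
      Submonoid.powers (PowerSeries.C y : PowerSeries A) := by
    rw [← hψy]
    exact Submonoid.map_powers _ _
  let e : T ≃+* T' := IsLocalization.ringEquivOfRingEquiv (M := Submonoid.powers yD)
    (T := Submonoid.powers (PowerSeries.C y : PowerSeries A)) T T' ψ hmap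
  have he : ∀ d : D, e (algebraMap D T d) = algebraMap (PowerSeries A) T' (ψ d) := fun d =>
    IsLocalization.ringEquivOfRingEquiv_eq hmap d
  let alg : Algebra T' E := ((algebraMap T E).comp (e.symm : T' →+* T)).toAlgebra
  have hal : ∀ t : T', algebraMap T' E t = algebraMap T E (e.symm t) := fun t => rfl
  have hal' : ∀ d : D, algebraMap T' E (algebraMap (PowerSeries A) T' (ψ d)) =
      algebraMap T E (algebraMap D T d) := by
    intro d
    rw [hal, ← he, RingEquiv.symm_apply_apply]
  -- polynomials
  have hae : ∀ f : T'[X], aeval c f = aeval c (f.map (e.symm : T' →+* T)) := by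
    intro f
    rw [aeval_def, aeval_def, eval₂_map]
    rfl
  have hE' : Pres T' E (algebraMap (PowerSeries A) T' (l.prod : A[X]))
      (algebraMap (PowerSeries A) T' γ) c := by
    refine ⟨?_, ?_, ?_⟩
    · intro x
      obtain ⟨f, rfl⟩ := hE.surj x
      refine ⟨f.map (e : T →+* T'), ?_⟩
      rw [hae, Polynomial.map_map]
      congr 1
      have : (e.symm : T' →+* T).comp (e : T →+* T') = RingHom.id T := by
        ext t
        exact e.symm_apply_apply t
      rw [this, Polynomial.map_id]
    · rw [← hψα, ← hψγ, hal', hal']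
      exact hE.rel
    · intro f hf
      rw [hae] at hf
      obtain ⟨w, hw⟩ := hE.ker _ hf
      refine ⟨w.map (e : T →+* T'), ?_⟩
      have h1 := congrArg (Polynomial.map (e : T →+* T')) hw
      have h2 : (e : T →+* T').comp (e.symm : T' →+* T) = RingHom.id T' := by
        ext t
        exact e.apply_symm_apply t
      rw [Polynomial.map_map, h2, Polynomial.map_id, Polynomial.map_mul, Polynomial.map_sub,
        Polynomial.map_mul, Polynomial.map_C, Polynomial.map_C, Polynomial.map_X] at h1
      rw [h1, ← hψα, ← hψγ, ← he, ← he]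
      rfl
  let F₁ : (PowerSeries A)[X] := F₀.map (ψ : D →+* PowerSeries A)
  have h3 : aeval c (F₁.map (algebraMap (PowerSeries A) T')) =
      aeval c (F₀.map (algebraMap D T)) := by
    rw [aeval_def, aeval_def, eval₂_map, eval₂_map, eval₂_map]
    congr 1
    ext d
    exact hal' d
  have h3' : aeval c (F₁.map (algebraMap (PowerSeries A) T')) ≠ 0 := by
    rw [h3]
    exact hF0E
  obtain ⟨h, hh, H⟩ := chain_local 𝔭 y hy0 γ hγ l hl hprod c hE' P k F₁
    (hF₀.map _) h3' (by rw [h3]; exact hHB) (ψ g) hg
    (by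
      have h4 := hal' g
      exact h4 ▸ hHB2)
  refine ⟨h, hh, ?_⟩
  have h5 := hal' (ψ.symm (PowerSeries.C h))
  rw [RingEquiv.apply_symm_apply] at h5
  exact h5 ▸ H

end Pool.Agent.QU54.BH
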