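import Mathlib
import Pool.Agent.Lib.QU54.BlowF

/-!
# Parameters for the node
-/

set_option autoImplicit false

namespace Pool.Agent.QU54.BH

universe u

open Pool.Agent.QU53 IsLocalRing

/-- Parameters of the base. -/
theorem params3 {A : Type u} [CommRing A] [IsRegularLocalRing A] (hd : ringKrullDim A = 3)
    (y γ : A) (hy : y ∈ maximalIdeal A) (hy2 : y ∉ maximalIdeal A ^ 2)
    (hγ : γ ∈ maximalIdeal A) (hγ2 : γ ∉ maximalIdeal A ^ 2 ⊔ Ideal.span {y}) :
    (Ideal.span {γ}).IsPrime ∧ (Ideal.span {y, γ}).IsPrime ∧ (Ideal.span {y}).IsPrime ∧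
      y ∉ Ideal.span {γ} ∧ γ ∉ Ideal.span {y} ∧ Prime γ ∧
      ∃ b ∈ maximalIdeal A, maximalIdeal A = Ideal.span {y, γ, b} ∧
        b ∉ Ideal.span {y, γ} := by
  have q0 : Qr (⊥ : Ideal A) 3 := ⟨A, inferInstance, inferInstance, RingHom.id A,
    Function.surjective_id, by
      rw [RingHom.ker_eq_comap_bot, Ideal.comap_id], by exact_mod_cast hd⟩
  have q1 : Qr (Ideal.span {y}) 2 := by
    have := q0.step (n := 2) hy (by rwa [sup_bot_eq])
    rwa [bot_sup_eq] at this
  have q2 : Qr (Ideal.span {y, γ}) 1 := by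
    have := q1.step (n := 1) hγ hγ2
    rwa [← Ideal.span_insert] at this
  obtain ⟨hγp, hγy⟩ := g_prime (d := 2) (by exact_mod_cast hd) y γ hy2 hγ hγ2
  obtain ⟨b, hb, hm, hb2⟩ := q2.last
  refine ⟨(Ideal.span_singleton_prime hγp.ne_zero).2 hγp, q2.prime, q1.prime,
    fun h => hγy (Ideal.mem_span_singleton.1 h), fun h => hγ2 (Ideal.mem_sup_right h), hγp,
    b, hb, ?_, hb2⟩
  rw [hm, Ideal.span_insert, sup_assoc, ← Ideal.span_insert, ← Ideal.span_insert]

theorem ps_max {D : Type u} [CommRing D] [IsLocalRing D] (g : PowerSeries D)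
    (hg : g ∈ maximalIdeal (PowerSeries D)) :
    PowerSeries.constantCoeff g ∈ maximalIdeal D := by
  rw [mem_maximalIdeal, mem_nonunits_iff] at hg ⊢
  exact fun h => hg (PowerSeries.isUnit_iff_constantCoeff.2 h)

theorem ps_X_mem (D : Type u) [CommRing D] [IsLocalRing D] :
    (PowerSeries.X : PowerSeries D) ∈ maximalIdeal (PowerSeries D) := by
  rw [mem_maximalIdeal, mem_nonunits_iff, PowerSeries.isUnit_iff_constantCoeff,
    PowerSeries.constantCoeff_X]
  exact not_isUnit_zero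

theorem ps_coeff_one_mem {D : Type u} [CommRing D] [IsLocalRing D] (f : PowerSeries D)
    (hf : f ∈ maximalIdeal (PowerSeries D) ^ 2) :
    PowerSeries.coeff 1 f ∈ maximalIdeal D := by
  rw [pow_two] at hf
  refine Submodule.mul_induction_on hf ?_ ?_
  · intro a ha b hb
    rw [PowerSeries.coeff_one_mul]
    exact add_mem (Ideal.mul_mem_left _ _ (ps_max b hb)) (Ideal.mul_mem_left _ _ (ps_max a ha))
  · intro a b ha hb
    rw [map_add]
    exact add_mem ha hb

theorem node_X {A : Type u} [CommRing A] [IsLocalRing A] (y : A) (hy : y ∈ maximalIdeal A) :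
    (PowerSeries.X : PowerSeries A) ∉ maximalIdeal (PowerSeries A) ^ 2 ⊔
      Ideal.span {PowerSeries.C y} := by
  intro h
  obtain ⟨s, hs, t, ht, hst⟩ := Submodule.mem_sup.1 h
  obtain ⟨w, rfl⟩ := Ideal.mem_span_singleton'.1 ht
  have h1 := congrArg (PowerSeries.coeff 1) hst
  rw [map_add, PowerSeries.coeff_mul_C, PowerSeries.coeff_one_X] at h1
  have h2 : (1 : A) ∈ maximalIdeal A := by
    rw [← h1]
    exact add_mem (ps_coeff_one_mem s hs) (Ideal.mul_mem_left _ _ hy)
  exact (Ideal.ne_top_iff_one _).1 (Ideal.IsPrime.ne_top inferInstance) h2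

theorem node_γ {A : Type u} [CommRing A] [IsLocalRing A] (y γ : A)
    (hγ2 : γ ∉ maximalIdeal A ^ 2 ⊔ Ideal.span {y}) :
    (PowerSeries.C γ : PowerSeries A) ∉ maximalIdeal (PowerSeries A) ^ 2 ⊔
      Ideal.span {PowerSeries.C y, PowerSeries.X} := by
  intro h
  apply hγ2
  obtain ⟨s, hs, t, ht, hst⟩ := Submodule.mem_sup.1 h
  obtain ⟨a, b, rfl⟩ := Ideal.mem_span_pair.1 ht
  have h1 := congrArg PowerSeries.constantCoeff hst
  rw [map_add, map_add, map_mul, map_mul, PowerSeries.constantCoeff_C,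
    PowerSeries.constantCoeff_C, PowerSeries.constantCoeff_X, mul_zero, add_zero] at h1
  rw [← h1]
  exact add_mem (Ideal.mem_sup_left (ps_coeff_zero_mem_sq s hs))
    (Ideal.mem_sup_right (Ideal.mul_mem_left _ _ (Ideal.mem_span_singleton_self y)))

theorem node_dim {A : Type u} [CommRing A] [IsRegularLocalRing A] (hd : ringKrullDim A = 3) :
    ringKrullDim (PowerSeries A) = 4 := by
  obtain ⟨-, h2⟩ := regular_powerSeries A
  rw [h2, hd]
  rfl

/-- The prime ideals of the blow-up. -/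
theorem blow_primes {D : Type u} [CommRing D] [IsRegularLocalRing D]
    [IsAdicComplete (maximalIdeal D) D] (hd : ringKrullDim D = 4) (y α γ : D)
    (hy : y ∈ maximalIdeal D) (hy2 : y ∉ maximalIdeal D ^ 2)
    (hα : α ∈ maximalIdeal D) (hα2 : α ∉ maximalIdeal D ^ 2 ⊔ Ideal.span {y})
    (hγ : γ ∈ maximalIdeal D) (hγ2 : γ ∉ maximalIdeal D ^ 2 ⊔ Ideal.span {y, α}) :
    ∃ β : D, (Ideal.span {Ideal.Quotient.mk (blowIdeal α γ) (PowerSeries.C y)}).IsPrime ∧
      (Ideal.span {Ideal.Quotient.mk (blowIdeal α γ) (PowerSeries.C y),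
        Ideal.Quotient.mk (blowIdeal α γ) (PowerSeries.C α)}).IsPrime ∧
      ((maximalIdeal D).map (PowerSeries.C (R := D))).map (Ideal.Quotient.mk (blowIdeal α γ)) =
        Ideal.span {Ideal.Quotient.mk (blowIdeal α γ) (PowerSeries.C y),
          Ideal.Quotient.mk (blowIdeal α γ) (PowerSeries.C α),
          Ideal.Quotient.mk (blowIdeal α γ) (PowerSeries.C β)} ∧
      (((maximalIdeal D).map (PowerSeries.C (R := D))).map
        (Ideal.Quotient.mk (blowIdeal α γ))).IsPrime ∧
      Ideal.Quotient.mk (blowIdeal α γ) (PowerSeries.C y) ≠ 0 ∧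
      Ideal.Quotient.mk (blowIdeal α γ) (PowerSeries.C α) ∉
        Ideal.span {Ideal.Quotient.mk (blowIdeal α γ) (PowerSeries.C y)} ∧
      Ideal.Quotient.mk (blowIdeal α γ) (PowerSeries.C β) ∉
        Ideal.span {Ideal.Quotient.mk (blowIdeal α γ) (PowerSeries.C y),
          Ideal.Quotient.mk (blowIdeal α γ) (PowerSeries.C α)} := by
  classical
  have hdomD : IsDomain D := BEH5.Reg.isDomain_of_regular 4 D (by exact_mod_cast hd)
  obtain ⟨pr2, pr3, hy3, hα3, hγp, hγα, hγy, β, hβ, hm, hβ3⟩ :=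
    params hd y α γ hy hy2 hα hα2 hγ hγ2
  obtain ⟨hreg, hcomp, hdim, hyM, hyM2⟩ := blow_ring (d := 3) (by exact_mod_cast hd) y α γ hy hy2
    hα hγ hγ2
  have hRd : IsDomain (Blow α γ) := BEH5.Reg.isDomain_of_regular 4 _ (by exact_mod_cast hdim)
  have hfg : ∀ I : Ideal D, I.FG := fun I => (isNoetherianRing_iff_ideal_fg D).1 inferInstance I
  let Q : PowerSeries D →+* Blow α γ := Ideal.Quotient.mk (blowIdeal α γ)
  have hQs : Function.Surjective Q := Ideal.Quotient.mk_surjective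
  have hkQ : ∀ I : Ideal D, α ∈ I → γ ∈ I → RingHom.ker Q ≤ I.map (PowerSeries.C (R := D)) := by
    intro I h1 h2
    rw [Ideal.mk_ker, blowIdeal, Ideal.span_singleton_le_iff_mem]
    exact sub_mem (Ideal.mem_map_of_mem _ h2) (Ideal.mul_mem_left _ _ (Ideal.mem_map_of_mem _ h1))
  have hrel : Q (PowerSeries.C γ) = Q PowerSeries.X * Q (PowerSeries.C α) := by
    rw [← map_mul, ← sub_eq_zero, ← map_sub]
    exact Ideal.Quotient.eq_zero_iff_mem.2 (Ideal.mem_span_singleton_self _)
  -- `y` is prime in the blow-up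
  have hy0 : Q (PowerSeries.C y) ≠ 0 := by
    intro h
    apply hyM2
    show Q (PowerSeries.C y) ∈ _
    rw [h]
    exact zero_mem _
  have P1 : (Ideal.span {Q (PowerSeries.C y)}).IsPrime := by
    obtain ⟨hr, hd3⟩ := BEH5.Reg.quot_regular (n := 3) hdim hyM hyM2
    have := BEH5.Reg.isDomain_of_regular 3 _ hd3
    exact (Ideal.Quotient.isDomain_iff_prime _).1 this
  -- `(y, α)` is prime
  have k2 : ((Ideal.span {α, γ, y}).map (PowerSeries.C (R := D))).map Q =
      Ideal.span {Q (PowerSeries.C y), Q (PowerSeries.C α)} := by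
    rw [Ideal.map_span, Ideal.map_span]
    apply le_antisymm
    · rw [Ideal.span_le]
      rintro _ ⟨_, ⟨z, hz, rfl⟩, rfl⟩
      rcases hz with rfl | rfl | rfl
      · exact Ideal.subset_span (by simp)
      · rw [hrel]
        exact Ideal.mul_mem_left _ _ (Ideal.subset_span (by simp))
      · exact Ideal.subset_span (by simp)
    · rw [Ideal.span_le]
      rintro z hz
      rcases hz with rfl | rfl
      · exact Ideal.subset_span ⟨_, ⟨y, by simp, rfl⟩, rfl⟩
      · exact Ideal.subset_span ⟨_, ⟨α, by simp, rfl⟩, rfl⟩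
  have k3 : ((maximalIdeal D).map (PowerSeries.C (R := D))).map Q =
      Ideal.span {Q (PowerSeries.C y), Q (PowerSeries.C α), Q (PowerSeries.C β)} := by
    rw [hm, Ideal.map_span, Ideal.map_span]
    apply le_antisymm
    · rw [Ideal.span_le]
      rintro _ ⟨_, ⟨z, hz, rfl⟩, rfl⟩
      rcases hz with rfl | rfl | rfl | rfl
      · exact Ideal.subset_span (by simp)
      · rw [hrel]
        exact Ideal.mul_mem_left _ _ (Ideal.subset_span (by simp))
      · exact Ideal.subset_span (by simp)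
      · exact Ideal.subset_span (by simp)
    · rw [Ideal.span_le]
      rintro z hz
      rcases hz with rfl | rfl | rfl
      · exact Ideal.subset_span ⟨_, ⟨y, by simp, rfl⟩, rfl⟩
      · exact Ideal.subset_span ⟨_, ⟨α, by simp, rfl⟩, rfl⟩
      · exact Ideal.subset_span ⟨_, ⟨β, by simp, rfl⟩, rfl⟩
  have hp3 : ((Ideal.span {α, γ, y}).map (PowerSeries.C (R := D))).IsPrime :=
    ps_prime_mapC _ (hfg _)
  have hpm : ((maximalIdeal D).map (PowerSeries.C (R := D))).IsPrime :=
    ps_prime_mapC _ (hfg _)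
  have kα : ∀ I : Ideal D, α ∈ I → γ ∈ I → ∀ f : PowerSeries D,
      Q f ∈ (I.map (PowerSeries.C (R := D))).map Q → f ∈ I.map (PowerSeries.C (R := D)) := by
    intro I h1 h2 f hf
    rw [← Ideal.mem_comap, Ideal.comap_map_of_surjective _ hQs, ← RingHom.ker_eq_comap_bot,
      sup_eq_left.2 (hkQ I h1 h2)] at hf
    exact hf
  have hαm : α ∈ Ideal.span {α, γ, y} := Ideal.subset_span (by simp)
  have hγm : γ ∈ Ideal.span {α, γ, y} := Ideal.subset_span (by simp)
  have P2 : (Ideal.span {Q (PowerSeries.C y), Q (PowerSeries.C α)}).IsPrime := by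
    rw [← k2]
    exact Ideal.map_isPrime_of_surjective hQs (hkQ _ hαm hγm)
  have P3 : (((maximalIdeal D).map (PowerSeries.C (R := D))).map Q).IsPrime :=
    Ideal.map_isPrime_of_surjective hQs (hkQ _ hα hγ)
  have n1 : Q (PowerSeries.C α) ∉ Ideal.span {Q (PowerSeries.C y)} := by
    intro h
    obtain ⟨w, hw⟩ := Ideal.mem_span_singleton.1 h
    obtain ⟨w, rfl⟩ := hQs w
    rw [← map_mul, Ideal.Quotient.eq, blowIdeal, Ideal.mem_span_singleton] at hw
    obtain ⟨z, hz⟩ := hw
    have h1 := congrArg PowerSeries.constantCoeff hz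
    apply hα3
    refine Ideal.mem_span_pair.2 ⟨PowerSeries.constantCoeff w, PowerSeries.constantCoeff z, ?_⟩
    simp only [map_sub, map_mul, PowerSeries.constantCoeff_C, PowerSeries.constantCoeff_X,
      zero_mul, sub_zero] at h1
    linear_combination -h1
  have n2 : Q (PowerSeries.C β) ∉ Ideal.span {Q (PowerSeries.C y), Q (PowerSeries.C α)} := by
    rw [← k2]
    exact fun h => hβ3 (ps_C_mem_mapC _ (hfg _) _ (kα _ hαm hγm _ h))
  exact ⟨β, P1, P2, k3, P3, hy0, n1, n2⟩

end Pool.Agent.QU54.BH
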