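import Mathlib
import Pool.Agent.Lib.QU54.BlowM
import Pool.Agent.Lib.QU54.Pres
import Pool.Agent.Lib.QU54.NodeA

/-!
# The patch of the blow-up step
-/

set_option autoImplicit false

namespace Pool.Agent.QU54.BH

universe u

open Polynomial Submodule Pool.Agent.QU53 IsLocalRing

/-- ROW C7. The patch of `blow_core`. -/
theorem blow_patch {D : Type u} [CommRing D] [IsDomain D] [IsNoetherianRing D] [IsLocalRing D]
    [IsAdicComplete (maximalIdeal D) D] (y α γ : D) (hγ : γ ∈ maximalIdeal D)
    (hα : α ∈ maximalIdeal D) (hy0 : y ≠ 0)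
    (hγp : Prime γ) (hγα : ¬ γ ∣ α) (hγy : ¬ γ ∣ y) [IsDomain (Blow α γ)]
    (k : ℕ) (P : Type u) [AddCommGroup P]
    [Module (Localization.Away (Ideal.Quotient.mk (blowIdeal α γ) (PowerSeries.C y))) P]
    [Module.Finite (Localization.Away (Ideal.Quotient.mk (blowIdeal α γ) (PowerSeries.C y))) P]
    [Module.Projective (Localization.Away (Ideal.Quotient.mk (blowIdeal α γ)
      (PowerSeries.C y))) P]
    (f : PowerSeries D) (hf : PowerSeries.map (residue D) f ≠ 0)
    (hb : HB (Localization.Away (Ideal.Quotient.mk (blowIdeal α γ) (PowerSeries.C y))) P k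
      (algebraMap _ _ (Ideal.Quotient.mk (blowIdeal α γ) f))) :
    ∃ (E : Type u) (_ : CommRing E) (_ : IsDomain E) (_ : Algebra (Localization.Away y) E)
      (c : E) (F₀ : D[X]) (P' : Type u) (_ : AddCommGroup P') (_ : Module E P'),
      Pres (Localization.Away y) E (algebraMap D _ α) (algebraMap D _ γ) c ∧
      F₀.Monic ∧ F₀.map (residue D) = X ^ F₀.natDegree ∧
      Module.Finite E P' ∧ Module.Projective E P' ∧
      aeval c (F₀.map (algebraMap D (Localization.Away y))) ≠ 0 ∧
      HB E P' k (aeval c (F₀.map (algebraMap D (Localization.Away y)))) ∧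
      ∀ d : D, d ≠ 0 → HB E P' k (algebraMap (Localization.Away y) E (algebraMap D _ d)) →
        HB (Localization.Away (Ideal.Quotient.mk (blowIdeal α γ) (PowerSeries.C y))) P k
          (algebraMap _ _ (Ideal.Quotient.mk (blowIdeal α γ) (PowerSeries.C d))) := by
  classical
  obtain ⟨F₀, u, HF⟩ := PowerSeries.exists_isWeierstrassFactorization hf
  have hF₀ : F₀.Monic := HF.isDistinguishedAt.monic
  let Q : PowerSeries D →+* Blow α γ := Ideal.Quotient.mk (blowIdeal α γ)
  have hQs : Function.Surjective Q := Ideal.Quotient.mk_surjective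
  have hQ0 : ∀ g, Q g = 0 ↔ (PowerSeries.C γ - PowerSeries.X * PowerSeries.C α) ∣ g := by
    intro g
    rw [← Ideal.mem_span_singleton]
    exact Ideal.Quotient.eq_zero_iff_mem
  have hrel : Q (PowerSeries.C α) * Q PowerSeries.X = Q (PowerSeries.C γ) := by
    have h := (hQ0 (PowerSeries.C γ - PowerSeries.X * PowerSeries.C α)).2 dvd_rfl
    rw [map_sub, map_mul, sub_eq_zero] at h
    rw [h, mul_comm]
  have hyQ : Q (PowerSeries.C y) ≠ 0 := by
    intro h
    obtain ⟨g, hg⟩ := (hQ0 _).1 h
    apply hγy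
    have h1 := congrArg (PowerSeries.constantCoeff) hg
    refine ⟨PowerSeries.constantCoeff g, ?_⟩
    simpa using h1
  set B := Localization.Away (Ideal.Quotient.mk (blowIdeal α γ) (PowerSeries.C y)) with hBdef
  let Cr := Localization.Away y
  have hCr : IsDomain Cr := IsLocalization.isDomain_localization
    (powers_le_nonZeroDivisors_of_noZeroDivisors hy0)
  have hBd : IsDomain B := IsLocalization.isDomain_localization
    (powers_le_nonZeroDivisors_of_noZeroDivisors hyQ)
  have hinjR : Function.Injective (algebraMap (Blow α γ) B) := IsLocalization.injective _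
    (powers_le_nonZeroDivisors_of_noZeroDivisors hyQ)
  have hinjC : Function.Injective (algebraMap D Cr) := IsLocalization.injective _
    (powers_le_nonZeroDivisors_of_noZeroDivisors hy0)
  have hunit : IsUnit (algebraMap (Blow α γ) B (Q (PowerSeries.C y))) :=
    IsLocalization.Away.algebraMap_isUnit (Q (PowerSeries.C y))
  let φ₀ : Cr →+* B := IsLocalization.Away.lift (S := Cr) y
    (g := (algebraMap (Blow α γ) B).comp (Q.comp (PowerSeries.C (R := D)))) (by exact hunit)
  have hφ₀ : ∀ d : D, φ₀ (algebraMap D Cr d) = algebraMap (Blow α γ) B (Q (PowerSeries.C d)) :=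
    fun d => IsLocalization.Away.lift_eq (S := Cr) y
      (g := (algebraMap (Blow α γ) B).comp (Q.comp (PowerSeries.C (R := D)))) (by exact hunit) d
  let : Algebra Cr B := φ₀.toAlgebra
  have hal : ∀ a, algebraMap Cr B a = φ₀ a := fun _ => rfl
  let cB : B := algebraMap (Blow α γ) B (Q PowerSeries.X)
  have hφ : ∀ p : D[X], aeval cB (p.map (algebraMap D Cr)) =
      algebraMap (Blow α γ) B (Q (p : PowerSeries D)) := by
    intro p
    have h1 : (aeval cB : Cr[X] →ₐ[Cr] B).toRingHom.comp (Polynomial.mapRingHom (algebraMap D Cr)) =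
        ((algebraMap (Blow α γ) B).comp Q).comp Polynomial.coeToPowerSeries.ringHom := by
      refine Polynomial.ringHom_ext (fun d => ?_) ?_
      · show aeval cB ((Polynomial.C d).map _) = algebraMap (Blow α γ) B
          (Q ((Polynomial.C d : D[X]) : PowerSeries D))
        rw [Polynomial.map_C, aeval_C, hal, hφ₀, Polynomial.coe_C]
      · show aeval cB ((Polynomial.X : D[X]).map _) = algebraMap (Blow α γ) B
          (Q ((Polynomial.X : D[X]) : PowerSeries D))
        rw [Polynomial.map_X, aeval_X, Polynomial.coe_X]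
    exact congrArg (fun ψ : D[X] →+* B => ψ p) h1
  -- denominators
  have hdenA : ∀ a : Cr[X], ∃ (n : ℕ) (p : D[X]),
      Polynomial.C (algebraMap D Cr (y ^ n)) * a = p.map (algebraMap D Cr) := by
    intro a
    obtain ⟨_, ⟨n, rfl⟩, hb⟩ := IsLocalization.integerNormalization_spec
      (Submonoid.powers y) a
    refine ⟨n, IsLocalization.integerNormalization (Submonoid.powers y) a, ?_⟩
    rw [hb]
    show _ = (y ^ n) • a
    rw [Algebra.smul_def]
    rfl
  have hdenB : ∀ β : B, ∃ (n : ℕ) (g : PowerSeries D),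
      algebraMap (Blow α γ) B (Q (PowerSeries.C (y ^ n))) * β =
        algebraMap (Blow α γ) B (Q g) := by
    intro β
    obtain ⟨n, g, hg⟩ := IsLocalization.Away.surj (Q (PowerSeries.C y)) β
    obtain ⟨g, rfl⟩ := hQs g
    refine ⟨n, g, ?_⟩
    rw [← hg, map_pow, map_pow, map_pow, mul_comm]
  have hCunit : ∀ n : ℕ, IsUnit (Polynomial.C (algebraMap D Cr (y ^ n)) : Cr[X]) := by
    intro n
    rw [map_pow, map_pow]
    exact ((IsLocalization.Away.algebraMap_isUnit y).map Polynomial.C).pow n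
  have hφC : ∀ n : ℕ, aeval cB (Polynomial.C (algebraMap D Cr (y ^ n))) =
      algebraMap (Blow α γ) B (Q (PowerSeries.C (y ^ n))) := by
    intro n
    rw [aeval_C, hal, hφ₀]
  -- the kernel
  have hKer : ∀ g : Cr[X], aeval cB g = 0 →
      (Polynomial.C (algebraMap D Cr α) * X - Polynomial.C (algebraMap D Cr γ)) ∣ g := by
    intro g hg
    obtain ⟨n, p, hp⟩ := hdenA g
    have h1 : aeval cB (p.map (algebraMap D Cr)) = 0 := by
      rw [← hp, map_mul, hg, mul_zero]
    rw [hφ] at h1
    have h2 : Q (p : PowerSeries D) = 0 := hinjR (by rw [h1, map_zero])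
    obtain ⟨w, hw⟩ := (hQ0 _).1 h2
    obtain ⟨q, -, hq⟩ := poly_dvd α γ hγ hγp hγα p w hw
    obtain ⟨v, hv⟩ := hCunit n
    refine ⟨-((↑v⁻¹ : Cr[X]) * q.map (algebraMap D Cr)), ?_⟩
    have h3 := congrArg (Polynomial.map (algebraMap D Cr)) hq
    rw [← hp, Polynomial.map_mul, Polynomial.map_sub, Polynomial.map_mul, Polynomial.map_C,
      Polynomial.map_C, Polynomial.map_X, ← hv] at h3
    calc g = (↑v⁻¹ : Cr[X]) * (v * g) := by rw [Units.inv_mul_cancel_left]
      _ = _ := by rw [h3]; ring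
  -- the ring `E`
  let E : Subalgebra Cr B := (aeval cB : Cr[X] →ₐ[Cr] B).range
  let cE : E := ⟨cB, ⟨X, by simp⟩⟩
  have hcE : ∀ g : Cr[X], ((aeval cE g : E) : B) = aeval cB g := fun g => by
    rw [aeval_subalgebra_coe]
  have hcs : Function.Surjective (aeval cE : Cr[X] →ₐ[Cr] E) := by
    rintro ⟨_, ⟨g, rfl⟩⟩
    exact ⟨g, Subtype.ext (hcE g)⟩
  have hinjE : Function.Injective (algebraMap E B) := Subtype.val_injective
  have hKerE : ∀ g : Cr[X], aeval cE g = 0 →
      (Polynomial.C (algebraMap D Cr α) * X - Polynomial.C (algebraMap D Cr γ)) ∣ g := by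
    intro g hg
    apply hKer
    rw [← hcE, hg]
    rfl
  have hrelE : aeval cE ((C γ - X * C α : D[X]).map (algebraMap D Cr)) = 0 := by
    have h3 : Q ((C γ - X * C α : D[X]) : PowerSeries D) = 0 := by
      rw [hQ0, Polynomial.coe_sub, Polynomial.coe_mul, Polynomial.coe_C, Polynomial.coe_C,
        Polynomial.coe_X]
    apply Subtype.ext
    rw [hcE, hφ, h3]
    exact map_zero _
  let F : E := aeval cE (F₀.map (algebraMap D Cr))
  have hFB : algebraMap E B F = algebraMap (Blow α γ) B (Q (F₀ : PowerSeries D)) := by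
    show ((aeval cE (F₀.map (algebraMap D Cr)) : E) : B) = _
    rw [hcE, hφ]
  have hF0 : F ≠ 0 := by
    intro h
    have h1 : algebraMap (Blow α γ) B (Q (F₀ : PowerSeries D)) = 0 := by
      rw [← hFB, h, map_zero]
    have h2 : Q (F₀ : PowerSeries D) = 0 := hinjR (by rw [h1, map_zero])
    obtain ⟨w, hw⟩ := (hQ0 _).1 h2
    apply hf
    rw [HF.eq_mul, hw, map_mul, map_mul, map_sub, map_mul, PowerSeries.map_C, PowerSeries.map_C,
      (residue_eq_zero_iff γ).2 hγ, (residue_eq_zero_iff α).2 hα, map_zero, mul_zero, sub_zero,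
      zero_mul, zero_mul]
  have h1 : ∀ β : B, ∃ (a : E) (d : B), β = algebraMap E B a + algebraMap E B F * d := by
    intro β
    obtain ⟨n, g, hg⟩ := hdenB β
    obtain ⟨q, t, hqt⟩ := PowerSeries.exists_isWeierstrassDivision (f := g) hf
    obtain ⟨v, hv⟩ := hCunit n
    obtain ⟨v', hv'⟩ : ∃ v' : Cr[X], v' * Polynomial.C (algebraMap D Cr (y ^ n)) = 1 :=
      ⟨(↑v⁻¹ : Cr[X]), by rw [← hv, Units.inv_mul]⟩
    refine ⟨aeval cE (v' * t.map (algebraMap D Cr)),
      aeval cB v' * algebraMap (Blow α γ) B (Q (u * q)), ?_⟩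
    have h2 : β = aeval cB v' * (algebraMap (Blow α γ) B (Q (PowerSeries.C (y ^ n))) * β) := by
      rw [← hφC n, ← mul_assoc, ← map_mul, hv', map_one, one_mul]
    have h3 : algebraMap E B (aeval cE (v' * t.map (algebraMap D Cr))) =
        aeval cB (v' * t.map (algebraMap D Cr)) := hcE _
    rw [h3, h2, hg, hqt.eq_mul_add, HF.eq_mul, map_mul (aeval cB), hφ, hFB, map_add, map_mul,
      map_mul, map_mul, map_add, map_mul, map_mul, map_mul]
    ring
  have h2 : ∀ (a : E) (d : B), algebraMap E B a = algebraMap E B F * d →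
      ∃ a', a = F * a' := by
    intro a d hac
    obtain ⟨g₀, rfl⟩ := hcs a
    obtain ⟨n, p, hp⟩ := hdenA g₀
    obtain ⟨m, g, hg⟩ := hdenB d
    have h3 : algebraMap (Blow α γ) B (Q ((Polynomial.C (y ^ m) * p : D[X]) : PowerSeries D)) =
        algebraMap (Blow α γ) B (Q ((F₀ : PowerSeries D) * (PowerSeries.C (y ^ n) * g))) := by
      have h4 : algebraMap E B (aeval cE g₀) = aeval cB g₀ := hcE _
      rw [h4] at hac
      rw [Polynomial.coe_mul, Polynomial.coe_C, map_mul, map_mul, ← hφ p, ← hp, map_mul (aeval cB),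
        hφC, hac, map_mul, map_mul, map_mul, map_mul, ← hg, hFB]
      ring
    have h4 := hinjR h3
    rw [← sub_eq_zero, ← map_sub, hQ0] at h4
    obtain ⟨s, hs⟩ := h4
    obtain ⟨q, t, hqt⟩ := PowerSeries.exists_isWeierstrassDivision (f := s) hf
    have h5 : ((C (y ^ m) * p - (C γ - X * C α) * t : D[X]) : PowerSeries D) =
        (F₀ : PowerSeries D) * (PowerSeries.C (y ^ n) * g +
          (PowerSeries.C γ - PowerSeries.X * PowerSeries.C α) * (u * q)) := by
      rw [hqt.eq_mul_add, HF.eq_mul] at hs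
      rw [Polynomial.coe_sub, Polynomial.coe_mul (C γ - X * C α) t, Polynomial.coe_sub,
        Polynomial.coe_mul X, Polynomial.coe_C, Polynomial.coe_C, Polynomial.coe_X]
      linear_combination hs
    obtain ⟨b', hb'⟩ := dvd_of_dvd_coe HF hf _ _ h5
    have h6 := congrArg (fun z => aeval cE (Polynomial.map (algebraMap D Cr) z)) hb'
    beta_reduce at h6
    rw [Polynomial.map_sub, Polynomial.map_mul, Polynomial.map_mul, Polynomial.map_mul,
      Polynomial.map_C, ← hp, map_sub, map_mul (aeval cE), map_mul (aeval cE), map_mul (aeval cE),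
      map_mul (aeval cE), hrelE, zero_mul, sub_zero] at h6
    obtain ⟨v, hv⟩ := ((hCunit m).mul (hCunit n)).map (aeval cE : Cr[X] →ₐ[Cr] E)
    refine ⟨(↑v⁻¹ : E) * aeval cE (b'.map (algebraMap D Cr)), ?_⟩
    have h7 : (v : E) * aeval cE g₀ = F * aeval cE (b'.map (algebraMap D Cr)) := by
      rw [hv, map_mul, mul_assoc]; exact h6
    calc aeval cE g₀ = (↑v⁻¹ : E) * (v * aeval cE g₀) := by rw [Units.inv_mul_cancel_left]
      _ = _ := by rw [h7]; ring
  -- `HB` with respect to `F`
  have hbF : HB B P k (algebraMap E B F) := by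
    obtain ⟨b, hli, hs⟩ := hb
    refine ⟨b, hli, fun q => ?_⟩
    obtain ⟨w, hw⟩ := HF.isUnit.exists_right_inv
    have h3 : algebraMap E B F = algebraMap (Blow α γ) B (Q w) *
        algebraMap (Blow α γ) B (Q f) := by
      rw [hFB, ← map_mul, ← map_mul]
      congr 2
      rw [HF.eq_mul]
      linear_combination (-(F₀ : PowerSeries D)) * hw
    rw [h3, mul_smul]
    exact Submodule.smul_mem _ _ (hs q)
  have hNoeth : IsNoetherianRing Cr := IsLocalization.isNoetherianRing (Submonoid.powers y) Cr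
    inferInstance
  have hNE : IsNoetherianRing E :=
    isNoetherianRing_of_surjective Cr[X] E (aeval cE : Cr[X] →ₐ[Cr] E).toRingHom hcs
  obtain ⟨P', i1, i2, hfin, hproj, hHB, -, ι, hιi, hι, hιs⟩ :=
    patch' F hF0 hinjE h1 h2 k P hbF
  have hαc : algebraMap Cr E (algebraMap D Cr α) * cE = algebraMap Cr E (algebraMap D Cr γ) := by
    apply Subtype.ext
    show φ₀ (algebraMap D Cr α) * cB = φ₀ (algebraMap D Cr γ)
    rw [hφ₀, hφ₀, ← hrel, map_mul]
  have hα0 : algebraMap D Cr α ≠ 0 := by
    intro h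
    have : α = 0 := hinjC (by rw [h, map_zero])
    exact hγα (this ▸ dvd_zero _)
  have hPres : Pres Cr E (algebraMap D Cr α) (algebraMap D Cr γ) cE := ⟨hcs, hαc, hKerE⟩
  refine ⟨E, inferInstance, inferInstance, inferInstance, cE, F₀, P', i1, i2, hPres, hF₀,
    HF.isDistinguishedAt.map_eq_X_pow, hfin, hproj, hF0, hHB, fun d hd hHBd => ?_⟩
  have hd0 : algebraMap Cr E (algebraMap D Cr d) ≠ 0 := by
    intro h
    have h3 := hPres.inj hα0 (by rw [h, map_zero] : algebraMap Cr E (algebraMap D Cr d) =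
      algebraMap Cr E 0)
    exact hd (hinjC (by rw [h3, map_zero]))
  have hFB0 : algebraMap E B F ≠ 0 := fun h => hF0 (hinjE (by rw [h, map_zero]))
  have h3 := HB_up hinjE hFB0 hbF ι hι hιs hd0 hHBd
  have h4 : algebraMap E B (algebraMap Cr E (algebraMap D Cr d)) =
      algebraMap (Blow α γ) B (Q (PowerSeries.C d)) := by
    show φ₀ (algebraMap D Cr d) = _
    rw [hφ₀]
  rw [h4] at h3
  exact h3

end Pool.Agent.QU54.BH
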