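import Mathlib
import Pool.Agent.Lib.QU54.BlowF
import Pool.Agent.Lib.QU54.DilSwap
import Pool.Agent.Lib.QU54.Pres

/-!
# Coordinates for power series over a blow-up
-/

set_option autoImplicit false

namespace Pool.Agent.QU54.BH

universe u

open Polynomial Pool.Agent.QU53 IsLocalRing

section coord

variable {D : Type u} [CommRing D] (α γ : D) (n : ℕ)

/-- The projection. -/
noncomputable def blowQ : MvPowerSeries (Fin (n + 1)) D →+* MvPowerSeries (Fin n) (Blow α γ) :=
  (MvPowerSeries.map (σ := Fin n) (Ideal.Quotient.mk (blowIdeal α γ))).comp (blockE D n).toRingHom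

theorem blowQ_surj : Function.Surjective (blowQ α γ n) :=
  (mv_map_surj _ Ideal.Quotient.mk_surjective n).comp (blockE D n).surjective

theorem blowQ_C (d : D) : blowQ α γ n (MvPowerSeries.C d) =
    MvPowerSeries.C (Ideal.Quotient.mk (blowIdeal α γ) (PowerSeries.C d)) := by
  show MvPowerSeries.map (σ := Fin n) (Ideal.Quotient.mk (blowIdeal α γ))
    (blockE D n (MvPowerSeries.C d)) = _
  rw [blockE_C, MvPowerSeries.map_C]

theorem blowQ_X : blowQ α γ n (MvPowerSeries.X 0) =
    MvPowerSeries.C (Ideal.Quotient.mk (blowIdeal α γ) PowerSeries.X) := by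
  show MvPowerSeries.map (σ := Fin n) (Ideal.Quotient.mk (blowIdeal α γ))
    (blockE D n (MvPowerSeries.X 0)) = _
  rw [blockE_X, MvPowerSeries.map_C]

theorem blowQ_ker [IsNoetherianRing D] : RingHom.ker (blowQ α γ n) =
    Ideal.span {(MvPowerSeries.C γ - MvPowerSeries.X 0 * MvPowerSeries.C α :
      MvPowerSeries (Fin (n + 1)) D)} := by
  have h1 : blockE D n (MvPowerSeries.C γ - MvPowerSeries.X 0 * MvPowerSeries.C α) =
      MvPowerSeries.C (PowerSeries.C γ - PowerSeries.X * PowerSeries.C α) := by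
    rw [map_sub, map_mul, blockE_C, blockE_C, blockE_X, map_sub, map_mul]
  ext f
  have h2 : f ∈ RingHom.ker (blowQ α γ n) ↔
      MvPowerSeries.map (Ideal.Quotient.mk (blowIdeal α γ)) (blockE D n f) = 0 := Iff.rfl
  rw [h2, ← mem_mapC, blowIdeal, Ideal.map_span, Set.image_singleton, ← h1,
    Ideal.mem_span_singleton, Ideal.mem_span_singleton]
  constructor
  · rintro ⟨c, hc⟩
    refine ⟨(blockE D n).symm c, (blockE D n).injective ?_⟩
    rw [hc, map_mul, RingEquiv.apply_symm_apply]
  · rintro ⟨c, rfl⟩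
    exact ⟨blockE D n c, map_mul _ _ _⟩

/-- Power series over a blow-up are a blow-up. -/
theorem exists_Psi [IsNoetherianRing D]
    (ψ : MvPowerSeries (Fin (n + 1)) D ≃+* PowerSeries (MvPowerSeries (Fin n) D))
    (hC : ∀ d, ψ (MvPowerSeries.C d) = PowerSeries.C (MvPowerSeries.C d))
    (hX : ψ (MvPowerSeries.X 0) = PowerSeries.X) :
    ∃ Ψ : MvPowerSeries (Fin n) (Blow α γ) ≃+*
        Blow (MvPowerSeries.C α : MvPowerSeries (Fin n) D) (MvPowerSeries.C γ),
      ∀ f, Ψ (blowQ α γ n f) = Ideal.Quotient.mk _ (ψ f) := by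
  have h1 : ψ (MvPowerSeries.C γ - MvPowerSeries.X 0 * MvPowerSeries.C α) =
      PowerSeries.C (MvPowerSeries.C γ) - PowerSeries.X * PowerSeries.C (MvPowerSeries.C α) := by
    rw [map_sub, map_mul, hC, hC, hX]
  have h2 : blowIdeal (MvPowerSeries.C α : MvPowerSeries (Fin n) D) (MvPowerSeries.C γ) =
      (RingHom.ker (blowQ α γ n)).map (ψ : MvPowerSeries (Fin (n + 1)) D →+*
        PowerSeries (MvPowerSeries (Fin n) D)) := by
    rw [blowQ_ker, Ideal.map_span, Set.image_singleton, blowIdeal]
    congr 2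
    exact h1.symm
  let e1 := RingHom.quotientKerEquivOfSurjective (blowQ_surj α γ n)
  let e2 := Ideal.quotientEquiv (RingHom.ker (blowQ α γ n)) _ ψ h2
  refine ⟨e1.symm.trans e2, fun f => ?_⟩
  have h3 : e1.symm (blowQ α γ n f) = Ideal.Quotient.mk _ f := by
    rw [RingEquiv.symm_apply_eq]
    rfl
  rw [RingEquiv.trans_apply, h3]
  rfl

theorem blowQ_max [IsLocalRing D] [IsNoetherianRing D] [IsLocalRing (Blow α γ)]
    (hα : α ∈ maximalIdeal D) (hγ : γ ∈ maximalIdeal D)
    (f : MvPowerSeries (Fin (n + 1)) D)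
    (h : MvPowerSeries.map (residue (Blow α γ)) (blowQ α γ n f) = 0) :
    f ∈ Ideal.span {MvPowerSeries.X 0} ⊔
      (maximalIdeal D).map (MvPowerSeries.C (σ := Fin (n + 1)) (R := D)) := by
  have hN : IsNoetherianRing (Blow α γ) := inferInstance
  have h0 : maximalIdeal (PowerSeries D) = Ideal.span {PowerSeries.X} ⊔
      (maximalIdeal D).map (PowerSeries.C (R := D)) := by
    apply le_antisymm
    · intro g hg
      have h1 : PowerSeries.constantCoeff g ∈ maximalIdeal D := by
        rw [mem_maximalIdeal, mem_nonunits_iff] at hg ⊢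
        exact fun h => hg (PowerSeries.isUnit_iff_constantCoeff.2 h)
      have h2 : g = g - PowerSeries.C (PowerSeries.constantCoeff g) +
          PowerSeries.C (PowerSeries.constantCoeff g) := by ring
      rw [h2]
      refine add_mem (Ideal.mem_sup_left ?_) (Ideal.mem_sup_right (Ideal.mem_map_of_mem _ h1))
      rw [Ideal.mem_span_singleton, PowerSeries.X_dvd_iff, map_sub, PowerSeries.constantCoeff_C,
        sub_self]
    · refine sup_le ?_ ?_
      · rw [Ideal.span_singleton_le_iff_mem, mem_maximalIdeal, mem_nonunits_iff,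
          PowerSeries.isUnit_iff_constantCoeff, PowerSeries.constantCoeff_X]
        exact not_isUnit_zero
      · rw [Ideal.map_le_iff_le_comap]
        intro a ha
        rw [Ideal.mem_comap, mem_maximalIdeal, mem_nonunits_iff,
          PowerSeries.isUnit_iff_constantCoeff, PowerSeries.constantCoeff_C]
        exact ha
  have h1 : (maximalIdeal (Blow α γ)).map (MvPowerSeries.C (σ := Fin n)) =
      (Ideal.span {MvPowerSeries.X 0} ⊔
        (maximalIdeal D).map (MvPowerSeries.C (σ := Fin (n + 1)) (R := D))).map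
        (blowQ α γ n) := by
    rw [map_max (Ideal.Quotient.mk (blowIdeal α γ)) Ideal.Quotient.mk_surjective, h0,
      Ideal.map_sup, Ideal.map_sup, Ideal.map_sup, Ideal.map_span, Ideal.map_span, Ideal.map_span,
      Set.image_singleton, Set.image_singleton, Set.image_singleton, blowQ_X, Ideal.map_map,
      Ideal.map_map, Ideal.map_map]
    congr 2
    ext d
    exact congrArg _ (blowQ_C α γ n d).symm
  have h2 : blowQ α γ n f ∈ (maximalIdeal (Blow α γ)).map (MvPowerSeries.C (σ := Fin n)) := by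
    rw [mem_mapC]
    exact h
  rw [h1, ← Ideal.mem_comap, Ideal.comap_map_of_surjective _ (blowQ_surj α γ n),
    ← RingHom.ker_eq_comap_bot] at h2
  have h3 : RingHom.ker (blowQ α γ n) ≤ Ideal.span {MvPowerSeries.X 0} ⊔
      (maximalIdeal D).map (MvPowerSeries.C (σ := Fin (n + 1)) (R := D)) := by
    rw [blowQ_ker, Ideal.span_singleton_le_iff_mem]
    exact sub_mem (Ideal.mem_sup_right (Ideal.mem_map_of_mem _ hγ))
      (Ideal.mul_mem_left _ _ (Ideal.mem_sup_right (Ideal.mem_map_of_mem _ hα)))
  rwa [sup_eq_left.2 h3] at h2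

end coord

end Pool.Agent.QU54.BH
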