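import Mathlib
import Pool.Agent.Lib.QU54.NodeF
import Pool.Agent.Lib.QU54.NodeG
import Pool.Agent.Lib.QU54.NodeI
import Pool.Agent.Lib.QU54.NodeJ
import Pool.Agent.Lib.QU54.NodeK

/-!
# Power series over a node: the main step
-/

set_option autoImplicit false

namespace Pool.Agent.QU54.BH

universe u

open Polynomial Pool.Agent.QU53 IsLocalRing

theorem mem_map_maxC {D : Type u} [CommRing D] [IsLocalRing D] [IsNoetherianRing D] {n : ℕ}
    (f : MvPowerSeries (Fin n) D) :
    f ∈ (maximalIdeal D).map (MvPowerSeries.C (σ := Fin n) (R := D)) ↔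
      MvPowerSeries.map (residue D) f = 0 := mem_mapC (maximalIdeal D) f

/-- The ideal of the node. -/
noncomputable abbrev nodeI {A₀ : Type u} [CommRing A₀] (γ : A₀) (n : ℕ) :
    Ideal (PowerSeries (MvPowerSeries (Fin n) (PowerSeries A₀))) :=
  blowIdeal (MvPowerSeries.C PowerSeries.X) (MvPowerSeries.C (PowerSeries.C γ))

/-- The coordinate ring. -/
noncomputable abbrev nodeL {A₀ : Type u} [CommRing A₀] (y γ : A₀) (n : ℕ) : Type u :=
  Localization.Away (Ideal.Quotient.mk (nodeI γ n)
    (PowerSeries.C (MvPowerSeries.C (PowerSeries.C y))))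

theorem node_step {A₀ : Type u} [CommRing A₀] [IsRegularLocalRing A₀]
    [IsAdicComplete (maximalIdeal A₀) A₀] (hd : ringKrullDim A₀ = 3) (y γ : A₀)
    (hy : y ∈ maximalIdeal A₀) (hy2 : y ∉ maximalIdeal A₀ ^ 2)
    (hγ : γ ∈ maximalIdeal A₀) (hγ2 : γ ∉ maximalIdeal A₀ ^ 2 ⊔ Ideal.span {y}) (n : ℕ)
    [IsDomain (Blow (MvPowerSeries.C PowerSeries.X : MvPowerSeries (Fin n) (PowerSeries A₀))
      (MvPowerSeries.C (PowerSeries.C γ)))]
    (k : ℕ) (P : Type u) [AddCommGroup P]
    [Module (nodeL y γ n) P] [Module.Finite (nodeL y γ n) P] [Module.Projective (nodeL y γ n) P]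
    (f : PowerSeries (MvPowerSeries (Fin n) (PowerSeries A₀)))
    (hf : PowerSeries.map (residue (MvPowerSeries (Fin n) (PowerSeries A₀))) f ≠ 0)
    (hb : HB (nodeL y γ n) P k (algebraMap _ _ (Ideal.Quotient.mk (nodeI γ n) f))) :
    ∃ d : MvPowerSeries (Fin n) (PowerSeries A₀),
      MvPowerSeries.map (residue (PowerSeries A₀)) d ≠ 0 ∧
      HB (nodeL y γ n) P k
        (algebraMap _ _ (Ideal.Quotient.mk (nodeI γ n) (PowerSeries.C d))) := by
  classical
  let D := PowerSeries A₀
  let Dn := MvPowerSeries (Fin n) D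
  let A := MvPowerSeries (Fin n) A₀
  have hA₀d : IsDomain A₀ := BEH5.Reg.isDomain_of_regular 3 A₀ (by exact_mod_cast hd)
  have hDc : IsAdicComplete (maximalIdeal D) D := adicMax8
  have hDnd : IsDomain Dn := isDomain_mv D n
  have hDnc : IsAdicComplete (maximalIdeal Dn) Dn := adicComplete_mvPowerSeries n
  have hAd : IsDomain A := isDomain_mv A₀ n
  have hAc : IsAdicComplete (maximalIdeal A) A := adicComplete_mvPowerSeries n
  have hDnn : IsNoetherianRing Dn := inferInstance
  have hAn : IsNoetherianRing A := inferInstance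
  obtain ⟨hDr, -⟩ := regular_powerSeries A₀
  obtain ⟨p1, p2, p3, hyγ, hγy, hγp, b, hb0, hm, hb2⟩ := params3 hd y γ hy hy2 hγ hγ2
  obtain ⟨-, -, -, -, hγDp, hγDα, hγDy, -⟩ := params (node_dim hd) (PowerSeries.C y)
    PowerSeries.X (PowerSeries.C γ) (ps_C_mem y hy)
    (fun h => hy2 (by
      have := ps_coeff_zero_mem_sq _ h
      rwa [PowerSeries.constantCoeff_C] at this))
    (ps_X_mem A₀) (node_X y hy) (ps_C_mem γ hγ) (node_γ y γ hγ2)
  have hy0 : y ≠ 0 := fun h => hy2 (h ▸ zero_mem _)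
  let yD : Dn := MvPowerSeries.C (PowerSeries.C y)
  let αD : Dn := MvPowerSeries.C PowerSeries.X
  let γD : Dn := MvPowerSeries.C (PowerSeries.C γ)
  let bD : Dn := MvPowerSeries.C (PowerSeries.C b)
  have hCinj : Function.Injective (fun a : A₀ => (MvPowerSeries.C (PowerSeries.C a) : Dn)) :=
    fun a a' h => PowerSeries.C_injective (MvPowerSeries.C_injective h)
  have hyD0 : yD ≠ 0 := by
    intro h
    exact hy0 (hCinj (by
      show yD = MvPowerSeries.C (PowerSeries.C 0)
      rw [h, map_zero, map_zero]))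
  obtain ⟨E, _, _, _, c, F₀, P', _, _, hE, hF₀, hF₁, hfin, hproj, hF0, hHB, hback⟩ :=
    blow_patch yD αD γD (C_mem_maxD _ (ps_C_mem γ hγ) n) (C_mem_maxD _ (ps_X_mem A₀) n) hyD0
      (prime_C hγDp n) (C_not_dvd _ _ hγDα n) (C_not_dvd _ _ hγDy n) k P f hf hb
  -- the prime ideal generated by `m₀`
  let q : Ideal Dn := ((maximalIdeal A₀).map (PowerSeries.C (R := A₀))).map
    (MvPowerSeries.C (σ := Fin n) (R := D))
  have hfg : ∀ I : Ideal A₀, I.FG := fun I => (isNoetherianRing_iff_ideal_fg A₀).1 inferInstance I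
  have hpr : ∀ I : Ideal A₀, I.IsPrime →
      ((I.map (PowerSeries.C (R := A₀))).map (MvPowerSeries.C (σ := Fin n) (R := D))).IsPrime := by
    intro I hI
    have : (I.map (PowerSeries.C (R := A₀))).IsPrime := ps_prime_mapC I (hfg I)
    exact prime_mapC _ n
  have hmem : ∀ (I : Ideal A₀) (a : A₀), (MvPowerSeries.C (PowerSeries.C a) : Dn) ∈
      (I.map (PowerSeries.C (R := A₀))).map (MvPowerSeries.C (σ := Fin n) (R := D)) → a ∈ I := by
    intro I a h
    exact ps_C_mem_mapC I (hfg I) a (C_mem_mapD _ _ h)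
  have hq : q.IsPrime := hpr _ inferInstance
  have k1 : ((Ideal.span {y}).map (PowerSeries.C (R := A₀))).map
      (MvPowerSeries.C (σ := Fin n) (R := D)) = Ideal.span {yD} := by
    rw [Ideal.map_span, Ideal.map_span, Set.image_singleton, Set.image_singleton]
  have k2 : ((Ideal.span {y, γ}).map (PowerSeries.C (R := A₀))).map
      (MvPowerSeries.C (σ := Fin n) (R := D)) = Ideal.span {yD, γD} := by
    rw [Ideal.map_span, Ideal.map_span, Set.image_insert_eq, Set.image_singleton,
      Set.image_insert_eq, Set.image_singleton]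
  have k3 : q = Ideal.span {yD, γD, bD} := by
    show ((maximalIdeal A₀).map (PowerSeries.C (R := A₀))).map
      (MvPowerSeries.C (σ := Fin n) (R := D)) = _
    rw [hm, Ideal.map_span, Ideal.map_span, Set.image_insert_eq, Set.image_insert_eq,
      Set.image_insert_eq, Set.image_insert_eq, Set.image_singleton, Set.image_singleton]
  have P1 : (Ideal.span {yD}).IsPrime := k1 ▸ hpr _ p3
  have P2 : (Ideal.span {yD, γD}).IsPrime := k2 ▸ hpr _ p2
  have n1 : γD ∉ Ideal.span {yD} := by
    rw [← k1]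
    exact fun h => hγy (hmem _ _ h)
  have n2 : bD ∉ Ideal.span {yD, γD} := by
    rw [← k2]
    exact fun h => hb2 (hmem _ _ h)
  have hPF : PF (Localization.Away (algebraMap Dn (Localization.AtPrime q) yD)) :=
    gab_gen yD γD bD q k3 P1 P2 hyD0 n1 n2
  have hαq : αD ∉ q := by
    intro h
    have h1 : (PowerSeries.X : D) ∈ (maximalIdeal A₀).map (PowerSeries.C (R := A₀)) :=
      C_mem_mapD _ _ h
    rw [ps_mem_mapC _ (hfg _), PowerSeries.map_X] at h1
    exact PowerSeries.X_ne_zero h1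
  obtain ⟨k', h', hh', H'⟩ := pres_gab yD αD γD q hPF hαq hyD0 c hE P'
  -- the ranks agree
  have hT : Function.Injective (algebraMap Dn (Localization.Away yD)) :=
    IsLocalization.injective _ (powers_le_nonZeroDivisors_of_noZeroDivisors hyD0)
  have hTd : IsDomain (Localization.Away yD) :=
    IsLocalization.isDomain_localization (powers_le_nonZeroDivisors_of_noZeroDivisors hyD0)
  have hα0 : algebraMap Dn (Localization.Away yD) αD ≠ 0 := by
    intro h
    have h1 : αD = 0 := hT (by rw [h, map_zero])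
    exact hαq (h1 ▸ zero_mem _)
  have hinjE := hE.inj hα0
  have hh0 : algebraMap (Localization.Away yD) E (algebraMap Dn _ h') ≠ 0 := by
    intro h
    have h1 : h' = 0 := hT (hinjE (by rw [h, map_zero, map_zero]))
    exact hh' (h1 ▸ zero_mem _)
  have hkk : k' = k := HB_unique hh0 hF0 H' hHB
  subst hkk
  -- the change of coordinates
  have hf2 : MvPowerSeries.map (residue A₀) ((blockE A₀ n).symm h') ≠ 0 := by
    intro h
    rw [← mem_map_maxC] at h
    apply hh'
    have h1 := Ideal.mem_map_of_mem (blockE A₀ n : MvPowerSeries (Fin (n + 1)) A₀ →+* Dn) h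
    have h2 : (blockE A₀ n : MvPowerSeries (Fin (n + 1)) A₀ →+* Dn) ((blockE A₀ n).symm h') =
      h' := RingEquiv.apply_symm_apply _ _
    rw [h2, Ideal.map_map] at h1
    show h' ∈ ((maximalIdeal A₀).map (PowerSeries.C (R := A₀))).map
      (MvPowerSeries.C (σ := Fin n) (R := D))
    rw [Ideal.map_map]
    have h3 : (blockE A₀ n : MvPowerSeries (Fin (n + 1)) A₀ →+* Dn).comp
        (MvPowerSeries.C (σ := Fin (n + 1)) (R := A₀)) =
        (MvPowerSeries.C (σ := Fin n) (R := D)).comp (PowerSeries.C (R := A₀)) := by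
      ext1 a
      exact blockE_C n a
    rwa [h3] at h1
  obtain ⟨τ, hτC, hτX, hτ⟩ := exists_auto' n ((blockE A₀ n).symm h') hf2
  let ψ : Dn ≃+* PowerSeries A := (blockE A₀ n).symm.trans
    (τ.trans (MvPowerSeries.finSuccEquiv A₀ n).toRingEquiv)
  have hψ : ∀ f, ψ f = MvPowerSeries.finSuccEquiv A₀ n (τ ((blockE A₀ n).symm f)) := fun f => rfl
  have hψC : ∀ a : A₀, ψ (MvPowerSeries.C (PowerSeries.C a)) =
      PowerSeries.C (MvPowerSeries.C a) := by
    intro a
    rw [hψ, ← blockE_C, RingEquiv.symm_apply_apply, hτC, MvPowerSeries.finSuccEquiv_C]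
  have hψX : ψ αD = PowerSeries.X := by
    show ψ (MvPowerSeries.C PowerSeries.X) = PowerSeries.X
    rw [hψ, ← blockE_X, RingEquiv.symm_apply_apply, hτX, MvPowerSeries.finSuccEquiv_X_zero]
  -- the prime ideal of `A`
  let 𝔭 : Ideal A := (maximalIdeal A₀).map (MvPowerSeries.C (σ := Fin n) (R := A₀))
  have h𝔭 : 𝔭.IsPrime := prime_mapC _ n
  have hm' : 𝔭 = Ideal.span {MvPowerSeries.C y, MvPowerSeries.C γ, MvPowerSeries.C b} := by
    show (maximalIdeal A₀).map (MvPowerSeries.C (σ := Fin n) (R := A₀)) = _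
    rw [hm, Ideal.map_span, Set.image_insert_eq, Set.image_insert_eq, Set.image_singleton]
  have j1 : (Ideal.span {γ}).map (MvPowerSeries.C (σ := Fin n) (R := A₀)) =
      Ideal.span {MvPowerSeries.C γ} := by
    rw [Ideal.map_span, Set.image_singleton]
  have j2 : (Ideal.span {y, γ}).map (MvPowerSeries.C (σ := Fin n) (R := A₀)) =
      Ideal.span {MvPowerSeries.C γ, MvPowerSeries.C y} := by
    rw [Ideal.map_span, Set.image_insert_eq, Set.image_singleton, Set.pair_comm]
  have q1 : (Ideal.span {(MvPowerSeries.C γ : A)}).IsPrime := j1 ▸ prime_mapC _ n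
  have q2 : (Ideal.span {(MvPowerSeries.C γ : A), MvPowerSeries.C y}).IsPrime :=
    j2 ▸ prime_mapC _ n
  obtain ⟨h₂, hh₂, H₂⟩ := node_local' 𝔭 (MvPowerSeries.C y) (MvPowerSeries.C γ)
    (MvPowerSeries.C b) hm' q1 q2
    (fun h => hγp.ne_zero (MvPowerSeries.C_injective (by rw [h, map_zero])))
    (fun h => hy0 (MvPowerSeries.C_injective (by rw [h, map_zero])))
    (by
      rw [← j1]
      exact fun h => hyγ (C_mem_mapD _ _ h))
    (by
      rw [← j2]
      exact fun h => hb2 (C_mem_mapD _ _ h))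
    ψ yD αD γD (hψC y) hψX (hψC γ) c hE P' k' F₀ hF₀ hF₁ hHB h' hτ H'
  have hd : MvPowerSeries.map (residue D) (ψ.symm (PowerSeries.C h₂)) ≠ 0 := by
    intro h
    rw [← mem_map_maxC] at h
    let χ : Dn →+* A := (PowerSeries.constantCoeff (R := A)).comp (ψ : Dn →+* PowerSeries A)
    have h1 : (maximalIdeal D).map (MvPowerSeries.C (σ := Fin n) (R := D)) ≤ 𝔭.comap χ := by
      rw [Ideal.map_le_iff_le_comap]
      intro g hg
      have h2 : PowerSeries.X ∣ g - PowerSeries.C (PowerSeries.constantCoeff g) := by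
        rw [PowerSeries.X_dvd_iff, map_sub, PowerSeries.constantCoeff_C, sub_self]
      obtain ⟨w, hw⟩ := h2
      have h3 : g = PowerSeries.X * w + PowerSeries.C (PowerSeries.constantCoeff g) := by
        rw [← hw]; ring
      rw [Ideal.mem_comap, Ideal.mem_comap]
      show PowerSeries.constantCoeff (ψ (MvPowerSeries.C g)) ∈ 𝔭
      rw [h3, map_add, map_mul, map_add, map_mul, hψC]
      have h4 : ψ (MvPowerSeries.C PowerSeries.X) = PowerSeries.X := hψX
      rw [h4, map_add, map_mul, PowerSeries.constantCoeff_X, zero_mul, zero_add,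
        PowerSeries.constantCoeff_C]
      exact Ideal.mem_map_of_mem _ (ps_max g hg)
    have h2 := h1 h
    rw [Ideal.mem_comap] at h2
    have h3 : χ (ψ.symm (PowerSeries.C h₂)) = h₂ := by
      show PowerSeries.constantCoeff (ψ (ψ.symm (PowerSeries.C h₂))) = h₂
      rw [RingEquiv.apply_symm_apply, PowerSeries.constantCoeff_C]
    rw [h3] at h2
    exact hh₂ h2
  refine ⟨ψ.symm (PowerSeries.C h₂), hd, hback _ (fun h => hd ?_) H₂⟩
  rw [h, map_zero]

end Pool.Agent.QU54.BH
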