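import Mathlib
import Pool.Agent.Lib.QU54.NodeK
import Pool.Agent.Lib.QU54.NodeL

/-!
# Parameters for the chain
-/

set_option autoImplicit false

namespace Pool.Agent.QU54.BH

universe u

open Polynomial Pool.Agent.QU53 IsLocalRing

/-- Evaluation at a point of the maximal ideal. -/
theorem exists_ev {A : Type u} [CommRing A] [IsNoetherianRing A] [IsLocalRing A]
    [IsAdicComplete (maximalIdeal A) A] (β : A) (hβ : β ∈ maximalIdeal A) :
    ∃ ev : PowerSeries A →+* A, (∀ a, ev (PowerSeries.C a) = a) ∧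
      ev (PowerSeries.X - PowerSeries.C β) = 0 ∧
      ∀ f, ev f = 0 → (PowerSeries.X - PowerSeries.C β) ∣ f := by
  let I : Ideal (PowerSeries A) := Ideal.span {PowerSeries.X - PowerSeries.C β}
  let φ : A →+* PowerSeries A ⧸ I := (Ideal.Quotient.mk I).comp (PowerSeries.C (R := A))
  have hinj : Function.Injective φ := by
    rw [injective_iff_map_eq_zero]
    intro a ha
    have h1 : PowerSeries.C a ∈ I := Ideal.Quotient.eq_zero_iff_mem.1 ha
    obtain ⟨w, hw⟩ := Ideal.mem_span_singleton.1 h1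
    have h2 : ∀ n, PowerSeries.coeff n w = β * PowerSeries.coeff (n + 1) w := by
      intro n
      have h3 := congrArg (PowerSeries.coeff (n + 1)) hw
      rw [sub_mul, map_sub, PowerSeries.coeff_succ_X_mul, PowerSeries.coeff_C_mul,
        PowerSeries.coeff_C, if_neg (Nat.succ_ne_zero n)] at h3
      exact (sub_eq_zero.1 h3.symm)
    have h3 : ∀ n, PowerSeries.coeff 0 w = β ^ n * PowerSeries.coeff n w := by
      intro n
      induction n with
      | zero => rw [pow_zero, one_mul]
      | succ n ih => rw [ih, h2 n, pow_succ]; ring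
    have h4 : PowerSeries.coeff 0 w = 0 := by
      have h5 : PowerSeries.coeff 0 w ∈ ⨅ j, (maximalIdeal A) ^ j := by
        rw [Ideal.mem_iInf]
        intro j
        rw [h3 j]
        exact Ideal.mul_mem_right _ _ (Ideal.pow_mem_pow hβ j)
      rw [Ideal.iInf_pow_eq_bot_of_isLocalRing _ (Ideal.IsPrime.ne_top inferInstance)] at h5
      exact h5
    have h5 := congrArg (PowerSeries.coeff 0) hw
    rw [sub_mul, map_sub, PowerSeries.coeff_C_mul, h4, mul_zero, PowerSeries.coeff_zero_X_mul,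
      sub_zero, PowerSeries.coeff_C, if_pos rfl] at h5
    exact h5
  have hg : PowerSeries.map (residue A) (PowerSeries.X - PowerSeries.C β) = PowerSeries.X := by
    rw [map_sub, PowerSeries.map_X, PowerSeries.map_C, (residue_eq_zero_iff β).2 hβ, map_zero,
      sub_zero]
  have hdiv : ∀ f : PowerSeries A, ∃ (q : PowerSeries A) (r : A),
      f = (PowerSeries.X - PowerSeries.C β) * q + PowerSeries.C r := by
    intro f
    obtain ⟨q, r, h1, h2⟩ := PowerSeries.exists_isWeierstrassDivision (f := f)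
      (g := PowerSeries.X - PowerSeries.C β) (by rw [hg]; exact PowerSeries.X_ne_zero)
    have h3 : (PowerSeries.map (residue A) (PowerSeries.X - PowerSeries.C β)).order.toNat = 1 := by
      rw [hg, PowerSeries.order_X]
      rfl
    have h4 : r.degree < 1 := by
      have h5 := h1
      change r.degree < ((PowerSeries.map (residue A)
        (PowerSeries.X - PowerSeries.C β)).order.toNat : WithBot ℕ) at h5
      rw [h3] at h5
      exact_mod_cast h5
    refine ⟨q, r.coeff 0, ?_⟩
    have h5 : r = Polynomial.C (r.coeff 0) := by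
      refine Polynomial.eq_C_of_degree_le_zero ?_
      exact Order.le_of_lt_succ h4
    rw [h2]
    conv_lhs => rw [h5, Polynomial.coe_C]
  have hsurj : Function.Surjective φ := by
    intro z
    obtain ⟨f, rfl⟩ := Ideal.Quotient.mk_surjective z
    obtain ⟨q, r, rfl⟩ := hdiv f
    refine ⟨r, ?_⟩
    show Ideal.Quotient.mk I (PowerSeries.C r) = _
    rw [Ideal.Quotient.eq]
    have h1 : PowerSeries.C r - ((PowerSeries.X - PowerSeries.C β) * q + PowerSeries.C r) =
        (PowerSeries.X - PowerSeries.C β) * (-q) := by ring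
    rw [h1]
    exact Ideal.mul_mem_right _ _ (Ideal.mem_span_singleton_self _)
  let e : A ≃+* PowerSeries A ⧸ I := RingEquiv.ofBijective φ ⟨hinj, hsurj⟩
  refine ⟨(e.symm : PowerSeries A ⧸ I →+* A).comp (Ideal.Quotient.mk I), fun a => ?_, ?_, ?_⟩
  · exact e.symm_apply_apply a
  · show e.symm (Ideal.Quotient.mk I (PowerSeries.X - PowerSeries.C β)) = 0
    rw [Ideal.Quotient.eq_zero_iff_mem.2 (Ideal.mem_span_singleton_self _), map_zero]
  · intro f hf
    have h1 : e.symm (Ideal.Quotient.mk I f) = 0 := hf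
    rw [map_eq_zero_iff e.symm e.symm.injective, Ideal.Quotient.eq_zero_iff_mem,
      Ideal.mem_span_singleton] at h1
    exact h1

theorem ev_dec {A : Type u} [CommRing A] {β : A} (ev : PowerSeries A →+* A)
    (h1 : ∀ a, ev (PowerSeries.C a) = a)
    (h3 : ∀ f, ev f = 0 → (PowerSeries.X - PowerSeries.C β) ∣ f) (f : PowerSeries A) :
    ∃ w, f = (PowerSeries.X - PowerSeries.C β) * w + PowerSeries.C (ev f) := by
  obtain ⟨w, hw⟩ := h3 (f - PowerSeries.C (ev f)) (by rw [map_sub, h1, sub_self])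
  exact ⟨w, by rw [← hw]; ring⟩

/-- Parameters at a centre. -/
theorem ev_params {A : Type u} [CommRing A] [IsLocalRing A] (y β : A)
    (hβ : β ∈ maximalIdeal A) (ev : PowerSeries A →+* A) (h1 : ∀ a, ev (PowerSeries.C a) = a)
    (h3 : ∀ f, ev f = 0 → (PowerSeries.X - PowerSeries.C β) ∣ f) (γ : PowerSeries A)
    (hγ : γ ∈ maximalIdeal (PowerSeries A))
    (hγ2 : γ ∉ maximalIdeal (PowerSeries A) ^ 2 ⊔
      Ideal.span {PowerSeries.C y, PowerSeries.X - PowerSeries.C β}) :
    ev γ ∈ maximalIdeal A ∧ ev γ ∉ maximalIdeal A ^ 2 ⊔ Ideal.span {y} := by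
  obtain ⟨w, hw⟩ := ev_dec ev h1 h3 γ
  have hXβ : PowerSeries.X - PowerSeries.C β ∈ maximalIdeal (PowerSeries A) :=
    sub_mem (ps_X_mem A) (ps_C_mem β hβ)
  constructor
  · have h2 : PowerSeries.C (ev γ) ∈ maximalIdeal (PowerSeries A) := by
      have h4 : PowerSeries.C (ev γ) = γ - (PowerSeries.X - PowerSeries.C β) * w := by
        conv_rhs => rw [hw]
        ring
      rw [h4]
      exact sub_mem hγ (Ideal.mul_mem_right _ _ hXβ)
    have h5 := ps_max _ h2
    rwa [PowerSeries.constantCoeff_C] at h5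
  · intro h
    apply hγ2
    rw [hw]
    refine add_mem (Ideal.mem_sup_right (Ideal.mul_mem_right _ _ (Ideal.subset_span (by simp)))) ?_
    obtain ⟨s, hs, t, ht, hst⟩ := Submodule.mem_sup.1 h
    obtain ⟨r, rfl⟩ := Ideal.mem_span_singleton'.1 ht
    rw [← hst, map_add, map_mul]
    refine add_mem (Ideal.mem_sup_left ?_) (Ideal.mem_sup_right (Ideal.mul_mem_left _ _
      (Ideal.subset_span (by simp))))
    have h6 := Ideal.mem_map_of_mem (PowerSeries.C (R := A)) hs
    rw [Ideal.map_pow] at h6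
    refine Ideal.pow_right_mono ?_ 2 h6
    rw [Ideal.map_le_iff_le_comap]
    exact fun a ha => ps_C_mem a ha

theorem node_Xβ {A : Type u} [CommRing A] [IsLocalRing A] (y β : A) (hy : y ∈ maximalIdeal A) :
    (PowerSeries.X - PowerSeries.C β : PowerSeries A) ∉ maximalIdeal (PowerSeries A) ^ 2 ⊔
      Ideal.span {PowerSeries.C y} := by
  intro h
  obtain ⟨s, hs, t, ht, hst⟩ := Submodule.mem_sup.1 h
  obtain ⟨w, rfl⟩ := Ideal.mem_span_singleton'.1 ht
  have h1 := congrArg (PowerSeries.coeff 1) hst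
  rw [map_add, PowerSeries.coeff_mul_C, map_sub, PowerSeries.coeff_one_X, PowerSeries.coeff_C,
    if_neg one_ne_zero, sub_zero] at h1
  have h2 : (1 : A) ∈ maximalIdeal A := by
    rw [← h1]
    exact add_mem (ps_coeff_one_mem s hs) (Ideal.mul_mem_left _ _ hy)
  exact (Ideal.ne_top_iff_one _).1 (Ideal.IsPrime.ne_top inferInstance) h2

/-- Coordinate changes and power series in the first variable. -/
theorem psi_ps {A : Type u} [CommRing A] (n : ℕ)
    (ψ : MvPowerSeries (Fin n) (PowerSeries A) ≃+* PowerSeries (MvPowerSeries (Fin n) A))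
    (hC : ∀ a : A, ψ (MvPowerSeries.C (PowerSeries.C a)) = PowerSeries.C (MvPowerSeries.C a))
    (hX : ψ (MvPowerSeries.C PowerSeries.X) = PowerSeries.X) (f : PowerSeries A) :
    ψ (MvPowerSeries.C f) =
      PowerSeries.map (MvPowerSeries.C (σ := Fin n) (R := A)) f := by
  have h1 : ∀ (N : ℕ) (f : PowerSeries A), ∃ g, ψ (MvPowerSeries.C f) -
      PowerSeries.map (MvPowerSeries.C (σ := Fin n) (R := A)) f = PowerSeries.X ^ N * g := by
    intro N
    induction N with
    | zero => exact fun f => ⟨_, by rw [pow_zero, one_mul]⟩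
    | succ N ih =>
      intro f
      have h2 := PowerSeries.eq_X_mul_shift_add_const f
      set f' := PowerSeries.mk fun p => PowerSeries.coeff (p + 1) f with hf'
      obtain ⟨g, hg⟩ := ih f'
      refine ⟨g, ?_⟩
      have h3 : ψ (MvPowerSeries.C f) - PowerSeries.map (MvPowerSeries.C (σ := Fin n) (R := A)) f =
          PowerSeries.X * (ψ (MvPowerSeries.C f') -
            PowerSeries.map (MvPowerSeries.C (σ := Fin n) (R := A)) f') := by
        conv_lhs => rw [h2]
        rw [map_add, map_mul, map_add, map_mul, hC, hX, map_add, map_mul, PowerSeries.map_X,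
          PowerSeries.map_C]
        ring
      rw [h3, hg, pow_succ]
      ring
  rw [← sub_eq_zero]
  ext1 m
  obtain ⟨g, hg⟩ := h1 (m + 1) f
  rw [hg, map_zero]
  rw [PowerSeries.coeff_X_pow_mul', if_neg (by omega)]

/-- The prime ideals of the blow-up. -/
theorem blow_primes' {D : Type u} [CommRing D] [IsRegularLocalRing D]
    [IsAdicComplete (maximalIdeal D) D] (hd : ringKrullDim D = 4) (y α γ : D)
    (hy : y ∈ maximalIdeal D) (hy2 : y ∉ maximalIdeal D ^ 2)
    (hα : α ∈ maximalIdeal D) (hα2 : α ∉ maximalIdeal D ^ 2 ⊔ Ideal.span {y})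
    (hγ : γ ∈ maximalIdeal D) (hγ2 : γ ∉ maximalIdeal D ^ 2 ⊔ Ideal.span {y, α})
    (h₁ : D) :
    ∃ β : D, (Ideal.span {Ideal.Quotient.mk (blowIdeal (α * h₁) γ) (PowerSeries.C y)}).IsPrime ∧
      (Ideal.span {Ideal.Quotient.mk (blowIdeal (α * h₁) γ) (PowerSeries.C y),
        Ideal.Quotient.mk (blowIdeal (α * h₁) γ) (PowerSeries.C α)}).IsPrime ∧
      ((maximalIdeal D).map (PowerSeries.C (R := D))).map (Ideal.Quotient.mk (blowIdeal (α * h₁) γ)) =
        Ideal.span {Ideal.Quotient.mk (blowIdeal (α * h₁) γ) (PowerSeries.C y),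
          Ideal.Quotient.mk (blowIdeal (α * h₁) γ) (PowerSeries.C α),
          Ideal.Quotient.mk (blowIdeal (α * h₁) γ) (PowerSeries.C β)} ∧
      (((maximalIdeal D).map (PowerSeries.C (R := D))).map
        (Ideal.Quotient.mk (blowIdeal (α * h₁) γ))).IsPrime ∧
      Ideal.Quotient.mk (blowIdeal (α * h₁) γ) (PowerSeries.C y) ≠ 0 ∧
      Ideal.Quotient.mk (blowIdeal (α * h₁) γ) (PowerSeries.C α) ∉
        Ideal.span {Ideal.Quotient.mk (blowIdeal (α * h₁) γ) (PowerSeries.C y)} ∧
      Ideal.Quotient.mk (blowIdeal (α * h₁) γ) (PowerSeries.C β) ∉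
        Ideal.span {Ideal.Quotient.mk (blowIdeal (α * h₁) γ) (PowerSeries.C y),
          Ideal.Quotient.mk (blowIdeal (α * h₁) γ) (PowerSeries.C α)} := by
  classical
  have hdomD : IsDomain D := BEH5.Reg.isDomain_of_regular 4 D (by exact_mod_cast hd)
  obtain ⟨pr2, pr3, hy3, hα3, hγp, hγα, hγy, β, hβ, hm, hβ3⟩ :=
    params hd y α γ hy hy2 hα hα2 hγ hγ2
  have hγ3 : γ ∉ maximalIdeal D ^ 2 ⊔ Ideal.span {y, α * h₁} := by
    have h1 : Ideal.span {y, α * h₁} ≤ Ideal.span {y, α} := by
      rw [Ideal.span_le]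
      rintro z (rfl | rfl)
      · exact Ideal.subset_span (by simp)
      · exact Ideal.mul_mem_right _ _ (Ideal.subset_span (by simp))
    exact fun h => hγ2 (sup_le_sup_left h1 _ h)
  obtain ⟨hreg, hcomp, hdim, hyM, hyM2⟩ := blow_ring (d := 3) (by exact_mod_cast hd) y (α * h₁) γ
    hy hy2 (Ideal.mul_mem_right _ _ hα) hγ hγ3
  have hRd : IsDomain (Blow (α * h₁) γ) := BEH5.Reg.isDomain_of_regular 4 _ (by exact_mod_cast hdim)
  have hfg : ∀ I : Ideal D, I.FG := fun I => (isNoetherianRing_iff_ideal_fg D).1 inferInstance I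
  let Q : PowerSeries D →+* Blow (α * h₁) γ := Ideal.Quotient.mk (blowIdeal (α * h₁) γ)
  have hQs : Function.Surjective Q := Ideal.Quotient.mk_surjective
  have hkQ : ∀ I : Ideal D, α ∈ I → γ ∈ I → RingHom.ker Q ≤ I.map (PowerSeries.C (R := D)) := by
    intro I h1 h2
    rw [Ideal.mk_ker, blowIdeal, Ideal.span_singleton_le_iff_mem]
    exact sub_mem (Ideal.mem_map_of_mem _ h2) (Ideal.mul_mem_left _ _ (Ideal.mem_map_of_mem _
      (I.mul_mem_right _ h1)))
  have hrel : Q (PowerSeries.C γ) = Q (PowerSeries.X * PowerSeries.C h₁) *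
      Q (PowerSeries.C α) := by
    rw [← map_mul, ← sub_eq_zero, ← map_sub]
    refine Ideal.Quotient.eq_zero_iff_mem.2 ?_
    have h1 : PowerSeries.C γ - PowerSeries.X * PowerSeries.C h₁ * PowerSeries.C α =
        PowerSeries.C γ - PowerSeries.X * PowerSeries.C (α * h₁) := by
      rw [map_mul]; ring
    rw [h1]
    exact Ideal.mem_span_singleton_self _
  -- `y` is prime in the blow-up
  have hy0 : Q (PowerSeries.C y) ≠ 0 := by
    intro h
    apply hyM2
    show Q (PowerSeries.C y) ∈ _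
    rw [h]
    exact zero_mem _
  have P1 : (Ideal.span {Q (PowerSeries.C y)}).IsPrime := by
    obtain ⟨hr, hd3⟩ := BEH5.Reg.quot_regular (n := 3) hdim hyM hyM2
    have := BEH5.Reg.isDomain_of_regular 3 _ hd3
    exact (Ideal.Quotient.isDomain_iff_prime _).1 this
  -- `(y, α)` is prime
  have k2 : ((Ideal.span {α, γ, y}).map (PowerSeries.C (R := D))).map Q =
      Ideal.span {Q (PowerSeries.C y), Q (PowerSeries.C α)} := by
    rw [Ideal.map_span, Ideal.map_span]
    apply le_antisymm
    · rw [Ideal.span_le]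
      rintro _ ⟨_, ⟨z, hz, rfl⟩, rfl⟩
      rcases hz with rfl | rfl | rfl
      · exact Ideal.subset_span (by simp)
      · rw [hrel]
        exact Ideal.mul_mem_left _ _ (Ideal.subset_span (by simp))
      · exact Ideal.subset_span (by simp)
    · rw [Ideal.span_le]
      rintro z hz
      rcases hz with rfl | rfl
      · exact Ideal.subset_span ⟨_, ⟨y, by simp, rfl⟩, rfl⟩
      · exact Ideal.subset_span ⟨_, ⟨α, by simp, rfl⟩, rfl⟩
  have k3 : ((maximalIdeal D).map (PowerSeries.C (R := D))).map Q =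
      Ideal.span {Q (PowerSeries.C y), Q (PowerSeries.C α), Q (PowerSeries.C β)} := by
    rw [hm, Ideal.map_span, Ideal.map_span]
    apply le_antisymm
    · rw [Ideal.span_le]
      rintro _ ⟨_, ⟨z, hz, rfl⟩, rfl⟩
      rcases hz with rfl | rfl | rfl | rfl
      · exact Ideal.subset_span (by simp)
      · rw [hrel]
        exact Ideal.mul_mem_left _ _ (Ideal.subset_span (by simp))
      · exact Ideal.subset_span (by simp)
      · exact Ideal.subset_span (by simp)
    · rw [Ideal.span_le]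
      rintro z hz
      rcases hz with rfl | rfl | rfl
      · exact Ideal.subset_span ⟨_, ⟨y, by simp, rfl⟩, rfl⟩
      · exact Ideal.subset_span ⟨_, ⟨α, by simp, rfl⟩, rfl⟩
      · exact Ideal.subset_span ⟨_, ⟨β, by simp, rfl⟩, rfl⟩
  have hp3 : ((Ideal.span {α, γ, y}).map (PowerSeries.C (R := D))).IsPrime :=
    ps_prime_mapC _ (hfg _)
  have hpm : ((maximalIdeal D).map (PowerSeries.C (R := D))).IsPrime :=
    ps_prime_mapC _ (hfg _)
  have kα : ∀ I : Ideal D, α ∈ I → γ ∈ I → ∀ f : PowerSeries D,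
      Q f ∈ (I.map (PowerSeries.C (R := D))).map Q → f ∈ I.map (PowerSeries.C (R := D)) := by
    intro I h1 h2 f hf
    rw [← Ideal.mem_comap, Ideal.comap_map_of_surjective _ hQs, ← RingHom.ker_eq_comap_bot,
      sup_eq_left.2 (hkQ I h1 h2)] at hf
    exact hf
  have hαm : α ∈ Ideal.span {α, γ, y} := Ideal.subset_span (by simp)
  have hγm : γ ∈ Ideal.span {α, γ, y} := Ideal.subset_span (by simp)
  have P2 : (Ideal.span {Q (PowerSeries.C y), Q (PowerSeries.C α)}).IsPrime := by
    rw [← k2]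
    exact Ideal.map_isPrime_of_surjective hQs (hkQ _ hαm hγm)
  have P3 : (((maximalIdeal D).map (PowerSeries.C (R := D))).map Q).IsPrime :=
    Ideal.map_isPrime_of_surjective hQs (hkQ _ hα hγ)
  have n1 : Q (PowerSeries.C α) ∉ Ideal.span {Q (PowerSeries.C y)} := by
    intro h
    obtain ⟨w, hw⟩ := Ideal.mem_span_singleton.1 h
    obtain ⟨w, rfl⟩ := hQs w
    rw [← map_mul, Ideal.Quotient.eq, blowIdeal, Ideal.mem_span_singleton] at hw
    obtain ⟨z, hz⟩ := hw
    have h1 := congrArg PowerSeries.constantCoeff hz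
    apply hα3
    refine Ideal.mem_span_pair.2 ⟨PowerSeries.constantCoeff w, PowerSeries.constantCoeff z, ?_⟩
    simp only [map_sub, map_mul, PowerSeries.constantCoeff_C, PowerSeries.constantCoeff_X,
      zero_mul, sub_zero] at h1
    linear_combination -h1
  have n2 : Q (PowerSeries.C β) ∉ Ideal.span {Q (PowerSeries.C y), Q (PowerSeries.C α)} := by
    rw [← k2]
    exact fun h => hβ3 (ps_C_mem_mapC _ (hfg _) _ (kα _ hαm hγm _ h))
  exact ⟨β, P1, P2, k3, P3, hy0, n1, n2⟩

end Pool.Agent.QU54.BH
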