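import Mathlib
import Pool.Agent.Lib.QU54.ChainC
import Pool.Agent.Lib.QU54.ChainK
import Pool.Agent.Lib.QU54.ChainJ

/-!
# The centres over the generic point of the special fibre
-/

set_option autoImplicit false

namespace Pool.Agent.QU54.BH

universe u

open Polynomial Pool.Agent.QU53 IsLocalRing

/-- No element of the multiplicative set is divisible by `γ`. -/
theorem not_dvd_mon {A : Type u} [CommRing A] [IsDomain A] (𝔭 : Ideal A) [𝔭.IsPrime] (y : A)
    (γ : PowerSeries A) (ev : PowerSeries A →+* A) (hev : ∀ a : A, ev (PowerSeries.C a) = a)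
    (hp : Prime (ev γ)) (hm : ev γ ∈ 𝔭) (hy : ¬ ev γ ∣ y) (s : A) (hs : s ∈ mon 𝔭 y) :
    ¬ γ ∣ PowerSeries.C s := by
  rintro ⟨w, hw⟩
  have h1 := congrArg ev hw
  rw [hev, map_mul] at h1
  obtain ⟨s₀, hs₀, z, ⟨i, hi⟩, hsz⟩ := Submonoid.mem_sup.1 hs
  have hi' : y ^ i = z := hi
  have h2 : ev γ ∣ s₀ * y ^ i := by
    rw [hi', hsz, h1]
    exact dvd_mul_right _ _
  rcases hp.dvd_or_dvd h2 with h3 | h3
  · obtain ⟨v, hv⟩ := h3
    apply hs₀
    rw [hv]
    exact 𝔭.mul_mem_right _ hm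
  · exact hy (hp.dvd_of_dvd_pow h3)

theorem prime_NT {A : Type u} [CommRing A] [IsDomain A] (𝔭 : Ideal A) [𝔭.IsPrime] (y : A)
    (γ : PowerSeries A) (hγ : Prime γ)
    (h : ∀ s ∈ mon 𝔭 y, ¬ γ ∣ PowerSeries.C s)
    (hinj : Function.Injective (algebraMap (PowerSeries A) (NT 𝔭 y))) :
    Prime (algebraMap (PowerSeries A) (NT 𝔭 y) γ) := by
  have h1 : (Ideal.span {γ}).IsPrime := (Ideal.span_singleton_prime hγ.ne_zero).2 hγ
  have h2 : Disjoint (((mon 𝔭 y).map (PowerSeries.C (R := A)) : Submonoid (PowerSeries A)) :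
      Set (PowerSeries A)) (Ideal.span {γ} : Ideal (PowerSeries A)) := by
    rw [Set.disjoint_left]
    rintro _ ⟨s, hs, rfl⟩ hx
    exact h s hs (Ideal.mem_span_singleton.1 hx)
  have h3 := IsLocalization.isPrime_of_isPrime_disjoint
    ((mon 𝔭 y).map (PowerSeries.C (R := A))) (NT 𝔭 y) _ h1 h2
  rw [Ideal.map_span, Set.image_singleton] at h3
  refine (Ideal.span_singleton_prime ?_).1 h3
  intro h0
  exact hγ.ne_zero (hinj (by rw [h0, map_zero]))

theorem not_dvd_NT {A : Type u} [CommRing A] [IsDomain A] (𝔭 : Ideal A) [𝔭.IsPrime] (y β : A)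
    (γ : PowerSeries A) (ev : PowerSeries A →+* A)
    (hevβ : ev (PowerSeries.X - PowerSeries.C β) = 0)
    (hevk : ∀ f, ev f = 0 → (PowerSeries.X - PowerSeries.C β) ∣ f) (hγ0 : ev γ ≠ 0)
    (h : ∀ s ∈ mon 𝔭 y, ¬ γ ∣ PowerSeries.C s)
    (hinj : Function.Injective (algebraMap (PowerSeries A) (NT 𝔭 y))) :
    ¬ algebraMap (PowerSeries A) (NT 𝔭 y) γ ∣
      algebraMap (PowerSeries A) (NT 𝔭 y) (PowerSeries.X - PowerSeries.C β) := by
  rintro ⟨t, ht⟩
  obtain ⟨⟨w, ⟨_, s, hs, rfl⟩⟩, hw⟩ :=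
    IsLocalization.surj ((mon 𝔭 y).map (PowerSeries.C (R := A))) t
  have h1 : (PowerSeries.X - PowerSeries.C β) * PowerSeries.C s = γ * w := by
    apply hinj
    rw [map_mul, ht, map_mul, ← hw, mul_assoc]
  have h2 := congrArg ev h1
  rw [map_mul, map_mul, hevβ, zero_mul] at h2
  obtain ⟨v, rfl⟩ := hevk w ((mul_eq_zero.1 h2.symm).resolve_left hγ0)
  have h3 : (PowerSeries.X - PowerSeries.C β : PowerSeries A) ≠ 0 := by
    intro h0
    have h4 := congrArg (PowerSeries.coeff 1) h0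
    rw [map_sub, PowerSeries.coeff_one_X, PowerSeries.coeff_C, if_neg one_ne_zero, sub_zero,
      map_zero] at h4
    exact one_ne_zero h4
  refine h s hs ⟨v, mul_left_cancel₀ h3 ?_⟩
  rw [h1]
  ring

/-- The data at a centre, in power series over `A₀`. -/
theorem chain_centre {A₀ : Type u} [CommRing A₀] [IsRegularLocalRing A₀]
    [IsAdicComplete (maximalIdeal A₀) A₀] (hd : ringKrullDim A₀ = 3) (y : A₀)
    (hy : y ∈ maximalIdeal A₀) (hy2 : y ∉ maximalIdeal A₀ ^ 2) (γ : PowerSeries A₀)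
    (hγ : γ ∈ maximalIdeal (PowerSeries A₀)) (β : A₀) (hβ : β ∈ maximalIdeal A₀)
    (hγ2 : γ ∉ maximalIdeal (PowerSeries A₀) ^ 2 ⊔
      Ideal.span {PowerSeries.C y, PowerSeries.X - PowerSeries.C β}) (n : ℕ)
    [((maximalIdeal A₀).map (MvPowerSeries.C (σ := Fin n) (R := A₀))).IsPrime]
    (hγp : Prime (PowerSeries.map (MvPowerSeries.C (σ := Fin n) (R := A₀)) γ)) :
    Prime (algebraMap (PowerSeries (MvPowerSeries (Fin n) A₀))
      (NT ((maximalIdeal A₀).map (MvPowerSeries.C (σ := Fin n) (R := A₀))) (MvPowerSeries.C y))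
      (PowerSeries.map (MvPowerSeries.C (σ := Fin n) (R := A₀)) γ)) ∧
    (¬ algebraMap (PowerSeries (MvPowerSeries (Fin n) A₀))
      (NT ((maximalIdeal A₀).map (MvPowerSeries.C (σ := Fin n) (R := A₀))) (MvPowerSeries.C y))
      (PowerSeries.map (MvPowerSeries.C (σ := Fin n) (R := A₀)) γ) ∣
      algebraMap (PowerSeries (MvPowerSeries (Fin n) A₀))
      (NT ((maximalIdeal A₀).map (MvPowerSeries.C (σ := Fin n) (R := A₀))) (MvPowerSeries.C y))
      ((X - C (MvPowerSeries.C β) : (MvPowerSeries (Fin n) A₀)[X]) :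
        PowerSeries (MvPowerSeries (Fin n) A₀))) ∧
    Ctr (algebraMap (PowerSeries (MvPowerSeries (Fin n) A₀))
      (NT ((maximalIdeal A₀).map (MvPowerSeries.C (σ := Fin n) (R := A₀))) (MvPowerSeries.C y))
      ((X - C (MvPowerSeries.C β) : (MvPowerSeries (Fin n) A₀)[X]) :
        PowerSeries (MvPowerSeries (Fin n) A₀)))
      (algebraMap (PowerSeries (MvPowerSeries (Fin n) A₀))
      (NT ((maximalIdeal A₀).map (MvPowerSeries.C (σ := Fin n) (R := A₀))) (MvPowerSeries.C y))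
      (PowerSeries.map (MvPowerSeries.C (σ := Fin n) (R := A₀)) γ)) := by
  classical
  let A := MvPowerSeries (Fin n) A₀
  have hA₀d : IsDomain A₀ := BEH5.Reg.isDomain_of_regular 3 A₀ (by exact_mod_cast hd)
  have hAd : IsDomain A := isDomain_mv A₀ n
  have hAc : IsAdicComplete (maximalIdeal A) A := adicComplete_mvPowerSeries n
  have hAn : IsNoetherianRing A := inferInstance
  obtain ⟨ev₀, e1, e2, e3⟩ := exists_ev β hβ
  obtain ⟨hγ1, hγ3⟩ := ev_params y β hβ ev₀ e1 e3 γ hγ hγ2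
  obtain ⟨p1, p2, p3, hyγ, hγy, hγpr, b, hb0, hm, hb2⟩ := params3 hd y (ev₀ γ) hy hy2 hγ1 hγ3
  obtain ⟨ev, f1, f2, f3⟩ := exists_ev (A := A) (MvPowerSeries.C β) (C_mem_maxD β hβ n)
  let γ' : PowerSeries A := PowerSeries.map (MvPowerSeries.C (σ := Fin n) (R := A₀)) γ
  have hevγ : ev γ' = MvPowerSeries.C (ev₀ γ) := by
    obtain ⟨w, hw⟩ := ev_dec ev₀ e1 e3 γ
    show ev (PowerSeries.map (MvPowerSeries.C (σ := Fin n) (R := A₀)) γ) = _
    conv_lhs => rw [hw]
    rw [map_add, map_mul, map_sub, PowerSeries.map_X, PowerSeries.map_C, PowerSeries.map_C,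
      map_add, map_mul, f2, zero_mul, zero_add, f1]
  let 𝔭 : Ideal A := (maximalIdeal A₀).map (MvPowerSeries.C (σ := Fin n) (R := A₀))
  have hy0 : y ≠ 0 := fun h => hy2 (h ▸ zero_mem _)
  have hy0' : (MvPowerSeries.C y : A) ≠ 0 := fun h =>
    hy0 (MvPowerSeries.C_injective (by rw [h, map_zero]))
  have hm' : 𝔭 = Ideal.span {MvPowerSeries.C y, ev γ', MvPowerSeries.C b} := by
    rw [hevγ]
    show (maximalIdeal A₀).map (MvPowerSeries.C (σ := Fin n) (R := A₀)) = _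
    rw [hm, Ideal.map_span, Set.image_insert_eq, Set.image_insert_eq, Set.image_singleton]
  have j1 : (Ideal.span {ev₀ γ}).map (MvPowerSeries.C (σ := Fin n) (R := A₀)) =
      Ideal.span {ev γ'} := by
    rw [hevγ, Ideal.map_span, Set.image_singleton]
  have j2 : (Ideal.span {y, ev₀ γ}).map (MvPowerSeries.C (σ := Fin n) (R := A₀)) =
      Ideal.span {ev γ', MvPowerSeries.C y} := by
    rw [hevγ, Ideal.map_span, Set.image_insert_eq, Set.image_singleton, Set.pair_comm]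
  have q1 : (Ideal.span {ev γ'}).IsPrime := j1 ▸ prime_mapC _ n
  have q2 : (Ideal.span {ev γ', MvPowerSeries.C y}).IsPrime := j2 ▸ prime_mapC _ n
  have hev0 : ev γ' ≠ 0 := by
    rw [hevγ]
    exact fun h => hγpr.ne_zero (MvPowerSeries.C_injective (by rw [h, map_zero]))
  have hy1 : MvPowerSeries.C y ∉ Ideal.span {ev γ'} := by
    rw [← j1]
    exact fun h => hyγ (C_mem_mapD _ _ h)
  have hb1 : MvPowerSeries.C b ∉ Ideal.span {ev γ', MvPowerSeries.C y} := by
    rw [← j2]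
    exact fun h => hb2 (C_mem_mapD _ _ h)
  have hevp : Prime (ev γ') := (Ideal.span_singleton_prime hev0).1 q1
  have hevm : ev γ' ∈ 𝔭 := by
    rw [hm']
    exact Ideal.subset_span (by simp)
  have hM0 : (0 : A) ∉ mon 𝔭 (MvPowerSeries.C y) := by
    intro h
    obtain ⟨s, hs, z, ⟨i, hi⟩, hsz⟩ := Submonoid.mem_sup.1 h
    have hi' : (MvPowerSeries.C y : A) ^ i = z := hi
    rcases mul_eq_zero.1 hsz with h1 | h1
    · exact hs (h1 ▸ 𝔭.zero_mem)
    · rw [← hi'] at h1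
      exact pow_ne_zero i hy0' h1
  have hinj : Function.Injective (algebraMap (PowerSeries A) (NT 𝔭 (MvPowerSeries.C y))) := by
    refine IsLocalization.injective (M := (mon 𝔭 (MvPowerSeries.C y)).map
      (PowerSeries.C (R := A))) _ (le_nonZeroDivisors_of_noZeroDivisors ?_)
    rintro ⟨s, hs, hs0⟩
    have : s = 0 := PowerSeries.C_injective (by rw [map_zero]; exact hs0)
    exact hM0 (this ▸ hs)
  have hnd := not_dvd_mon 𝔭 (MvPowerSeries.C y) γ' ev f1 hevp hevm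
    (fun h => hy1 (Ideal.mem_span_singleton.2 h))
  have hcoe : ((X - C (MvPowerSeries.C β) : A[X]) : PowerSeries A) =
      PowerSeries.X - PowerSeries.C (MvPowerSeries.C β) := by
    rw [Polynomial.coe_sub, Polynomial.coe_X, Polynomial.coe_C]
  refine ⟨prime_NT 𝔭 _ γ' hγp hnd hinj, ?_, ?_⟩
  · rw [hcoe]
    exact not_dvd_NT 𝔭 _ _ γ' ev f2 f3 hev0 hnd hinj
  · rw [hcoe]
    exact node_ctr 𝔭 (MvPowerSeries.C y) (MvPowerSeries.C b) _ γ' ev f1 f2 f3 hm' q1 q2 hev0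
      hy1 hb1

end Pool.Agent.QU54.BH
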