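import Mathlib

/-!
# Splitting off a hyperbolic plane by successive approximation
-/

set_option autoImplicit false

namespace Pool.Agent.QU54.BH

universe u

open IsLocalRing

namespace ChainSp

theorem pow_le {R : Type u} [CommRing R] (I J : Ideal R) (N : ℕ) :
    (I ⊔ J) ^ (N + 1) ≤ I ^ (N + 1) ⊔ J * (I ⊔ J) ^ N := by
  induction N with
  | zero => simp
  | succ N ih =>
    calc (I ⊔ J) ^ (N + 1 + 1) = (I ⊔ J) * (I ⊔ J) ^ (N + 1) := pow_succ' _ _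
      _ = I * (I ⊔ J) ^ (N + 1) ⊔ J * (I ⊔ J) ^ (N + 1) := Ideal.sup_mul _ _ _
      _ ≤ I ^ (N + 1 + 1) ⊔ J * (I ⊔ J) ^ (N + 1) := by
        refine sup_le ?_ le_sup_right
        calc I * (I ⊔ J) ^ (N + 1) ≤ I * (I ^ (N + 1) ⊔ J * (I ⊔ J) ^ N) := Ideal.mul_mono_right ih
          _ = I * I ^ (N + 1) ⊔ I * (J * (I ⊔ J) ^ N) := Ideal.mul_sup _ _ _
          _ ≤ I ^ (N + 1 + 1) ⊔ J * (I ⊔ J) ^ (N + 1) := by
            refine sup_le ?_ ?_
            · rw [← pow_succ']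
              exact le_sup_left
            · rw [mul_left_comm, pow_succ' (I ⊔ J) N]
              exact le_sup_of_le_right (Ideal.mul_mono_right (Ideal.mul_mono_left le_sup_left))

variable {A R : Type u} [CommRing A] [IsLocalRing A] [CommRing R] [IsLocalRing R] (φ : A →+* R)

theorem map_part (hres : ∀ r : R, ∃ a : A, r - φ a ∈ maximalIdeal R)
    (hle : (maximalIdeal A).map φ ≤ maximalIdeal R) (N : ℕ) (e : R)
    (he : e ∈ (maximalIdeal A ^ N).map φ) :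
    ∃ δ ∈ maximalIdeal A ^ N, ∃ e' ∈ maximalIdeal R ^ (N + 1), e = φ δ + e' := by
  have hφ : ∀ a ∈ maximalIdeal A ^ N, φ a ∈ maximalIdeal R ^ N := by
    intro a ha
    have h1 : (maximalIdeal A ^ N).map φ ≤ maximalIdeal R ^ N := by
      rw [Ideal.map_pow]
      exact Ideal.pow_right_mono hle N
    exact h1 (Ideal.mem_map_of_mem φ ha)
  refine Submodule.span_induction (p := fun e _ => ∃ δ ∈ maximalIdeal A ^ N,
    ∃ e' ∈ maximalIdeal R ^ (N + 1), e = φ δ + e') ?_ ?_ ?_ ?_ he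
  · rintro _ ⟨a, ha, rfl⟩
    exact ⟨a, ha, 0, zero_mem _, by rw [add_zero]⟩
  · exact ⟨0, zero_mem _, 0, zero_mem _, by rw [map_zero, add_zero]⟩
  · rintro _ _ - - ⟨δ, hδ, e', he', rfl⟩ ⟨δ₂, hδ₂, e₂, he₂, rfl⟩
    exact ⟨δ + δ₂, add_mem hδ hδ₂, e' + e₂, add_mem he' he₂, by rw [map_add]; ring⟩
  · rintro r _ - ⟨δ, hδ, e', he', rfl⟩
    obtain ⟨b, hb⟩ := hres r
    refine ⟨b * δ, Ideal.mul_mem_left _ _ hδ, (r - φ b) * φ δ + r * e', ?_, ?_⟩
    · refine add_mem ?_ (Ideal.mul_mem_left _ _ he')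
      rw [pow_succ']
      exact Ideal.mul_mem_mul hb (hφ δ hδ)
    · rw [smul_eq_mul, map_mul]
      ring

theorem part (hres : ∀ r : R, ∃ a : A, r - φ a ∈ maximalIdeal R) (x₀ c₀ : R)
    (hm : maximalIdeal R = (maximalIdeal A).map φ ⊔ Ideal.span {x₀, c₀}) (N : ℕ) (e : R)
    (he : e ∈ maximalIdeal R ^ (N + 1)) :
    ∃ δ ∈ maximalIdeal A ^ (N + 1), ∃ s ∈ maximalIdeal R ^ N, ∃ t ∈ maximalIdeal R ^ N,
      ∃ e' ∈ maximalIdeal R ^ (N + 2), e = φ δ + x₀ * s + c₀ * t + e' := by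
  have hle : (maximalIdeal A).map φ ≤ maximalIdeal R := by
    rw [hm]
    exact le_sup_left
  have h1 : e ∈ ((maximalIdeal A).map φ) ^ (N + 1) ⊔ Ideal.span {x₀, c₀} * maximalIdeal R ^ N := by
    have h2 := pow_le ((maximalIdeal A).map φ) (Ideal.span {x₀, c₀}) N
    rw [← hm] at h2
    exact h2 he
  obtain ⟨e₁, he₁, e₂, he₂, rfl⟩ := Submodule.mem_sup.1 h1
  rw [← Ideal.map_pow] at he₁
  obtain ⟨δ, hδ, e', he', rfl⟩ := map_part φ hres hle (N + 1) e₁ he₁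
  rw [Ideal.span_insert, Ideal.sup_mul] at he₂
  obtain ⟨e₃, he₃, e₄, he₄, rfl⟩ := Submodule.mem_sup.1 he₂
  obtain ⟨s, hs, rfl⟩ := Ideal.mem_span_singleton_mul.1 he₃
  obtain ⟨t, ht, rfl⟩ := Ideal.mem_span_singleton_mul.1 he₄
  exact ⟨δ, hδ, s, hs, t, ht, e', he', by ring⟩

theorem step (hres : ∀ r : R, ∃ a : A, r - φ a ∈ maximalIdeal R) (x₀ c₀ : R)
    (hm : maximalIdeal R = (maximalIdeal A).map φ ⊔ Ideal.span {x₀, c₀}) (f : R) (k : ℕ)
    (g : A) (x c : R) (h : f - φ g - x * c ∈ maximalIdeal R ^ (k + 3))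
    (hx : x - x₀ ∈ maximalIdeal R ^ 2) (hc : c - c₀ ∈ maximalIdeal R ^ 2) :
    ∃ (g' : A) (x' c' : R), f - φ g' - x' * c' ∈ maximalIdeal R ^ (k + 1 + 3) ∧
      x' - x₀ ∈ maximalIdeal R ^ 2 ∧ c' - c₀ ∈ maximalIdeal R ^ 2 ∧
      g' - g ∈ maximalIdeal A ^ (k + 3) ∧ x' - x ∈ maximalIdeal R ^ (k + 2) ∧
      c' - c ∈ maximalIdeal R ^ (k + 2) := by
  obtain ⟨δ, hδ, s, hs, t, ht, e', he', he⟩ := part φ hres x₀ c₀ hm (k + 2) _ h
  have hp : ∀ {m n : ℕ}, n ≤ m → ∀ {z : R}, z ∈ maximalIdeal R ^ m → z ∈ maximalIdeal R ^ n :=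
    fun hmn _ hz => Ideal.pow_le_pow_right hmn hz
  refine ⟨g + δ, x + t, c + s, ?_, ?_, ?_, ?_, ?_, ?_⟩
  · have h1 : f - φ (g + δ) - (x + t) * (c + s) =
        e' - (x - x₀) * s - (c - c₀) * t - s * t := by
      rw [map_add]
      linear_combination he
    rw [h1]
    refine sub_mem (sub_mem (sub_mem ?_ ?_) ?_) ?_
    · exact hp (by omega) he'
    · exact hp (m := 2 + (k + 2)) (by omega) (by rw [pow_add]; exact Ideal.mul_mem_mul hx hs)
    · exact hp (m := 2 + (k + 2)) (by omega) (by rw [pow_add]; exact Ideal.mul_mem_mul hc ht)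
    · exact hp (m := (k + 2) + (k + 2)) (by omega) (by rw [pow_add]; exact Ideal.mul_mem_mul hs ht)
  · have h1 : x + t - x₀ = (x - x₀) + t := by ring
    rw [h1]
    exact add_mem hx (hp (by omega) ht)
  · have h1 : c + s - c₀ = (c - c₀) + s := by ring
    rw [h1]
    exact add_mem hc (hp (by omega) hs)
  · rw [add_sub_cancel_left]
    exact hδ
  · rw [add_sub_cancel_left]
    exact ht
  · rw [add_sub_cancel_left]
    exact hs

/-- Limits of sequences with `u (k + 1) - u k ∈ m ^ (k + 2)`. -/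
theorem lim {B : Type u} [CommRing B] (I : Ideal B) [IsAdicComplete I B] (u : ℕ → B)
    (hu : ∀ k, u (k + 1) - u k ∈ I ^ (k + 2)) :
    ∃ L : B, (∀ n, u n - L ∈ I ^ n) ∧ ∀ m n, m ≤ n → u n - u m ∈ I ^ (m + 2) := by
  have h1 : ∀ m n, m ≤ n → u n - u m ∈ I ^ (m + 2) := by
    intro m n hmn
    induction n, hmn using Nat.le_induction with
    | base => rw [sub_self]; exact zero_mem _
    | succ n hmn ih =>
      have h2 : u (n + 1) - u m = (u (n + 1) - u n) + (u n - u m) := by ring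
      rw [h2]
      exact add_mem (Ideal.pow_le_pow_right (by omega) (hu n)) ih
  obtain ⟨L, hL⟩ := IsPrecomplete.prec (IsAdicComplete.toIsPrecomplete (I := I) (M := B)) (f := u)
    (fun {m n} hmn => by
      rw [SModEq.sub_mem, smul_eq_mul, Ideal.mul_top]
      have h3 := h1 m n hmn
      rw [← neg_sub]
      exact neg_mem (Ideal.pow_le_pow_right (by omega) h3))
  refine ⟨L, fun n => ?_, h1⟩
  have h4 := hL n
  rwa [SModEq.sub_mem, smul_eq_mul, Ideal.mul_top] at h4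

end ChainSp

open ChainSp in
/-- ROW G1. Splitting off a hyperbolic plane. -/
theorem split_iter {A R : Type u} [CommRing A] [IsLocalRing A] [IsAdicComplete (maximalIdeal A) A]
    [CommRing R] [IsLocalRing R] [IsAdicComplete (maximalIdeal R) R] (φ : A →+* R)
    (hres : ∀ r : R, ∃ a : A, r - φ a ∈ maximalIdeal R) (x₀ c₀ : R)
    (hm : maximalIdeal R = (maximalIdeal A).map φ ⊔ Ideal.span {x₀, c₀}) (f : R) (g₀ : A)
    (hf : f - φ g₀ - x₀ * c₀ ∈ maximalIdeal R ^ 3) :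
    ∃ (g : A) (x c : R), g - g₀ ∈ maximalIdeal A ^ 3 ∧ x - x₀ ∈ maximalIdeal R ^ 2 ∧
      c - c₀ ∈ maximalIdeal R ^ 2 ∧ f = φ g + x * c := by
  let P : ℕ → A × R × R → Prop := fun k s => f - φ s.1 - s.2.1 * s.2.2 ∈ maximalIdeal R ^ (k + 3) ∧
    s.2.1 - x₀ ∈ maximalIdeal R ^ 2 ∧ s.2.2 - c₀ ∈ maximalIdeal R ^ 2
  have hstep : ∀ (k : ℕ) (s : {s // P k s}), ∃ s' : {s // P (k + 1) s},
      s'.1.1 - s.1.1 ∈ maximalIdeal A ^ (k + 3) ∧ s'.1.2.1 - s.1.2.1 ∈ maximalIdeal R ^ (k + 2) ∧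
      s'.1.2.2 - s.1.2.2 ∈ maximalIdeal R ^ (k + 2) := by
    rintro k ⟨⟨g, x, c⟩, h1, h2, h3⟩
    obtain ⟨g', x', c', h4, h5, h6, h7, h8, h9⟩ := step φ hres x₀ c₀ hm f k g x c h1 h2 h3
    exact ⟨⟨(g', x', c'), h4, h5, h6⟩, h7, h8, h9⟩
  choose nx hnx using hstep
  let sq : (k : ℕ) → {s // P k s} := fun k => Nat.rec
    (motive := fun k => {s // P k s}) ⟨(g₀, x₀, c₀), hf, by simp, by simp⟩ (fun k s => nx k s) k
  have hs : ∀ k, (sq (k + 1)).1.1 - (sq k).1.1 ∈ maximalIdeal A ^ (k + 3) ∧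
      (sq (k + 1)).1.2.1 - (sq k).1.2.1 ∈ maximalIdeal R ^ (k + 2) ∧
      (sq (k + 1)).1.2.2 - (sq k).1.2.2 ∈ maximalIdeal R ^ (k + 2) := fun k => hnx k (sq k)
  obtain ⟨g, hg, hg'⟩ := lim (maximalIdeal A) (fun k => (sq k).1.1)
    (fun k => Ideal.pow_le_pow_right (by omega) (hs k).1)
  obtain ⟨x, hx, hx'⟩ := lim (maximalIdeal R) (fun k => (sq k).1.2.1) (fun k => (hs k).2.1)
  obtain ⟨c, hc, hc'⟩ := lim (maximalIdeal R) (fun k => (sq k).1.2.2) (fun k => (hs k).2.2)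
  have hφ : ∀ n, ∀ a ∈ maximalIdeal A ^ n, φ a ∈ maximalIdeal R ^ n := by
    intro n a ha
    have h1 : (maximalIdeal A ^ n).map φ ≤ maximalIdeal R ^ n := by
      rw [Ideal.map_pow]
      refine Ideal.pow_right_mono ?_ n
      rw [hm]
      exact le_sup_left
    exact h1 (Ideal.mem_map_of_mem φ ha)
  have hg3 : ∀ n, (sq n).1.1 - g₀ ∈ maximalIdeal A ^ 3 := by
    intro n
    induction n with
    | zero => exact (show g₀ - g₀ ∈ maximalIdeal A ^ 3 by simp)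
    | succ n ih =>
      have h2 : (sq (n + 1)).1.1 - g₀ = ((sq (n + 1)).1.1 - (sq n).1.1) + ((sq n).1.1 - g₀) := by
        ring
      rw [h2]
      exact add_mem (Ideal.pow_le_pow_right (by omega) (hs n).1) ih
  refine ⟨g, x, c, ?_, ?_, ?_, ?_⟩
  · have h1 : g - g₀ = -((sq 3).1.1 - g) + ((sq 3).1.1 - g₀) := by ring
    rw [h1]
    exact add_mem (neg_mem (hg 3)) (hg3 3)
  · have h1 : x - x₀ = -((sq 2).1.2.1 - x) + ((sq 2).1.2.1 - x₀) := by ring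
    rw [h1]
    exact add_mem (neg_mem (hx 2)) (sq 2).2.2.1
  · have h1 : c - c₀ = -((sq 2).1.2.2 - c) + ((sq 2).1.2.2 - c₀) := by ring
    rw [h1]
    exact add_mem (neg_mem (hc 2)) (sq 2).2.2.2
  · rw [← sub_eq_zero]
    refine IsHausdorff.haus (IsAdicComplete.toIsHausdorff (I := maximalIdeal R) (M := R)) _ ?_
    intro n
    rw [SModEq.sub_mem, smul_eq_mul, Ideal.mul_top, sub_zero]
    have h1 : f - (φ g + x * c) = (f - φ (sq n).1.1 - (sq n).1.2.1 * (sq n).1.2.2) +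
        φ ((sq n).1.1 - g) + ((sq n).1.2.1 - x) * (sq n).1.2.2 + x * ((sq n).1.2.2 - c) := by
      rw [map_sub]
      ring
    rw [h1]
    exact add_mem (add_mem (add_mem (Ideal.pow_le_pow_right (by omega) (sq n).2.1)
      (hφ n _ (hg n))) (Ideal.mul_mem_right _ _ (hx n))) (Ideal.mul_mem_left _ _ (hc n))

end Pool.Agent.QU54.BH
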