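import Mathlib
import Pool.Agent.Lib.QU54.NodeL

/-!
# Power series over a node
-/

set_option autoImplicit false

namespace Pool.Agent.QU54.BH

universe u

open Polynomial Pool.Agent.QU53 IsLocalRing

theorem exists_auto_succ {S : Type u} [CommRing S] [IsLocalRing S] (n : ℕ)
    (f : MvPowerSeries (Fin (n + 1)) S) (hf : MvPowerSeries.map (residue S) f ≠ 0) :
    ∃ ψ : MvPowerSeries (Fin (n + 1)) S ≃+* PowerSeries (MvPowerSeries (Fin n) S),
      (∀ s : S, ψ (MvPowerSeries.C s) = PowerSeries.C (MvPowerSeries.C s)) ∧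
      ψ (MvPowerSeries.X 0) = PowerSeries.X ∧
      PowerSeries.map (residue (MvPowerSeries (Fin n) S)) (ψ f) ≠ 0 := by
  obtain ⟨τ, hτC, hτX, hτ⟩ := exists_auto' n f hf
  let ψ : MvPowerSeries (Fin (n + 1)) S ≃+* PowerSeries (MvPowerSeries (Fin n) S) :=
    τ.trans (MvPowerSeries.finSuccEquiv S n).toRingEquiv
  have hψ : ∀ f, ψ f = MvPowerSeries.finSuccEquiv S n (τ f) := fun f => rfl
  refine ⟨ψ, fun d => ?_, ?_, hτ⟩
  · rw [hψ, hτC, MvPowerSeries.finSuccEquiv_C]
  · rw [hψ, hτX, MvPowerSeries.finSuccEquiv_X_zero]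

/-- ROW C9. -/
theorem node_all {A₀ : Type u} [CommRing A₀] [IsRegularLocalRing A₀]
    [IsAdicComplete (maximalIdeal A₀) A₀] (hd : ringKrullDim A₀ = 3) (y γ : A₀)
    (hy : y ∈ maximalIdeal A₀) (hy2 : y ∉ maximalIdeal A₀ ^ 2)
    (hγ : γ ∈ maximalIdeal A₀) (hγ2 : γ ∉ maximalIdeal A₀ ^ 2 ⊔ Ideal.span {y}) (n : ℕ) :
    PF (Localization.Away (MvPowerSeries.C (Ideal.Quotient.mk
      (blowIdeal (PowerSeries.X : PowerSeries A₀) (PowerSeries.C γ)) (PowerSeries.C (PowerSeries.C y))) :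
      MvPowerSeries (Fin n) (Blow (PowerSeries.X : PowerSeries A₀) (PowerSeries.C γ)))) := by
  classical
  let D := PowerSeries A₀
  have hA₀d : IsDomain A₀ := BEH5.Reg.isDomain_of_regular 3 A₀ (by exact_mod_cast hd)
  have hDc : IsAdicComplete (maximalIdeal D) D := adicMax8
  obtain ⟨hDr, -⟩ := regular_powerSeries A₀
  have hd4 := node_dim hd
  have hyD : PowerSeries.C y ∈ maximalIdeal D := ps_C_mem y hy
  have hyD2 : PowerSeries.C y ∉ maximalIdeal D ^ 2 := by
    intro h
    have := ps_coeff_zero_mem_sq _ h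
    rw [PowerSeries.constantCoeff_C] at this
    exact hy2 this
  obtain ⟨hreg, hcomp, hdim, hyM, hyM2⟩ := blow_ring (d := 3) (by exact_mod_cast hd4)
    (PowerSeries.C y) PowerSeries.X (PowerSeries.C γ) hyD hyD2 (ps_X_mem A₀) (ps_C_mem γ hγ)
    (node_γ y γ hγ2)
  let D' := Blow (PowerSeries.X : PowerSeries A₀) (PowerSeries.C γ)
  have hD'd : IsDomain D' := BEH5.Reg.isDomain_of_regular 4 _ (by exact_mod_cast hdim)
  let R := MvPowerSeries (Fin n) D'
  have hRd : IsDomain R := isDomain_mv D' n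
  have hRn : IsNoetherianRing R := inferInstance
  obtain ⟨β, P1, P2, k3, P3, hy0, n1, n2⟩ := blow_primes hd4 (PowerSeries.C y) PowerSeries.X
    (PowerSeries.C γ) hyD hyD2 (ps_X_mem A₀) (node_X y hy) (ps_C_mem γ hγ) (node_γ y γ hγ2)
  let I := blowIdeal (PowerSeries.X : PowerSeries A₀) (PowerSeries.C γ)
  let yQ : D' := Ideal.Quotient.mk I (PowerSeries.C (PowerSeries.C y))
  let aQ : D' := Ideal.Quotient.mk I (PowerSeries.C PowerSeries.X)
  let bQ : D' := Ideal.Quotient.mk I (PowerSeries.C β)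
  let q₀ : Ideal D' := ((maximalIdeal D).map (PowerSeries.C (R := D))).map (Ideal.Quotient.mk I)
  let q : Ideal R := q₀.map (MvPowerSeries.C (σ := Fin n) (R := D'))
  have hq : q.IsPrime := prime_mapC q₀ n
  have i1 : (Ideal.span {yQ}).map (MvPowerSeries.C (σ := Fin n) (R := D')) =
      Ideal.span {MvPowerSeries.C yQ} := by
    rw [Ideal.map_span, Set.image_singleton]
  have i2 : (Ideal.span {yQ, aQ}).map (MvPowerSeries.C (σ := Fin n) (R := D')) =
      Ideal.span {MvPowerSeries.C yQ, MvPowerSeries.C aQ} := by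
    rw [Ideal.map_span, Set.image_insert_eq, Set.image_singleton]
  have i3 : q = Ideal.span {MvPowerSeries.C yQ, MvPowerSeries.C aQ, MvPowerSeries.C bQ} := by
    have : q = (Ideal.span {yQ, aQ, bQ}).map (MvPowerSeries.C (σ := Fin n) (R := D')) :=
      congrArg (Ideal.map (MvPowerSeries.C (σ := Fin n) (R := D'))) k3
    rw [this, Ideal.map_span, Set.image_insert_eq, Set.image_insert_eq, Set.image_singleton]
  have P1' : (Ideal.span {(MvPowerSeries.C yQ : R)}).IsPrime := by
    rw [← i1]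
    exact prime_mapC _ n
  have P2' : (Ideal.span {(MvPowerSeries.C yQ : R), MvPowerSeries.C aQ}).IsPrime := by
    rw [← i2]
    exact prime_mapC _ n
  have hy0' : (MvPowerSeries.C yQ : R) ≠ 0 := fun h =>
    hy0 (MvPowerSeries.C_injective (by rw [map_zero]; exact h))
  have n1' : (MvPowerSeries.C aQ : R) ∉ Ideal.span {(MvPowerSeries.C yQ : R)} := by
    rw [← i1]
    exact fun h => n1 (C_mem_mapD _ _ h)
  have n2' : (MvPowerSeries.C bQ : R) ∉
      Ideal.span {(MvPowerSeries.C yQ : R), MvPowerSeries.C aQ} := by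
    rw [← i2]
    exact fun h => n2 (C_mem_mapD _ _ h)
  intro P _ _ hfin hproj
  obtain ⟨k, h₁, hh₁, H1⟩ := gab_free (MvPowerSeries.C yQ) (MvPowerSeries.C aQ)
    (MvPowerSeries.C bQ) q i3 P1' P2' hy0' n1' n2' P
  obtain ⟨h, rfl⟩ := blowQ_surj (PowerSeries.X : D) (PowerSeries.C γ) n h₁
  have hh : MvPowerSeries.map (residue D) h ≠ 0 := by
    intro h2
    apply hh₁
    rw [← mem_map_maxC] at h2
    have h3 := Ideal.mem_map_of_mem (blowQ (PowerSeries.X : D) (PowerSeries.C γ) n) h2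
    rw [Ideal.map_map] at h3
    show _ ∈ (((maximalIdeal D).map (PowerSeries.C (R := D))).map (Ideal.Quotient.mk I)).map
      (MvPowerSeries.C (σ := Fin n) (R := D'))
    rw [Ideal.map_map, Ideal.map_map]
    have h4 : (blowQ (PowerSeries.X : D) (PowerSeries.C γ) n).comp
        (MvPowerSeries.C (σ := Fin (n + 1)) (R := D)) =
        ((MvPowerSeries.C (σ := Fin n) (R := D')).comp (Ideal.Quotient.mk I)).comp
          (PowerSeries.C (R := D)) := by
      ext1 a
      exact blowQ_C _ _ n a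
    rw [h4] at h3
    exact h3
  obtain ⟨ψ, hψC, hψX, hτ⟩ := exists_auto_succ n h hh
  obtain ⟨Ψ, hΨ⟩ := exists_Psi (PowerSeries.X : D) (PowerSeries.C γ) n ψ hψC hψX
  have hBd : IsDomain (Blow (MvPowerSeries.C PowerSeries.X : MvPowerSeries (Fin n) D)
      (MvPowerSeries.C (PowerSeries.C γ))) := Ψ.symm.toMulEquiv.isDomain R
  have hΨy : Ψ (MvPowerSeries.C yQ) = Ideal.Quotient.mk (nodeI γ n)
      (PowerSeries.C (MvPowerSeries.C (PowerSeries.C y))) := by
    have h2 := blowQ_C (PowerSeries.X : D) (PowerSeries.C γ) n (PowerSeries.C y)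
    show Ψ (MvPowerSeries.C (Ideal.Quotient.mk (blowIdeal (PowerSeries.X : D) (PowerSeries.C γ))
      (PowerSeries.C (PowerSeries.C y)))) = _
    rw [← h2, hΨ, hψC]
  let B := Localization.Away (MvPowerSeries.C yQ : R)
  let B' := nodeL y γ n
  have hmap : Submonoid.map Ψ (Submonoid.powers (MvPowerSeries.C yQ : R)) =
      Submonoid.powers (Ideal.Quotient.mk (nodeI γ n)
        (PowerSeries.C (MvPowerSeries.C (PowerSeries.C y)))) := by
    rw [← hΨy]
    exact Submonoid.map_powers _ _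
  let e : B ≃+* B' := IsLocalization.ringEquivOfRingEquiv
    (M := Submonoid.powers (MvPowerSeries.C yQ : R))
    (T := Submonoid.powers (Ideal.Quotient.mk (nodeI γ n)
        (PowerSeries.C (MvPowerSeries.C (PowerSeries.C y))))) B B' Ψ hmap
  have he : ∀ r : R, e (algebraMap R B r) = algebraMap _ B' (Ψ r) := fun r =>
    IsLocalization.ringEquivOfRingEquiv_eq hmap r
  refine transfer e (algebraMap R B (blowQ (PowerSeries.X : D) (PowerSeries.C γ) n h)) k ?_ P H1
  intro P₁ _ _ _ _ H2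
  rw [he, hΨ] at H2
  obtain ⟨d, hd0, H3⟩ := node_step hd y γ hy hy2 hγ hγ2 n k P₁ (ψ h) hτ H2
  refine transfer e.symm (algebraMap _ B' (Ideal.Quotient.mk (nodeI γ n) (PowerSeries.C d))) k
    ?_ P₁ H3
  intro P₂ _ _ _ _ H4
  have h5 : e.symm (algebraMap _ B' (Ideal.Quotient.mk (nodeI γ n) (PowerSeries.C d))) =
      algebraMap R B (blowQ (PowerSeries.X : D) (PowerSeries.C γ) n
        (ψ.symm (PowerSeries.C d))) := by
    rw [RingEquiv.symm_apply_eq, he, hΨ, RingEquiv.apply_symm_apply]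
  rw [h5] at H4
  refine free_of_HB_of_MI mi yQ hy0 n k _ ?_ P₂ H4
  intro h6
  have h7 := blowQ_max (PowerSeries.X : D) (PowerSeries.C γ) n (ps_X_mem A₀) (ps_C_mem γ hγ) _ h6
  apply hd0
  rw [← mem_map_maxC]
  let χ : MvPowerSeries (Fin (n + 1)) D →+* MvPowerSeries (Fin n) D :=
    (PowerSeries.constantCoeff (R := MvPowerSeries (Fin n) D)).comp
      (ψ : MvPowerSeries (Fin (n + 1)) D →+* PowerSeries (MvPowerSeries (Fin n) D))
  have h8 : Ideal.span {(MvPowerSeries.X 0 : MvPowerSeries (Fin (n + 1)) D)} ⊔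
      (maximalIdeal D).map (MvPowerSeries.C (σ := Fin (n + 1)) (R := D)) ≤
      ((maximalIdeal D).map (MvPowerSeries.C (σ := Fin n) (R := D))).comap χ := by
    refine sup_le ?_ ?_
    · rw [Ideal.span_singleton_le_iff_mem, Ideal.mem_comap]
      show PowerSeries.constantCoeff (ψ (MvPowerSeries.X 0)) ∈ _
      rw [hψX, PowerSeries.constantCoeff_X]
      exact zero_mem _
    · rw [Ideal.map_le_iff_le_comap]
      intro a ha
      rw [Ideal.mem_comap, Ideal.mem_comap]
      show PowerSeries.constantCoeff (ψ (MvPowerSeries.C a)) ∈ _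
      rw [hψC, PowerSeries.constantCoeff_C]
      exact Ideal.mem_map_of_mem _ ha
  have h9 := h8 h7
  rw [Ideal.mem_comap] at h9
  have h10 : χ (ψ.symm (PowerSeries.C d)) = d := by
    show PowerSeries.constantCoeff (ψ (ψ.symm (PowerSeries.C d))) = d
    rw [RingEquiv.apply_symm_apply, PowerSeries.constantCoeff_C]
  rwa [h10] at h9

end Pool.Agent.QU54.BH
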