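import Mathlib
import Pool.Agent.Lib.QU54.ChainA
import Pool.Agent.Lib.QU54.NodeM

/-!
# Power series over a chain node: the main step
-/

set_option autoImplicit false

namespace Pool.Agent.QU54.BH

universe u

open Polynomial Pool.Agent.QU53 IsLocalRing

/-- The product of the `a - β`, `β` in a list. -/
noncomputable def chainH {A : Type u} [CommRing A] (l : List A) : PowerSeries A :=
  (l.map fun β => (PowerSeries.X - PowerSeries.C β : PowerSeries A)).prod

theorem chainH_map {A₀ A : Type u} [CommRing A₀] [CommRing A] (φ : A₀ →+* A) (l : List A₀) :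
    PowerSeries.map φ (chainH l) =
      (((l.map fun β => (X - C (φ β) : A[X])).prod : A[X]) : PowerSeries A) := by
  induction l with
  | nil =>
    rw [chainH, List.map_nil, List.prod_nil, List.map_nil, List.prod_nil, map_one,
      Polynomial.coe_one]
  | cons β l ih =>
    rw [chainH] at ih
    rw [chainH, List.map_cons, List.prod_cons, List.map_cons, List.prod_cons, map_mul, ih,
      Polynomial.coe_mul, Polynomial.coe_sub, Polynomial.coe_X, Polynomial.coe_C, map_sub,
      PowerSeries.map_X, PowerSeries.map_C]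

theorem chain_monic {A₀ A : Type u} [CommRing A₀] [CommRing A] (φ : A₀ → A) (l : List A₀) :
    ((l.map fun β => (X - C (φ β) : A[X])).prod).Monic := by
  induction l with
  | nil =>
    rw [List.map_nil, List.prod_nil]
    exact monic_one
  | cons β l ih =>
    rw [List.map_cons, List.prod_cons]
    exact (monic_X_sub_C _).mul ih

theorem chainH_map_ne {A₀ A : Type u} [CommRing A₀] [CommRing A] [Nontrivial A] (φ : A₀ →+* A)
    (l : List A₀) : PowerSeries.map φ (chainH l) ≠ 0 := by
  rw [chainH_map]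
  intro h
  have h1 := (chain_monic φ l).ne_zero
  apply h1
  exact Polynomial.coe_injective A (by rw [h, Polynomial.coe_zero])

theorem chainH_mem {A : Type u} [CommRing A] [IsLocalRing A] (l : List A) (hl0 : l ≠ [])
    (hl : ∀ β ∈ l, β ∈ maximalIdeal A) : chainH l ∈ maximalIdeal (PowerSeries A) := by
  cases l with
  | nil => exact absurd rfl hl0
  | cons β l =>
    rw [chainH, List.map_cons, List.prod_cons]
    exact Ideal.mul_mem_right _ _ (sub_mem (ps_X_mem A) (ps_C_mem β (hl β (by simp))))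

theorem not_dvd_Xβ {A : Type u} [CommRing A] [IsLocalRing A] (y β : A) (γ : PowerSeries A)
    (hy : y ∈ maximalIdeal A) (hγ : γ ∈ maximalIdeal (PowerSeries A))
    (hγ2 : γ ∉ maximalIdeal (PowerSeries A) ^ 2 ⊔
      Ideal.span {PowerSeries.C y, PowerSeries.X - PowerSeries.C β}) :
    ¬ γ ∣ PowerSeries.X - PowerSeries.C β := by
  rintro ⟨w, hw⟩
  by_cases hwu : IsUnit w
  · obtain ⟨w', hw'⟩ := hwu.exists_right_inv
    apply hγ2
    refine Ideal.mem_sup_right ?_
    have h1 : γ = w' * (PowerSeries.X - PowerSeries.C β) := by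
      rw [hw, mul_comm w', mul_assoc, hw', mul_one]
    rw [h1]
    exact Ideal.mul_mem_left _ _ (Ideal.subset_span (by simp))
  · apply node_Xβ y β hy
    rw [hw, pow_two]
    exact Ideal.mem_sup_left (Ideal.mul_mem_mul hγ hwu)

theorem chainH_not_dvd {A : Type u} [CommRing A] [IsLocalRing A] (y : A) (γ : PowerSeries A)
    (l : List A) (hy : y ∈ maximalIdeal A) (hγ : γ ∈ maximalIdeal (PowerSeries A)) (hp : Prime γ)
    (hγ2 : ∀ β ∈ l, γ ∉ maximalIdeal (PowerSeries A) ^ 2 ⊔
      Ideal.span {PowerSeries.C y, PowerSeries.X - PowerSeries.C β}) :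
    ¬ γ ∣ chainH l := by
  intro h
  rw [chainH, hp.dvd_prod_iff] at h
  obtain ⟨a, ha, h1⟩ := h
  obtain ⟨β, hβ, rfl⟩ := List.mem_map.1 ha
  exact not_dvd_Xβ y β γ hy hγ (hγ2 β hβ) h1

/-- The ideal of the chain node. -/
noncomputable abbrev chainI {A₀ : Type u} [CommRing A₀] (h γ : PowerSeries A₀) (n : ℕ) :
    Ideal (PowerSeries (MvPowerSeries (Fin n) (PowerSeries A₀))) :=
  blowIdeal (MvPowerSeries.C h) (MvPowerSeries.C γ)

/-- The coordinate ring. -/
noncomputable abbrev chainLoc {A₀ : Type u} [CommRing A₀] (y : A₀) (h γ : PowerSeries A₀)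
    (n : ℕ) : Type u :=
  Localization.Away (Ideal.Quotient.mk (chainI h γ n)
    (PowerSeries.C (MvPowerSeries.C (PowerSeries.C y))))

theorem chain_node_step {A₀ : Type u} [CommRing A₀] [IsRegularLocalRing A₀]
    [IsAdicComplete (maximalIdeal A₀) A₀] (hd : ringKrullDim A₀ = 3) (y : A₀)
    (γ : PowerSeries A₀) (l : List A₀)
    (hy : y ∈ maximalIdeal A₀) (hy2 : y ∉ maximalIdeal A₀ ^ 2)
    (hγ : γ ∈ maximalIdeal (PowerSeries A₀)) (hl0 : l ≠ [])
    (hl : ∀ β ∈ l, β ∈ maximalIdeal A₀)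
    (hγ2 : ∀ β ∈ l, γ ∉ maximalIdeal (PowerSeries A₀) ^ 2 ⊔
      Ideal.span {PowerSeries.C y, PowerSeries.X - PowerSeries.C β}) (n : ℕ)
    [IsDomain (Blow (MvPowerSeries.C (chainH l) : MvPowerSeries (Fin n) (PowerSeries A₀))
      (MvPowerSeries.C γ))]
    (k : ℕ) (P : Type u) [AddCommGroup P]
    [Module (chainLoc y (chainH l) γ n) P] [Module.Finite (chainLoc y (chainH l) γ n) P]
    [Module.Projective (chainLoc y (chainH l) γ n) P]
    (f : PowerSeries (MvPowerSeries (Fin n) (PowerSeries A₀)))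
    (hf : PowerSeries.map (residue (MvPowerSeries (Fin n) (PowerSeries A₀))) f ≠ 0)
    (hb : HB (chainLoc y (chainH l) γ n) P k
      (algebraMap _ _ (Ideal.Quotient.mk (chainI (chainH l) γ n) f))) :
    ∃ d : MvPowerSeries (Fin n) (PowerSeries A₀),
      MvPowerSeries.map (residue (PowerSeries A₀)) d ≠ 0 ∧
      HB (chainLoc y (chainH l) γ n) P k
        (algebraMap _ _ (Ideal.Quotient.mk (chainI (chainH l) γ n) (PowerSeries.C d))) := by
  classical
  let D := PowerSeries A₀
  let Dn := MvPowerSeries (Fin n) D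
  let A := MvPowerSeries (Fin n) A₀
  have hA₀d : IsDomain A₀ := BEH5.Reg.isDomain_of_regular 3 A₀ (by exact_mod_cast hd)
  have hDc : IsAdicComplete (maximalIdeal D) D := adicMax8
  have hDnd : IsDomain Dn := isDomain_mv D n
  have hDnc : IsAdicComplete (maximalIdeal Dn) Dn := adicComplete_mvPowerSeries n
  have hAd : IsDomain A := isDomain_mv A₀ n
  have hAc : IsAdicComplete (maximalIdeal A) A := adicComplete_mvPowerSeries n
  have hDnn : IsNoetherianRing Dn := inferInstance
  have hAn : IsNoetherianRing A := inferInstance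
  obtain ⟨hDr, -⟩ := regular_powerSeries A₀
  obtain ⟨β₀, hβ₀⟩ := List.exists_mem_of_ne_nil l hl0
  -- `γ` is prime
  have hCy2 : PowerSeries.C y ∉ maximalIdeal D ^ 2 := by
    intro h
    have := ps_coeff_zero_mem_sq _ h
    rw [PowerSeries.constantCoeff_C] at this
    exact hy2 this
  have hγ3 : γ ∉ maximalIdeal D ^ 2 ⊔ Ideal.span {PowerSeries.C y} := by
    intro h
    have h1 : Ideal.span {PowerSeries.C y} ≤
        Ideal.span {PowerSeries.C y, PowerSeries.X - PowerSeries.C β₀} :=
      Ideal.span_mono (Set.singleton_subset_iff.2 (by simp))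
    exact hγ2 β₀ hβ₀ (sup_le_sup_left h1 _ h)
  obtain ⟨hγDp, hγDy⟩ := g_prime (d := 3) (node_dim hd) (PowerSeries.C y) γ hCy2 hγ hγ3
  have hγDα : ¬ γ ∣ chainH l := chainH_not_dvd y γ l hy hγ hγDp hγ2
  -- the value of `γ` at `β₀`
  obtain ⟨ev₀, e1, e2, e3⟩ := exists_ev β₀ (hl β₀ hβ₀)
  obtain ⟨hg1, hg2⟩ := ev_params y β₀ (hl β₀ hβ₀) ev₀ e1 e3 γ hγ (hγ2 β₀ hβ₀)
  obtain ⟨p1, p2, p3, hyγ, hγy, hγp, b, hb0, hm, hb2⟩ := params3 hd y (ev₀ γ) hy hy2 hg1 hg2
  have hy0 : y ≠ 0 := fun h => hy2 (h ▸ zero_mem _)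
  let yD : Dn := MvPowerSeries.C (PowerSeries.C y)
  let αD : Dn := MvPowerSeries.C (chainH l)
  let γD : Dn := MvPowerSeries.C γ
  let gD : Dn := MvPowerSeries.C (PowerSeries.C (ev₀ γ))
  let bD : Dn := MvPowerSeries.C (PowerSeries.C b)
  have hCinj : Function.Injective (fun a : A₀ => (MvPowerSeries.C (PowerSeries.C a) : Dn)) :=
    fun a a' h => PowerSeries.C_injective (MvPowerSeries.C_injective h)
  have hyD0 : yD ≠ 0 := by
    intro h
    exact hy0 (hCinj (by
      show yD = MvPowerSeries.C (PowerSeries.C 0)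
      rw [h, map_zero, map_zero]))
  obtain ⟨E, _, _, _, c, F₀, P', _, _, hE, hF₀, hF₁, hfin, hproj, hF0, hHB, hback⟩ :=
    blow_patch yD αD γD (C_mem_maxD _ hγ n) (C_mem_maxD _ (chainH_mem l hl0 hl) n) hyD0
      (prime_C hγDp n) (C_not_dvd _ _ hγDα n) (C_not_dvd _ _ hγDy n) k P f hf hb
  -- the prime ideal generated by `m₀`
  let q : Ideal Dn := ((maximalIdeal A₀).map (PowerSeries.C (R := A₀))).map
    (MvPowerSeries.C (σ := Fin n) (R := D))
  have hfg : ∀ I : Ideal A₀, I.FG := fun I => (isNoetherianRing_iff_ideal_fg A₀).1 inferInstance I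
  have hpr : ∀ I : Ideal A₀, I.IsPrime →
      ((I.map (PowerSeries.C (R := A₀))).map (MvPowerSeries.C (σ := Fin n) (R := D))).IsPrime := by
    intro I hI
    have : (I.map (PowerSeries.C (R := A₀))).IsPrime := ps_prime_mapC I (hfg I)
    exact prime_mapC _ n
  have hmem : ∀ (I : Ideal A₀) (a : A₀), (MvPowerSeries.C (PowerSeries.C a) : Dn) ∈
      (I.map (PowerSeries.C (R := A₀))).map (MvPowerSeries.C (σ := Fin n) (R := D)) → a ∈ I := by
    intro I a h
    exact ps_C_mem_mapC I (hfg I) a (C_mem_mapD _ _ h)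
  have hq : q.IsPrime := hpr _ inferInstance
  have k1 : ((Ideal.span {y}).map (PowerSeries.C (R := A₀))).map
      (MvPowerSeries.C (σ := Fin n) (R := D)) = Ideal.span {yD} := by
    rw [Ideal.map_span, Ideal.map_span, Set.image_singleton, Set.image_singleton]
  have k2 : ((Ideal.span {y, ev₀ γ}).map (PowerSeries.C (R := A₀))).map
      (MvPowerSeries.C (σ := Fin n) (R := D)) = Ideal.span {yD, gD} := by
    rw [Ideal.map_span, Ideal.map_span, Set.image_insert_eq, Set.image_singleton,
      Set.image_insert_eq, Set.image_singleton]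
  have k3 : q = Ideal.span {yD, gD, bD} := by
    show ((maximalIdeal A₀).map (PowerSeries.C (R := A₀))).map
      (MvPowerSeries.C (σ := Fin n) (R := D)) = _
    rw [hm, Ideal.map_span, Ideal.map_span, Set.image_insert_eq, Set.image_insert_eq,
      Set.image_insert_eq, Set.image_insert_eq, Set.image_singleton, Set.image_singleton]
  have P1 : (Ideal.span {yD}).IsPrime := k1 ▸ hpr _ p3
  have P2 : (Ideal.span {yD, gD}).IsPrime := k2 ▸ hpr _ p2
  have n1 : gD ∉ Ideal.span {yD} := by
    rw [← k1]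
    exact fun h => hγy (hmem _ _ h)
  have n2 : bD ∉ Ideal.span {yD, gD} := by
    rw [← k2]
    exact fun h => hb2 (hmem _ _ h)
  have hPF : PF (Localization.Away (algebraMap Dn (Localization.AtPrime q) yD)) :=
    gab_gen yD gD bD q k3 P1 P2 hyD0 n1 n2
  have hαq : αD ∉ q := by
    intro h
    have h1 : chainH l ∈ (maximalIdeal A₀).map (PowerSeries.C (R := A₀)) :=
      C_mem_mapD _ _ h
    rw [ps_mem_mapC _ (hfg _)] at h1
    exact chainH_map_ne _ l h1
  obtain ⟨k', h', hh', H'⟩ := pres_gab yD αD γD q hPF hαq hyD0 c hE P'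
  -- the ranks agree
  have hT : Function.Injective (algebraMap Dn (Localization.Away yD)) :=
    IsLocalization.injective _ (powers_le_nonZeroDivisors_of_noZeroDivisors hyD0)
  have hTd : IsDomain (Localization.Away yD) :=
    IsLocalization.isDomain_localization (powers_le_nonZeroDivisors_of_noZeroDivisors hyD0)
  have hα0 : algebraMap Dn (Localization.Away yD) αD ≠ 0 := by
    intro h
    have h1 : αD = 0 := hT (by rw [h, map_zero])
    exact hαq (h1 ▸ zero_mem _)
  have hinjE := hE.inj hα0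
  have hh0 : algebraMap (Localization.Away yD) E (algebraMap Dn _ h') ≠ 0 := by
    intro h
    have h1 : h' = 0 := hT (hinjE (by rw [h, map_zero, map_zero]))
    exact hh' (h1 ▸ zero_mem _)
  have hkk : k' = k := HB_unique hh0 hF0 H' hHB
  subst hkk
  -- the change of coordinates
  have hf2 : MvPowerSeries.map (residue A₀) ((blockE A₀ n).symm h') ≠ 0 := by
    intro h
    rw [← mem_map_maxC] at h
    apply hh'
    have h1 := Ideal.mem_map_of_mem (blockE A₀ n : MvPowerSeries (Fin (n + 1)) A₀ →+* Dn) h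
    have h2 : (blockE A₀ n : MvPowerSeries (Fin (n + 1)) A₀ →+* Dn) ((blockE A₀ n).symm h') =
      h' := RingEquiv.apply_symm_apply _ _
    rw [h2, Ideal.map_map] at h1
    show h' ∈ ((maximalIdeal A₀).map (PowerSeries.C (R := A₀))).map
      (MvPowerSeries.C (σ := Fin n) (R := D))
    rw [Ideal.map_map]
    have h3 : (blockE A₀ n : MvPowerSeries (Fin (n + 1)) A₀ →+* Dn).comp
        (MvPowerSeries.C (σ := Fin (n + 1)) (R := A₀)) =
        (MvPowerSeries.C (σ := Fin n) (R := D)).comp (PowerSeries.C (R := A₀)) := by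
      ext1 a
      exact blockE_C n a
    rwa [h3] at h1
  obtain ⟨τ, hτC, hτX, hτ⟩ := exists_auto' n ((blockE A₀ n).symm h') hf2
  let ψ : Dn ≃+* PowerSeries A := (blockE A₀ n).symm.trans
    (τ.trans (MvPowerSeries.finSuccEquiv A₀ n).toRingEquiv)
  have hψ : ∀ f, ψ f = MvPowerSeries.finSuccEquiv A₀ n (τ ((blockE A₀ n).symm f)) := fun f => rfl
  have hψC : ∀ a : A₀, ψ (MvPowerSeries.C (PowerSeries.C a)) =
      PowerSeries.C (MvPowerSeries.C a) := by
    intro a
    rw [hψ, ← blockE_C, RingEquiv.symm_apply_apply, hτC, MvPowerSeries.finSuccEquiv_C]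
  have hψX : ψ (MvPowerSeries.C PowerSeries.X) = PowerSeries.X := by
    rw [hψ, ← blockE_X, RingEquiv.symm_apply_apply, hτX, MvPowerSeries.finSuccEquiv_X_zero]
  have hψp := psi_ps n ψ hψC hψX
  -- the prime ideal of `A`
  let 𝔭 : Ideal A := (maximalIdeal A₀).map (MvPowerSeries.C (σ := Fin n) (R := A₀))
  have h𝔭 : 𝔭.IsPrime := prime_mapC _ n
  let γ' : PowerSeries A := PowerSeries.map (MvPowerSeries.C (σ := Fin n) (R := A₀)) γ
  have hγ'p : Prime γ' := by
    have h1 : ψ γD = γ' := hψp γ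
    rw [← h1]
    exact (MulEquiv.prime_iff ψ.toMulEquiv).2 (prime_C hγDp n)
  have hcen := fun β (hβ : β ∈ l) =>
    chain_centre hd y hy hy2 γ hγ β (hl β hβ) (hγ2 β hβ) n hγ'p
  let l' : List A[X] := l.map fun β => (X - C (MvPowerSeries.C β) : A[X])
  have hl'm : l'.prod.Monic := chain_monic (fun β => (MvPowerSeries.C β : A)) l
  obtain ⟨h₂, hh₂, H₂⟩ := chain_local' 𝔭 (MvPowerSeries.C y)
    (fun h => hy0 (MvPowerSeries.C_injective (by rw [h, map_zero]))) γ'
    (hcen β₀ hβ₀).1 l' (by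
      intro a ha
      obtain ⟨β, hβ, rfl⟩ := List.mem_map.1 ha
      refine ⟨monic_X_sub_C _, ?_, (hcen β hβ).2.1, (hcen β hβ).2.2⟩
      rw [Polynomial.map_sub, Polynomial.map_X, Polynomial.map_C,
        (residue_eq_zero_iff _).2 (C_mem_maxD β (hl β hβ) n), map_zero, sub_zero,
        natDegree_X_sub_C, pow_one])
    (by
      intro h
      exact hl'm.ne_zero (Polynomial.coe_injective A (by
        rw [Polynomial.coe_zero]
        exact h)))
    ψ yD αD γD (hψC y) ((hψp _).trans (chainH_map _ l)) (hψp γ) c hE P' k' F₀ hF₀ hF0 hHB h' hτ H'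
  have hd : MvPowerSeries.map (residue D) (ψ.symm (PowerSeries.C h₂)) ≠ 0 := by
    intro h
    rw [← mem_map_maxC] at h
    let χ : Dn →+* A := (PowerSeries.constantCoeff (R := A)).comp (ψ : Dn →+* PowerSeries A)
    have h1 : (maximalIdeal D).map (MvPowerSeries.C (σ := Fin n) (R := D)) ≤ 𝔭.comap χ := by
      rw [Ideal.map_le_iff_le_comap]
      intro g hg
      have h2 : PowerSeries.X ∣ g - PowerSeries.C (PowerSeries.constantCoeff g) := by
        rw [PowerSeries.X_dvd_iff, map_sub, PowerSeries.constantCoeff_C, sub_self]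
      obtain ⟨w, hw⟩ := h2
      have h3 : g = PowerSeries.X * w + PowerSeries.C (PowerSeries.constantCoeff g) := by
        rw [← hw]; ring
      rw [Ideal.mem_comap, Ideal.mem_comap]
      show PowerSeries.constantCoeff (ψ (MvPowerSeries.C g)) ∈ 𝔭
      rw [h3, map_add, map_mul, map_add, map_mul, hψC]
      have h4 : ψ (MvPowerSeries.C PowerSeries.X) = PowerSeries.X := hψX
      rw [h4, map_add, map_mul, PowerSeries.constantCoeff_X, zero_mul, zero_add,
        PowerSeries.constantCoeff_C]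
      exact Ideal.mem_map_of_mem _ (ps_max g hg)
    have h2 := h1 h
    rw [Ideal.mem_comap] at h2
    have h3 : χ (ψ.symm (PowerSeries.C h₂)) = h₂ := by
      show PowerSeries.constantCoeff (ψ (ψ.symm (PowerSeries.C h₂))) = h₂
      rw [RingEquiv.apply_symm_apply, PowerSeries.constantCoeff_C]
    rw [h3] at h2
    exact hh₂ h2
  refine ⟨ψ.symm (PowerSeries.C h₂), hd, hback _ (fun h => hd ?_) H₂⟩
  rw [h, map_zero]

end Pool.Agent.QU54.BH
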