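import Mathlib
import Pool.Agent.Lib.QU54.ChainK

/-!
# Recognising a node
-/

set_option autoImplicit false

namespace Pool.Agent.QU54.BH

universe u

open Polynomial Pool.Agent.QU53 IsLocalRing

/-- ROW G2. -/
theorem node_iso {L R : Type u} [CommRing L] [IsRegularLocalRing L]
    [IsAdicComplete (maximalIdeal L) L] (hd : ringKrullDim L = 3) [CommRing R]
    [IsRegularLocalRing R] [IsAdicComplete (maximalIdeal R) R] (hR : ringKrullDim R = 4)
    (φ : L →+* R) (hres : ∀ r : R, ∃ a : L, r - φ a ∈ maximalIdeal R) (x c : R)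
    (hm : maximalIdeal R = (maximalIdeal L).map φ ⊔ Ideal.span {x, c}) (y γ : L)
    (hy : y ∈ maximalIdeal L) (hy2 : y ∉ maximalIdeal L ^ 2) (hγ : γ ∈ maximalIdeal L)
    (hγ2 : γ ∉ maximalIdeal L ^ 2 ⊔ Ideal.span {y}) (hφ : φ γ = x * c) :
    ∃ e : Blow (PowerSeries.X : PowerSeries L) (PowerSeries.C γ) ≃+* R,
      ∀ a : L, e (Ideal.Quotient.mk _ (PowerSeries.C (PowerSeries.C a))) = φ a := by
  classical
  let D := PowerSeries L
  have hDc : IsAdicComplete (maximalIdeal D) D := adicMax8
  obtain ⟨hDr, -⟩ := regular_powerSeries L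
  have hd4 := node_dim hd
  have hyD2 : PowerSeries.C y ∉ maximalIdeal D ^ 2 := by
    intro h
    have := ps_coeff_zero_mem_sq _ h
    rw [PowerSeries.constantCoeff_C] at this
    exact hy2 this
  obtain ⟨hreg, hcomp, hdim, hyM, hyM2⟩ := blow_ring (d := 3) (by exact_mod_cast hd4)
    (PowerSeries.C y) PowerSeries.X (PowerSeries.C γ) (ps_C_mem y hy) hyD2 (ps_X_mem L)
    (ps_C_mem γ hγ) (node_γ y γ hγ2)
  have hx : x ∈ maximalIdeal R := by
    rw [hm]
    exact Ideal.mem_sup_right (Ideal.subset_span (by simp))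
  have hc : c ∈ maximalIdeal R := by
    rw [hm]
    exact Ideal.mem_sup_right (Ideal.subset_span (by simp))
  obtain ⟨ev1, a1, a2, -⟩ := exists_ev x hx
  obtain ⟨ev2, b1, b2, -⟩ := exists_ev c hc
  let ψ1 : D →+* R := ev1.comp (PowerSeries.map φ)
  have c1 : ∀ a : L, ψ1 (PowerSeries.C a) = φ a := by
    intro a
    show ev1 (PowerSeries.map φ (PowerSeries.C a)) = φ a
    rw [PowerSeries.map_C, a1]
  have c2 : ψ1 PowerSeries.X = x := by
    show ev1 (PowerSeries.map φ PowerSeries.X) = x
    rw [map_sub, a1] at a2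
    rw [PowerSeries.map_X]
    exact sub_eq_zero.1 a2
  let ψ2 : PowerSeries D →+* R := ev2.comp (PowerSeries.map ψ1)
  have d1 : ∀ f : D, ψ2 (PowerSeries.C f) = ψ1 f := by
    intro f
    show ev2 (PowerSeries.map ψ1 (PowerSeries.C f)) = ψ1 f
    rw [PowerSeries.map_C, b1]
  have d2 : ψ2 PowerSeries.X = c := by
    show ev2 (PowerSeries.map ψ1 PowerSeries.X) = c
    rw [map_sub, b1] at b2
    rw [PowerSeries.map_X]
    exact sub_eq_zero.1 b2
  let I := blowIdeal (PowerSeries.X : D) (PowerSeries.C γ)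
  have hI : ∀ f ∈ I, ψ2 f = 0 := by
    intro f hf
    obtain ⟨w, rfl⟩ := Ideal.mem_span_singleton.1 hf
    rw [map_mul, map_sub, map_mul, d1, d2, d1, c1, c2, hφ, mul_comm x c, sub_self, zero_mul]
  let e₀ : Blow (PowerSeries.X : D) (PowerSeries.C γ) →+* R := Ideal.Quotient.lift I ψ2 hI
  have e1 : ∀ f, e₀ (Ideal.Quotient.mk I f) = ψ2 f := fun f => rfl
  have e2 : ∀ a : L, e₀ (Ideal.Quotient.mk I (PowerSeries.C (PowerSeries.C a))) = φ a := by
    intro a
    rw [e1, d1, c1]
  have hmk : Function.Surjective ((Ideal.Quotient.mk (maximalIdeal R)).comp e₀) := by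
    intro z
    obtain ⟨r, rfl⟩ := Ideal.Quotient.mk_surjective z
    obtain ⟨a, ha⟩ := hres r
    refine ⟨Ideal.Quotient.mk I (PowerSeries.C (PowerSeries.C a)), ?_⟩
    show Ideal.Quotient.mk (maximalIdeal R) (e₀ _) = _
    rw [e2, eq_comm, Ideal.Quotient.eq]
    exact ha
  have hmax : (maximalIdeal R).comap e₀ = maximalIdeal (Blow (PowerSeries.X : D)
      (PowerSeries.C γ)) := by
    have h1 : (maximalIdeal R).comap e₀ =
        RingHom.ker ((Ideal.Quotient.mk (maximalIdeal R)).comp e₀) := by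
      rw [RingHom.ker_eq_comap_bot, ← Ideal.comap_comap, ← RingHom.ker_eq_comap_bot,
        Ideal.mk_ker]
    refine IsLocalRing.eq_maximalIdeal ?_
    rw [h1]
    have h2 : Nontrivial (R ⧸ maximalIdeal R) := Ideal.Quotient.nontrivial_iff.2
      (Ideal.IsPrime.ne_top inferInstance)
    let _ : Field (R ⧸ maximalIdeal R) := Ideal.Quotient.field _
    exact RingHom.ker_isMaximal_of_surjective _ hmk
  have hmap : (maximalIdeal (Blow (PowerSeries.X : D) (PowerSeries.C γ))).map e₀ =
      maximalIdeal R := by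
    apply le_antisymm
    · rw [Ideal.map_le_iff_le_comap, hmax]
    · rw [hm]
      refine sup_le ?_ ?_
      · rw [Ideal.map_le_iff_le_comap]
        intro a ha
        rw [Ideal.mem_comap, ← e2]
        refine Ideal.mem_map_of_mem _ ?_
        rw [← hmax, Ideal.mem_comap, e2, hm]
        exact Ideal.mem_sup_left (Ideal.mem_map_of_mem _ ha)
      · rw [Ideal.span_le]
        rintro z (rfl | rfl)
        · have h1 : e₀ (Ideal.Quotient.mk I (PowerSeries.C PowerSeries.X)) = z := by
            rw [e1, d1, c2]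
          show z ∈ _
          rw [← h1]
          refine Ideal.mem_map_of_mem _ ?_
          rw [← hmax, Ideal.mem_comap, h1]
          exact hx
        · have h1 : e₀ (Ideal.Quotient.mk I PowerSeries.X) = z := by
            rw [e1, d2]
          show z ∈ _
          rw [← h1]
          refine Ideal.mem_map_of_mem _ ?_
          rw [← hmax, Ideal.mem_comap, h1]
          exact hc
  have hsurj : Function.Surjective e₀ := by
    have : IsHausdorff ((maximalIdeal (Blow (PowerSeries.X : D) (PowerSeries.C γ))).map e₀) R := by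
      rw [hmap]
      infer_instance
    refine surjective_of_mk_map_comp_surjective
      (I := maximalIdeal (Blow (PowerSeries.X : D) (PowerSeries.C γ))) e₀ ?_
    rw [hmap]
    exact hmk
  have hdom : IsDomain (Blow (PowerSeries.X : D) (PowerSeries.C γ)) :=
    BEH5.Reg.isDomain_of_regular 4 _ (by exact_mod_cast hdim)
  have hinj : Function.Injective e₀ := by
    rw [injective_iff_map_eq_zero]
    intro r hr
    by_contra h0
    have h1 := ringKrullDim_succ_le_of_surjective e₀ hsurj (mem_nonZeroDivisors_of_ne_zero h0) hr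
    rw [hR, hdim] at h1
    exact absurd h1 (by decide)
  exact ⟨RingEquiv.ofBijective e₀ ⟨hinj, hsurj⟩, e2⟩

end Pool.Agent.QU54.BH
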