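import Mathlib
import Pool.Agent.Lib.QU54.ChainV
import Pool.Agent.Lib.QU54.ChainSp
import Pool.Agent.Lib.QU54.Dil
import Pool.Agent.Lib.QU54.NodeM

/-!
# Rings of nodal type
-/

set_option autoImplicit false

namespace Pool.Agent.QU54.BH

universe u

open Polynomial Pool.Agent.QU53 IsLocalRing

/-- `D⟦c⟧/(γ - c)` is `D`. -/
theorem blow_one {D : Type u} [CommRing D] [IsNoetherianRing D] [IsLocalRing D]
    [IsAdicComplete (maximalIdeal D) D] (γ : D) (hγ : γ ∈ maximalIdeal D) :
    ∃ e : D ≃+* Blow 1 γ, ∀ a, e a = Ideal.Quotient.mk (blowIdeal 1 γ) (PowerSeries.C a) := by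
  obtain ⟨ev, h1, h2, h3⟩ := exists_ev γ hγ
  let f : D →+* Blow 1 γ := (Ideal.Quotient.mk (blowIdeal 1 γ)).comp (PowerSeries.C (R := D))
  have hθ : (PowerSeries.C γ - PowerSeries.X * PowerSeries.C 1 : PowerSeries D) =
      -(PowerSeries.X - PowerSeries.C γ) := by
    rw [map_one, mul_one, neg_sub]
  refine ⟨RingEquiv.ofBijective f ⟨?_, ?_⟩, fun a => rfl⟩
  · rw [injective_iff_map_eq_zero]
    intro a ha
    have h4 : PowerSeries.C a ∈ blowIdeal 1 γ := Ideal.Quotient.eq_zero_iff_mem.1 ha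
    obtain ⟨w, hw⟩ := Ideal.mem_span_singleton.1 h4
    have h5 := congrArg ev hw
    rw [h1, hθ, map_mul, map_neg, h2, neg_zero, zero_mul] at h5
    exact h5
  · intro z
    obtain ⟨g, rfl⟩ := Ideal.Quotient.mk_surjective z
    obtain ⟨w, hw⟩ := ev_dec ev h1 h3 g
    refine ⟨ev g, ?_⟩
    show Ideal.Quotient.mk (blowIdeal 1 γ) (PowerSeries.C (ev g)) = _
    rw [Ideal.Quotient.eq]
    refine Ideal.mem_span_singleton.2 ⟨w, ?_⟩
    rw [hθ]
    linear_combination (-1 : PowerSeries D) * hw

theorem good_X (L : Type u) [CommRing L] [IsRegularLocalRing L]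
    [IsAdicComplete (maximalIdeal L) L] (hd : ringKrullDim L = 3) (y : L)
    (hy : y ∈ maximalIdeal L) (hy2 : y ∉ maximalIdeal L ^ 2) (γ : L)
    (hγ : γ ∈ maximalIdeal L) (hγ2 : γ ∉ maximalIdeal L ^ 2 ⊔ Ideal.span {y}) :
    Good 3 (Blow (PowerSeries.X : PowerSeries L) (PowerSeries.C γ))
      (Ideal.Quotient.mk (blowIdeal (PowerSeries.X : PowerSeries L) (PowerSeries.C γ))
        (PowerSeries.C (PowerSeries.C y))) := by
  have hDc : IsAdicComplete (maximalIdeal (PowerSeries L)) (PowerSeries L) := adicMax8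
  obtain ⟨hDr, -⟩ := regular_powerSeries L
  have hd4 := node_dim hd
  have hyD2 : PowerSeries.C y ∉ maximalIdeal (PowerSeries L) ^ 2 := by
    intro h
    have := ps_coeff_zero_mem_sq _ h
    rw [PowerSeries.constantCoeff_C] at this
    exact hy2 this
  obtain ⟨hreg, hcomp, hdim, hyM, hyM2⟩ := blow_ring (d := 3) (by exact_mod_cast hd4)
    (PowerSeries.C y) PowerSeries.X (PowerSeries.C γ) (ps_C_mem y hy) hyD2 (ps_X_mem L)
    (ps_C_mem γ hγ) (node_γ y γ hγ2)
  refine ⟨hreg, hcomp, hdim, hyM, hyM2, fun n => ⟨fun P _ _ hf hp _ => ?_, fun _ => ?_⟩⟩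
  · exact node_all hd y γ hy hy2 hγ hγ2 n P hf hp
  · exact node_all hd y γ hy hy2 hγ hγ2 n

/-- The rings of nodal type. -/
theorem good_split (L R : Type u) [CommRing L] [IsRegularLocalRing L]
    [IsAdicComplete (maximalIdeal L) L] (hd : ringKrullDim L = 3) (y : L)
    (hy : y ∈ maximalIdeal L) (hy2 : y ∉ maximalIdeal L ^ 2) [CommRing R]
    [IsRegularLocalRing R] [IsAdicComplete (maximalIdeal R) R] (hR : ringKrullDim R = 4)
    (φ : L →+* R) (hres : ∀ r : R, ∃ b : L, r - φ b ∈ maximalIdeal R) (a c : R)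
    (hm : maximalIdeal R = (maximalIdeal L).map φ ⊔ Ideal.span {a, c}) (γ : L)
    (hγ : γ ∈ maximalIdeal L) (hγ2 : γ ∉ maximalIdeal L ^ 2 ⊔ Ideal.span {y})
    (hφ : φ γ - a * c ∈ maximalIdeal R ^ 3) : Good 3 R (φ y) := by
  classical
  have hm' : maximalIdeal R = (maximalIdeal L).map φ ⊔ Ideal.span {-a, c} := by
    rw [hm]
    congr 1
    apply le_antisymm
    · rw [Ideal.span_le]
      rintro z (rfl | rfl)
      · rw [SetLike.mem_coe, ← neg_neg z, neg_mem_iff]
        exact Ideal.subset_span (by simp)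
      · exact Ideal.subset_span (by simp)
    · rw [Ideal.span_le]
      rintro z (rfl | rfl)
      · rw [SetLike.mem_coe, neg_mem_iff]
        exact Ideal.subset_span (by simp)
      · exact Ideal.subset_span (by simp)
  obtain ⟨g, x, c', h1, h2, h3, h4⟩ := split_iter φ hres (-a) c hm' 0 γ (by
    have : 0 - φ γ - -a * c = -(φ γ - a * c) := by ring
    rw [this, neg_mem_iff]
    exact hφ)
  have h3L : maximalIdeal L ^ 3 ≤ maximalIdeal L ^ 2 := Ideal.pow_le_pow_right (by norm_num)
  have h3L' : maximalIdeal L ^ 3 ≤ maximalIdeal L := Ideal.pow_le_self (by norm_num)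
  have hg : g ∈ maximalIdeal L := by
    have : g = (g - γ) + γ := by ring
    rw [this]
    exact add_mem (h3L' h1) hγ
  have hg2 : g ∉ maximalIdeal L ^ 2 ⊔ Ideal.span {y} := by
    intro h
    apply hγ2
    have : γ = g - (g - γ) := by ring
    rw [this]
    exact sub_mem h (Ideal.mem_sup_left (h3L h1))
  have hN : maximalIdeal R ≤ (maximalIdeal L).map φ ⊔ Ideal.span {-x, c'} := by
    refine Submodule.le_of_le_smul_of_le_jacobson_bot (I := maximalIdeal R)
      ((isNoetherianRing_iff_ideal_fg R).1 inferInstance _) (maximalIdeal_le_jacobson _) ?_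
    rw [smul_eq_mul, ← pow_two]
    conv_lhs => rw [hm]
    refine sup_le (le_sup_of_le_left le_sup_left) ?_
    rw [Ideal.span_le]
    rintro z (rfl | rfl)
    · have h5 : z = -x + (x - -z) := by ring
      rw [SetLike.mem_coe, h5]
      exact add_mem (Ideal.mem_sup_left (Ideal.mem_sup_right (Ideal.subset_span (by simp))))
        (Ideal.mem_sup_right h2)
    · have h5 : z = c' - (c' - z) := by ring
      rw [SetLike.mem_coe, h5]
      exact sub_mem (Ideal.mem_sup_left (Ideal.mem_sup_right (Ideal.subset_span (by simp))))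
        (Ideal.mem_sup_right h3)
  have ha : a ∈ maximalIdeal R := by
    rw [hm]
    exact Ideal.mem_sup_right (Ideal.subset_span (by simp))
  have hc : c ∈ maximalIdeal R := by
    rw [hm]
    exact Ideal.mem_sup_right (Ideal.subset_span (by simp))
  have hR2 : maximalIdeal R ^ 2 ≤ maximalIdeal R := Ideal.pow_le_self (by norm_num)
  have hM : maximalIdeal R = (maximalIdeal L).map φ ⊔ Ideal.span {-x, c'} := by
    refine le_antisymm hN (sup_le ?_ ?_)
    · conv_rhs => rw [hm]
      exact le_sup_left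
    · rw [Ideal.span_le]
      rintro z (rfl | rfl)
      · have h5 : -x = a - (x - -a) := by ring
        rw [SetLike.mem_coe, h5]
        exact sub_mem ha (hR2 h2)
      · have h5 : z = c + (z - c) := by ring
        rw [SetLike.mem_coe, h5]
        exact add_mem hc (hR2 h3)
  obtain ⟨e, he⟩ := node_iso hd hR φ hres (-x) c' hM y g hy hy2 hg hg2 (by
    linear_combination -h4)
  have h6 := good_iso 3 _ R e _ (good_X L hd y hy hy2 g hg hg2)
  rw [he] at h6
  exact h6

end Pool.Agent.QU54.BH
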