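import Mathlib
import Pool.Agent.Lib.QU54.Assembly
import Pool.Agent.Lib.MP_3e5078_h74.LaurentBase

/-!
# The hypersurface `x y ^ b = t`
-/

set_option autoImplicit false

namespace Pool.Agent.QU54

open Polynomial IsLocalRing Pool.Agent.QU53 Pool.Agent.QU52

universe u

theorem node_dist {B : Type u} [CommRing B] [Nontrivial B] (I : Ideal B) (s t : B) (hs : s ∈ I) (ht : t ∈ I)
    (b : ℕ) : (nodeP s t b).IsDistinguishedAt I := by
  refine ⟨⟨fun {i} hi => ?_⟩, node_monic s t b⟩
  rw [node_natDegree] at hi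
  rw [nodeP, coeff_add, coeff_sub, coeff_X_pow, if_neg hi.ne, zero_add, coeff_C,
    coeff_C_mul, coeff_X_pow]
  refine sub_mem ?_ (Ideal.mul_mem_right _ _ hs)
  split_ifs
  · exact ht
  · exact zero_mem _

/-- Localisations at corresponding elements. -/
theorem PF_away_congr {R R' : Type u} [CommRing R] [CommRing R'] (e : R ≃+* R') (r : R) (r' : R')
    (h : e r = r') (H : PF (Localization.Away r')) : PF (Localization.Away r) :=
  PF_congr (IsLocalization.ringEquivOfRingEquiv (M := Submonoid.powers r)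
    (T := Submonoid.powers r') (Localization.Away r) (Localization.Away r') e
    (by rw [← h]; exact Submonoid.map_powers _ _)) H

section model

variable {A : Type u} [CommRing A]

theorem one_pos_fin (n : ℕ) : ∀ _ : Fin n, 0 < 1 := fun _ => Nat.one_pos

/-- `x ↦ s - y`. -/
noncomputable def lamN (n : ℕ) : Fin (n + 1) → ℤ := Fin.cons (-1) fun _ => 0

/-- The change of variables `x ↦ s - y`. -/
noncomputable def theta (A : Type u) [CommRing A] (n : ℕ) : MvPowerSeries (Fin (n + 2)) A ≃+*
    MvPowerSeries (Fin (n + 2)) A :=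
  RingEquiv.ofRingHom
    (MvPowerSeries.substAlgHom (R := A) (tau7_hasSubst A (lamN n) (fun _ => 1)
      (one_pos_fin (n + 1)))).toRingHom
    (MvPowerSeries.substAlgHom (R := A) (tau7_hasSubst A (fun j => -lamN n j) (fun _ => 1)
      (one_pos_fin (n + 1)))).toRingHom
    (RingHom.ext fun f => tau7_comp A (fun j => -lamN n j) (fun _ => 1) (one_pos_fin (n + 1))
      (lamN n) (fun _ => (neg_neg _).symm) f)
    (RingHom.ext fun f => tau7_comp A (lamN n) (fun _ => 1) (one_pos_fin (n + 1))
      (fun j => -lamN n j) (fun _ => rfl) f)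

theorem theta_C (n : ℕ) (a : A) : theta A n (MvPowerSeries.C a) = MvPowerSeries.C a :=
  (MvPowerSeries.substAlgHom (R := A) (tau7_hasSubst A (lamN n) (fun _ => 1)
      (one_pos_fin (n + 1)))).commutes a

theorem theta_X0 (n : ℕ) : theta A n (MvPowerSeries.X 0) = MvPowerSeries.X 0 := by
  show MvPowerSeries.substAlgHom (R := A) (tau7_hasSubst A (lamN n) (fun _ => 1)
      (one_pos_fin (n + 1))) (MvPowerSeries.X 0) = _
  rw [MvPowerSeries.substAlgHom_X]
  rfl

theorem theta_X1 (n : ℕ) : theta A n (MvPowerSeries.X 1) =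
    MvPowerSeries.X 1 - MvPowerSeries.X 0 := by
  show MvPowerSeries.substAlgHom (R := A) (tau7_hasSubst A (lamN n) (fun _ => 1)
      (one_pos_fin (n + 1))) (MvPowerSeries.X (Fin.succ 0)) = _
  rw [MvPowerSeries.substAlgHom_X]
  show MvPowerSeries.X (Fin.succ 0) + ((-1 : ℤ) : MvPowerSeries (Fin (n + 2)) A) *
    MvPowerSeries.X 0 ^ 1 = _
  push_cast
  rw [pow_one]
  show MvPowerSeries.X 1 + -1 * MvPowerSeries.X 0 = _
  ring

/-- The isomorphism of the power series rings. -/
noncomputable def modelE (A : Type u) [CommRing A] (n : ℕ) : MvPowerSeries (Fin (n + 2)) A ≃+*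
    PowerSeries (MvPowerSeries (Fin (n + 1)) A) :=
  (theta A n).trans (MvPowerSeries.finSuccEquiv A (n + 1)).toRingEquiv

theorem modelE_apply (n : ℕ) (f : MvPowerSeries (Fin (n + 2)) A) :
    modelE A n f = MvPowerSeries.finSuccEquiv A (n + 1) (theta A n f) := rfl

theorem modelE_X0 (n : ℕ) : modelE A n (MvPowerSeries.X 0) = PowerSeries.X := by
  rw [modelE_apply, theta_X0, MvPowerSeries.finSuccEquiv_X_zero]

theorem modelE_X1 (n : ℕ) : modelE A n (MvPowerSeries.X 1) =
    PowerSeries.C (MvPowerSeries.X 0) - PowerSeries.X := by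
  have h : (MvPowerSeries.X 1 : MvPowerSeries (Fin (n + 2)) A) =
    MvPowerSeries.X (Fin.succ (0 : Fin (n + 1))) := rfl
  rw [modelE_apply, theta_X1, map_sub, MvPowerSeries.finSuccEquiv_X_zero, h,
    MvPowerSeries.finSuccEquiv_X_succ]

theorem modelE_C (n : ℕ) (a : A) : modelE A n (MvPowerSeries.C a) =
    PowerSeries.C (MvPowerSeries.C a) := by
  rw [modelE_apply, theta_C, MvPowerSeries.finSuccEquiv_C]

theorem modelE_eq (n b : ℕ) (t : A) :
    modelE A n (MvPowerSeries.X 1 * MvPowerSeries.X 0 ^ b - MvPowerSeries.C t) =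
      -(nodeP (MvPowerSeries.X 0 : MvPowerSeries (Fin (n + 1)) A) (MvPowerSeries.C t) b :
        PowerSeries (MvPowerSeries (Fin (n + 1)) A)) := by
  rw [map_sub, map_mul, map_pow, modelE_X0, modelE_X1, modelE_C, nodeP]
  push_cast
  ring

end model

section

variable {A : Type u} [CommRing A] [IsNoetherianRing A] [IsLocalRing A]
  [IsAdicComplete (maximalIdeal A) A]

/-- The hypersurface and the finite extension. -/
theorem exists_model (n b : ℕ) (t : A) (ht : t ∈ maximalIdeal A) :
    ∃ e : (MvPowerSeries (Fin (n + 2)) A ⧸ Ideal.span {(MvPowerSeries.X 1 *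
        MvPowerSeries.X 0 ^ b - MvPowerSeries.C t : MvPowerSeries (Fin (n + 2)) A)}) ≃+*
        NodeR (MvPowerSeries.X 0 : MvPowerSeries (Fin (n + 1)) A) (MvPowerSeries.C t) b,
      e (Ideal.Quotient.mk _ (MvPowerSeries.X 0)) = yy _ _ b := by
  let B := MvPowerSeries (Fin (n + 1)) A
  let s : B := MvPowerSeries.X 0
  let T : B := MvPowerSeries.C t
  have hc : IsAdicComplete (maximalIdeal B) B := adicComplete_mvPowerSeries (n + 1)
  have hsm : s ∈ maximalIdeal B := by
    rw [mem_maximalIdeal, mem_nonunits_iff, MvPowerSeries.isUnit_iff_constantCoeff,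
      MvPowerSeries.constantCoeff_X]
    exact not_isUnit_zero
  have htm : T ∈ maximalIdeal B := by
    rw [mem_maximalIdeal, mem_nonunits_iff, MvPowerSeries.isUnit_iff_constantCoeff,
      MvPowerSeries.constantCoeff_C]
    exact ht
  let N : B[X] := nodeP s T b
  have hN : N.IsDistinguishedAt (maximalIdeal B) := node_dist _ s T hsm htm b
  let J : Ideal (MvPowerSeries (Fin (n + 2)) A) := Ideal.span {(MvPowerSeries.X 1 *
        MvPowerSeries.X 0 ^ b - MvPowerSeries.C t : MvPowerSeries (Fin (n + 2)) A)}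
  let J' : Ideal (PowerSeries B) := Ideal.span {(N : PowerSeries B)}
  have hJ : J' = J.map (modelE A n : MvPowerSeries (Fin (n + 2)) A →+* PowerSeries B) := by
    rw [Ideal.map_span, Set.image_singleton]
    show Ideal.span {(N : PowerSeries B)} = Ideal.span {modelE A n (MvPowerSeries.X 1 *
        MvPowerSeries.X 0 ^ b - MvPowerSeries.C t)}
    rw [modelE_eq, Ideal.span_singleton_neg]
  let e1 : (MvPowerSeries (Fin (n + 2)) A ⧸ J) ≃+* (PowerSeries B ⧸ J') :=
    Ideal.quotientEquiv J J' (modelE A n) hJ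
  let e2 : (B[X] ⧸ Ideal.span {N}) ≃ₐ[B] (PowerSeries B ⧸ J') := hN.algEquivQuotient
  have h1 : e2 (Ideal.Quotient.mk _ X) = Ideal.Quotient.mk J' PowerSeries.X := by
    show hN.algEquivQuotient _ = _
    rw [Polynomial.IsDistinguishedAt.algEquivQuotient_apply]
    simp [J']
  refine ⟨e1.trans e2.symm.toRingEquiv, ?_⟩
  show e2.symm (e1 (Ideal.Quotient.mk J (MvPowerSeries.X 0))) = _
  have h2 : e1 (Ideal.Quotient.mk J (MvPowerSeries.X 0)) = Ideal.Quotient.mk J' PowerSeries.X := by
    rw [← modelE_X0]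
    rfl
  rw [h2, ← h1, AlgEquiv.symm_apply_apply]
  rfl

end

/-- The hypersurface `x y ^ b = t` over `S⟦v⟧`, `S` complete regular of dimension two. -/
theorem node_all (S : Type u) [CommRing S] [IsRegularLocalRing S]
    [IsAdicComplete (maximalIdeal S) S] (hd : ringKrullDim S = 2) (t : PowerSeries S)
    (ht : t ∈ maximalIdeal (PowerSeries S)) (ht2 : t ∉ maximalIdeal (PowerSeries S) ^ 2)
    (n b : ℕ) (hb : 0 < b) :
    PF (Localization.Away (Ideal.Quotient.mk (Ideal.span {(MvPowerSeries.X 1 *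
        MvPowerSeries.X 0 ^ b - MvPowerSeries.C t : MvPowerSeries (Fin (n + 2)) (PowerSeries S))})
          (MvPowerSeries.X 0))) := by
  obtain ⟨h1, h2⟩ := QU74.regular_powerSeries S
  have h3 : IsAdicComplete (maximalIdeal (PowerSeries S)) (PowerSeries S) := adicMax8
  have hd3 : ringKrullDim (PowerSeries S) = 3 := by
    rw [h2, hd]
    norm_num
  obtain ⟨e, he⟩ := exists_model n b t ht
  exact PF_away_congr e _ _ he (node_PF hd3 t ht ht2 n b hb
    (QU74.pf_polynomial_base S hd.le n))

end Pool.Agent.QU54
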