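import Mathlib
import Pool.Agent.Lib.QU54.Dil
import Pool.Agent.Lib.QU54.ChainU
import Pool.Agent.Lib.QU54.ChainW

/-!
# The class of pairs obtained from nodes by dilatations
-/

set_option autoImplicit false

namespace Pool.Agent.QU54.BH

open IsLocalRing Pool.Agent.QU53

universe u

/-- The smallest class of pairs `(D, y)`, closed under isomorphisms, which contains, for every
complete regular local ring `L` of dimension three and every regular parameter `y` of `L`,
* `(L⟦a⟧⟦c⟧/(γ - c h), y)` with `h` a finite product of factors `a - β`, `β` in the maximal ideal of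
  `L` (no factor is allowed; then the ring is `L⟦a⟧`), and `γ` an element of the maximal ideal `m` of
  `L⟦a⟧` outside `m ^ 2 + (y, a - β)` for each of the factors;
* `(R, φ y)` with `R` a complete regular local ring of dimension four and `φ : L → R` a ring
  homomorphism such that `R = φ(L) + m_R`, `m_R = φ(m_L) R + (a, c)` and `φ(γ) ≡ a c` modulo
  `m_R ^ 3`, for some `a`, `c` in `R` and some `γ` in `m_L` outside `m_L ^ 2 + (y)`;

and with `(D, y)` also its dilatations `(D⟦x⟧/(g - x y ^ e), y)`, `e ≥ 1`, `g` an element of the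
maximal ideal `m` of `D` outside `m ^ 2 + (y)`. -/
inductive NodeTower : (D : Type u) → [CommRing D] → D → Prop
  | chain (L : Type u) [CommRing L] [IsRegularLocalRing L] [IsAdicComplete (maximalIdeal L) L]
      (hd : ringKrullDim L = 3) (y : L) (hy : y ∈ maximalIdeal L)
      (hy2 : y ∉ maximalIdeal L ^ 2) (l : List L) (hl : ∀ β ∈ l, β ∈ maximalIdeal L)
      (h γ : PowerSeries L) (hh : h = (l.map fun β => PowerSeries.X - PowerSeries.C β).prod)
      (hγ : γ ∈ maximalIdeal (PowerSeries L))
      (hγ2 : ∀ β ∈ l, γ ∉ maximalIdeal (PowerSeries L) ^ 2 ⊔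
        Ideal.span {PowerSeries.C y, PowerSeries.X - PowerSeries.C β}) :
      NodeTower (Blow h γ) (Ideal.Quotient.mk (blowIdeal h γ) (PowerSeries.C (PowerSeries.C y)))
  | nodal (L : Type u) [CommRing L] [IsRegularLocalRing L] [IsAdicComplete (maximalIdeal L) L]
      (hd : ringKrullDim L = 3) (y : L) (hy : y ∈ maximalIdeal L)
      (hy2 : y ∉ maximalIdeal L ^ 2) (R : Type u) [CommRing R] [IsRegularLocalRing R]
      [IsAdicComplete (maximalIdeal R) R] (hR : ringKrullDim R = 4) (φ : L →+* R)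
      (hφ : ∀ r : R, ∃ b : L, r - φ b ∈ maximalIdeal R) (a c : R)
      (hm : maximalIdeal R = (maximalIdeal L).map φ ⊔ Ideal.span {a, c}) (γ : L)
      (hγ : γ ∈ maximalIdeal L) (hγ2 : γ ∉ maximalIdeal L ^ 2 ⊔ Ideal.span {y})
      (hac : φ γ - a * c ∈ maximalIdeal R ^ 3) : NodeTower R (φ y)
  | dilate (D : Type u) [CommRing D] [IsLocalRing D] (y g : D) (e : ℕ)
      (h : NodeTower D y) (he : 0 < e) (hg : g ∈ maximalIdeal D)
      (hg2 : g ∉ maximalIdeal D ^ 2 ⊔ Ideal.span {y}) :
      NodeTower (Dilatation y g e) (Ideal.Quotient.mk (dilatationIdeal y g e) (PowerSeries.C y))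
  | iso (D D' : Type u) [CommRing D] [CommRing D'] (φ : D ≃+* D') (y : D)
      (h : NodeTower D y) : NodeTower D' (φ y)

theorem good_chain (L : Type u) [CommRing L] [IsRegularLocalRing L]
    [IsAdicComplete (maximalIdeal L) L] (hd : ringKrullDim L = 3) (y : L)
    (hy : y ∈ maximalIdeal L) (hy2 : y ∉ maximalIdeal L ^ 2) (l : List L)
    (hl : ∀ β ∈ l, β ∈ maximalIdeal L) (γ : PowerSeries L)
    (hγ : γ ∈ maximalIdeal (PowerSeries L))
    (hγ2 : ∀ β ∈ l, γ ∉ maximalIdeal (PowerSeries L) ^ 2 ⊔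
      Ideal.span {PowerSeries.C y, PowerSeries.X - PowerSeries.C β}) :
    Good 3 (Blow (chainH l) γ)
      (Ideal.Quotient.mk (blowIdeal (chainH l) γ) (PowerSeries.C (PowerSeries.C y))) := by
  by_cases hl0 : l = []
  · subst hl0
    have h1 : chainH ([] : List L) = 1 := by
      rw [chainH, List.map_nil, List.prod_nil]
    rw [h1]
    have hDc : IsAdicComplete (maximalIdeal (PowerSeries L)) (PowerSeries L) := adicMax8
    obtain ⟨e, he⟩ := blow_one γ hγ
    have h2 := good_iso 3 _ _ e _ (good_base 3 L (by exact_mod_cast hd) y hy hy2)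
    rw [he] at h2
    exact h2
  · obtain ⟨hreg, hcomp, hdim, hyM, hyM2⟩ := chain_ring hd y γ l hy hy2 hγ hl0 hl hγ2
    refine ⟨hreg, hcomp, hdim, hyM, hyM2, fun n => ⟨fun P _ _ hf hp _ => ?_, fun _ => ?_⟩⟩
    · exact chain_all hd y γ l hy hy2 hγ hl0 hl hγ2 n P hf hp
    · exact chain_all hd y γ l hy hy2 hγ hl0 hl hγ2 n

/-- The theorem for the class. -/
theorem good_of_nodeTower (D : Type u) [CommRing D] (y : D) (h : NodeTower D y) : Good 3 D y := by
  induction h with
  | chain L hd y hy hy2 l hl h γ hh hγ hγ2 =>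
    subst hh
    exact good_chain L hd y hy hy2 l hl γ hγ hγ2
  | nodal L hd y hy hy2 R hR φ hφ a c hm γ hγ hγ2 hac =>
    exact good_split L R hd y hy hy2 hR φ hφ a c hm γ hγ hγ2 hac
  | dilate D y g e _ he hg hg2 ih => exact good_step 3 D y ih g e he ⟨inferInstance, hg, hg2⟩
  | iso D D' φ y _ ih => exact good_iso 3 D D' φ y ih

end Pool.Agent.QU54.BH
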